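import Pool.Agent.GRA.Basic2

/-!
# GRA/A1: tight sets with demand at least two

Context (all modules GRA/A*): `H` is an independent family on a finite set of `n` vertices, `dof H`
its degrees of freedom, `gg H C = dof H + 1 - kk H (univ \ C)` the demand of `C` (lemma `gg_eq`),
`Feas H m` : `gg H C ≤ mass m C` for all nonempty `C` whose complement has at least 2 elements.
All basic lemmas are in GRA/Basic and GRA/Basic2 (`kk_sub`, `gg_super`, `gg_le`, `kk_union_le`,
`span_all`, `Rig.union`, `Rig.inter`, `Rig.triangle`, `mass_*`, `gg_insert`, ...).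

PROOF of `b1`. Suppose `2 ≤ (X \ C).card`, `T := univ \ C`, so `T ∩ X = X \ C` has two elements.
`kk_sub hH T X` and `kk H X = 0`, `0 ≤ kk H (T ∩ X)` give `kk H (T ∪ X) ≤ kk H T`.
`T ∪ X = univ \ (C \ X)`. If `C \ X` is nonempty: `gg H (C \ X) = dof + 1 - kk (T ∪ X) ≥ gg H C`
and `hm` (the complement of `C \ X` contains `T`) gives `gg H (C \ X) ≤ mass (C \ X) ≤ mass C - m x
< mass C = gg H C`, a contradiction. If `C \ X = ∅` then `T ∪ X = univ`, so `dof H = kk univ ≤ kk T`
and `gg H C ≤ 1`, contradicting `2 ≤ gg H C`.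

PROOF of `tight_union`. `gg_super`, `hm` for `A ∪ B` and for `A ∩ B` (contains `x`) and
`mass_union_inter` give `mass A + mass B ≤ gg (A ∪ B) + gg (A ∩ B) ≤ mass (A ∪ B) + mass (A ∩ B)
= mass A + mass B`, so `gg (A ∪ B) = mass (A ∪ B) ≥ mass A ≥ 2`.

PROOF of `good_step`. `m' = m - 1` at `x` and `y`. For `C` (nonempty, complement ≥ 2):
`gg_insert`: the demand drops by one iff `x ∈ C ∨ y ∈ C`. If exactly one of them is in `C` the mass
drops by one; if both, the mass drops by 2, but `C` is not tight with demand ≥ 2 (`hng`), so either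
`gg H C < mass m C` or `gg H C ≤ 1`, and in the latter case `gg - 1 ≤ 0 ≤ mass m' C`.
-/

namespace Pool.Agent.GRA

open Finset

variable {α : Type*} [Fintype α] [DecidableEq α]

theorem b1 {H : Finset (Finset α)} (hH : Indep H) {m : α → ℕ} (hm : Feas H m)
    {C X : Finset α} (hC : Tight2 H m C) (hX : Rig H X) {x : α} (hx : x ∈ C) (hxX : x ∈ X)
    (hmx : 0 < m x) : (X \ C).card ≤ 1 := by
  by_contra hcon
  have h2 : 2 ≤ (X \ C).card := by omega
  obtain ⟨hC1, hC2, hC3⟩ := hC
  have e1 : (univ \ C) ∩ X = X \ C := by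
    ext v
    simp only [mem_inter, mem_sdiff, mem_univ, true_and]
    tauto
  have h3 := kk_sub hH (univ \ C) X
  rw [e1, hX.2] at h3
  have h4 := hH.nonneg _ h2
  have h5 : kk H ((univ \ C) ∪ X) ≤ kk H (univ \ C) := by linarith
  have hgC := gg_eq H C
  by_cases hne : (C \ X).Nonempty
  · have e2 : univ \ (C \ X) = (univ \ C) ∪ X := by
      ext v
      simp only [mem_union, mem_sdiff, mem_univ, true_and]
      tauto
    have h6 := gg_eq H (C \ X)
    rw [e2] at h6
    have h7 : 2 ≤ (univ \ (C \ X)).card := by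
      rw [e2]
      exact hC1.trans (card_le_card subset_union_left)
    have h8 := hm (C \ X) hne h7
    have h9 : mass m (C \ X) + m x ≤ mass m C := by
      have hnx : x ∉ C \ X := fun h => (mem_sdiff.1 h).2 hxX
      rw [add_comm, ← mass_insert m hnx]
      exact mass_mono m (insert_subset hx sdiff_subset)
    have h10 : (mass m (C \ X) : ℤ) + (m x : ℤ) ≤ (mass m C : ℤ) := by exact_mod_cast h9
    have h11 : (0 : ℤ) < (m x : ℤ) := by exact_mod_cast hmx
    linarith
  · rw [not_nonempty_iff_eq_empty] at hne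
    have e3 : (univ \ C) ∪ X = univ := by
      ext v
      simp only [mem_union, mem_sdiff, mem_univ, true_and, iff_true]
      by_cases hv : v ∈ C
      · right
        by_contra hvX
        have : v ∈ C \ X := mem_sdiff.2 ⟨hv, hvX⟩
        rw [hne] at this
        exact absurd this (notMem_empty v)
      · left
        exact hv
    rw [e3] at h5
    have h6 : dof H = kk H univ := rfl
    linarith

theorem tight_union {H : Finset (Finset α)} (hH : Indep H) {m : α → ℕ} (hm : Feas H m)
    {A B : Finset α} (hA : Tight2 H m A) (hB : Tight2 H m B) {x : α} (hxA : x ∈ A) (hxB : x ∈ B)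
    (hmx : 0 < m x) (h2 : 2 ≤ (univ \ (A ∪ B)).card) : Tight2 H m (A ∪ B) := by
  obtain ⟨hA1, hA2, hA3⟩ := hA
  obtain ⟨hB1, hB2, hB3⟩ := hB
  have h3 := gg_super hH A B
  have h4 := hm (A ∪ B) ⟨x, mem_union_left _ hxA⟩ h2
  have h5 := hm (A ∩ B) ⟨x, mem_inter.2 ⟨hxA, hxB⟩⟩
    (hA1.trans (card_le_card (sdiff_subset_sdiff subset_rfl inter_subset_left)))
  have h6 : (mass m (A ∪ B) : ℤ) + (mass m (A ∩ B) : ℤ) = (mass m A : ℤ) + (mass m B : ℤ) := by
    exact_mod_cast mass_union_inter m A B
  have h7 : (mass m A : ℤ) ≤ (mass m (A ∪ B) : ℤ) := by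
    exact_mod_cast mass_mono m (subset_union_left (s₁ := A) (s₂ := B))
  exact ⟨h2, by linarith, by linarith⟩

theorem good_step {H : Finset (Finset α)} (hH : Indep H) {m : α → ℕ} (hm : Feas H m)
    {x y : α} (hxy : x ≠ y) (hx : 0 < m x) (hy : 0 < m y) (hs : ¬ Span H x y)
    (hng : ∀ C, Tight2 H m C → x ∈ C → y ∉ C) :
    ∃ m' : α → ℕ, Feas (insert {x, y} H) m' ∧ mass m' univ + 2 = mass m univ ∧
      ∀ L : Finset α, x ∉ L → y ∉ L → mass m' L = mass m L := by
  have hpt : ∀ v, m v = (m v - (if v = x ∨ v = y then 1 else 0)) + (if v = x then 1 else 0) +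
      (if v = y then 1 else 0) := by
    intro v
    by_cases h1 : v = x
    · have h2 : v ≠ y := fun h => hxy (h1.symm.trans h)
      have h3 : 0 < m v := by rw [h1]; exact hx
      simp only [h1, true_or, if_true, if_neg (h1 ▸ h2 : x ≠ y)]
      rw [h1] at h3
      omega
    · by_cases h2 : v = y
      · have h3 : 0 < m v := by rw [h2]; exact hy
        have h4 : ¬ y = x := fun h => hxy h.symm
        simp only [h2, or_true, if_true, if_neg h4]
        rw [h2] at h3
        omega
      · simp only [h1, h2, or_self, if_false]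
        omega
  have hmass : ∀ C : Finset α, mass m C =
      mass (fun v => m v - (if v = x ∨ v = y then 1 else 0)) C + (if x ∈ C then 1 else 0) +
        (if y ∈ C then 1 else 0) := by
    intro C
    have h1 : mass m C = ∑ v ∈ C, ((m v - (if v = x ∨ v = y then 1 else 0)) +
        (if v = x then 1 else 0) + (if v = y then 1 else 0)) :=
      sum_congr rfl fun v _ => hpt v
    rw [h1, sum_add_distrib, sum_add_distrib, sum_ite_eq', sum_ite_eq']
    rfl
  refine ⟨fun v => m v - (if v = x ∨ v = y then 1 else 0), ?_, ?_, ?_⟩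
  · intro C hC hC2
    have h1 := hm C hC hC2
    have h2 := hmass C
    have h3 := gg_insert hxy (not_mem_of_not_span hH hs) C
    rw [h3]
    by_cases hxC : x ∈ C
    · by_cases hyC : y ∈ C
      · simp only [hxC, hyC, or_self, if_true] at h2 ⊢
        by_cases ht : (mass m C : ℤ) = gg H C
        · have h4 : ¬ 2 ≤ gg H C := fun h => hng C ⟨hC2, ht, h⟩ hxC hyC
          have h5 : (0 : ℤ) ≤ (mass (fun v => m v - (if v = x ∨ v = y then 1 else 0)) C : ℤ) :=
            Nat.cast_nonneg _
          omega
        · omega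
      · simp only [hxC, hyC, or_false, if_true, if_false] at h2 ⊢
        omega
    · by_cases hyC : y ∈ C
      · simp only [hxC, hyC, or_true, if_true, if_false] at h2 ⊢
        omega
      · simp only [hxC, hyC, or_self, if_false] at h2 ⊢
        omega
  · have h2 := hmass univ
    simp only [mem_univ, if_true] at h2
    omega
  · intro L hxL hyL
    have h2 := hmass L
    simp only [hxL, hyL, if_false] at h2
    omega

end Pool.Agent.GRA
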