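import Pool.Agent.GRA.A1

/-!
# GRA/A2: near-covers

PROOF of `near_cover`. Put `d = dof H`, `TA = univ \ A`, `TB = univ \ B`, `a = kk H TA = d+1-gg A`,
`b = kk H TB` (both ≥ 0). `mass A = gg A = d+1-a`, `mass B = d+1-b`, `mass (A ∩ B) ≥ m x ≥ 1`.
If `univ \ (A ∪ B) = ∅` then `2γ = mass (A ∪ B) = mass A + mass B - mass (A ∩ B) ≤ 2d+1 < 2γ`.
So it is `{z}`; `TA ∩ TB = {z}`. `kk_union_le`: `kk (TA ∪ TB) ≤ a + b + 1`, and
`TA ∪ TB = univ \ (A ∩ B)`, so `mass (A ∩ B) ≥ gg (A ∩ B) = d+1-kk(TA ∪ TB) ≥ d-a-b`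
(`hm` applies: `A ∩ B` contains `x`, its complement contains `TA`). Then
`m z = 2γ - mass (A ∪ B) = 2γ - mass A - mass B + mass (A ∩ B) ≥ 2γ - (2d+2-a-b) + (d-a-b)
= 2γ - d - 2`; with `m z ≤ γ - 1` we get `γ ≤ d+1`, so `γ = d+1` and `m z ≥ d`, `m z ≤ γ - 1 = d`.
-/

namespace Pool.Agent.GRA

open Finset

variable {α : Type*} [Fintype α] [DecidableEq α]

theorem near_cover {H : Finset (Finset α)} (hH : Indep H) {m : α → ℕ} (hm : Feas H m) {γ : ℕ}
    (hγ : dof H + 1 ≤ γ) (htot : mass m univ = 2 * γ) (hcap : ∀ v, m v + 1 ≤ γ)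
    {A B : Finset α} (hA : Tight2 H m A) (hB : Tight2 H m B) {x : α} (hxA : x ∈ A) (hxB : x ∈ B)
    (hmx : 0 < m x) (h : (univ \ (A ∪ B)).card ≤ 1) :
    (γ : ℤ) = dof H + 1 ∧ ∃ z, (m z : ℤ) = dof H := by
  obtain ⟨hA1, hA2, hA3⟩ := hA
  obtain ⟨hB1, hB2, hB3⟩ := hB
  have ha := hH.nonneg _ hA1
  have hb := hH.nonneg _ hB1
  have hui := mass_union_inter m A B
  have hcomp := mass_compl m (A ∪ B)
  have hxle := le_mass m (mem_inter.2 ⟨hxA, hxB⟩ : x ∈ A ∩ B)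
  rw [gg_eq] at hA2 hB2
  rcases Nat.lt_or_ge (univ \ (A ∪ B)).card 1 with h0 | h0
  · have he : univ \ (A ∪ B) = ∅ := card_eq_zero.1 (by omega)
    have hm0 : mass m (univ \ (A ∪ B)) = 0 := by rw [he]; rfl
    exfalso
    omega
  · have h1 : (univ \ (A ∪ B)).card = 1 := by omega
    obtain ⟨z, hz⟩ := card_eq_one.1 h1
    have hTi : (univ \ A) ∩ (univ \ B) = univ \ (A ∪ B) := by
      ext t; simp only [mem_inter, mem_sdiff, mem_univ, true_and, mem_union]; tauto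
    have hTu : (univ \ A) ∪ (univ \ B) = univ \ (A ∩ B) := by
      ext t; simp only [mem_inter, mem_sdiff, mem_univ, true_and, mem_union]; tauto
    have hk := kk_union_le hH (A := univ \ A) (B := univ \ B) (by rw [hTi]; omega)
    rw [hTu, hTi, h1] at hk
    have hsub : univ \ A ⊆ univ \ (A ∩ B) := sdiff_subset_sdiff subset_rfl inter_subset_left
    have hg := hm (A ∩ B) ⟨x, mem_inter.2 ⟨hxA, hxB⟩⟩ (hA1.trans (card_le_card hsub))
    rw [gg_eq] at hg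
    have hmz : mass m (univ \ (A ∪ B)) = m z := by
      rw [hz]; unfold mass; rw [sum_singleton]
    have hcz := hcap z
    push_cast at hk
    refine ⟨by omega, z, by omega⟩

end Pool.Agent.GRA
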