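import Pool.Agent.GRA.A1

/-!
# GRA/A3: without near-covers there is a good pair

`NoGood H m`: no pair in the support is good (unspanned and in no common tight set).

PROOF of `no_near`. Let `d = dof H ≥ 1`. Note `m v ≤ γ - 1` and total `2γ`.
(i) There is a `Tight2` set. Otherwise by `hng` all pairs of the support `U = {v | 0 < m v}` are
spanned; `U` has at least 3 elements (total `2γ > 2(γ-1)`), so `span_all` gives a rigid `X ⊇ U`.
`X ≠ univ` because `kk H X = 0 < d = kk H univ`; with `C = univ \ X` nonempty: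
`gg H C = d + 1 - kk H X = d + 1 > 0 = mass m C`, contradicting `hm`.
(ii) Let `C` be a `Tight2` set that is maximal with respect to inclusion (finite). `mass C = gg C ≤
d+1 ≤ γ` (`gg_le`), so `P' = {v ∉ C | 0 < m v}` has mass ≥ γ; since each `m v ≤ γ-1`, `P'` has at
least two elements. `P = {v ∈ C | 0 < m v}` is nonempty (mass C ≥ 2); fix `x ∈ P`.
(iii) for `y ∈ P'`: `x, y` are not in a common `Tight2` set `B` (else `tight_union` with `hnn` gives
the `Tight2` set `C ∪ B`, contradicting maximality of `C`, as `y ∉ C`). So `Span H x y`.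
(iv) for `y ≠ y'` in `P'`: `¬ Span H y y'`: otherwise `x, y, y'` are pairwise spanned, `span_all`
gives rigid `X` containing them, and `b1` (with `C`, `X`, `x`) says `(X \ C).card ≤ 1`, but it
contains `y, y'`. So by `hng` there is a `Tight2` set containing `y, y'`.
(v) fix `y ∈ P'` and a maximal `Tight2` set `B ∋ y` containing some `y' ≠ y` of `P'` (exists by (iv)).
All of `P'` is in `B`: for `y'' ∈ P'`, `y'' ≠ y`, take `Tight2` `B' ∋ y, y''`; `tight_union` at `y`
and maximality give `B' ⊆ B`.
(vi) no support vertex is in `B ∩ C` (else `tight_union`, maximality of `C`, but `y ∉ C`).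
So the support is contained in the union, `2γ = mass univ = mass C + mass B ≤ 2(d+1)` (masses of
`P ∪ P'`), hence `γ = d+1` and `gg C = d+1`, so `kk H (univ \ C) = 0`: `univ \ C` is rigid and
contains `y, y'`: `Span H y y'`, contradicting (iv).
-/

namespace Pool.Agent.GRA

open Finset

variable {α : Type*} [Fintype α] [DecidableEq α]

/-- No good pair in the support. -/
def NoGood (H : Finset (Finset α)) (m : α → ℕ) : Prop :=
  ∀ x y, x ≠ y → 0 < m x → 0 < m y → Span H x y ∨ ∃ C, Tight2 H m C ∧ x ∈ C ∧ y ∈ C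

omit [Fintype α] in
theorem a3_span_symm {H : Finset (Finset α)} {x y : α} (h : Span H x y) : Span H y x := by
  obtain ⟨X, hX, h1, h2⟩ := h
  exact ⟨X, hX, h2, h1⟩

/-- A maximal set with demand at least two above a given one. -/
theorem a3_exists_max {H : Finset (Finset α)} {m : α → ℕ} {C : Finset α} (hC : Tight2 H m C) :
    ∃ B, Tight2 H m B ∧ C ⊆ B ∧ ∀ A, Tight2 H m A → B ⊆ A → A = B := by
  classical
  let S : Finset (Finset α) := univ.filter (fun Y => Tight2 H m Y ∧ C ⊆ Y)
  have hS : S.Nonempty := ⟨C, mem_filter.2 ⟨mem_univ _, hC, subset_rfl⟩⟩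
  obtain ⟨Y, hYS, hmax⟩ := exists_max_image S card hS
  obtain ⟨_, hY, hXY⟩ := mem_filter.1 hYS
  refine ⟨Y, hY, hXY, fun Z hZ hYZ => ?_⟩
  have := hmax Z (mem_filter.2 ⟨mem_univ _, hZ, hXY.trans hYZ⟩)
  exact (eq_of_subset_of_card_le hYZ this).symm

theorem no_near {H : Finset (Finset α)} (hH : Indep H) {m : α → ℕ} (hm : Feas H m) {γ : ℕ}
    (hd : 1 ≤ dof H) (hγ : dof H + 1 ≤ γ) (htot : mass m univ = 2 * γ)
    (hcap : ∀ v, m v + 1 ≤ γ) (hng : NoGood H m)
    (hnn : ∀ A B x, Tight2 H m A → Tight2 H m B → x ∈ A → x ∈ B → 0 < m x →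
      2 ≤ (univ \ (A ∪ B)).card) : False := by
  classical
  -- (i)
  have hex : ∃ C, Tight2 H m C := by
    by_contra hne
    push Not at hne
    set U : Finset α := univ.filter (fun v => 0 < m v) with hU
    have hmU : mass m U = 2 * γ := by
      rw [← htot]
      unfold mass
      rw [hU, sum_filter]
      refine sum_congr rfl fun v _ => ?_
      split_ifs with h
      · rfl
      · omega
    have hU2 : 2 ≤ U.card := by
      by_contra hc
      have h1 : mass m U ≤ U.card * (γ - 1) := by
        unfold mass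
        have := sum_le_card_nsmul U m (γ - 1) fun v _ => by
          have := hcap v
          omega
        simpa using this
      have h2 : U.card * (γ - 1) ≤ 1 * (γ - 1) := Nat.mul_le_mul_right _ (by omega)
      omega
    obtain ⟨X, hX, hUX⟩ := span_all hH hU2 fun x hx y hy hxy => by
      rcases hng x y hxy (mem_filter.1 hx).2 (mem_filter.1 hy).2 with h | ⟨C, hC, -⟩
      · exact h
      · exact absurd hC (hne C)
    have hXne : X ≠ univ := by
      intro h
      have h1 := hX.2
      rw [h] at h1
      unfold dof at hd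
      omega
    have hCne : (univ \ X).Nonempty := by
      rw [sdiff_nonempty]
      intro h
      exact hXne (univ_subset_iff.1 h)
    have hXX : univ \ (univ \ X) = X := Finset.sdiff_sdiff_eq_self (subset_univ X)
    have h1 := hm (univ \ X) hCne (by rw [hXX]; exact hX.1)
    rw [gg_compl, hX.2] at h1
    have h2 : mass m (univ \ X) = 0 := by
      apply sum_eq_zero
      intro v hv
      by_contra hc
      exact (mem_sdiff.1 hv).2 (hUX (mem_filter.2 ⟨mem_univ v, Nat.pos_of_ne_zero hc⟩))
    rw [h2] at h1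
    push_cast at h1
    linarith
  -- (ii)
  obtain ⟨C0, hC0⟩ := hex
  obtain ⟨C, hC, -, hmaxC⟩ := a3_exists_max hC0
  have hgC : gg H C ≤ dof H + 1 := gg_le hH hC.1
  have hmC : (mass m C : ℤ) ≤ γ := by
    rw [hC.2.1]
    exact hgC.trans hγ
  have htotC := mass_compl m C
  rw [htot] at htotC
  obtain ⟨x, hxC, hmx⟩ : ∃ x ∈ C, 0 < m x := by
    apply exists_pos_of_mass_pos
    have h1 := hC.2.1
    have h2 := hC.2.2
    omega
  have hP' : (γ : ℤ) ≤ mass m (univ \ C) := by
    omega
  -- another element
  have hother : ∀ y, ∃ y', y' ≠ y ∧ y' ∉ C ∧ 0 < m y' := by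
    intro y
    have h1 : 0 < mass m ((univ \ C).erase y) := by
      by_cases hy : y ∈ univ \ C
      · have h2 : m y + mass m ((univ \ C).erase y) = mass m (univ \ C) := by
          have := mass_insert m (notMem_erase y (univ \ C))
          rw [insert_erase hy] at this
          exact this.symm
        have h3 := hcap y
        omega
      · rw [erase_eq_of_notMem hy]
        have h3 := hcap y
        omega
    obtain ⟨y', hy', hpos⟩ := exists_pos_of_mass_pos h1
    have h2 := mem_erase.1 hy'
    exact ⟨y', h2.1, (mem_sdiff.1 h2.2).2, hpos⟩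
  -- (iii)
  have h3 : ∀ y, y ∉ C → 0 < m y → Span H x y := by
    intro y hyC hmy
    have hxy : x ≠ y := fun h => hyC (h ▸ hxC)
    rcases hng x y hxy hmx hmy with h | ⟨B, hB, hxB, hyB⟩
    · exact h
    · exfalso
      have h4 := tight_union hH hm hC hB hxC hxB hmx (hnn C B x hC hB hxC hxB hmx)
      have h5 := hmaxC _ h4 subset_union_left
      exact hyC (h5 ▸ mem_union_right _ hyB)
  -- (iv)
  have h4 : ∀ y y', y ≠ y' → y ∉ C → y' ∉ C → 0 < m y → 0 < m y' → ¬ Span H y y' := by
    intro y y' hyy hy hy' hmy hmy' hs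
    have hxy : x ≠ y := fun h => hy (h ▸ hxC)
    have hxy' : x ≠ y' := fun h => hy' (h ▸ hxC)
    have s1 := h3 y hy hmy
    have s2 := h3 y' hy' hmy'
    have hU : 2 ≤ ({x, y, y'} : Finset α).card := by
      calc 2 = ({x, y} : Finset α).card := (card_pair hxy).symm
        _ ≤ _ := card_le_card (by
          intro t ht
          simp only [mem_insert, mem_singleton] at ht ⊢
          tauto)
    obtain ⟨X, hX, hUX⟩ := span_all hH hU (by
      intro a ha b hb hab
      simp only [mem_insert, mem_singleton] at ha hb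
      rcases ha with rfl | rfl | rfl <;> rcases hb with rfl | rfl | rfl
      · exact absurd rfl hab
      · exact s1
      · exact s2
      · exact a3_span_symm s1
      · exact absurd rfl hab
      · exact hs
      · exact a3_span_symm s2
      · exact a3_span_symm hs
      · exact absurd rfl hab)
    have h5 := b1 hH hm hC hX hxC (hUX (by simp)) hmx
    have h6 : 2 ≤ (X \ C).card := by
      calc 2 = ({y, y'} : Finset α).card := (card_pair hyy).symm
        _ ≤ _ := card_le_card (by
          intro t ht
          simp only [mem_insert, mem_singleton] at ht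
          rcases ht with rfl | rfl
          · exact mem_sdiff.2 ⟨hUX (by simp), hy⟩
          · exact mem_sdiff.2 ⟨hUX (by simp), hy'⟩)
    omega
  -- (v)
  obtain ⟨y, -, hyC, hmy⟩ := hother x
  obtain ⟨y', hyy, hy'C, hmy'⟩ := hother y
  have hnot := h4 y y' hyy.symm hyC hy'C hmy hmy'
  obtain ⟨B0, hB0, hyB0, hy'B0⟩ : ∃ B, Tight2 H m B ∧ y ∈ B ∧ y' ∈ B := by
    rcases hng y y' hyy.symm hmy hmy' with h | h
    · exact absurd h hnot
    · exact h
  obtain ⟨B, hB, hB0B, hmaxB⟩ := a3_exists_max hB0
  have hyB := hB0B hyB0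
  have hall : ∀ z, z ∉ C → 0 < m z → z ∈ B := by
    intro z hz hmz
    by_cases hzy : z = y
    · rw [hzy]
      exact hyB
    · rcases hng y z (Ne.symm hzy) hmy hmz with h | ⟨B', hB', hyB', hzB'⟩
      · exact absurd h (h4 y z (Ne.symm hzy) hyC hz hmy hmz)
      · have h5 := tight_union hH hm hB hB' hyB hyB' hmy (hnn B B' y hB hB' hyB hyB' hmy)
        have h6 := hmaxB _ h5 subset_union_left
        exact h6 ▸ mem_union_right _ hzB'
  have hmB : mass m (univ \ C) ≤ mass m B := by
    have h5 : mass m (univ \ C) = mass m ((univ \ C).filter (fun v => 0 < m v)) := by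
      unfold mass
      rw [sum_filter]
      refine sum_congr rfl fun v _ => ?_
      split_ifs with h
      · rfl
      · omega
    rw [h5]
    apply mass_mono
    intro z hz
    have h6 := mem_filter.1 hz
    exact hall z (mem_sdiff.1 h6.1).2 h6.2
  have hgB : gg H B ≤ dof H + 1 := gg_le hH hB.1
  have hB2 := hB.2.1
  have hC2 := hC.2.1
  have hgC' : gg H C = dof H + 1 := by
    have h5 : ((mass m (univ \ C) : ℕ) : ℤ) + mass m C = 2 * γ := by exact_mod_cast htotC
    have h6 : ((mass m (univ \ C) : ℕ) : ℤ) ≤ mass m B := by exact_mod_cast hmB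
    linarith
  have hkk : kk H (univ \ C) = 0 := by
    rw [gg_eq] at hgC'
    linarith
  exact hnot ⟨univ \ C, ⟨hC.1, hkk⟩, mem_sdiff.2 ⟨mem_univ _, hyC⟩, mem_sdiff.2 ⟨mem_univ _, hy'C⟩⟩

end Pool.Agent.GRA
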