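import Pool.Agent.GRA.A3

/-!
# GRA/A4: the exceptional configuration has a centre

`Center H m z`: `m z = dof H`, all other support vertices have mass one and are spanned with `z`.

PROOF of `center`. `d = dof H ≥ 1`, `γ = d+1`, total `2d+2`, `m v ≤ d` for all `v`.
FACT 1: for a rigid set `X ≠ univ`... in fact for every rigid `X` (it is `≠ univ` as `kk univ = d ≥ 1`)
`mass (univ \ X) ≥ gg (univ \ X) = d+1`, so `mass X ≤ d+1`.
FACT 2: `Tight2` sets have mass `≤ d+1`.
(1) Every support vertex `y ≠ z` has `m y = 1`: by `hng z y` either a rigid `X ∋ z, y`: `m z + m y ≤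
mass X ≤ d+1`; or a `Tight2` set containing both: `d + m y ≤ d+1`. So `m y ≤ 1`.
Hence there are exactly `d+2` support vertices other than `z` (total `2d+2 - d`).
(2) If `y ≠ z` is a support vertex with `¬ Span H z y`, then the `Tight2` set `C ∋ z, y` has mass
exactly `d+1`, so it contains no other support vertex, `gg C = d+1`, `T_y := univ \ C` is rigid,
contains all support vertices except `z, y`, and `z, y ∉ T_y`.
(3) Case `d ≥ 2`: then every support vertex `y ≠ z` is spanned with `z` (so `z` is a centre).
Suppose not for `y0`; `T0 := T_{y0}` contains the other `d+1 ≥ 3` ones. If `y1 ≠ y0` is another one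
with `¬ Span z y1`, then `T0 ∩ T_{y1}` contains the `d ≥ 2` others, so `X := T0 ∪ T_{y1}` is rigid, it
contains all support vertices except `z`, and `mass (univ \ X) = m z = d < d+1`, contradicting
FACT 1 (`z ∉ X`). So all `y ≠ y0` are spanned with `z` and pairwise spanned (in `T0`): `span_all` for
`U = {z} ∪ {others than y0}` gives a rigid `X ⊇ U`, `mass X ≥ d + (d+1) > d+1`. Contradiction.
(4) Case `d = 1`: the support has exactly four vertices, all of mass 1 (`z` and three others), total
4. FACT 1: a rigid set contains at most 2 of them, so there is no triple of support vertices that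
is pairwise spanned (`span_all`). FACT 3: for a partition of the support into two pairs
`{a,b}, {c,e}`: `Span a b ∨ Span c e`: by `hng a b` either `Span a b` or a `Tight2` set `C ∋ a, b`,
of mass ≤ 2 hence containing neither `c` nor `e`, with `gg C = 2`, so `univ \ C ∋ c, e` is rigid.
So at least one pair of each of the three partitions is spanned and there is no spanned triangle:
the spanned pairs (one per partition) are either all through one vertex (a star: that vertex is the
centre; note `m = 1 = d` for it) or form a triangle (excluded). Write the support as `z, a, b, c`: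
8 cases: choose from {za|bc}, {zb|ac}, {zc|ab}: (za,zb,zc) star at z; (za,zb,ab) triangle;
(za,ac,zc) triangle; (za,ac,ab) star at a; (bc,zb,zc) triangle; (bc,zb,ab) star at b; (bc,ac,zc)
star at c; (bc,ac,ab) triangle.
-/

namespace Pool.Agent.GRA

open Finset

variable {α : Type*} [Fintype α] [DecidableEq α]

/-- The exceptional configuration. -/
def Center (H : Finset (Finset α)) (m : α → ℕ) (z : α) : Prop :=
  (m z : ℤ) = dof H ∧ ∀ y, y ≠ z → 0 < m y → m y = 1 ∧ Span H z y

private theorem span_symmCN {H : Finset (Finset α)} {x y : α} (h : Span H x y) :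
    Span H y x := by
  obtain ⟨X, hX, h1, h2⟩ := h
  exact ⟨X, hX, h2, h1⟩

private theorem mass_tripleCN (m : α → ℕ) {x y t : α} (hxy : x ≠ y) (hxt : x ≠ t)
    (hyt : y ≠ t) {A : Finset α} (hx : x ∈ A) (hy : y ∈ A) (ht : t ∈ A) :
    m x + m y + m t ≤ mass m A := by
  have h1 : mass m ({x, y, t} : Finset α) = m x + (m y + m t) := by
    rw [mass_insert m (by simp [hxy, hxt]), mass_insert m (by simp [hyt])]
    unfold mass
    rw [sum_singleton]
  have h2 : ({x, y, t} : Finset α) ⊆ A := by
    intro v hv
    simp only [mem_insert, mem_singleton] at hv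
    rcases hv with rfl | rfl | rfl <;> assumption
  have h3 := mass_mono m h2
  omega

theorem center {H : Finset (Finset α)} (hH : Indep H) {m : α → ℕ} (hm : Feas H m) {γ : ℕ}
    (hd : 1 ≤ dof H) (hγ : (γ : ℤ) = dof H + 1) (htot : mass m univ = 2 * γ)
    (hcap : ∀ v, m v + 1 ≤ γ) (hng : NoGood H m) {z : α} (hz : (m z : ℤ) = dof H) :
    ∃ z', Center H m z' := by
  classical
  have hg : γ = m z + 1 := by
    have : (γ : ℤ) = m z + 1 := by rw [hz]; exact hγ
    exact_mod_cast this
  have hz1 : 1 ≤ m z := by
    have : (1 : ℤ) ≤ m z := by rw [hz]; exact hd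
    exact_mod_cast this
  have F1 : ∀ X, Rig H X → mass m X ≤ m z + 1 := by
    intro X hX
    have hne : (univ \ X).Nonempty := by
      rw [nonempty_iff_ne_empty]
      intro he
      have h1 : X = univ := by
        rw [sdiff_eq_empty_iff_subset] at he
        exact subset_antisymm (subset_univ _) he
      rw [h1] at hX
      have h2 := hX.2
      unfold dof at hd
      linarith
    have h2 : 2 ≤ (univ \ (univ \ X)).card := by
      rw [Finset.sdiff_sdiff_eq_self (subset_univ X)]
      exact hX.1
    have h3 := hm _ hne h2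
    rw [gg_compl, hX.2] at h3
    have h4 := mass_compl m X
    have h5 : (m z : ℤ) + 1 ≤ mass m (univ \ X) := by rw [hz]; linarith
    have h6 : m z + 1 ≤ mass m (univ \ X) := by exact_mod_cast h5
    omega
  have F2 : ∀ C, Tight2 H m C → mass m C ≤ m z + 1 := by
    intro C hC
    have h1 := gg_le hH hC.1
    have h2 := hC.2.1
    have h3 : (mass m C : ℤ) ≤ m z + 1 := by rw [hz, h2]; exact h1
    exact_mod_cast h3
  have F3 : ∀ C, Tight2 H m C → m z + 1 ≤ mass m C → Rig H (univ \ C) := by
    intro C hC hle
    have h0 := F2 C hC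
    have h1 : mass m C = m z + 1 := le_antisymm h0 hle
    have h2 := hC.2.1
    rw [gg_eq, h1] at h2
    push_cast at h2
    exact ⟨hC.1, by linarith⟩
  have S1 : ∀ y, y ≠ z → 0 < m y → m y = 1 := by
    intro y hy hp
    rcases hng z y hy.symm (by omega) hp with ⟨X, hX, hzX, hyX⟩ | ⟨C, hC, hzC, hyC⟩
    · have h1 := F1 X hX
      have h2 := mass_pair_le m hy.symm hzX hyX
      omega
    · have h1 := F2 C hC
      have h2 := mass_pair_le m hy.symm hzC hyC
      omega
  obtain ⟨O, hO⟩ : ∃ O, O = (univ.erase z).filter (fun v => 0 < m v) := ⟨_, rfl⟩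
  have memO : ∀ v, v ∈ O ↔ v ≠ z ∧ 0 < m v := by
    intro v
    rw [hO, mem_filter, mem_erase]
    simp
  have massO : ∀ Q : Finset α, Q ⊆ O → mass m Q = Q.card := by
    intro Q hQ
    unfold mass
    rw [card_eq_sum_ones]
    apply sum_congr rfl
    intro v hv
    have := (memO v).1 (hQ hv)
    exact S1 v this.1 this.2
  have cardO : O.card = m z + 2 := by
    have h1 : m z + ∑ v ∈ univ.erase z, m v = mass m univ :=
      add_sum_erase univ m (mem_univ z)
    have h2 : ∑ v ∈ univ.erase z, m v = O.card := by
      rw [← massO O subset_rfl, hO]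
      unfold mass
      rw [sum_filter]
      apply sum_congr rfl
      intro v _
      by_cases hv : 0 < m v
      · rw [if_pos hv]
      · rw [if_neg hv]
        omega
    omega
  have T : ∀ y, y ≠ z → 0 < m y → ¬ Span H z y →
      ∃ T, Rig H T ∧ ∀ v, v ≠ z → v ≠ y → 0 < m v → v ∈ T := by
    intro y hy hp hns
    rcases hng z y hy.symm (by omega) hp with h | ⟨C, hC, hzC, hyC⟩
    · exact absurd h hns
    have h2 := mass_pair_le m hy.symm hzC hyC
    have h3 := F2 C hC
    refine ⟨univ \ C, F3 C hC (by omega), fun v hvz hvy hvp => ?_⟩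
    rw [mem_sdiff]
    refine ⟨mem_univ _, fun hvC => ?_⟩
    have h4 := mass_tripleCN m hy.symm hvz.symm hvy.symm hzC hyC hvC
    omega
  by_cases hall : ∀ y, y ≠ z → 0 < m y → Span H z y
  · exact ⟨z, hz, fun y hy hp => ⟨S1 y hy hp, hall y hy hp⟩⟩
  push Not at hall
  obtain ⟨y0, hy0, hp0, hns0⟩ := hall
  by_cases hdd : 2 ≤ m z
  · exfalso
    obtain ⟨T0, hT0, hT0m⟩ := T y0 hy0 hp0 hns0
    have y0O : y0 ∈ O := (memO y0).2 ⟨hy0, hp0⟩
    have hoth : ∀ y, y ≠ z → y ≠ y0 → 0 < m y → Span H z y := by
      intro y1 hy1 hy10 hp1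
      by_contra hns1
      obtain ⟨T1, hT1, hT1m⟩ := T y1 hy1 hp1 hns1
      have y1O : y1 ∈ O.erase y0 := mem_erase.2 ⟨hy10, (memO y1).2 ⟨hy1, hp1⟩⟩
      have hsub : (O.erase y0).erase y1 ⊆ T0 ∩ T1 := by
        intro v hv
        rw [mem_erase, mem_erase] at hv
        have h1 := (memO v).1 hv.2.2
        exact mem_inter.2 ⟨hT0m v h1.1 hv.2.1 h1.2, hT1m v h1.1 hv.1 h1.2⟩
      have hc : 2 ≤ (T0 ∩ T1).card := by
        have h1 := card_le_card hsub
        rw [card_erase_of_mem y1O, card_erase_of_mem y0O] at h1
        omega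
      have hr := Rig.union hH hT0 hT1 hc
      have hOs : O ⊆ T0 ∪ T1 := by
        intro v hv
        have h1 := (memO v).1 hv
        by_cases hv0 : v = y0
        · rw [mem_union]
          right
          exact hT1m v h1.1 (by rw [hv0]; exact hy10.symm) h1.2
        · rw [mem_union]
          left
          exact hT0m v h1.1 hv0 h1.2
      have h1 := mass_mono m hOs
      rw [massO O subset_rfl, cardO] at h1
      have h2 := F1 _ hr
      omega
    have hU2 : 2 ≤ (insert z (O.erase y0)).card := by
      rw [card_insert_of_notMem (fun h => ((memO z).1 (mem_erase.1 h).2).1 rfl),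
        card_erase_of_mem y0O]
      omega
    obtain ⟨X, hX, hXs⟩ := span_all hH hU2 (by
      intro x hx y hy hxy
      rw [mem_insert, mem_erase] at hx hy
      rcases hx with rfl | hx
      · rcases hy with rfl | hy
        · exact absurd rfl hxy
        · have h1 := (memO y).1 hy.2
          exact hoth y h1.1 hy.1 h1.2
      · have hx1 := (memO x).1 hx.2
        rcases hy with rfl | hy
        · exact span_symmCN (hoth x hx1.1 hx.1 hx1.2)
        · have hy1 := (memO y).1 hy.2
          exact ⟨T0, hT0, hT0m x hx1.1 hx.1 hx1.2, hT0m y hy1.1 hy.1 hy1.2⟩)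
    have h1 := mass_mono m hXs
    rw [mass_insert m (fun h => ((memO z).1 (mem_erase.1 h).2).1 rfl),
      massO _ (erase_subset _ _), card_erase_of_mem y0O, cardO] at h1
    have h2 := F1 X hX
    omega
  · have hmz : m z = 1 := by omega
    have M1 : ∀ v, 0 < m v → m v = 1 := by
      intro v hv
      by_cases h : v = z
      · rw [h]; exact hmz
      · exact S1 v h hv
    have notri : ∀ p q r, p ≠ q → q ≠ r → p ≠ r → 0 < m p → 0 < m q → 0 < m r →
        Span H p q → Span H q r → Span H p r → False := by
      intro p q r hpq hqr hpr hp hq hr s1 s2 s3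
      obtain ⟨X, hX, hXs⟩ := span_all hH (U := {p, q, r}) (by
        rw [card_insert_of_notMem (by simp [hpq, hpr]), card_pair hqr]
        norm_num) (by
        intro x hx y hy hxy
        simp only [mem_insert, mem_singleton] at hx hy
        rcases hx with rfl | rfl | rfl <;> rcases hy with rfl | rfl | rfl
        · exact absurd rfl hxy
        · exact s1
        · exact s3
        · exact span_symmCN s1
        · exact absurd rfl hxy
        · exact s2
        · exact span_symmCN s3
        · exact span_symmCN s2
        · exact absurd rfl hxy)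
      have h1 := mass_tripleCN m hpq hpr hqr (hXs (by simp)) (hXs (by simp)) (hXs (by simp))
      have h2 := F1 X hX
      omega
    have F4 : ∀ p q r s, p ≠ q → r ≠ p → r ≠ q → s ≠ p → s ≠ q → 0 < m p → 0 < m q →
        0 < m r → 0 < m s → Span H p q ∨ Span H r s := by
      intro p q r s hpq hrp hrq hsp hsq hp hq hr hs
      rcases hng p q hpq hp hq with h | ⟨C, hC, hpC, hqC⟩
      · exact Or.inl h
      · right
        have h1 := mass_pair_le m hpq hpC hqC
        have h2 := F2 C hC
        refine ⟨univ \ C, F3 C hC (by omega), ?_, ?_⟩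
        · rw [mem_sdiff]
          refine ⟨mem_univ _, fun h => ?_⟩
          have := mass_tripleCN m hpq hrp.symm hrq.symm hpC hqC h
          omega
        · rw [mem_sdiff]
          refine ⟨mem_univ _, fun h => ?_⟩
          have := mass_tripleCN m hpq hsp.symm hsq.symm hpC hqC h
          omega
    obtain ⟨a, b, c, hab, hac, hbc, hOe⟩ := card_eq_three.1 (show O.card = 3 by omega)
    have ha := (memO a).1 (by rw [hOe]; simp)
    have hb := (memO b).1 (by rw [hOe]; simp)
    have hc := (memO c).1 (by rw [hOe]; simp)
    have supp : ∀ y, 0 < m y → y = z ∨ y = a ∨ y = b ∨ y = c := by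
      intro y hy
      by_cases hyz : y = z
      · exact Or.inl hyz
      · right
        have := (memO y).2 ⟨hyz, hy⟩
        rw [hOe] at this
        simpa using this
    have hzp : 0 < m z := by omega
    have star : ∀ s, 0 < m s → (∀ y, y ≠ s → 0 < m y → Span H s y) → ∃ z', Center H m z' := by
      intro s hs hsp
      refine ⟨s, ?_, fun y hy hp => ⟨M1 y hp, hsp y hy hp⟩⟩
      rw [M1 s hs, ← hz, hmz]
    rcases F4 z a b c ha.1.symm hb.1 hab.symm hc.1 hac.symm hzp ha.2 hb.2 hc.2 with e1 | e1
    · rcases F4 z b a c hb.1.symm ha.1 hab hc.1 hbc.symm hzp hb.2 ha.2 hc.2 with e2 | e2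
      · rcases F4 z c a b hc.1.symm ha.1 hac hb.1 hbc hzp hc.2 ha.2 hb.2 with e3 | e3
        · refine star z hzp fun y hy hp => ?_
          rcases supp y hp with rfl | rfl | rfl | rfl
          · exact absurd rfl hy
          · exact e1
          · exact e2
          · exact e3
        · exact (notri z a b ha.1.symm hab hb.1.symm hzp ha.2 hb.2 e1 e3 e2).elim
      · rcases F4 z c a b hc.1.symm ha.1 hac hb.1 hbc hzp hc.2 ha.2 hb.2 with e3 | e3
        · exact (notri z a c ha.1.symm hac hc.1.symm hzp ha.2 hc.2 e1 e2 e3).elim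
        · refine star a ha.2 fun y hy hp => ?_
          rcases supp y hp with rfl | rfl | rfl | rfl
          · exact span_symmCN e1
          · exact absurd rfl hy
          · exact e3
          · exact e2
    · rcases F4 z b a c hb.1.symm ha.1 hab hc.1 hbc.symm hzp hb.2 ha.2 hc.2 with e2 | e2
      · rcases F4 z c a b hc.1.symm ha.1 hac hb.1 hbc hzp hc.2 ha.2 hb.2 with e3 | e3
        · exact (notri z b c hb.1.symm hbc hc.1.symm hzp hb.2 hc.2 e2 e1 e3).elim
        · refine star b hb.2 fun y hy hp => ?_
          rcases supp y hp with rfl | rfl | rfl | rfl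
          · exact span_symmCN e2
          · exact span_symmCN e3
          · exact absurd rfl hy
          · exact e1
      · rcases F4 z c a b hc.1.symm ha.1 hac hb.1 hbc hzp hc.2 ha.2 hb.2 with e3 | e3
        · refine star c hc.2 fun y hy hp => ?_
          rcases supp y hp with rfl | rfl | rfl | rfl
          · exact span_symmCN e3
          · exact span_symmCN e2
          · exact span_symmCN e1
          · exact absurd rfl hy
        · exact (notri a b c hab hbc hac ha.2 hb.2 hc.2 e3 e1 e2).elim

end Pool.Agent.GRA
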