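import Pool.Agent.GRA.A4

/-!
# GRA/A5: the centre of the exceptional configuration is slack

`d = dof H ≥ 1`, `γ = d+1`, total `2d+2`, `z` a centre: `m z = d`, and `Y := {y ≠ z | 0 < m y}` has
exactly `d+2` elements, all of mass 1 and spanned with `z`.

PROOF of `center_unspanned`: if `y, y' ∈ Y` were spanned, `z, y, y'` are pairwise spanned, `span_all`
gives rigid `X ∋ z, y, y'`; `X ≠ univ` (`kk univ = d > 0`), `mass (univ \ X) ≥ gg (univ \ X) = d+1`
but `mass (univ \ X) ≤ 2d+2 - (d+2) = d`.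

PROOF of `center_slack`. Suppose `z ∈ D`, `T := univ \ D`, `|T| ≥ 2`, and `mass D ≤ gg D`; with `hm`
`mass D = gg D`; `κ := kk H T = d + 1 - mass D`. For `y ∈ Y` choose a rigid `X_y ∋ z, y` maximal
under inclusion (`exists_max_rig`). For `y ≠ y'` in `Y`: `X_y ∩ X_y' = {z}` (if they share two
elements the union is rigid, so by maximality `X_y = X_y ∪ X_y' ∋ y'`, contradicting
`center_unspanned`).
MAIN COUNT (*): if `X_y ∩ T = {y}` for all `y ∈ Y \ D` then False. Let `s = |Y \ D|`,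
`U = T ∪ ⋃_{y ∈ Y \ D} X_y`. Then `|U| = |T| + Σ (|X_y| - 2) + 1` if `s ≥ 1` (`z ∉ T`), the sets of
members of `H` inside `T`, inside the various `X_y` are pairwise disjoint (intersections have at most
one element), so `sIn U ≥ sIn T + Σ sIn X_y = (w T - κ) + Σ w X_y` and `kk U ≤ 2 - s + κ`.
Here `mass D = d + |Y ∩ D|` (mass of `z` plus those of `Y ∩ D`; other vertices of `D` have mass 0),
so `κ = 1 - |Y ∩ D|`, `s = d + 2 - |Y ∩ D| = d + 1 + κ`, hence `kk U ≤ 1 - d`. On the other hand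
`kk U ≥ d`: if `U = univ` this is `dof`; otherwise `gg (univ \ U) = d + 1 - kk U ≤ mass (univ \ U)
≤ |Y ∩ D| = 1 - κ`, so `kk U ≥ d + κ ≥ d`. So `d ≤ 1 - d`, impossible for `d ≥ 1`.
CASE `gg D ≥ 2` : `D` is `Tight2`; `b1` with `x = z` gives `(X_y \ D).card ≤ 1` and for `y ∈ Y \ D`
this means `X_y ∩ T = {y}`. Apply (*).
CASE `gg D ≤ 1`: `mass D = gg D ≥ m z = d ≥ 1`, so `d = 1`, `mass D = 1`, `Y ∩ D = ∅`, `κ = 1`,
`|Y| = 3`, all of `Y` is in `T`. If `X_y ∩ T = {y}` for all `y ∈ Y`, apply (*). Otherwise some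
`y1 ∈ Y` has `|X_{y1} ∩ T| ≥ 2`; `kk_sub` with `X1 = X_{y1}`: `kk (T ∪ X1) + kk (T ∩ X1) ≤ 1`.
`T ∪ X1` contains `z` and `Y`, i.e. all support vertices; if it is not `univ` then
`gg (univ \ (T ∪ X1)) = 2 - kk (T ∪ X1) ≤ 0`, so `kk (T ∪ X1) ≥ 2`, a contradiction with
`kk (T ∩ X1) ≥ 0`. So `univ = T ∪ X1`, i.e. `D ⊆ X1`. Let `y2, y3` be the other two elements of `Y`,
`X2, X3` their sets: `X2 \ {z} ⊆ T` and `X3 \ {z} ⊆ T` (as `X2 ∩ X1 = {z}`), so `X2, X3 ⊆ insert z T`.
`Rig.exists_mem` gives members `A2 ∋ z` inside `X2`, `A3 ∋ z` inside `X3`, `A2 ≠ A3`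
(`X2 ∩ X3 = {z}`), both inside `insert z T` and not inside `T`; so `sIn (insert z T) ≥ sIn T + 2` and
`kk (insert z T) ≤ kk T + 2 - 2 = 1`. If `insert z T ≠ univ` then
`gg (univ \ insert z T) = 2 - kk ≤ mass (D \ {z}) = 0`, so `kk (insert z T) ≥ 2`: contradiction.
If `insert z T = univ` (so `D = {z}`): also `X1 ⊆ insert z T`, so a third member `A1 ∋ z` inside `X1`
gives `sIn univ ≥ sIn T + 3`, `dof = kk univ ≤ 1 + 2 - 3 = 0`, contradiction with `d = 1`.

PROOF of `center_not_anch`: `Anch H L`: there is a rigid `R` such that every rigid set `X` meeting `L`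
meets `R` in at least two elements. If `z ∈ L`: `Y` has `d+2 ≥ 2` elements `y ≠ y'`; maximal rigid
`X_y, X_y' ∋ z` meet `R` in two elements, so `X_y ∪ R` is rigid, `R ⊆ X_y` and `R ⊆ X_y'` by
maximality, so `|X_y ∩ X_y'| ≥ |R| ≥ 2`, so `X_y = X_y'` contains `y, y'`: contradiction to
`center_unspanned`.
-/

namespace Pool.Agent.GRA

open Finset

variable {α : Type*} [Fintype α] [DecidableEq α]

/-- `L` is anchored in a rigid set. -/
def Anch (H : Finset (Finset α)) (L : Finset α) : Prop :=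
  ∃ R, Rig H R ∧ ∀ X, Rig H X → (X ∩ L).Nonempty → 2 ≤ (X ∩ R).card

/-- The support vertices different from `z`. -/
def A5.Y (m : α → ℕ) (z : α) : Finset α := univ.filter (fun y => y ≠ z ∧ 0 < m y)

theorem A5.mem_Y {m : α → ℕ} {z y : α} : y ∈ A5.Y m z ↔ y ≠ z ∧ 0 < m y := by
  unfold A5.Y
  rw [mem_filter]
  exact ⟨fun h => h.2, fun h => ⟨mem_univ y, h⟩⟩

theorem A5.mass_notMem {m : α → ℕ} {z : α} (h1 : ∀ y, y ≠ z → 0 < m y → m y = 1)
    {S : Finset α} (hz : z ∉ S) : mass m S = (A5.Y m z ∩ S).card := by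
  unfold mass A5.Y
  rw [filter_inter, univ_inter, card_filter]
  apply sum_congr rfl
  intro v hv
  have hvz : v ≠ z := fun h => hz (h ▸ hv)
  by_cases h0 : 0 < m v
  · rw [if_pos ⟨hvz, h0⟩, h1 v hvz h0]
  · rw [if_neg (fun h => h0 h.2)]
    omega

theorem A5.mass_mem {m : α → ℕ} {z : α} (h1 : ∀ y, y ≠ z → 0 < m y → m y = 1)
    {S : Finset α} (hz : z ∈ S) : mass m S = m z + (A5.Y m z ∩ S).card := by
  have h := A5.mass_notMem (S := S.erase z) h1 (notMem_erase z S)
  have h2 : mass m S = m z + mass m (S.erase z) := by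
    conv_lhs => rw [← insert_erase hz]
    exact mass_insert m (notMem_erase z S)
  rw [h2, h]
  congr 2
  ext v
  rw [mem_inter, mem_inter, mem_erase, A5.mem_Y]
  tauto

theorem A5.mass_compl_rig {H : Finset (Finset α)} {m : α → ℕ} (hm : Feas H m)
    (hd : 1 ≤ dof H) {X : Finset α} (hX : Rig H X) : dof H + 1 ≤ (mass m (univ \ X) : ℤ) := by
  have hne : (univ \ X).Nonempty := by
    rw [nonempty_iff_ne_empty]
    intro h
    have h1 : X = univ := by
      rw [sdiff_eq_empty_iff_subset] at h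
      exact univ_subset_iff.1 h
    have h2 := hX.2
    rw [h1] at h2
    unfold dof at hd
    omega
  have h := hm (univ \ X) hne (by
    rw [Finset.sdiff_sdiff_eq_self (subset_univ X)]
    exact hX.1)
  rw [gg_compl, hX.2] at h
  linarith

theorem center_unspanned {H : Finset (Finset α)} (hH : Indep H) {m : α → ℕ} (hm : Feas H m)
    {γ : ℕ} (hd : 1 ≤ dof H) (hγ : (γ : ℤ) = dof H + 1) (htot : mass m univ = 2 * γ)
    {z : α} (hz : Center H m z) {y y' : α} (hyy : y ≠ y') (hyz : y ≠ z) (hyz' : y' ≠ z)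
    (hy : 0 < m y) (hy' : 0 < m y') : ¬ Span H y y' := by
  intro hs
  have hzy := (hz.2 y hyz hy).2
  have hzy' := (hz.2 y' hyz' hy').2
  have hsymm : ∀ {a b : α}, Span H a b → Span H b a := fun ⟨X, hX, ha, hb⟩ => ⟨X, hX, hb, ha⟩
  obtain ⟨X, hX, hU⟩ := span_all hH (U := {z, y, y'}) (by
    calc 2 = ({y, y'} : Finset α).card := (card_pair hyy).symm
      _ ≤ _ := card_le_card (by
        intro t ht
        simp only [mem_insert, mem_singleton] at ht ⊢
        tauto)) (by
    intro a ha b hb hab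
    simp only [mem_insert, mem_singleton] at ha hb
    rcases ha with rfl | rfl | rfl <;> rcases hb with rfl | rfl | rfl
    · exact absurd rfl hab
    · exact hzy
    · exact hzy'
    · exact hsymm hzy
    · exact absurd rfl hab
    · exact hs
    · exact hsymm hzy'
    · exact hsymm hs
    · exact absurd rfl hab)
  have h1 := A5.mass_compl_rig hm hd hX
  have h2 := mass_compl m X
  have h3 : mass m ({z, y, y'} : Finset α) ≤ mass m X := mass_mono m hU
  have h4 : mass m ({z, y, y'} : Finset α) = m z + (m y + m y') := by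
    rw [mass_insert m (by
      simp only [mem_insert, mem_singleton]
      rintro (h | h)
      · exact hyz h.symm
      · exact hyz' h.symm)]
    unfold mass
    rw [sum_pair hyy]
  have h5 := hz.1
  have h6 : ((m z + (m y + m y') + mass m (univ \ X) : ℕ) : ℤ) ≤ ((2 * γ : ℕ) : ℤ) := by
    exact_mod_cast (by omega : m z + (m y + m y') + mass m (univ \ X) ≤ 2 * γ)
  push_cast at h6
  have h7 : (1 : ℤ) ≤ m y := by exact_mod_cast hy
  have h8 : (1 : ℤ) ≤ m y' := by exact_mod_cast hy'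
  linarith

/-- Maximal rigid sets through the centre and the other support vertices. -/
theorem A5.exX {H : Finset (Finset α)} (hH : Indep H) {m : α → ℕ} (hm : Feas H m)
    {γ : ℕ} (hd : 1 ≤ dof H) (hγ : (γ : ℤ) = dof H + 1) (htot : mass m univ = 2 * γ)
    {z : α} (hz : Center H m z) : ∃ X : α → Finset α,
      (∀ y ∈ A5.Y m z, Rig H (X y) ∧ z ∈ X y ∧ y ∈ X y ∧
        ∀ Z, Rig H Z → X y ⊆ Z → Z = X y) ∧
      ∀ y ∈ A5.Y m z, ∀ y' ∈ A5.Y m z, y ≠ y' → (X y ∩ X y').card ≤ 1 := by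
  have h : ∀ y, ∃ X : Finset α, y ∈ A5.Y m z → Rig H X ∧ z ∈ X ∧ y ∈ X ∧
      ∀ Z, Rig H Z → X ⊆ Z → Z = X := by
    intro y
    by_cases hy : y ∈ A5.Y m z
    · obtain ⟨h1, h2⟩ := A5.mem_Y.1 hy
      obtain ⟨X₀, hX₀, hzX, hyX⟩ := (hz.2 y h1 h2).2
      obtain ⟨X, hX, hsub, hmax⟩ := exists_max_rig hX₀
      exact ⟨X, fun _ => ⟨hX, hsub hzX, hsub hyX, hmax⟩⟩
    · exact ⟨∅, fun h => absurd h hy⟩
  choose X hX using h
  refine ⟨X, hX, fun y hy y' hy' hyy => ?_⟩
  by_contra hc
  obtain ⟨hr, hzX, hyX, hmax⟩ := hX y hy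
  obtain ⟨hr', hzX', hyX', hmax'⟩ := hX y' hy'
  have hU := hr.union hH hr' (by omega)
  have h1 := hmax _ hU subset_union_left
  have h2 : y' ∈ X y := by
    rw [← h1]
    exact mem_union_right _ hyX'
  obtain ⟨a1, a2⟩ := A5.mem_Y.1 hy
  obtain ⟨b1, b2⟩ := A5.mem_Y.1 hy'
  exact center_unspanned hH hm hd hγ htot hz hyy a1 b1 a2 b2 ⟨X y, hr, hyX, h2⟩

theorem A5.sum_sIn_le {H : Finset (Finset α)} (hH : Indep H) (S : Finset α)
    (F : α → Finset α) {T U : Finset α} (hT : T ⊆ U) (hF : ∀ y ∈ S, F y ⊆ U)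
    (h1 : ∀ y ∈ S, (T ∩ F y).card ≤ 1)
    (h2 : ∀ y ∈ S, ∀ y' ∈ S, y ≠ y' → (F y ∩ F y').card ≤ 1) :
    sIn H T + ∑ y ∈ S, sIn H (F y) ≤ sIn H U := by
  have hdis : ∀ {A B : Finset α}, (A ∩ B).card ≤ 1 →
      Disjoint (H.filter (· ⊆ A)) (H.filter (· ⊆ B)) := by
    intro A B hAB
    rw [disjoint_left]
    intro C hC hC'
    have h3 := card_le_card (subset_inter (mem_filter.1 hC).2 (mem_filter.1 hC').2)
    have h4 := hH.two C (mem_filter.1 hC).1
    omega
  have hb : ∑ y ∈ S, sIn H (F y) = ∑ C ∈ S.biUnion (fun y => H.filter (· ⊆ F y)), w C := by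
    rw [sum_biUnion]
    · rfl
    · intro y hy y' hy' hyy
      exact hdis (h2 y hy y' hy' hyy)
  have hd : Disjoint (H.filter (· ⊆ T)) (S.biUnion (fun y => H.filter (· ⊆ F y))) := by
    rw [disjoint_biUnion_right]
    intro y hy
    exact hdis (h1 y hy)
  rw [hb]
  unfold sIn
  rw [← sum_union hd]
  apply sum_le_sum_of_subset_of_nonneg
  · intro C hC
    rcases mem_union.1 hC with h | h
    · exact mem_filter.2 ⟨(mem_filter.1 h).1, (mem_filter.1 h).2.trans hT⟩
    · obtain ⟨y, hy, h⟩ := mem_biUnion.1 h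
      exact mem_filter.2 ⟨(mem_filter.1 h).1, (mem_filter.1 h).2.trans (hF y hy)⟩
  · intro C hC _
    have := hH.w_pos (mem_filter.1 hC).1
    linarith

theorem A5.w_biUnion (S : Finset α) (F : α → Finset α) {T : Finset α} {z : α} (hz : z ∉ T)
    (h1 : ∀ y ∈ S, T ∩ F y = {y}) (h2 : ∀ y ∈ S, z ∈ F y)
    (h3 : ∀ y ∈ S, ∀ y' ∈ S, y ≠ y' → (F y ∩ F y').card ≤ 1) :
    w (insert z T ∪ S.biUnion F) = w T + ∑ y ∈ S, w (F y) + 2 - S.card := by
  induction S using Finset.induction_on with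
  | empty =>
    rw [biUnion_empty, union_empty, w_insert hz, sum_empty, card_empty]
    push_cast
    ring
  | insert y S hy ih =>
    have ih' := ih (fun a ha => h1 a (mem_insert_of_mem ha)) (fun a ha => h2 a
      (mem_insert_of_mem ha)) (fun a ha b hb hab => h3 a (mem_insert_of_mem ha) b
      (mem_insert_of_mem hb) hab)
    have hyS : y ∈ insert y S := mem_insert_self y S
    have hyT : y ∈ T ∩ F y := by
      rw [h1 y hyS]
      exact mem_singleton_self y
    have hyT' := mem_inter.1 hyT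
    have hyz : y ≠ z := fun h => hz (h ▸ hyT'.1)
    have e1 : insert z T ∪ (insert y S).biUnion F = (insert z T ∪ S.biUnion F) ∪ F y := by
      rw [biUnion_insert, union_comm (F y), union_assoc]
    have e2 : (insert z T ∪ S.biUnion F) ∩ F y = {y, z} := by
      ext t
      simp only [mem_inter, mem_union, mem_insert, mem_biUnion, mem_singleton]
      constructor
      · rintro ⟨(rfl | ht) | ⟨a, ha, ht⟩, hty⟩
        · exact Or.inr rfl
        · left
          have : t ∈ T ∩ F y := mem_inter.2 ⟨ht, hty⟩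
          rw [h1 y hyS] at this
          exact mem_singleton.1 this
        · right
          have hay : a ≠ y := fun h => hy (h ▸ ha)
          have h4 := h3 a (mem_insert_of_mem ha) y hyS hay
          exact card_le_one.1 h4 t (mem_inter.2 ⟨ht, hty⟩) z
            (mem_inter.2 ⟨h2 a (mem_insert_of_mem ha), h2 y hyS⟩)
      · rintro (rfl | rfl)
        · exact ⟨Or.inl (Or.inr hyT'.1), hyT'.2⟩
        · exact ⟨Or.inl (Or.inl rfl), h2 y hyS⟩
    have e3 := w_union_inter (insert z T ∪ S.biUnion F) (F y)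
    rw [e2, w_pair hyz, ← e1] at e3
    rw [sum_insert hy, card_insert_of_notMem hy]
    push_cast
    linarith

/-- The main count. -/
theorem A5.main_count {H : Finset (Finset α)} (hH : Indep H) {m : α → ℕ} (hm : Feas H m)
    {γ : ℕ} (hd : 1 ≤ dof H) (hγ : (γ : ℤ) = dof H + 1) (htot : mass m univ = 2 * γ)
    {z : α} (hz : Center H m z) {D : Finset α} (hzD : z ∈ D) (h2 : 2 ≤ (univ \ D).card)
    (hD : (mass m D : ℤ) = gg H D) {X : α → Finset α}
    (hX : ∀ y ∈ A5.Y m z, Rig H (X y) ∧ z ∈ X y ∧ y ∈ X y ∧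
        ∀ Z, Rig H Z → X y ⊆ Z → Z = X y)
    (hXX : ∀ y ∈ A5.Y m z, ∀ y' ∈ A5.Y m z, y ≠ y' → (X y ∩ X y').card ≤ 1)
    (hT : ∀ y ∈ A5.Y m z, y ∉ D → X y \ D = {y}) : False := by
  have h1m : ∀ y, y ≠ z → 0 < m y → m y = 1 := fun y hy h => (hz.2 y hy h).1
  obtain ⟨T, hTdef⟩ : ∃ T, T = univ \ D := ⟨_, rfl⟩
  have hTc : univ \ T = D := by
    rw [hTdef, Finset.sdiff_sdiff_eq_self (subset_univ D)]
  have hzT : z ∉ T := by
    rw [hTdef]
    simp [hzD]
  have hmemT : ∀ t, t ∈ T ↔ t ∉ D := by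
    intro t
    rw [hTdef]
    simp
  obtain ⟨S, hS⟩ : ∃ S, S = A5.Y m z ∩ T := ⟨_, rfl⟩
  have hSY : ∀ y ∈ S, y ∈ A5.Y m z := fun y hy => (mem_inter.1 (hS ▸ hy)).1
  have hST : ∀ y ∈ S, y ∈ T := fun y hy => (mem_inter.1 (hS ▸ hy)).2
  have hTX : ∀ y ∈ S, T ∩ X y = {y} := by
    intro y hy
    rw [← hT y (hSY y hy) ((hmemT y).1 (hST y hy))]
    ext t
    rw [mem_inter, mem_sdiff, hmemT]
    tauto
  -- sizes
  have c1 : mass m D = m z + (A5.Y m z ∩ D).card := A5.mass_mem h1m hzD
  have c2 : mass m T = S.card := by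
    rw [A5.mass_notMem h1m hzT, hS]
  have c3 : mass m T + mass m D = 2 * γ := by
    rw [← htot, ← mass_compl m D, hTdef]
  have c4 : gg H D = dof H + 1 - kk H T := by
    rw [gg_eq, hTdef]
  have hTcard : 2 ≤ T.card := by rw [hTdef]; exact h2
  have c5 := hH.nonneg T hTcard
  have c6 := hz.1
  -- the union
  obtain ⟨U, hU⟩ : ∃ U, U = insert z T ∪ S.biUnion X := ⟨_, rfl⟩
  have hzU : z ∈ U := by
    rw [hU]
    exact mem_union_left _ (mem_insert_self z T)
  have hTU : T ⊆ U := by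
    rw [hU]
    exact (subset_insert z T).trans subset_union_left
  have hXU : ∀ y ∈ S, X y ⊆ U := by
    intro y hy
    rw [hU]
    exact (subset_biUnion_of_mem X hy).trans subset_union_right
  have d1 : w U = w T + ∑ y ∈ S, w (X y) + 2 - S.card := by
    rw [hU]
    exact A5.w_biUnion S X hzT hTX (fun y hy => (hX y (hSY y hy)).2.1)
      (fun y hy y' hy' hyy => hXX y (hSY y hy) y' (hSY y' hy') hyy)
  have d2 : sIn H T + ∑ y ∈ S, sIn H (X y) ≤ sIn H U :=
    A5.sum_sIn_le hH S X hTU hXU (fun y hy => by rw [hTX y hy, card_singleton])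
      (fun y hy y' hy' hyy => hXX y (hSY y hy) y' (hSY y' hy') hyy)
  have d3 : ∑ y ∈ S, w (X y) = ∑ y ∈ S, sIn H (X y) := by
    apply sum_congr rfl
    intro y hy
    have := (hX y (hSY y hy)).1.2
    unfold kk at this
    linarith
  have d4 : kk H U ≤ kk H T + 2 - S.card := by
    unfold kk
    linarith
  -- cardinalities in the integers
  have e1 : (mass m T : ℤ) = S.card := by exact_mod_cast c2
  have e2 : (mass m D : ℤ) = m z + ((A5.Y m z ∩ D).card : ℤ) := by exact_mod_cast c1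
  have e3 : (mass m T : ℤ) + mass m D = 2 * γ := by exact_mod_cast c3
  have e4 : (0 : ℤ) ≤ ((A5.Y m z ∩ D).card : ℤ) := Int.natCast_nonneg _
  have d5 : dof H ≤ kk H U := by
    by_cases hUu : U = univ
    · rw [hUu]
      rfl
    · have hne : (univ \ U).Nonempty := by
        rw [nonempty_iff_ne_empty]
        intro h
        rw [sdiff_eq_empty_iff_subset] at h
        exact hUu (univ_subset_iff.1 h)
      have hUc : univ \ (univ \ U) = U := Finset.sdiff_sdiff_eq_self (subset_univ U)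
      have h3 := hm (univ \ U) hne (by
        rw [hUc]
        exact hTcard.trans (card_le_card hTU))
      rw [gg_compl] at h3
      have h4 : mass m (univ \ U) ≤ (A5.Y m z ∩ D).card := by
        rw [A5.mass_notMem h1m (by simp [hzU])]
        apply card_le_card
        intro t ht
        rw [mem_inter] at ht ⊢
        refine ⟨ht.1, ?_⟩
        by_contra htD
        exact (mem_sdiff.1 ht.2).2 (hTU ((hmemT t).2 htD))
      have h5 : (mass m (univ \ U) : ℤ) ≤ ((A5.Y m z ∩ D).card : ℤ) := by exact_mod_cast h4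
      linarith
  linarith

theorem A5.sIn_insert_ge {H : Finset (Finset α)} (hH : Indep H) {T : Finset α} {z : α}
    (hz : z ∉ T) (𝓐 : Finset (Finset α))
    (h𝓐 : ∀ A ∈ 𝓐, A ∈ H ∧ z ∈ A ∧ A ⊆ insert z T) :
    sIn H T + 𝓐.card ≤ sIn H (insert z T) := by
  have hd : Disjoint (H.filter (· ⊆ T)) 𝓐 := by
    rw [disjoint_left]
    intro C hC hC'
    exact hz ((mem_filter.1 hC).2 (h𝓐 C hC').2.1)
  have h1 : (𝓐.card : ℤ) ≤ ∑ A ∈ 𝓐, w A := by
    calc (𝓐.card : ℤ) = ∑ _A ∈ 𝓐, (1 : ℤ) := by simp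
      _ ≤ _ := sum_le_sum fun A hA => hH.w_pos (h𝓐 A hA).1
  have h2 : ∑ A ∈ H.filter (· ⊆ T), w A + ∑ A ∈ 𝓐, w A ≤
      ∑ A ∈ H.filter (· ⊆ insert z T), w A := by
    rw [← sum_union hd]
    apply sum_le_sum_of_subset_of_nonneg
    · intro C hC
      rcases mem_union.1 hC with h | h
      · exact mem_filter.2 ⟨(mem_filter.1 h).1, (mem_filter.1 h).2.trans (subset_insert z T)⟩
      · exact mem_filter.2 ⟨(h𝓐 C h).1, (h𝓐 C h).2.2⟩
    · intro C hC _
      have := hH.w_pos (mem_filter.1 hC).1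
      linarith
  unfold sIn
  linarith

theorem center_slack {H : Finset (Finset α)} (hH : Indep H) {m : α → ℕ} (hm : Feas H m)
    {γ : ℕ} (hd : 1 ≤ dof H) (hγ : (γ : ℤ) = dof H + 1) (htot : mass m univ = 2 * γ)
    {z : α} (hz : Center H m z) {D : Finset α} (hzD : z ∈ D) (h2 : 2 ≤ (univ \ D).card) :
    gg H D < (mass m D : ℤ) := by
  by_contra hcon
  have hD : (mass m D : ℤ) = gg H D := le_antisymm (not_lt.1 hcon) (hm D ⟨z, hzD⟩ h2)
  have h1m : ∀ y, y ≠ z → 0 < m y → m y = 1 := fun y hy h => (hz.2 y hy h).1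
  obtain ⟨X, hX, hXX⟩ := A5.exX hH hm hd hγ htot hz
  have hmz : 0 < m z := by
    have := hz.1
    omega
  by_cases hg : 2 ≤ gg H D
  · refine A5.main_count hH hm hd hγ htot hz hzD h2 hD hX hXX ?_
    intro y hy hyD
    obtain ⟨hr, hzX, hyX, _⟩ := hX y hy
    have h3 := b1 hH hm ⟨h2, hD, hg⟩ hr hzD hzX hmz
    have h4 : y ∈ X y \ D := mem_sdiff.2 ⟨hyX, hyD⟩
    ext t
    rw [mem_singleton]
    constructor
    · intro ht
      exact card_le_one.1 h3 t ht y h4
    · rintro rfl
      exact h4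
  · -- the case `dof H = 1`
    obtain ⟨T, hTdef⟩ : ∃ T, T = univ \ D := ⟨_, rfl⟩
    have hzT : z ∉ T := by
      rw [hTdef]
      simp [hzD]
    have hmemT : ∀ t, t ∈ T ↔ t ∉ D := by
      intro t
      rw [hTdef]
      simp
    have c1 : mass m D = m z + (A5.Y m z ∩ D).card := A5.mass_mem h1m hzD
    have c2 : mass m univ = m z + (A5.Y m z ∩ univ).card := A5.mass_mem h1m (mem_univ z)
    rw [inter_univ] at c2
    have c4 : gg H D = dof H + 1 - kk H T := by
      rw [gg_eq, hTdef]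
    have hTcard : 2 ≤ T.card := by rw [hTdef]; exact h2
    have c6 := hz.1
    have hd1 : dof H = 1 := by
      have : (m z : ℤ) ≤ mass m D := by exact_mod_cast le_mass m hzD
      omega
    have hYD : (A5.Y m z ∩ D).card = 0 := by omega
    have hkT : kk H T = 1 := by omega
    have hY3 : (A5.Y m z).card = 3 := by omega
    have hYT : ∀ y ∈ A5.Y m z, y ∈ T := by
      intro y hy
      rw [hmemT]
      intro hyD
      rw [card_eq_zero] at hYD
      have : y ∈ A5.Y m z ∩ D := mem_inter.2 ⟨hy, hyD⟩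
      rw [hYD] at this
      exact absurd this (notMem_empty y)
    by_cases hall : ∀ y ∈ A5.Y m z, y ∉ D → X y \ D = {y}
    · exact A5.main_count hH hm hd hγ htot hz hzD h2 hD hX hXX hall
    · push Not at hall
      obtain ⟨y1, hy1, hy1D, hne1⟩ := hall
      obtain ⟨hr1, hzX1, hyX1, hmax1⟩ := hX y1 hy1
      have hcard1 : 2 ≤ (T ∩ X y1).card := by
        by_contra hc
        apply hne1
        have h3 : y1 ∈ T ∩ X y1 := mem_inter.2 ⟨hYT y1 hy1, hyX1⟩
        ext t
        rw [mem_singleton, mem_sdiff]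
        constructor
        · rintro ⟨ht, htD⟩
          exact card_le_one.1 (by omega : (T ∩ X y1).card ≤ 1) t
            (mem_inter.2 ⟨(hmemT t).2 htD, ht⟩) y1 h3
        · rintro rfl
          exact ⟨hyX1, hy1D⟩
      have h5 := kk_sub hH T (X y1)
      rw [hr1.2, hkT] at h5
      have h6 := hH.nonneg _ hcard1
      -- masses vanish outside the sets containing `z` and `Y`
      have hmass0 : ∀ U : Finset α, z ∈ U → T ⊆ U → mass m (univ \ U) = 0 := by
        intro U hzU hTU
        rw [A5.mass_notMem h1m (by simp [hzU]), card_eq_zero]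
        ext t
        simp only [mem_inter, mem_sdiff, mem_univ, true_and, notMem_empty, iff_false, not_and,
          not_not]
        intro ht
        exact hTU (hYT t ht)
      have hkU : ∀ U : Finset α, z ∈ U → T ⊆ U → U ≠ univ → 2 ≤ kk H U := by
        intro U hzU hTU hUu
        have hne : (univ \ U).Nonempty := by
          rw [nonempty_iff_ne_empty]
          intro h
          rw [sdiff_eq_empty_iff_subset] at h
          exact hUu (univ_subset_iff.1 h)
        have h3 := hm (univ \ U) hne (by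
          rw [Finset.sdiff_sdiff_eq_self (subset_univ U)]
          exact hTcard.trans (card_le_card hTU))
        rw [gg_compl, hmass0 U hzU hTU] at h3
        push_cast at h3
        linarith
      have hun : T ∪ X y1 = univ := by
        by_contra hne
        have := hkU (T ∪ X y1) (mem_union_right _ hzX1) subset_union_left hne
        linarith
      have hDX : ∀ t ∈ D, t ∈ X y1 := by
        intro t ht
        have h7 : t ∈ T ∪ X y1 := by
          rw [hun]
          exact mem_univ t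
        rcases mem_union.1 h7 with h | h
        · exact absurd ht ((hmemT t).1 h)
        · exact h
      -- the other two vertices
      have hY2 : ((A5.Y m z).erase y1).card = 2 := by
        rw [card_erase_of_mem hy1, hY3]
      obtain ⟨y2, y3, h23, hYe⟩ := card_eq_two.1 hY2
      have hy2' : y2 ∈ (A5.Y m z).erase y1 := by
        rw [hYe]
        simp
      have hy3' : y3 ∈ (A5.Y m z).erase y1 := by
        rw [hYe]
        simp
      have hsub : ∀ y ∈ (A5.Y m z).erase y1, X y ⊆ insert z T := by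
        intro y hy t ht
        rw [mem_erase] at hy
        rw [mem_insert, hmemT]
        by_contra hc
        push Not at hc
        have h8 := hXX y hy.2 y1 hy1 hy.1
        exact hc.1 (card_le_one.1 h8 t (mem_inter.2 ⟨ht, hDX t hc.2⟩) z
          (mem_inter.2 ⟨(hX y hy.2).2.1, hzX1⟩))
      have hY2m := (mem_erase.1 hy2').2
      have hY3m := (mem_erase.1 hy3').2
      obtain ⟨A2, hA2, hzA2, hA2X⟩ := (hX y2 hY2m).1.exists_mem hH (hX y2 hY2m).2.1
      obtain ⟨A3, hA3, hzA3, hA3X⟩ := (hX y3 hY3m).1.exists_mem hH (hX y3 hY3m).2.1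
      obtain ⟨A1, hA1, hzA1, hA1X⟩ := hr1.exists_mem hH hzX1
      have hneA : ∀ {y y' : α} {A B : Finset α}, y ∈ A5.Y m z → y' ∈ A5.Y m z → y ≠ y' →
          A ∈ H → A ⊆ X y → B ⊆ X y' → A ≠ B := by
        intro y y' A B hy hy' hyy hA hAX hBX hAB
        have h8 := hXX y hy y' hy' hyy
        have h9 := card_le_card (subset_inter hAX (hAB ▸ hBX))
        have h10 := hH.two A hA
        omega
      have hA23 : A2 ≠ A3 := hneA hY2m hY3m h23 hA2 hA2X hA3X
      have h11 := A5.sIn_insert_ge hH hzT {A2, A3} (by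
        intro A hA
        rw [mem_insert, mem_singleton] at hA
        rcases hA with rfl | rfl
        · exact ⟨hA2, hzA2, hA2X.trans (hsub y2 hy2')⟩
        · exact ⟨hA3, hzA3, hA3X.trans (hsub y3 hy3')⟩)
      rw [card_pair hA23] at h11
      have h12 : w (insert z T) = w T + 2 := w_insert hzT
      by_cases hzTu : insert z T = univ
      · have hA12 : A1 ≠ A2 := hneA hy1 hY2m (mem_erase.1 hy2').1.symm hA1 hA1X hA2X
        have hA13 : A1 ≠ A3 := hneA hy1 hY3m (mem_erase.1 hy3').1.symm hA1 hA1X hA3X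
        have h13 := A5.sIn_insert_ge hH hzT {A1, A2, A3} (by
          intro A hA
          rw [mem_insert, mem_insert, mem_singleton] at hA
          rcases hA with rfl | rfl | rfl
          · exact ⟨hA1, hzA1, by rw [hzTu]; exact subset_univ _⟩
          · exact ⟨hA2, hzA2, hA2X.trans (hsub y2 hy2')⟩
          · exact ⟨hA3, hzA3, hA3X.trans (hsub y3 hy3')⟩)
        rw [card_eq_three.2 ⟨A1, A2, A3, hA12, hA13, hA23, rfl⟩] at h13
        have h14 : kk H (insert z T) = dof H := by rw [hzTu]; rfl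
        unfold kk at h14 hkT
        push_cast at h13
        linarith
      · have h13 := hkU (insert z T) (mem_insert_self z T) (subset_insert z T) hzTu
        unfold kk at h13 hkT
        push_cast at h11
        linarith

theorem center_not_anch {H : Finset (Finset α)} (hH : Indep H) {m : α → ℕ} (hm : Feas H m)
    {γ : ℕ} (hd : 1 ≤ dof H) (hγ : (γ : ℤ) = dof H + 1) (htot : mass m univ = 2 * γ)
    {z : α} (hz : Center H m z) {L : Finset α} (hL : Anch H L) : z ∉ L := by
  intro hzL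
  have h1m : ∀ y, y ≠ z → 0 < m y → m y = 1 := fun y hy h => (hz.2 y hy h).1
  obtain ⟨X, hX, hXX⟩ := A5.exX hH hm hd hγ htot hz
  obtain ⟨R, hR, hRL⟩ := hL
  have c2 : mass m univ = m z + (A5.Y m z ∩ univ).card := A5.mass_mem h1m (mem_univ z)
  rw [inter_univ] at c2
  have c6 := hz.1
  have hYc : 1 < (A5.Y m z).card := by omega
  obtain ⟨y, hy, y', hy', hyy⟩ := one_lt_card.1 hYc
  have hsub : ∀ y ∈ A5.Y m z, R ⊆ X y := by
    intro y hy
    obtain ⟨hr, hzX, hyX, hmax⟩ := hX y hy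
    have h1 := hRL (X y) hr ⟨z, mem_inter.2 ⟨hzX, hzL⟩⟩
    have h2 := hmax _ (hr.union hH hR h1) subset_union_left
    rw [← h2]
    exact subset_union_right
  have h3 := hXX y hy y' hy' hyy
  have h4 := card_le_card (subset_inter (hsub y hy) (hsub y' hy'))
  have h5 := hR.1
  omega

end Pool.Agent.GRA
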