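import Pool.Agent.GRA.A5

/-!
# GRA/A6: normal form of a feasible vector; the case of a vertex of mass `γ`

PROOF of `prep`. Among all `m'` with `Feas H m'`, `1 ≤ mass m' L` for `L ∈ 𝓛` and
`mass m' univ ≤ 2γ` take `m₀` of minimal total mass. Then `m₀ v ≤ dof H + 1` for all `v`: if `0 < m₀ v`,
the vector `m₀ - 1_v` violates one of the conditions: either some `C ∋ v` (nonempty, complement ≥ 2)
has `gg H C ≥ mass m₀ C ≥ m₀ v` and `gg H C ≤ dof + 1` (`gg_le`), or some `L ∋ v` has `mass m₀ L ≤ 1`.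
Both `Feas` and the `L`-conditions are monotone in `m`.
If `m₀ v + 1 ≤ γ` for all `v`: among the vectors `m₁` with `m₀ ≤ m₁ ≤ γ - 1` and total `≤ 2γ` take one of
maximal total; if its total is `< 2γ` no coordinate can be raised, so all coordinates equal `γ - 1`
and the total is `n (γ - 1) ≥ 4 (γ - 1) ≥ 2γ` (`γ ≥ dof + 1 ≥ 2`), contradiction.
Otherwise `m₀ v ≥ γ` for some `v`, so `γ ≤ m₀ v ≤ dof + 1 ≤ γ`: `γ = dof + 1`, `m₀ v = γ` and all
`m₀ u ≤ γ`; pad in the same way with cap `γ` (capacity `n γ ≥ 2γ`); `m₁ v = γ` remains.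

PROOF of `alpha_case`. `mass (univ \ {v}) = γ ≥ 1`: some `y ≠ v` has `0 < m y`. If `Span H v y` by a
rigid `X` (`X ≠ univ` since `kk univ = dof ≥ 1`), `γ = dof + 1 = gg (univ \ X) ≤ mass (univ \ X) ≤
2γ - m v - m y < γ`. If `C ∋ v, y` is `Tight2`, `γ + 1 ≤ m v + m y ≤ mass C = gg C ≤ dof + 1 = γ`.
-/

namespace Pool.Agent.GRA

open Finset

variable {α : Type*} [Fintype α] [DecidableEq α]

theorem Feas.mono {H : Finset (Finset α)} {m m' : α → ℕ} (hm : Feas H m) (h : ∀ v, m v ≤ m' v) :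
    Feas H m' := fun C hC h2 => (hm C hC h2).trans (by
  exact_mod_cast Finset.sum_le_sum fun v _ => h v)

private theorem mass_update (m : α → ℕ) {v : α} {C : Finset α} (hv : v ∈ C) (k : ℕ) :
    mass (Function.update m v k) C + m v = mass m C + k := by
  unfold mass
  rw [Finset.sum_update_of_mem hv, ← add_sum_erase C m hv, sdiff_singleton_eq_erase]
  ring

private theorem mass_update' (m : α → ℕ) {v : α} {C : Finset α} (hv : v ∉ C) (k : ℕ) :
    mass (Function.update m v k) C = mass m C := by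
  unfold mass
  rw [Finset.sum_update_of_notMem hv]

private theorem pad (c N : ℕ) (hN : N ≤ Fintype.card α * c) : ∀ (k : ℕ) (m₀ : α → ℕ),
    (∀ v, m₀ v ≤ c) → mass m₀ univ + k = N →
    ∃ m₁ : α → ℕ, (∀ v, m₀ v ≤ m₁ v) ∧ (∀ v, m₁ v ≤ c) ∧ mass m₁ univ = N := by
  intro k
  induction k with
  | zero => exact fun m₀ h1 h2 => ⟨m₀, fun _ => le_rfl, h1, by omega⟩
  | succ k ih =>
    intro m₀ h1 h2
    have hv : ∃ v, m₀ v < c := by
      by_contra hcon
      push Not at hcon
      have h3 : mass m₀ univ = Fintype.card α * c := by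
        unfold mass
        rw [sum_congr rfl (fun v _ => le_antisymm (h1 v) (hcon v)), sum_const, card_univ,
          smul_eq_mul]
      omega
    obtain ⟨v, hv⟩ := hv
    have h3 := mass_update m₀ (mem_univ v) (m₀ v + 1)
    obtain ⟨m₁, c1, c2, c3⟩ := ih (Function.update m₀ v (m₀ v + 1)) (fun u => by
      by_cases hu : u = v
      · subst hu; rw [Function.update_self]; omega
      · rw [Function.update_of_ne hu]; exact h1 u) (by omega)
    refine ⟨m₁, fun u => ?_, c2, c3⟩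
    have h4 := c1 u
    by_cases hu : u = v
    · subst hu; rw [Function.update_self] at h4; omega
    · rwa [Function.update_of_ne hu] at h4

theorem prep {H : Finset (Finset α)} (hH : Indep H) (hn : 4 ≤ Fintype.card α) (hd : 1 ≤ dof H)
    {m : α → ℕ} (hm : Feas H m) {γ : ℕ} (hγ : dof H + 1 ≤ γ) (htot : mass m univ ≤ 2 * γ)
    (𝓛 : Finset (Finset α)) (hL : ∀ L ∈ 𝓛, 1 ≤ mass m L) :
    ∃ m₁ : α → ℕ, Feas H m₁ ∧ mass m₁ univ = 2 * γ ∧ (∀ L ∈ 𝓛, 1 ≤ mass m₁ L) ∧
      ((∀ v, m₁ v + 1 ≤ γ) ∨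
        ((γ : ℤ) = dof H + 1 ∧ (∀ v, m₁ v ≤ γ) ∧ ∃ v, m₁ v = γ)) := by
  classical
  have hex : ∃ N, ∃ m' : α → ℕ, (Feas H m' ∧ (∀ L ∈ 𝓛, 1 ≤ mass m' L) ∧ mass m' univ ≤ 2 * γ) ∧
      mass m' univ = N := ⟨_, m, ⟨hm, hL, htot⟩, rfl⟩
  obtain ⟨m₀, ⟨hF, hL0, ht0⟩, hN⟩ := Nat.find_spec hex
  have hmin : ∀ m' : α → ℕ, Feas H m' → (∀ L ∈ 𝓛, 1 ≤ mass m' L) → mass m' univ ≤ 2 * γ →
      mass m₀ univ ≤ mass m' univ := fun m' h1 h2 h3 => by
    rw [hN]
    exact Nat.find_min' hex ⟨m', ⟨h1, h2, h3⟩, rfl⟩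
  have hbd : ∀ v, (m₀ v : ℤ) ≤ dof H + 1 := by
    intro v
    by_contra hcon
    push Not at hcon
    have hup : ∀ C : Finset α, v ∈ C → mass (Function.update m₀ v (m₀ v - 1)) C + m₀ v =
      mass m₀ C + (m₀ v - 1) := fun C hC => mass_update m₀ hC _
    have hlt := hmin (Function.update m₀ v (m₀ v - 1)) (fun C hC h2 => by
      by_cases hvC : v ∈ C
      · have h3 := gg_le hH h2
        have h4 := le_mass m₀ hvC
        have h5 := hup C hvC
        omega
      · rw [mass_update' m₀ hvC]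
        exact hF C hC h2) (fun L hLL => by
      by_cases hvC : v ∈ L
      · have h4 := le_mass m₀ hvC
        have h5 := hup L hvC
        omega
      · rw [mass_update' m₀ hvC]
        exact hL0 L hLL) (by
      have h5 := hup univ (mem_univ v)
      omega)
    have h5 := hup univ (mem_univ v)
    omega
  by_cases hA : ∀ v, m₀ v + 1 ≤ γ
  · have hγ2 : 2 ≤ γ := by omega
    obtain ⟨m₁, c1, c2, c3⟩ := pad (α := α) (γ - 1) (2 * γ) (by
      have h6 : 4 * (γ - 1) ≤ Fintype.card α * (γ - 1) := Nat.mul_le_mul_right _ hn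
      omega) (2 * γ - mass m₀ univ) m₀ (fun v => by have := hA v; omega) (by omega)
    refine ⟨m₁, hF.mono c1, c3, fun L hLL => (hL0 L hLL).trans (sum_le_sum fun v _ => c1 v),
      Or.inl fun v => ?_⟩
    have := c2 v
    omega
  · push Not at hA
    obtain ⟨v, hv⟩ := hA
    have hv2 := hbd v
    have hγe : (γ : ℤ) = dof H + 1 := by omega
    obtain ⟨m₁, c1, c2, c3⟩ := pad (α := α) γ (2 * γ) (by
      exact Nat.mul_le_mul_right _ (by omega)) (2 * γ - mass m₀ univ) m₀
      (fun u => by have := hbd u; omega) (by omega)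
    refine ⟨m₁, hF.mono c1, c3, fun L hLL => (hL0 L hLL).trans (sum_le_sum fun v _ => c1 v),
      Or.inr ⟨hγe, c2, v, ?_⟩⟩
    have h7 := c1 v
    have h8 := c2 v
    omega

theorem alpha_case {H : Finset (Finset α)} (hH : Indep H) (hd : 1 ≤ dof H)
    {m : α → ℕ} (hm : Feas H m) {γ : ℕ} (hγ : (γ : ℤ) = dof H + 1) (htot : mass m univ = 2 * γ)
    {v : α} (hv : m v = γ) :
    ∃ y, v ≠ y ∧ 0 < m y ∧ ¬ Span H v y ∧ ∀ C, Tight2 H m C → v ∈ C → y ∉ C := by
  have h1 := mass_compl m {v}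
  have h2 : mass m {v} = m v := by unfold mass; rw [sum_singleton]
  obtain ⟨y, hy, hmy⟩ := exists_pos_of_mass_pos (m := m) (A := univ \ {v}) (by omega)
  have hvy : v ≠ y := by
    rintro rfl
    simp at hy
  refine ⟨y, hvy, hmy, ?_, ?_⟩
  · rintro ⟨X, hX, hvX, hyX⟩
    have hne : (univ \ X).Nonempty := by
      rw [nonempty_iff_ne_empty]
      intro he
      have : X = univ := by
        rw [eq_univ_iff_forall]
        intro t
        by_contra ht
        have : t ∈ univ \ X := mem_sdiff.2 ⟨mem_univ t, ht⟩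
        rw [he] at this
        simp at this
      have hk := hX.2
      rw [this] at hk
      unfold dof at hd
      omega
    have h3 := hm (univ \ X) hne (by
      rw [Finset.sdiff_sdiff_eq_self (subset_univ X)]
      exact hX.1)
    rw [gg_compl, hX.2] at h3
    have h4 := mass_compl m X
    have h5 := mass_pair_le m hvy hvX hyX
    omega
  · rintro C ⟨h2C, hCm, hC2⟩ hvC hyC
    have h3 := gg_le hH h2C
    have h4 := mass_pair_le m hvy hvC hyC
    omega

end Pool.Agent.GRA
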