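import Pool.Agent.GRA.A2
import Pool.Agent.GRA.A6

/-!
# GRA/A7: the splitting theorem (degrees of freedom ≥ 1)

PROOF of `star`. Let `m₁` be given by `prep`.
Second alternative of `prep`: `alpha_case` and `good_step` (for `m₁`) give the claim; for `L ∈ 𝓛` with
`x, y ∉ L`, `mass m' L = mass m₁ L ≥ 1`.
First alternative (`m₁ v + 1 ≤ γ` for all `v`): if `NoGood H m₁` fails there is a good pair: `good_step`.
So suppose `NoGood H m₁`. If all `Tight2` sets `A, B` with a common support vertex have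
`2 ≤ (univ \ (A ∪ B)).card` then `no_near` gives `False`. So `near_cover` applies: `γ = dof + 1` and some
`z₀` has `m₁ z₀ = dof`; `center` gives `z` with `Center H m₁ z`. Let `Y = {y ≠ z | 0 < m₁ y}`: all have
`m₁ y = 1`, so `|Y| = 2γ - dof = dof + 2 ≥ 3`; pick `y₁ ≠ y₂` in `Y`.
`m₂ := m₁ - 1_z + 1_{y₁}`. `Feas H m₂`: sets `C` not containing `z` have `mass m₂ C ≥ mass m₁ C`; sets
`C ∋ z` have `mass m₂ C ≥ mass m₁ C - 1 ≥ gg H C` by `center_slack`. For `L ∈ 𝓛`: `z ∉ L`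
(`center_not_anch`), so `mass m₂ L ≥ mass m₁ L ≥ 1`. Total `2γ`, `m₂ y₁ = 2`.
If `dof = 1`, `γ = 2 = m₂ y₁`: `alpha_case` + `good_step` for `m₂`. If `dof ≥ 2`: `m₂ v + 1 ≤ γ` for all `v`
(`m₂ y₁ = 2 ≤ dof`). If `NoGood H m₂` fails: `good_step`. Otherwise as before (`no_near`, `near_cover`,
`center`) there is `z''` with `Center H m₂ z''`; since `m₂ y₁ = 2 ≠ 1`, `z'' = y₁`; but `0 < m₂ y₂`
(`y₂ ≠ z, y₁`), so `Span H y₁ y₂`, contradicting `center_unspanned` for `m₁`.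
-/

namespace Pool.Agent.GRA

open Finset

variable {α : Type*} [Fintype α] [DecidableEq α]

/-- a good pair gives the conclusion -/
private theorem star_good {H : Finset (Finset α)} (hH : Indep H) {m : α → ℕ} (hm : Feas H m)
    {γ : ℕ} (htot : mass m univ = 2 * γ) (𝓛 : Finset (Finset α)) (hL : ∀ L ∈ 𝓛, 1 ≤ mass m L)
    {x y : α} (hxy : x ≠ y) (hx : 0 < m x) (hy : 0 < m y) (hs : ¬ Span H x y)
    (hng : ∀ C, Tight2 H m C → x ∈ C → y ∉ C) :
    ∃ x y, x ≠ y ∧ ¬ Span H x y ∧ ∃ m' : α → ℕ, Feas (insert {x, y} H) m' ∧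
      mass m' univ + 2 ≤ 2 * γ ∧ ∀ L ∈ 𝓛, x ∉ L → y ∉ L → 1 ≤ mass m' L := by
  obtain ⟨m', h1, h2, h3⟩ := good_step hH hm hxy hx hy hs hng
  refine ⟨x, y, hxy, hs, m', h1, by omega, fun L hL' hxL hyL => ?_⟩
  rw [h3 L hxL hyL]
  exact hL L hL'

/-- either the conclusion or the exceptional configuration -/
private theorem star_or_center {H : Finset (Finset α)} (hH : Indep H) (hd : 1 ≤ dof H)
    {m : α → ℕ} (hm : Feas H m) {γ : ℕ} (hγ : dof H + 1 ≤ γ) (htot : mass m univ = 2 * γ)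
    (hcap : ∀ v, m v + 1 ≤ γ) (𝓛 : Finset (Finset α)) (hL : ∀ L ∈ 𝓛, 1 ≤ mass m L) :
    (∃ x y, x ≠ y ∧ ¬ Span H x y ∧ ∃ m' : α → ℕ, Feas (insert {x, y} H) m' ∧
      mass m' univ + 2 ≤ 2 * γ ∧ ∀ L ∈ 𝓛, x ∉ L → y ∉ L → 1 ≤ mass m' L) ∨
    ((γ : ℤ) = dof H + 1 ∧ ∃ z, Center H m z) := by
  by_cases hng : NoGood H m
  · right
    by_cases hnn : ∀ A B x, Tight2 H m A → Tight2 H m B → x ∈ A → x ∈ B → 0 < m x →
      2 ≤ (univ \ (A ∪ B)).card
    · exact (no_near hH hm hd hγ htot hcap hng hnn).elim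
    · push Not at hnn
      obtain ⟨A, B, x, hA, hB, hxA, hxB, hmx, hc⟩ := hnn
      obtain ⟨h1, z, hz⟩ := near_cover hH hm hγ htot hcap hA hB hxA hxB hmx (by omega)
      exact ⟨h1, center hH hm hd h1 htot hcap hng hz⟩
  · left
    unfold NoGood at hng
    push Not at hng
    obtain ⟨x, y, hxy, hx, hy, hs, hC⟩ := hng
    exact star_good hH hm htot 𝓛 hL hxy hx hy hs hC

theorem star {H : Finset (Finset α)} (hH : Indep H) (hn : 4 ≤ Fintype.card α) (hd : 1 ≤ dof H)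
    {m : α → ℕ} (hm : Feas H m) {γ : ℕ} (hγ : dof H + 1 ≤ γ) (htot : mass m univ ≤ 2 * γ)
    (𝓛 : Finset (Finset α)) (hL : ∀ L ∈ 𝓛, Anch H L ∧ 1 ≤ mass m L) :
    ∃ x y, x ≠ y ∧ ¬ Span H x y ∧ ∃ m' : α → ℕ, Feas (insert {x, y} H) m' ∧
      mass m' univ + 2 ≤ 2 * γ ∧ ∀ L ∈ 𝓛, x ∉ L → y ∉ L → 1 ≤ mass m' L := by
  classical
  obtain ⟨m₁, hm₁, htot₁, hL₁, halt⟩ := prep hH hn hd hm hγ htot 𝓛 (fun L h => (hL L h).2)
  rcases halt with hcap | ⟨hγ', -, v, hv⟩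
  swap
  · obtain ⟨y, hvy, hy, hs, hC⟩ := alpha_case hH hd hm₁ hγ' htot₁ hv
    exact star_good hH hm₁ htot₁ 𝓛 hL₁ hvy (by omega) hy hs hC
  rcases star_or_center hH hd hm₁ hγ htot₁ hcap 𝓛 hL₁ with h | ⟨hγ', z, hz⟩
  · exact h
  -- two further support vertices
  have hz1 : (m₁ z : ℤ) = dof H := hz.1
  have hmz : mass m₁ (univ.erase z) + m₁ z = 2 * γ := by
    rw [← htot₁]
    unfold mass
    exact sum_erase_add _ _ (mem_univ z)
  obtain ⟨y₁, hy₁, hy₁p⟩ := exists_pos_of_mass_pos (m := m₁) (A := univ.erase z) (by omega)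
  have hy₁z : y₁ ≠ z := (mem_erase.1 hy₁).1
  have hmy₁ : m₁ y₁ = 1 := (hz.2 y₁ hy₁z hy₁p).1
  have hmz2 : mass m₁ ((univ.erase z).erase y₁) + m₁ y₁ = mass m₁ (univ.erase z) := by
    unfold mass
    exact sum_erase_add _ _ hy₁
  obtain ⟨y₂, hy₂, hy₂p⟩ := exists_pos_of_mass_pos (m := m₁) (A := (univ.erase z).erase y₁)
    (by omega)
  have hy₂1 : y₂ ≠ y₁ := (mem_erase.1 hy₂).1
  have hy₂z : y₂ ≠ z := (mem_erase.1 (mem_erase.1 hy₂).2).1
  have huns := center_unspanned hH hm₁ hd hγ' htot₁ hz hy₂1.symm hy₁z hy₂z hy₁p hy₂p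
  -- the shifted vector
  obtain ⟨m₂, hm₂⟩ : ∃ m₂ : α → ℕ, ∀ v, m₂ v + (if v = z then 1 else 0) =
      m₁ v + (if v = y₁ then 1 else 0) := by
    refine ⟨fun v => m₁ v + (if v = y₁ then 1 else 0) - (if v = z then 1 else 0), fun v => ?_⟩
    beta_reduce
    by_cases h : v = z
    · subst h
      rw [if_pos rfl, if_neg hy₁z.symm]
      omega
    · rw [if_neg h]
      omega
  have hmass : ∀ C : Finset α, mass m₂ C + (if z ∈ C then 1 else 0) =
      mass m₁ C + (if y₁ ∈ C then 1 else 0) := by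
    intro C
    have h := sum_congr (rfl : C = C) fun v _ => hm₂ v
    rw [sum_add_distrib, sum_add_distrib, sum_ite_eq', sum_ite_eq'] at h
    exact h
  have hfeas₂ : Feas H m₂ := by
    intro C hC h2
    have h3 := hmass C
    by_cases hzC : z ∈ C
    · have h4 := center_slack hH hm₁ hd hγ' htot₁ hz hzC h2
      rw [if_pos hzC] at h3
      split_ifs at h3 <;> omega
    · have h4 := hm₁ C hC h2
      rw [if_neg hzC] at h3
      split_ifs at h3 <;> omega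
  have hL₂ : ∀ L ∈ 𝓛, 1 ≤ mass m₂ L := by
    intro L hL'
    have h3 := hmass L
    have hzL := center_not_anch hH hm₁ hd hγ' htot₁ hz (hL L hL').1
    have h4 := hL₁ L hL'
    rw [if_neg hzL] at h3
    split_ifs at h3 <;> omega
  have htot₂ : mass m₂ univ = 2 * γ := by
    have h3 := hmass univ
    rw [if_pos (mem_univ _), if_pos (mem_univ _)] at h3
    omega
  have hm₂y₁ : m₂ y₁ = 2 := by
    have h3 := hm₂ y₁
    rw [if_neg hy₁z, if_pos rfl] at h3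
    omega
  have hm₂y₂ : m₂ y₂ = m₁ y₂ := by
    have h3 := hm₂ y₂
    rw [if_neg hy₂z, if_neg hy₂1] at h3
    omega
  by_cases hd1 : dof H = 1
  · obtain ⟨y, hvy, hy, hs, hC⟩ := alpha_case hH hd hfeas₂ hγ' htot₂ (v := y₁) (by omega)
    exact star_good hH hfeas₂ htot₂ 𝓛 hL₂ hvy (by omega) hy hs hC
  have hcap₂ : ∀ v, m₂ v + 1 ≤ γ := by
    intro v
    by_cases hv : v = y₁
    · rw [hv]
      omega
    · have h3 := hm₂ v
      have h4 := hcap v
      rw [if_neg hv] at h3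
      omega
  rcases star_or_center hH hd hfeas₂ hγ htot₂ hcap₂ 𝓛 hL₂ with h | ⟨-, z', hz'⟩
  · exact h
  exfalso
  by_cases hzy : z' = y₁
  · subst hzy
    exact huns (hz'.2 y₂ hy₂1 (by omega)).2
  · have h3 := (hz'.2 y₁ (fun h => hzy h.symm) (by omega)).1
    omega

end Pool.Agent.GRA
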