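import Pool.Agent.GRA.A5

/-!
# GRA/F1: fat sets

`FatAt H L u v` with `D := insert u (insert v L)`: every member of `H` meeting `L` is inside `D` or
contains `D`, and no nonempty subset of `L` has positive demand.

PROOF of `FatAt.rig_or`. Suppose no `X ∈ H` contains `D`. Then all members meeting `L` are inside `D`.
`gg H L ≤ 0` says `sTo H L ≥ 2|L| + 1 = w D`. The members meeting `L` are inside `D`, so
`sTo H L ≤ sIn H D ≤ w D` (`kk H D ≥ 0`, `|D| ≥ 4`). Hence `sIn H D = w D`, `Rig H D`.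
PROOF of `FatAt.not_mem`. If `{u,v} ∈ H` and no member contains `D`: `sIn H D ≥ sTo H L + 1 > w D`
(`{u,v}` is inside `D` and does not meet `L`), contradiction. If `D ⊆ X ∈ H`: `X ∩ {u,v}` has two elements,
`X ≠ {u,v}` (`|D| ≥ 4`), contradicting `Indep.thin`.
PROOF of `FatAt.closed`. Let `X` be rigid with `u, v ∈ X`, `X` meeting `L`. If `D ⊆ A ∈ H`: `|A ∩ X| ≥ 2`, so
`A ⊆ X` (`Rig.subset_of_mem`). Otherwise `Rig H D` (`rig_or`) and all members meeting `L` are inside `D`.
`X ∩ D` is rigid (`Rig.inter`, it contains `u, v`). Let `C = L \ X = D \ X`. If `C` is nonempty: the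
members meeting `C` are inside `D` and not inside `X ∩ D`; members inside `D` not meeting `C` are inside
`X ∩ D`; so `sTo H C = sIn H D - sIn H (X ∩ D) = w D - w (X ∩ D) = 2|C|` and `gg H C = 1 > 0`,
contradiction. So `L ⊆ X` and `D ⊆ X`.
PROOF of `FatAt.alt`. `X` rigid, meeting `L`, not inside `D`; show `D ⊆ X`. If `u, v ∈ X` use `closed`. If
some member `A ⊆ X` contains `D`, done. Otherwise each member inside `X` is inside `D` or does not meet
`L`, and `|X ∩ {u,v}| ≤ 1`. Put `P = X ∩ D`, `Q = X \ L`, `P ∪ Q = X`, `P ∩ Q = X ∩ {u,v}`, so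
`|P| + |Q| ≤ |X| + 1`; `P ≠ X` (X is not inside D) and `Q ≠ X` (X meets L), `P`, `Q` nonempty (`P` meets
`L`; `Q` contains the element of `X` outside `D`). `w X = sIn H X ≤ sIn H P + sIn H Q`, and
`sIn H P ≤ w P` if `|P| ≥ 2`, `= 0` if `|P| = 1`; same for `Q`. If both have ≥ 2 elements:
`w X ≤ 2(|X|+1) - 6 < w X`. If `|P| = 1`: `|Q| ≤ |X| - 1` if `P ∩ Q = ∅`; note `P` meets `L`, so if `|P| = 1`
then `P ∩ Q = ∅`, `|Q| = |X| - 1`, `w X ≤ max (w Q) 0 < w X` (`|X| ≥ 2`). If `|Q| = 1`: the element of `Q` is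
outside `D`, `P ∩ Q = ∅`, `|P| = |X| - 1`: same.
PROOF of `Fat.anch`. `R := D` if `Rig H D`, otherwise the member `R ⊇ D` (rigid by `Indep.rig`). Let `X` be
rigid meeting `L` at `l`; `Rig.exists_mem` gives `A ∈ H`, `l ∈ A ⊆ X`; `A ⊆ D` (then `A ⊆ X ∩ R`, `|A| ≥ 2`) or
`D ⊆ A` (then `D ⊆ X ∩ R`).
PROOF of `Fat.insert`. `x, y ∉ L`: `{x,y}` does not meet `L`, and `gg (insert {x,y} H) C = gg H C` for
`C ⊆ L` (`gg_insert`).
-/

namespace Pool.Agent.GRA

open Finset

variable {α : Type*} [Fintype α] [DecidableEq α]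

theorem f1_card {H : Finset (Finset α)} {L : Finset α} {u v : α} (h : FatAt H L u v) :
    (insert u (insert v L)).card = L.card + 2 := by
  obtain ⟨h1, h2, h3, -⟩ := h
  rw [card_insert_of_notMem, card_insert_of_notMem h3]
  rw [mem_insert]
  rintro (h4 | h4)
  · exact h1 h4
  · exact h2 h4

theorem f1_sum {H : Finset (Finset α)} (hH : Indep H) {S T : Finset (Finset α)} (h : S ⊆ T)
    (hT : T ⊆ H) : ∑ X ∈ S, w X ≤ ∑ X ∈ T, w X :=
  sum_le_sum_of_subset_of_nonneg h fun X hX _ => by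
    have := hH.w_pos (hT hX)
    linarith

theorem f1_in {H : Finset (Finset α)} (hH : Indep H) {L : Finset α} {u v : α}
    (h : FatAt H L u v) (hno : ∀ X ∈ H, ¬ insert u (insert v L) ⊆ X) :
    Rig H (insert u (insert v L)) := by
  have hc := f1_card h
  obtain ⟨h1, h2, h3, h4, h5, h6⟩ := h
  have h7 := h6 L subset_rfl (card_pos.1 (by omega))
  have h8 : sTo H L ≤ sIn H (insert u (insert v L)) := by
    refine f1_sum hH ?_ (filter_subset _ _)
    intro X hX
    rw [mem_filter] at hX ⊢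
    refine ⟨hX.1, ?_⟩
    rcases h5 X hX.1 hX.2 with h9 | h9
    · exact h9
    · exact absurd h9 (hno X hX.1)
  have h9 : 2 ≤ (insert u (insert v L)).card := by omega
  have h10 := hH.nonneg _ h9
  refine ⟨h9, le_antisymm ?_ h10⟩
  unfold kk w
  unfold gg at h7
  rw [hc]
  push_cast
  linarith

theorem FatAt.rig_or {H : Finset (Finset α)} (hH : Indep H) {L : Finset α} {u v : α}
    (h : FatAt H L u v) :
    Rig H (insert u (insert v L)) ∨ ∃ X ∈ H, insert u (insert v L) ⊆ X := by
  by_cases hno : ∀ X ∈ H, ¬ insert u (insert v L) ⊆ X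
  · exact Or.inl (f1_in hH h hno)
  · push Not at hno
    exact Or.inr hno

theorem FatAt.not_mem {H : Finset (Finset α)} (hH : Indep H) {L : Finset α} {u v : α}
    (h : FatAt H L u v) : ({u, v} : Finset α) ∉ H := by
  intro hm
  have hc := f1_card h
  obtain ⟨h1, h2, h3, h4, h5, h6⟩ := h
  by_cases hno : ∀ X ∈ H, ¬ insert u (insert v L) ⊆ X
  · have h7 := h6 L subset_rfl (card_pos.1 (by omega))
    have hnl : ({u, v} : Finset α) ∉ H.filter (fun X => (X ∩ L).Nonempty) := by
      intro h8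
      obtain ⟨t, ht⟩ := (mem_filter.1 h8).2
      rw [mem_inter, mem_insert, mem_singleton] at ht
      rcases ht.1 with rfl | rfl
      · exact h2 ht.2
      · exact h3 ht.2
    have h8 : ∑ X ∈ insert {u, v} (H.filter (fun X => (X ∩ L).Nonempty)), w X ≤
        sIn H (insert u (insert v L)) := by
      refine f1_sum hH ?_ (filter_subset _ _)
      intro X hX
      rw [mem_insert] at hX
      rw [mem_filter]
      rcases hX with rfl | hX
      · refine ⟨hm, ?_⟩
        rw [pair_subset]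
        exact ⟨mem_insert_self _ _, mem_insert_of_mem (mem_insert_self _ _)⟩
      · rw [mem_filter] at hX
        refine ⟨hX.1, ?_⟩
        rcases h5 X hX.1 hX.2 with h9 | h9
        · exact h9
        · exact absurd h9 (hno X hX.1)
    rw [sum_insert hnl, w_pair h1] at h8
    have h9 : 2 ≤ (insert u (insert v L)).card := by omega
    have h10 := hH.nonneg _ h9
    unfold kk w at h10
    unfold gg at h7
    unfold sTo at h7
    rw [hc] at h10
    push_cast at h10
    linarith
  · push Not at hno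
    obtain ⟨X, hX, hDX⟩ := hno
    have hne : X ≠ {u, v} := by
      intro he
      have h7 := card_le_card hDX
      rw [he, card_pair h1] at h7
      omega
    have h8 := hH.thin hX hm hne
    have h9 : ({u, v} : Finset α) ⊆ X ∩ {u, v} :=
      subset_inter (pair_subset.2 ⟨hDX (mem_insert_self _ _),
        hDX (mem_insert_of_mem (mem_insert_self _ _))⟩) subset_rfl
    have h10 := card_le_card h9
    rw [card_pair h1] at h10
    omega

theorem FatAt.closed {H : Finset (Finset α)} (hH : Indep H) {L : Finset α} {u v : α}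
    (h : FatAt H L u v) {X : Finset α} (hX : Rig H X) (hu : u ∈ X) (hv : v ∈ X)
    (hXL : (X ∩ L).Nonempty) : insert u (insert v L) ⊆ X := by
  have hc := f1_card h
  have hfat := h
  obtain ⟨h1, h2, h3, h4, h5, h6⟩ := h
  obtain ⟨D, hD⟩ : ∃ D, D = insert u (insert v L) := ⟨_, rfl⟩
  have huD : u ∈ D := hD ▸ mem_insert_self _ _
  have hvD : v ∈ D := hD ▸ mem_insert_of_mem (mem_insert_self _ _)
  by_cases hno : ∀ A ∈ H, ¬ insert u (insert v L) ⊆ A
  · have hR := f1_in hH hfat hno
    rw [← hD] at hR hno h5 hc ⊢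
    have hXD : 2 ≤ (X ∩ D).card := by
      rw [← card_pair h1]
      exact card_le_card (pair_subset.2 ⟨mem_inter.2 ⟨hu, huD⟩, mem_inter.2 ⟨hv, hvD⟩⟩)
    have hI := hX.inter hH hR hXD
    by_contra hcon
    have hCne : (D \ X).Nonempty := by
      rw [nonempty_iff_ne_empty]
      intro he
      exact hcon (sdiff_eq_empty_iff_subset.1 he)
    have hCL : D \ X ⊆ L := by
      intro t ht
      rw [mem_sdiff, hD, mem_insert, mem_insert] at ht
      obtain ⟨rfl | rfl | ht1, ht2⟩ := ht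
      · exact absurd hu ht2
      · exact absurd hv ht2
      · exact ht1
    have h7 := h6 _ hCL hCne
    have hdis : Disjoint (H.filter (fun A => (A ∩ (D \ X)).Nonempty))
        (H.filter (fun A => A ⊆ X ∩ D)) := by
      rw [Finset.disjoint_left]
      intro A hA hA'
      obtain ⟨t, ht⟩ := (mem_filter.1 hA).2
      rw [mem_inter, mem_sdiff] at ht
      exact ht.2.2 (mem_inter.1 ((mem_filter.1 hA').2 ht.1)).1
    have h8 : sTo H (D \ X) + sIn H (X ∩ D) ≤ sIn H D := by
      unfold sTo sIn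
      rw [← sum_union hdis]
      refine f1_sum hH ?_ (filter_subset _ _)
      intro A hA
      rw [mem_union, mem_filter, mem_filter] at hA
      rw [mem_filter]
      rcases hA with hA | hA
      · refine ⟨hA.1, ?_⟩
        obtain ⟨t, ht⟩ := hA.2
        rw [mem_inter] at ht
        rcases h5 A hA.1 ⟨t, mem_inter.2 ⟨ht.1, hCL ht.2⟩⟩ with h9 | h9
        · exact h9
        · exact absurd h9 (hno A hA.1)
      · exact ⟨hA.1, hA.2.trans inter_subset_right⟩
    have h9 := hR.2
    have h10 := hI.2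
    unfold kk at h9 h10
    unfold gg at h7
    have h11 : (D \ X).card + (X ∩ D).card = D.card := by
      rw [inter_comm]
      exact card_sdiff_add_card_inter D X
    have h12 : ((D \ X).card : ℤ) + (X ∩ D).card = D.card := by exact_mod_cast h11
    unfold w at h9 h10
    linarith
  · push Not at hno
    obtain ⟨A, hA, hDA⟩ := hno
    have h7 : 2 ≤ (A ∩ X).card := by
      rw [← card_pair h1]
      exact card_le_card (pair_subset.2 ⟨mem_inter.2 ⟨hDA (mem_insert_self _ _), hu⟩,
        mem_inter.2 ⟨hDA (mem_insert_of_mem (mem_insert_self _ _)), hv⟩⟩)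
    exact hDA.trans (hX.subset_of_mem hH hA h7)

theorem FatAt.alt {H : Finset (Finset α)} (hH : Indep H) {L : Finset α} {u v : α}
    (h : FatAt H L u v) {X : Finset α} (hX : Rig H X) (hXL : (X ∩ L).Nonempty)
    (hXD : ¬ X ⊆ insert u (insert v L)) : insert u (insert v L) ⊆ X := by
  by_cases huv : u ∈ X ∧ v ∈ X
  · exact h.closed hH hX huv.1 huv.2 hXL
  obtain ⟨h1, h2, h3, h4, h5, h6⟩ := h
  obtain ⟨D, hD⟩ : ∃ D, D = insert u (insert v L) := ⟨_, rfl⟩
  rw [← hD] at h5 hXD ⊢
  by_contra hcon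
  have hLD : L ⊆ D := by
    rw [hD]
    exact (subset_insert _ _).trans (subset_insert _ _)
  have hin : ∀ A ∈ H, A ⊆ X → A ⊆ X ∩ D ∨ A ⊆ X \ L := by
    intro A hA hAX
    by_cases hAL : (A ∩ L).Nonempty
    · rcases h5 A hA hAL with h7 | h7
      · exact Or.inl (subset_inter hAX h7)
      · exact absurd (h7.trans hAX) hcon
    · refine Or.inr fun t ht => mem_sdiff.2 ⟨hAX ht, fun htL => hAL ⟨t, mem_inter.2 ⟨ht, htL⟩⟩⟩
  have h7 : sIn H X ≤ sIn H (X ∩ D) + sIn H (X \ L) := by
    have h8 : sIn H X ≤ ∑ A ∈ H.filter (fun A => A ⊆ X ∩ D) ∪ H.filter (fun A => A ⊆ X \ L), w A := by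
      refine f1_sum hH ?_ (union_subset (filter_subset _ _) (filter_subset _ _))
      intro A hA
      rw [mem_filter] at hA
      rw [mem_union, mem_filter, mem_filter]
      rcases hin A hA.1 hA.2 with h9 | h9
      · exact Or.inl ⟨hA.1, h9⟩
      · exact Or.inr ⟨hA.1, h9⟩
    have h9 := sum_union_inter (s₁ := H.filter (fun A => A ⊆ X ∩ D))
      (s₂ := H.filter (fun A => A ⊆ X \ L)) (f := w)
    have h10 : 0 ≤ ∑ A ∈ H.filter (fun A => A ⊆ X ∩ D) ∩ H.filter (fun A => A ⊆ X \ L), w A :=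
      sum_nonneg fun A hA => by
        have := hH.w_pos (mem_filter.1 (mem_inter.1 hA).1).1
        linarith
    unfold sIn at h8 ⊢
    linarith
  have hwp : ∀ P : Finset α, sIn H P ≤ if 2 ≤ P.card then 2 * (P.card : ℤ) - 3 else 0 := by
    intro P
    split_ifs with h8
    · have h9 := hH.nonneg P h8
      unfold kk w at h9
      linarith
    · rw [sIn_eq_zero hH (by omega)]
  have h8 := hwp (X ∩ D)
  have h9 := hwp (X \ L)
  have hXc := hX.1
  have h10 := hX.2
  unfold kk w at h10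
  have hU : X ∩ D ∪ X \ L = X := by
    ext t
    rw [mem_union, mem_inter, mem_sdiff]
    constructor
    · rintro (ht | ht)
      · exact ht.1
      · exact ht.1
    · intro ht
      by_cases htL : t ∈ L
      · exact Or.inl ⟨ht, hLD htL⟩
      · exact Or.inr ⟨ht, htL⟩
  have h11 := card_union_add_card_inter (X ∩ D) (X \ L)
  rw [hU] at h11
  have hI : (X ∩ D ∩ (X \ L)).card ≤ 1 := by
    rw [card_le_one]
    intro a ha b hb
    rw [mem_inter, mem_inter, mem_sdiff, hD, mem_insert, mem_insert] at ha hb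
    obtain ⟨⟨haX, ha1⟩, -, haL⟩ := ha
    obtain ⟨⟨hbX, hb1⟩, -, hbL⟩ := hb
    have ha2 : a = u ∨ a = v := by tauto
    have hb2 : b = u ∨ b = v := by tauto
    rcases ha2 with rfl | rfl <;> rcases hb2 with rfl | rfl
    · rfl
    · exact absurd ⟨haX, hbX⟩ huv
    · exact absurd ⟨hbX, haX⟩ huv
    · rfl
  have hI1 : (X ∩ D ∩ (X \ L)).card < (X ∩ D).card := by
    apply card_lt_card
    rw [ssubset_iff_of_subset inter_subset_left]
    obtain ⟨l, hl⟩ := hXL
    rw [mem_inter] at hl
    exact ⟨l, mem_inter.2 ⟨hl.1, hLD hl.2⟩, fun h12 => (mem_sdiff.1 (mem_inter.1 h12).2).2 hl.2⟩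
  have hI2 : (X ∩ D ∩ (X \ L)).card < (X \ L).card := by
    apply card_lt_card
    rw [ssubset_iff_of_subset inter_subset_right]
    obtain ⟨x, hx, hxD⟩ := not_subset.1 hXD
    exact ⟨x, mem_sdiff.2 ⟨hx, fun hxL => hxD (hLD hxL)⟩,
      fun h12 => hxD (mem_inter.1 (mem_inter.1 h12).1).2⟩
  split_ifs at h8 h9 <;> omega

theorem Fat.anch {H : Finset (Finset α)} (hH : Indep H) {L : Finset α} (h : Fat H L) :
    Anch H L := by
  obtain ⟨u, v, h, -⟩ := h
  have hc := f1_card h
  have hor := h.rig_or hH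
  obtain ⟨h1, h2, h3, h4, h5, h6⟩ := h
  obtain ⟨R, hR, hDR⟩ : ∃ R, Rig H R ∧ insert u (insert v L) ⊆ R := by
    rcases hor with h7 | ⟨X, hX, h7⟩
    · exact ⟨_, h7, subset_rfl⟩
    · exact ⟨X, hH.rig hX, h7⟩
  refine ⟨R, hR, fun X hX hXL => ?_⟩
  obtain ⟨l, hl⟩ := hXL
  rw [mem_inter] at hl
  obtain ⟨A, hA, hlA, hAX⟩ := hX.exists_mem hH hl.1
  rcases h5 A hA ⟨l, mem_inter.2 ⟨hlA, hl.2⟩⟩ with h7 | h7
  · exact (hH.two A hA).trans (card_le_card (subset_inter hAX (h7.trans hDR)))
  · have h8 := card_le_card (subset_inter (h7.trans hAX) hDR)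
    omega

theorem Fat.insert {H : Finset (Finset α)} (hH : Indep H) {L : Finset α} (h : Fat H L)
    {x y : α} (hxy : x ≠ y) (hs : ¬ Span H x y) (hx : x ∉ L) (hy : y ∉ L) :
    Fat (Insert.insert {x, y} H) L := by
  obtain ⟨u, v, ⟨h1, h2, h3, h4, h5, h6⟩, h7⟩ := h
  have hmem := not_mem_of_not_span hH hs
  refine ⟨u, v, ⟨h1, h2, h3, h4, ?_, ?_⟩, h7⟩
  · intro X hX hXL
    rw [mem_insert] at hX
    rcases hX with rfl | hX
    · exfalso
      obtain ⟨t, ht⟩ := hXL
      rw [mem_inter, mem_insert, mem_singleton] at ht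
      rcases ht.1 with rfl | rfl
      · exact hx ht.2
      · exact hy ht.2
    · exact h5 X hX hXL
  · intro C hC hCne
    rw [gg_insert hxy hmem, if_neg (by
      rintro (h8 | h8)
      · exact hx (hC h8)
      · exact hy (hC h8)), sub_zero]
    exact h6 C hC hCne

end Pool.Agent.GRA
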