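import Pool.Agent.GRA.A7
import Pool.Agent.GRA.F1

/-!
# GRA/A8: the nonrigid phase

PROOF of `phaseA` (induction on `n`). `n = 0`: `F = ∅`, `m' = m`. Step `n + 1`: apply `star` (with
`Fat.anch` for the members of `𝓛`), get `x, y, m₁` and `H' = insert {x,y} H` (`Indep.insert_pair`,
`dof_insert`, `not_mem_of_not_span`), `γ' = γ - 1`, `𝓛' = {L ∈ 𝓛 | x ∉ L ∧ y ∉ L}`; `Fat.insert` gives
`Fat H' L` for `L ∈ 𝓛'`. Apply the induction hypothesis to get `F'`, and `F = insert {x,y} F'`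
(`{x,y} ∉ F'` because `{x,y} ∈ H'` and `F'`, `H'` are disjoint; `{x,y} ∉ H`; `H ∪ F = H' ∪ F'`).
For `L ∈ 𝓛 \ 𝓛'` the pair `{x,y}` meets `L`.
-/

namespace Pool.Agent.GRA

open Finset

variable {α : Type*} [Fintype α] [DecidableEq α]

theorem phaseA (hn : 4 ≤ Fintype.card α) (n : ℕ) : ∀ (H : Finset (Finset α)), Indep H →
    dof H = n → ∀ (m : α → ℕ) (γ : ℕ), n + 1 ≤ γ → Feas H m → mass m univ ≤ 2 * γ →
    ∀ 𝓛 : Finset (Finset α), (∀ L ∈ 𝓛, Fat H L ∧ 1 ≤ mass m L) →
    ∃ F : Finset (Finset α), (∀ f ∈ F, f.card = 2) ∧ F.card = n ∧ Disjoint F H ∧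
      Indep (H ∪ F) ∧ dof (H ∪ F) = 0 ∧ ∃ m' : α → ℕ, Feas (H ∪ F) m' ∧
      mass m' univ + 2 * n ≤ 2 * γ ∧
      ∀ L ∈ 𝓛, (∃ f ∈ F, (f ∩ L).Nonempty) ∨ (Fat (H ∪ F) L ∧ 1 ≤ mass m' L) := by
  induction n with
  | zero =>
    intro H hH hd m γ hγ hm htot 𝓛 hL
    refine ⟨∅, by simp, by simp, by simp, by simpa using hH, by simpa using hd, m,
      by simpa using hm, by omega, ?_⟩
    intro L hL'
    right
    simpa using hL L hL'
  | succ n ih =>
    intro H hH hd m γ hγ hm htot 𝓛 hL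
    have hd1 : dof H = (n : ℤ) + 1 := by
      rw [hd]
      push_cast
      ring
    obtain ⟨x, y, hxy, hs, m₁, hm₁, hmass₁, hL₁⟩ := star hH hn (by omega) hm (γ := γ)
      (by omega) htot 𝓛 (fun L hL' => ⟨(hL L hL').1.anch hH, (hL L hL').2⟩)
    have hmem := not_mem_of_not_span hH hs
    have hH' := hH.insert_pair hxy hs
    have hd' : dof (insert {x, y} H) = n := by
      rw [dof_insert hxy hmem]
      omega
    have hfil : ∀ L ∈ 𝓛.filter (fun L => x ∉ L ∧ y ∉ L),
        Fat (insert {x, y} H) L ∧ 1 ≤ mass m₁ L := by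
      intro L hL'
      rw [mem_filter] at hL'
      obtain ⟨h1, h2, h3⟩ := hL'
      exact ⟨(hL L h1).1.insert hH hxy hs h2 h3, hL₁ L h1 h2 h3⟩
    obtain ⟨F', hF2, hFc, hFd, hFI, hFdof, m', hm', hmass', hFL⟩ :=
      ih (insert ({x, y} : Finset α) H) hH' hd' m₁ (γ - 1) (by omega) hm₁ (by omega)
        (𝓛.filter (fun L => x ∉ L ∧ y ∉ L)) hfil
    have hnot : ({x, y} : Finset α) ∉ F' := fun h =>
      (Finset.disjoint_left.mp hFd h) (mem_insert_self _ _)
    have hunion : H ∪ insert {x, y} F' = insert {x, y} H ∪ F' := by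
      rw [union_insert, insert_union]
    refine ⟨insert {x, y} F', ?_, ?_, ?_, ?_, ?_, m', ?_, ?_, ?_⟩
    · intro f hf
      rcases mem_insert.mp hf with rfl | hf
      · exact card_pair hxy
      · exact hF2 f hf
    · rw [card_insert_of_notMem hnot, hFc]
    · rw [disjoint_insert_left]
      refine ⟨hmem, ?_⟩
      exact disjoint_of_subset_right (subset_insert _ _) hFd
    · rw [hunion]
      exact hFI
    · rw [hunion]
      exact hFdof
    · rw [hunion]
      exact hm'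
    · omega
    · intro L hL'
      by_cases h : x ∉ L ∧ y ∉ L
      · rcases hFL L (mem_filter.mpr ⟨hL', h⟩) with ⟨f, hf, hfL⟩ | h'
        · left
          exact ⟨f, mem_insert_of_mem hf, hfL⟩
        · right
          rw [hunion]
          exact h'
      · left
        refine ⟨{x, y}, mem_insert_self _ _, ?_⟩
        by_cases hx : x ∈ L
        · exact ⟨x, by simp [hx]⟩
        · have hy : y ∈ L := by
            by_contra hy
            exact h ⟨hx, hy⟩
          exact ⟨y, by simp [hy]⟩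

end Pool.Agent.GRA
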