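import Pool.Agent.DPO.Reach
import Pool.Agent.PT.Arith

/-!
# MP_d7d610_lc: the algorithm

Vertices are the numbers `0, …, n-1`, graphs are lists of pairs of numbers (order and repetitions do not
matter, pairs with equal entries or with entries `≥ n` are ignored).
-/

namespace Pool.Agent.GRA

open Pool.Agent.DPO (reachStep reachL)

/-- Adjacency. -/
def adjB (l : List (ℕ × ℕ)) (i j : ℕ) : Bool :=
  l.any (fun p => decide (p = (i, j)) || decide (p = (j, i)))

/-- All pairs `(j, i)` with `j < i < n`. -/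
def pairsL (n : ℕ) : List (ℕ × ℕ) :=
  (List.range n).flatMap (fun i => (List.range i).map (fun j => (j, i)))

/-- The normalised edge list. -/
def edgesL (n : ℕ) (l : List (ℕ × ℕ)) : List (ℕ × ℕ) :=
  (pairsL n).filter (fun p => adjB l p.1 p.2)

/-! ## Orientations with out-degree at most two -/

/-- Out-degree in a list of arcs. -/
def outdeg (A : List (ℕ × ℕ)) (v : ℕ) : ℕ := A.countP (fun p => decide (p.1 = v))

/-- Vertices at distance at most `i` from `x`. -/
def layer (n : ℕ) (A : List (ℕ × ℕ)) (x i : ℕ) : List ℕ :=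
  (reachStep (List.range n) (fun a b => decide ((a, b) ∈ A)))^[i] [x]

/-- An arc from a vertex at distance at most `i` to a vertex of out-degree at most one. -/
def freeArc (n : ℕ) (A : List (ℕ × ℕ)) (x i : ℕ) : Option (ℕ × ℕ) :=
  A.find? (fun p => decide (p.1 ∈ layer n A x i) && decide (outdeg A p.2 < 2))

/-- Reverse one arc. -/
def flip1 (A : List (ℕ × ℕ)) (p : ℕ × ℕ) : List (ℕ × ℕ) := (p.2, p.1) :: A.erase p

/-- Reverse one arc on a shortest path from `x` to a vertex of out-degree at most one. -/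
def stepA (n x : ℕ) (A : List (ℕ × ℕ)) : List (ℕ × ℕ) :=
  if outdeg A x < 2 then A else
    (((List.range n).filterMap (freeArc n A x)).head?.map (flip1 A)).getD A

/-- Insert an edge. -/
def insA (n : ℕ) (A : List (ℕ × ℕ)) (e : ℕ × ℕ) : Option (List (ℕ × ℕ)) :=
  if outdeg ((stepA n e.1)^[n] A) e.1 < 2 then some (e :: (stepA n e.1)^[n] A) else
    if outdeg ((stepA n e.2)^[n] A) e.2 < 2 then some ((e.2, e.1) :: (stepA n e.2)^[n] A) else
      none

/-- Orient all edges of a multigraph with out-degrees at most two. -/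
def orient (n : ℕ) (l : List (ℕ × ℕ)) : Option (List (ℕ × ℕ)) :=
  l.foldl (fun o e => o.bind (fun A => insA n A e)) (some [])

/-! ## Rank in the rigidity matroid -/

def okAdd (n : ℕ) (I : List (ℕ × ℕ)) (e : ℕ × ℕ) : Bool :=
  (orient n (e :: e :: e :: e :: I)).isSome

/-- A maximal sparse sublist. -/
def basis (n : ℕ) (l : List (ℕ × ℕ)) : List (ℕ × ℕ) :=
  l.foldl (fun I e => if okAdd n I e then e :: I else I) []

def rigidB (n : ℕ) (l : List (ℕ × ℕ)) : Bool := decide ((basis n l).length + 3 = 2 * n)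

/-! ## Connectivity -/

def vs (n : ℕ) (S : List ℕ) : List ℕ := (List.range n).filter (fun v => !(decide (v ∈ S)))

def connB (n : ℕ) (l : List (ℕ × ℕ)) (S : List ℕ) : Bool :=
  (vs n S).all (fun x => (vs n S).all (fun y => decide (y ∈ reachL (vs n S) (adjB l) x)))

def conn3B (n : ℕ) (l : List (ℕ × ℕ)) : Bool :=
  connB n l [] && (List.range n).all (fun s => (List.range n).all (fun t => connB n l [s, t]))

/-- 3-connected and redundantly rigid (for `n ≥ 4`). -/
def goodB (n : ℕ) (l : List (ℕ × ℕ)) : Bool :=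
  conn3B n (edgesL n l) && (edgesL n l).all (fun e => rigidB n ((edgesL n l).erase e))

/-- The number of components after the deletion of `u` and `v`. -/
def ncompB (n : ℕ) (l : List (ℕ × ℕ)) (u v : ℕ) : ℕ :=
  ((vs n [u, v]).filter (fun x =>
    (reachL (vs n [u, v]) (adjB l) x).all (fun y => decide (x ≤ y)))).length

/-! ## Demand vectors -/

/-- The gadget graph on `4n+4` vertices. -/
def gadL (n : ℕ) (l : List (ℕ × ℕ)) (m : List ℕ) : List (ℕ × ℕ) :=
  edgesL n l ++ ((List.range n).flatMap (fun v =>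
    (List.range (m.getD v 0)).map (fun i => (v, n + 3 * v + i))) ++
    (pairsL (3 * n + 4)).map (fun p => (n + p.1, n + p.2)))

def demB (n : ℕ) (l : List (ℕ × ℕ)) (m : List ℕ) : Bool := goodB (4 * n + 4) (gadL n l m)

def setB (n : ℕ) (m : List ℕ) (v k : ℕ) : List ℕ :=
  (List.range n).map (fun u => if u = v then k else m.getD u 0)

def lowerB (n : ℕ) (l : List (ℕ × ℕ)) (m : List ℕ) (v : ℕ) : List ℕ :=
  if demB n l (setB n m v 0) then setB n m v 0 else
    if demB n l (setB n m v 1) then setB n m v 1 else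
      if demB n l (setB n m v 2) then setB n m v 2 else m

/-- A minimal demand vector. -/
def greedyB (n : ℕ) (l : List (ℕ × ℕ)) : List ℕ :=
  (List.range n).foldl (lowerB n l) (List.replicate n 3)

/-! ## The minimum number of new edges -/

def valB (n : ℕ) (l : List (ℕ × ℕ)) : ℕ :=
  max (max (2 * n - 3 - (basis n (edgesL n l)).length + 1) (((greedyB n l).sum + 1) / 2))
    ((pairsL n).foldl (fun a p => max a (ncompB n l p.1 p.2 - 1)) 0)

def augB (n : ℕ) (l : List (ℕ × ℕ)) : ℕ :=
  if goodB n l then 0 else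
  if (pairsL n).any (fun p => goodB n (p :: l)) then 1 else
  if (pairsL n).any (fun p => (pairsL n).any (fun q => goodB n (p :: q :: l))) then 2 else
  if (pairsL n).any (fun p => (pairsL n).any (fun q => (pairsL n).any (fun r =>
    goodB n (p :: q :: r :: l)))) then 3 else valB n l

def stepF (n : ℕ) (s : List (ℕ × ℕ) × List (ℕ × ℕ)) : List (ℕ × ℕ) × List (ℕ × ℕ) :=
  (((pairsL n).find? (fun p => decide (augB n (p :: s.1) < augB n s.1))).map
    (fun p => (p :: s.1, p :: s.2))).getD s

/-- The algorithm. -/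
def solve (n : ℕ) (l : List (ℕ × ℕ)) : List (ℕ × ℕ) :=
  if n ≤ 3 then (pairsL n).filter (fun p => !(adjB l p.1 p.2)) else
    ((stepF n)^[n * n] (l, [])).2

end Pool.Agent.GRA
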