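import Pool.Agent.GRA.R0

/-!
# GRA/G1: M-connectivity by covers

PROOF of `MC_iff`: `A ⊆ univ` is automatic.
PROOF of `MCon.mono`: a cover of `K'` covers `K ⊆ K'`.
PROOF of `mcon_of_min`. Let `𝒴` (called `Y` below) be a cover of `insert {x,y} H` on `X`: sets `A ⊆ X`, `A ≠ X`,
`|A| ≥ 2`. Suppose `Σ_{A ∈ 𝒴} w A ≤ 2|X| - 3 = w X`. `Indep.sum_wp_le`: `w A ≥ Σ_{B ∈ H} wp (B ∩ A)`. Hence
(exchanging sums) `w X ≥ Σ_A w A ≥ Σ_{B ∈ H, B ⊆ X} Σ_A wp (B ∩ A) ≥ Σ_{B ∈ H, B ⊆ X} w B = sIn H X = w X`,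
because each `B ∈ H` with `B ⊆ X` is contained in some `A` (`wp (B ∩ A) = w B`). So all inequalities are
equalities: for the set `A₀ ∈ 𝒴` containing `{x,y}`: `w A₀ = Σ_{B ∈ H, B ⊆ X} wp (B ∩ A₀)`, and for each
`B ∈ H`, `B ⊆ X`: `Σ_A wp (B ∩ A) = w B`; if `B` is not inside `A₀` it is inside another `A'`, so
`wp (B ∩ A₀) = 0`. Hence `w A₀ = Σ_{B ∈ H, B ⊆ A₀} w B = sIn H A₀`, i.e. `Rig H A₀`, `x, y ∈ A₀`, so
`X ⊆ A₀` by `hmin`, contradicting `A₀ ⊆ X`, `A₀ ≠ X`.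

PROOF of `MCon_of_MCon` (absorption). Claim: if `𝒳` is a family of sets `A` (`2 ≤ |A|`, `A ⊆ W`, `A ≠ W`) that
covers the members of `K` inside `W`, and `B ⊆ W`, `2 ≤ |B|`, `MCon K B`, then either
`2|W| - 2 ≤ Σ_𝒳 w` or there is a family `𝒳'` of the same kind with `Σ_𝒳' w ≤ Σ_𝒳 w`, every `A ∈ 𝒳`
contained in some `A' ∈ 𝒳'`, and `B` contained in some `A' ∈ 𝒳'`. Proof: if `B ⊆ A` for some `A ∈ 𝒳` take
`𝒳' = 𝒳`. Otherwise let `𝒳_B = {A ∈ 𝒳 : |A ∩ B| ≥ 2}`. The traces `A ∩ B`, `A ∈ 𝒳_B`, are proper subsets of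
`B` with at least two elements and cover the members of `K` inside `B` (these have ≥ 2 elements), so
`Σ_{A ∈ 𝒳_B} w (A ∩ B) ≥ 2|B| - 2 = w B + 1` (the sum over the set of traces is at most the sum over
`𝒳_B`, weights ≥ 1). Let `A* = B ∪ ⋃ 𝒳_B ⊆ W`. `|A*| ≤ |B| + Σ |A \ B|`, so
`w A* ≤ w B + Σ_{𝒳_B} 2|A \ B| = w B + Σ_{𝒳_B} (w A - w (A ∩ B)) ≤ Σ_{𝒳_B} w A - 1`. If `A* = W` then
`Σ_𝒳 w ≥ Σ_{𝒳_B} w ≥ w W + 1 = 2|W| - 2`. Otherwise `𝒳' = (𝒳 \ 𝒳_B) ∪ {A*}` has smaller weight.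
Now apply the claim successively to all `B ∈ K'` with `B ⊆ W`, `B ∉ K` (induction over a finset of such
`B`; sets already absorbed stay absorbed), starting from a cover `𝒳` of `K`. In the end all members of
`K'` inside `W` are covered, and `MCon K' W` applies.
-/

namespace Pool.Agent.GRA

open Finset

variable {α : Type*} [Fintype α] [DecidableEq α]

theorem MC_iff {K : Finset (Finset α)} : MC K ↔ MCon K univ := by
  unfold MC MCon
  rw [card_univ]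
  constructor
  · intro h X hX hc
    exact h X (fun A hA => ⟨(hX A hA).1, (hX A hA).2.2⟩) (fun B hB => hc B hB (subset_univ B))
  · intro h X hX hc
    exact h X (fun A hA => ⟨(hX A hA).1, subset_univ A, (hX A hA).2⟩) (fun B hB _ => hc B hB)

theorem MCon.mono {K K' : Finset (Finset α)} {W : Finset α} (h : MCon K W) (hK : K ⊆ K') :
    MCon K' W :=
  fun X hX hc => h X hX (fun B hB hBW => hc B (hK hB) hBW)

theorem mcon_of_min {H : Finset (Finset α)} (hH : Indep H) {X : Finset α} (hX : Rig H X)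
    {x y : α} (hxy : x ≠ y) (hx : x ∈ X) (hy : y ∈ X)
    (hmin : ∀ Y, Rig H Y → x ∈ Y → y ∈ Y → X ⊆ Y) : MCon (insert {x, y} H) X := by
  classical
  intro Y hY hc
  by_contra hlt
  push Not at hlt
  have hSX : ∑ A ∈ Y, w A ≤ w X := by
    unfold w at hlt ⊢
    linarith
  have hXs : ∑ B ∈ H.filter (fun B => B ⊆ X), w B = w X := by
    have := hX.2
    unfold kk sIn at this
    linarith
  have hD : ∀ A ∈ Y, 0 ≤ w A - ∑ B ∈ H.filter (fun B => B ⊆ X), wp (B ∩ A) := by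
    intro A hA
    have h1 := hH.sum_wp_le A (hY A hA).1
    have h2 : ∑ B ∈ H.filter (fun B => B ⊆ X), wp (B ∩ A) ≤ ∑ B ∈ H, wp (B ∩ A) :=
      sum_le_sum_of_subset_of_nonneg (filter_subset _ _) (fun B _ _ => wp_nonneg _)
    linarith
  have hwp : ∀ B ∈ H, ∀ A, B ⊆ A → wp (B ∩ A) = w B := by
    intro B hB A hBA
    rw [inter_eq_left.2 hBA, wp_of_two (hH.two B hB)]
  have hE : ∀ B ∈ H.filter (fun B => B ⊆ X), 0 ≤ (∑ A ∈ Y, wp (B ∩ A)) - w B := by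
    intro B hB
    obtain ⟨hBH, hBX⟩ := mem_filter.1 hB
    obtain ⟨A, hA, hBA⟩ := hc B (mem_insert_of_mem hBH) hBX
    have h1 := single_le_sum (f := fun A => wp (B ∩ A)) (fun A _ => wp_nonneg (B ∩ A)) hA
    rw [hwp B hBH A hBA] at h1
    linarith
  have hsum : ∑ A ∈ Y, (w A - ∑ B ∈ H.filter (fun B => B ⊆ X), wp (B ∩ A)) +
      ∑ B ∈ H.filter (fun B => B ⊆ X), ((∑ A ∈ Y, wp (B ∩ A)) - w B) ≤ 0 := by
    rw [sum_sub_distrib, sum_sub_distrib, hXs, sum_comm (s := Y)]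
    linarith
  have hDs := sum_nonneg hD
  have hEs := sum_nonneg hE
  have hD0 : ∀ A ∈ Y, w A - ∑ B ∈ H.filter (fun B => B ⊆ X), wp (B ∩ A) = 0 :=
    (sum_eq_zero_iff_of_nonneg hD).1 (by linarith)
  have hE0 : ∀ B ∈ H.filter (fun B => B ⊆ X), (∑ A ∈ Y, wp (B ∩ A)) - w B = 0 :=
    (sum_eq_zero_iff_of_nonneg hE).1 (by linarith)
  obtain ⟨A₀, hA₀, hxyA⟩ := hc {x, y} (mem_insert_self _ _) (pair_subset.2 ⟨hx, hy⟩)
  obtain ⟨hxA, hyA⟩ := pair_subset.1 hxyA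
  have h1 : ∀ B ∈ H.filter (fun B => B ⊆ X), wp (B ∩ A₀) = if B ⊆ A₀ then w B else 0 := by
    intro B hB
    obtain ⟨hBH, hBX⟩ := mem_filter.1 hB
    split_ifs with hBA
    · exact hwp B hBH A₀ hBA
    · obtain ⟨A, hA, hBA'⟩ := hc B (mem_insert_of_mem hBH) hBX
      have hne : A ≠ A₀ := fun h => hBA (h ▸ hBA')
      have h2 : ∑ A ∈ ({A, A₀} : Finset (Finset α)), wp (B ∩ A) ≤ ∑ A ∈ Y, wp (B ∩ A) := by
        apply sum_le_sum_of_subset_of_nonneg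
        · intro C hC
          simp only [mem_insert, mem_singleton] at hC
          rcases hC with rfl | rfl
          · exact hA
          · exact hA₀
        · intro C _ _
          exact wp_nonneg _
      rw [sum_pair hne, hwp B hBH A hBA'] at h2
      have h3 := hE0 B hB
      have h4 := wp_nonneg (B ∩ A₀)
      linarith
  have h2 := hD0 A₀ hA₀
  rw [sum_congr rfl h1, ← sum_filter] at h2
  have h3 : (H.filter (fun B => B ⊆ X)).filter (fun B => B ⊆ A₀) =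
      H.filter (fun B => B ⊆ A₀) := by
    ext B
    simp only [mem_filter]
    exact ⟨fun h => ⟨h.1.1, h.2⟩, fun h => ⟨⟨h.1, h.2.trans (hY A₀ hA₀).2.1⟩, h.2⟩⟩
  rw [h3] at h2
  have h4 : Rig H A₀ := ⟨(hY A₀ hA₀).1, h2⟩
  exact (hY A₀ hA₀).2.2 ((hY A₀ hA₀).2.1.antisymm (hmin A₀ h4 hxA hyA))

private theorem g1_sum_image {s : Finset (Finset α)} {f : Finset α → Finset α}
    (h : ∀ A ∈ s, 0 ≤ w (f A)) : ∑ T ∈ s.image f, w T ≤ ∑ A ∈ s, w (f A) := by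
  classical
  induction s using Finset.induction_on with
  | empty => simp
  | insert a s ha ih =>
    have ih' := ih (fun A hA => h A (mem_insert_of_mem hA))
    have h0 := h a (mem_insert_self _ _)
    rw [image_insert, sum_insert ha]
    by_cases hm : f a ∈ s.image f
    · rw [insert_eq_of_mem hm]
      linarith
    · rw [sum_insert hm]
      linarith

private theorem g1_absorb {K : Finset (Finset α)} {W B : Finset α} (hK : ∀ B ∈ K, 2 ≤ B.card)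
    (hBW : B ⊆ W) (h2 : 2 ≤ B.card) (hM : MCon K B) {X : Finset (Finset α)}
    (hX : ∀ A ∈ X, 2 ≤ A.card ∧ A ⊆ W ∧ A ≠ W) (hc : ∀ C ∈ K, C ⊆ W → ∃ A ∈ X, C ⊆ A) :
    2 * (W.card : ℤ) - 2 ≤ ∑ A ∈ X, w A ∨ ∃ X' : Finset (Finset α),
      (∀ A ∈ X', 2 ≤ A.card ∧ A ⊆ W ∧ A ≠ W) ∧ ∑ A ∈ X', w A ≤ ∑ A ∈ X, w A ∧
      (∀ A ∈ X, ∃ A' ∈ X', A ⊆ A') ∧ ∃ A' ∈ X', B ⊆ A' := by
  classical
  by_cases hex : ∃ A ∈ X, B ⊆ A
  · exact Or.inr ⟨X, hX, le_rfl, fun A hA => ⟨A, hA, subset_rfl⟩, hex⟩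
  push Not at hex
  -- the members with a large trace
  have hT := hM ((X.filter (fun A => 2 ≤ (A ∩ B).card)).image (fun A => A ∩ B)) (by
    intro T hT
    obtain ⟨A, hA, rfl⟩ := mem_image.1 hT
    obtain ⟨hAX, hA2⟩ := mem_filter.1 hA
    exact ⟨hA2, inter_subset_right, fun h => hex A hAX (inter_eq_right.1 h)⟩) (by
    intro C hC hCB
    obtain ⟨A, hA, hCA⟩ := hc C hC (hCB.trans hBW)
    have h3 : C ⊆ A ∩ B := subset_inter hCA hCB
    exact ⟨A ∩ B, mem_image.2 ⟨A, mem_filter.2 ⟨hA, (hK C hC).trans (card_le_card h3)⟩, rfl⟩, h3⟩)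
  have hT2 := g1_sum_image (s := X.filter (fun A => 2 ≤ (A ∩ B).card)) (f := fun A => A ∩ B)
    (fun A hA => by
      have := w_pos (mem_filter.1 hA).2
      linarith)
  obtain ⟨S, hS⟩ : ∃ S, S = B ∪ (X.filter (fun A => 2 ≤ (A ∩ B).card)).biUnion (fun A => A \ B) :=
    ⟨_, rfl⟩
  have hScard : (S.card : ℤ) ≤ B.card +
      ∑ A ∈ X.filter (fun A => 2 ≤ (A ∩ B).card), ((A \ B).card : ℤ) := by
    rw [hS]
    have h3 := (card_union_le B
      ((X.filter (fun A => 2 ≤ (A ∩ B).card)).biUnion (fun A => A \ B))).trans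
      (Nat.add_le_add_left card_biUnion_le _)
    exact_mod_cast h3
  have hw : w S ≤ ∑ A ∈ X.filter (fun A => 2 ≤ (A ∩ B).card), w A - 1 := by
    have h3 : ∑ A ∈ X.filter (fun A => 2 ≤ (A ∩ B).card), w A =
        ∑ A ∈ X.filter (fun A => 2 ≤ (A ∩ B).card), w (A ∩ B) +
          2 * ∑ A ∈ X.filter (fun A => 2 ≤ (A ∩ B).card), ((A \ B).card : ℤ) := by
      rw [mul_sum, ← sum_add_distrib]
      apply sum_congr rfl
      intro A _
      have h4 : ((A \ B).card : ℤ) + (A ∩ B).card = A.card := by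
        exact_mod_cast card_sdiff_add_card_inter A B
      unfold w
      linarith
    rw [h3]
    have h5 : w S = 2 * (S.card : ℤ) - 3 := rfl
    rw [h5]
    linarith
  have hsplit : ∑ A ∈ X, w A = ∑ A ∈ X.filter (fun A => 2 ≤ (A ∩ B).card), w A +
      ∑ A ∈ X.filter (fun A => ¬ 2 ≤ (A ∩ B).card), w A :=
    (sum_filter_add_sum_filter_not X (fun A => 2 ≤ (A ∩ B).card) w).symm
  have hrest : 0 ≤ ∑ A ∈ X.filter (fun A => ¬ 2 ≤ (A ∩ B).card), w A :=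
    sum_nonneg fun A hA => by
      have := w_pos (hX A (mem_filter.1 hA).1).1
      linarith
  have hBS : B ⊆ S := by
    rw [hS]
    exact subset_union_left
  by_cases hSW : S = W
  · left
    rw [hSW] at hw
    unfold w at hw hsplit hrest ⊢
    linarith
  · right
    have hSpos : 0 ≤ w S := by
      have := w_pos (h2.trans (card_le_card hBS))
      linarith
    refine ⟨insert S (X.filter (fun A => ¬ 2 ≤ (A ∩ B).card)), ?_, ?_, ?_, ?_⟩
    · intro A hA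
      rcases mem_insert.1 hA with rfl | hA
      · refine ⟨h2.trans (card_le_card hBS), ?_, hSW⟩
        rw [hS]
        refine union_subset hBW (biUnion_subset.2 fun A hA => ?_)
        exact sdiff_subset.trans (hX A (mem_filter.1 hA).1).2.1
      · exact hX A (mem_filter.1 hA).1
    · have h3 : ∑ A ∈ insert S (X.filter (fun A => ¬ 2 ≤ (A ∩ B).card)), w A ≤
          w S + ∑ A ∈ X.filter (fun A => ¬ 2 ≤ (A ∩ B).card), w A := by
        by_cases hm : S ∈ X.filter (fun A => ¬ 2 ≤ (A ∩ B).card)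
        · rw [insert_eq_of_mem hm]
          linarith
        · rw [sum_insert hm]
      linarith
    · intro A hA
      by_cases hA2 : 2 ≤ (A ∩ B).card
      · refine ⟨S, mem_insert_self _ _, ?_⟩
        intro t ht
        rw [hS]
        by_cases htB : t ∈ B
        · exact mem_union_left _ htB
        · exact mem_union_right _ (mem_biUnion.2 ⟨A, mem_filter.2 ⟨hA, hA2⟩,
            mem_sdiff.2 ⟨ht, htB⟩⟩)
      · exact ⟨A, mem_insert_of_mem (mem_filter.2 ⟨hA, hA2⟩), subset_rfl⟩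
    · exact ⟨S, mem_insert_self _ _, hBS⟩

private theorem g1_absorb_all {K : Finset (Finset α)} {W : Finset α} (hK : ∀ B ∈ K, 2 ≤ B.card)
    {X : Finset (Finset α)} (hX : ∀ A ∈ X, 2 ≤ A.card ∧ A ⊆ W ∧ A ≠ W)
    (hc : ∀ C ∈ K, C ⊆ W → ∃ A ∈ X, C ⊆ A) (L : Finset (Finset α)) :
    (∀ B ∈ L, B ⊆ W ∧ 2 ≤ B.card ∧ MCon K B) →
    (2 * (W.card : ℤ) - 2 ≤ ∑ A ∈ X, w A ∨ ∃ X' : Finset (Finset α),
      (∀ A ∈ X', 2 ≤ A.card ∧ A ⊆ W ∧ A ≠ W) ∧ ∑ A ∈ X', w A ≤ ∑ A ∈ X, w A ∧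
      (∀ A ∈ X, ∃ A' ∈ X', A ⊆ A') ∧ ∀ B ∈ L, ∃ A' ∈ X', B ⊆ A') := by
  classical
  induction L using Finset.induction_on with
  | empty =>
    intro _
    exact Or.inr ⟨X, hX, le_rfl, fun A hA => ⟨A, hA, subset_rfl⟩, fun B hB => absurd hB (notMem_empty B)⟩
  | insert B L _ ih =>
    intro hL
    rcases ih (fun C hC => hL C (mem_insert_of_mem hC)) with h | ⟨X₁, h1, h2, h3, h4⟩
    · exact Or.inl h
    · obtain ⟨hBW, hB2, hBM⟩ := hL B (mem_insert_self _ _)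
      have hc1 : ∀ C ∈ K, C ⊆ W → ∃ A ∈ X₁, C ⊆ A := by
        intro C hC hCW
        obtain ⟨A, hA, hCA⟩ := hc C hC hCW
        obtain ⟨A', hA', hAA'⟩ := h3 A hA
        exact ⟨A', hA', hCA.trans hAA'⟩
      rcases g1_absorb hK hBW hB2 hBM h1 hc1 with h | ⟨X₂, k1, k2, k3, k4⟩
      · exact Or.inl (h.trans h2)
      · refine Or.inr ⟨X₂, k1, k2.trans h2, ?_, ?_⟩
        · intro A hA
          obtain ⟨A', hA', hAA'⟩ := h3 A hA
          obtain ⟨A'', hA'', hAA''⟩ := k3 A' hA'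
          exact ⟨A'', hA'', hAA'.trans hAA''⟩
        · intro C hC
          rcases mem_insert.1 hC with rfl | hC
          · exact k4
          · obtain ⟨A', hA', hAA'⟩ := h4 C hC
            obtain ⟨A'', hA'', hAA''⟩ := k3 A' hA'
            exact ⟨A'', hA'', hAA'.trans hAA''⟩

theorem MCon_of_MCon {K K' : Finset (Finset α)} {W : Finset α} (hK : ∀ B ∈ K, 2 ≤ B.card)
    (h : ∀ B ∈ K', B ⊆ W → B ∈ K ∨ (2 ≤ B.card ∧ MCon K B)) (hK' : MCon K' W) : MCon K W := by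
  classical
  intro X hX hc
  rcases g1_absorb_all hK hX hc (K'.filter (fun B => B ⊆ W ∧ B ∉ K)) (by
    intro B hB
    obtain ⟨hBK', hBW, hBK⟩ := mem_filter.1 hB
    rcases h B hBK' hBW with h1 | h1
    · exact absurd h1 hBK
    · exact ⟨hBW, h1⟩) with h1 | ⟨X', h1, h2, h3, h4⟩
  · exact h1
  · refine (hK' X' h1 ?_).trans h2
    intro B hB hBW
    by_cases hBK : B ∈ K
    · obtain ⟨A, hA, hBA⟩ := hc B hBK hBW
      obtain ⟨A', hA', hAA'⟩ := h3 A hA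
      exact ⟨A', hA', hBA.trans hAA'⟩
    · exact h4 B (mem_filter.2 ⟨hB, hBW, hBK⟩)

end Pool.Agent.GRA
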