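import Pool.Agent.GRA.Defs2
import Pool.Agent.GRA.G1

/-!
# GRA/S1: canonical families of graphs

PROOF of `exists_sys` (induction on `E`, `Finset.induction_on`). `E = ∅`: `H = ∅`. Step: `e = {x,y} ∉ E`,
`Sys E H`. If `¬ Span H x y`: `H' = insert e H` (`Indep.insert_pair`); `MCon (insert e E) X` for `X ∈ H` by
`MCon.mono`; `MCon (insert e E) e`: a cover of `e` by proper subsets with ≥ 2 elements cannot cover
`e`. If `Span H x y`: rigid sets containing `x, y` are closed under intersection (`Rig.inter`), let `X`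
be the least one; `H' = merge H X` (`merge_indep`). `cov`: `e ⊆ X`; for the other edges the member
containing it stays or is inside `X`. `mc`: members other than `X` by `MCon.mono`. For `X`:
`mcon_of_min` gives `MCon (insert e H) X`, and `MCon_of_MCon` with `K = insert e E`,
`K' = insert e H`: every `B ∈ H` satisfies `MCon E B`, so `MCon (insert e E) B`.

PROOF of `MC_sys`: `MC_iff`, `MCon_of_MCon` with `K = E ∪ F`, `K' = H ∪ F` (members of `H` by `mc` and
`MCon.mono`). `MC_sys'`: a cover of `H ∪ F` covers `E ∪ F` by `cov`.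

PROOF of `mcon_three`: `X ∈ H` has `|X| ≠ 3`: for `X = {a,b,c}` the cover of the members of `E` inside `X`
by the pairs `{a,b}, {a,c}, {b,c}` has weight `3 < 2·3 - 2` (members of `E` inside `X` are pairs).
`mcon_two`: if `|X| = 2` and `X ∉ E`, the empty cover has weight `0 < 2`.
`mcon_deg`: `X` with `MCon E X`, `|X| ≥ 4` (or just ≥ 3), `x ∈ X`: at least three `y ∈ X` with `{x,y} ∈ E`:
cover by `X.erase x` (`2(|X|-1) - 3`) and the pairs `{x,y} ∈ E`, `y ∈ X`: `2|X| - 5 + deg ≥ 2|X| - 2`.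
`mcon_sep`: `MCon E X` (`|X| ≥ 4`), `P, Q` with `X = P ∪ Q`, every edge inside `X` is inside `P` or `Q`,
`P ≠ X`, `Q ≠ X`. Then `|P ∩ Q| ≥ 2`: suppose `|P ∩ Q| ≤ 1`. If `|P|, |Q| ≥ 2`: the cover `{P, Q}` has
weight `2(|P| + |Q|) - 6 ≤ 2(|X|+1) - 6 = 2|X| - 4`, contradiction. If `|P| ≤ 1`: the cover `{Q}`
(if `|Q| ≥ 2`): `2|Q| - 3 ≤ 2(|X|-1) - 3`, contradiction; if both `≤ 1` then `|X| ≤ 2`.
(`P`, `Q` are arbitrary finsets with union `X`.)
-/

namespace Pool.Agent.GRA

open Finset

variable {α : Type*} [Fintype α] [DecidableEq α]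

private theorem s1_min_rig {H : Finset (Finset α)} (hH : Indep H) {x y : α} (hxy : x ≠ y)
    (hs : Span H x y) :
    ∃ X, Rig H X ∧ x ∈ X ∧ y ∈ X ∧ ∀ Y, Rig H Y → x ∈ Y → y ∈ Y → X ⊆ Y := by
  classical
  have htwo : ∀ Z : Finset α, x ∈ Z → y ∈ Z → 2 ≤ Z.card := by
    intro Z hx hy
    rw [← card_pair hxy]
    exact card_le_card (pair_subset.2 ⟨hx, hy⟩)
  obtain ⟨X0, hX0⟩ := hs
  obtain ⟨X, hX, hmin⟩ := exists_min_image
    (univ.filter (fun X : Finset α => Rig H X ∧ x ∈ X ∧ y ∈ X)) card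
    ⟨X0, mem_filter.2 ⟨mem_univ _, hX0⟩⟩
  obtain ⟨_, hXr, hxX, hyX⟩ := mem_filter.1 hX
  refine ⟨X, hXr, hxX, hyX, fun Y hY hxY hyY => ?_⟩
  have h1 : x ∈ X ∩ Y := mem_inter.2 ⟨hxX, hxY⟩
  have h2 : y ∈ X ∩ Y := mem_inter.2 ⟨hyX, hyY⟩
  have h3 := hXr.inter hH hY (htwo _ h1 h2)
  have h4 := hmin (X ∩ Y) (mem_filter.2 ⟨mem_univ _, h3, h1, h2⟩)
  have h5 := eq_of_subset_of_card_le (inter_subset_left : X ∩ Y ⊆ X) h4
  exact inter_eq_left.1 h5

theorem exists_sys (E : Finset (Finset α)) (hE : IsG E) : ∃ H, Sys E H := by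
  induction E using Finset.induction_on with
  | empty =>
    refine ⟨∅, ⟨⟨fun X hX => absurd hX (notMem_empty X), fun X hX => ?_⟩,
      fun e he => absurd he (notMem_empty e), fun X hX => absurd hX (notMem_empty X)⟩⟩
    unfold kk sIn
    rw [filter_empty, sum_empty, sub_zero]
    have := w_pos hX
    linarith
  | insert e E he ih =>
    obtain ⟨H, hS⟩ := ih (fun f hf => hE f (mem_insert_of_mem hf))
    obtain ⟨x, y, hxy, rfl⟩ := card_eq_two.1 (hE e (mem_insert_self _ _))
    have hsub : E ⊆ insert {x, y} E := subset_insert _ _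
    by_cases hs : Span H x y
    · obtain ⟨X, hX, hx, hy, hmin⟩ := s1_min_rig hS.indep hxy hs
      refine ⟨merge H X, ⟨merge_indep hS.indep hX, fun f hf => ?_, fun Y hY => ?_⟩⟩
      · rcases mem_insert.1 hf with rfl | hf
        · exact ⟨X, mem_insert_self _ _, pair_subset.2 ⟨hx, hy⟩⟩
        · obtain ⟨Y, hY, hfY⟩ := hS.cov f hf
          by_cases hYX : Y ⊆ X
          · exact ⟨X, mem_insert_self _ _, hfY.trans hYX⟩
          · exact ⟨Y, mem_insert_of_mem (mem_filter.2 ⟨hY, hYX⟩), hfY⟩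
      · rcases mem_insert.1 hY with rfl | hY
        · refine MCon_of_MCon (K' := insert {x, y} H) (fun B hB => (hE B hB).ge) ?_
            (mcon_of_min hS.indep hX hxy hx hy hmin)
          intro B hB _
          rcases mem_insert.1 hB with rfl | hB
          · exact Or.inl (mem_insert_self _ _)
          · exact Or.inr ⟨hS.indep.two B hB, (hS.mc B hB).mono hsub⟩
        · exact (hS.mc Y (mem_filter.1 hY).1).mono hsub
    · refine ⟨insert {x, y} H, ⟨hS.indep.insert_pair hxy hs, fun f hf => ?_, fun Y hY => ?_⟩⟩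
      · rcases mem_insert.1 hf with rfl | hf
        · exact ⟨{x, y}, mem_insert_self _ _, subset_rfl⟩
        · obtain ⟨Y, hY, hfY⟩ := hS.cov f hf
          exact ⟨Y, mem_insert_of_mem hY, hfY⟩
      · rcases mem_insert.1 hY with rfl | hY
        · intro C hC hc
          exfalso
          obtain ⟨A, hA, hsubA⟩ := hc {x, y} (mem_insert_self _ _) subset_rfl
          exact (hC A hA).2.2 ((hC A hA).2.1.antisymm hsubA)
        · exact (hS.mc Y hY).mono hsub

theorem MC_sys {E H F : Finset (Finset α)} (hE : IsG E) (hF : IsG F) (hS : Sys E H)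
    (h : MC (H ∪ F)) : MC (E ∪ F) := by
  rw [MC_iff] at h ⊢
  refine MCon_of_MCon (K' := H ∪ F) ?_ ?_ h
  · intro B hB
    rcases mem_union.1 hB with hB | hB
    · exact (hE B hB).ge
    · exact (hF B hB).ge
  · intro B hB _
    rcases mem_union.1 hB with hB | hB
    · exact Or.inr ⟨hS.indep.two B hB, (hS.mc B hB).mono subset_union_left⟩
    · exact Or.inl (mem_union_right _ hB)

theorem MC_sys' {E H F : Finset (Finset α)} (hS : Sys E H) (h : MC (E ∪ F)) : MC (H ∪ F) := by
  intro X hX hc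
  refine h X hX fun B hB => ?_
  rcases mem_union.1 hB with hB | hB
  · obtain ⟨Y, hY, hBY⟩ := hS.cov B hB
    obtain ⟨A, hA, hYA⟩ := hc Y (mem_union_left _ hY)
    exact ⟨A, hA, hBY.trans hYA⟩
  · exact hc B (mem_union_right _ hB)

theorem mcon_two {E : Finset (Finset α)} (hE : IsG E) {X : Finset α} (h : MCon E X)
    (h2 : X.card = 2) : X ∈ E := by
  by_contra hX
  have h1 := h ∅ (fun A hA => absurd hA (notMem_empty A)) (by
    intro B hB hBX
    exfalso
    exact hX ((eq_of_subset_of_card_le hBX (by rw [h2, hE B hB])) ▸ hB))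
  rw [sum_empty, h2] at h1
  norm_num at h1

theorem mcon_three {E : Finset (Finset α)} (hE : IsG E) {X : Finset α} (h : MCon E X) :
    X.card ≠ 3 := by
  classical
  intro h3
  have h1 := h (X.powersetCard 2) (by
    intro A hA
    obtain ⟨hAX, hA2⟩ := mem_powersetCard.1 hA
    refine ⟨hA2.ge, hAX, ?_⟩
    rintro rfl
    omega) (by
    intro B hB hBX
    exact ⟨B, mem_powersetCard.2 ⟨hBX, hE B hB⟩, subset_rfl⟩)
  have h2 : ∑ A ∈ X.powersetCard 2, w A = ∑ A ∈ X.powersetCard 2, (1 : ℤ) := by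
    apply sum_congr rfl
    intro A hA
    unfold w
    rw [(mem_powersetCard.1 hA).2]
    norm_num
  rw [h2, sum_const, card_powersetCard, h3] at h1
  norm_num [Nat.choose] at h1

theorem mcon_deg {E : Finset (Finset α)} (hE : IsG E) {X : Finset α} (h : MCon E X)
    (h3 : 3 ≤ X.card) {x : α} (hx : x ∈ X) :
    3 ≤ (univ.filter (fun y => y ∈ X ∧ ({x, y} : Finset α) ∈ E)).card := by
  classical
  obtain ⟨N, hN⟩ : ∃ N, N = univ.filter (fun y => y ∈ X ∧ ({x, y} : Finset α) ∈ E) := ⟨_, rfl⟩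
  rw [← hN]
  have hNx : ∀ y ∈ N, y ∈ X ∧ ({x, y} : Finset α) ∈ E := by
    intro y hy
    rw [hN] at hy
    exact (mem_filter.1 hy).2
  have hce : (X.erase x).card = X.card - 1 := card_erase_of_mem hx
  have h1 := h (insert (X.erase x) (N.image (fun y => ({x, y} : Finset α)))) (by
    intro A hA
    rcases mem_insert.1 hA with rfl | hA
    · refine ⟨by omega, erase_subset _ _, ?_⟩
      intro heq
      have := congrArg Finset.card heq
      omega
    · obtain ⟨y, hy, rfl⟩ := mem_image.1 hA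
      obtain ⟨hyX, hyE⟩ := hNx y hy
      have hc := hE _ hyE
      refine ⟨hc.ge, pair_subset.2 ⟨hx, hyX⟩, ?_⟩
      rintro rfl
      omega) (by
    intro B hB hBX
    by_cases hxB : x ∈ B
    · obtain ⟨a, b, hab, rfl⟩ := card_eq_two.1 (hE B hB)
      obtain ⟨haX, hbX⟩ := pair_subset.1 hBX
      rcases mem_insert.1 hxB with rfl | hxB
      · refine ⟨_, mem_insert_of_mem (mem_image_of_mem _ ?_), subset_rfl⟩
        rw [hN]
        exact mem_filter.2 ⟨mem_univ _, hbX, hB⟩
      · rw [mem_singleton] at hxB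
        subst hxB
        refine ⟨{x, a}, mem_insert_of_mem (mem_image_of_mem _ ?_), ?_⟩
        · rw [hN]
          exact mem_filter.2 ⟨mem_univ _, haX, by rw [pair_comm]; exact hB⟩
        · rw [pair_comm]
    · exact ⟨X.erase x, mem_insert_self _ _, fun t ht => mem_erase.2
        ⟨fun h => hxB (h ▸ ht), hBX ht⟩⟩)
  have h2 : ∑ A ∈ insert (X.erase x) (N.image (fun y => ({x, y} : Finset α))), w A ≤
      w (X.erase x) + N.card := by
    have hk : ∑ A ∈ N.image (fun y => ({x, y} : Finset α)), w A ≤ N.card := by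
      have h4 : ∑ A ∈ N.image (fun y => ({x, y} : Finset α)), w A =
          ∑ A ∈ N.image (fun y => ({x, y} : Finset α)), (1 : ℤ) := by
        apply sum_congr rfl
        intro A hA
        obtain ⟨y, hy, rfl⟩ := mem_image.1 hA
        unfold w
        rw [hE _ (hNx y hy).2]
        norm_num
      rw [h4, sum_const, nsmul_eq_mul, mul_one]
      exact_mod_cast card_image_le
    by_cases hm : X.erase x ∈ N.image (fun y => ({x, y} : Finset α))
    · rw [insert_eq_of_mem hm]
      have := w_pos (A := X.erase x) (by omega)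
      linarith
    · rw [sum_insert hm]
      linarith
  have h5 : w (X.erase x) = 2 * (X.card : ℤ) - 5 := by
    unfold w
    rw [hce]
    have : 1 ≤ X.card := by omega
    push_cast [Nat.cast_sub this]
    ring
  have h6 : (3 : ℤ) ≤ N.card := by linarith
  exact_mod_cast h6

private theorem s1_sep_aux {E : Finset (Finset α)} {X P Q : Finset α} (h : MCon E X)
    (h3 : 3 ≤ X.card) (hPQ : X = P ∪ Q) (hQ : Q ≠ X)
    (he : ∀ e ∈ E, e ⊆ X → e ⊆ P ∨ e ⊆ Q) (hP1 : P.card ≤ 1) : False := by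
  classical
  have hQX : Q ⊆ X := hPQ ▸ subset_union_right
  have hlt : Q.card < X.card := card_lt_card (Finset.ssubset_iff_subset_ne.2 ⟨hQX, hQ⟩)
  have hle : X.card ≤ P.card + Q.card := hPQ ▸ card_union_le P Q
  have hP : P.card = 1 := by omega
  have hQc : Q.card + 1 = X.card := by omega
  obtain ⟨p, rfl⟩ := card_eq_one.1 hP
  obtain ⟨q, hq⟩ := card_pos.1 (by omega : 0 < Q.card)
  have hpQ : p ∉ Q := by
    intro hp
    apply hQ
    rw [hPQ]
    exact (union_eq_right.2 (singleton_subset_iff.2 hp)).symm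
  have hpq : p ≠ q := fun h => hpQ (h ▸ hq)
  have hpX : p ∈ X := hPQ ▸ mem_union_left _ (mem_singleton_self p)
  have h1 := h {Q, {p, q}} (by
    intro A hA
    rcases mem_insert.1 hA with rfl | hA
    · exact ⟨by omega, hQX, hQ⟩
    · rw [mem_singleton] at hA
      subst hA
      refine ⟨(card_pair hpq).ge, pair_subset.2 ⟨hpX, hQX hq⟩, ?_⟩
      intro heq
      have := congrArg Finset.card heq
      rw [card_pair hpq] at this
      omega) (by
    intro B hB hBX
    rcases he B hB hBX with h4 | h4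
    · exact ⟨{p, q}, by simp, h4.trans (by simp)⟩
    · exact ⟨Q, by simp, h4⟩)
  have hne : Q ≠ {p, q} := by
    intro heq
    apply hpQ
    rw [heq]
    exact mem_insert_self _ _
  rw [sum_pair hne, w_pair hpq] at h1
  unfold w at h1
  have : (Q.card : ℤ) + 1 = X.card := by exact_mod_cast hQc
  linarith

theorem mcon_sep {E : Finset (Finset α)} {X P Q : Finset α} (h : MCon E X) (h3 : 3 ≤ X.card)
    (hPQ : X = P ∪ Q) (hP : P ≠ X) (hQ : Q ≠ X)
    (he : ∀ e ∈ E, e ⊆ X → e ⊆ P ∨ e ⊆ Q) : 2 ≤ (P ∩ Q).card := by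
  classical
  by_contra hlt
  by_cases hP1 : P.card ≤ 1
  · exact s1_sep_aux h h3 hPQ hQ he hP1
  by_cases hQ1 : Q.card ≤ 1
  · exact s1_sep_aux h h3 (by rw [hPQ, union_comm]) hP (fun e h1 h2 => (he e h1 h2).symm) hQ1
  have hPX : P ⊆ X := hPQ ▸ subset_union_left
  have hQX : Q ⊆ X := hPQ ▸ subset_union_right
  have h1 := h {P, Q} (by
    intro A hA
    rcases mem_insert.1 hA with rfl | hA
    · exact ⟨by omega, hPX, hP⟩
    · rw [mem_singleton] at hA
      subst hA
      exact ⟨by omega, hQX, hQ⟩) (by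
    intro B hB hBX
    rcases he B hB hBX with h4 | h4
    · exact ⟨P, by simp, h4⟩
    · exact ⟨Q, by simp, h4⟩)
  have hne : P ≠ Q := by
    rintro rfl
    apply hP
    rw [hPQ, union_self]
  rw [sum_pair hne] at h1
  have h4 : (X.card : ℤ) + (P ∩ Q).card = P.card + Q.card := by
    rw [hPQ]
    exact_mod_cast card_union_add_card_inter P Q
  have h5 : ((P ∩ Q).card : ℤ) ≤ 1 := by
    exact_mod_cast (by omega : (P ∩ Q).card ≤ 1)
  unfold w at h1
  linarith

end Pool.Agent.GRA
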