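import Pool.Agent.GRA.G2
import Pool.Agent.GRA.S1

/-!
# GRA/B1: the two sides of a 2-separation of an M-connected graph

Setting: `MC E`, `Sep E u v K M`.
PROOF of `Sep.mcon`: let `Y` be a cover of the edges of `insert {u,v} E` inside
`W = insert u (insert v K)` by proper subsets of `W` with ≥ 2 elements, and suppose
`Σ_Y w ≤ 2|W| - 3`. Let `A₀ ∈ Y` contain `{u,v}`. Replace `A₀` by `A₀ ∪ M`: all edges of `E` are covered
(`Sep.edge`: an edge not inside `W` is inside `insert u (insert v M) ⊆ A₀ ∪ M`; an edge inside `W` is covered by
`Y`), all sets are proper subsets of `univ` (`A₀ ∪ M ≠ univ` since `A₀ ≠ W` and `M` is disjoint from `W`;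
the other ones miss `M`). Weight: `≤ Σ_Y w + 2|M| ≤ 2|W| - 3 + 2|M| = 2n - 3`. Contradiction to `MC E`.

PROOF of `Sep.two_nbr`: suppose all neighbours of `u` in `M` are in `{b}` for some `b ∈ M`. The cover
`insert u (insert v K)`, `insert v M`, `{u, b}` consists of proper subsets (`M ≠ ∅`; `u ∉ insert v M`;
`n ≥ 4`) and covers `E` (an edge inside `insert u (insert v M)` either misses `u`, so is inside
`insert v M`, or is `{u,v}`, inside the first set, or `{u, m}` with `m ∈ M`, so `m = b`). Weight:
`(2(|K|+2) - 3) + (2(|M|+1) - 3) + 1 = 2(|K|+|M|) + 1 = 2n - 3` (`Sep.card`). Contradiction. So there are two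
different neighbours in `M` (take any neighbour or any `b ∈ M`, then a neighbour `≠ b`, then again).
-/

namespace Pool.Agent.GRA

open Finset

variable {α : Type*} [Fintype α] [DecidableEq α]

private theorem b1_cardW {E : Finset (Finset α)} {u v : α} {K M : Finset α}
    (hs : Sep E u v K M) : (insert u (insert v K)).card = K.card + 2 := by
  rw [card_insert_of_notMem, card_insert_of_notMem hs.vK]
  simp only [mem_insert, not_or]
  exact ⟨hs.ne, hs.uK⟩

theorem Sep.mcon {E : Finset (Finset α)} (hE : IsG E) (hn : 4 ≤ Fintype.card α) (hMC : MC E)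
    {u v : α} {K M : Finset α} (hs : Sep E u v K M) :
    MCon (insert {u, v} E) (insert u (insert v K)) := by
  intro Y hY hc
  by_contra hlt
  push Not at hlt
  have hMW : ∀ x ∈ M, x ∉ insert u (insert v K) := by
    intro x hx hxW
    rw [mem_insert, mem_insert] at hxW
    rcases hxW with h | h | h
    · exact hs.uM (h ▸ hx)
    · exact hs.vM (h ▸ hx)
    · exact (Finset.disjoint_left.mp hs.disj) h hx
  obtain ⟨A₀, hA₀, huv⟩ := hc {u, v} (mem_insert_self _ _) (by
    intro x hx
    simp only [mem_insert, mem_singleton] at hx ⊢
    tauto)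
  have hu : u ∈ A₀ := huv (by simp)
  have hv : v ∈ A₀ := huv (by simp)
  obtain ⟨m, hm⟩ := hs.M0
  have hA₀W := hY A₀ hA₀
  have hdis : Disjoint A₀ M := by
    rw [Finset.disjoint_left]
    intro x hx hxM
    exact hMW x hxM (hA₀W.2.1 hx)
  have hnot : A₀ ∪ M ∉ Y.erase A₀ := by
    intro h
    have h1 := (hY _ (mem_of_mem_erase h)).2.1
    exact hMW m hm (h1 (mem_union_right _ hm))
  have hMC' := hMC (insert (A₀ ∪ M) (Y.erase A₀)) (by
    intro A hA
    rw [mem_insert] at hA
    rcases hA with rfl | hA
    · refine ⟨hA₀W.1.trans (card_le_card subset_union_left), ?_⟩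
      intro h
      apply hA₀W.2.2
      apply Finset.Subset.antisymm hA₀W.2.1
      intro x hx
      have hx' : x ∈ A₀ ∪ M := by rw [h]; exact mem_univ _
      rw [mem_union] at hx'
      rcases hx' with h' | h'
      · exact h'
      · exact absurd hx (hMW x h')
    · have h1 := hY A (mem_of_mem_erase hA)
      refine ⟨h1.1, ?_⟩
      intro h
      exact hMW m hm (h1.2.1 (by rw [h]; exact mem_univ _))) (by
    intro B hB
    by_cases hBW : B ⊆ insert u (insert v K)
    · obtain ⟨A, hA, hBA⟩ := hc B (mem_insert_of_mem hB) hBW
      by_cases hAA : A = A₀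
      · exact ⟨A₀ ∪ M, mem_insert_self _ _, by rw [← hAA]; exact hBA.trans subset_union_left⟩
      · exact ⟨A, mem_insert_of_mem (mem_erase.mpr ⟨hAA, hA⟩), hBA⟩
    · rcases hs.edge B hB with h | h
      · exact absurd h hBW
      · refine ⟨A₀ ∪ M, mem_insert_self _ _, ?_⟩
        intro x hx
        have hx' := h hx
        rw [mem_insert, mem_insert] at hx'
        rw [mem_union]
        rcases hx' with rfl | rfl | hx'
        · exact Or.inl hu
        · exact Or.inl hv
        · exact Or.inr hx')
  rw [sum_insert hnot] at hMC'
  have h1 : w (A₀ ∪ M) = w A₀ + 2 * (M.card : ℤ) := by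
    unfold w
    rw [card_union_of_disjoint hdis]
    push_cast
    ring
  have h2 : w A₀ + ∑ A ∈ Y.erase A₀, w A = ∑ A ∈ Y, w A := add_sum_erase _ _ hA₀
  have h3 := b1_cardW hs
  have h4 := hs.card
  rw [h3] at hlt
  push_cast at hlt
  have h5 : ((K.card : ℤ) + M.card + 2) = Fintype.card α := by exact_mod_cast h4
  linarith

theorem Sep.two_nbr {E : Finset (Finset α)} (hE : IsG E) (hn : 4 ≤ Fintype.card α)
    (hMC : MC E) {u v : α} {K M : Finset α} (hs : Sep E u v K M) :
    ∃ x ∈ M, ∃ y ∈ M, x ≠ y ∧ ({u, x} : Finset α) ∈ E ∧ ({u, y} : Finset α) ∈ E := by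
  -- for every `b ∈ M` there is a neighbour of `u` in `M` different from `b`
  have key : ∀ b ∈ M, ∃ x ∈ M, x ≠ b ∧ ({u, x} : Finset α) ∈ E := by
    intro b hb
    by_contra hcon
    push Not at hcon
    have hub : u ≠ b := fun h => hs.uM (h ▸ hb)
    have hcW := b1_cardW hs
    have hcM : (insert v M).card = M.card + 1 := card_insert_of_notMem hs.vM
    have hMW : ∀ x ∈ M, x ∉ insert u (insert v K) := by
      intro x hx hxW
      rw [mem_insert, mem_insert] at hxW
      rcases hxW with h | h | h
      · exact hs.uM (h ▸ hx)
      · exact hs.vM (h ▸ hx)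
      · exact (Finset.disjoint_left.mp hs.disj) h hx
    have hpos : 1 ≤ M.card := card_pos.mpr hs.M0
    have hMC' := hMC ({insert u (insert v K), insert v M, {u, b}} : Finset (Finset α)) (by
      intro A hA
      simp only [mem_insert, mem_singleton] at hA
      rcases hA with rfl | rfl | rfl
      · refine ⟨by omega, ?_⟩
        intro h
        exact hMW b hb (by rw [h]; exact mem_univ _)
      · refine ⟨by omega, ?_⟩
        intro h
        have : u ∈ insert v M := by rw [h]; exact mem_univ _
        rw [mem_insert] at this
        rcases this with h' | h'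
        · exact hs.ne h'
        · exact hs.uM h'
      · refine ⟨by rw [card_pair hub], ?_⟩
        intro h
        have h' : ({u, b} : Finset α).card = Fintype.card α := by rw [h]; rfl
        rw [card_pair hub] at h'
        omega) (by
      intro B hB
      rcases hs.edge B hB with h | h
      · exact ⟨_, mem_insert_self _ _, h⟩
      · by_cases huB : u ∈ B
        · obtain ⟨p, q, hpq, rfl⟩ := card_eq_two.mp (hE B hB)
          -- the other end
          have hother : ∃ z, ({p, q} : Finset α) = {u, z} := by
            simp only [mem_insert, mem_singleton] at huB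
            rcases huB with rfl | rfl
            · exact ⟨q, rfl⟩
            · exact ⟨p, pair_comm _ _⟩
          obtain ⟨z, hz⟩ := hother
          rw [hz] at h hB ⊢
          have hzin : z ∈ insert u (insert v M) := h (by simp)
          rw [mem_insert, mem_insert] at hzin
          rcases hzin with rfl | rfl | hzM
          · refine ⟨_, mem_insert_self _ _, ?_⟩
            intro x hx
            simp only [mem_insert, mem_singleton, or_self] at hx
            subst hx
            exact mem_insert_self _ _
          · refine ⟨_, mem_insert_self _ _, ?_⟩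
            intro x hx
            simp only [mem_insert, mem_singleton] at hx ⊢
            tauto
          · by_cases hzb : z = b
            · subst hzb
              exact ⟨{u, z}, by simp, Finset.Subset.refl _⟩
            · exact absurd hB (hcon z hzM hzb)
        · refine ⟨insert v M, by simp, ?_⟩
          intro x hx
          have hx' := h hx
          rw [mem_insert] at hx'
          rcases hx' with rfl | hx'
          · exact absurd hx huB
          · exact hx')
    have hle : ∑ A ∈ ({insert u (insert v K), insert v M, {u, b}} : Finset (Finset α)), w A ≤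
        w (insert u (insert v K)) + (w (insert v M) + w ({u, b} : Finset α)) := by
      have hn1 : insert u (insert v K) ∉ ({insert v M, {u, b}} : Finset (Finset α)) := by
        simp only [mem_insert, mem_singleton, not_or]
        constructor
        · intro h
          exact hMW b hb (by rw [h]; exact mem_insert_of_mem hb)
        · intro h
          exact hMW b hb (by rw [h]; simp)
      have hn2 : insert v M ∉ ({{u, b}} : Finset (Finset α)) := by
        simp only [mem_singleton]
        intro h
        have : u ∈ insert v M := by rw [h]; simp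
        rw [mem_insert] at this
        rcases this with h' | h'
        · exact hs.ne h'
        · exact hs.uM h'
      rw [sum_insert hn1, sum_insert hn2, sum_singleton]
    have h5 : ((K.card : ℤ) + M.card + 2) = Fintype.card α := by exact_mod_cast hs.card
    have e1 : w (insert u (insert v K)) = 2 * (K.card : ℤ) + 1 := by
      unfold w; rw [hcW]; push_cast; ring
    have e2 : w (insert v M) = 2 * (M.card : ℤ) - 1 := by
      unfold w; rw [hcM]; push_cast; ring
    have e3 : w ({u, b} : Finset α) = 1 := w_pair hub
    rw [e1, e2, e3] at hle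
    linarith
  obtain ⟨b, hb⟩ := hs.M0
  obtain ⟨x, hx, -, hxE⟩ := key b hb
  obtain ⟨y, hy, hyx, hyE⟩ := key x hx
  exact ⟨x, hx, y, hy, hyx.symm, hxE, hyE⟩

end Pool.Agent.GRA
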