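import Pool.Agent.GRA.B1

/-!
# GRA/B2: counting lemma for covers across a 2-separation

Setting: `W₁ = insert u (insert v K)`, `W₂ = insert u (insert v M)`, `Sep E u v K M`.
`point_count`: for a set `A` with `|A| ≥ 2` put `a = |A ∩ K|`, `b = |A ∩ M|`, `c = |A ∩ {u,v}|`:
`w A = 2(a+b+c) - 3`, `|A ∩ W₁| = a + c`, `|A ∩ W₂| = b + c`.
* `c = 2` (`u, v ∈ A`): `w A + 1 = w (A ∩ W₁) + w (A ∩ W₂)`: `2(a+b+2) - 2 = (2(a+2)-3) + (2(b+2)-3)`.
* `c ≤ 1`, `a = 0`: `A ∩ W₂ = A`, `wp (A ∩ W₁) = 0` (at most one element). Same for `b = 0`.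
* `c ≤ 1`, `a, b ≥ 1`: if `a + c ≥ 2` and `b + c ≥ 2` : `w A - wp - wp = 3 - 2c ≥ 1`; if `a + c = 1` (so
  `a = 1`, `c = 0`) and `b + c ≥ 2`: `w A - 0 - (2b - 3) = 2`; if both are 1: `w A = 1`. In all cases the
  difference is `≥ 1`.
`Cross A`: `A` meets `K` and `M` and does not contain both `u, v`.
`sum_count`: sum of `point_count` over the family `X` of sets with pairwise intersections of size ≤ 1:
at most one set contains both `u` and `v`.

`side_count`: `MCon (insert {u,v} E) W₁`, `X` a family of sets with ≥ 2 elements, `G` a set of pairs such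
that every edge of `E` inside `W₁` is inside some `A ∈ X` or is in `G`. If no `A ∈ X` contains `W₁`: the
traces `A ∩ W₁` with ≥ 2 elements, the members of `G` inside `W₁` that are not `W₁` (`|W₁| ≥ 3`), and the pair
`{u,v}` (needed only if no `A ∈ X` contains `u` and `v`) form a cover of the edges of `insert {u,v} E`
inside `W₁` by proper subsets of `W₁`, so `2|W₁| - 2 ≤ Σ_X wp (A ∩ W₁) + |G| + δ`.
`side_full`: if `A₀ ∈ X` contains `W₁`, `2|W₁| - 3 ≤ Σ_X wp (A ∩ W₁)` (`wp ≥ 0`).
-/

namespace Pool.Agent.GRA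

open Finset

variable {α : Type*} [Fintype α] [DecidableEq α]

/-- `A` meets both sides and does not contain both `u` and `v`. -/
def Cross (u v : α) (K M A : Finset α) : Prop :=
  (A ∩ K).Nonempty ∧ (A ∩ M).Nonempty ∧ ¬ (u ∈ A ∧ v ∈ A)

instance (u v : α) (K M : Finset α) : DecidablePred (Cross u v K M) := fun _ => by
  unfold Cross; infer_instance

private theorem card_ins (A K : Finset α) {u v : α} (hne : u ≠ v) (hu : u ∉ K) (hv : v ∉ K) :
    (A ∩ insert u (insert v K)).card =
      (A ∩ K).card + (if u ∈ A then 1 else 0) + (if v ∈ A then 1 else 0) := by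
  by_cases h1 : u ∈ A
  · have hu' : u ∉ A ∩ insert v K := by
      simp only [mem_inter, mem_insert, not_and, not_or]
      exact fun _ => ⟨hne, hu⟩
    rw [inter_insert_of_mem h1, card_insert_of_notMem hu', if_pos h1]
    by_cases h2 : v ∈ A
    · have hv' : v ∉ A ∩ K := fun h => hv (mem_inter.1 h).2
      rw [inter_insert_of_mem h2, card_insert_of_notMem hv', if_pos h2]
    · rw [inter_insert_of_notMem h2, if_neg h2]
  · rw [inter_insert_of_notMem h1, if_neg h1]
    by_cases h2 : v ∈ A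
    · have hv' : v ∉ A ∩ K := fun h => hv (mem_inter.1 h).2
      rw [inter_insert_of_mem h2, card_insert_of_notMem hv', if_pos h2]
    · rw [inter_insert_of_notMem h2, if_neg h2]
      omega

private theorem card_split {E : Finset (Finset α)} {u v : α} {K M : Finset α}
    (hs : Sep E u v K M) (A : Finset α) :
    A.card = (A ∩ K).card + (A ∩ M).card + (if u ∈ A then 1 else 0) +
      (if v ∈ A then 1 else 0) := by
  have h1 : A = A ∩ insert u (insert v (K ∪ M)) := by
    refine (inter_eq_left.2 fun x _ => ?_).symm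
    have := hs.top x
    simp only [mem_insert, mem_union]
    tauto
  have h2 : u ∉ K ∪ M := by
    rw [mem_union, not_or]
    exact ⟨hs.uK, hs.uM⟩
  have h3 : v ∉ K ∪ M := by
    rw [mem_union, not_or]
    exact ⟨hs.vK, hs.vM⟩
  have h4 : (A ∩ (K ∪ M)).card = (A ∩ K).card + (A ∩ M).card := by
    rw [inter_union_distrib_left, card_union_of_disjoint]
    exact hs.disj.mono inter_subset_right inter_subset_right
  conv_lhs => rw [h1]
  rw [card_ins A (K ∪ M) hs.ne h2 h3, h4]

private theorem sum_image_le' {β γ : Type*} [DecidableEq β] [DecidableEq γ] (f : β → γ) (g : γ → ℤ)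
    (hg : ∀ x, 0 ≤ g x) (s : Finset β) : ∑ y ∈ s.image f, g y ≤ ∑ x ∈ s, g (f x) := by
  induction s using Finset.induction_on with
  | empty => simp
  | insert a s ha ih =>
    rw [image_insert, sum_insert ha]
    by_cases h : f a ∈ s.image f
    · rw [insert_eq_of_mem h]
      have := hg (f a)
      linarith
    · rw [sum_insert h]
      linarith

private theorem sum_union_le' (s t : Finset (Finset α)) :
    ∑ A ∈ s ∪ t, wp A ≤ ∑ A ∈ s, wp A + ∑ A ∈ t, wp A := by
  rw [← sum_union_inter]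
  have : 0 ≤ ∑ A ∈ s ∩ t, wp A := sum_nonneg fun A _ => wp_nonneg A
  linarith

theorem point_count {E : Finset (Finset α)} {u v : α} {K M : Finset α} (hs : Sep E u v K M)
    {A : Finset α} (hA : 2 ≤ A.card) :
    wp (A ∩ insert u (insert v K)) + wp (A ∩ insert u (insert v M)) +
      (if Cross u v K M A then 1 else 0) ≤ w A + (if u ∈ A ∧ v ∈ A then 1 else 0) := by
  have h1 := card_ins A K hs.ne hs.uK hs.vK
  have h2 := card_ins A M hs.ne hs.uM hs.vM
  have h3 := card_split hs A
  have hc : Cross u v K M A ↔ 0 < (A ∩ K).card ∧ 0 < (A ∩ M).card ∧ ¬ (u ∈ A ∧ v ∈ A) := by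
    unfold Cross
    rw [card_pos, card_pos]
  simp only [hc]
  unfold wp w
  rw [h1, h2, h3]
  rw [h3] at hA
  by_cases hu : u ∈ A <;> by_cases hv : v ∈ A <;>
    simp only [hu, hv, if_true, if_false, and_self, and_true, not_true, not_false_eq_true,
      and_false] at hA ⊢ <;> push_cast <;> omega

theorem sum_count {E : Finset (Finset α)} {u v : α} {K M : Finset α} (hs : Sep E u v K M)
    {X : Finset (Finset α)} (hX : ∀ A ∈ X, 2 ≤ A.card)
    (hthin : ∀ A ∈ X, ∀ B ∈ X, A ≠ B → (A ∩ B).card ≤ 1) :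
    ∑ A ∈ X, wp (A ∩ insert u (insert v K)) + ∑ A ∈ X, wp (A ∩ insert u (insert v M)) +
      ((X.filter (Cross u v K M)).card : ℤ) ≤
      ∑ A ∈ X, w A + (if ∃ A ∈ X, u ∈ A ∧ v ∈ A then 1 else 0) := by
  have h1 : ∑ A ∈ X, (wp (A ∩ insert u (insert v K)) + wp (A ∩ insert u (insert v M)) +
      (if Cross u v K M A then 1 else 0)) ≤
      ∑ A ∈ X, (w A + (if u ∈ A ∧ v ∈ A then 1 else 0)) :=
    sum_le_sum fun A hA => point_count hs (hX A hA)
  rw [sum_add_distrib, sum_add_distrib, sum_add_distrib] at h1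
  have h2 : ∑ A ∈ X, (if Cross u v K M A then (1 : ℤ) else 0) =
      ((X.filter (Cross u v K M)).card : ℤ) := by
    rw [card_filter]
    push_cast
    rfl
  have h3 : ∑ A ∈ X, (if u ∈ A ∧ v ∈ A then (1 : ℤ) else 0) ≤
      if ∃ A ∈ X, u ∈ A ∧ v ∈ A then 1 else 0 := by
    split_ifs with h
    · have h4 : ∑ A ∈ X, (if u ∈ A ∧ v ∈ A then (1 : ℤ) else 0) =
          ((X.filter (fun A => u ∈ A ∧ v ∈ A)).card : ℤ) := by
        rw [card_filter]
        push_cast
        rfl
      rw [h4]
      have h5 : (X.filter (fun A => u ∈ A ∧ v ∈ A)).card ≤ 1 := by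
        rw [card_le_one]
        intro A hA B hB
        obtain ⟨hA1, hA2, hA3⟩ := mem_filter.1 hA
        obtain ⟨hB1, hB2, hB3⟩ := mem_filter.1 hB
        by_contra hne
        have h6 := hthin A hA1 B hB1 hne
        have h7 : ({u, v} : Finset α) ⊆ A ∩ B :=
          pair_subset.2 ⟨mem_inter.2 ⟨hA2, hB2⟩, mem_inter.2 ⟨hA3, hB3⟩⟩
        have h8 := card_le_card h7
        rw [card_pair hs.ne] at h8
        omega
      exact_mod_cast h5
    · refine le_of_eq (sum_eq_zero fun A hA => ?_)
      rw [if_neg]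
      intro h'
      exact h ⟨A, hA, h'⟩
  linarith

theorem side_count {E : Finset (Finset α)} {u v : α} {K M : Finset α} (hs : Sep E u v K M)
    (hc : MCon (insert {u, v} E) (insert u (insert v K)))
    {X G : Finset (Finset α)} (hX : ∀ A ∈ X, 2 ≤ A.card) (hG : IsG G)
    (hcov : ∀ e ∈ E, e ⊆ insert u (insert v K) → e ∈ G ∨ ∃ A ∈ X, e ⊆ A)
    (hno : ∀ A ∈ X, ¬ insert u (insert v K) ⊆ A) :
    2 * ((insert u (insert v K)).card : ℤ) - 2 ≤ ∑ A ∈ X, wp (A ∩ insert u (insert v K)) +
      (G.card : ℤ) + (if ∃ A ∈ X, u ∈ A ∧ v ∈ A then 0 else 1) := by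
  set W := insert u (insert v K) with hW
  have huW : u ∈ W := mem_insert_self _ _
  have hvW : v ∈ W := mem_insert_of_mem (mem_insert_self _ _)
  have hW3 : 3 ≤ W.card := by
    have h1 : u ∉ insert v K := by
      rw [mem_insert, not_or]
      exact ⟨hs.ne, hs.uK⟩
    rw [hW, card_insert_of_notMem h1, card_insert_of_notMem hs.vK]
    have := card_pos.2 hs.K0
    omega
  -- the cover
  set T : Finset (Finset α) := (X.image (fun A => A ∩ W)).filter (fun A => 2 ≤ A.card) with hT
  set G' : Finset (Finset α) := G.filter (fun A => A ⊆ W) with hG'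
  set P : Finset (Finset α) := if ∃ A ∈ X, u ∈ A ∧ v ∈ A then ∅ else {{u, v}} with hP
  have hprop : ∀ A ∈ T ∪ G' ∪ P, 2 ≤ A.card ∧ A ⊆ W ∧ A ≠ W := by
    intro A hA
    rcases mem_union.1 hA with hA | hA
    · rcases mem_union.1 hA with hA | hA
      · obtain ⟨h1, h2⟩ := mem_filter.1 hA
        obtain ⟨B, hB, rfl⟩ := mem_image.1 h1
        refine ⟨h2, inter_subset_right, fun h3 => hno B hB ?_⟩
        rw [← h3]
        exact inter_subset_left
      · obtain ⟨h1, h2⟩ := mem_filter.1 hA
        have h3 := hG A h1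
        refine ⟨by omega, h2, fun h4 => ?_⟩
        rw [h4] at h3
        omega
    · rw [hP] at hA
      split_ifs at hA with h
      · simp at hA
      · rw [mem_singleton.1 hA]
        have h3 := card_pair hs.ne
        refine ⟨by omega, pair_subset.2 ⟨huW, hvW⟩, fun h4 => ?_⟩
        rw [h4] at h3
        omega
  have htr : ∀ A ∈ X, ∀ B : Finset α, 2 ≤ B.card → B ⊆ W → B ⊆ A →
      ∃ C ∈ T ∪ G' ∪ P, B ⊆ C := by
    intro A hA B hB2 hBW hBA
    have hsub : B ⊆ A ∩ W := subset_inter hBA hBW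
    refine ⟨A ∩ W, ?_, hsub⟩
    refine mem_union_left _ (mem_union_left _ (mem_filter.2 ⟨mem_image_of_mem _ hA, ?_⟩))
    exact hB2.trans (card_le_card hsub)
  have hcov2 : ∀ B ∈ insert {u, v} E, 2 ≤ B.card → B ⊆ W → ∃ C ∈ T ∪ G' ∪ P, B ⊆ C := by
    intro B hB hB2 hBW
    rcases mem_insert.1 hB with rfl | hB
    · by_cases h : ∃ A ∈ X, u ∈ A ∧ v ∈ A
      · obtain ⟨A, hA, h1⟩ := h
        exact htr A hA _ hB2 hBW (pair_subset.2 h1)
      · refine ⟨{u, v}, mem_union_right _ ?_, subset_rfl⟩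
        rw [hP, if_neg h]
        exact mem_singleton_self _
    · rcases hcov B hB hBW with h | ⟨A, hA, h⟩
      · exact ⟨B, mem_union_left _ (mem_union_right _ (mem_filter.2 ⟨h, hBW⟩)), subset_rfl⟩
      · exact htr A hA B hB2 hBW h
  -- every point of `W` is in a member with at least two elements
  have hpt : ∀ b ∈ W, ∃ B ∈ insert {u, v} E, 2 ≤ B.card ∧ B ⊆ W ∧ b ∈ B := by
    intro b hb
    by_contra hcon
    push Not at hcon
    obtain ⟨x, hx⟩ : (W.erase b).Nonempty := by
      rw [← card_pos, card_erase_of_mem hb]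
      omega
    have hxb : b ≠ x := by
      rintro rfl
      simp at hx
    have hE2 : 2 ≤ (W.erase b).card := by
      rw [card_erase_of_mem hb]
      omega
    have hxW := (mem_erase.1 hx).2
    have h1 := hc {W.erase b, {b, x}} (by
      intro A hA
      rcases mem_insert.1 hA with rfl | hA
      · refine ⟨hE2, erase_subset _ _, fun h => ?_⟩
        have := notMem_erase b W
        rw [h] at this
        exact this hb
      · rw [mem_singleton.1 hA]
        have h3 := card_pair hxb
        refine ⟨by omega, pair_subset.2 ⟨hb, hxW⟩, fun h => ?_⟩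
        rw [h] at h3
        omega) (by
      intro B hB hBW
      by_cases hB2 : 2 ≤ B.card
      · refine ⟨W.erase b, mem_insert_self _ _, fun y hy => mem_erase.2 ⟨?_, hBW hy⟩⟩
        rintro rfl
        exact hcon B hB hB2 hBW hy
      · by_cases hbB : b ∈ B
        · refine ⟨{b, x}, mem_insert_of_mem (mem_singleton_self _), fun y hy => ?_⟩
          have : y = b := card_le_one.1 (by omega) y hy b hbB
          rw [this]
          exact mem_insert_self _ _
        · exact ⟨W.erase b, mem_insert_self _ _, fun y hy => mem_erase.2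
            ⟨fun h => hbB (h ▸ hy), hBW hy⟩⟩)
    have h2 : ∑ A ∈ ({W.erase b, {b, x}} : Finset (Finset α)), w A ≤ w (W.erase b) + 1 := by
      by_cases heq : W.erase b = {b, x}
      · exfalso
        have : b ∈ W.erase b := by
          rw [heq]
          exact mem_insert_self _ _
        simp at this
      · rw [sum_pair heq, w_pair hxb]
    have h3 : w (W.erase b) = 2 * (W.card : ℤ) - 5 := by
      unfold w
      rw [card_erase_of_mem hb]
      have : ((W.card - 1 : ℕ) : ℤ) = (W.card : ℤ) - 1 := by omega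
      rw [this]
      ring
    linarith
  have hcov3 : ∀ B ∈ insert {u, v} E, B ⊆ W → ∃ C ∈ T ∪ G' ∪ P, B ⊆ C := by
    intro B hB hBW
    by_cases hB2 : 2 ≤ B.card
    · exact hcov2 B hB hB2 hBW
    · rcases B.eq_empty_or_nonempty with rfl | ⟨b, hb⟩
      · obtain ⟨C, hC, _⟩ := hcov2 {u, v} (mem_insert_self _ _) (by rw [card_pair hs.ne])
          (pair_subset.2 ⟨huW, hvW⟩)
        exact ⟨C, hC, empty_subset _⟩
      · obtain ⟨B', hB', h2', hBW', hb'⟩ := hpt b (hBW hb)
        obtain ⟨C, hC, h⟩ := hcov2 B' hB' h2' hBW'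
        refine ⟨C, hC, fun y hy => ?_⟩
        have : y = b := card_le_one.1 (by omega) y hy b hb
        rw [this]
        exact h hb'
  have hmain := hc (T ∪ G' ∪ P) hprop hcov3
  have e1 : ∑ A ∈ T ∪ G' ∪ P, w A = ∑ A ∈ T ∪ G' ∪ P, wp A :=
    sum_congr rfl fun A hA => (wp_of_two (hprop A hA).1).symm
  have e2 : ∑ A ∈ T, wp A ≤ ∑ A ∈ X, wp (A ∩ W) := by
    refine le_trans ?_ (sum_image_le' (fun A => A ∩ W) wp wp_nonneg X)
    exact sum_le_sum_of_subset_of_nonneg (filter_subset _ _) fun A _ _ => wp_nonneg A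
  have e3 : ∑ A ∈ G', wp A ≤ (G.card : ℤ) := by
    have h1 : ∀ A ∈ G', wp A = 1 := by
      intro A hA
      have h2 := hG A (mem_filter.1 hA).1
      rw [wp_of_two (by omega)]
      unfold w
      rw [h2]
      norm_num
    rw [sum_congr rfl h1, sum_const, nsmul_eq_mul, mul_one]
    exact_mod_cast card_le_card (filter_subset _ _)
  have e4 : ∑ A ∈ P, wp A = if ∃ A ∈ X, u ∈ A ∧ v ∈ A then 0 else 1 := by
    rw [hP]
    split_ifs
    · simp
    · rw [sum_singleton, wp_of_two (by rw [card_pair hs.ne]), w_pair hs.ne]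
  have e5 := sum_union_le' (T ∪ G') P
  have e6 := sum_union_le' T G'
  rw [e4] at e5
  linarith

theorem side_full {u v : α} {K : Finset α} {X : Finset (Finset α)}
    {A₀ : Finset α} (hA : A₀ ∈ X) (h : insert u (insert v K) ⊆ A₀)
    (h2 : 2 ≤ (insert u (insert v K)).card) :
    2 * ((insert u (insert v K)).card : ℤ) - 3 ≤ ∑ A ∈ X, wp (A ∩ insert u (insert v K)) := by
  have h3 := single_le_sum (f := fun A => wp (A ∩ insert u (insert v K)))
    (fun A _ => wp_nonneg _) hA
  rw [inter_eq_right.2 h, wp_of_two h2] at h3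
  unfold w at h3
  exact h3

end Pool.Agent.GRA
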