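import Pool.Agent.GRA.B2

/-!
# GRA/B3: three exchange operations preserve M-connectivity

Notation: `W₁ = insert u (insert v K)`, `W₂ = insert u (insert v M)`, `|W₁| + |W₂| = n + 2` (`Sep.card`),
`τ_i = Σ_X wp (A ∩ W_i)`, `N = 1` if some `A ∈ X` contains `u` and `v`, else `0`, `δ = 1 - N`,
`β = |{A ∈ X : Cross}|`. `sum_count`: `τ₁ + τ₂ + β ≤ Σ_X w + N`. `Sep.mcon` (for `hs` and `hs.symm`) gives
the two `MCon` facts.

All three proofs: suppose `E'` (the new graph) is not `MC`; `exists_bad` gives a cover `X` of `E'` by proper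
subsets, `|A ∩ B| ≤ 1` for different sets, `Σ_X w ≤ 2n - 3`. It is not possible that `A ⊇ W₁` and `B ⊇ W₂`
for `A, B ∈ X`: `A ∩ B ⊇ {u,v}`, so `A = B ⊇ W₁ ∪ W₂ = univ`.

(swapuv) `E' ⊇ E.erase {u,v}`. In `side_count` take `G = ∅` if `N = 1`, (if `N = 1` then `{u,v}` is inside some
`A ∈ X`, so covered); if `N = 0` the pair `{u,v} ∈ E` may be uncovered but it is not needed: apply
`side_count` with `E.erase {u,v}` in place of `E` (`Sep.anti`; note `insert {u,v} (E.erase {u,v}) = insert {u,v} E`),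
so `G = ∅` always. Case no full side: `2(n+2) - 4 - 2δ ≤ τ₁ + τ₂ ≤ Σ w + N`, so
`Σ w ≥ 2n - 2δ - N ≥ 2n - 2`. Case `W₁ ⊆ A₀` (then `N = 1`, `δ = 0`): `τ₁ ≥ 2|W₁| - 3`, `τ₂ ≥ 2|W₂| - 2`:
`Σ w ≥ 2(n+2) - 5 - 1 = 2n - 2`. Same for `W₂`. Contradiction.

(swap1) removed edge `f = {x,u}`, `x ∈ K`, new edge `{x,z}`, `z ∈ M`. Let `ε = 0` if `f` is inside some
`A ∈ X`, else `ε = 1`; `G₁ = {f}` if `ε = 1`, else `∅`; `G₂ = ∅` (`f` is not inside `W₂`). `{x,z} ⊆ B` for some `B ∈ X`.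
Case no full side: `Σ w ≥ 2n - ε - 2δ - N + β`. If `N = 1`: `≥ 2n - 2`. If `N = 0`, `ε = 0`: `≥ 2n - 2`. If
`N = 0`, `ε = 1`: `B` is `Cross` (`x ∈ K`, `z ∈ M`, `N = 0`), `β ≥ 1`. Case `W₁ ⊆ A₀`: `f ⊆ A₀`, `ε = 0`, `N = 1`,
`δ = 0`: `Σ w ≥ (2|W₁|-3) + (2|W₂|-2) - 1 = 2n - 2`. Case `W₂ ⊆ A₀`: `Σ w ≥ 2n - 2 - ε + β`; if `ε = 1`:
`B ≠ A₀` (otherwise `x, u ∈ A₀`), `z ∈ B ∩ A₀` so `B ∩ A₀ = {z}` and `u, v ∉ B`: `B` is `Cross`, `β ≥ 1`.

(double) removed `f₁ = {x₁,y₁} ⊆ K`, `f₂ = {x₂,y₂} ⊆ M`, new `{x₁,x₂} ⊆ B`, `{y₁,y₂} ⊆ B'`, `B, B' ∈ X`. `ε_i` as before.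
Case no full side: `Σ w ≥ 2n - ε₁ - ε₂ - 2δ - N + β`. `N = 1`: fine unless `ε₁ = ε₂ = 1`; then `B ≠ B'`
(otherwise `f₁ ⊆ B`), at most one of them contains `{u,v}`, the other is `Cross`: `β ≥ 1`. `N = 0`: if
`ε₁ = ε₂ = 1`: `B ≠ B'` are both `Cross`, `β ≥ 2`; if exactly one is 1: `B` is `Cross`, `β ≥ 1`. Always
`Σ w ≥ 2n - 2`. Case `W₁ ⊆ A₀`: `ε₁ = 0`, `N = 1`: `Σ w ≥ 2n - 2 - ε₂ + β`; if `ε₂ = 1`, one of `B, B'` is not
`A₀` (otherwise `x₂, y₂ ∈ A₀`), say `B`; `x₁ ∈ B ∩ A₀`, so `B ∩ A₀ = {x₁}`, `u, v ∉ B`, `B` is `Cross`, `β ≥ 1`.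
Case `W₂ ⊆ A₀`: symmetric.
-/

namespace Pool.Agent.GRA

open Finset

variable {α : Type*} [Fintype α] [DecidableEq α]

/-- The double exchange. -/
def dbl (E : Finset (Finset α)) (x1 y1 x2 y2 : α) : Finset (Finset α) :=
  insert {x1, x2} (insert {y1, y2} ((E.erase {x1, y1}).erase {x2, y2}))

private theorem b3_core {E : Finset (Finset α)} (hE : IsG E) (hn : 4 ≤ Fintype.card α)
    (hMC : MC E) {u v : α} {K M : Finset α} (hs : Sep E u v K M) {X G₁ G₂ : Finset (Finset α)}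
    (hX : ∀ A ∈ X, 2 ≤ A.card ∧ A ≠ univ)
    (hthin : ∀ A ∈ X, ∀ B ∈ X, A ≠ B → (A ∩ B).card ≤ 1) (hG₁ : IsG G₁) (hG₂ : IsG G₂)
    (hcov1 : ∀ e ∈ E, e ≠ {u, v} → e ⊆ insert u (insert v K) → e ∈ G₁ ∨ ∃ A ∈ X, e ⊆ A)
    (hcov2 : ∀ e ∈ E, e ≠ {u, v} → e ⊆ insert u (insert v M) → e ∈ G₂ ∨ ∃ A ∈ X, e ⊆ A)
    (hbad : ∑ A ∈ X, w A ≤ 2 * (Fintype.card α : ℤ) - 3) :
    ((∃ A ∈ X, u ∈ A ∧ v ∈ A) ∧
      2 + ((X.filter (Cross u v K M)).card : ℤ) ≤ (G₁.card : ℤ) + (G₂.card : ℤ)) ∨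
    ((¬ ∃ A ∈ X, u ∈ A ∧ v ∈ A) ∧
      1 + ((X.filter (Cross u v K M)).card : ℤ) ≤ (G₁.card : ℤ) + (G₂.card : ℤ)) ∨
    (∃ A₀ ∈ X, insert u (insert v K) ⊆ A₀ ∧
      1 + ((X.filter (Cross u v K M)).card : ℤ) ≤ (G₂.card : ℤ)) ∨
    (∃ A₀ ∈ X, insert u (insert v M) ⊆ A₀ ∧
      1 + ((X.filter (Cross u v K M)).card : ℤ) ≤ (G₁.card : ℤ)) := by
  have hne := hs.ne
  have hc1 : (insert u (insert v K)).card = K.card + 2 := by
    rw [card_insert_of_notMem, card_insert_of_notMem hs.vK]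
    simp [hne, hs.uK]
  have hc2 : (insert u (insert v M)).card = M.card + 2 := by
    rw [card_insert_of_notMem, card_insert_of_notMem hs.vM]
    simp [hne, hs.uM]
  have hcard : (K.card : ℤ) + M.card + 2 = (Fintype.card α : ℤ) := by
    exact_mod_cast hs.card
  have hins : insert ({u, v} : Finset α) (E.erase {u, v}) = insert {u, v} E := by
    ext e
    simp only [mem_insert, mem_erase]
    tauto
  have hs' : Sep (E.erase {u, v}) u v K M := hs.anti (erase_subset _ _)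
  have hm1 : MCon (insert ({u, v} : Finset α) (E.erase {u, v})) (insert u (insert v K)) := by
    rw [hins]
    exact hs.mcon hE hn hMC
  have hm2 : MCon (insert ({u, v} : Finset α) (E.erase {u, v})) (insert u (insert v M)) := by
    rw [hins]
    exact hs.symm.mcon hE hn hMC
  have hX1 : ∀ A ∈ X, 2 ≤ A.card := fun A hA => (hX A hA).1
  have hsum := sum_count hs hX1 hthin
  have hcov1' : ∀ e ∈ E.erase {u, v}, e ⊆ insert u (insert v K) → e ∈ G₁ ∨ ∃ A ∈ X, e ⊆ A :=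
    fun e he h => hcov1 e (mem_of_mem_erase he) (ne_of_mem_erase he) h
  have hcov2' : ∀ e ∈ E.erase {u, v}, e ⊆ insert u (insert v M) → e ∈ G₂ ∨ ∃ A ∈ X, e ⊆ A :=
    fun e he h => hcov2 e (mem_of_mem_erase he) (ne_of_mem_erase he) h
  have hboth : ∀ A ∈ X, ∀ A₀ ∈ X, insert u (insert v M) ⊆ A → insert u (insert v K) ⊆ A₀ →
      False := by
    intro A hA A₀ hA₀ hM hK
    have hAA : A = A₀ := by
      by_contra hne'
      have h1 := hthin A hA A₀ hA₀ hne'
      have h2 : ({u, v} : Finset α) ⊆ A ∩ A₀ := by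
        refine pair_subset.2 ⟨mem_inter.2 ⟨hM (by simp), hK (by simp)⟩,
          mem_inter.2 ⟨hM (by simp), hK (by simp)⟩⟩
      have h3 := card_le_card h2
      rw [card_pair hne] at h3
      omega
    subst hAA
    apply (hX A hA).2
    rw [eq_univ_iff_forall]
    intro t
    rcases hs.top t with h | h | h | h
    · exact hK (by simp [h])
    · exact hM (by simp [h])
    · exact hK (by simp [h])
    · exact hK (by simp [h])
  by_cases hf1 : ∃ A ∈ X, insert u (insert v K) ⊆ A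
  · obtain ⟨A₀, hA₀, hWA⟩ := hf1
    have hN : ∃ A ∈ X, u ∈ A ∧ v ∈ A := ⟨A₀, hA₀, hWA (by simp), hWA (by simp)⟩
    have h1 := side_full hA₀ hWA (by omega)
    have h2 := side_count hs'.symm hm2 hX1 hG₂ hcov2' (fun A hA h => hboth A hA A₀ hA₀ h hWA)
    rw [if_pos hN] at hsum h2
    rw [hc1] at h1
    rw [hc2] at h2
    push_cast at h1 h2
    refine Or.inr (Or.inr (Or.inl ⟨A₀, hA₀, hWA, ?_⟩))
    linarith
  · push Not at hf1
    by_cases hf2 : ∃ A ∈ X, insert u (insert v M) ⊆ A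
    · obtain ⟨A₀, hA₀, hWA⟩ := hf2
      have hN : ∃ A ∈ X, u ∈ A ∧ v ∈ A := ⟨A₀, hA₀, hWA (by simp), hWA (by simp)⟩
      have h1 := side_full hA₀ hWA (by omega)
      have h2 := side_count hs' hm1 hX1 hG₁ hcov1' hf1
      rw [if_pos hN] at hsum h2
      rw [hc2] at h1
      rw [hc1] at h2
      push_cast at h1 h2
      refine Or.inr (Or.inr (Or.inr ⟨A₀, hA₀, hWA, ?_⟩))
      linarith
    · push Not at hf2
      have h1 := side_count hs' hm1 hX1 hG₁ hcov1' hf1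
      have h2 := side_count hs'.symm hm2 hX1 hG₂ hcov2' hf2
      rw [hc1] at h1
      rw [hc2] at h2
      push_cast at h1 h2
      by_cases hN : ∃ A ∈ X, u ∈ A ∧ v ∈ A
      · rw [if_pos hN] at hsum h1 h2
        refine Or.inl ⟨hN, ?_⟩
        linarith
      · rw [if_neg hN] at hsum h1 h2
        refine Or.inr (Or.inl ⟨hN, ?_⟩)
        linarith

private theorem b3_one {u v : α} {K M : Finset α} {X : Finset (Finset α)} {B : Finset α}
    (hB : B ∈ X) {x z : α} (hx : x ∈ K) (hz : z ∈ M) (hxB : x ∈ B) (hzB : z ∈ B)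
    (h : ¬ (u ∈ B ∧ v ∈ B)) : 1 ≤ ((X.filter (Cross u v K M)).card : ℤ) := by
  have h1 : B ∈ X.filter (Cross u v K M) := mem_filter.2
    ⟨hB, ⟨x, mem_inter.2 ⟨hxB, hx⟩⟩, ⟨z, mem_inter.2 ⟨hzB, hz⟩⟩, h⟩
  have h2 := card_pos.2 ⟨B, h1⟩
  exact_mod_cast h2

private theorem b3_two {u v : α} {K M : Finset α} {X : Finset (Finset α)} {B B' : Finset α}
    (hB : B ∈ X) (hB' : B' ∈ X) (hne : B ≠ B') {x z x' z' : α} (hx : x ∈ K) (hz : z ∈ M)
    (hxB : x ∈ B) (hzB : z ∈ B) (h : ¬ (u ∈ B ∧ v ∈ B)) (hx' : x' ∈ K) (hz' : z' ∈ M)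
    (hxB' : x' ∈ B') (hzB' : z' ∈ B') (h' : ¬ (u ∈ B' ∧ v ∈ B')) :
    2 ≤ ((X.filter (Cross u v K M)).card : ℤ) := by
  have h1 : B ∈ X.filter (Cross u v K M) := mem_filter.2
    ⟨hB, ⟨x, mem_inter.2 ⟨hxB, hx⟩⟩, ⟨z, mem_inter.2 ⟨hzB, hz⟩⟩, h⟩
  have h1' : B' ∈ X.filter (Cross u v K M) := mem_filter.2
    ⟨hB', ⟨x', mem_inter.2 ⟨hxB', hx'⟩⟩, ⟨z', mem_inter.2 ⟨hzB', hz'⟩⟩, h'⟩
  have h2 : ({B, B'} : Finset (Finset α)) ⊆ X.filter (Cross u v K M) := by
    intro C hC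
    rcases mem_insert.1 hC with rfl | hC
    · exact h1
    · rw [mem_singleton.1 hC]
      exact h1'
  have h3 := card_le_card h2
  rw [card_pair hne] at h3
  exact_mod_cast h3

private theorem b3_thin {X : Finset (Finset α)}
    (hthin : ∀ A ∈ X, ∀ B ∈ X, A ≠ B → (A ∩ B).card ≤ 1) {A B : Finset α} (hA : A ∈ X)
    (hB : B ∈ X) (hne : A ≠ B) {a u : α} (ha : a ∈ A) (ha' : a ∈ B) (hu : u ∈ A) (hu' : u ∈ B) :
    a = u :=
  card_le_one.1 (hthin A hA B hB hne) a (mem_inter.2 ⟨ha, ha'⟩) u (mem_inter.2 ⟨hu, hu'⟩)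

private theorem b3_isG_empty : IsG (∅ : Finset (Finset α)) := fun e he => absurd he (notMem_empty e)

private theorem b3_isG_single {x y : α} (h : x ≠ y) : IsG ({{x, y}} : Finset (Finset α)) := by
  intro e he
  rw [mem_singleton.1 he]
  exact card_pair h

theorem swapuv_MC {E : Finset (Finset α)} (hE : IsG E) (hn : 4 ≤ Fintype.card α)
    (hMC : MC E) {u v : α} {K M : Finset α} (hs : Sep E u v K M) : MC (E.erase {u, v}) := by
  by_contra hc
  obtain ⟨X, ⟨hX, hcov, hbad⟩, _, hthin⟩ := exists_bad hc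
  have hcore := b3_core hE hn hMC hs hX hthin b3_isG_empty b3_isG_empty
    (fun e he hne _ => Or.inr (hcov e (mem_erase.2 ⟨hne, he⟩)))
    (fun e he hne _ => Or.inr (hcov e (mem_erase.2 ⟨hne, he⟩))) hbad
  have hβ : 0 ≤ ((X.filter (Cross u v K M)).card : ℤ) := Int.natCast_nonneg _
  simp only [card_empty] at hcore
  rcases hcore with ⟨_, h⟩ | ⟨_, h⟩ | ⟨_, _, _, h⟩ | ⟨_, _, _, h⟩
  all_goals
    push_cast at h
    linarith

theorem swap1_MC {E : Finset (Finset α)} (hE : IsG E) (hn : 4 ≤ Fintype.card α)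
    (hMC : MC E) {u v : α} {K M : Finset α} (hs : Sep E u v K M) {x z : α} (hx : x ∈ K)
    (hz : z ∈ M) : MC (insert {x, z} (E.erase {x, u})) := by
  by_contra hc
  obtain ⟨X, ⟨hX, hcov, hbad⟩, _, hthin⟩ := exists_bad hc
  have hβ : 0 ≤ ((X.filter (Cross u v K M)).card : ℤ) := Int.natCast_nonneg _
  have hxu : x ≠ u := fun h => hs.uK (h ▸ hx)
  have hzu : z ≠ u := fun h => hs.uM (h ▸ hz)
  have hxM : x ∉ M := fun h => disjoint_left.1 hs.disj hx h
  have hxv : x ≠ v := fun h => hs.vK (h ▸ hx)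
  have hxW : x ∉ insert u (insert v M) := by
    simp only [mem_insert, not_or]
    exact ⟨hxu, hxv, hxM⟩
  obtain ⟨B, hB, hxzB⟩ := hcov {x, z} (mem_insert_self _ _)
  obtain ⟨hxB, hzB⟩ := pair_subset.1 hxzB
  have hrest : ∀ e ∈ E, e ≠ {x, u} → ∃ A ∈ X, e ⊆ A := fun e he hne =>
    hcov e (mem_insert_of_mem (mem_erase.2 ⟨hne, he⟩))
  by_cases hf : ∃ A ∈ X, ({x, u} : Finset α) ⊆ A
  · have hall : ∀ e ∈ E, ∃ A ∈ X, e ⊆ A := by
      intro e he
      by_cases h : e = {x, u}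
      · rw [h]
        exact hf
      · exact hrest e he h
    have hcore := b3_core hE hn hMC hs hX hthin b3_isG_empty b3_isG_empty
      (fun e he _ _ => Or.inr (hall e he)) (fun e he _ _ => Or.inr (hall e he)) hbad
    simp only [card_empty] at hcore
    rcases hcore with ⟨_, h⟩ | ⟨_, h⟩ | ⟨_, _, _, h⟩ | ⟨_, _, _, h⟩
    all_goals
      push_cast at h
      linarith
  · have hcore := b3_core hE hn hMC hs hX hthin (b3_isG_single hxu) b3_isG_empty
      (fun e he _ _ => by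
        by_cases h : e = {x, u}
        · exact Or.inl (by rw [h]; exact mem_singleton_self _)
        · exact Or.inr (hrest e he h))
      (fun e he _ hW => by
        by_cases h : e = {x, u}
        · exact absurd (hW (by rw [h]; simp)) hxW
        · exact Or.inr (hrest e he h)) hbad
    simp only [card_empty, card_singleton] at hcore
    push_cast at hcore
    rcases hcore with ⟨_, h⟩ | ⟨hN, h⟩ | ⟨A₀, hA₀, hW, _⟩ | ⟨A₀, hA₀, hW, h⟩
    · linarith
    · have h1 := b3_one (u := u) (v := v) hB hx hz hxB hzB (fun h' => hN ⟨B, hB, h'⟩)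
      linarith
    · exact hf ⟨A₀, hA₀, pair_subset.2 ⟨hW (by simp [hx]), hW (by simp)⟩⟩
    · have hne : B ≠ A₀ := by
        rintro rfl
        exact hf ⟨B, hB, pair_subset.2 ⟨hxB, hW (by simp)⟩⟩
      have h1 := b3_one (u := u) (v := v) hB hx hz hxB hzB (fun h' =>
        hzu (b3_thin hthin hB hA₀ hne hzB (hW (by simp [hz])) h'.1 (hW (by simp))))
      linarith

theorem double_MC {E : Finset (Finset α)} (hE : IsG E) (hn : 4 ≤ Fintype.card α)
    (hMC : MC E) {u v : α} {K M : Finset α} (hs : Sep E u v K M) {x1 y1 x2 y2 : α}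
    (hx1 : x1 ∈ K) (hy1 : y1 ∈ K) (h1 : x1 ≠ y1) (hx2 : x2 ∈ M) (hy2 : y2 ∈ M)
    (h2 : x2 ≠ y2) : MC (dbl E x1 y1 x2 y2) := by
  by_contra hc
  obtain ⟨X, ⟨hX, hcov, hbad⟩, _, hthin⟩ := exists_bad hc
  have hβ : 0 ≤ ((X.filter (Cross u v K M)).card : ℤ) := Int.natCast_nonneg _
  have hKM : ∀ t ∈ K, t ∉ insert u (insert v M) := by
    intro t ht h
    simp only [mem_insert] at h
    rcases h with rfl | rfl | h
    · exact hs.uK ht
    · exact hs.vK ht
    · exact disjoint_left.1 hs.disj ht h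
  have hMK : ∀ t ∈ M, t ∉ insert u (insert v K) := by
    intro t ht h
    simp only [mem_insert] at h
    rcases h with rfl | rfl | h
    · exact hs.uM ht
    · exact hs.vM ht
    · exact disjoint_left.1 hs.disj h ht
  have huK : ∀ t ∈ K, t ≠ u := fun t ht h => hs.uK (h ▸ ht)
  have huM : ∀ t ∈ M, t ≠ u := fun t ht h => hs.uM (h ▸ ht)
  unfold dbl at hcov
  obtain ⟨B, hB, hBB⟩ := hcov {x1, x2} (mem_insert_self _ _)
  obtain ⟨hx1B, hx2B⟩ := pair_subset.1 hBB
  obtain ⟨B', hB', hBB'⟩ := hcov {y1, y2} (mem_insert_of_mem (mem_insert_self _ _))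
  obtain ⟨hy1B, hy2B⟩ := pair_subset.1 hBB'
  have hrest : ∀ e ∈ E, e ≠ {x1, y1} → e ≠ {x2, y2} → ∃ A ∈ X, e ⊆ A := fun e he hn1 hn2 =>
    hcov e (mem_insert_of_mem (mem_insert_of_mem (mem_erase.2 ⟨hn2, mem_erase.2 ⟨hn1, he⟩⟩)))
  by_cases hf1 : ∃ A ∈ X, ({x1, y1} : Finset α) ⊆ A
  · by_cases hf2 : ∃ A ∈ X, ({x2, y2} : Finset α) ⊆ A
    · have hall : ∀ e ∈ E, ∃ A ∈ X, e ⊆ A := by
        intro e he
        by_cases h : e = {x1, y1}
        · rw [h]
          exact hf1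
        · by_cases h' : e = {x2, y2}
          · rw [h']
            exact hf2
          · exact hrest e he h h'
      have hcore := b3_core hE hn hMC hs hX hthin b3_isG_empty b3_isG_empty
        (fun e he _ _ => Or.inr (hall e he)) (fun e he _ _ => Or.inr (hall e he)) hbad
      simp only [card_empty] at hcore
      rcases hcore with ⟨_, h⟩ | ⟨_, h⟩ | ⟨_, _, _, h⟩ | ⟨_, _, _, h⟩
      all_goals
        push_cast at h
        linarith
    · have hcov' : ∀ e ∈ E, e ≠ {x2, y2} → ∃ A ∈ X, e ⊆ A := by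
        intro e he hne
        by_cases h : e = {x1, y1}
        · rw [h]
          exact hf1
        · exact hrest e he h hne
      have hcore := b3_core hE hn hMC hs hX hthin b3_isG_empty (b3_isG_single h2)
        (fun e he _ hW => by
          by_cases h : e = {x2, y2}
          · exact absurd (hW (by rw [h]; simp)) (hMK x2 hx2)
          · exact Or.inr (hcov' e he h))
        (fun e he _ _ => by
          by_cases h : e = {x2, y2}
          · exact Or.inl (by rw [h]; exact mem_singleton_self _)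
          · exact Or.inr (hcov' e he h)) hbad
      simp only [card_empty, card_singleton] at hcore
      push_cast at hcore
      rcases hcore with ⟨_, h⟩ | ⟨hN, h⟩ | ⟨A₀, hA₀, hW, h⟩ | ⟨A₀, hA₀, hW, _⟩
      · linarith
      · have h1 := b3_one (u := u) (v := v) hB hx1 hx2 hx1B hx2B (fun h' => hN ⟨B, hB, h'⟩)
        linarith
      · by_cases hne : B = A₀
        · have hne' : B' ≠ A₀ := by
            intro h'
            exact hf2 ⟨A₀, hA₀, pair_subset.2 ⟨hne ▸ hx2B, h' ▸ hy2B⟩⟩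
          have h1 := b3_one (u := u) (v := v) hB' hy1 hy2 hy1B hy2B (fun h' =>
            huK y1 hy1 (b3_thin hthin hB' hA₀ hne' hy1B (hW (by simp [hy1])) h'.1
              (hW (by simp))))
          linarith
        · have h1 := b3_one (u := u) (v := v) hB hx1 hx2 hx1B hx2B (fun h' =>
            huK x1 hx1 (b3_thin hthin hB hA₀ hne hx1B (hW (by simp [hx1])) h'.1
              (hW (by simp))))
          linarith
      · exact hf2 ⟨A₀, hA₀, pair_subset.2 ⟨hW (by simp [hx2]), hW (by simp [hy2])⟩⟩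
  · by_cases hf2 : ∃ A ∈ X, ({x2, y2} : Finset α) ⊆ A
    · have hcov' : ∀ e ∈ E, e ≠ {x1, y1} → ∃ A ∈ X, e ⊆ A := by
        intro e he hne
        by_cases h : e = {x2, y2}
        · rw [h]
          exact hf2
        · exact hrest e he hne h
      have hcore := b3_core hE hn hMC hs hX hthin (b3_isG_single h1) b3_isG_empty
        (fun e he _ _ => by
          by_cases h : e = {x1, y1}
          · exact Or.inl (by rw [h]; exact mem_singleton_self _)
          · exact Or.inr (hcov' e he h))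
        (fun e he _ hW => by
          by_cases h : e = {x1, y1}
          · exact absurd (hW (by rw [h]; simp)) (hKM x1 hx1)
          · exact Or.inr (hcov' e he h)) hbad
      simp only [card_empty, card_singleton] at hcore
      push_cast at hcore
      rcases hcore with ⟨_, h⟩ | ⟨hN, h⟩ | ⟨A₀, hA₀, hW, _⟩ | ⟨A₀, hA₀, hW, h⟩
      · linarith
      · have h1 := b3_one (u := u) (v := v) hB hx1 hx2 hx1B hx2B (fun h' => hN ⟨B, hB, h'⟩)
        linarith
      · exact hf1 ⟨A₀, hA₀, pair_subset.2 ⟨hW (by simp [hx1]), hW (by simp [hy1])⟩⟩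
      · by_cases hne : B = A₀
        · have hne' : B' ≠ A₀ := by
            intro h'
            exact hf1 ⟨A₀, hA₀, pair_subset.2 ⟨hne ▸ hx1B, h' ▸ hy1B⟩⟩
          have h1 := b3_one (u := u) (v := v) hB' hy1 hy2 hy1B hy2B (fun h' =>
            huM y2 hy2 (b3_thin hthin hB' hA₀ hne' hy2B (hW (by simp [hy2])) h'.1
              (hW (by simp))))
          linarith
        · have h1 := b3_one (u := u) (v := v) hB hx1 hx2 hx1B hx2B (fun h' =>
            huM x2 hx2 (b3_thin hthin hB hA₀ hne hx2B (hW (by simp [hx2])) h'.1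
              (hW (by simp))))
          linarith
    · have hcore := b3_core hE hn hMC hs hX hthin (b3_isG_single h1) (b3_isG_single h2)
        (fun e he _ hW => by
          by_cases h : e = {x1, y1}
          · exact Or.inl (by rw [h]; exact mem_singleton_self _)
          · by_cases h' : e = {x2, y2}
            · exact absurd (hW (by rw [h']; simp)) (hMK x2 hx2)
            · exact Or.inr (hrest e he h h'))
        (fun e he _ hW => by
          by_cases h' : e = {x2, y2}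
          · exact Or.inl (by rw [h']; exact mem_singleton_self _)
          · by_cases h : e = {x1, y1}
            · exact absurd (hW (by rw [h]; simp)) (hKM x1 hx1)
            · exact Or.inr (hrest e he h h')) hbad
      simp only [card_singleton] at hcore
      push_cast at hcore
      have hne : B ≠ B' := by
        rintro rfl
        exact hf1 ⟨B, hB, pair_subset.2 ⟨hx1B, hy1B⟩⟩
      rcases hcore with ⟨_, h⟩ | ⟨hN, h⟩ | ⟨A₀, hA₀, hW, _⟩ | ⟨A₀, hA₀, hW, _⟩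
      · by_cases huv : u ∈ B ∧ v ∈ B
        · have h1 := b3_one (u := u) (v := v) hB' hy1 hy2 hy1B hy2B (fun h' =>
            hs.ne (b3_thin hthin hB hB' hne huv.1 h'.1 huv.2 h'.2))
          linarith
        · have h1 := b3_one (u := u) (v := v) hB hx1 hx2 hx1B hx2B huv
          linarith
      · have h1 := b3_two (u := u) (v := v) hB hB' hne hx1 hx2 hx1B hx2B
          (fun h' => hN ⟨B, hB, h'⟩) hy1 hy2 hy1B hy2B (fun h' => hN ⟨B', hB', h'⟩)
        linarith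
      · exact hf1 ⟨A₀, hA₀, pair_subset.2 ⟨hW (by simp [hx1]), hW (by simp [hy1])⟩⟩
      · exact hf2 ⟨A₀, hA₀, pair_subset.2 ⟨hW (by simp [hx2]), hW (by simp [hy2])⟩⟩

end Pool.Agent.GRA
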