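import Pool.Agent.GRA.B3

/-!
# GRA/B4: the single exchanges preserve reachability

Notation `W₁ = insert u (insert v K)`, `W₂ = insert u (insert v M)`.

PROOF of `four_cover`. Let `E₀ ⊆ E`, `CR E₀`, `Sep E₀ u v K M`, `L` closed for `(E₀, S)`, `|S| ≤ 2`, `u, v ∉ S`. The
four sets `A₁ = W₁ ∩ (L ∪ S)`, `A₂ = W₁ ∩ (univ \ L)`, `A₃ = W₂ ∩ (L ∪ S)`, `A₄ = W₂ ∩ (univ \ L)` cover `E₀`
(`Sep.edge`, `Closed.edge`). Their sizes add up to `n + 2 + |S| ≤ n + 4` (a vertex `y` is counted
`(1 + [y ∈ {u,v}]) (1 + [y ∈ S])` times, nobody is in both `{u,v}` and `S`). If all four had at least two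
elements, the cover would have weight `≤ 2(n+4) - 12 = 2n - 4`. So one of them has at most one element.

PROOF of `swapuv_reach`. Let `E₀ = E.erase {u,v}` (`CR`, `Conn E₀ 1` by `MC.cr_erase`, `CR.conn1`). By
`reach_of_edges` (and `Reach.symm`) it is enough: if `u, v ∉ S` then `Reach E₀ S u v`. Suppose `L` closed,
`u ∈ L`, `v ∉ L`. By `four_cover` one of the sets is a singleton. `A₁ = {u}`: `K` is disjoint from `L ∪ S`;
then `Closed E₀ {v} K` (`{a,u} ∈ E₀` with `a ∈ K`, `a ∉ S` would give `a ∈ L`), and for `k ∈ K`,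
`Reach E₀ {v} k u` (`Conn E₀ 1`) gives `u ∈ K`, contradiction. `A₂ = {v}`: `K ⊆ L`; `Closed E₀ {u} K` (`{a,v} ∈ E₀`,
`a ∈ K ⊆ L`, `v ∉ S` would give `v ∈ L`), same contradiction with `Reach E₀ {u} k v`. `A₃`, `A₄`: the same
with `M`.

PROOF of `swap1_reach`. `E₀ = E.erase {x,u}`, `E' = insert {x,z} E₀`. It is enough: if `x, u ∉ S` then
`Reach E' S x u`. Suppose `L` closed for `(E', S)`, `x ∈ L`, `u ∉ L`; then `L` is closed for `(E₀, S)` and
`z ∈ L` or `z ∈ S`.
 * `v ∈ L`: `four_cover`; `A₁ ∋ x, v`; `A₃ ∋ v, z`. So `A₂ = {u}` or `A₄ = {u}`. `A₂ = {u}`: `K ⊆ L`,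
   `Closed E₀ {v} K` (`u ∉ L`), contradiction to `Reach E₀ {v} x u`. `A₄ = {u}`: `M ⊆ L`, same with `z`.
 * `v ∈ S`: `|S \ {v}| ≤ 1`. If `M ∩ S = ∅`: `z ∈ L`, `Closed E₀ {v} (L ∩ M)` (an edge from `a ∈ L ∩ M` goes to
   `b ∈ M ∪ {u,v}`; if `b ≠ v` then `b ∉ S`, so `b ∈ L`, so `b ≠ u`), contradicting `Reach E₀ {v} z u`.
   Otherwise `K ∩ S = ∅` and `Closed E₀ {v} (L ∩ K)`, contradicting `Reach E₀ {v} x u`.
 * `v ∉ L`, `v ∉ S`: `Closed E₀ (S ∩ K) (L ∩ K)` (`b ∈ K ∪ {u,v}`, `b ∉ S`, so `b ∈ L`, `b ≠ u, v`). If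
   `|S ∩ K| ≤ 1` this contradicts `Reach E₀ (S ∩ K) x u`. So `S ⊆ K`, `z ∈ L`, and `Closed E₀ ∅ (L ∩ M)`,
   contradicting `Reach E₀ ∅ z u`.

PROOF of `not_reach_cross`: `K` is closed for `(E, {u,v})` (`Sep.closedK`) and `z ∉ K`.
-/

namespace Pool.Agent.GRA

open Finset

variable {α : Type*} [Fintype α] [DecidableEq α]

private theorem b4_sum_insert {X : Finset (Finset α)} {B : Finset α} (hB : 2 ≤ B.card) :
    ∑ A ∈ insert B X, w A ≤ w B + ∑ A ∈ X, w A := by
  by_cases h : B ∈ X
  · rw [insert_eq_of_mem h]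
    have := w_pos hB
    linarith
  · rw [sum_insert h]

private theorem b4_split (W S L : Finset α) (hd : Disjoint L S) :
    (W ∩ (L ∪ S)).card + (W ∩ (univ \ L)).card = W.card + (W ∩ S).card := by
  have h1 := card_union_add_card_inter (W ∩ (L ∪ S)) (W ∩ (univ \ L))
  have h2 : (W ∩ (L ∪ S)) ∪ (W ∩ (univ \ L)) = W := by
    ext t
    simp only [mem_union, mem_inter, mem_sdiff, mem_univ, true_and]
    tauto
  have h3 : (W ∩ (L ∪ S)) ∩ (W ∩ (univ \ L)) = W ∩ S := by
    ext t
    have : t ∈ L → t ∉ S := fun h => disjoint_left.1 hd h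
    simp only [mem_union, mem_inter, mem_sdiff, mem_univ, true_and]
    tauto
  rw [h2, h3] at h1
  exact h1.symm

theorem four_cover {E₀ : Finset (Finset α)} (hE : IsG E₀) (hCR : CR E₀) {u v : α}
    {K M : Finset α} (hs : Sep E₀ u v K M) {S L : Finset α} (hS : S.card ≤ 2) (hu : u ∉ S)
    (hv : v ∉ S) (hL : Closed E₀ S L) :
    (insert u (insert v K) ∩ (L ∪ S)).card ≤ 1 ∨
    (insert u (insert v K) ∩ (univ \ L)).card ≤ 1 ∨
    (insert u (insert v M) ∩ (L ∪ S)).card ≤ 1 ∨
    (insert u (insert v M) ∩ (univ \ L)).card ≤ 1 := by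
  by_contra hcon
  push Not at hcon
  obtain ⟨h1, h2, h3, h4⟩ := hcon
  have hd := hL.1
  have c := hCR {insert u (insert v K) ∩ (L ∪ S), insert u (insert v K) ∩ (univ \ L),
    insert u (insert v M) ∩ (L ∪ S), insert u (insert v M) ∩ (univ \ L)}
    (by
      intro A hA
      simp only [mem_insert, mem_singleton] at hA
      rcases hA with rfl | rfl | rfl | rfl
      exacts [h1, h2, h3, h4])
    (by
      intro e he
      rcases hs.edge e he with h | h <;> rcases hL.edge hE he with h' | h'
      · exact ⟨_, by simp, subset_inter h h'⟩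
      · exact ⟨_, by simp, subset_inter h h'⟩
      · exact ⟨_, by simp, subset_inter h h'⟩
      · exact ⟨_, by simp, subset_inter h h'⟩)
  have b1 := b4_sum_insert (X := {insert u (insert v K) ∩ (univ \ L),
    insert u (insert v M) ∩ (L ∪ S), insert u (insert v M) ∩ (univ \ L)}) h1
  have b2 := b4_sum_insert (X := {insert u (insert v M) ∩ (L ∪ S),
    insert u (insert v M) ∩ (univ \ L)}) h2
  have b3 := b4_sum_insert (X := {insert u (insert v M) ∩ (univ \ L)}) h3
  rw [sum_singleton] at b3
  have s1 := b4_split (insert u (insert v K)) S L hd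
  have s2 := b4_split (insert u (insert v M)) S L hd
  have k1 : (insert u (insert v K)).card = K.card + 2 := by
    rw [card_insert_of_notMem, card_insert_of_notMem hs.vK]
    simp [hs.ne, hs.uK]
  have k2 : (insert u (insert v M)).card = M.card + 2 := by
    rw [card_insert_of_notMem, card_insert_of_notMem hs.vM]
    simp [hs.ne, hs.uM]
  have k3 := hs.card
  have k4 : (insert u (insert v K) ∩ S).card + (insert u (insert v M) ∩ S).card ≤ S.card := by
    rw [← card_union_of_disjoint]
    · exact card_le_card (union_subset inter_subset_right inter_subset_right)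
    · rw [disjoint_left]
      intro t ht ht'
      have e0 : t ∈ K → t ∉ M := fun h => disjoint_left.1 hs.disj h
      simp only [mem_inter, mem_insert] at ht ht'
      rcases ht.1 with rfl | rfl | h
      · exact hu ht.2
      · exact hv ht.2
      · rcases ht'.1 with rfl | rfl | h'
        · exact hu ht.2
        · exact hv ht.2
        · exact e0 h h'
  unfold w at c b1 b2 b3
  have z1 : (((insert u (insert v K) ∩ (L ∪ S)).card : ℤ) + (insert u (insert v K) ∩ (univ \ L)).card) +
      (((insert u (insert v M) ∩ (L ∪ S)).card : ℤ) + (insert u (insert v M) ∩ (univ \ L)).card) ≤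
      Fintype.card α + 4 := by
    have : (insert u (insert v K) ∩ (L ∪ S)).card + (insert u (insert v K) ∩ (univ \ L)).card +
      ((insert u (insert v M) ∩ (L ∪ S)).card + (insert u (insert v M) ∩ (univ \ L)).card) ≤
      Fintype.card α + 4 := by omega
    exact_mod_cast this
  linarith

/-- the case where the part of `W₁` outside of `L` is small -/
private theorem b4_side2 {E₀ : Finset (Finset α)} (hc : Conn E₀ 1) {u v : α} {K M : Finset α}
    (hs : Sep E₀ u v K M) {S L : Finset α} (hL : Closed E₀ S L) (hvL : v ∉ L) (hv : v ∉ S)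
    (h : (insert u (insert v K) ∩ (univ \ L)).card ≤ 1) : False := by
  have hsub : ∀ a ∈ K, a ∈ L := by
    intro a ha
    by_contra hcon
    have := card_le_one.1 h a (by simp [ha, hcon]) v (by simp [hvL])
    exact hs.vK (this ▸ ha)
  have hcl : Closed E₀ {u} K := by
    refine ⟨by rw [disjoint_singleton_right]; exact hs.uK, fun a ha y hy he => ?_⟩
    by_cases hyv : y = v
    · subst hyv
      exact absurd (hL.2 a (hsub a ha) _ hv he) hvL
    · refine hs.closedK.2 a ha y ?_ he
      simp only [mem_insert, mem_singleton] at hy ⊢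
      tauto
  obtain ⟨a, ha⟩ := hs.K0
  have hau : a ∉ ({u} : Finset α) := by
    rw [mem_singleton]
    rintro rfl
    exact hs.uK ha
  have hvu : v ∉ ({u} : Finset α) := by
    rw [mem_singleton]
    exact hs.ne.symm
  exact hs.vK (hc {u} (by simp) a v hau hvu K hcl ha)

/-- the case where the part of `W₁` inside of `L ∪ S` is small -/
private theorem b4_side1 {E₀ : Finset (Finset α)} (hc : Conn E₀ 1) {u v : α} {K M : Finset α}
    (hs : Sep E₀ u v K M) {S L : Finset α} (hL : Closed E₀ S L) (huL : u ∈ L)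
    (h : (insert u (insert v K) ∩ (L ∪ S)).card ≤ 1) : False := by
  have hsub : ∀ a ∈ K, a ∉ L ∧ a ∉ S := by
    intro a ha
    by_contra hcon
    have := card_le_one.1 h a (by
      simp only [mem_inter, mem_insert, mem_union]
      tauto) u (by simp [huL])
    exact hs.uK (this ▸ ha)
  have hcl : Closed E₀ {v} K := by
    refine ⟨by rw [disjoint_singleton_right]; exact hs.vK, fun a ha y hy he => ?_⟩
    by_cases hyv : y = u
    · subst hyv
      rw [pair_comm] at he
      exact absurd (hL.2 _ huL a (hsub a ha).2 he) (hsub a ha).1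
    · refine hs.closedK.2 a ha y ?_ he
      simp only [mem_insert, mem_singleton] at hy ⊢
      tauto
  obtain ⟨a, ha⟩ := hs.K0
  have hau : a ∉ ({v} : Finset α) := by
    rw [mem_singleton]
    rintro rfl
    exact hs.vK ha
  have hvu : u ∉ ({v} : Finset α) := by
    rw [mem_singleton]
    exact hs.ne
  exact hs.uK (hc {v} (by simp) a u hau hvu K hcl ha)

private theorem b4_side3 {E₀ : Finset (Finset α)} (hc : Conn E₀ 1) {u v : α} {K M : Finset α}
    (hs : Sep E₀ u v K M) {S L : Finset α} (hL : Closed E₀ S L) (huL : u ∉ L) (hu : u ∉ S)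
    (hvL : v ∉ L) (h : (S ∩ insert v K).card ≤ 1) {k : α} (hk : k ∈ K) (hkL : k ∈ L) :
    False := by
  have hd : ∀ t, t ∈ L → t ∉ S := fun t h => disjoint_left.1 hL.1 h
  have hcl : Closed E₀ (S ∩ insert v K) (L ∩ K) := by
    refine ⟨?_, fun a ha b hb he => ?_⟩
    · rw [disjoint_left]
      intro t ht ht'
      exact hd t (mem_inter.1 ht).1 (mem_inter.1 ht').1
    · rw [mem_inter] at ha
      have hb0 : b ∈ K ∨ b = u ∨ b = v := by
        by_contra hcon
        push Not at hcon
        exact hcon.1 (hs.closedK.2 a ha.2 b (by simp [hcon.2.1, hcon.2.2]) he)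
      have hbS : b ∉ S := by
        intro hbS
        rcases hb0 with h | h | h
        · exact hb (mem_inter.2 ⟨hbS, mem_insert_of_mem h⟩)
        · exact hu (h ▸ hbS)
        · exact hb (mem_inter.2 ⟨hbS, by rw [h]; exact mem_insert_self _ _⟩)
      have hbL := hL.2 a ha.1 b hbS he
      rcases hb0 with h | h | h
      · exact mem_inter.2 ⟨hbL, h⟩
      · exact absurd (h ▸ hbL) huL
      · exact absurd (h ▸ hbL) hvL
  have h1 : k ∉ S ∩ insert v K := fun h => hd k hkL (mem_inter.1 h).1
  have h2 : u ∉ S ∩ insert v K := fun h => hu (mem_inter.1 h).1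
  exact huL (mem_inter.1 (hc _ h k u h1 h2 _ hcl (mem_inter.2 ⟨hkL, hk⟩))).1

private theorem b4_pair {a b x y : α} (h : ({a, b} : Finset α) = {x, y}) :
    (a = x ∧ b = y) ∨ (a = y ∧ b = x) := by
  have h1 : ∀ t, t = a ∨ t = b ↔ t = x ∨ t = y := fun t => by
    have := congrArg (fun s : Finset α => t ∈ s) h
    simpa using this
  have ha := (h1 a).1 (Or.inl rfl)
  have hb := (h1 b).1 (Or.inr rfl)
  have hx := (h1 x).2 (Or.inl rfl)
  have hy := (h1 y).2 (Or.inr rfl)
  rcases ha with ha | ha <;> rcases hb with hb | hb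
  · rcases hy with hy | hy
    · exact Or.inl ⟨ha, by rw [hb, ← ha, hy]⟩
    · exact Or.inl ⟨ha, hy.symm⟩
  · exact Or.inl ⟨ha, hb⟩
  · exact Or.inr ⟨ha, hb⟩
  · rcases hx with hx | hx
    · exact Or.inl ⟨hx.symm, hb⟩
    · exact Or.inr ⟨ha, hx.symm⟩

theorem swapuv_reach {E : Finset (Finset α)} (hE : IsG E) (hn : 4 ≤ Fintype.card α)
    (hMC : MC E) {u v : α} {K M : Finset α} (hs : Sep E u v K M) {S : Finset α}
    (hS : S.card ≤ 2) {a b : α} (h : Reach E S a b) : Reach (E.erase {u, v}) S a b := by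
  have hn3 : 3 ≤ Fintype.card α := by omega
  have hE0 : IsG (E.erase {u, v}) := fun e he => hE e (mem_of_mem_erase he)
  have hCR := hMC.cr_erase hn3 (f := {u, v}) (card_pair hs.ne)
  have hc := hCR.conn1 hE0 hn3
  have hs0 : Sep (E.erase {u, v}) u v K M := hs.anti (erase_subset _ _)
  have main : u ∉ S → v ∉ S → Reach (E.erase {u, v}) S u v := by
    intro hu hv L hL huL
    by_contra hvL
    rcases four_cover hE0 hCR hs0 hS hu hv hL with h | h | h | h
    · exact b4_side1 hc hs0 hL huL h
    · exact b4_side2 hc hs0 hL hvL hv h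
    · exact b4_side1 hc hs0.symm hL huL h
    · exact b4_side2 hc hs0.symm hL hvL hv h
  refine reach_of_edges (fun a' b' he ha' hb' => ?_) h
  by_cases hab : ({a', b'} : Finset α) = {u, v}
  · rcases b4_pair hab with ⟨rfl, rfl⟩ | ⟨rfl, rfl⟩
    · exact main ha' hb'
    · exact (main hb' ha').symm hb'
  · exact reach_edge (mem_erase.2 ⟨hab, he⟩) hb'

theorem swap1_reach {E : Finset (Finset α)} (hE : IsG E) (hn : 4 ≤ Fintype.card α)
    (hMC : MC E) {u v : α} {K M : Finset α} (hs : Sep E u v K M) {x z : α} (hx : x ∈ K)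
    (hz : z ∈ M) {S : Finset α} (hS : S.card ≤ 2) {a b : α} (h : Reach E S a b) :
    Reach (insert {x, z} (E.erase {x, u})) S a b := by
  have hn3 : 3 ≤ Fintype.card α := by omega
  have hxu : x ≠ u := by rintro rfl; exact hs.uK hx
  have hxv : x ≠ v := by rintro rfl; exact hs.vK hx
  have hzu : z ≠ u := by rintro rfl; exact hs.uM hz
  have hzv : z ≠ v := by rintro rfl; exact hs.vM hz
  have hE0 : IsG (E.erase {x, u}) := fun e he => hE e (mem_of_mem_erase he)
  have hCR := hMC.cr_erase hn3 (f := {x, u}) (card_pair hxu)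
  have hc := hCR.conn1 hE0 hn3
  have hs0 : Sep (E.erase {x, u}) u v K M := hs.anti (erase_subset _ _)
  have main : x ∉ S → u ∉ S → Reach (insert {x, z} (E.erase {x, u})) S x u := by
    intro hxS hu L hL' hxL
    by_contra huL
    have hL : Closed (E.erase {x, u}) S L := hL'.anti (subset_insert _ _)
    have hzLS : z ∈ L ∨ z ∈ S := by
      by_cases hzS : z ∈ S
      · exact Or.inr hzS
      · exact Or.inl (hL'.2 x hxL z hzS (mem_insert_self _ _))
    by_cases hvL : v ∈ L
    · have hv : v ∉ S := disjoint_left.1 hL.1 hvL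
      rcases four_cover hE0 hCR hs0 hS hu hv hL with h | h | h | h
      · exact hxv (card_le_one.1 h x (by simp [hx, hxL]) v (by simp [hvL]))
      · rw [insert_comm] at h
        exact b4_side2 hc hs0.flip hL huL hu h
      · exact hzv (card_le_one.1 h z (by
          simp only [mem_inter, mem_insert, mem_union]
          exact ⟨Or.inr (Or.inr hz), hzLS⟩) v (by simp [hvL]))
      · rw [insert_comm] at h
        exact b4_side2 hc hs0.symm.flip hL huL hu h
    · by_cases hk : (S ∩ insert v K).card ≤ 1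
      · exact b4_side3 hc hs0 hL huL hu hvL hk hx hxL
      · have hsub : S ⊆ insert v K := by
          have h1 : S ∩ insert v K = S :=
            eq_of_subset_of_card_le inter_subset_left (by omega)
          rw [← h1]
          exact inter_subset_right
        have hKM : ∀ t ∈ M, t ∉ K := fun t h h' => disjoint_left.1 hs.disj h' h
        have hzS : z ∉ S := by
          intro h
          rcases mem_insert.1 (hsub h) with h' | h'
          · exact hzv h'
          · exact hKM z hz h'
        have hzL : z ∈ L := hzLS.resolve_right hzS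
        have hm : (S ∩ insert v M).card ≤ 1 := by
          have h1 : S ∩ insert v M ⊆ {v} := by
            intro t ht
            rw [mem_singleton]
            rw [mem_inter, mem_insert] at ht
            rcases ht.2 with h' | h'
            · exact h'
            · rcases mem_insert.1 (hsub ht.1) with h2 | h2
              · exact h2
              · exact absurd h2 (hKM t h')
          exact (card_le_card h1).trans (by simp)
        exact b4_side3 hc hs0.symm hL huL hu hvL hm hz hzL
  refine reach_of_edges (fun a' b' he ha' hb' => ?_) h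
  by_cases hab : ({a', b'} : Finset α) = {x, u}
  · rcases b4_pair hab with ⟨rfl, rfl⟩ | ⟨rfl, rfl⟩
    · exact main ha' hb'
    · exact (main hb' ha').symm hb'
  · exact reach_edge (mem_insert_of_mem (mem_erase.2 ⟨hab, he⟩)) hb'

theorem not_reach_cross {E : Finset (Finset α)} {u v : α} {K M : Finset α}
    (hs : Sep E u v K M) {x z : α} (hx : x ∈ K) (hz : z ∈ M) : ¬ Reach E {u, v} x z := by
  intro h
  exact disjoint_left.1 hs.disj (h K hs.closedK hx) hz

end Pool.Agent.GRA
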