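import Pool.Agent.GRA.B3

/-!
# GRA/B5: one of the two double exchanges preserves reachability

`Inc E u v K a b`: there is `p ∈ K` and `P ∪ Q = W₁ := insert u (insert v K)`, `P ∩ Q = {p}`, `a, u ∈ P`,
`b, v ∈ Q`, every edge inside `W₁` other than `{a,b}`, `{u,v}` is inside `P` or `Q`.

PROOF of `inc_flip`: exchange `P`, `Q`.

PROOF of `inc_contra`. Let `p, P, Q` and `p', P', Q'` be given: `a, u ∈ P`, `b, v ∈ Q`, `b, u ∈ P'`, `a, v ∈ Q'`. The four sets
`A = P ∩ P' ∋ u`, `B = P ∩ Q' ∋ a`, `C = Q ∩ P' ∋ b`, `D = Q ∩ Q' ∋ v` together with `{a,b}` and `{u,v}` cover all the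
edges of `insert {u,v} E` inside `W₁`. A vertex `y ∈ W₁` is in `(1 + [y = p]) (1 + [y = p'])` of the four
sets, so `|A| + |B| + |C| + |D| = |W₁| + 2 + [p = p']`. Take those of the four sets with at least two
elements (weight `2|·| - 3`), and let `j` be the number of sets with exactly one element (none is empty).
All used sets are proper subsets of `W₁`: `v ∉ P` (`v ∈ Q`, `v ≠ p`), `u ∉ Q`, `v ∉ P'`, `u ∉ Q'`; `|W₁| ≥ 4`.
Total weight `≤ 2(|W₁| + 2 + [p = p']) - 12 + j + 2 = 2|W₁| - 6 + 2[p = p'] + j`. `MCon` gives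
`2|W₁| - 2 ≤` this. If `p ≠ p'`: `j ≥ 4`, so all sets have one element and `|W₁| + 2 = 4`, contradiction.
If `p = p'`: `j ≥ 2`; but `p` is in all four sets, `|A| ≥ 2` (`u ≠ p`), `|D| ≥ 2` (`v ≠ p`), and one of `a, b` is
not `p`, so one of `B, C` has two elements: `j ≤ 1`. Contradiction.

PROOF of `cut_inc`. `f₁ = {x1,y1}`, `f₂ = {x2,y2}`; `E₁ = E.erase f₁`, `E₂ = E.erase f₂` are `CR`, so `Conn _ 1`
(`MC.cr_erase`, `CR.conn1`). `L` is closed for `(dbl E x1 y1 x2 y2, S)`, `x1 ∈ L`, `y1 ∉ L`, `y1 ∉ S`, not both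
`u, v ∈ S`. Then `x2 ∈ L ∪ S` (edge `{x1,x2}`), `y2 ∉ L` (otherwise `y1 ∈ L`). Let `R = univ \ (S ∪ L)`, closed too
(`Closed.compl`), `y1 ∈ R`, `y2 ∈ R ∪ S`. FACTS: an edge of `E₁` with an end in `K` is in `dbl E ..` (it is not
`f₂ ⊆ M`) and its other end is in `K ∪ {u,v}`; the same for `E₂` and `M`.
(i) `u, v ∉ S`.
 (a) `u, v ∉ L`: `Closed E₁ (S ∩ K) (L ∩ K)` and `x1` in it, `u` not: by `Conn E₁ 1`, `|S ∩ K| ≥ 2`, so `S ⊆ K`,
     `x2 ∈ L`, and `Closed E₂ ∅ (L ∩ M)` contains `x2` but not `u`: contradiction to `Conn E₂ 1`.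
 (b) `u, v ∈ L`: the same with `R` instead of `L` and `y1, y2` instead of `x1, x2`.
 (c) `u ∈ L`, `v ∉ L`: `P = W₁ ∩ (L ∪ S) ∋ x1, u`, `Q = W₁ ∩ (univ \ L) ∋ y1, v`, `P ∩ Q = S ∩ K`. The cover
     `P, Q, {u,v}, f₁` of the edges inside `W₁` has weight `2(|W₁| + |S ∩ K|) - 6 + 2`, so (`Sep.mcon`)
     `|S ∩ K| ≥ 1`. In the same way `P' = W₂ ∩ (L ∪ S) ∋ u, x2`, `Q' = W₂ ∩ (univ \ L) ∋ v, y2`: `|S ∩ M| ≥ 1`.
     As `|S| ≤ 2` both are 1: `Inc E u v K x1 y1` and `Inc E u v M x2 y2`.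
 (d) `v ∈ L`, `u ∉ L`: the same with `u, v` exchanged: `Inc E v u K x1 y1`, `Inc E v u M x2 y2`, use `inc_flip`.
(ii) `v ∈ S`, `u ∉ S` (so `|S \ {v}| ≤ 1`). If `u ∈ L`: if `S ∩ K = ∅` then `Closed E₁ {v} (R ∩ K)` contains `y1`,
     not `u`; contradiction. So `S ∩ M = ∅`, `y2 ∈ R`, `Closed E₂ {v} (R ∩ M)` contains `y2`, not `u`. If `u ∉ L`:
     if `S ∩ K = ∅`, `Closed E₁ {v} (L ∩ K) ∋ x1`; otherwise `S ∩ M = ∅`, `x2 ∈ L`, `Closed E₂ {v} (L ∩ M) ∋ x2`.
(iii) `u ∈ S`, `v ∉ S`: the same with `u, v` exchanged (`Sep.flip`).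

PROOF of `double_reach`. By `reach_of_edges` and `Reach.symm` a failure of the first alternative gives `S`
and a closed `L` for `dbl E x1 y1 x2 y2` separating `x1` from `y1` or `x2` from `y2`; note
`dbl E x1 y1 x2 y2 = dbl E x2 y2 x1 y1` so in both cases `cut_inc` (with `hs` or `hs.symm`) gives
`(Inc E u v K x1 y1 ∧ Inc E u v M x2 y2) ∨ (Inc E u v K y1 x1 ∧ Inc E u v M y2 x2)`. A failure of the second
alternative gives the same with `x2, y2` exchanged. In all four combinations `inc_contra` applies to `K` or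
to `M`.
-/

namespace Pool.Agent.GRA

open Finset

variable {α : Type*} [Fintype α] [DecidableEq α]

def Inc (E : Finset (Finset α)) (u v : α) (K : Finset α) (a b : α) : Prop :=
  ∃ p ∈ K, ∃ P Q : Finset α, P ∪ Q = insert u (insert v K) ∧ P ∩ Q = {p} ∧ a ∈ P ∧ u ∈ P ∧
    b ∈ Q ∧ v ∈ Q ∧ ∀ e ∈ E, e ⊆ insert u (insert v K) → e ≠ {a, b} → e ≠ {u, v} →
      e ⊆ P ∨ e ⊆ Q

theorem inc_flip {E : Finset (Finset α)} {u v : α} {K : Finset α} {a b : α}
    (h : Inc E v u K a b) : Inc E u v K b a := by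
  obtain ⟨p, hp, P, Q, hU, hI, ha, hv, hb, hu, he⟩ := h
  refine ⟨p, hp, Q, P, ?_, ?_, hb, hu, ha, hv, ?_⟩
  · rw [union_comm, hU, insert_comm]
  · rw [inter_comm, hI]
  · intro e heE hsub h1 h2
    rw [pair_comm] at h1
    rw [pair_comm] at h2
    rw [insert_comm] at hsub
    exact (he e heE hsub h1 h2).symm

private theorem sum_ins_le {f : Finset α → ℤ} (hf : ∀ x, 0 ≤ f x) (a : Finset α)
    (s : Finset (Finset α)) : ∑ x ∈ insert a s, f x ≤ f a + ∑ x ∈ s, f x := by
  by_cases h : a ∈ s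
  · rw [insert_eq_of_mem h]
    have := hf a
    linarith
  · rw [sum_insert h]

private theorem wp_cases {T : Finset α} (h : T.Nonempty) :
    (T.card = 1 ∧ wp T = 0) ∨ (2 ≤ T.card ∧ wp T = 2 * (T.card : ℤ) - 3) := by
  have h1 := h.card_pos
  by_cases h2 : 2 ≤ T.card
  · exact Or.inr ⟨h2, by rw [wp_of_two h2]; rfl⟩
  · exact Or.inl ⟨by omega, wp_of_lt (by omega)⟩

private theorem two_le_card_of {T : Finset α} {x y : α} (hx : x ∈ T) (hy : y ∈ T) (h : x ≠ y) :
    2 ≤ T.card := by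
  rw [← card_pair h]
  exact card_le_card (pair_subset.2 ⟨hx, hy⟩)

private theorem card_inter_sum {W P P' Q' : Finset α} {p' : α} (hPW : P ⊆ W) (hU' : P' ∪ Q' = W)
    (hI' : P' ∩ Q' = {p'}) :
    (P ∩ P').card + (P ∩ Q').card = P.card + (P ∩ {p'}).card := by
  have h := card_union_add_card_inter (P ∩ P') (P ∩ Q')
  rw [← inter_union_distrib_left, ← inter_inter_distrib_left, hU', hI',
    inter_eq_left.2 hPW] at h
  exact h.symm

theorem inc_contra {E : Finset (Finset α)} {u v : α} {K : Finset α} (huv : u ≠ v)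
    (huK : u ∉ K) (hvK : v ∉ K) (hc : MCon (insert {u, v} E) (insert u (insert v K)))
    {a b : α} (ha : a ∈ K) (hb : b ∈ K) (hab : a ≠ b) (h1 : Inc E u v K a b)
    (h2 : Inc E u v K b a) : False := by
  obtain ⟨p, hp, P, Q, hU, hI, haP, huP, hbQ, hvQ, hedge⟩ := h1
  obtain ⟨p', hp', P', Q', hU', hI', hbP', huP', haQ', hvQ', hedge'⟩ := h2
  generalize hW : insert u (insert v K) = W at hc hU hU' hedge hedge'
  have hua : u ≠ a := fun h => huK (h ▸ ha)
  have hub : u ≠ b := fun h => huK (h ▸ hb)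
  have hva : v ≠ a := fun h => hvK (h ▸ ha)
  have hvb : v ≠ b := fun h => hvK (h ▸ hb)
  have hup : u ≠ p := fun h => huK (h ▸ hp)
  have hvp : v ≠ p := fun h => hvK (h ▸ hp)
  have hvP : v ∉ P := by
    intro h
    have : v ∈ P ∩ Q := mem_inter.2 ⟨h, hvQ⟩
    rw [hI, mem_singleton] at this
    exact hvp this
  have huQ : u ∉ Q := by
    intro h
    have : u ∈ P ∩ Q := mem_inter.2 ⟨huP, h⟩
    rw [hI, mem_singleton] at this
    exact hup this
  have hPW : P ⊆ W := hU ▸ subset_union_left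
  have hQW : Q ⊆ W := hU ▸ subset_union_right
  have huW : u ∈ W := hPW huP
  have hvW : v ∈ W := hQW hvQ
  have haW : a ∈ W := hPW haP
  have hbW : b ∈ W := hQW hbQ
  have hW4 : 4 ≤ W.card := by
    have h3 : ({u, v, a, b} : Finset α).card = 4 := by
      rw [card_insert_of_notMem, card_insert_of_notMem, card_pair hab]
      · simp only [mem_insert, mem_singleton, not_or]
        exact ⟨hva, hvb⟩
      · simp only [mem_insert, mem_singleton, not_or]
        exact ⟨huv, hua, hub⟩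
    rw [← h3]
    refine card_le_card ?_
    intro z hz
    simp only [mem_insert, mem_singleton] at hz
    rcases hz with rfl | rfl | rfl | rfl <;> assumption
  have c1 := card_inter_sum hPW hU' hI'
  have c2 := card_inter_sum hQW hU' hI'
  have c3 : W.card + 1 = P.card + Q.card := by
    have h := card_union_add_card_inter P Q
    rwa [hU, hI, card_singleton] at h
  have hcP : (P ∩ {p'}).card ≤ 1 := by
    refine (card_le_card inter_subset_right).trans ?_
    rw [card_singleton]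
  have hcQ : (Q ∩ {p'}).card ≤ 1 := by
    refine (card_le_card inter_subset_right).trans ?_
    rw [card_singleton]
  have hne : p ≠ p' → (P ∩ {p'}).card + (Q ∩ {p'}).card ≤ 1 := by
    intro hpp
    by_cases hP : p' ∈ P
    · have hQ : p' ∉ Q := by
        intro hQ
        have : p' ∈ P ∩ Q := mem_inter.2 ⟨hP, hQ⟩
        rw [hI, mem_singleton] at this
        exact hpp this.symm
      have : Q ∩ {p'} = ∅ := by
        rw [inter_singleton_of_notMem hQ]
      rw [this, card_empty]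
      omega
    · have : P ∩ {p'} = ∅ := by
        rw [inter_singleton_of_notMem hP]
      rw [this, card_empty]
      omega
  have hAu : u ∈ P ∩ P' := mem_inter.2 ⟨huP, huP'⟩
  have hBa : a ∈ P ∩ Q' := mem_inter.2 ⟨haP, haQ'⟩
  have hCb : b ∈ Q ∩ P' := mem_inter.2 ⟨hbQ, hbP'⟩
  have hDv : v ∈ Q ∩ Q' := mem_inter.2 ⟨hvQ, hvQ'⟩
  have hPne : ∀ T, T ⊆ P → T ⊆ W ∧ T ≠ W := fun T hT => ⟨hT.trans hPW, fun h => by
    rw [← h] at hvW
    exact hvP (hT hvW)⟩
  have hQne : ∀ T, T ⊆ Q → T ⊆ W ∧ T ≠ W := fun T hT => ⟨hT.trans hQW, fun h => by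
    rw [← h] at huW
    exact huQ (hT huW)⟩
  have key := hc (insert {a, b} (insert {u, v} (filter (fun T => 2 ≤ T.card)
    {P ∩ P', P ∩ Q', Q ∩ P', Q ∩ Q'}))) ?_ ?_
  · have hs1 : ∑ T ∈ insert {a, b} (insert {u, v} (filter (fun T => 2 ≤ T.card)
        {P ∩ P', P ∩ Q', Q ∩ P', Q ∩ Q'})), w T ≤
        2 + (wp (P ∩ P') + (wp (P ∩ Q') + (wp (Q ∩ P') + wp (Q ∩ Q')))) := by
      have e1 : wp ({a, b} : Finset α) = 1 := by
        rw [wp_of_two (card_pair hab).ge, w_pair hab]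
      have e2 : wp ({u, v} : Finset α) = 1 := by
        rw [wp_of_two (card_pair huv).ge, w_pair huv]
      have e3 : ∑ T ∈ ({P ∩ P', P ∩ Q', Q ∩ P', Q ∩ Q'} : Finset (Finset α)), wp T ≤
          wp (P ∩ P') + (wp (P ∩ Q') + (wp (Q ∩ P') + wp (Q ∩ Q'))) := by
        refine (sum_ins_le wp_nonneg _ _).trans (add_le_add le_rfl ?_)
        refine (sum_ins_le wp_nonneg _ _).trans (add_le_add le_rfl ?_)
        refine (sum_ins_le wp_nonneg _ _).trans (add_le_add le_rfl ?_)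
        rw [sum_singleton]
      have e4 : ∑ T ∈ filter (fun T => 2 ≤ T.card)
          ({P ∩ P', P ∩ Q', Q ∩ P', Q ∩ Q'} : Finset (Finset α)), wp T ≤
          ∑ T ∈ ({P ∩ P', P ∩ Q', Q ∩ P', Q ∩ Q'} : Finset (Finset α)), wp T :=
        sum_le_sum_of_subset_of_nonneg (filter_subset _ _) (fun T _ _ => wp_nonneg T)
      refine (sum_le_sum (fun T _ => le_wp T)).trans ?_
      refine (sum_ins_le wp_nonneg _ _).trans ?_
      rw [e1]
      have e5 := sum_ins_le wp_nonneg ({u, v} : Finset α) (filter (fun T => 2 ≤ T.card)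
        ({P ∩ P', P ∩ Q', Q ∩ P', Q ∩ Q'} : Finset (Finset α)))
      rw [e2] at e5
      linarith
    have k1 := key.trans hs1
    have w1 := wp_cases ⟨u, hAu⟩
    have w2 := wp_cases ⟨a, hBa⟩
    have w3 := wp_cases ⟨b, hCb⟩
    have w4 := wp_cases ⟨v, hDv⟩
    by_cases hpp : p = p'
    · have hpI : p ∈ P ∩ Q := by rw [hI, mem_singleton]
      have hpI' : p ∈ P' ∩ Q' := by rw [hI', mem_singleton]; exact hpp
      rw [mem_inter] at hpI hpI'
      have d1 := two_le_card_of hAu (mem_inter.2 ⟨hpI.1, hpI'.1⟩) hup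
      have d4 := two_le_card_of hDv (mem_inter.2 ⟨hpI.2, hpI'.2⟩) hvp
      have d23 : 2 ≤ (P ∩ Q').card ∨ 2 ≤ (Q ∩ P').card := by
        by_cases hap : a = p
        · right
          exact two_le_card_of hCb (mem_inter.2 ⟨hpI.2, hpI'.1⟩) (fun h => hab (hap.trans h.symm))
        · left
          exact two_le_card_of hBa (mem_inter.2 ⟨hpI.1, hpI'.2⟩) hap
      rcases w1 with w1 | w1 <;> rcases w2 with w2 | w2 <;> rcases w3 with w3 | w3 <;>
        rcases w4 with w4 | w4 <;> omega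
    · have hn := hne hpp
      rcases w1 with w1 | w1 <;> rcases w2 with w2 | w2 <;> rcases w3 with w3 | w3 <;>
        rcases w4 with w4 | w4 <;> omega
  · intro T hT
    rw [mem_insert, mem_insert, mem_filter] at hT
    rcases hT with rfl | rfl | ⟨hT, h2⟩
    · refine ⟨(card_pair hab).ge, pair_subset.2 ⟨haW, hbW⟩, fun h => ?_⟩
      rw [← h, mem_insert, mem_singleton] at huW
      rcases huW with h | h
      · exact hua h
      · exact hub h
    · refine ⟨(card_pair huv).ge, pair_subset.2 ⟨huW, hvW⟩, fun h => ?_⟩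
      rw [← h, mem_insert, mem_singleton] at haW
      rcases haW with h | h
      · exact hua h.symm
      · exact hva h.symm
    · refine ⟨h2, ?_⟩
      simp only [mem_insert, mem_singleton] at hT
      rcases hT with rfl | rfl | rfl | rfl
      · exact hPne _ inter_subset_left
      · exact hPne _ inter_subset_left
      · exact hQne _ inter_subset_left
      · exact hQne _ inter_subset_left
  · intro e he heW
    by_cases e1 : e = {a, b}
    · exact ⟨{a, b}, mem_insert_self _ _, e1.subset⟩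
    by_cases e2 : e = {u, v}
    · exact ⟨{u, v}, mem_insert_of_mem (mem_insert_self _ _), e2.subset⟩
    have heE : e ∈ E := by
      rcases mem_insert.1 he with h | h
      · exact absurd h e2
      · exact h
    have big : ∀ (T : Finset α) (z : α), z ∈ T →
        T ∈ ({P ∩ P', P ∩ Q', Q ∩ P', Q ∩ Q'} : Finset (Finset α)) →
        (z ∈ ({a, b} : Finset α) ∨ z ∈ ({u, v} : Finset α)) → e ⊆ T →
        ∃ A ∈ insert {a, b} (insert {u, v} (filter (fun T => 2 ≤ T.card)
          {P ∩ P', P ∩ Q', Q ∩ P', Q ∩ Q'})), e ⊆ A := by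
      intro T z hz hT hz' heT
      by_cases h2 : 2 ≤ T.card
      · exact ⟨T, mem_insert_of_mem (mem_insert_of_mem (mem_filter.2 ⟨hT, h2⟩)), heT⟩
      · have hT1 : T = {z} := by
          rw [eq_singleton_iff_unique_mem]
          refine ⟨hz, fun y hy => ?_⟩
          exact card_le_one.1 (by omega) y hy z hz
        rcases hz' with h | h
        · refine ⟨{a, b}, mem_insert_self _ _, heT.trans ?_⟩
          rw [hT1]
          exact singleton_subset_iff.2 h
        · refine ⟨{u, v}, mem_insert_of_mem (mem_insert_self _ _), heT.trans ?_⟩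
          rw [hT1]
          exact singleton_subset_iff.2 h
    have e1' : e ≠ {b, a} := by
      rw [pair_comm]
      exact e1
    rcases hedge e heE heW e1 e2 with hP | hQ <;> rcases hedge' e heE heW e1' e2 with hP' | hQ'
    · exact big (P ∩ P') u hAu (by simp) (Or.inr (by simp)) (subset_inter hP hP')
    · exact big (P ∩ Q') a hBa (by simp) (Or.inl (by simp)) (subset_inter hP hQ')
    · exact big (Q ∩ P') b hCb (by simp) (Or.inl (by simp)) (subset_inter hQ hP')
    · exact big (Q ∩ Q') v hDv (by simp) (Or.inr (by simp)) (subset_inter hQ hQ')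

private theorem dbl_comm (E : Finset (Finset α)) (x1 y1 x2 y2 : α) :
    dbl E x2 y2 x1 y1 = dbl E x1 y1 x2 y2 := by
  unfold dbl
  rw [erase_right_comm, pair_comm x2 x1, pair_comm y2 y1]

private theorem dbl_swap (E : Finset (Finset α)) (x1 y1 x2 y2 : α) :
    dbl E y1 x1 y2 x2 = dbl E x1 y1 x2 y2 := by
  unfold dbl
  rw [insert_comm, pair_comm y1 x1, pair_comm y2 x2]

private theorem mem_dbl {E : Finset (Finset α)} {x1 y1 x2 y2 : α} {e : Finset α} (he : e ∈ E)
    (h1 : e ≠ {x1, y1}) (h2 : e ≠ {x2, y2}) : e ∈ dbl E x1 y1 x2 y2 :=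
  mem_insert_of_mem (mem_insert_of_mem (mem_erase.2 ⟨h2, mem_erase.2 ⟨h1, he⟩⟩))

private theorem isG_dbl {E : Finset (Finset α)} (hE : IsG E) {K M : Finset α} (hd : Disjoint K M)
    {x1 y1 x2 y2 : α} (hx1 : x1 ∈ K) (hy1 : y1 ∈ K) (hx2 : x2 ∈ M) (hy2 : y2 ∈ M) :
    IsG (dbl E x1 y1 x2 y2) := by
  intro e he
  unfold dbl at he
  rw [mem_insert, mem_insert, mem_erase, mem_erase] at he
  rcases he with rfl | rfl | ⟨-, -, he⟩
  · exact card_pair (fun h => disjoint_left.1 hd hx1 (h ▸ hx2))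
  · exact card_pair (fun h => disjoint_left.1 hd hy1 (h ▸ hy2))
  · exact hE e he

/-- the neighbours in `E₁` of an element of `L ∩ K` -/
private theorem cut_nbr {E : Finset (Finset α)} {u v : α} {K M : Finset α} (hs : Sep E u v K M)
    {x1 y1 x2 y2 : α} (hx2 : x2 ∈ M) (hy2 : y2 ∈ M) {S L : Finset α}
    (hL : Closed (dbl E x1 y1 x2 y2) S L) {z y : α} (hzL : z ∈ L) (hzK : z ∈ K)
    (he : ({z, y} : Finset α) ∈ E.erase {x1, y1}) : (y ∈ S ∨ y ∈ L) ∧ (y ∈ K ∨ y = u ∨ y = v) := by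
  rw [mem_erase] at he
  have hzM : z ∉ M := disjoint_left.1 hs.disj hzK
  have hne : ({z, y} : Finset α) ≠ {x2, y2} := by
    intro h
    have hz : z ∈ ({x2, y2} : Finset α) := by
      rw [← h]
      exact mem_insert_self _ _
    rw [mem_insert, mem_singleton] at hz
    rcases hz with rfl | rfl
    · exact hzM hx2
    · exact hzM hy2
  have hd := mem_dbl he.2 he.1 hne
  refine ⟨?_, ?_⟩
  · by_cases hy : y ∈ S
    · exact Or.inl hy
    · exact Or.inr (hL.2 z hzL y hy hd)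
  · rcases hs.edge _ he.2 with h | h
    · have hy := (pair_subset.1 h).2
      rw [mem_insert, mem_insert] at hy
      tauto
    · have hz := (pair_subset.1 h).1
      rw [mem_insert, mem_insert] at hz
      rcases hz with rfl | rfl | hz
      · exact absurd hzK hs.uK
      · exact absurd hzK hs.vK
      · exact absurd hz hzM

private theorem conn_erase {E : Finset (Finset α)} (hE : IsG E) (hn : 4 ≤ Fintype.card α)
    (hMC : MC E) {x y : α} (h : x ≠ y) : Conn (E.erase {x, y}) 1 :=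
  CR.conn1 (fun e he => hE e (mem_of_mem_erase he)) (by omega)
    (hMC.cr_erase (by omega) (card_pair h))

/-- no vertex of the separator is in `L` -/
private theorem cut_side {E : Finset (Finset α)} (hE : IsG E) (hn : 4 ≤ Fintype.card α)
    (hMC : MC E) {u v : α} {K M : Finset α} (hs : Sep E u v K M) {x1 y1 x2 y2 : α}
    (hx1 : x1 ∈ K) (h1 : x1 ≠ y1) (hx2 : x2 ∈ M) (hy2 : y2 ∈ M)
    {S L : Finset α} (huS : u ∉ S)
    (hL : Closed (dbl E x1 y1 x2 y2) S L) (hxL : x1 ∈ L) (huL : u ∉ L) (hvL : v ∉ L) :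
    2 ≤ (S \ M).card := by
  by_contra hc
  have hclo : Closed (E.erase {x1, y1}) (S \ M) (L ∩ K) := by
    refine ⟨?_, ?_⟩
    · rw [disjoint_left]
      intro z hz hz'
      exact disjoint_left.1 hL.1 (mem_inter.1 hz).1 (mem_sdiff.1 hz').1
    · intro z hz y hy he
      rw [mem_inter] at hz
      obtain ⟨h2, h3⟩ := cut_nbr hs hx2 hy2 hL hz.1 hz.2 he
      rw [mem_sdiff, not_and, not_not] at hy
      rcases h3 with h3 | rfl | rfl
      · have hyM : y ∉ M := disjoint_left.1 hs.disj h3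
        have hyS : y ∉ S := fun h => hyM (hy h)
        exact mem_inter.2 ⟨h2.resolve_left hyS, h3⟩
      · rcases h2 with h2 | h2
        · exact absurd h2 huS
        · exact absurd h2 huL
      · rcases h2 with h2 | h2
        · exact absurd (hy h2) hs.vM
        · exact absurd h2 hvL
  have hr := conn_erase hE hn hMC h1 (S \ M) (by omega) x1 u
    (fun h => disjoint_left.1 hL.1 hxL (mem_sdiff.1 h).1) (fun h => huS (mem_sdiff.1 h).1)
  exact huL (mem_inter.1 (hr _ hclo (mem_inter.2 ⟨hxL, hx1⟩))).1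

private theorem cut_none {E : Finset (Finset α)} (hE : IsG E) (hn : 4 ≤ Fintype.card α)
    (hMC : MC E) {u v : α} {K M : Finset α} (hs : Sep E u v K M) {x1 y1 x2 y2 : α}
    (hx1 : x1 ∈ K) (hy1 : y1 ∈ K) (h1 : x1 ≠ y1) (hx2 : x2 ∈ M) (hy2 : y2 ∈ M)
    (h2 : x2 ≠ y2) {S L : Finset α} (hS : S.card ≤ 2) (huS : u ∉ S)
    (hL : Closed (dbl E x1 y1 x2 y2) S L) (hxL : x1 ∈ L) (huL : u ∉ L) (hvL : v ∉ L) :
    False := by
  have c1 := cut_side hE hn hMC hs hx1 h1 hx2 hy2 huS hL hxL huL hvL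
  have c2 : (S \ M).card + (S ∩ M).card = S.card := card_sdiff_add_card_inter S M
  have hSM : S ∩ M = ∅ := by
    rw [← card_eq_zero]
    omega
  have hx2S : x2 ∉ S := by
    intro h
    have : x2 ∈ S ∩ M := mem_inter.2 ⟨h, hx2⟩
    rw [hSM] at this
    exact notMem_empty _ this
  have hx2L : x2 ∈ L := hL.2 x1 hxL x2 hx2S (mem_insert_self _ _)
  have hL' : Closed (dbl E x2 y2 x1 y1) S L := by
    rw [dbl_comm]
    exact hL
  have c3 := cut_side hE hn hMC hs.symm hx2 h2 hx1 hy1 huS hL' hx2L huL hvL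
  have c4 : S \ K ⊆ {v} := by
    intro z hz
    rw [mem_sdiff] at hz
    rw [mem_singleton]
    rcases hs.top z with h | h | h | h
    · exact absurd h hz.2
    · have : z ∈ S ∩ M := mem_inter.2 ⟨hz.1, h⟩
      rw [hSM] at this
      exact absurd this (notMem_empty _)
    · rw [h] at hz
      exact absurd hz.1 huS
    · exact h
  have c5 := card_le_card c4
  rw [card_singleton] at c5
  omega

/-- the incidence on one side -/
private theorem inc_side {E : Finset (Finset α)} {u v : α} {K : Finset α} (huv : u ≠ v)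
    (huK : u ∉ K) (hvK : v ∉ K) (hc : MCon (insert {u, v} E) (insert u (insert v K)))
    {x y : α} (hx : x ∈ K) (hy : y ∈ K) (hxy : x ≠ y) {S L : Finset α} (hd : Disjoint L S)
    (huS : u ∉ S) (hvS : v ∉ S) (hxL : x ∈ L ∪ S) (hyL : y ∉ L) (huL : u ∈ L) (hvL : v ∉ L)
    (hedge : ∀ e ∈ E, e ⊆ insert u (insert v K) → e ≠ {x, y} → e ≠ {u, v} →
      e ⊆ L ∪ S ∨ e ⊆ univ \ L) :
    1 ≤ (S ∩ K).card ∧ ((S ∩ K).card = 1 → Inc E u v K x y) := by
  have hux : u ≠ x := fun h => huK (h ▸ hx)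
  have huy : u ≠ y := fun h => huK (h ▸ hy)
  have hvx : v ≠ x := fun h => hvK (h ▸ hx)
  have hvy : v ≠ y := fun h => hvK (h ▸ hy)
  have huW : u ∈ insert u (insert v K) := mem_insert_self _ _
  have hvW : v ∈ insert u (insert v K) := mem_insert_of_mem (mem_insert_self _ _)
  have hKW : ∀ z ∈ K, z ∈ insert u (insert v K) :=
    fun z hz => mem_insert_of_mem (mem_insert_of_mem hz)
  have hI : (insert u (insert v K) ∩ (L ∪ S)) ∩ (insert u (insert v K) \ L) = S ∩ K := by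
    ext z
    simp only [mem_inter, mem_union, mem_sdiff, mem_insert]
    constructor
    · rintro ⟨⟨h1, h2⟩, h3, h4⟩
      have hzS : z ∈ S := h2.resolve_left h4
      rcases h1 with rfl | rfl | h1
      · exact absurd hzS huS
      · exact absurd hzS hvS
      · exact ⟨hzS, h1⟩
    · rintro ⟨h1, h2⟩
      exact ⟨⟨Or.inr (Or.inr h2), Or.inr h1⟩, Or.inr (Or.inr h2), disjoint_right.1 hd h1⟩
  have hU : (insert u (insert v K) ∩ (L ∪ S)) ∪ (insert u (insert v K) \ L) =
      insert u (insert v K) := by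
    ext z
    simp only [mem_inter, mem_union, mem_sdiff]
    tauto
  have huP : u ∈ insert u (insert v K) ∩ (L ∪ S) := mem_inter.2 ⟨huW, mem_union_left _ huL⟩
  have hxP : x ∈ insert u (insert v K) ∩ (L ∪ S) := mem_inter.2 ⟨hKW x hx, hxL⟩
  have hvQ : v ∈ insert u (insert v K) \ L := mem_sdiff.2 ⟨hvW, hvL⟩
  have hyQ : y ∈ insert u (insert v K) \ L := mem_sdiff.2 ⟨hKW y hy, hyL⟩
  have hvP : v ∉ insert u (insert v K) ∩ (L ∪ S) := by
    intro h
    rcases mem_union.1 (mem_inter.1 h).2 with h | h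
    · exact hvL h
    · exact hvS h
  have huQ : u ∉ insert u (insert v K) \ L := fun h => (mem_sdiff.1 h).2 huL
  have hed : ∀ e ∈ E, e ⊆ insert u (insert v K) → e ≠ {x, y} → e ≠ {u, v} →
      e ⊆ insert u (insert v K) ∩ (L ∪ S) ∨ e ⊆ insert u (insert v K) \ L := by
    intro e he heW h1 h2
    rcases hedge e he heW h1 h2 with h | h
    · exact Or.inl (subset_inter heW h)
    · right
      intro z hz
      exact mem_sdiff.2 ⟨heW hz, (mem_sdiff.1 (h hz)).2⟩
  constructor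
  · by_contra hcard
    have h0 : (S ∩ K).card = 0 := by omega
    have key := hc {{x, y}, {u, v}, insert u (insert v K) ∩ (L ∪ S),
      insert u (insert v K) \ L} ?_ ?_
    · have e1 : wp ({x, y} : Finset α) = 1 := by
        rw [wp_of_two (card_pair hxy).ge, w_pair hxy]
      have e2 : wp ({u, v} : Finset α) = 1 := by
        rw [wp_of_two (card_pair huv).ge, w_pair huv]
      have e3 : wp (insert u (insert v K) ∩ (L ∪ S)) =
          2 * ((insert u (insert v K) ∩ (L ∪ S)).card : ℤ) - 3 := by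
        rw [wp_of_two (two_le_card_of huP hxP hux)]
        rfl
      have e4 : wp (insert u (insert v K) \ L) =
          2 * ((insert u (insert v K) \ L).card : ℤ) - 3 := by
        rw [wp_of_two (two_le_card_of hvQ hyQ hvy)]
        rfl
      have hs1 : ∑ T ∈ ({{x, y}, {u, v}, insert u (insert v K) ∩ (L ∪ S),
          insert u (insert v K) \ L} : Finset (Finset α)), w T ≤
          wp ({x, y} : Finset α) + (wp ({u, v} : Finset α) +
            (wp (insert u (insert v K) ∩ (L ∪ S)) + wp (insert u (insert v K) \ L))) := by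
        refine (sum_le_sum (fun T _ => le_wp T)).trans ?_
        refine (sum_ins_le wp_nonneg _ _).trans (add_le_add le_rfl ?_)
        refine (sum_ins_le wp_nonneg _ _).trans (add_le_add le_rfl ?_)
        refine (sum_ins_le wp_nonneg _ _).trans (add_le_add le_rfl ?_)
        rw [sum_singleton]
      have hcd := card_union_add_card_inter (insert u (insert v K) ∩ (L ∪ S))
        (insert u (insert v K) \ L)
      rw [hU, hI, h0] at hcd
      have k1 := key.trans hs1
      rw [e1, e2, e3, e4] at k1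
      omega
    · intro T hT
      simp only [mem_insert, mem_singleton] at hT
      rcases hT with rfl | rfl | rfl | rfl
      · refine ⟨(card_pair hxy).ge, pair_subset.2 ⟨hKW x hx, hKW y hy⟩, fun h => ?_⟩
        rw [← h, mem_insert, mem_singleton] at huW
        rcases huW with h | h
        · exact hux h
        · exact huy h
      · refine ⟨(card_pair huv).ge, pair_subset.2 ⟨huW, hvW⟩, fun h => ?_⟩
        have hxW := hKW x hx
        rw [← h, mem_insert, mem_singleton] at hxW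
        rcases hxW with h | h
        · exact hux h.symm
        · exact hvx h.symm
      · refine ⟨two_le_card_of huP hxP hux, inter_subset_left, fun h => ?_⟩
        rw [h] at hvP
        exact hvP hvW
      · refine ⟨two_le_card_of hvQ hyQ hvy, sdiff_subset, fun h => ?_⟩
        rw [h] at huQ
        exact huQ huW
    · intro e he heW
      by_cases e1 : e = {x, y}
      · exact ⟨{x, y}, by simp, e1.subset⟩
      by_cases e2 : e = {u, v}
      · exact ⟨{u, v}, by simp, e2.subset⟩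
      have heE : e ∈ E := by
        rcases mem_insert.1 he with h | h
        · exact absurd h e2
        · exact h
      rcases hed e heE heW e1 e2 with h | h
      · exact ⟨_, by simp, h⟩
      · exact ⟨_, by simp, h⟩
  · intro hcard
    obtain ⟨p, hp⟩ := card_eq_one.1 hcard
    have hpK : p ∈ K := by
      have : p ∈ S ∩ K := by rw [hp]; exact mem_singleton_self p
      exact (mem_inter.1 this).2
    exact ⟨p, hpK, insert u (insert v K) ∩ (L ∪ S), insert u (insert v K) \ L, hU,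
      hI.trans hp, hxP, huP, hyQ, hvQ, hed⟩

private theorem cut_main {E : Finset (Finset α)} (hE : IsG E) (hn : 4 ≤ Fintype.card α)
    (hMC : MC E) {u v : α} {K M : Finset α} (hs : Sep E u v K M) {x1 y1 x2 y2 : α}
    (hx1 : x1 ∈ K) (hy1 : y1 ∈ K) (h1 : x1 ≠ y1) (hx2 : x2 ∈ M) (hy2 : y2 ∈ M)
    (h2 : x2 ≠ y2) {S L : Finset α} (hS : S.card ≤ 2)
    (hL : Closed (dbl E x1 y1 x2 y2) S L) (hxL : x1 ∈ L) (hyL : y1 ∉ L) (hyS : y1 ∉ S)
    (huL : u ∈ L) (hvL : v ∉ L) (hvS : v ∉ S) :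
    Inc E u v K x1 y1 ∧ Inc E u v M x2 y2 := by
  have huS : u ∉ S := disjoint_left.1 hL.1 huL
  have hG := isG_dbl hE hs.disj hx1 hy1 hx2 hy2
  have hx2L : x2 ∈ L ∪ S := by
    by_cases h : x2 ∈ S
    · exact mem_union_right _ h
    · exact mem_union_left _ (hL.2 x1 hxL x2 h (mem_insert_self _ _))
  have hy2L : y2 ∉ L := by
    intro h
    refine hyL (hL.2 y2 h y1 hyS ?_)
    rw [pair_comm]
    exact mem_insert_of_mem (mem_insert_self _ _)
  have hx2W : x2 ∉ insert u (insert v K) := by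
    rw [mem_insert, mem_insert, not_or, not_or]
    exact ⟨fun h => hs.uM (h ▸ hx2), fun h => hs.vM (h ▸ hx2), disjoint_right.1 hs.disj hx2⟩
  have hx1W : x1 ∉ insert u (insert v M) := by
    rw [mem_insert, mem_insert, not_or, not_or]
    exact ⟨fun h => hs.uK (h ▸ hx1), fun h => hs.vK (h ▸ hx1), disjoint_left.1 hs.disj hx1⟩
  obtain ⟨k1, k2⟩ := inc_side hs.ne hs.uK hs.vK (Sep.mcon hE hn hMC hs) hx1 hy1 h1 hL.1 huS hvS
    (mem_union_left _ hxL) hyL huL hvL (fun e he heW e1 _ => hL.edge hG (mem_dbl he e1 (by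
      rintro rfl
      exact hx2W (heW (mem_insert_self _ _)))))
  obtain ⟨k3, k4⟩ := inc_side hs.ne hs.uM hs.vM (Sep.mcon hE hn hMC hs.symm) hx2 hy2 h2 hL.1 huS
    hvS hx2L hy2L huL hvL (fun e he heW e1 _ => hL.edge hG (mem_dbl he (by
      rintro rfl
      exact hx1W (heW (mem_insert_self _ _))) e1))
  have hdis : Disjoint (S ∩ K) (S ∩ M) :=
    hs.disj.mono inter_subset_right inter_subset_right
  have hle : (S ∩ K).card + (S ∩ M).card ≤ S.card := by
    rw [← card_union_of_disjoint hdis]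
    exact card_le_card (union_subset inter_subset_left inter_subset_left)
  exact ⟨k2 (by omega), k4 (by omega)⟩

theorem cut_inc {E : Finset (Finset α)} (hE : IsG E) (hn : 4 ≤ Fintype.card α)
    (hMC : MC E) {u v : α} {K M : Finset α} (hs : Sep E u v K M) {x1 y1 x2 y2 : α}
    (hx1 : x1 ∈ K) (hy1 : y1 ∈ K) (h1 : x1 ≠ y1) (hx2 : x2 ∈ M) (hy2 : y2 ∈ M)
    (h2 : x2 ≠ y2) {S L : Finset α} (hS : S.card ≤ 2) (huv : ¬ (u ∈ S ∧ v ∈ S))
    (hL : Closed (dbl E x1 y1 x2 y2) S L) (hxL : x1 ∈ L) (hyL : y1 ∉ L) (hyS : y1 ∉ S) :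
    (Inc E u v K x1 y1 ∧ Inc E u v M x2 y2) ∨ (Inc E u v K y1 x1 ∧ Inc E u v M y2 x2) := by
  have hR : Closed (dbl E y1 x1 y2 x2) S (univ \ (S ∪ L)) := by
    rw [dbl_swap]
    exact hL.compl
  have hyR : y1 ∈ univ \ (S ∪ L) := by
    rw [mem_sdiff, mem_union, not_or]
    exact ⟨mem_univ _, hyS, hyL⟩
  have hmR : ∀ z, z ∉ univ \ (S ∪ L) ↔ z ∈ S ∨ z ∈ L := by
    intro z
    rw [mem_sdiff, mem_union]
    simp only [mem_univ, true_and, not_not]
  by_cases hu : u ∈ L <;> by_cases hv : v ∈ L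
  · -- both in `L`
    exfalso
    have huS : u ∉ S := disjoint_left.1 hL.1 hu
    exact cut_none hE hn hMC hs hy1 hx1 h1.symm hy2 hx2 h2.symm hS huS hR hyR
      ((hmR u).2 (Or.inr hu)) ((hmR v).2 (Or.inr hv))
  · by_cases hvS : v ∈ S
    · exfalso
      have huS : u ∉ S := disjoint_left.1 hL.1 hu
      exact cut_none hE hn hMC hs hy1 hx1 h1.symm hy2 hx2 h2.symm hS huS hR hyR
        ((hmR u).2 (Or.inr hu)) ((hmR v).2 (Or.inl hvS))
    · left
      exact cut_main hE hn hMC hs hx1 hy1 h1 hx2 hy2 h2 hS hL hxL hyL hyS hu hv hvS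
  · by_cases huS : u ∈ S
    · exfalso
      have hvS : v ∉ S := disjoint_left.1 hL.1 hv
      exact cut_none hE hn hMC hs.flip hy1 hx1 h1.symm hy2 hx2 h2.symm hS hvS hR hyR
        ((hmR v).2 (Or.inr hv)) ((hmR u).2 (Or.inl huS))
    · right
      obtain ⟨k1, k2⟩ := cut_main hE hn hMC hs.flip hx1 hy1 h1 hx2 hy2 h2 hS hL hxL hyL hyS hv
        hu huS
      exact ⟨inc_flip k1, inc_flip k2⟩
  · exfalso
    by_cases huS : u ∈ S
    · have hvS : v ∉ S := fun h => huv ⟨huS, h⟩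
      exact cut_none hE hn hMC hs.flip hx1 hy1 h1 hx2 hy2 h2 hS hvS hL hxL hv hu
    · exact cut_none hE hn hMC hs hx1 hy1 h1 hx2 hy2 h2 hS huS hL hxL hu hv

private theorem fail_inc {E : Finset (Finset α)} (hE : IsG E) (hn : 4 ≤ Fintype.card α)
    (hMC : MC E) {u v : α} {K M : Finset α} (hs : Sep E u v K M) {x1 y1 x2 y2 : α}
    (hx1 : x1 ∈ K) (hy1 : y1 ∈ K) (h1 : x1 ≠ y1) (hx2 : x2 ∈ M) (hy2 : y2 ∈ M)
    (h2 : x2 ≠ y2) {S : Finset α} (hS : S.card ≤ 2) (huv : ¬ (u ∈ S ∧ v ∈ S)) {a b : α}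
    (hr : Reach E S a b) (hr' : ¬ Reach (dbl E x1 y1 x2 y2) S a b) :
    (Inc E u v K x1 y1 ∧ Inc E u v M x2 y2) ∨ (Inc E u v K y1 x1 ∧ Inc E u v M y2 x2) := by
  have hex : ∃ c d, ({c, d} : Finset α) ∈ E ∧ c ∉ S ∧ d ∉ S ∧
      ¬ Reach (dbl E x1 y1 x2 y2) S c d := by
    by_contra hc
    push Not at hc
    exact hr' (reach_of_edges (fun c d he hcS hdS => hc c d he hcS hdS) hr)
  obtain ⟨c, d, he, hcS, hdS, hcd⟩ := hex
  have hcases : ({c, d} : Finset α) = {x1, y1} ∨ ({c, d} : Finset α) = {x2, y2} := by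
    by_contra hc
    rw [not_or] at hc
    exact hcd (reach_edge (mem_dbl he hc.1 hc.2) hdS)
  have hpair : ∀ {a b c d : α}, ({a, b} : Finset α) = {c, d} → c ≠ d →
      (a = c ∧ b = d) ∨ (a = d ∧ b = c) := by
    intro a b c d h hcd
    have ha : a ∈ ({c, d} : Finset α) := by rw [← h]; simp
    have hb : b ∈ ({c, d} : Finset α) := by rw [← h]; simp
    have hc : c ∈ ({a, b} : Finset α) := by rw [h]; simp
    have hd : d ∈ ({a, b} : Finset α) := by rw [h]; simp
    simp only [mem_insert, mem_singleton] at ha hb hc hd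
    rcases ha with rfl | rfl <;> rcases hb with rfl | rfl
    · rcases hd with rfl | rfl <;> exact absurd rfl hcd
    · exact Or.inl ⟨rfl, rfl⟩
    · exact Or.inr ⟨rfl, rfl⟩
    · rcases hc with rfl | rfl <;> exact absurd rfl hcd
  unfold Reach at hcd
  push Not at hcd
  obtain ⟨L, hL, hcL, hdL⟩ := hcd
  rcases hcases with h | h
  · rcases hpair h h1 with ⟨rfl, rfl⟩ | ⟨rfl, rfl⟩
    · exact cut_inc hE hn hMC hs hx1 hy1 h1 hx2 hy2 h2 hS huv hL hcL hdL hdS
    · rw [← dbl_swap] at hL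
      exact (cut_inc hE hn hMC hs hy1 hx1 h1.symm hy2 hx2 h2.symm hS huv hL hcL hdL hdS).symm
  · rcases hpair h h2 with ⟨rfl, rfl⟩ | ⟨rfl, rfl⟩
    · rw [← dbl_comm] at hL
      rcases cut_inc hE hn hMC hs.symm hx2 hy2 h2 hx1 hy1 h1 hS huv hL hcL hdL hdS with
        ⟨k1, k2⟩ | ⟨k1, k2⟩
      · exact Or.inl ⟨k2, k1⟩
      · exact Or.inr ⟨k2, k1⟩
    · rw [← dbl_comm, ← dbl_swap] at hL
      rcases cut_inc hE hn hMC hs.symm hy2 hx2 h2.symm hy1 hx1 h1.symm hS huv hL hcL hdL hdS with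
        ⟨k1, k2⟩ | ⟨k1, k2⟩
      · exact Or.inr ⟨k2, k1⟩
      · exact Or.inl ⟨k2, k1⟩

theorem double_reach {E : Finset (Finset α)} (hE : IsG E) (hn : 4 ≤ Fintype.card α)
    (hMC : MC E) {u v : α} {K M : Finset α} (hs : Sep E u v K M) {x1 y1 x2 y2 : α}
    (hx1 : x1 ∈ K) (hy1 : y1 ∈ K) (h1 : x1 ≠ y1) (hx2 : x2 ∈ M) (hy2 : y2 ∈ M)
    (h2 : x2 ≠ y2) :
    (∀ S : Finset α, S.card ≤ 2 → ¬ (u ∈ S ∧ v ∈ S) → ∀ a b, Reach E S a b →
      Reach (dbl E x1 y1 x2 y2) S a b) ∨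
    (∀ S : Finset α, S.card ≤ 2 → ¬ (u ∈ S ∧ v ∈ S) → ∀ a b, Reach E S a b →
      Reach (dbl E x1 y1 y2 x2) S a b) := by
  by_contra hc
  rw [not_or] at hc
  obtain ⟨hc1, hc2⟩ := hc
  push Not at hc1 hc2
  obtain ⟨S, hS, huv, a, b, hr, hr'⟩ := hc1
  obtain ⟨S', hS', huv', a', b', hq, hq'⟩ := hc2
  have hcK := Sep.mcon hE hn hMC hs
  have hcM := Sep.mcon hE hn hMC hs.symm
  have k1 := fail_inc hE hn hMC hs hx1 hy1 h1 hx2 hy2 h2 hS (fun h => huv h.1 h.2) hr hr'
  have k2 := fail_inc hE hn hMC hs hx1 hy1 h1 hy2 hx2 h2.symm hS' (fun h => huv' h.1 h.2) hq hq'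
  rcases k1 with ⟨k1, k1'⟩ | ⟨k1, k1'⟩ <;> rcases k2 with ⟨k2, k2'⟩ | ⟨k2, k2'⟩
  · exact inc_contra hs.ne hs.uM hs.vM hcM hx2 hy2 h2 k1' k2'
  · exact inc_contra hs.ne hs.uK hs.vK hcK hx1 hy1 h1 k1 k2
  · exact inc_contra hs.ne hs.uK hs.vK hcK hx1 hy1 h1 k2 k1
  · exact inc_contra hs.ne hs.uM hs.vM hcM hx2 hy2 h2 k2' k1'

end Pool.Agent.GRA
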