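import Pool.Agent.GRA.G2

/-!
# GRA/FR1: minimal fragments of a 2-connected graph are disjoint

PROOF of `minFrag_disjoint`. Let `L₁ ≠ L₂` be minimal fragments, `N_i = nbr E L_i`, `|N_i| ≤ 2`
(`closed_iff`), `R_i = univ \ (L_i ∪ N_i)`. `R_i` is nonempty: if `|N_i| = 2` then `N_i = {u,v}` and
`insert u (insert v L_i) ≠ univ`; if `|N_i| ≤ 1` then `univ \ (insert u (insert v L_i)) ⊆ R_i`.
(0) For every nonempty `C` with `univ \ (C ∪ nbr E C)` nonempty: `2 ≤ |nbr E C|` (`Conn E 1` with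
`S = nbr E C`, `C` is closed for `S`). In particular `|N_i| = 2`.
(1) A nonempty `C` with `|nbr E C| ≤ 2` and `univ \ (C ∪ nbr E C)` nonempty is a fragment: by (0)
`nbr E C = {u, v}`.
Suppose `L₁ ∩ L₂ ≠ ∅`. `L₁ ∩ L₂` is a proper subset of `L₁` or of `L₂`, and
`univ \ ((L₁ ∩ L₂) ∪ nbr (L₁ ∩ L₂)) ⊇ R₁` is nonempty (`nbr (L₁ ∩ L₂) ⊆ L₁ ∪ N₁`), so by minimality and (1)
`|nbr (L₁ ∩ L₂)| ≥ 3`, so `|nbr (L₁ ∪ L₂)| ≤ 1` by `nbr_submod`, so by (0)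
`univ = (L₁ ∪ L₂) ∪ nbr (L₁ ∪ L₂)`, in particular `R₁ ∩ R₂ = ∅` (an element of `R₁ ∩ R₂` is neither in
`L₁ ∪ L₂` nor a neighbour of it).
(2) `nbr (L₁ ∩ L₂) ⊆ (L₁ ∩ N₂) ∪ (N₁ ∩ L₂) ∪ (N₁ ∩ N₂)`, `nbr (L₁ ∩ R₂) ⊆ (L₁ ∩ N₂) ∪ (N₁ ∩ R₂) ∪ (N₁ ∩ N₂)`,
`nbr (L₂ ∩ R₁) ⊆ (L₂ ∩ N₁) ∪ (N₂ ∩ R₁) ∪ (N₁ ∩ N₂)`. The two last right sides have total size
`≤ |N₁| + |N₂| = 4`, so if both `L₁ ∩ R₂` and `L₂ ∩ R₁` were nonempty one of them, say `L₁ ∩ R₂`, would have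
at most 2 neighbours and be a fragment (its outside contains `L₂ ∩ L₁`? no: it contains `R₁`, since
`L₁ ∩ R₂ ∪ nbr ⊆ L₁ ∪ N₁`), properly contained in `L₁` (`L₁ ∩ L₂ ≠ ∅`): contradiction. So one of them is
empty; by symmetry let `L₁ ∩ R₂ = ∅`. With `R₁ ∩ R₂ = ∅` we get `R₂ ⊆ N₁`.
`|N₁ ∩ R₂| = |R₂| ≥ 1`, so `|N₁ ∩ L₂| + |N₁ ∩ N₂| ≤ 1`, and by `|nbr (L₁ ∩ L₂)| ≥ 3`, `|L₁ ∩ N₂| ≥ 2`, so
`N₂ ⊆ L₁`, `N₁ ∩ N₂ = ∅`, `|N₁ ∩ L₂| = 1`, `|R₂| = 1`: `N₁ = {c, r}`, `c ∈ L₂`, `R₂ = {r}`. The neighbours of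
`r` are in `R₂ ∪ N₂`, so in `L₁ ∪ {r}`. `R₁` is nonempty, its neighbours are in `N₁ = {c,r}` (edges from
`R₁` go to `R₁ ∪ N₁`), and `r` has no neighbour in `R₁` (they are in `L₁ ∪ {r}`). So `nbr R₁ ⊆ {c}`, and `R₁ ∪ {c}`
misses `r`: contradiction to (0).
-/

namespace Pool.Agent.GRA

open Finset

variable {α : Type*} [Fintype α] [DecidableEq α]

private theorem fr1_mem_nbr {E : Finset (Finset α)} {L : Finset α} {y : α} :
    y ∈ nbr E L ↔ y ∉ L ∧ ∃ x ∈ L, ({x, y} : Finset α) ∈ E := by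
  unfold nbr
  rw [mem_filter]
  exact ⟨fun h => h.2, fun h => ⟨mem_univ _, h⟩⟩

private theorem fr1_mem_out {E : Finset (Finset α)} {L : Finset α} {y : α} :
    y ∈ univ \ (L ∪ nbr E L) ↔ y ∉ L ∧ y ∉ nbr E L := by
  rw [mem_sdiff, mem_union, not_or]
  exact ⟨fun h => h.2, fun h => ⟨mem_univ _, h⟩⟩

/-- In a 2-connected graph a nonempty set with something outside has at least two
neighbours. -/
theorem two_le_nbr {E : Finset (Finset α)} (hE : IsG E) (hc : Conn E 1) {C : Finset α}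
    (hC : C.Nonempty) (ho : (univ \ (C ∪ nbr E C)).Nonempty) : 2 ≤ (nbr E C).card := by
  by_contra hlt
  obtain ⟨x, hx⟩ := hC
  obtain ⟨y, hy⟩ := ho
  rw [fr1_mem_out] at hy
  have hcl : Closed E (nbr E C) C := closed_iff.2
    ⟨by
      rw [disjoint_left]
      intro a ha hn
      exact (fr1_mem_nbr.1 hn).1 ha, subset_rfl⟩
  exact hy.1 (hc (nbr E C) (by omega) x y (fun hn => (fr1_mem_nbr.1 hn).1 hx) hy.2 C hcl hx)

theorem frag_of_nbr {E : Finset (Finset α)} (hE : IsG E) (hc : Conn E 1) {C : Finset α}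
    (hC : C.Nonempty) (ho : (univ \ (C ∪ nbr E C)).Nonempty) (h2 : (nbr E C).card ≤ 2) :
    Frag E C := by
  have h3 := two_le_nbr hE hc hC ho
  obtain ⟨u, v, huv, hN⟩ := card_eq_two.1 (le_antisymm h2 h3)
  refine ⟨hC, u, v, huv, ?_, ?_⟩
  · rw [← hN]
    exact closed_iff.2
      ⟨by
        rw [disjoint_left]
        intro a ha hn
        exact (fr1_mem_nbr.1 hn).1 ha, subset_rfl⟩
  · obtain ⟨y, hy⟩ := ho
    rw [fr1_mem_out, hN] at hy
    intro hu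
    have : y ∈ insert u (insert v C) := hu ▸ mem_univ y
    simp only [mem_insert, mem_singleton, not_or] at this hy
    rcases this with h | h | h
    · exact hy.2.1 h
    · exact hy.2.2 h
    · exact hy.1 h

private theorem fr1_out {E : Finset (Finset α)} {L : Finset α} (h : Frag E L) :
    (univ \ (L ∪ nbr E L)).Nonempty ∧ (nbr E L).card ≤ 2 := by
  obtain ⟨_, u, v, huv, hcl, hne⟩ := h
  have hsub := (closed_iff.1 hcl).2
  constructor
  · have : ∃ y, y ∉ insert u (insert v L) := by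
      by_contra hall
      push Not at hall
      exact hne (eq_univ_iff_forall.2 hall)
    obtain ⟨y, hy⟩ := this
    refine ⟨y, fr1_mem_out.2 ⟨fun hL => hy (by simp [hL]), fun hN => ?_⟩⟩
    have := hsub hN
    simp only [mem_insert, mem_singleton] at this
    apply hy
    rcases this with h | h <;> simp [h]
  · calc (nbr E L).card ≤ ({u, v} : Finset α).card := card_le_card hsub
      _ ≤ 2 := card_le_two

private theorem fr1_part (E : Finset (Finset α)) (N L : Finset α) :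
    N.card = (N ∩ L).card + (N ∩ nbr E L).card + (N ∩ (univ \ (L ∪ nbr E L))).card := by
  have h1 : N.card = (N ∩ (L ∪ nbr E L)).card + (N \ (L ∪ nbr E L)).card :=
    (card_inter_add_card_sdiff N _).symm
  have h2 : N ∩ (univ \ (L ∪ nbr E L)) = N \ (L ∪ nbr E L) := by
    ext a
    simp
  have h3 : (N ∩ (L ∪ nbr E L)).card = (N ∩ L).card + (N ∩ nbr E L).card := by
    rw [inter_union_distrib_left, card_union_of_disjoint]
    rw [disjoint_left]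
    intro a ha hb
    exact (fr1_mem_nbr.1 (mem_inter.1 hb).2).1 (mem_inter.1 ha).2
  rw [h1, h2, h3]

/-- Symmetry of adjacency. -/
private theorem fr1_adj {E : Finset (Finset α)} {L : Finset α} {x y : α} (hx : x ∈ L)
    (h : ({x, y} : Finset α) ∈ E ∨ ({y, x} : Finset α) ∈ E) : y ∈ L ∨ y ∈ nbr E L := by
  by_cases hy : y ∈ L
  · exact Or.inl hy
  · refine Or.inr (fr1_mem_nbr.2 ⟨hy, x, hx, ?_⟩)
    rcases h with h | h
    · exact h
    · rwa [pair_comm]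

private theorem fr1_nbr_inter_out {E : Finset (Finset α)} (L₁ L₂ : Finset α) :
    nbr E (L₁ ∩ (univ \ (L₂ ∪ nbr E L₂))) ⊆ (nbr E L₂ ∩ L₁) ∪
      (nbr E L₁ ∩ (univ \ (L₂ ∪ nbr E L₂))) ∪ (nbr E L₁ ∩ nbr E L₂) := by
  intro y hy
  obtain ⟨hy1, x, hx, hxy⟩ := fr1_mem_nbr.1 hy
  rw [mem_inter] at hx
  have hx2 := fr1_mem_out.1 hx.2
  have ha := fr1_adj hx.1 (Or.inl hxy)
  have hb : y ∉ L₂ := fun hyL => by
    rcases fr1_adj hyL (Or.inr hxy) with h | h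
    · exact hx2.1 h
    · exact hx2.2 h
  simp only [mem_union, mem_inter, mem_sdiff, mem_univ, true_and, not_or] at hy1 ⊢
  by_cases hn : y ∈ nbr E L₂
  · rcases ha with ha | ha
    · exact Or.inl (Or.inl ⟨hn, ha⟩)
    · exact Or.inr ⟨ha, hn⟩
  · rcases ha with ha | ha
    · exact absurd ⟨ha, hb, hn⟩ hy1
    · exact Or.inl (Or.inr ⟨ha, hb, hn⟩)

private theorem fr1_nbr_inter {E : Finset (Finset α)} (L₁ L₂ : Finset α) :
    nbr E (L₁ ∩ L₂) ⊆ (nbr E L₂ ∩ L₁) ∪ (nbr E L₁ ∩ L₂) ∪ (nbr E L₁ ∩ nbr E L₂) := by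
  intro y hy
  obtain ⟨hy1, x, hx, hxy⟩ := fr1_mem_nbr.1 hy
  rw [mem_inter] at hx
  have ha := fr1_adj hx.1 (Or.inl hxy)
  have hb := fr1_adj hx.2 (Or.inl hxy)
  simp only [mem_union, mem_inter] at hy1 ⊢
  rcases ha with ha | ha <;> rcases hb with hb | hb
  · exact absurd ⟨ha, hb⟩ hy1
  · exact Or.inl (Or.inl ⟨hb, ha⟩)
  · exact Or.inl (Or.inr ⟨ha, hb⟩)
  · exact Or.inr ⟨ha, hb⟩

private theorem fr1_card3 (A B C : Finset α) : (A ∪ B ∪ C).card ≤ A.card + B.card + C.card :=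
  (card_union_le _ _).trans (Nat.add_le_add_right (card_union_le _ _) _)

private theorem fr1_sub_out {E : Finset (Finset α)} {L C : Finset α} (hCL : C ⊆ L)
    (ho : (univ \ (L ∪ nbr E L)).Nonempty) : (univ \ (C ∪ nbr E C)).Nonempty := by
  obtain ⟨y, hy⟩ := ho
  rw [fr1_mem_out] at hy
  refine ⟨y, fr1_mem_out.2 ⟨fun h => hy.1 (hCL h), fun h => ?_⟩⟩
  obtain ⟨_, x, hx, hxy⟩ := fr1_mem_nbr.1 h
  rcases fr1_adj (hCL hx) (Or.inl hxy) with h | h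
  · exact hy.1 h
  · exact hy.2 h

private theorem fr1_aux {E : Finset (Finset α)} (hE : IsG E) (hc : Conn E 1)
    {L₁ L₂ : Finset α} (h1 : Frag E L₁) (h2 : Frag E L₂)
    (hI : 3 ≤ (nbr E (L₁ ∩ L₂)).card)
    (hR : ∀ z, z ∈ univ \ (L₁ ∪ nbr E L₁) → z ∉ univ \ (L₂ ∪ nbr E L₂))
    (hemp : ∀ z ∈ L₁, z ∉ univ \ (L₂ ∪ nbr E L₂)) : False := by
  obtain ⟨hR1, hN1⟩ := fr1_out h1
  obtain ⟨hR2, hN2⟩ := fr1_out h2
  have hp1 := fr1_part E (nbr E L₁) L₂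
  have hI2 := (card_le_card (fr1_nbr_inter (E := E) L₁ L₂)).trans (fr1_card3 _ _ _)
  have hR2sub : univ \ (L₂ ∪ nbr E L₂) ⊆ nbr E L₁ := by
    intro z hz
    by_contra hn
    by_cases hzL : z ∈ L₁
    · exact hemp z hzL hz
    · exact hR z (fr1_mem_out.2 ⟨hzL, hn⟩) hz
  have hpos : 1 ≤ (nbr E L₁ ∩ (univ \ (L₂ ∪ nbr E L₂))).card := by
    rw [inter_eq_right.2 hR2sub]
    exact hR2.card_pos
  have hle2 : (nbr E L₂ ∩ L₁).card ≤ (nbr E L₂).card := card_le_card inter_subset_left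
  have heq : nbr E L₂ ∩ L₁ = nbr E L₂ := eq_of_subset_of_card_le inter_subset_left (by omega)
  have hN2L1 : nbr E L₂ ⊆ L₁ := by
    rw [← heq]
    exact inter_subset_right
  have hc1 : (nbr E L₁ ∩ L₂).card ≤ 1 := by omega
  have hnb : nbr E (univ \ (L₁ ∪ nbr E L₁)) ⊆ nbr E L₁ ∩ L₂ := by
    intro y hy
    obtain ⟨hy1, x, hx, hxy⟩ := fr1_mem_nbr.1 hy
    have hx' := fr1_mem_out.1 hx
    have hyL : y ∉ L₁ := fun hyL => by
      rcases fr1_adj hyL (Or.inr hxy) with h | h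
      · exact hx'.1 h
      · exact hx'.2 h
    have hyN : y ∈ nbr E L₁ := by
      by_contra hn
      exact hy1 (fr1_mem_out.2 ⟨hyL, hn⟩)
    rw [mem_inter]
    refine ⟨hyN, ?_⟩
    by_contra hyL2
    have hyN2 : y ∉ nbr E L₂ := fun h => hyL (hN2L1 h)
    have hyR2 : y ∈ univ \ (L₂ ∪ nbr E L₂) := fr1_mem_out.2 ⟨hyL2, hyN2⟩
    have hx2 := hR x hx
    rw [fr1_mem_out, not_and_or, not_not, not_not] at hx2
    rcases hx2 with h | h
    · rcases fr1_adj h (Or.inl hxy) with h' | h'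
      · exact hyL2 h'
      · exact hyN2 h'
    · exact hx'.1 (hN2L1 h)
  have hcard := two_le_nbr hE hc hR1 (by
    obtain ⟨r, hr⟩ := hR2
    refine ⟨r, fr1_mem_out.2 ⟨fun h => hR r h hr, fun h => ?_⟩⟩
    exact (fr1_mem_out.1 hr).1 (mem_inter.1 (hnb h)).2)
  have := card_le_card hnb
  omega

theorem minFrag_disjoint {E : Finset (Finset α)} (hE : IsG E) (hc : Conn E 1)
    {L₁ L₂ : Finset α} (h1 : MinFrag E L₁) (h2 : MinFrag E L₂) (hne : L₁ ≠ L₂) :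
    Disjoint L₁ L₂ := by
  by_contra hdis
  rw [disjoint_iff_inter_eq_empty, ← Ne, ← nonempty_iff_ne_empty] at hdis
  obtain ⟨hR1, hN1⟩ := fr1_out h1.1
  obtain ⟨hR2, hN2⟩ := fr1_out h2.1
  have hI : 3 ≤ (nbr E (L₁ ∩ L₂)).card := by
    by_contra hlt
    have hf : Frag E (L₁ ∩ L₂) :=
      frag_of_nbr hE hc hdis (fr1_sub_out inter_subset_left hR1) (by omega)
    exact hne ((h1.2 _ hf inter_subset_left).symm.trans (h2.2 _ hf inter_subset_right))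
  have hU : (nbr E (L₁ ∪ L₂)).card ≤ 1 := by
    have := nbr_submod E L₁ L₂
    omega
  have hR : ∀ z, z ∈ univ \ (L₁ ∪ nbr E L₁) → z ∉ univ \ (L₂ ∪ nbr E L₂) := by
    intro z hz1 hz2
    rw [fr1_mem_out] at hz1 hz2
    have := two_le_nbr hE hc (C := L₁ ∪ L₂) (hdis.mono (inter_subset_left.trans subset_union_left))
      ⟨z, fr1_mem_out.2 ⟨fun h => ?_, fun h => ?_⟩⟩
    · omega
    · rcases mem_union.1 h with h | h
      · exact hz1.1 h
      · exact hz2.1 h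
    · obtain ⟨_, x, hx, hxz⟩ := fr1_mem_nbr.1 h
      rcases mem_union.1 hx with hx | hx
      · exact hz1.2 (fr1_mem_nbr.2 ⟨hz1.1, x, hx, hxz⟩)
      · exact hz2.2 (fr1_mem_nbr.2 ⟨hz2.1, x, hx, hxz⟩)
  have hI' : 3 ≤ (nbr E (L₂ ∩ L₁)).card := by rwa [inter_comm]
  by_cases he1 : (L₁ ∩ (univ \ (L₂ ∪ nbr E L₂))).Nonempty
  · by_cases he2 : (L₂ ∩ (univ \ (L₁ ∪ nbr E L₁))).Nonempty
    · have hp1 := fr1_part E (nbr E L₁) L₂
      have hp2 := fr1_part E (nbr E L₂) L₁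
      have hc1 := (card_le_card (fr1_nbr_inter_out (E := E) L₁ L₂)).trans (fr1_card3 _ _ _)
      have hc2 := (card_le_card (fr1_nbr_inter_out (E := E) L₂ L₁)).trans (fr1_card3 _ _ _)
      have hcm : (nbr E L₂ ∩ nbr E L₁).card = (nbr E L₁ ∩ nbr E L₂).card := by rw [inter_comm]
      obtain ⟨a, ha⟩ := hdis
      rw [mem_inter] at ha
      rcases le_or_gt (nbr E (L₁ ∩ (univ \ (L₂ ∪ nbr E L₂)))).card 2 with hle | hgt
      · have hf : Frag E (L₁ ∩ (univ \ (L₂ ∪ nbr E L₂))) :=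
          frag_of_nbr hE hc he1 (fr1_sub_out inter_subset_left hR1) hle
        have := h1.2 _ hf inter_subset_left
        have ha1 := ha.1
        rw [← this, mem_inter, fr1_mem_out] at ha1
        exact ha1.2.1 ha.2
      · have hf : Frag E (L₂ ∩ (univ \ (L₁ ∪ nbr E L₁))) :=
          frag_of_nbr hE hc he2 (fr1_sub_out inter_subset_left hR2) (by omega)
        have := h2.2 _ hf inter_subset_left
        have ha2 := ha.2
        rw [← this, mem_inter, fr1_mem_out] at ha2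
        exact ha2.2.1 ha.1
    · refine fr1_aux hE hc h2.1 h1.1 hI' (fun z hz hz' => hR z hz' hz) fun z hz hz' => he2 ⟨z, ?_⟩
      exact mem_inter.2 ⟨hz, hz'⟩
  · refine fr1_aux hE hc h1.1 h2.1 hI hR fun z hz hz' => he1 ⟨z, ?_⟩
    exact mem_inter.2 ⟨hz, hz'⟩

end Pool.Agent.GRA
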