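import Pool.Agent.GRA.S2
import Pool.Agent.GRA.F1

/-!
# GRA/FR2: fragments without demand are fat; fragments and added pairs

PROOF of `fatAt_of_nbr`. Let `D = insert u (insert v L)`.
(1) `|L| ≥ 2`: otherwise `L = {x}`; the `E`-neighbours of `x` are among `u, v`. Members `X ∈ H` with
`x ∈ X` have `|X| ≤ 2` by `mcon_deg` (at least 3 neighbours if `|X| ≥ 3`), so they are edges `{x,u}` or
`{x,v}` (`mcon_two`), `sTo H {x} ≤ 2`, `gg H {x} ≥ 1`, contradicting the hypothesis.
(2) Let `X ∈ H` meet `L`, `X` not inside `D`; show `D ⊆ X`. `|X| ≥ 3` (if `|X| = 2`, `X ∈ E` and the other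
end is in `L ∪ {u,v}`). `mcon_sep` with `P = X ∩ D`, `Q = X \ L` (`P ∩ Q = X ∩ {u,v}`; every edge inside
`X` meeting `L` is inside `D`): `u, v ∈ X`. Suppose `C = L \ X` is nonempty. By hypothesis
`gg H C ≤ 0`, i.e. `sTo H C ≥ 2|C| + 1`. Every member `Y` meeting `C` is inside `D`: otherwise as before
`u, v ∈ Y`, `Y ≠ X`, `|X ∩ Y| ≥ 2`, contradicting `Indep.thin`. `Indep.sum_wp_le` for `D`:
`w D ≥ Σ_Y wp (Y ∩ D) ≥ Σ_{Y meets C} w Y + wp (X ∩ D) ≥ 2|C| + 1 + w (X ∩ D)` (`X` does not meet `C`), but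
`D = (X ∩ D) ∪ C` (as `u, v ∈ X`), so `w D = w (X ∩ D) + 2|C|`. Contradiction. So `L ⊆ X` and `D ⊆ X`.

PROOF of `frag_union` (a fragment untouched by `F` remains one): `Closed (E ∪ F) {u,v} L`: for `x ∈ L`,
`{x,y} ∈ F` is impossible. `frag_of_union`: `Closed.anti`. `minFrag_union`: a fragment `L' ⊆ L` of
`E ∪ F` is a fragment of `E`.
-/

namespace Pool.Agent.GRA

open Finset

variable {α : Type*} [Fintype α] [DecidableEq α]

private theorem fr2_edge {E : Finset (Finset α)} (hE : IsG E) {L : Finset α} {u v : α}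
    (hc : Closed E {u, v} L) {e : Finset α} (he : e ∈ E) (hm : (e ∩ L).Nonempty) :
    e ⊆ insert u (insert v L) := by
  rcases hc.edge hE he with h | h
  · intro t ht
    have := h ht
    simp only [mem_union, mem_insert, mem_singleton] at this ⊢
    tauto
  · exfalso
    obtain ⟨t, ht⟩ := hm
    rw [mem_inter] at ht
    exact (mem_sdiff.1 (h ht.1)).2 ht.2

private theorem fr2_big {E H : Finset (Finset α)} (hE : IsG E) (hS : Sys E H) {L : Finset α}
    {u v : α} (huv : u ≠ v) (hc : Closed E {u, v} L) {X : Finset α} (hX : X ∈ H)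
    (hm : (X ∩ L).Nonempty) (hD : ¬ X ⊆ insert u (insert v L)) : u ∈ X ∧ v ∈ X := by
  have h2 := hS.indep.two X hX
  have h3 : 3 ≤ X.card := by
    by_contra hlt
    have h4 : X.card = 2 := by omega
    exact hD (fr2_edge hE hc (mcon_two hE (hS.mc X hX) h4) hm)
  have h4 := mcon_sep (P := X ∩ insert u (insert v L)) (Q := X \ L) (hS.mc X hX) h3 (by
    ext t
    simp only [mem_union, mem_inter, mem_insert, mem_sdiff]
    tauto) (by
    intro h
    exact hD (inter_eq_left.1 h)) (by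
    intro h
    obtain ⟨t, ht⟩ := hm
    rw [mem_inter] at ht
    rw [← h] at ht
    exact (mem_sdiff.1 ht.1).2 ht.2) (by
    intro e he heX
    by_cases hme : (e ∩ L).Nonempty
    · exact Or.inl (subset_inter heX (fr2_edge hE hc he hme))
    · refine Or.inr fun t ht => mem_sdiff.2 ⟨heX ht, fun htL => hme ⟨t, mem_inter.2 ⟨ht, htL⟩⟩⟩)
  have h5 : X ∩ insert u (insert v L) ∩ (X \ L) ⊆ {u, v} := by
    intro t ht
    simp only [mem_inter, mem_insert, mem_sdiff, mem_singleton] at ht ⊢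
    tauto
  have h6 : X ∩ insert u (insert v L) ∩ (X \ L) = {u, v} :=
    eq_of_subset_of_card_le h5 (by rw [card_pair huv]; exact h4)
  have hu : u ∈ X ∩ insert u (insert v L) ∩ (X \ L) := by rw [h6]; simp
  have hv : v ∈ X ∩ insert u (insert v L) ∩ (X \ L) := by rw [h6]; simp
  exact ⟨(mem_inter.1 (mem_inter.1 hu).1).1, (mem_inter.1 (mem_inter.1 hv).1).1⟩

private theorem fr2_card {E H : Finset (Finset α)} (hE : IsG E) (hS : Sys E H) {L : Finset α}
    {u v : α} (hL : L.Nonempty) (huv : u ≠ v) (hc : Closed E {u, v} L)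
    (hg : ∀ C, C ⊆ L → C.Nonempty → gg H C ≤ 0) : 2 ≤ L.card := by
  by_contra hlt
  have h0 := card_pos.2 hL
  obtain ⟨x, rfl⟩ := card_eq_one.1 (by omega : L.card = 1)
  have h1 := hg {x} subset_rfl (singleton_nonempty x)
  have key : ∀ X ∈ H.filter (fun X => (X ∩ {x}).Nonempty), X = {x, u} ∨ X = {x, v} := by
    intro X hX
    obtain ⟨hXH, t, ht⟩ := mem_filter.1 hX
    rw [mem_inter, mem_singleton] at ht
    obtain ⟨hxX, rfl⟩ := ht
    have h2 := hS.indep.two X hXH
    have h3 : X.card = 2 := by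
      by_contra hne
      have h4 := mcon_deg hE (hS.mc X hXH) (by omega) hxX
      have h5 : univ.filter (fun y => y ∈ X ∧ ({t, y} : Finset α) ∈ E) ⊆ {u, v} := by
        intro y hy
        obtain ⟨_, hyX, hyE⟩ := mem_filter.1 hy
        by_contra hyn
        have h6 := hc.2 t (mem_singleton_self t) y hyn hyE
        rw [mem_singleton] at h6
        have h7 := hE _ hyE
        rw [h6] at h7
        simp at h7
      have h6 := card_le_card h5
      rw [card_pair huv] at h6
      omega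
    have h4 := mcon_two hE (hS.mc X hXH) h3
    obtain ⟨a, b, hab, rfl⟩ := card_eq_two.1 h3
    rw [mem_insert, mem_singleton] at hxX
    have h5 : ∀ y, ({t, y} : Finset α) ∈ E → y = u ∨ y = v := by
      intro y hy
      by_contra hn
      have h6 := hc.2 t (mem_singleton_self t) y (by
        rw [mem_insert, mem_singleton]; exact hn) hy
      rw [mem_singleton] at h6
      have h7 := hE _ hy
      rw [h6] at h7
      simp at h7
    rcases hxX with rfl | rfl
    · rcases h5 b h4 with rfl | rfl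
      · exact Or.inl rfl
      · exact Or.inr rfl
    · rw [pair_comm] at h4 ⊢
      rcases h5 a h4 with rfl | rfl
      · exact Or.inl rfl
      · exact Or.inr rfl
  have h2 : sTo H {x} ≤ 2 := by
    unfold sTo
    have h3 : H.filter (fun X => (X ∩ {x}).Nonempty) ⊆ {{x, u}, {x, v}} := by
      intro X hX
      rw [mem_insert, mem_singleton]
      exact key X hX
    have h4 : (H.filter (fun X => (X ∩ {x}).Nonempty)).card ≤ 2 :=
      (card_le_card h3).trans card_le_two
    have h5 : ∑ X ∈ H.filter (fun X => (X ∩ {x}).Nonempty), w X ≤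
        (H.filter (fun X => (X ∩ {x}).Nonempty)).card • (1 : ℤ) := by
      refine sum_le_card_nsmul _ _ _ fun X hX => ?_
      have h6 : X.card ≤ 2 := by
        rcases key X hX with rfl | rfl <;> exact card_le_two
      unfold w
      have : (X.card : ℤ) ≤ 2 := by exact_mod_cast h6
      linarith
    rw [nsmul_eq_mul, mul_one] at h5
    have h6 : ((H.filter (fun X => (X ∩ {x}).Nonempty)).card : ℤ) ≤ 2 := by exact_mod_cast h4
    linarith
  unfold gg at h1
  rw [card_singleton] at h1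
  push_cast at h1
  linarith

theorem fatAt_of_nbr {E H : Finset (Finset α)} (hE : IsG E) (hS : Sys E H) {L : Finset α}
    {u v : α} (hL : L.Nonempty) (huv : u ≠ v) (hc : Closed E {u, v} L)
    (hg : ∀ C, C ⊆ L → C.Nonempty → gg H C ≤ 0) : FatAt H L u v := by
  have hdis := Finset.disjoint_left.1 hc.1
  have hu : u ∉ L := fun h => hdis h (mem_insert_self _ _)
  have hv : v ∉ L := fun h => hdis h (mem_insert_of_mem (mem_singleton_self _))
  refine ⟨huv, hu, hv, fr2_card hE hS hL huv hc hg, ?_, hg⟩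
  intro X hX hm
  by_cases hD : X ⊆ insert u (insert v L)
  · exact Or.inl hD
  right
  obtain ⟨huX, hvX⟩ := fr2_big hE hS huv hc hX hm hD
  obtain ⟨D, hDd⟩ : ∃ D, D = insert u (insert v L) := ⟨_, rfl⟩
  rw [← hDd]
  have huD : u ∈ D := hDd ▸ mem_insert_self _ _
  have hvD : v ∈ D := hDd ▸ mem_insert_of_mem (mem_insert_self _ _)
  by_contra hcon
  have hDX : D \ X = L \ X := by
    ext t
    rw [mem_sdiff, mem_sdiff, hDd, mem_insert, mem_insert]
    constructor
    · rintro ⟨rfl | rfl | h, h'⟩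
      · exact absurd huX h'
      · exact absurd hvX h'
      · exact ⟨h, h'⟩
    · rintro ⟨h, h'⟩
      exact ⟨Or.inr (Or.inr h), h'⟩
  have hCne : (L \ X).Nonempty := by
    rw [← hDX]
    exact sdiff_nonempty.2 hcon
  have h1 := hg (L \ X) sdiff_subset hCne
  have hYD : ∀ Y ∈ H.filter (fun Y => (Y ∩ (L \ X)).Nonempty), Y ⊆ D ∧ Y ≠ X := by
    intro Y hY
    obtain ⟨hYH, t, ht⟩ := mem_filter.1 hY
    rw [mem_inter, mem_sdiff] at ht
    have hne : Y ≠ X := fun h => ht.2.2 (h ▸ ht.1)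
    refine ⟨?_, hne⟩
    by_contra hYn
    rw [hDd] at hYn
    obtain ⟨huY, hvY⟩ := fr2_big hE hS huv hc hYH ⟨t, mem_inter.2 ⟨ht.1, ht.2.1⟩⟩ hYn
    have h2 := hS.indep.thin hYH hX hne
    have h3 : ({u, v} : Finset α) ⊆ Y ∩ X :=
      pair_subset.2 ⟨mem_inter.2 ⟨huY, huX⟩, mem_inter.2 ⟨hvY, hvX⟩⟩
    have h4 := card_le_card h3
    rw [card_pair huv] at h4
    omega
  have hXD2 : 2 ≤ (X ∩ D).card := by
    rw [← card_pair huv]
    exact card_le_card (pair_subset.2 ⟨mem_inter.2 ⟨huX, huD⟩, mem_inter.2 ⟨hvX, hvD⟩⟩)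
  have hD2 : 2 ≤ D.card := hXD2.trans (card_le_card inter_subset_right)
  have h2 := hS.indep.sum_wp_le D hD2
  have hnot : X ∉ H.filter (fun Y => (Y ∩ (L \ X)).Nonempty) := fun h => (hYD X h).2 rfl
  have h3 : ∑ Y ∈ insert X (H.filter (fun Y => (Y ∩ (L \ X)).Nonempty)), wp (Y ∩ D) ≤
      ∑ Y ∈ H, wp (Y ∩ D) := by
    apply sum_le_sum_of_subset_of_nonneg
    · intro Y hY
      rcases mem_insert.1 hY with rfl | hY
      · exact hX
      · exact (mem_filter.1 hY).1
    · intro Y _ _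
      exact wp_nonneg _
  rw [sum_insert hnot, wp_of_two hXD2] at h3
  have h4 : ∑ Y ∈ H.filter (fun Y => (Y ∩ (L \ X)).Nonempty), wp (Y ∩ D) = sTo H (L \ X) := by
    unfold sTo
    refine sum_congr rfl fun Y hY => ?_
    rw [inter_eq_left.2 (hYD Y hY).1, wp_of_two (hS.indep.two Y (mem_filter.1 hY).1)]
  have h5 : ((L \ X).card : ℤ) + (X ∩ D).card = D.card := by
    rw [← hDX, inter_comm X D]
    exact_mod_cast card_sdiff_add_card_inter D X
  unfold gg at h1
  unfold w at h2 h3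
  rw [h4] at h3
  linarith

theorem frag_union {E F : Finset (Finset α)} {L : Finset α} (h : Frag E L)
    (ht : ¬ Touch F L) : Frag (E ∪ F) L := by
  obtain ⟨hL, u, v, huv, hc, hn⟩ := h
  refine ⟨hL, u, v, huv, ⟨hc.1, fun x hx y hy hxy => ?_⟩, hn⟩
  rcases mem_union.1 hxy with h1 | h1
  · exact hc.2 x hx y hy h1
  · exact absurd ⟨_, h1, x, mem_inter.2 ⟨mem_insert_self _ _, hx⟩⟩ ht

theorem frag_of_union {E F : Finset (Finset α)} {L : Finset α} (h : Frag (E ∪ F) L) :
    Frag E L := by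
  obtain ⟨hL, u, v, huv, hc, hn⟩ := h
  exact ⟨hL, u, v, huv, hc.anti subset_union_left, hn⟩

theorem minFrag_union {E F : Finset (Finset α)} {L : Finset α} (h : MinFrag E L)
    (ht : ¬ Touch F L) : MinFrag (E ∪ F) L :=
  ⟨frag_union h.1 ht, fun L' hL' hsub => h.2 L' (frag_of_union hL') hsub⟩

end Pool.Agent.GRA
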