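import Pool.Agent.GRA.B1
import Pool.Agent.GRA.FR1
import Pool.Agent.GRA.FR2
import Pool.Agent.GRA.B4

/-!
# GRA/B6: the exchanges keep all minimal fragments touched; a non-bridge exists

PROOF of `keep_swap1`. `f = {x,u} ∈ F`, `E₁ = E ∪ F.erase f ⊇ (E ∪ F).erase f` is `CR`, so `Conn E₁ 1`. Call a
minimal fragment `L` of `E` bad if it is not touched by `F.erase f` and `x ∉ L`; then `u ∈ L` (it is touched
by `f`), and `L` is a minimal fragment of `E₁` (`minFrag_union`). Two different bad sets would be disjoint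
(`minFrag_disjoint`) but both contain `u`: there is at most one bad `L`. If there is none take any `z ∈ M`:
every minimal fragment is touched by `F.erase f` or contains `x`. If `L` is bad, CLAIM: `L ∩ M` is nonempty;
take `z` in it.
Proof of the claim. `N = nbr E₁ L`, `|N| ≤ 2`. Suppose `L ∩ M = ∅`. `Sep.two_nbr`: `u` has two different
neighbours `m₁, m₂ ∈ M` in `E ∪ F`; the edges `{u,m_i}` are not `f` (`x ∈ K`), so they are in `E₁`, and
`m_i ∉ L`: `N = {m₁,m₂} ⊆ M`.
 If `v ∉ L`: `Closed E₁ {u} (L ∩ K)` (an edge from `a ∈ L ∩ K` goes to `b ∈ K ∪ {u,v}`, `b ∈ L ∪ N`, `N ⊆ M`, so `b ∈ L`,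
 `b ≠ v`, so `b = u` or `b ∈ L ∩ K`); `v` is not in it, so by `Conn E₁ 1` it is empty. `two_nbr` for `hs.symm` gives two
 neighbours of `u` in `K`, one of them, `k ≠ x`, is joined to `u` by an edge of `E₁`; `k ∉ L`, so `k ∈ N ⊆ M`,
 contradiction.
 If `v ∈ L`: `Closed E₁ ∅ (K \ L)`: an edge from `a ∈ K \ L` goes to `b ∈ K ∪ {u,v}`; `b ∈ L` would give
 `a ∈ N ⊆ M`; so `b ∉ L`, `b ∈ K \ L`. It contains `x` and not `u`: contradiction to `Conn E₁ 1`.

PROOF of `keep_swapuv`. `f = {u,v} ∈ F`, `E₁ = E ∪ F.erase f`, `CR E₁`, `Conn E₁ 1`. Suppose the minimal fragment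
`L` of `E` is not touched by `F.erase f`. It is touched by `f`, so `u ∈ L` or `v ∈ L`; by symmetry
(`Sep.flip`, `{u,v} = {v,u}`) let `u ∈ L`. `L` is a minimal fragment of `E₁`. `N = nbr E₁ L`, `|N| ≤ 2`,
`R = univ \ (L ∪ N)` nonempty. All neighbours of `u` in `K` or in `M` w.r.t. `E ∪ F` are neighbours w.r.t.
`E₁`, so they are in `L ∪ N`; there are at least two in `K` and two in `M` (`two_nbr`). `Closed E₁ N L`.
 * `v ∈ R`: `four_cover` for `E₁`, `S = N` (`u, v ∉ N`): `A₁ ∋ u, k₁`; `A₃ ∋ u, m₁`; `v` has a neighbour `k' ∈ K` in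
   `E₁` (`two_nbr` for `flip`), `k' ∉ L` (otherwise `v ∈ L ∪ N`), so `A₂ ∋ v, k'`, and `A₄ ∋ v, m'`: contradiction.
 * FACT: if `N ∩ K = ∅` then `K ∩ L` is a fragment of `E₁`: it is nonempty (the `K`-neighbours of `u` are in
   `L ∪ N`), `Closed E₁ {u,v} (K ∩ L)`, and `M` is outside. It is properly contained in `L` (`u ∉ K`), contradicting
   minimality. So `N ∩ K ≠ ∅`, and in the same way `N ∩ M ≠ ∅`. In particular `v ∉ N` (`|N| ≤ 2`).
 * `v ∈ L`: `N = {a, b}`, `a ∈ K`, `b ∈ M`. `R` contains neither `u` nor `v`. If `r ∈ R ∩ K`: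
   `Closed E₁ {a} (R ∩ K)` (edges from `R` do not go to `L`, so not to `u, v`; `N ∩ K = {a}`), contradiction to
   `Reach E₁ {a} r u`. The same for `R ∩ M` with `b`.

PROOF of `nonbridge`. Suppose for all `{x,y} ∈ F`, `x ≠ y`: `¬ Reach (E ∪ F.erase {x,y}) {u,v} x y`. Claim: for every
`G ⊆ F` there is a family `P` of pairwise disjoint nonempty sets closed for `(E ∪ (F \ G), {u,v})` with
`|P| = |G| + 2`. `G = ∅`: `{K, M}` (`Sep.closedK`). Step from `G` to `G ∪ {f}`, `f = {x,y} ∈ F \ G`; `x, y ∉ {u,v}` by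
`hno`. There is `L` closed for `(E ∪ F.erase f, {u,v})`, `x ∈ L`, `y ∉ L`; it is closed for
`E₂ = E ∪ (F \ (G ∪ {f}))`. If `x ∈ A ∈ P`, then `y ∈ A` (`f ∈ F \ G`); replace `A` by `A ∩ L` and `A \ L` (nonempty,
closed for `E₂`: use symmetry of edges). If `x` is in no `A ∈ P`: add `L \ ⋃ P ∋ x` (closed for `E₂`).
With `G = F` we get `|F| + 2 ≤ γ + 1 ≤ |F| + 1` by `CompB E γ`. Contradiction.
-/

namespace Pool.Agent.GRA

open Finset

variable {α : Type*} [Fintype α] [DecidableEq α]


private theorem b6_two {A : Finset α} {a b : α} (ha : a ∈ A) (hb : b ∈ A) (hab : a ≠ b) :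
    2 ≤ A.card := one_lt_card.2 ⟨a, ha, b, hb, hab⟩

private theorem b6_ne {E : Finset (Finset α)} (hE : IsG E) {a b : α}
    (h : ({a, b} : Finset α) ∈ E) : a ≠ b := by
  rintro rfl
  have := hE _ h
  simp at this

/-- the other end of an edge from `K` -/
private theorem b6_edge {E : Finset (Finset α)} {u v : α} {K M : Finset α} (hs : Sep E u v K M)
    {a b : α} (ha : a ∈ K) (h : ({a, b} : Finset α) ∈ E) : b ∈ K ∨ b = u ∨ b = v := by
  rcases hs.edge _ h with h1 | h1
  · have h2 := h1 (show b ∈ ({a, b} : Finset α) by simp)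
    simp only [mem_insert] at h2
    rcases h2 with h2 | h2 | h2
    · exact Or.inr (Or.inl h2)
    · exact Or.inr (Or.inr h2)
    · exact Or.inl h2
  · exfalso
    have h2 := h1 (show a ∈ ({a, b} : Finset α) by simp)
    simp only [mem_insert] at h2
    rcases h2 with h2 | h2 | h2
    · exact hs.uK (h2 ▸ ha)
    · exact hs.vK (h2 ▸ ha)
    · exact disjoint_left.1 hs.disj ha h2

private theorem b6_mem {E F : Finset (Finset α)} {e f : Finset α} (h : e ∈ E ∪ F) (hne : e ≠ f) :
    e ∈ E ∪ F.erase f := by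
  rcases mem_union.1 h with h | h
  · exact mem_union_left _ h
  · exact mem_union_right _ (mem_erase.2 ⟨hne, h⟩)

private theorem b6_sub {E F : Finset (Finset α)} {f : Finset α} : E ∪ F.erase f ⊆ E ∪ F :=
  union_subset_union subset_rfl (erase_subset _ _)

private theorem b6_isG {E F : Finset (Finset α)} (hE : IsG E) (hF : IsG F) : IsG (E ∪ F) := by
  intro e he
  rcases mem_union.1 he with he | he
  · exact hE e he
  · exact hF e he

private theorem b6_isG' {E F : Finset (Finset α)} (hE : IsG E) (hF : IsG F) {f : Finset α} :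
    IsG (E ∪ F.erase f) := fun e he => b6_isG hE hF e (b6_sub he)

private theorem b6_cr {E F : Finset (Finset α)} (hn : 4 ≤ Fintype.card α) (hMC : MC (E ∪ F))
    {f : Finset α} (hf : f.card = 2) : CR (E ∪ F.erase f) := by
  refine (hMC.cr_erase (by omega) hf).mono ?_
  intro e he
  obtain ⟨h1, h2⟩ := mem_erase.1 he
  exact b6_mem h2 h1

private theorem b6_pair {S : Finset α} {a b s t : α} (hS : S = {a, b}) (hs : s ∈ S) (ht : t ∈ S)
    (hst : s ≠ t) : S = {s, t} := by
  have h1 : ({s, t} : Finset α) ⊆ S := by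
    intro r hr
    simp only [mem_insert, mem_singleton] at hr
    rcases hr with rfl | rfl
    · exact hs
    · exact ht
  refine (eq_of_subset_of_card_le h1 ?_).symm
  rw [card_pair hst, hS]
  exact card_le_two

/-- the bad fragment meets the other side -/
private theorem b6_core1 {E F : Finset (Finset α)} (hE : IsG E) (hF : IsG F)
    (hn : 4 ≤ Fintype.card α) (hMC : MC (E ∪ F)) {u v : α} {K M : Finset α}
    (hs : Sep (E ∪ F) u v K M) {x : α} (hx : x ∈ K) (hf : ({x, u} : Finset α) ∈ F)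
    {L : Finset α} (hL : Frag (E ∪ F.erase {x, u}) L) (hxL : x ∉ L) (huL : u ∈ L) :
    ∃ z ∈ M, z ∈ L := by
  have hconn : Conn (E ∪ F.erase {x, u}) 1 :=
    (b6_cr hn hMC (hF _ hf)).conn1 (b6_isG' hE hF) (by omega)
  by_contra hno
  push Not at hno
  obtain ⟨_, a, b, hab, hc, _⟩ := hL
  obtain ⟨S, hS⟩ : ∃ S : Finset α, S = {a, b} := ⟨_, rfl⟩
  rw [← hS] at hc
  -- the separator is in `M`
  have hSM : S ⊆ M := by
    obtain ⟨m₁, hm₁, m₂, hm₂, hne, e1, e2⟩ := hs.two_nbr (b6_isG hE hF) hn hMC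
    have key : ∀ m ∈ M, ({u, m} : Finset α) ∈ E ∪ F → m ∈ S := by
      intro m hm he
      by_contra hmS
      have h1 : ({u, m} : Finset α) ≠ {x, u} := by
        intro h
        have h2 : m ∈ ({x, u} : Finset α) := h ▸ (by simp)
        simp only [mem_insert, mem_singleton] at h2
        rcases h2 with rfl | rfl
        · exact disjoint_left.1 hs.disj hx hm
        · exact hs.uM hm
      exact hno m hm (hc.2 u huL m hmS (b6_mem he h1))
    have h3 := b6_pair hS (key m₁ hm₁ e1) (key m₂ hm₂ e2) hne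
    rw [h3]
    intro r hr
    simp only [mem_insert, mem_singleton] at hr
    rcases hr with rfl | rfl
    · exact hm₁
    · exact hm₂
  have hKS : ∀ k ∈ K, k ∉ S := fun k hk hkS => disjoint_left.1 hs.disj hk (hSM hkS)
  by_cases hv : v ∈ L
  · -- `K \ L` is closed
    have hcl : Closed (E ∪ F.erase {x, u}) ∅ (K \ L) := by
      refine ⟨disjoint_empty_right _, ?_⟩
      intro p hp q _ hpq
      obtain ⟨hpK, hpL⟩ := mem_sdiff.1 hp
      have hqL : q ∉ L := by
        intro hq
        have h1 : ({q, p} : Finset α) ∈ E ∪ F.erase {x, u} := by rw [pair_comm q p]; exact hpq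
        exact hpL (hc.2 q hq p (hKS p hpK) h1)
      rcases b6_edge hs hpK (b6_sub hpq) with h | h | h
      · exact mem_sdiff.2 ⟨h, hqL⟩
      · exact absurd (h ▸ huL) hqL
      · exact absurd (h ▸ hv) hqL
    have h1 := hconn ∅ (by simp) x u (by simp) (by simp) (K \ L) hcl (mem_sdiff.2 ⟨hx, hxL⟩)
    exact hs.uK (mem_sdiff.1 h1).1
  · have hcl : Closed (E ∪ F.erase {x, u}) {u} (L ∩ K) := by
      refine ⟨?_, ?_⟩
      · rw [disjoint_singleton_right]
        exact fun h => hs.uK (mem_inter.1 h).2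
      · intro p hp q hq hpq
        obtain ⟨hpL, hpK⟩ := mem_inter.1 hp
        rcases b6_edge hs hpK (b6_sub hpq) with h | h | h
        · exact mem_inter.2 ⟨hc.2 p hpL q (hKS q h) hpq, h⟩
        · exact absurd (mem_singleton.2 h) hq
        · exfalso
          have h1 : q ∉ S := fun h2 => hs.vM (h ▸ hSM h2)
          exact hv (h ▸ hc.2 p hpL q h1 hpq)
    have hLK : ∀ p ∈ K, p ∉ L := by
      intro p hpK hpL
      have h1 := hconn {u} (by simp) p v (by
        rw [mem_singleton]; rintro rfl; exact hs.uK hpK) (by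
        rw [mem_singleton]; exact hs.ne.symm) (L ∩ K) hcl (mem_inter.2 ⟨hpL, hpK⟩)
      exact hs.vK (mem_inter.1 h1).2
    obtain ⟨k₁, hk₁, k₂, hk₂, hne, e1, e2⟩ := hs.symm.two_nbr (b6_isG hE hF) hn hMC
    have key : ∀ k ∈ K, k ≠ x → ({u, k} : Finset α) ∈ E ∪ F → False := by
      intro k hk hkx he
      have h1 : ({u, k} : Finset α) ≠ {x, u} := by
        intro h
        have h2 : k ∈ ({x, u} : Finset α) := h ▸ (by simp)
        simp only [mem_insert, mem_singleton] at h2
        rcases h2 with rfl | rfl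
        · exact hkx rfl
        · exact hs.uK hk
      exact hLK k hk (hc.2 u huL k (hKS k hk) (b6_mem he h1))
    by_cases h1 : k₁ = x
    · exact key k₂ hk₂ (fun h2 => hne (h1.trans h2.symm)) e2
    · exact key k₁ hk₁ h1 e1

theorem keep_swap1 {E F : Finset (Finset α)} (hE : IsG E) (hF : IsG F)
    (hn : 4 ≤ Fintype.card α) (hMC : MC (E ∪ F)) {u v : α} {K M : Finset α}
    (hs : Sep (E ∪ F) u v K M) {x : α} (hx : x ∈ K) (hf : ({x, u} : Finset α) ∈ F)
    (ht : ∀ L, MinFrag E L → Touch F L) :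
    ∃ z ∈ M, ∀ L, MinFrag E L → Touch (insert {x, z} (F.erase {x, u})) L := by
  have hconn : Conn (E ∪ F.erase {x, u}) 1 :=
    (b6_cr hn hMC (hF _ hf)).conn1 (b6_isG' hE hF) (by omega)
  have hins : ∀ z L, Touch (F.erase {x, u}) L → Touch (insert {x, z} (F.erase {x, u})) L := by
    rintro z L ⟨g, hg, h⟩
    exact ⟨g, mem_insert_of_mem hg, h⟩
  have hxin : ∀ z L, x ∈ L → Touch (insert {x, z} (F.erase {x, u})) L := by
    intro z L h
    exact ⟨{x, z}, mem_insert_self _ _, x, by simp [h]⟩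
  have hbadu : ∀ L, MinFrag E L → ¬ Touch (F.erase {x, u}) L → x ∉ L → u ∈ L := by
    intro L hL hnt hxL
    obtain ⟨g, hg, t, ht'⟩ := ht L hL
    by_cases hgf : g = {x, u}
    · rw [hgf] at ht'
      simp only [mem_inter, mem_insert, mem_singleton] at ht'
      rcases ht' with ⟨rfl | rfl, h2⟩
      · exact absurd h2 hxL
      · exact h2
    · exact absurd ⟨g, mem_erase.2 ⟨hgf, hg⟩, t, ht'⟩ hnt
  by_cases hb : ∃ L, MinFrag E L ∧ ¬ Touch (F.erase {x, u}) L ∧ x ∉ L
  · obtain ⟨L, hL, hnt, hxL⟩ := hb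
    have huL := hbadu L hL hnt hxL
    have hL1 := minFrag_union hL hnt
    obtain ⟨z, hzM, hzL⟩ := b6_core1 hE hF hn hMC hs hx hf hL1.1 hxL huL
    refine ⟨z, hzM, fun L' hL' => ?_⟩
    by_cases h1 : Touch (F.erase {x, u}) L'
    · exact hins z L' h1
    by_cases h2 : x ∈ L'
    · exact hxin z L' h2
    have hu' := hbadu L' hL' h1 h2
    have h3 : L' = L := by
      by_contra hne
      exact disjoint_left.1 (minFrag_disjoint (b6_isG' hE hF) hconn (minFrag_union hL' h1) hL1 hne)
        hu' huL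
    rw [h3]
    exact ⟨{x, z}, mem_insert_self _ _, z, by simp [hzL]⟩
  · push Not at hb
    obtain ⟨z, hz⟩ := hs.M0
    refine ⟨z, hz, fun L hL => ?_⟩
    by_cases h1 : Touch (F.erase {x, u}) L
    · exact hins z L h1
    · exact hxin z L (hb L hL h1)

private theorem b6_fact {E : Finset (Finset α)} {u v : α} {K M : Finset α}
    (hs : Sep E u v K M) {S L : Finset α} (hL : MinFrag E L) (hu : u ∈ L) (hc : Closed E S L)
    {k : α} (hk : k ∈ K) (hk' : k ∈ L ∪ S) : ∃ s ∈ S, s ∈ K := by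
  by_contra hno
  push Not at hno
  have hkL : k ∈ L := by
    rcases mem_union.1 hk' with h | h
    · exact h
    · exact absurd hk (hno k h)
  have hfr : Frag E (K ∩ L) := by
    refine ⟨⟨k, mem_inter.2 ⟨hk, hkL⟩⟩, u, v, hs.ne, ⟨?_, ?_⟩, ?_⟩
    · rw [disjoint_left]
      intro t ht ht'
      simp only [mem_insert, mem_singleton] at ht'
      rcases ht' with rfl | rfl
      · exact hs.uK (mem_inter.1 ht).1
      · exact hs.vK (mem_inter.1 ht).1
    · intro p hp q hq hpq
      obtain ⟨hpK, hpL⟩ := mem_inter.1 hp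
      simp only [mem_insert, mem_singleton, not_or] at hq
      rcases b6_edge hs hpK hpq with h | h | h
      · exact mem_inter.2 ⟨h, hc.2 p hpL q (fun h2 => hno q h2 h) hpq⟩
      · exact absurd h hq.1
      · exact absurd h hq.2
    · intro h
      obtain ⟨m, hm⟩ := hs.M0
      have h1 : m ∈ insert u (insert v (K ∩ L)) := h ▸ mem_univ m
      simp only [mem_insert, mem_inter] at h1
      rcases h1 with rfl | rfl | h1
      · exact hs.uM hm
      · exact hs.vM hm
      · exact disjoint_left.1 hs.disj h1.1 hm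
  have h1 := hL.2 _ hfr inter_subset_right
  have h2 : u ∈ K ∩ L := by rw [h1]; exact hu
  exact hs.uK (mem_inter.1 h2).1

private theorem b6_fact2 {E : Finset (Finset α)} (hconn : Conn E 1) {u v : α} {K M : Finset α}
    (hs : Sep E u v K M) {S L : Finset α} (hu : u ∈ L) (hv : v ∈ L) (hc : Closed E S L)
    {s t : α} (hS : S = {s, t}) (ht : t ∈ M) {r : α} (hr : r ∈ K) (hrL : r ∉ L)
    (hrS : r ∉ S) : False := by
  have huS : u ∉ S := disjoint_left.1 hc.1 hu
  have hsS : s ∈ S := by rw [hS]; simp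
  have hcl : Closed E {s} (K \ (L ∪ S)) := by
    refine ⟨?_, ?_⟩
    · rw [disjoint_singleton_right]
      intro h
      exact (mem_sdiff.1 h).2 (mem_union_right _ hsS)
    · intro p hp q hq hpq
      obtain ⟨hpK, hpLS⟩ := mem_sdiff.1 hp
      rw [mem_union, not_or] at hpLS
      have hqL : q ∉ L := by
        intro h
        have h1 : ({q, p} : Finset α) ∈ E := by rw [pair_comm q p]; exact hpq
        exact hpLS.1 (hc.2 q h p hpLS.2 h1)
      rcases b6_edge hs hpK hpq with h | h | h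
      · refine mem_sdiff.2 ⟨h, ?_⟩
        rw [mem_union, not_or]
        refine ⟨hqL, ?_⟩
        rw [hS]
        simp only [mem_insert, mem_singleton, not_or]
        refine ⟨fun h1 => hq (mem_singleton.2 h1), ?_⟩
        rintro rfl
        exact disjoint_left.1 hs.disj h ht
      · exact absurd (h ▸ hu) hqL
      · exact absurd (h ▸ hv) hqL
  have h1 := hconn {s} (by simp) r u (by
    rw [mem_singleton]; rintro rfl; exact hrS hsS) (by
    rw [mem_singleton]; rintro rfl; exact huS hsS) _ hcl (mem_sdiff.2 ⟨hr, by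
      rw [mem_union, not_or]; exact ⟨hrL, hrS⟩⟩)
  exact hs.uK (mem_sdiff.1 h1).1

private theorem b6_core2 {E F : Finset (Finset α)} (hE : IsG E) (hF : IsG F)
    (hn : 4 ≤ Fintype.card α) (hMC : MC (E ∪ F)) {u v : α} {K M : Finset α}
    (hs : Sep (E ∪ F) u v K M) (hf : ({u, v} : Finset α) ∈ F)
    {L : Finset α} (hL : MinFrag E L) (hnt : ¬ Touch (F.erase {u, v}) L) (hu : u ∈ L) :
    False := by
  have hG1 : IsG (E ∪ F.erase {u, v}) := b6_isG' hE hF
  have hCR : CR (E ∪ F.erase {u, v}) := b6_cr hn hMC (hF _ hf)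
  have hconn : Conn (E ∪ F.erase {u, v}) 1 := hCR.conn1 hG1 (by omega)
  have hs1 : Sep (E ∪ F.erase {u, v}) u v K M := hs.anti b6_sub
  have hL1 := minFrag_union hL hnt
  obtain ⟨_, a, b, hab, hc, hR⟩ := hL1.1
  obtain ⟨S, hS⟩ : ∃ S : Finset α, S = {a, b} := ⟨_, rfl⟩
  rw [← hS] at hc
  have huS : u ∉ S := disjoint_left.1 hc.1 hu
  have hG : IsG (E ∪ F) := b6_isG hE hF
  -- neighbours
  obtain ⟨m, hm, -, -, -, em, -⟩ := hs.two_nbr hG hn hMC
  obtain ⟨k, hk, -, -, -, ek, -⟩ := hs.symm.two_nbr hG hn hMC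
  obtain ⟨m', hm', -, -, -, em', -⟩ := hs.flip.two_nbr hG hn hMC
  obtain ⟨k', hk', -, -, -, ek', -⟩ := hs.flip.symm.two_nbr hG hn hMC
  have hne : ∀ p q : α, q ≠ u → q ≠ v → ({p, q} : Finset α) ≠ {u, v} := by
    intro p q h1 h2 h
    have h3 : q ∈ ({u, v} : Finset α) := h ▸ (by simp)
    simp only [mem_insert, mem_singleton] at h3
    rcases h3 with h3 | h3
    · exact h1 h3
    · exact h2 h3
  have kne : ∀ p ∈ K, p ≠ u ∧ p ≠ v := by
    intro p hp
    exact ⟨fun h => hs.uK (h ▸ hp), fun h => hs.vK (h ▸ hp)⟩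
  have mne : ∀ p ∈ M, p ≠ u ∧ p ≠ v := by
    intro p hp
    exact ⟨fun h => hs.uM (h ▸ hp), fun h => hs.vM (h ▸ hp)⟩
  have em1 := b6_mem em (hne u m (mne m hm).1 (mne m hm).2)
  have ek1 := b6_mem ek (hne u k (kne k hk).1 (kne k hk).2)
  have em1' := b6_mem em' (hne v m' (mne m' hm').1 (mne m' hm').2)
  have ek1' := b6_mem ek' (hne v k' (kne k' hk').1 (kne k' hk').2)
  have hLS : ∀ q, ({u, q} : Finset α) ∈ E ∪ F.erase {u, v} → q ∈ L ∪ S := by
    intro q hq
    by_contra h
    rw [mem_union, not_or] at h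
    exact h.1 (hc.2 u hu q h.2 hq)
  have hkLS := hLS k ek1
  have hmLS := hLS m em1
  obtain ⟨s, hsS, hsK⟩ := b6_fact hs1 hL1 hu hc hk hkLS
  obtain ⟨t, htS, htM⟩ := b6_fact hs1.symm hL1 hu hc hm hmLS
  have hst : s ≠ t := fun h => disjoint_left.1 hs.disj hsK (h ▸ htM)
  have hSst := b6_pair hS hsS htS hst
  have hvS : v ∉ S := by
    rw [hSst]
    simp only [mem_insert, mem_singleton, not_or]
    exact ⟨fun h => hs.vK (h ▸ hsK), fun h => hs.vM (h ▸ htM)⟩
  by_cases hv : v ∈ L
  · obtain ⟨r, hr⟩ : ∃ r, r ∉ insert a (insert b L) := by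
      by_contra h
      push Not at h
      exact hR (eq_univ_of_forall h)
    simp only [mem_insert, not_or] at hr
    have hrS : r ∉ S := by
      rw [hS]
      simp only [mem_insert, mem_singleton, not_or]
      exact ⟨hr.1, hr.2.1⟩
    rcases hs.top r with h | h | h | h
    · exact b6_fact2 hconn hs1 hu hv hc hSst htM h hr.2.2 hrS
    · exact b6_fact2 hconn hs1.symm hu hv hc (hSst.trans (pair_comm s t)) hsK h hr.2.2 hrS
    · exact hr.2.2 (h ▸ hu)
    · exact hr.2.2 (h ▸ hv)
  · have hnL : ∀ q, ({v, q} : Finset α) ∈ E ∪ F.erase {u, v} → q ∉ L := by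
      intro q hq hqL
      have h1 : ({q, v} : Finset α) ∈ E ∪ F.erase {u, v} := by rw [pair_comm q v]; exact hq
      exact hv (hc.2 q hqL v hvS h1)
    have hScard : S.card ≤ 2 := by rw [hS]; exact card_le_two
    rcases four_cover hG1 hCR hs1 hScard huS hvS hc with h | h | h | h
    · have := b6_two (A := insert u (insert v K) ∩ (L ∪ S)) (a := u) (b := k)
        (mem_inter.2 ⟨by simp, mem_union_left _ hu⟩) (mem_inter.2 ⟨by simp [hk], hkLS⟩)
        (kne k hk).1.symm
      omega
    · have := b6_two (A := insert u (insert v K) ∩ (univ \ L)) (a := v) (b := k')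
        (mem_inter.2 ⟨by simp, by simp [hv]⟩) (mem_inter.2 ⟨by simp [hk'], by simp [hnL k' ek1']⟩)
        (kne k' hk').2.symm
      omega
    · have := b6_two (A := insert u (insert v M) ∩ (L ∪ S)) (a := u) (b := m)
        (mem_inter.2 ⟨by simp, mem_union_left _ hu⟩) (mem_inter.2 ⟨by simp [hm], hmLS⟩)
        (mne m hm).1.symm
      omega
    · have := b6_two (A := insert u (insert v M) ∩ (univ \ L)) (a := v) (b := m')
        (mem_inter.2 ⟨by simp, by simp [hv]⟩) (mem_inter.2 ⟨by simp [hm'], by simp [hnL m' em1']⟩)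
        (mne m' hm').2.symm
      omega

theorem keep_swapuv {E F : Finset (Finset α)} (hE : IsG E) (hF : IsG F)
    (hn : 4 ≤ Fintype.card α) (hMC : MC (E ∪ F)) {u v : α} {K M : Finset α}
    (hs : Sep (E ∪ F) u v K M) (hf : ({u, v} : Finset α) ∈ F)
    (ht : ∀ L, MinFrag E L → Touch F L) :
    ∀ L, MinFrag E L → Touch (F.erase {u, v}) L := by
  intro L hL
  by_contra hnt
  obtain ⟨g, hg, t, ht'⟩ := ht L hL
  by_cases hgf : g = {u, v}
  · rw [hgf] at ht'
    simp only [mem_inter, mem_insert, mem_singleton] at ht'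
    rcases ht' with ⟨rfl | rfl, h2⟩
    · exact b6_core2 hE hF hn hMC hs hf hL hnt h2
    · have e : ({u, t} : Finset α) = {t, u} := pair_comm u t
      rw [e] at hf hnt
      exact b6_core2 hE hF hn hMC hs.flip hf hL hnt h2
  · exact hnt ⟨g, mem_erase.2 ⟨hgf, hg⟩, t, ht'⟩

private theorem b6_family {E F : Finset (Finset α)} (hF : IsG F) {u v : α} {K M : Finset α}
    (hs : Sep (E ∪ F) u v K M) (hno : ∀ f ∈ F, u ∉ f ∧ v ∉ f)
    (hb : ∀ x y, x ≠ y → ({x, y} : Finset α) ∈ F → ¬ Reach (E ∪ F.erase {x, y}) {u, v} x y)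
    (G : Finset (Finset α)) : G ⊆ F → ∃ P : Finset (Finset α),
      (∀ A ∈ P, A.Nonempty ∧ Closed (E ∪ (F \ G)) {u, v} A) ∧
      (∀ A ∈ P, ∀ B ∈ P, A ≠ B → Disjoint A B) ∧ P.card = G.card + 2 := by
  induction G using Finset.induction_on with
  | empty =>
    intro _
    have hKM : K ≠ M := by
      rintro rfl
      obtain ⟨k, hk⟩ := hs.K0
      exact disjoint_left.1 hs.disj hk hk
    refine ⟨{K, M}, ?_, ?_, ?_⟩
    · intro A hA
      rw [sdiff_empty]
      simp only [mem_insert, mem_singleton] at hA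
      rcases hA with rfl | rfl
      · exact ⟨hs.K0, hs.closedK⟩
      · exact ⟨hs.M0, hs.symm.closedK⟩
    · intro A hA B hB hAB
      simp only [mem_insert, mem_singleton] at hA hB
      rcases hA with rfl | rfl <;> rcases hB with rfl | rfl
      · exact absurd rfl hAB
      · exact hs.disj
      · exact hs.disj.symm
      · exact absurd rfl hAB
    · rw [card_pair hKM, card_empty]
  | insert f G hfG ih =>
    intro hGF
    obtain ⟨P, hP, hPd, hPc⟩ := ih fun g hg => hGF (mem_insert_of_mem hg)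
    have hfF : f ∈ F := hGF (mem_insert_self _ _)
    obtain ⟨x, y, hxy, rfl⟩ := card_eq_two.1 (hF f hfF)
    obtain ⟨hu, hv⟩ := hno _ hfF
    simp only [mem_insert, mem_singleton, not_or] at hu hv
    have hyuv : y ∉ ({u, v} : Finset α) := by
      simp only [mem_insert, mem_singleton, not_or]
      exact ⟨fun h => hu.2 h.symm, fun h => hv.2 h.symm⟩
    have hxuv : x ∉ ({u, v} : Finset α) := by
      simp only [mem_insert, mem_singleton, not_or]
      exact ⟨fun h => hu.1 h.symm, fun h => hv.1 h.symm⟩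
    have hnr := hb x y hxy hfF
    unfold Reach at hnr
    push Not at hnr
    obtain ⟨L, hL, hxL, hyL⟩ := hnr
    have hsub1 : E ∪ (F \ insert {x, y} G) ⊆ E ∪ F.erase {x, y} := by
      apply union_subset_union subset_rfl
      intro g hg
      obtain ⟨h1, h2⟩ := mem_sdiff.1 hg
      exact mem_erase.2 ⟨fun h => h2 (h ▸ mem_insert_self _ _), h1⟩
    have hsub2 : E ∪ (F \ insert {x, y} G) ⊆ E ∪ (F \ G) := by
      apply union_subset_union subset_rfl
      intro g hg
      obtain ⟨h1, h2⟩ := mem_sdiff.1 hg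
      exact mem_sdiff.2 ⟨h1, fun h => h2 (mem_insert_of_mem h)⟩
    have hL2 : Closed (E ∪ (F \ insert {x, y} G)) {u, v} L := hL.anti hsub1
    have hP2 : ∀ A ∈ P, Closed (E ∪ (F \ insert {x, y} G)) {u, v} A :=
      fun A hA => (hP A hA).2.anti hsub2
    have hcard : (insert {x, y} G).card + 2 = P.card + 1 := by
      rw [card_insert_of_notMem hfG, hPc]
    by_cases hA : ∃ A ∈ P, x ∈ A
    · obtain ⟨A, hAP, hxA⟩ := hA
      have hyA : y ∈ A := (hP A hAP).2.2 x hxA y hyuv
        (mem_union_right _ (mem_sdiff.2 ⟨hfF, hfG⟩))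
      have hAc := hP2 A hAP
      have c1 : Closed (E ∪ (F \ insert {x, y} G)) {u, v} (A ∩ L) := by
        refine ⟨disjoint_of_subset_left inter_subset_left hAc.1, ?_⟩
        intro p hp q hq hpq
        obtain ⟨h1, h2⟩ := mem_inter.1 hp
        exact mem_inter.2 ⟨hAc.2 p h1 q hq hpq, hL2.2 p h2 q hq hpq⟩
      have c2 : Closed (E ∪ (F \ insert {x, y} G)) {u, v} (A \ L) := by
        refine ⟨disjoint_of_subset_left sdiff_subset hAc.1, ?_⟩
        intro p hp q hq hpq
        obtain ⟨h1, h2⟩ := mem_sdiff.1 hp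
        refine mem_sdiff.2 ⟨hAc.2 p h1 q hq hpq, fun h3 => ?_⟩
        have h4 : ({q, p} : Finset α) ∈ E ∪ (F \ insert {x, y} G) := by rw [pair_comm q p]; exact hpq
        exact h2 (hL2.2 q h3 p (disjoint_left.1 hAc.1 h1) h4)
      have n1 : x ∈ A ∩ L := mem_inter.2 ⟨hxA, hxL⟩
      have n2 : y ∈ A \ L := mem_sdiff.2 ⟨hyA, hyL⟩
      have hdis : ∀ B ∈ P.erase A, Disjoint A B := fun B hB =>
        hPd A hAP B (mem_erase.1 hB).2 (mem_erase.1 hB).1.symm
      have d12 : Disjoint (A ∩ L) (A \ L) := by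
        rw [disjoint_left]
        intro p hp hp'
        exact (mem_sdiff.1 hp').2 (mem_inter.1 hp).2
      have m2 : A \ L ∉ P.erase A := fun h =>
        disjoint_left.1 (hdis _ h) (mem_sdiff.1 n2).1 n2
      have m1 : A ∩ L ∉ insert (A \ L) (P.erase A) := by
        intro h
        rcases mem_insert.1 h with h | h
        · have : x ∈ A \ L := h ▸ n1
          exact (mem_sdiff.1 this).2 hxL
        · exact disjoint_left.1 (hdis _ h) hxA n1
      refine ⟨insert (A ∩ L) (insert (A \ L) (P.erase A)), ?_, ?_, ?_⟩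
      · intro B hB
        simp only [mem_insert] at hB
        rcases hB with rfl | rfl | hB
        · exact ⟨⟨x, n1⟩, c1⟩
        · exact ⟨⟨y, n2⟩, c2⟩
        · exact ⟨(hP B (mem_erase.1 hB).2).1, hP2 B (mem_erase.1 hB).2⟩
      · intro B hB C hC hBC
        simp only [mem_insert] at hB hC
        rcases hB with rfl | rfl | hB <;> rcases hC with rfl | rfl | hC
        · exact absurd rfl hBC
        · exact d12
        · exact disjoint_of_subset_left inter_subset_left (hdis C hC)
        · exact d12.symm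
        · exact absurd rfl hBC
        · exact disjoint_of_subset_left sdiff_subset (hdis C hC)
        · exact (disjoint_of_subset_left inter_subset_left (hdis B hB)).symm
        · exact (disjoint_of_subset_left sdiff_subset (hdis B hB)).symm
        · exact hPd B (mem_erase.1 hB).2 C (mem_erase.1 hC).2 hBC
      · rw [card_insert_of_notMem m1, card_insert_of_notMem m2, card_erase_of_mem hAP, hcard]
        have : 0 < P.card := card_pos.2 ⟨A, hAP⟩
        omega
    · push Not at hA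
      have n1 : x ∈ L \ P.biUnion id := by
        refine mem_sdiff.2 ⟨hxL, fun h => ?_⟩
        obtain ⟨A, hAP, hxA⟩ := mem_biUnion.1 h
        exact hA A hAP hxA
      have c1 : Closed (E ∪ (F \ insert {x, y} G)) {u, v} (L \ P.biUnion id) := by
        refine ⟨disjoint_of_subset_left sdiff_subset hL2.1, ?_⟩
        intro p hp q hq hpq
        obtain ⟨h1, h2⟩ := mem_sdiff.1 hp
        refine mem_sdiff.2 ⟨hL2.2 p h1 q hq hpq, fun h3 => ?_⟩
        obtain ⟨A, hAP, hqA⟩ := mem_biUnion.1 h3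
        have h4 : ({q, p} : Finset α) ∈ E ∪ (F \ insert {x, y} G) := by rw [pair_comm q p]; exact hpq
        exact h2 (mem_biUnion.2 ⟨A, hAP, (hP2 A hAP).2 q hqA p (disjoint_left.1 hL2.1 h1) h4⟩)
      have hdis : ∀ B ∈ P, Disjoint (L \ P.biUnion id) B := by
        intro B hB
        rw [disjoint_left]
        intro p hp hpB
        exact (mem_sdiff.1 hp).2 (mem_biUnion.2 ⟨B, hB, hpB⟩)
      have m1 : L \ P.biUnion id ∉ P := fun h => disjoint_left.1 (hdis _ h) n1 n1
      refine ⟨insert (L \ P.biUnion id) P, ?_, ?_, ?_⟩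
      · intro B hB
        rcases mem_insert.1 hB with rfl | hB
        · exact ⟨⟨x, n1⟩, c1⟩
        · exact ⟨(hP B hB).1, hP2 B hB⟩
      · intro B hB C hC hBC
        rcases mem_insert.1 hB with rfl | hB <;> rcases mem_insert.1 hC with rfl | hC
        · exact absurd rfl hBC
        · exact hdis C hC
        · exact (hdis B hB).symm
        · exact hPd B hB C hC hBC
      · rw [card_insert_of_notMem m1, hcard]

theorem nonbridge {E F : Finset (Finset α)} (hF : IsG F) {γ : ℕ} (hc : CompB E γ)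
    (hγ : γ ≤ F.card) {u v : α} {K M : Finset α} (hs : Sep (E ∪ F) u v K M)
    (hno : ∀ f ∈ F, u ∉ f ∧ v ∉ f) :
    ∃ x y, x ≠ y ∧ ({x, y} : Finset α) ∈ F ∧ Reach (E ∪ F.erase {x, y}) {u, v} x y := by
  by_contra hcon
  push Not at hcon
  obtain ⟨P, hP, hPd, hPc⟩ := b6_family hF hs hno hcon F subset_rfl
  have h1 := hc u v hs.ne P (fun A hA => ⟨(hP A hA).1, (hP A hA).2.anti subset_union_left⟩) hPd
  omega

end Pool.Agent.GRA
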