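import Pool.Agent.GRA.B5
import Pool.Agent.GRA.B6

/-!
# GRA/B7: phase B, from M-connected to 3-connected with the same number of added pairs

PROOF of `step_B`. `¬ Conn (E ∪ F) 2`; `Conn (E ∪ F) 1` (`MC.cr`, `CR.conn1`), `sep_of_not_conn`: `u, v, K, M`. It is
enough to find `F'` with `IsG F'`, `F'.card = F.card`, `MC (E ∪ F')`, all minimal fragments of `E` touched,
`Reach (E ∪ F) S a b → Reach (E ∪ F') S a b` for all `|S| ≤ 2`, and some `x ∈ K`, `z ∈ M` with
`Reach (E ∪ F') {u,v} x z` (by `not_reach_cross` the triple `({u,v}, x, z)` is no longer counted in `pot`, and no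
new triple is counted: `pot` decreases). No pair `{x,z}`, `x ∈ K`, `z ∈ M` is in `E ∪ F` (`Sep.edge`).
Case 1: `{u,v} ∈ F`. Take `x ∈ K`, `z ∈ M`, `F' = insert {x,z} (F.erase {u,v})`; `E ∪ F' ⊇ (E ∪ F).erase {u,v}`:
`swapuv_MC`, `swapuv_reach`, `keep_swapuv`, all with `mono`. `|F'| = |F|`.
Case 2: some `f ∈ F`, `f ≠ {u,v}`, contains `u` or `v`. By `Sep.flip` let `f = {x,u}`, `x ≠ v`; by `Sep.symm` let
`x ∈ K`. `keep_swap1` gives `z ∈ M`; `F' = insert {x,z} (F.erase {x,u})`, `E ∪ F' ⊇ insert {x,z} ((E ∪ F).erase {x,u})`: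
`swap1_MC`, `swap1_reach`.
Case 3: no `f ∈ F` contains `u` or `v`. `nonbridge` gives `{x1,y1} ∈ F`, `Reach (E ∪ F.erase {x1,y1}) {u,v} x1 y1`. By
`Sep.edge`, `x1, y1 ∉ {u,v}`, and symmetry let `x1, y1 ∈ K`. `M` is a fragment of `E` (closed for
`(E ∪ F, {u,v})`, hence for `E`; `K` is outside); a minimal fragment inside `M` (`exists_minFrag`) is
touched by some `f₂ = {x2,y2} ∈ F` with `x2 ∈ M`, so `y2 ∈ M` (`Sep.edge`, `u, v ∉ f₂`). `f₂ ≠ f₁`. `double_reach` for
`E ∪ F` gives one of the two variants; by exchanging the names `x2, y2` let it be `dbl (E ∪ F) x1 y1 x2 y2`.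
`F' = insert {x1,x2} (insert {y1,y2} ((F.erase {x1,y1}).erase {x2,y2}))`, `E ∪ F' ⊇ dbl (E ∪ F) x1 y1 x2 y2`;
`double_MC`. `|F'| = |F|` (the two new pairs are different and not in `F`). Touching: the ends of the removed
pairs are ends of the new pairs. Reachability for `S ⊉ {u,v}`: `double_reach`. For `S = {u,v}`: by
`reach_of_edges` it suffices that `x1, y1` and `x2, y2` are mutually reachable in `E ∪ F'` minus `{u,v}`: if `L` is
closed for `(E ∪ F', {u,v})`, then `L ∩ K` is closed for `(E ∪ F.erase {x1,y1}, {u,v})` (edges at a vertex of `K` are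
not `{x2,y2}`), so `x1 ∈ L` implies `y1 ∈ L`: `Reach (E ∪ F') {u,v} x1 y1`; with the edges `{x1,x2}`, `{y1,y2}`
(`reach_edge`, `Reach.symm`, `Reach.trans`): `x2 → x1 → y1 → y2`. And `Reach (E ∪ F') {u,v} x1 x2` is the gain.

PROOF of `phaseB`: strong induction on `pot (E ∪ F)`.
-/

namespace Pool.Agent.GRA

open Finset

variable {α : Type*} [Fintype α] [DecidableEq α]

private theorem b7_cross {G : Finset (Finset α)} {u v : α} {K M : Finset α} (hs : Sep G u v K M)
    {x z : α} (hx : x ∈ K) (hz : z ∈ M) : ({x, z} : Finset α) ∉ G := by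
  intro h
  rcases hs.edge _ h with h1 | h1
  · have h2 := h1 (show z ∈ ({x, z} : Finset α) by simp)
    rcases mem_insert.1 h2 with rfl | h2
    · exact hs.uM hz
    rcases mem_insert.1 h2 with rfl | h2
    · exact hs.vM hz
    exact disjoint_left.1 hs.disj h2 hz
  · have h2 := h1 (show x ∈ ({x, z} : Finset α) by simp)
    rcases mem_insert.1 h2 with rfl | h2
    · exact hs.uK hx
    rcases mem_insert.1 h2 with rfl | h2
    · exact hs.vK hx
    exact disjoint_left.1 hs.disj hx h2

private theorem b7_ne {G : Finset (Finset α)} {u v : α} {K M : Finset α} (hs : Sep G u v K M)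
    {x z : α} (hx : x ∈ K) (hz : z ∈ M) : x ≠ z := by
  rintro rfl
  exact disjoint_left.1 hs.disj hx hz

private theorem b7_notK {G : Finset (Finset α)} {u v : α} {K M : Finset α} (hs : Sep G u v K M)
    {x : α} (hx : x ∈ K) : x ∉ ({u, v} : Finset α) := by
  intro h
  rcases mem_insert.1 h with rfl | h
  · exact hs.uK hx
  · rw [mem_singleton.1 h] at hx
    exact hs.vK hx

/-- an edge at a vertex of `K` which avoids the separator stays in `K` -/
private theorem b7_stay {G : Finset (Finset α)} {u v : α} {K M : Finset α} (hs : Sep G u v K M)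
    {a b : α} (ha : a ∈ K) (h : ({a, b} : Finset α) ∈ G) (hb : b ∉ ({u, v} : Finset α)) :
    b ∈ K := by
  simp only [mem_insert, mem_singleton, not_or] at hb
  rcases hs.top b with h1 | h1 | h1 | h1
  · exact h1
  · exact absurd h (b7_cross hs ha h1)
  · exact absurd h1 hb.1
  · exact absurd h1 hb.2

/-- Data of an improvement. -/
private def B7Good (E : Finset (Finset α)) (γ : ℕ) (G : Finset (Finset α)) : Prop :=
  ∃ F' : Finset (Finset α), IsG F' ∧ F'.card = γ ∧ MC (E ∪ F') ∧
      (∀ L, MinFrag E L → Touch F' L) ∧ pot (E ∪ F') < pot G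

private theorem b7_gain {E G : Finset (Finset α)} {γ : ℕ} {u v : α} {K M : Finset α}
    (hs : Sep G u v K M) {F' : Finset (Finset α)} (h1 : IsG F') (h2 : F'.card = γ)
    (h3 : MC (E ∪ F')) (h4 : ∀ L, MinFrag E L → Touch F' L)
    (h5 : ∀ S : Finset α, S.card ≤ 2 → ∀ a b, Reach G S a b → Reach (E ∪ F') S a b)
    {x z : α} (hx : x ∈ K) (hz : z ∈ M) (h6 : Reach (E ∪ F') {u, v} x z) : B7Good E γ G := by
  classical
  refine ⟨F', h1, h2, h3, h4, ?_⟩
  unfold pot
  apply card_lt_card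
  rw [ssubset_iff_of_subset]
  · refine ⟨({u, v}, x, z), ?_, ?_⟩
    · rw [mem_filter]
      refine ⟨mem_univ _, ?_, not_reach_cross hs hx hz⟩
      exact card_le_two
    · rw [mem_filter]
      exact fun h => h.2.2 h6
  · intro t ht
    rw [mem_filter] at ht ⊢
    exact ⟨mem_univ _, ht.2.1, fun h => ht.2.2 (h5 _ ht.2.1 _ _ h)⟩

private theorem b7_touch_mono {F F' : Finset (Finset α)} (h : F ⊆ F') {L : Finset α}
    (ht : Touch F L) : Touch F' L := by
  obtain ⟨f, hf, hfL⟩ := ht
  exact ⟨f, h hf, hfL⟩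

private theorem b7_case1 {E F : Finset (Finset α)} (hE : IsG E) (hn : 4 ≤ Fintype.card α)
    {γ : ℕ} (hF : IsG F) (hFc : F.card = γ) (hMC : MC (E ∪ F))
    (ht : ∀ L, MinFrag E L → Touch F L) {u v : α} {K M : Finset α}
    (hs : Sep (E ∪ F) u v K M) (hf : ({u, v} : Finset α) ∈ F) : B7Good E γ (E ∪ F) := by
  have hG : IsG (E ∪ F) := fun e he => (mem_union.1 he).elim (hE e) (hF e)
  obtain ⟨x, hx⟩ := hs.K0
  obtain ⟨z, hz⟩ := hs.M0
  have hsub : (E ∪ F).erase {u, v} ⊆ E ∪ insert {x, z} (F.erase {u, v}) := by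
    intro e he
    obtain ⟨h1, h2⟩ := mem_erase.1 he
    rcases mem_union.1 h2 with h2 | h2
    · exact mem_union_left _ h2
    · exact mem_union_right _ (mem_insert_of_mem (mem_erase.2 ⟨h1, h2⟩))
  have hnot : ({x, z} : Finset α) ∉ F.erase {u, v} := fun h =>
    b7_cross hs hx hz (mem_union_right _ (mem_erase.1 h).2)
  refine b7_gain hs (F' := insert {x, z} (F.erase {u, v})) ?_ ?_ ?_ ?_ ?_ hx hz ?_
  · intro e he
    rcases mem_insert.1 he with rfl | he
    · exact card_pair (b7_ne hs hx hz)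
    · exact hF e (mem_erase.1 he).2
  · rw [card_insert_of_notMem hnot, card_erase_of_mem hf]
    have : 0 < F.card := card_pos.2 ⟨_, hf⟩
    omega
  · exact (swapuv_MC hG hn hMC hs).mono hsub
  · intro L hL
    exact b7_touch_mono (subset_insert _ _) (keep_swapuv hE hF hn hMC hs hf ht L hL)
  · intro S hS a b hab
    exact (swapuv_reach hG hn hMC hs hS hab).mono hsub
  · refine reach_edge (mem_union_right _ (mem_insert_self _ _)) ?_
    have := b7_notK hs.symm hz
    exact this

private theorem b7_case2 {E F : Finset (Finset α)} (hE : IsG E) (hn : 4 ≤ Fintype.card α)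
    {γ : ℕ} (hF : IsG F) (hFc : F.card = γ) (hMC : MC (E ∪ F))
    (ht : ∀ L, MinFrag E L → Touch F L) {u v : α} {K M : Finset α}
    (hs : Sep (E ∪ F) u v K M) {x : α} (hx : x ∈ K) (hf : ({x, u} : Finset α) ∈ F) :
    B7Good E γ (E ∪ F) := by
  have hG : IsG (E ∪ F) := fun e he => (mem_union.1 he).elim (hE e) (hF e)
  obtain ⟨z, hz, hzt⟩ := keep_swap1 hE hF hn hMC hs hx hf ht
  have hsub : insert {x, z} ((E ∪ F).erase {x, u}) ⊆ E ∪ insert {x, z} (F.erase {x, u}) := by
    intro e he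
    rcases mem_insert.1 he with rfl | he
    · exact mem_union_right _ (mem_insert_self _ _)
    obtain ⟨h1, h2⟩ := mem_erase.1 he
    rcases mem_union.1 h2 with h2 | h2
    · exact mem_union_left _ h2
    · exact mem_union_right _ (mem_insert_of_mem (mem_erase.2 ⟨h1, h2⟩))
  have hnot : ({x, z} : Finset α) ∉ F.erase {x, u} := fun h =>
    b7_cross hs hx hz (mem_union_right _ (mem_erase.1 h).2)
  refine b7_gain hs (F' := insert {x, z} (F.erase {x, u})) ?_ ?_ ?_ hzt ?_ hx hz ?_
  · intro e he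
    rcases mem_insert.1 he with rfl | he
    · exact card_pair (b7_ne hs hx hz)
    · exact hF e (mem_erase.1 he).2
  · rw [card_insert_of_notMem hnot, card_erase_of_mem hf]
    have : 0 < F.card := card_pos.2 ⟨_, hf⟩
    omega
  · exact (swap1_MC hG hn hMC hs hx hz).mono hsub
  · intro S hS a b hab
    exact (swap1_reach hG hn hMC hs hx hz hS hab).mono hsub
  · exact reach_edge (mem_union_right _ (mem_insert_self _ _)) (b7_notK hs.symm hz)

private theorem b7_case3b {E F : Finset (Finset α)} (hE : IsG E) (hn : 4 ≤ Fintype.card α)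
    {γ : ℕ} (hF : IsG F) (hFc : F.card = γ) (hMC : MC (E ∪ F))
    (ht : ∀ L, MinFrag E L → Touch F L) {u v : α} {K M : Finset α}
    (hs : Sep (E ∪ F) u v K M) {x1 y1 x2 y2 : α} (hx1 : x1 ∈ K) (hy1 : y1 ∈ K) (h1 : x1 ≠ y1)
    (hx2 : x2 ∈ M) (hy2 : y2 ∈ M) (h2 : x2 ≠ y2) (hf1 : ({x1, y1} : Finset α) ∈ F)
    (hf2 : ({x2, y2} : Finset α) ∈ F) (hr : Reach (E ∪ F.erase {x1, y1}) {u, v} x1 y1)
    (hreach : ∀ S : Finset α, S.card ≤ 2 → ¬ (u ∈ S ∧ v ∈ S) → ∀ a b, Reach (E ∪ F) S a b →
      Reach (dbl (E ∪ F) x1 y1 x2 y2) S a b) : B7Good E γ (E ∪ F) := by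
  have hG : IsG (E ∪ F) := fun e he => (mem_union.1 he).elim (hE e) (hF e)
  set F' : Finset (Finset α) :=
    insert {x1, x2} (insert {y1, y2} ((F.erase {x1, y1}).erase {x2, y2})) with hF'
  have hsub : dbl (E ∪ F) x1 y1 x2 y2 ⊆ E ∪ F' := by
    intro e he
    unfold dbl at he
    rcases mem_insert.1 he with rfl | he
    · exact mem_union_right _ (mem_insert_self _ _)
    rcases mem_insert.1 he with rfl | he
    · exact mem_union_right _ (mem_insert_of_mem (mem_insert_self _ _))
    obtain ⟨a1, a2⟩ := mem_erase.1 he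
    obtain ⟨a3, a4⟩ := mem_erase.1 a2
    rcases mem_union.1 a4 with a4 | a4
    · exact mem_union_left _ a4
    · exact mem_union_right _ (mem_insert_of_mem (mem_insert_of_mem
        (mem_erase.2 ⟨a1, mem_erase.2 ⟨a3, a4⟩⟩)))
  have hne12 : ({x2, y2} : Finset α) ≠ {x1, y1} := by
    intro h
    have : x2 ∈ ({x1, y1} : Finset α) := h ▸ (by simp)
    rcases mem_insert.1 this with h' | h'
    · exact b7_ne hs hx1 hx2 h'.symm
    · exact b7_ne hs hy1 hx2 (mem_singleton.1 h').symm
  have hm2 : ({x2, y2} : Finset α) ∈ F.erase {x1, y1} := mem_erase.2 ⟨hne12, hf2⟩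
  have hnotY : ({y1, y2} : Finset α) ∉ (F.erase {x1, y1}).erase {x2, y2} := fun h =>
    b7_cross hs hy1 hy2 (mem_union_right _ (mem_erase.1 (mem_erase.1 h).2).2)
  have hnotX : ({x1, x2} : Finset α) ∉
      insert ({y1, y2} : Finset α) ((F.erase {x1, y1}).erase {x2, y2}) := by
    intro h
    rcases mem_insert.1 h with h | h
    · have : x1 ∈ ({y1, y2} : Finset α) := h ▸ (by simp)
      rcases mem_insert.1 this with h' | h'
      · exact h1 h'
      · exact b7_ne hs hx1 hy2 (mem_singleton.1 h')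
    · exact b7_cross hs hx1 hx2 (mem_union_right _ (mem_erase.1 (mem_erase.1 h).2).2)
  have hex : ({x1, x2} : Finset α) ∈ E ∪ F' := mem_union_right _ (mem_insert_self _ _)
  have hey : ({y1, y2} : Finset α) ∈ E ∪ F' :=
    mem_union_right _ (mem_insert_of_mem (mem_insert_self _ _))
  -- other edges survive
  have hkeep : ∀ e ∈ E ∪ F, e ≠ {x1, y1} → e ≠ {x2, y2} → e ∈ E ∪ F' := by
    intro e he n1 n2
    rcases mem_union.1 he with he | he
    · exact mem_union_left _ he
    · exact mem_union_right _ (mem_insert_of_mem (mem_insert_of_mem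
        (mem_erase.2 ⟨n2, mem_erase.2 ⟨n1, he⟩⟩)))
  have R1 : Reach (E ∪ F') {u, v} x1 y1 := by
    intro L hL hxL
    have hcl : Closed (E ∪ F.erase {x1, y1}) {u, v} (L ∩ K) := by
      refine ⟨disjoint_of_subset_left inter_subset_left hL.1, ?_⟩
      intro a ha b hb hab
      obtain ⟨haL, haK⟩ := mem_inter.1 ha
      have habG : ({a, b} : Finset α) ∈ E ∪ F := by
        rcases mem_union.1 hab with h | h
        · exact mem_union_left _ h
        · exact mem_union_right _ (mem_erase.1 h).2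
      have hbK := b7_stay hs haK habG hb
      have hn2 : ({a, b} : Finset α) ≠ {x2, y2} := by
        intro h
        have : a ∈ ({x2, y2} : Finset α) := h ▸ (by simp)
        rcases mem_insert.1 this with h' | h'
        · exact b7_ne hs haK hx2 h'
        · exact b7_ne hs haK hy2 (mem_singleton.1 h')
      have hab' : ({a, b} : Finset α) ∈ E ∪ F' := by
        rcases mem_union.1 hab with h | h
        · exact mem_union_left _ h
        · exact mem_union_right _ (mem_insert_of_mem (mem_insert_of_mem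
            (mem_erase.2 ⟨hn2, h⟩)))
      exact mem_inter.2 ⟨hL.2 a haL b hb hab', hbK⟩
    exact (mem_inter.1 (hr _ hcl (mem_inter.2 ⟨hxL, hx1⟩))).1
  have R2 : Reach (E ∪ F') {u, v} x2 y2 := by
    have e1 : Reach (E ∪ F') {u, v} x2 x1 := by
      refine reach_edge ?_ (b7_notK hs hx1)
      rw [pair_comm]
      exact hex
    have e2 : Reach (E ∪ F') {u, v} y1 y2 := reach_edge hey (b7_notK hs.symm hy2)
    exact (e1.trans R1).trans e2
  refine b7_gain hs (F' := F') ?_ ?_ ?_ ?_ ?_ hx1 hx2 ?_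
  · intro e he
    rw [hF'] at he
    rcases mem_insert.1 he with rfl | he
    · exact card_pair (b7_ne hs hx1 hx2)
    rcases mem_insert.1 he with rfl | he
    · exact card_pair (b7_ne hs hy1 hy2)
    exact hF e (mem_erase.1 (mem_erase.1 he).2).2
  · rw [hF', card_insert_of_notMem hnotX, card_insert_of_notMem hnotY, card_erase_of_mem hm2,
      card_erase_of_mem hf1]
    have : 1 < F.card := by
      rw [one_lt_card]
      exact ⟨_, hf2, _, hf1, hne12⟩
    omega
  · exact (double_MC hG hn hMC hs hx1 hy1 h1 hx2 hy2 h2).mono hsub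
  · intro L hL
    obtain ⟨f, hf, t, ht'⟩ := ht L hL
    obtain ⟨htf, htL⟩ := mem_inter.1 ht'
    by_cases c1 : f = {x1, y1}
    · rw [c1] at htf
      rcases mem_insert.1 htf with h | h
      · exact ⟨{x1, x2}, mem_insert_self _ _, x1, mem_inter.2 ⟨by simp, h ▸ htL⟩⟩
      · exact ⟨{y1, y2}, mem_insert_of_mem (mem_insert_self _ _), y1,
          mem_inter.2 ⟨by simp, (mem_singleton.1 h) ▸ htL⟩⟩
    by_cases c2 : f = {x2, y2}
    · rw [c2] at htf
      rcases mem_insert.1 htf with h | h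
      · exact ⟨{x1, x2}, mem_insert_self _ _, x2, mem_inter.2 ⟨by simp, h ▸ htL⟩⟩
      · exact ⟨{y1, y2}, mem_insert_of_mem (mem_insert_self _ _), y2,
          mem_inter.2 ⟨by simp, (mem_singleton.1 h) ▸ htL⟩⟩
    exact ⟨f, mem_insert_of_mem (mem_insert_of_mem (mem_erase.2 ⟨c2, mem_erase.2 ⟨c1, hf⟩⟩)),
      t, ht'⟩
  · intro S hS a b hab
    by_cases huv : u ∈ S ∧ v ∈ S
    · have hSe : S = {u, v} := by
        refine (eq_of_subset_of_card_le ?_ ?_).symm
        · intro t ht
          rcases mem_insert.1 ht with rfl | ht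
          · exact huv.1
          · rw [mem_singleton.1 ht]; exact huv.2
        · rw [card_pair hs.ne]; exact hS
      subst hSe
      refine reach_of_edges (fun a b hab ha hb => ?_) hab
      by_cases c1 : ({a, b} : Finset α) = {x1, y1}
      · have hx1n := b7_notK hs hx1
        have ha' : a ∈ ({x1, y1} : Finset α) := c1 ▸ (by simp)
        have hb' : b ∈ ({x1, y1} : Finset α) := c1 ▸ (by simp)
        simp only [mem_insert, mem_singleton] at ha' hb'
        rcases ha' with rfl | rfl <;> rcases hb' with rfl | rfl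
        · exact Reach.refl _ _ _
        · exact R1
        · exact R1.symm hx1n
        · exact Reach.refl _ _ _
      by_cases c2 : ({a, b} : Finset α) = {x2, y2}
      · have hx2n := b7_notK hs.symm hx2
        have ha' : a ∈ ({x2, y2} : Finset α) := c2 ▸ (by simp)
        have hb' : b ∈ ({x2, y2} : Finset α) := c2 ▸ (by simp)
        simp only [mem_insert, mem_singleton] at ha' hb'
        rcases ha' with rfl | rfl <;> rcases hb' with rfl | rfl
        · exact Reach.refl _ _ _
        · exact R2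
        · exact R2.symm hx2n
        · exact Reach.refl _ _ _
      exact reach_edge (hkeep _ hab c1 c2) hb
    · exact (hreach S hS huv a b hab).mono hsub
  · exact reach_edge hex (b7_notK hs.symm hx2)

private theorem b7_case3 {E F : Finset (Finset α)} (hE : IsG E) (hn : 4 ≤ Fintype.card α)
    {γ : ℕ} (hF : IsG F) (hFc : F.card = γ) (hMC : MC (E ∪ F))
    (ht : ∀ L, MinFrag E L → Touch F L) {u v : α} {K M : Finset α}
    (hs : Sep (E ∪ F) u v K M) (hno : ∀ f ∈ F, u ∉ f ∧ v ∉ f) {x1 y1 : α} (hx1 : x1 ∈ K)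
    (hy1 : y1 ∈ K) (h1 : x1 ≠ y1) (hf1 : ({x1, y1} : Finset α) ∈ F)
    (hr : Reach (E ∪ F.erase {x1, y1}) {u, v} x1 y1) : B7Good E γ (E ∪ F) := by
  have hG : IsG (E ∪ F) := fun e he => (mem_union.1 he).elim (hE e) (hF e)
  have hfrag : Frag E M := by
    refine ⟨hs.M0, u, v, hs.ne, (hs.symm.closedK).anti subset_union_left, ?_⟩
    intro h
    have : x1 ∈ insert u (insert v M) := h ▸ mem_univ x1
    rcases mem_insert.1 this with h' | h'
    · exact hs.uK (h' ▸ hx1)
    rcases mem_insert.1 h' with h' | h'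
    · exact hs.vK (h' ▸ hx1)
    exact disjoint_left.1 hs.disj hx1 h'
  obtain ⟨L', hL', hLM⟩ := exists_minFrag hfrag
  obtain ⟨f2, hf2, x2, hx2'⟩ := ht L' hL'
  obtain ⟨hx2f, hx2L⟩ := mem_inter.1 hx2'
  have hx2 : x2 ∈ M := hLM hx2L
  obtain ⟨y2, h2, hfe⟩ : ∃ y2, x2 ≠ y2 ∧ f2 = {x2, y2} := by
    obtain ⟨p, q, hpq, hpe⟩ := card_eq_two.1 (hF f2 hf2)
    rw [hpe] at hx2f
    rcases mem_insert.1 hx2f with h | h
    · exact ⟨q, by rw [h]; exact hpq, by rw [h]; exact hpe⟩
    · have h := mem_singleton.1 h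
      exact ⟨p, by rw [h]; exact hpq.symm, by rw [h, pair_comm]; exact hpe⟩
  rw [hfe] at hf2
  have hy2 : y2 ∈ M := by
    refine b7_stay hs.symm hx2 (mem_union_right _ hf2) ?_
    have := hno _ hf2
    simp only [mem_insert, mem_singleton, not_or] at this ⊢
    exact ⟨fun h => this.1.2 h.symm, fun h => this.2.2 h.symm⟩
  rcases double_reach hG hn hMC hs hx1 hy1 h1 hx2 hy2 h2 with hA | hB
  · exact b7_case3b hE hn hF hFc hMC ht hs hx1 hy1 h1 hx2 hy2 h2 hf1 hf2 hr hA
  · exact b7_case3b hE hn hF hFc hMC ht hs hx1 hy1 h1 hy2 hx2 h2.symm hf1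
      (by rw [pair_comm]; exact hf2) hr hB

theorem step_B {E : Finset (Finset α)} (hE : IsG E) (hn : 4 ≤ Fintype.card α) {γ : ℕ}
    (hc : CompB E γ) {F : Finset (Finset α)} (hF : IsG F) (hFc : F.card = γ)
    (hMC : MC (E ∪ F)) (ht : ∀ L, MinFrag E L → Touch F L) (h3 : ¬ Conn (E ∪ F) 2) :
    ∃ F' : Finset (Finset α), IsG F' ∧ F'.card = γ ∧ MC (E ∪ F') ∧
      (∀ L, MinFrag E L → Touch F' L) ∧ pot (E ∪ F') < pot (E ∪ F) := by
  show B7Good E γ (E ∪ F)
  have hG : IsG (E ∪ F) := fun e he => (mem_union.1 he).elim (hE e) (hF e)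
  obtain ⟨u, v, K, M, hs⟩ := sep_of_not_conn hG (hMC.cr.conn1 hG (by omega)) h3
  by_cases c1 : ({u, v} : Finset α) ∈ F
  · exact b7_case1 hE hn hF hFc hMC ht hs c1
  by_cases hno : ∀ f ∈ F, u ∉ f ∧ v ∉ f
  · obtain ⟨x, y, hxy, hf, hr⟩ := nonbridge hF hc hFc.ge hs hno
    have hxy' := hno _ hf
    simp only [mem_insert, mem_singleton, not_or] at hxy'
    obtain ⟨⟨a1, a2⟩, a3, a4⟩ := hxy'
    have hyn : y ∉ ({u, v} : Finset α) := by
      simp only [mem_insert, mem_singleton, not_or]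
      exact ⟨fun h => a2 h.symm, fun h => a4 h.symm⟩
    rcases hs.top x with h | h | h | h
    · exact b7_case3 hE hn hF hFc hMC ht hs hno h
        (b7_stay hs h (mem_union_right _ hf) hyn) hxy hf hr
    · exact b7_case3 hE hn hF hFc hMC ht hs.symm hno h
        (b7_stay hs.symm h (mem_union_right _ hf) hyn) hxy hf hr
    · exact absurd h.symm a1
    · exact absurd h.symm a3
  · push Not at hno
    obtain ⟨f, hf, hfuv⟩ := hno
    obtain ⟨p, q, hpq, hpe⟩ := card_eq_two.1 (hF f hf)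
    -- the case of an end `u`
    have main : ∀ u v : α, Sep (E ∪ F) u v K M → ({u, v} : Finset α) ∉ F → u ∈ f →
        B7Good E γ (E ∪ F) := by
      intro u v hs c1 hu
      obtain ⟨x, hxu, hfe⟩ : ∃ x, x ≠ u ∧ f = {x, u} := by
        rw [hpe] at hu
        rcases mem_insert.1 hu with h | h
        · exact ⟨q, by rw [h]; exact hpq.symm, by rw [h, pair_comm]; exact hpe⟩
        · have h := mem_singleton.1 h
          exact ⟨p, by rw [h]; exact hpq, by rw [h]; exact hpe⟩
      rw [hfe] at hf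
      rcases hs.top x with h | h | h | h
      · exact b7_case2 hE hn hF hFc hMC ht hs h hf
      · exact b7_case2 hE hn hF hFc hMC ht hs.symm h hf
      · exact absurd h hxu
      · rw [h, pair_comm] at hf
        exact absurd hf c1
    by_cases hu : u ∈ f
    · exact main u v hs c1 hu
    · exact main v u hs.flip (by rw [pair_comm]; exact c1) (hfuv hu)

theorem phaseB {E : Finset (Finset α)} (hE : IsG E) (hn : 4 ≤ Fintype.card α) {γ : ℕ}
    (hc : CompB E γ) {F : Finset (Finset α)} (hF : IsG F) (hFc : F.card = γ)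
    (hMC : MC (E ∪ F)) (ht : ∀ L, MinFrag E L → Touch F L) :
    ∃ F' : Finset (Finset α), IsG F' ∧ F'.card = γ ∧ MC (E ∪ F') ∧ Conn (E ∪ F') 2 := by
  induction hp : pot (E ∪ F) using Nat.strong_induction_on generalizing F with
  | _ n ih =>
    by_cases h3 : Conn (E ∪ F) 2
    · exact ⟨F, hF, hFc, hMC, h3⟩
    · obtain ⟨F', g1, g2, g3, g4, g5⟩ := step_B hE hn hc hF hFc hMC ht h3
      exact ih (pot (E ∪ F')) (hp ▸ g5) g1 g2 g3 g4 rfl

end Pool.Agent.GRA
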