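import Pool.Agent.GRA.Defs

/-!
# Basic lemmas on families, defects and demands
-/

namespace Pool.Agent.GRA

open Finset

set_option linter.unusedSectionVars false
set_option linter.unusedVariables false

variable {α : Type*} [Fintype α] [DecidableEq α]

theorem w_union_inter (A B : Finset α) : w (A ∪ B) + w (A ∩ B) = w A + w B := by
  unfold w
  have := card_union_add_card_inter A B
  have h : ((A ∪ B).card : ℤ) + (A ∩ B).card = A.card + B.card := by exact_mod_cast this
  linarith

theorem w_pos {A : Finset α} (h : 2 ≤ A.card) : 1 ≤ w A := by
  unfold w
  have : (2 : ℤ) ≤ A.card := by exact_mod_cast h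
  linarith

theorem w_mono {A B : Finset α} (h : A ⊆ B) : w A ≤ w B := by
  unfold w
  have : (A.card : ℤ) ≤ B.card := by exact_mod_cast card_le_card h
  linarith

theorem w_insert {A : Finset α} {x : α} (h : x ∉ A) : w (insert x A) = w A + 2 := by
  unfold w
  rw [card_insert_of_notMem h]
  push_cast
  ring

theorem w_pair {x y : α} (h : x ≠ y) : w ({x, y} : Finset α) = 1 := by
  unfold w
  rw [card_pair h]
  norm_num

theorem w_compl (C : Finset α) : w (univ \ C) = 2 * (Fintype.card α : ℤ) - 2 * C.card - 3 := by
  unfold w
  have := card_sdiff_add_card_eq_card (subset_univ C)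
  have h : ((univ \ C).card : ℤ) + C.card = Fintype.card α := by
    rw [← card_univ]; exact_mod_cast this
  linarith

theorem Indep.w_pos {H : Finset (Finset α)} (hH : Indep H) {A : Finset α} (h : A ∈ H) :
    1 ≤ w A := GRA.w_pos (hH.two A h)

theorem sIn_nonneg {H : Finset (Finset α)} (hH : Indep H) (T : Finset α) : 0 ≤ sIn H T :=
  sum_nonneg fun A hA => by
    have := hH.w_pos (mem_filter.1 hA).1
    linarith

theorem sTo_nonneg {H : Finset (Finset α)} (hH : Indep H) (T : Finset α) : 0 ≤ sTo H T :=
  sum_nonneg fun A hA => by
    have := hH.w_pos (mem_filter.1 hA).1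
    linarith

theorem sIn_mono {H : Finset (Finset α)} (hH : Indep H) {S T : Finset α} (h : S ⊆ T) :
    sIn H S ≤ sIn H T :=
  sum_le_sum_of_subset_of_nonneg
    (fun A hA => mem_filter.2 ⟨(mem_filter.1 hA).1, (mem_filter.1 hA).2.trans h⟩)
    fun A hA _ => by
      have := hH.w_pos (mem_filter.1 hA).1
      linarith

/-- Total weight splits into the members inside the complement and the members meeting `C`. -/
theorem sIn_compl_add_sTo (H : Finset (Finset α)) (C : Finset α) :
    sIn H (univ \ C) + sTo H C = ∑ X ∈ H, w X := by
  unfold sIn sTo
  rw [← sum_filter_add_sum_filter_not H (fun X => X ⊆ univ \ C) w]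
  congr 1
  apply sum_congr _ fun _ _ => rfl
  ext X
  simp only [mem_filter, and_congr_right_iff]
  intro _
  constructor
  · rintro ⟨x, hx⟩ hX
    have := hX (mem_inter.1 hx).1
    simp at this
    exact this (mem_inter.1 hx).2
  · intro hX
    rw [not_subset] at hX
    obtain ⟨x, hx, hx'⟩ := hX
    refine ⟨x, mem_inter.2 ⟨hx, ?_⟩⟩
    by_contra hc
    exact hx' (mem_sdiff.2 ⟨mem_univ x, hc⟩)

theorem sIn_univ (H : Finset (Finset α)) : sIn H univ = ∑ X ∈ H, w X := by
  unfold sIn
  rw [filter_true_of_mem]
  intro X _
  exact subset_univ X

/-- The demand in terms of the defect of the complement. -/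
theorem gg_eq (H : Finset (Finset α)) (C : Finset α) :
    gg H C = dof H + 1 - kk H (univ \ C) := by
  have h1 := sIn_compl_add_sTo H C
  unfold gg dof kk
  rw [sIn_univ, w_compl, ← h1]
  have h2 : w (univ : Finset α) = 2 * (Fintype.card α : ℤ) - 3 := by
    unfold w
    rw [card_univ]
  rw [h2]
  ring

theorem gg_compl (H : Finset (Finset α)) (T : Finset α) :
    gg H (univ \ T) = dof H + 1 - kk H T := by
  rw [gg_eq, Finset.sdiff_sdiff_eq_self (subset_univ T)]

theorem gg_le {H : Finset (Finset α)} (hH : Indep H) {C : Finset α} (h : 2 ≤ (univ \ C).card) :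
    gg H C ≤ dof H + 1 := by
  rw [gg_eq]
  have := hH.nonneg _ h
  linarith

/-- Supermodularity of the weight inside. -/
theorem sIn_super {H : Finset (Finset α)} (hH : Indep H) (A B : Finset α) :
    sIn H A + sIn H B ≤ sIn H (A ∪ B) + sIn H (A ∩ B) := by
  unfold sIn
  have h1 : (H.filter (· ⊆ A)) ∩ (H.filter (· ⊆ B)) = H.filter (· ⊆ A ∩ B) := by
    ext X
    simp only [mem_inter, mem_filter, subset_inter_iff]
    tauto
  have h2 : (H.filter (· ⊆ A)) ∪ (H.filter (· ⊆ B)) ⊆ H.filter (· ⊆ A ∪ B) := by
    intro X hX
    rcases mem_union.1 hX with h | h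
    · exact mem_filter.2 ⟨(mem_filter.1 h).1, (mem_filter.1 h).2.trans subset_union_left⟩
    · exact mem_filter.2 ⟨(mem_filter.1 h).1, (mem_filter.1 h).2.trans subset_union_right⟩
  rw [← h1, ← sum_union_inter]
  have h3 : ∑ X ∈ (H.filter (· ⊆ A)) ∪ (H.filter (· ⊆ B)), w X ≤
      ∑ X ∈ H.filter (· ⊆ A ∪ B), w X :=
    sum_le_sum_of_subset_of_nonneg h2 fun X hX _ => by
      have := hH.w_pos (mem_filter.1 hX).1
      linarith
  linarith

theorem kk_sub {H : Finset (Finset α)} (hH : Indep H) (A B : Finset α) :
    kk H (A ∪ B) + kk H (A ∩ B) ≤ kk H A + kk H B := by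
  unfold kk
  have h1 := sIn_super hH A B
  have h2 := w_union_inter A B
  linarith

theorem sIn_eq_zero {H : Finset (Finset α)} (hH : Indep H) {A : Finset α} (h : A.card ≤ 1) :
    sIn H A = 0 := by
  unfold sIn
  rw [filter_false_of_mem, sum_empty]
  intro X hX hXA
  have h1 := hH.two X hX
  have h2 := card_le_card hXA
  omega

/-- Defect of a union of two sets with small intersection. -/
theorem kk_union_le {H : Finset (Finset α)} (hH : Indep H) {A B : Finset α}
    (h : (A ∩ B).card ≤ 1) :
    kk H (A ∪ B) ≤ kk H A + kk H B + 3 - 2 * (A ∩ B).card := by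
  have h1 := sIn_super hH A B
  have h2 := w_union_inter A B
  have h3 := sIn_eq_zero hH h
  have h4 : w (A ∩ B) = 2 * ((A ∩ B).card : ℤ) - 3 := rfl
  unfold kk
  linarith

/-- The demand is intersecting supermodular. -/
theorem gg_super {H : Finset (Finset α)} (hH : Indep H) (A B : Finset α) :
    gg H A + gg H B ≤ gg H (A ∪ B) + gg H (A ∩ B) := by
  rw [gg_eq, gg_eq, gg_eq, gg_eq]
  have h := kk_sub hH (univ \ A) (univ \ B)
  have h1 : (univ \ A) ∪ (univ \ B) = univ \ (A ∩ B) := by
    ext x; simp only [mem_union, mem_sdiff, mem_univ, true_and, mem_inter]; tauto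
  have h2 : (univ \ A) ∩ (univ \ B) = univ \ (A ∪ B) := by
    ext x; simp only [mem_union, mem_sdiff, mem_univ, true_and, mem_inter]; tauto
  rw [h1, h2] at h
  linarith

/-- Distinct members share at most one element. -/
theorem Indep.thin {H : Finset (Finset α)} (hH : Indep H) {A B : Finset α} (hA : A ∈ H)
    (hB : B ∈ H) (hAB : A ≠ B) : (A ∩ B).card ≤ 1 := by
  have h2 : 2 ≤ (A ∪ B).card := (hH.two A hA).trans (card_le_card subset_union_left)
  have h := hH.nonneg _ h2
  have h3 : w A + w B ≤ sIn H (A ∪ B) := by
    rw [← sum_pair hAB]
    apply sum_le_sum_of_subset_of_nonneg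
    · intro X hX
      rcases mem_insert.1 hX with rfl | hX
      · exact mem_filter.2 ⟨hA, subset_union_left⟩
      · rw [mem_singleton.1 hX]
        exact mem_filter.2 ⟨hB, subset_union_right⟩
    · intro X hX _
      have := hH.w_pos (mem_filter.1 hX).1
      linarith
  have h4 := w_union_inter A B
  have h5 : w (A ∩ B) = 2 * ((A ∩ B).card : ℤ) - 3 := rfl
  unfold kk at h
  by_contra hc
  have : (2 : ℤ) ≤ (A ∩ B).card := by exact_mod_cast (by omega : 2 ≤ (A ∩ B).card)
  linarith

/-- A member of the family is rigid. -/
theorem Indep.rig {H : Finset (Finset α)} (hH : Indep H) {A : Finset α} (hA : A ∈ H) :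
    Rig H A := by
  refine ⟨hH.two A hA, ?_⟩
  have h := hH.nonneg _ (hH.two A hA)
  have h3 : w A ≤ sIn H A := by
    have : ({A} : Finset (Finset α)) ⊆ H.filter (· ⊆ A) := by
      intro X hX
      rw [mem_singleton.1 hX]
      exact mem_filter.2 ⟨hA, subset_rfl⟩
    calc w A = ∑ X ∈ ({A} : Finset (Finset α)), w X := by simp
      _ ≤ _ := sum_le_sum_of_subset_of_nonneg this fun X hX _ => by
        have := hH.w_pos (mem_filter.1 hX).1
        linarith
  unfold kk at *
  linarith

/-- A member meeting a rigid set in two elements lies inside it. -/
theorem Rig.subset_of_mem {H : Finset (Finset α)} (hH : Indep H) {X A : Finset α} (hX : Rig H X)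
    (hA : A ∈ H) (h : 2 ≤ (A ∩ X).card) : A ⊆ X := by
  by_contra hc
  have h1 := kk_sub hH A X
  rw [(hH.rig hA).2, hX.2] at h1
  have h2 := hH.nonneg (A ∪ X) (h.trans (card_le_card (inter_subset_left.trans
    subset_union_left)))
  have h3 : kk H (A ∩ X) = w (A ∩ X) := by
    unfold kk
    have : sIn H (A ∩ X) = 0 := by
      unfold sIn
      rw [filter_false_of_mem, sum_empty]
      intro B hB hBA
      by_cases hAB : B = A
      · subst hAB
        exact hc (hBA.trans inter_subset_right)
      · have h4 := hH.thin hB hA hAB
        have h5 : B ⊆ B ∩ A := subset_inter subset_rfl (hBA.trans inter_subset_left)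
        have h6 := card_le_card h5
        have h7 := hH.two B hB
        omega
    linarith
  have h4 := GRA.w_pos h
  linarith

theorem Rig.union {H : Finset (Finset α)} (hH : Indep H) {X Y : Finset α} (hX : Rig H X)
    (hY : Rig H Y) (h : 2 ≤ (X ∩ Y).card) : Rig H (X ∪ Y) := by
  have h1 := kk_sub hH X Y
  rw [hX.2, hY.2] at h1
  have h2 := hH.nonneg _ h
  have h3 : 2 ≤ (X ∪ Y).card := hX.1.trans (card_le_card subset_union_left)
  have h4 := hH.nonneg _ h3
  exact ⟨h3, by linarith⟩

theorem Rig.inter {H : Finset (Finset α)} (hH : Indep H) {X Y : Finset α} (hX : Rig H X)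
    (hY : Rig H Y) (h : 2 ≤ (X ∩ Y).card) : Rig H (X ∩ Y) := by
  have h1 := kk_sub hH X Y
  rw [hX.2, hY.2] at h1
  have h2 := hH.nonneg _ h
  have h3 : 2 ≤ (X ∪ Y).card := hX.1.trans (card_le_card subset_union_left)
  have h4 := hH.nonneg _ h3
  exact ⟨h, by linarith⟩

/-- Three rigid sets pairwise meeting in single distinct points (a triangle) have a rigid
union; in general three rigid sets containing the three pairs of a triple have a common rigid
superset. -/
theorem Rig.triangle {H : Finset (Finset α)} (hH : Indep H) {X Y Z : Finset α} (hX : Rig H X)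
    (hY : Rig H Y) (hZ : Rig H Z) {x y z : α} (hxy : x ≠ y) (hxz : x ≠ z) (hyz : y ≠ z)
    (h1 : x ∈ X) (h2 : y ∈ X) (h3 : y ∈ Y) (h4 : z ∈ Y) (h5 : z ∈ Z) (h6 : x ∈ Z) :
    Rig H (X ∪ Y ∪ Z) := by
  by_cases hXY : 2 ≤ (X ∩ Y).card
  · have hU := hX.union hH hY hXY
    apply hU.union hH hZ
    calc 2 = ({x, z} : Finset α).card := (card_pair hxz).symm
      _ ≤ _ := card_le_card (by
        intro t ht
        simp only [mem_insert, mem_singleton] at ht
        rcases ht with rfl | rfl <;> simp_all)
  · by_cases hXYZ : 2 ≤ ((X ∪ Y) ∩ Z).card
    · have hsub := kk_sub hH (X ∪ Y) Z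
      have hle := kk_union_le hH (A := X) (B := Y) (by omega)
      have hc : (X ∩ Y).card = 1 := by
        have : 1 ≤ (X ∩ Y).card := card_pos.2 ⟨y, mem_inter.2 ⟨h2, h3⟩⟩
        omega
      rw [hX.2, hY.2, hc] at hle
      rw [hZ.2] at hsub
      have h7 : 2 ≤ (X ∪ Y ∪ Z).card := hX.1.trans (card_le_card
        (subset_union_left.trans subset_union_left))
      have h8 := hH.nonneg _ h7
      refine ⟨h7, ?_⟩
      -- it suffices that the defect of `(X ∪ Y) ∩ Z` is at least one
      by_cases h9 : 1 ≤ kk H ((X ∪ Y) ∩ Z)
      · push_cast at hle
        linarith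
      · have h10 := hH.nonneg _ hXYZ
        have h11 : Rig H ((X ∪ Y) ∩ Z) := ⟨hXYZ, by linarith⟩
        -- then `(X ∪ Y) ∩ Z` is rigid; use it to bound again
        by_cases h12 : 2 ≤ (X ∩ ((X ∪ Y) ∩ Z)).card
        · have hXW := hX.union hH h11 h12
          have h13 : 2 ≤ ((X ∪ ((X ∪ Y) ∩ Z)) ∩ Y).card := by
            calc 2 = ({y, z} : Finset α).card := (card_pair hyz).symm
              _ ≤ _ := card_le_card (by
                intro t ht
                simp only [mem_insert, mem_singleton] at ht
                rcases ht with rfl | rfl <;> simp_all)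
          have hXWY := hXW.union hH hY h13
          have h14 : X ∪ ((X ∪ Y) ∩ Z) ∪ Y = X ∪ Y := by
            ext t; simp only [mem_union, mem_inter]; tauto
          rw [h14] at hXWY
          exact (hXWY.union hH hZ hXYZ).2
        · by_cases h15 : 2 ≤ (Y ∩ ((X ∪ Y) ∩ Z)).card
          · have hYW := hY.union hH h11 h15
            have h16 : 2 ≤ ((Y ∪ ((X ∪ Y) ∩ Z)) ∩ X).card := by
              calc 2 = ({y, x} : Finset α).card := (card_pair hxy.symm).symm
                _ ≤ _ := card_le_card (by
                  intro t ht
                  simp only [mem_insert, mem_singleton] at ht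
                  rcases ht with rfl | rfl <;> simp_all)
            have hYWX := hYW.union hH hX h16
            have h17 : Y ∪ ((X ∪ Y) ∩ Z) ∪ X = X ∪ Y := by
              ext t; simp only [mem_union, mem_inter]; tauto
            rw [h17] at hYWX
            exact (hYWX.union hH hZ hXYZ).2
          · -- `(X ∪ Y) ∩ Z = {x, z}`
            have h18 : (X ∪ Y) ∩ Z ⊆ {x, z} := by
              intro t ht
              have ht' := mem_inter.1 ht
              rcases mem_union.1 ht'.1 with h | h
              · have : t = x := by
                  by_contra hne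
                  apply h12
                  calc 2 = ({t, x} : Finset α).card := (card_pair hne).symm
                    _ ≤ _ := card_le_card (by
                      intro s hs
                      simp only [mem_insert, mem_singleton] at hs
                      rcases hs with rfl | rfl <;> simp_all)
                simp [this]
              · have : t = z := by
                  by_contra hne
                  apply h15
                  calc 2 = ({t, z} : Finset α).card := (card_pair hne).symm
                    _ ≤ _ := card_le_card (by
                      intro s hs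
                      simp only [mem_insert, mem_singleton] at hs
                      rcases hs with rfl | rfl <;> simp_all)
                simp [this]
            have h19 : (X ∪ Y) ∩ Z = {x, z} := by
              apply h18.antisymm
              intro t ht
              simp only [mem_insert, mem_singleton] at ht
              rcases ht with rfl | rfl <;> simp_all
            -- the rigid pair `{x, z}` is a member of the family inside `X ∪ Y` but not in `X`, `Y`
            have h20 : ({x, z} : Finset α) ∈ H := by
              rw [h19] at h11
              by_contra hmem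
              have h21 : sIn H {x, z} = 0 := by
                unfold sIn
                rw [filter_false_of_mem, sum_empty]
                intro B hB hBs
                have h22 := hH.two B hB
                have h23 : B = {x, z} := eq_of_subset_of_card_le hBs (by
                  rw [card_pair hxz]; exact h22)
                exact hmem (h23 ▸ hB)
              have h24 := h11.2
              unfold kk at h24
              rw [h21, w_pair hxz] at h24
              norm_num at h24
            have h25 : sIn H X + sIn H Y + 1 ≤ sIn H (X ∪ Y) := by
              unfold sIn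
              have hd1 : Disjoint (H.filter (· ⊆ X)) (H.filter (· ⊆ Y)) := by
                rw [disjoint_left]
                intro B hB hB'
                have h26 := card_le_card (subset_inter (mem_filter.1 hB).2 (mem_filter.1 hB').2)
                have h27 := hH.two B (mem_filter.1 hB).1
                omega
              have hd2 : ({x, z} : Finset α) ∉ (H.filter (· ⊆ X)) ∪ (H.filter (· ⊆ Y)) := by
                intro hmem
                rcases mem_union.1 hmem with h | h
                · have hzX : z ∈ X := (mem_filter.1 h).2 (by simp)
                  apply h12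
                  calc 2 = ({x, z} : Finset α).card := (card_pair hxz).symm
                    _ ≤ _ := card_le_card (by
                      intro s hs
                      simp only [mem_insert, mem_singleton] at hs
                      rcases hs with rfl | rfl <;> simp_all)
                · have hxY : x ∈ Y := (mem_filter.1 h).2 (by simp)
                  apply h15
                  calc 2 = ({x, z} : Finset α).card := (card_pair hxz).symm
                    _ ≤ _ := card_le_card (by
                      intro s hs
                      simp only [mem_insert, mem_singleton] at hs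
                      rcases hs with rfl | rfl <;> simp_all)
              rw [← sum_union hd1, add_comm, ← w_pair hxz, ← sum_insert hd2]
              apply sum_le_sum_of_subset_of_nonneg
              · intro B hB
                rcases mem_insert.1 hB with rfl | hB
                · refine mem_filter.2 ⟨h20, ?_⟩
                  intro s hs
                  simp only [mem_insert, mem_singleton] at hs
                  rcases hs with rfl | rfl <;> simp_all
                · rcases mem_union.1 hB with h | h
                  · exact mem_filter.2 ⟨(mem_filter.1 h).1,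
                      (mem_filter.1 h).2.trans subset_union_left⟩
                  · exact mem_filter.2 ⟨(mem_filter.1 h).1,
                      (mem_filter.1 h).2.trans subset_union_right⟩
              · intro B hB _
                have := hH.w_pos (mem_filter.1 hB).1
                linarith
            have h28 : kk H (X ∪ Y) ≤ 0 := by
              have h29 := w_union_inter X Y
              have h30 : w (X ∩ Y) = 2 * ((X ∩ Y).card : ℤ) - 3 := rfl
              rw [hc] at h30
              have h31 := hX.2
              have h32 := hY.2
              unfold kk at *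
              push_cast at h30
              linarith
            have h33 : 2 ≤ (X ∪ Y).card := hX.1.trans (card_le_card subset_union_left)
            have h34 : Rig H (X ∪ Y) := ⟨h33, le_antisymm h28 (hH.nonneg _ h33)⟩
            exact (h34.union hH hZ hXYZ).2
    · exfalso
      apply hXYZ
      calc 2 = ({x, z} : Finset α).card := (card_pair hxz).symm
        _ ≤ _ := card_le_card (by
          intro t ht
          simp only [mem_insert, mem_singleton] at ht
          rcases ht with rfl | rfl <;> simp_all)

end Pool.Agent.GRA
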