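import Pool.Agent.GRA.Basic

/-!
# More basic lemmas: adding a pair, extended independence, masses
-/

namespace Pool.Agent.GRA

open Finset

set_option linter.unusedSectionVars false
set_option linter.unusedVariables false

variable {α : Type*} [Fintype α] [DecidableEq α]

/-- Weight of a set, zero for sets with at most one element. -/
def wp (X : Finset α) : ℤ := if 2 ≤ X.card then w X else 0

theorem wp_nonneg (X : Finset α) : 0 ≤ wp X := by
  unfold wp
  split_ifs with h
  · have := w_pos h; linarith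
  · exact le_rfl

theorem wp_of_two {X : Finset α} (h : 2 ≤ X.card) : wp X = w X := if_pos h

theorem wp_of_lt {X : Finset α} (h : X.card ≤ 1) : wp X = 0 := if_neg (by omega)

theorem le_wp (X : Finset α) : w X ≤ wp X := by
  unfold wp
  split_ifs with h
  · exact le_rfl
  · unfold w
    have : (X.card : ℤ) ≤ 1 := by exact_mod_cast (by omega : X.card ≤ 1)
    linarith

theorem wp_mono {A B : Finset α} (h : A ⊆ B) : wp A ≤ wp B := by
  by_cases h2 : 2 ≤ A.card
  · rw [wp_of_two h2, wp_of_two (h2.trans (card_le_card h))]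
    exact w_mono h
  · rw [wp_of_lt (by omega)]
    exact wp_nonneg B

/-- Extended independence: traces of the members on `Y` have total weight at most `w Y`. -/
theorem Indep.sum_wp_le {H : Finset (Finset α)} (hH : Indep H) (Y : Finset α)
    (hY : 2 ≤ Y.card) : ∑ X ∈ H, wp (X ∩ Y) ≤ w Y := by
  induction hn : Fintype.card α - Y.card using Nat.strong_induction_on generalizing Y with
  | _ n ih =>
    by_cases hc : ∃ A ∈ H, 2 ≤ (A ∩ Y).card ∧ ¬ A ⊆ Y
    · obtain ⟨A, hA, h2, hsub⟩ := hc
      have hlt : Y.card < (Y ∪ A).card := by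
        apply card_lt_card
        refine ⟨subset_union_left, fun h => hsub (subset_union_right.trans h)⟩
      have hle : (Y ∪ A).card ≤ Fintype.card α := by
        rw [← card_univ]; exact card_le_card (subset_univ _)
      have h1 := ih (Fintype.card α - (Y ∪ A).card) (by omega) (Y ∪ A) (by omega) rfl
      have h3 : w (Y ∪ A) = w Y + (w A - w (A ∩ Y)) := by
        have := w_union_inter Y A
        rw [inter_comm Y A] at this
        linarith
      have h4 : ∑ X ∈ H, wp (X ∩ Y) + (w A - w (A ∩ Y)) ≤ ∑ X ∈ H, wp (X ∩ (Y ∪ A)) := by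
        rw [← add_sum_erase H _ hA, ← add_sum_erase H (fun X => wp (X ∩ (Y ∪ A))) hA]
        have h5 : A ∩ (Y ∪ A) = A := inter_eq_left.2 subset_union_right
        have h6 : ∑ X ∈ H.erase A, wp (X ∩ Y) ≤ ∑ X ∈ H.erase A, wp (X ∩ (Y ∪ A)) :=
          sum_le_sum fun X _ => wp_mono (inter_subset_inter subset_rfl subset_union_left)
        rw [h5, wp_of_two h2, wp_of_two (hH.two A hA)]
        linarith
      linarith
    · push Not at hc
      have h1 : ∑ X ∈ H, wp (X ∩ Y) = sIn H Y := by
        unfold sIn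
        rw [sum_filter]
        apply sum_congr rfl
        intro X hX
        split_ifs with h
        · rw [inter_eq_left.2 h, wp_of_two (hH.two X hX)]
        · apply wp_of_lt
          by_contra h2
          exact h (hc X hX (by omega))
      rw [h1]
      have := hH.nonneg Y hY
      unfold kk at this
      linarith

theorem not_mem_of_not_span {H : Finset (Finset α)} (hH : Indep H) {x y : α}
    (hs : ¬ Span H x y) : ({x, y} : Finset α) ∉ H :=
  fun h => hs ⟨{x, y}, hH.rig h, by simp, by simp⟩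

theorem pair_subset {x y : α} {T : Finset α} : ({x, y} : Finset α) ⊆ T ↔ x ∈ T ∧ y ∈ T := by
  constructor
  · intro h
    exact ⟨h (by simp), h (by simp)⟩
  · rintro ⟨h1, h2⟩ t ht
    simp only [mem_insert, mem_singleton] at ht
    rcases ht with rfl | rfl <;> assumption

theorem sIn_insert {H : Finset (Finset α)} {x y : α} (hxy : x ≠ y)
    (h : ({x, y} : Finset α) ∉ H) (T : Finset α) :
    sIn (insert {x, y} H) T = sIn H T + if x ∈ T ∧ y ∈ T then 1 else 0 := by
  unfold sIn
  rw [filter_insert]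
  split_ifs with h1 h2 h2
  · rw [sum_insert (fun hm => h (mem_filter.1 hm).1), w_pair hxy, add_comm]
  · exact absurd (pair_subset.1 h1) h2
  · exact absurd (pair_subset.2 h2) h1
  · rw [add_zero]

theorem kk_insert {H : Finset (Finset α)} {x y : α} (hxy : x ≠ y)
    (h : ({x, y} : Finset α) ∉ H) (T : Finset α) :
    kk (insert {x, y} H) T = kk H T - if x ∈ T ∧ y ∈ T then 1 else 0 := by
  unfold kk
  rw [sIn_insert hxy h]
  ring

theorem dof_insert {H : Finset (Finset α)} {x y : α} (hxy : x ≠ y)
    (h : ({x, y} : Finset α) ∉ H) : dof (insert {x, y} H) = dof H - 1 := by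
  unfold dof
  rw [kk_insert hxy h]
  simp

theorem gg_insert {H : Finset (Finset α)} {x y : α} (hxy : x ≠ y)
    (h : ({x, y} : Finset α) ∉ H) (C : Finset α) :
    gg (insert {x, y} H) C = gg H C - if x ∈ C ∨ y ∈ C then 1 else 0 := by
  rw [gg_eq, gg_eq, kk_insert hxy h, dof_insert hxy h]
  by_cases h1 : x ∈ C <;> by_cases h2 : y ∈ C <;> simp [h1, h2] <;> ring

theorem Indep.insert_pair {H : Finset (Finset α)} (hH : Indep H) {x y : α} (hxy : x ≠ y)
    (hs : ¬ Span H x y) : Indep (insert {x, y} H) := by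
  have hmem := not_mem_of_not_span hH hs
  refine ⟨fun X hX => ?_, fun X hX => ?_⟩
  · rcases mem_insert.1 hX with rfl | hX
    · rw [card_pair hxy]
    · exact hH.two X hX
  · rw [kk_insert hxy hmem]
    have h1 := hH.nonneg X hX
    split_ifs with h
    · have h2 : kk H X ≠ 0 := fun h0 => hs ⟨X, ⟨hX, h0⟩, h.1, h.2⟩
      omega
    · linarith

theorem mass_union_inter (m : α → ℕ) (A B : Finset α) :
    mass m (A ∪ B) + mass m (A ∩ B) = mass m A + mass m B := sum_union_inter

theorem mass_mono (m : α → ℕ) {A B : Finset α} (h : A ⊆ B) : mass m A ≤ mass m B :=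
  sum_le_sum_of_subset h

theorem le_mass (m : α → ℕ) {A : Finset α} {x : α} (h : x ∈ A) : m x ≤ mass m A :=
  single_le_sum (f := m) (fun _ _ => Nat.zero_le _) h

theorem mass_sdiff_add (m : α → ℕ) {A B : Finset α} (h : A ⊆ B) :
    mass m (B \ A) + mass m A = mass m B := sum_sdiff h

theorem mass_insert (m : α → ℕ) {A : Finset α} {x : α} (h : x ∉ A) :
    mass m (insert x A) = m x + mass m A := sum_insert h

theorem mass_compl (m : α → ℕ) (A : Finset α) :
    mass m (univ \ A) + mass m A = mass m univ := sum_sdiff (subset_univ A)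

theorem mass_pair_le (m : α → ℕ) {A : Finset α} {x y : α} (hxy : x ≠ y) (hx : x ∈ A)
    (hy : y ∈ A) : m x + m y ≤ mass m A := by
  rw [← sum_pair hxy]
  exact sum_le_sum_of_subset (pair_subset.2 ⟨hx, hy⟩)

theorem exists_pos_of_mass_pos {m : α → ℕ} {A : Finset α} (h : 0 < mass m A) :
    ∃ x ∈ A, 0 < m x := by
  by_contra hc
  push Not at hc
  have : mass m A = 0 := sum_eq_zero fun x hx => Nat.le_zero.1 (hc x hx)
  omega

/-- A rigid set is covered by the members inside it. -/
theorem Rig.exists_mem {H : Finset (Finset α)} (hH : Indep H) {X : Finset α} (hX : Rig H X)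
    {x : α} (hx : x ∈ X) : ∃ A ∈ H, x ∈ A ∧ A ⊆ X := by
  by_contra hc
  push Not at hc
  have h1 : sIn H X = sIn H (X.erase x) := by
    unfold sIn
    congr 1
    ext A
    simp only [mem_filter, and_congr_right_iff]
    intro hA
    constructor
    · intro h
      have hxA : x ∉ A := fun hxA => hc A hA hxA h
      exact fun t ht => mem_erase.2 ⟨fun h' => hxA (h' ▸ ht), h ht⟩
    · exact fun h => h.trans (erase_subset _ _)
  have h2 : w X = w (X.erase x) + 2 := by
    conv_lhs => rw [← insert_erase hx]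
    exact w_insert (notMem_erase x X)
  have h3 := hX.2
  by_cases h4 : 2 ≤ (X.erase x).card
  · have h5 := hH.nonneg _ h4
    unfold kk at *
    linarith
  · have h5 := sIn_eq_zero hH (A := X.erase x) (by omega)
    have h6 := w_pos hX.1
    unfold kk at h3
    linarith

/-- In a rigid set with at least three elements every vertex has weight at least two. -/
theorem Rig.two_le_weight {H : Finset (Finset α)} (hH : Indep H) {X : Finset α} (hX : Rig H X)
    (h3 : 3 ≤ X.card) {x : α} (hx : x ∈ X) :
    2 ≤ ∑ A ∈ H.filter (fun A => x ∈ A ∧ A ⊆ X), w A := by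
  have h1 : sIn H X = ∑ A ∈ H.filter (fun A => x ∈ A ∧ A ⊆ X), w A + sIn H (X.erase x) := by
    unfold sIn
    rw [← sum_filter_add_sum_filter_not (H.filter (fun A => A ⊆ X)) (fun A => x ∈ A) w]
    congr 1
    · apply sum_congr _ fun _ _ => rfl
      ext A
      simp only [mem_filter]
      tauto
    · apply sum_congr _ fun _ _ => rfl
      ext A
      simp only [mem_filter, and_assoc, and_congr_right_iff]
      intro _
      constructor
      · rintro ⟨h, hxA⟩ t ht
        exact mem_erase.2 ⟨fun h' => hxA (h' ▸ ht), h ht⟩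
      · intro h
        exact ⟨h.trans (erase_subset _ _), fun hxA => by simpa using h hxA⟩
  have h2 : w X = w (X.erase x) + 2 := by
    conv_lhs => rw [← insert_erase hx]
    exact w_insert (notMem_erase x X)
  have h4 : 2 ≤ (X.erase x).card := by rw [card_erase_of_mem hx]; omega
  have h5 := hH.nonneg _ h4
  have h6 := hX.2
  unfold kk at *
  linarith

/-- Total weight of the members containing `x`. -/
theorem sTo_singleton (H : Finset (Finset α)) (x : α) :
    sTo H {x} = ∑ A ∈ H.filter (fun A => x ∈ A), w A := by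
  unfold sTo
  apply sum_congr _ fun _ _ => rfl
  ext A
  simp only [mem_filter, and_congr_right_iff]
  intro _
  constructor
  · rintro ⟨y, hy⟩
    have := mem_inter.1 hy
    rw [mem_singleton.1 this.2] at this
    exact this.1
  · exact fun h => ⟨x, mem_inter.2 ⟨h, mem_singleton_self x⟩⟩

theorem kk_pair_le {H : Finset (Finset α)} (hH : Indep H) {x y : α} (hxy : x ≠ y) :
    kk H {x, y} ≤ 1 := by
  unfold kk
  rw [w_pair hxy]
  have := sIn_nonneg hH {x, y}
  linarith

/-- Every pairwise spanned set lies in one rigid set. -/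
theorem span_all {H : Finset (Finset α)} (hH : Indep H) {U : Finset α} (hU : 2 ≤ U.card)
    (h : ∀ x ∈ U, ∀ y ∈ U, x ≠ y → Span H x y) : ∃ X, Rig H X ∧ U ⊆ X := by
  classical
  obtain ⟨a, ha, b, hb, hab⟩ : ∃ a ∈ U, ∃ b ∈ U, a ≠ b := by
    obtain ⟨a, ha, b, hb, hab⟩ := one_lt_card.1 (by omega : 1 < U.card)
    exact ⟨a, ha, b, hb, hab⟩
  obtain ⟨X₀, hX₀, haX, hbX⟩ := h a ha b hb hab
  -- choose a rigid set with maximal trace on `U`
  let S : Finset (Finset α) := univ.filter (fun X => Rig H X ∧ a ∈ X ∧ b ∈ X)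
  have hS : S.Nonempty := ⟨X₀, mem_filter.2 ⟨mem_univ _, hX₀, haX, hbX⟩⟩
  obtain ⟨X, hXS, hmax⟩ := exists_max_image S (fun X => (X ∩ U).card) hS
  obtain ⟨_, hX, haX', hbX'⟩ := mem_filter.1 hXS
  refine ⟨X, hX, ?_⟩
  by_contra hc
  obtain ⟨c, hcU, hcX⟩ := not_subset.1 hc
  have hac : a ≠ c := fun h' => hcX (h' ▸ haX')
  have hbc : b ≠ c := fun h' => hcX (h' ▸ hbX')
  obtain ⟨Y, hY, hbY, hcY⟩ := h b hb c hcU hbc
  obtain ⟨Z, hZ, hcZ, haZ⟩ := h c hcU a ha hac.symm
  have hT := hX.triangle hH hY hZ hab hac hbc haX' hbX' hbY hcY hcZ haZ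
  have hmem : X ∪ Y ∪ Z ∈ S := mem_filter.2 ⟨mem_univ _, hT, by simp [haX'], by simp [hbX']⟩
  have h1 := hmax _ hmem
  have h2 : (X ∩ U).card < ((X ∪ Y ∪ Z) ∩ U).card := by
    apply card_lt_card
    refine ⟨inter_subset_inter (subset_union_left.trans subset_union_left) subset_rfl, ?_⟩
    intro h'
    have := h' (mem_inter.2 ⟨by simp [hcY], hcU⟩ : c ∈ (X ∪ Y ∪ Z) ∩ U)
    exact hcX (mem_inter.1 this).1
  omega

/-- Existence of a maximal rigid set above a rigid set. -/
theorem exists_max_rig {H : Finset (Finset α)} {X : Finset α} (hX : Rig H X) :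
    ∃ Y, Rig H Y ∧ X ⊆ Y ∧ ∀ Z, Rig H Z → Y ⊆ Z → Z = Y := by
  classical
  let S : Finset (Finset α) := univ.filter (fun Y => Rig H Y ∧ X ⊆ Y)
  have hS : S.Nonempty := ⟨X, mem_filter.2 ⟨mem_univ _, hX, subset_rfl⟩⟩
  obtain ⟨Y, hYS, hmax⟩ := exists_max_image S card hS
  obtain ⟨_, hY, hXY⟩ := mem_filter.1 hYS
  refine ⟨Y, hY, hXY, fun Z hZ hYZ => ?_⟩
  have := hmax Z (mem_filter.2 ⟨mem_univ _, hZ, hXY.trans hYZ⟩)
  exact (eq_of_subset_of_card_le hYZ this).symm

end Pool.Agent.GRA
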