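import Pool.Agent.GRA.Defs2
import Pool.Agent.GRA.Basic2

/-!
# GRA/G2: cuts, reachability, covers: basic lemmas

PROOFS.
`Closed.compl`: let `a ∈ univ \ (S ∪ L)`, `b ∉ S`, `{a,b} ∈ E`. If `b ∈ L` then `{b,a} = {a,b} ∈ E` and
`a ∉ S` give `a ∈ L`, contradiction. `Closed.anti`, `Reach.mono`: clear.
`Reach.symm`: `L` closed, `y ∈ L`. If `x ∉ L` then `x ∈ univ \ (S ∪ L)`, closed, so `y` is in it. Contradiction.
`reach_of_edges`: an `E'`-closed set `L` is `E`-closed: `a ∈ L`, `b ∉ S`, `{a,b} ∈ E`: `a ∉ S` by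
disjointness, `Reach E' S a b` gives `b ∈ L`.
`Closed.edge`: `e = {a,b}` (`card = 2`). If `a ∈ L`: `b ∈ S` or `b ∈ L`, so `e ⊆ L ∪ S`. Same if `b ∈ L`.
Otherwise `e ⊆ univ \ L`.
`CR.mono`: a cover of `K'` covers `K`. `MC.cr`: a cover `X` containing `univ` has weight ≥ `2n-3`
(weights ≥ 1); otherwise `MC`. `MC.cr_erase`: let `X` cover `K.erase f`; if `univ ∈ X` done. Otherwise
`insert f X` is a cover of `K` by proper subsets (`f ≠ univ` as `n ≥ 3`), so
`2n - 2 ≤ Σ_X w + w f = Σ_X w + 1` (if `f ∈ X` even better).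
`CR.conn1`: let `|S| ≤ 1`, `x, y ∉ S`, `L` closed, `x ∈ L`, and suppose `y ∉ L`.
First case `S = {p}`. Cover: `A = insert p L` (≥ 2 elements), `B = univ \ L ∋ p, y` (≥ 2). Every edge is in
`A` or `B` by `Closed.edge`. Weight `2(|L|+1) - 3 + 2(n-|L|) - 3 = 2n - 4`. (`A = B` is impossible, and
the sum over `{A, B}` is at most `w A + w B` anyway.) Contradiction.
Case `S = ∅`: choose `p ≠ x, y` (`n ≥ 3`). If `p ∉ L`, `L` is closed for `S = {p}`. If `p ∈ L`, `L.erase p`
is closed for `S = {p}`. In both cases the first case applies (`x` in the set, `y` not).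
`sep_of_not_conn`: `¬ Conn E 2` gives `S`, `|S| ≤ 2`, `x, y ∉ S`, `L` closed with `x ∈ L`, `y ∉ L`. As
`Conn E 1`, `|S| = 2`, `S = {u, v}`, `u ≠ v`. `K = L`, `M = univ \ (S ∪ L) ∋ y`. `edge` from `Closed.edge`.
`Sep.symm`, `Sep.flip`, `Sep.anti`: clear. `Sep.closedK`: from `edge`, `disj`. `Sep.card`:
`|K| + |M| + 2 = n`.
`exists_bad`: among all `Bad` covers take one with the minimal number of sets. Suppose `A ≠ B` in `X` and
`|A ∩ B| ≥ 2`. `w (A ∪ B) = w A + w B - w (A ∩ B) ≤ w A + w B - 1`. If `A ∪ B = univ`: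
`Σ_X w ≥ w A + w B = w univ + w (A ∩ B) ≥ 2n - 3 + 1`, contradicting `Bad`. Otherwise replace `A, B` by
`A ∪ B`: a `Bad` cover with fewer sets.
`nbr_submod`: a vertex of `nbr (A ∩ B)` is in `nbr A` or in `A`, and in `nbr B` or in `B`; a vertex in
`nbr (A ∪ B)` is in `nbr A` or `nbr B` and not in `A ∪ B`. So `nbr (A ∩ B) ∪ nbr (A ∪ B) ⊆ nbr A ∪ nbr B`
and `nbr (A ∩ B) ∩ nbr (A ∪ B) ⊆ nbr A ∩ nbr B` (an element of the left side is outside `A ∪ B` and has
neighbours in `A ∩ B`).
`closed_iff`: `Closed E S L ↔ Disjoint L S ∧ nbr E L ⊆ S`: clear.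
`exists_minFrag`: finiteness.
-/

namespace Pool.Agent.GRA

open Finset

variable {α : Type*} [Fintype α] [DecidableEq α]

theorem Closed.compl {E : Finset (Finset α)} {S L : Finset α} (h : Closed E S L) :
    Closed E S (univ \ (S ∪ L)) := by
  refine ⟨?_, ?_⟩
  · rw [disjoint_left]
    intro x hx hS
    exact (mem_sdiff.1 hx).2 (mem_union_left _ hS)
  · intro x hx y hy hxy
    have hx' := (mem_sdiff.1 hx).2
    refine mem_sdiff.2 ⟨mem_univ _, fun hyU => ?_⟩
    rcases mem_union.1 hyU with hyS | hyL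
    · exact hy hyS
    · have hxS : x ∉ S := fun h => hx' (mem_union_left _ h)
      have := h.2 y hyL x hxS (by rw [pair_comm]; exact hxy)
      exact hx' (mem_union_right _ this)

theorem Closed.anti {E E' : Finset (Finset α)} (hE : E ⊆ E') {S L : Finset α}
    (h : Closed E' S L) : Closed E S L :=
  ⟨h.1, fun x hx y hy hxy => h.2 x hx y hy (hE hxy)⟩

theorem closed_iff {E : Finset (Finset α)} {S L : Finset α} :
    Closed E S L ↔ Disjoint L S ∧ nbr E L ⊆ S := by
  constructor
  · intro h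
    refine ⟨h.1, fun y hy => ?_⟩
    obtain ⟨-, hyL, x, hx, hxy⟩ := mem_filter.1 hy
    by_contra hyS
    exact hyL (h.2 x hx y hyS hxy)
  · intro h
    refine ⟨h.1, fun x hx y hy hxy => ?_⟩
    by_contra hyL
    exact hy (h.2 (mem_filter.2 ⟨mem_univ _, hyL, x, hx, hxy⟩))

theorem nbr_submod (E : Finset (Finset α)) (A B : Finset α) :
    (nbr E (A ∩ B)).card + (nbr E (A ∪ B)).card ≤ (nbr E A).card + (nbr E B).card := by
  rw [← card_union_add_card_inter, ← card_union_add_card_inter (nbr E A) (nbr E B)]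
  refine Nat.add_le_add (card_le_card ?_) (card_le_card ?_)
  · intro y hy
    rcases mem_union.1 hy with h | h
    · obtain ⟨-, hyL, x, hx, hxy⟩ := mem_filter.1 h
      by_cases hyA : y ∈ A
      · have hyB : y ∉ B := fun h => hyL (mem_inter.2 ⟨hyA, h⟩)
        exact mem_union_right _ (mem_filter.2 ⟨mem_univ _, hyB, x, (mem_inter.1 hx).2, hxy⟩)
      · exact mem_union_left _ (mem_filter.2 ⟨mem_univ _, hyA, x, (mem_inter.1 hx).1, hxy⟩)
    · obtain ⟨-, hyL, x, hx, hxy⟩ := mem_filter.1 h
      have hyA : y ∉ A := fun h => hyL (mem_union_left _ h)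
      have hyB : y ∉ B := fun h => hyL (mem_union_right _ h)
      rcases mem_union.1 hx with hx | hx
      · exact mem_union_left _ (mem_filter.2 ⟨mem_univ _, hyA, x, hx, hxy⟩)
      · exact mem_union_right _ (mem_filter.2 ⟨mem_univ _, hyB, x, hx, hxy⟩)
  · intro y hy
    obtain ⟨h1, h2⟩ := mem_inter.1 hy
    obtain ⟨-, -, x, hx, hxy⟩ := mem_filter.1 h1
    obtain ⟨-, hyL, -⟩ := mem_filter.1 h2
    have hyA : y ∉ A := fun h => hyL (mem_union_left _ h)
    have hyB : y ∉ B := fun h => hyL (mem_union_right _ h)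
    exact mem_inter.2 ⟨mem_filter.2 ⟨mem_univ _, hyA, x, (mem_inter.1 hx).1, hxy⟩,
      mem_filter.2 ⟨mem_univ _, hyB, x, (mem_inter.1 hx).2, hxy⟩⟩

theorem Reach.refl (E : Finset (Finset α)) (S : Finset α) (x : α) : Reach E S x x :=
  fun _ _ h => h

theorem Reach.trans {E : Finset (Finset α)} {S : Finset α} {x y z : α} (h1 : Reach E S x y)
    (h2 : Reach E S y z) : Reach E S x z := fun L hL hx => h2 L hL (h1 L hL hx)

theorem Reach.symm {E : Finset (Finset α)} {S : Finset α} {x y : α} (hx : x ∉ S)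
    (h : Reach E S x y) : Reach E S y x := by
  intro L hL hy
  by_contra hxL
  have h1 : x ∈ univ \ (S ∪ L) := by
    refine mem_sdiff.2 ⟨mem_univ _, fun h => ?_⟩
    rcases mem_union.1 h with h | h
    · exact hx h
    · exact hxL h
  have h2 := h _ hL.compl h1
  exact (mem_sdiff.1 h2).2 (mem_union_right _ hy)

theorem Reach.mono {E E' : Finset (Finset α)} (hE : E ⊆ E') {S : Finset α} {x y : α}
    (h : Reach E S x y) : Reach E' S x y := fun L hL hx => h L (hL.anti hE) hx

theorem reach_edge {E : Finset (Finset α)} {S : Finset α} {x y : α}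
    (h : ({x, y} : Finset α) ∈ E) (hy : y ∉ S) : Reach E S x y :=
  fun L hL hx => hL.2 x hx y hy h

theorem reach_of_edges {E E' : Finset (Finset α)} {S : Finset α}
    (h : ∀ a b, ({a, b} : Finset α) ∈ E → a ∉ S → b ∉ S → Reach E' S a b) {x y : α}
    (hxy : Reach E S x y) : Reach E' S x y := by
  intro L hL hx
  refine hxy L ⟨hL.1, fun a ha b hb hab => ?_⟩ hx
  exact h a b hab (disjoint_left.1 hL.1 ha) hb L hL ha

theorem Closed.edge {E : Finset (Finset α)} (hE : IsG E) {S L : Finset α} (h : Closed E S L)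
    {e : Finset α} (he : e ∈ E) : e ⊆ L ∪ S ∨ e ⊆ univ \ L := by
  obtain ⟨a, b, hab, rfl⟩ := card_eq_two.1 (hE e he)
  by_cases ha : a ∈ L
  · left
    intro x hx
    rcases mem_insert.1 hx with rfl | hx
    · exact mem_union_left _ ha
    · rw [mem_singleton.1 hx]
      by_cases hb : b ∈ S
      · exact mem_union_right _ hb
      · exact mem_union_left _ (h.2 a ha b hb he)
  · by_cases hb : b ∈ L
    · left
      intro x hx
      rcases mem_insert.1 hx with rfl | hx
      · by_cases hx : x ∈ S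
        · exact mem_union_right _ hx
        · exact mem_union_left _ (h.2 b hb x hx (by rw [pair_comm]; exact he))
      · rw [mem_singleton.1 hx]
        exact mem_union_left _ hb
    · right
      intro x hx
      rcases mem_insert.1 hx with rfl | hx
      · exact mem_sdiff.2 ⟨mem_univ _, ha⟩
      · rw [mem_singleton.1 hx]
        exact mem_sdiff.2 ⟨mem_univ _, hb⟩

theorem CR.mono {K K' : Finset (Finset α)} (h : CR K) (hK : K ⊆ K') : CR K' :=
  fun X hX hc => h X hX fun B hB => hc B (hK hB)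

theorem MC.mono {K K' : Finset (Finset α)} (h : MC K) (hK : K ⊆ K') : MC K' :=
  fun X hX hc => h X hX fun B hB => hc B (hK hB)

private theorem sum_w_nonneg {X : Finset (Finset α)} (hX : ∀ A ∈ X, 2 ≤ A.card) :
    0 ≤ ∑ A ∈ X, w A := sum_nonneg fun A hA => by
  have := w_pos (hX A hA)
  linarith

private theorem w_univ_le {X : Finset (Finset α)} (hX : ∀ A ∈ X, 2 ≤ A.card)
    (h : (univ : Finset α) ∈ X) : 2 * (Fintype.card α : ℤ) - 3 ≤ ∑ A ∈ X, w A := by
  have h1 : w (univ : Finset α) ≤ ∑ A ∈ X, w A :=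
    single_le_sum (f := w) (fun A hA => by
      have := w_pos (hX A hA)
      linarith) h
  have h2 : w (univ : Finset α) = 2 * (Fintype.card α : ℤ) - 3 := by
    unfold w
    rw [card_univ]
  linarith

theorem MC.cr {K : Finset (Finset α)} (h : MC K) : CR K := by
  intro X hX hc
  by_cases hu : (univ : Finset α) ∈ X
  · exact w_univ_le hX hu
  · have h1 := h X (fun A hA => ⟨hX A hA, fun e => hu (e ▸ hA)⟩) hc
    linarith

theorem MC.cr_erase {K : Finset (Finset α)} (hn : 3 ≤ Fintype.card α) (h : MC K)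
    {f : Finset α} (hf : f.card = 2) : CR (K.erase f) := by
  intro X hX hc
  by_cases hu : (univ : Finset α) ∈ X
  · exact w_univ_le hX hu
  · have hfu : f ≠ univ := by
      rintro rfl
      rw [card_univ] at hf
      omega
    have h1 := h (insert f X) (fun A hA => by
      rcases mem_insert.1 hA with rfl | hA
      · exact ⟨by omega, hfu⟩
      · exact ⟨hX A hA, fun e => hu (e ▸ hA)⟩) (fun B hB => by
      by_cases hBf : B = f
      · exact ⟨f, mem_insert_self _ _, by rw [hBf]⟩
      · obtain ⟨A, hA, hBA⟩ := hc B (mem_erase.2 ⟨hBf, hB⟩)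
        exact ⟨A, mem_insert_of_mem hA, hBA⟩)
    have h2 : ∑ A ∈ insert f X, w A ≤ w f + ∑ A ∈ X, w A := by
      by_cases hfX : f ∈ X
      · rw [insert_eq_of_mem hfX]
        have := w_pos (hX f hfX)
        linarith
      · rw [sum_insert hfX]
    have h3 : w f = 1 := by
      unfold w
      rw [hf]
      norm_num
    linarith

/-- one deleted vertex -/
private theorem conn_one {E : Finset (Finset α)} (hE : IsG E) (h : CR E) {p x y : α}
    {L : Finset α} (hL : Closed E {p} L) (hx : x ∈ L) (hyp : y ≠ p) (hy : y ∉ L) : False := by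
  have hpL : p ∉ L := fun hp => disjoint_left.1 hL.1 hp (mem_singleton_self p)
  have hxp : x ≠ p := fun e => hpL (e ▸ hx)
  have hA : 2 ≤ (insert p L).card := by
    rw [card_insert_of_notMem hpL]
    have := card_pos.2 ⟨x, hx⟩
    omega
  have hB : 2 ≤ (univ \ L).card := by
    calc 2 = ({y, p} : Finset α).card := (card_pair hyp).symm
      _ ≤ _ := card_le_card (by
        intro z hz
        rcases mem_insert.1 hz with rfl | hz
        · exact mem_sdiff.2 ⟨mem_univ _, hy⟩
        · rw [mem_singleton.1 hz]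
          exact mem_sdiff.2 ⟨mem_univ _, hpL⟩)
  have h1 := h {insert p L, univ \ L} (fun A hA' => by
    rcases mem_insert.1 hA' with rfl | hA'
    · exact hA
    · rw [mem_singleton.1 hA']
      exact hB) (fun e he => by
    rcases hL.edge hE he with h2 | h2
    · refine ⟨insert p L, mem_insert_self _ _, h2.trans ?_⟩
      intro z hz
      rcases mem_union.1 hz with hz | hz
      · exact mem_insert_of_mem hz
      · rw [mem_singleton.1 hz]
        exact mem_insert_self _ _
    · exact ⟨univ \ L, mem_insert_of_mem (mem_singleton_self _), h2⟩)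
  have h2 : ∑ A ∈ ({insert p L, univ \ L} : Finset (Finset α)), w A ≤
      w (insert p L) + w (univ \ L) := by
    by_cases hAB : insert p L = univ \ L
    · rw [hAB, insert_eq_of_mem (mem_singleton_self _), sum_singleton]
      have := w_pos hB
      linarith
    · rw [sum_pair hAB]
  have h3 := w_insert hpL
  have h4 := w_compl L
  have h5 : w L = 2 * (L.card : ℤ) - 3 := rfl
  linarith

theorem CR.conn1 {E : Finset (Finset α)} (hE : IsG E) (hn : 3 ≤ Fintype.card α) (h : CR E) :
    Conn E 1 := by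
  intro S hS x y hx hy L hL hxL
  by_contra hyL
  rcases Nat.le_one_iff_eq_zero_or_eq_one.1 hS with h0 | h1
  · obtain rfl := card_eq_zero.1 h0
    have hp : ∃ p, p ∉ ({x, y} : Finset α) := by
      by_contra hc
      push Not at hc
      have h2 : (univ : Finset α) ⊆ {x, y} := fun z _ => hc z
      have h3 := card_le_card h2
      have h4 : ({x, y} : Finset α).card ≤ 2 := card_le_two
      rw [card_univ] at h3
      omega
    obtain ⟨p, hp⟩ := hp
    have hpx : x ≠ p := fun e => hp (by rw [e]; exact mem_insert_self _ _)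
    have hpy : y ≠ p := fun e => hp (by rw [e]; exact mem_insert_of_mem (mem_singleton_self _))
    by_cases hpL : p ∈ L
    · refine conn_one hE h (p := p) (L := L.erase p) (x := x) (y := y) ⟨?_, ?_⟩
        (mem_erase.2 ⟨hpx, hxL⟩) hpy (fun hc => hyL (mem_of_mem_erase hc))
      · rw [disjoint_left]
        intro z hz hz'
        exact (mem_erase.1 hz).1 (mem_singleton.1 hz')
      · intro a ha b hb hab
        exact mem_erase.2 ⟨fun e => hb (mem_singleton.2 e),
          hL.2 a (mem_of_mem_erase ha) b (notMem_empty b) hab⟩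
    · refine conn_one hE h (p := p) (L := L) (x := x) (y := y) ⟨?_, ?_⟩ hxL hpy hyL
      · rw [disjoint_left]
        intro z hz hz'
        exact hpL (mem_singleton.1 hz' ▸ hz)
      · intro a ha b hb hab
        exact hL.2 a ha b (notMem_empty b) hab
  · obtain ⟨p, rfl⟩ := card_eq_one.1 h1
    exact conn_one hE h hL hxL (fun e => hy (mem_singleton.2 e)) hyL

theorem sep_of_not_conn {E : Finset (Finset α)} (hE : IsG E) (h1 : Conn E 1)
    (h2 : ¬ Conn E 2) : ∃ u v K M, Sep E u v K M := by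
  unfold Conn at h2
  push Not at h2
  obtain ⟨S, hS, x, y, hx, hy, hr⟩ := h2
  have hS1 : ¬ S.card ≤ 1 := fun hc => hr (h1 S hc x y hx hy)
  obtain ⟨u, v, huv, rfl⟩ := card_eq_two.1 (by omega : S.card = 2)
  unfold Reach at hr
  push Not at hr
  obtain ⟨L, hL, hxL, hyL⟩ := hr
  have hdis := disjoint_left.1 hL.1
  have hu : u ∉ L := fun h => hdis h (mem_insert_self _ _)
  have hv : v ∉ L := fun h => hdis h (mem_insert_of_mem (mem_singleton_self _))
  refine ⟨u, v, L, univ \ ({u, v} ∪ L), huv, hu, hv, ?_, ?_, ?_, ?_, ⟨x, hxL⟩, ⟨y, ?_⟩, ?_⟩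
  · intro h
    exact (mem_sdiff.1 h).2 (mem_union_left _ (mem_insert_self _ _))
  · intro h
    exact (mem_sdiff.1 h).2 (mem_union_left _ (mem_insert_of_mem (mem_singleton_self _)))
  · rw [disjoint_left]
    intro z hz hz'
    exact (mem_sdiff.1 hz').2 (mem_union_right _ hz)
  · intro z
    simp only [mem_sdiff, mem_univ, true_and, mem_union, mem_insert, mem_singleton]
    tauto
  · refine mem_sdiff.2 ⟨mem_univ _, fun h => ?_⟩
    rcases mem_union.1 h with h | h
    · exact hy h
    · exact hyL h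
  · intro e he
    rcases hL.edge hE he with h | h
    · left
      intro z hz
      have := h hz
      simp only [mem_union, mem_insert, mem_singleton] at this ⊢
      tauto
    · right
      intro z hz
      have := h hz
      simp only [mem_sdiff, mem_univ, true_and, mem_union, mem_insert, mem_singleton] at this ⊢
      tauto

theorem Sep.symm {E : Finset (Finset α)} {u v : α} {K M : Finset α} (h : Sep E u v K M) :
    Sep E u v M K :=
  ⟨h.ne, h.uM, h.vM, h.uK, h.vK, h.disj.symm, fun x => by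
    have := h.top x
    tauto, h.M0, h.K0, fun e he => (h.edge e he).symm⟩

theorem Sep.flip {E : Finset (Finset α)} {u v : α} {K M : Finset α} (h : Sep E u v K M) :
    Sep E v u K M :=
  ⟨h.ne.symm, h.vK, h.uK, h.vM, h.uM, h.disj, fun x => by
    have := h.top x
    tauto, h.K0, h.M0, fun e he => by
    rw [insert_comm v u K, insert_comm v u M]
    exact h.edge e he⟩

theorem Sep.anti {E E' : Finset (Finset α)} (hE : E ⊆ E') {u v : α} {K M : Finset α}
    (h : Sep E' u v K M) : Sep E u v K M :=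
  ⟨h.ne, h.uK, h.vK, h.uM, h.vM, h.disj, h.top, h.K0, h.M0, fun e he => h.edge e (hE he)⟩

theorem Sep.closedK {E : Finset (Finset α)} {u v : α} {K M : Finset α} (h : Sep E u v K M) :
    Closed E {u, v} K := by
  refine ⟨?_, ?_⟩
  · rw [disjoint_left]
    intro z hz hz'
    rcases mem_insert.1 hz' with rfl | hz'
    · exact h.uK hz
    · rw [mem_singleton.1 hz'] at hz
      exact h.vK hz
  · intro x hx y hy hxy
    rcases h.edge _ hxy with h1 | h1
    · have := h1 (mem_insert_of_mem (mem_singleton_self y))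
      simp only [mem_insert, mem_singleton] at this hy
      tauto
    · have h2 := h1 (mem_insert_self x _)
      simp only [mem_insert] at h2
      rcases h2 with rfl | rfl | h2
      · exact absurd hx h.uK
      · exact absurd hx h.vK
      · exact absurd h2 (disjoint_left.1 h.disj hx)

theorem Sep.card {E : Finset (Finset α)} {u v : α} {K M : Finset α} (h : Sep E u v K M) :
    K.card + M.card + 2 = Fintype.card α := by
  have h1 : (univ : Finset α) = insert u (insert v (K ∪ M)) := by
    ext z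
    have := h.top z
    simp only [mem_univ, mem_insert, mem_union, true_iff]
    tauto
  have hv : v ∉ K ∪ M := fun hc => (mem_union.1 hc).elim h.vK h.vM
  have hu : u ∉ insert v (K ∪ M) := by
    intro hc
    rcases mem_insert.1 hc with h2 | h2
    · exact h.ne h2
    · exact (mem_union.1 h2).elim h.uK h.uM
  rw [← card_univ, h1, card_insert_of_notMem hu, card_insert_of_notMem hv,
    card_union_of_disjoint h.disj]

theorem exists_bad {K : Finset (Finset α)} (h : ¬ MC K) :
    ∃ X, Bad K X ∧ (∀ Y, Bad K Y → X.card ≤ Y.card) ∧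
      ∀ A ∈ X, ∀ B ∈ X, A ≠ B → (A ∩ B).card ≤ 1 := by
  classical
  have h0 : ∃ m, ∃ X, Bad K X ∧ X.card = m := by
    unfold MC at h
    push Not at h
    obtain ⟨X, h1, h2, h3⟩ := h
    exact ⟨_, X, ⟨h1, h2, by linarith⟩, rfl⟩
  obtain ⟨X, hX, hXm⟩ := Nat.find_spec h0
  have hmin : ∀ Y, Bad K Y → X.card ≤ Y.card := by
    intro Y hY
    rw [hXm]
    exact Nat.find_min' h0 ⟨Y, hY, rfl⟩
  refine ⟨X, hX, hmin, ?_⟩
  intro A hA B hB hAB
  by_contra hc
  obtain ⟨b1, b2, b3⟩ := hX
  have hc2 : 2 ≤ (A ∩ B).card := by omega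
  have hw := w_union_inter A B
  have hw1 := w_pos hc2
  have hB' : B ∈ X.erase A := mem_erase.2 ⟨hAB.symm, hB⟩
  set Y := (X.erase A).erase B with hY
  have hsum : ∑ Z ∈ X, w Z = w A + (w B + ∑ Z ∈ Y, w Z) := by
    rw [hY, add_sum_erase _ _ hB', add_sum_erase _ _ hA]
  have hYX : ∀ Z ∈ Y, Z ∈ X := fun Z hZ => mem_of_mem_erase (mem_of_mem_erase hZ)
  have hYn : 0 ≤ ∑ Z ∈ Y, w Z := sum_w_nonneg fun Z hZ => (b1 Z (hYX Z hZ)).1
  by_cases hu : A ∪ B = univ
  · rw [hu] at hw
    have h2 : w (univ : Finset α) = 2 * (Fintype.card α : ℤ) - 3 := by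
      unfold w
      rw [card_univ]
    linarith
  · have hU2 : 2 ≤ (A ∪ B).card := (b1 A hA).1.trans (card_le_card subset_union_left)
    have hle : ∑ Z ∈ insert (A ∪ B) Y, w Z ≤ w (A ∪ B) + ∑ Z ∈ Y, w Z := by
      by_cases hm : A ∪ B ∈ Y
      · rw [insert_eq_of_mem hm]
        have := w_pos hU2
        linarith
      · rw [sum_insert hm]
    have hbad : Bad K (insert (A ∪ B) Y) := by
      refine ⟨?_, ?_, by linarith⟩
      · intro Z hZ
        rcases mem_insert.1 hZ with rfl | hZ
        · exact ⟨hU2, hu⟩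
        · exact b1 Z (hYX Z hZ)
      · intro C hC
        obtain ⟨Z, hZ, hCZ⟩ := b2 C hC
        by_cases hZA : Z = A
        · exact ⟨A ∪ B, mem_insert_self _ _, hCZ.trans (hZA ▸ subset_union_left)⟩
        · by_cases hZB : Z = B
          · exact ⟨A ∪ B, mem_insert_self _ _, hCZ.trans (hZB ▸ subset_union_right)⟩
          · exact ⟨Z, mem_insert_of_mem (mem_erase.2 ⟨hZB, mem_erase.2 ⟨hZA, hZ⟩⟩), hCZ⟩
    have h1 := hmin _ hbad
    have h2 := card_insert_le (A ∪ B) Y
    have h3 : Y.card + 1 = (X.erase A).card := card_erase_add_one hB'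
    have h4 : (X.erase A).card + 1 = X.card := card_erase_add_one hA
    omega

theorem exists_minFrag {E : Finset (Finset α)} {L : Finset α} (hL : Frag E L) :
    ∃ L', MinFrag E L' ∧ L' ⊆ L := by
  classical
  have h0 : ∃ m, ∃ L', Frag E L' ∧ L' ⊆ L ∧ L'.card = m := ⟨_, L, hL, subset_rfl, rfl⟩
  obtain ⟨L', h1, h2, h3⟩ := Nat.find_spec h0
  refine ⟨L', ⟨h1, fun L'' h4 h5 => ?_⟩, h2⟩
  have h6 := Nat.find_min' h0 ⟨L'', h4, h5.trans h2, rfl⟩
  exact eq_of_subset_of_card_le h5 (by omega)

end Pool.Agent.GRA
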