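import Pool.Agent.GRA.LS
import Pool.Agent.GRA.G2

/-!
# GRA/CN: the connectivity tests are correct

`toF n S` = the set of the `x : Fin n` with `x ∈ S`.
PROOF of `reachL_iff`. For `x ∉ S`: `y ∈ reachL (vs n S) (adjB l) x ↔ Reach (gr n l) (toF n S) x y`. By `mem_reachL` the left
side is `ReflTransGen (fun u v => v ∈ vs n S ∧ adjB l u v) x y`. (→) induction: a step from `u` to `v` with `v ∉ S`,
`u ≠ v`, `adjB l u v` is an edge `{u,v} ∈ gr n l` (`reach_edge`, `Reach.trans`); note all vertices on the way are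
`< n` (members of `vs n S`). (←) The set `L` of the `z : Fin n` with `z ∈ reachL …` is closed for
`(gr n l, toF n S)` and contains `x`, so it contains `y`.
`connB_iff`, `conn3B_iff`: `toF n [s,t] = {s,t}`; every `S` with at most two elements is `∅` or `toF n [s,t]`
(`s = t` allowed).
PROOF of `ncomp_spec`. Let `V' = univ \ {u,v}`, `cl x` = the set of the vertices reachable from `x ∈ V'` (closed,
contains `x`; `y ∈ cl x ↔ x ∈ cl y` by `Reach.symm`). `ncompB n l u v` = number of `x ∈ V'` which are the least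
element of `cl x`. The family `{cl x : x ∈ V'}` consists of pairwise disjoint nonempty closed sets and has
`ncompB n l u v` members, so `CompB` implies `ncompB ≤ γ + 1`. Conversely, a family `P` of pairwise disjoint
nonempty closed sets: map `A ∈ P` to its least element `x_A`; `cl x_A ⊆ A`, so `x_A` is the least element of
`cl x_A`; injective. So `|P| ≤ ncompB n l u v`. Unordered pairs: `{u,v} = {v,u}`, `pairsL n` contains one of the
two orders.
-/

namespace Pool.Agent.GRA

open Finset
open Pool.Agent.DPO (reachStep reachL)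

def toF (n : ℕ) (S : List ℕ) : Finset (Fin n) := univ.filter (fun x => (x : ℕ) ∈ S)

private theorem mem_vs {n : ℕ} {S : List ℕ} {v : ℕ} : v ∈ vs n S ↔ v < n ∧ v ∉ S := by
  simp [vs]

private theorem mem_toF {n : ℕ} {S : List ℕ} {x : Fin n} : x ∈ toF n S ↔ (x : ℕ) ∈ S := by
  simp [toF]

theorem reachL_iff {n : ℕ} {l : List (ℕ × ℕ)} {S : List ℕ} {x y : Fin n} (hx : (x : ℕ) ∉ S) :
    (y : ℕ) ∈ reachL (vs n S) (adjB l) (x : ℕ) ↔ Reach (gr n l) (toF n S) x y := by
  classical
  have hxV : (x : ℕ) ∈ vs n S := mem_vs.2 ⟨x.2, hx⟩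
  rw [DPO.mem_reachL hxV]
  constructor
  · intro h
    have key : ∀ t : ℕ, Relation.ReflTransGen (fun u v => v ∈ vs n S ∧ adjB l u v = true)
        (x : ℕ) t → ∃ ht : t < n, Reach (gr n l) (toF n S) x ⟨t, ht⟩ := by
      intro t h
      induction h with
      | refl => exact ⟨x.2, Reach.refl _ _ _⟩
      | @tail b c _ hbc ih =>
        obtain ⟨hb, h1⟩ := ih
        obtain ⟨hc, hcS⟩ := mem_vs.1 hbc.1
        refine ⟨hc, ?_⟩
        by_cases hbc' : b = c
        · subst hbc'
          exact h1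
        · refine h1.trans (reach_edge (mem_gr.2 ⟨fun e => hbc' (congrArg Fin.val e), hbc.2⟩) ?_)
          rw [mem_toF]
          exact hcS
    obtain ⟨_, h1⟩ := key _ h
    exact h1
  · intro h
    have hL : Closed (gr n l) (toF n S) (univ.filter (fun z : Fin n => (z : ℕ) ∉ S ∧
        Relation.ReflTransGen (fun u v => v ∈ vs n S ∧ adjB l u v = true) (x : ℕ) (z : ℕ))) := by
      refine ⟨?_, ?_⟩
      · rw [disjoint_left]
        intro z hz hz'
        exact (mem_filter.1 hz).2.1 (mem_toF.1 hz')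
      · intro a ha b hb hab
        obtain ⟨-, -, ha⟩ := mem_filter.1 ha
        rw [mem_toF] at hb
        obtain ⟨_, hab⟩ := mem_gr.1 hab
        exact mem_filter.2 ⟨mem_univ _, hb, ha.tail ⟨mem_vs.2 ⟨b.2, hb⟩, hab⟩⟩
    exact (mem_filter.1 (h _ hL (mem_filter.2 ⟨mem_univ _, hx, .refl⟩))).2.2

private theorem connB_iff {n : ℕ} {l : List (ℕ × ℕ)} {S : List ℕ} : connB n l S = true ↔
    ∀ x y : Fin n, x ∉ toF n S → y ∉ toF n S → Reach (gr n l) (toF n S) x y := by
  unfold connB
  simp only [List.all_eq_true, decide_eq_true_eq]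
  constructor
  · intro h x y hx hy
    rw [mem_toF] at hx hy
    exact (reachL_iff hx).1 (h x (mem_vs.2 ⟨x.2, hx⟩) y (mem_vs.2 ⟨y.2, hy⟩))
  · intro h x hx y hy
    obtain ⟨hx1, hx2⟩ := mem_vs.1 hx
    obtain ⟨hy1, hy2⟩ := mem_vs.1 hy
    have h1 := h ⟨x, hx1⟩ ⟨y, hy1⟩ (by rw [mem_toF]; exact hx2) (by rw [mem_toF]; exact hy2)
    exact (reachL_iff (x := ⟨x, hx1⟩) (y := ⟨y, hy1⟩) hx2).2 h1

private theorem toF_pair {n : ℕ} (u v : Fin n) : toF n [(u : ℕ), (v : ℕ)] = {u, v} := by
  ext x
  simp [mem_toF, Fin.ext_iff]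

theorem conn3B_iff {n : ℕ} {l : List (ℕ × ℕ)} : conn3B n l = true ↔ Conn (gr n l) 2 := by
  unfold conn3B
  simp only [Bool.and_eq_true, List.all_eq_true, List.mem_range, connB_iff]
  constructor
  · rintro ⟨h0, h1⟩ S hS x y hx hy
    rcases Nat.lt_or_ge S.card 1 with h | h
    · obtain rfl := card_eq_zero.1 (by omega : S.card = 0)
      have e : toF n [] = ∅ := by
        ext z
        simp [mem_toF]
      rw [e] at h0
      exact h0 x y hx hy
    · rcases Nat.lt_or_ge S.card 2 with h' | h'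
      · obtain ⟨a, rfl⟩ := card_eq_one.1 (by omega : S.card = 1)
        have h2 := h1 a a.2 a a.2
        rw [toF_pair, insert_eq_of_mem (mem_singleton_self a)] at h2
        exact h2 x y hx hy
      · obtain ⟨a, b, _, rfl⟩ := card_eq_two.1 (by omega : S.card = 2)
        have h2 := h1 a a.2 b b.2
        rw [toF_pair] at h2
        exact h2 x y hx hy
  · intro h
    refine ⟨fun x y hx hy => h _ ?_ x y hx hy, fun s hs t ht x y hx hy => h _ ?_ x y hx hy⟩
    · have e : toF n [] = ∅ := by
        ext z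
        simp [mem_toF]
      rw [e]
      simp
    · have e := toF_pair ⟨s, hs⟩ ⟨t, ht⟩
      rw [e]
      exact card_le_two

private theorem not_mem_of_reach {n : ℕ} {E : Finset (Finset (Fin n))} {S : Finset (Fin n)}
    {x y : Fin n} (hx : x ∉ S) (h : Reach E S x y) : y ∉ S := by
  have h1 : Closed E S (univ \ S) := by
    refine ⟨?_, fun a _ b hb _ => mem_sdiff.2 ⟨mem_univ _, hb⟩⟩
    rw [disjoint_left]
    intro z hz
    exact (mem_sdiff.1 hz).2
  exact (mem_sdiff.1 (h _ h1 (mem_sdiff.2 ⟨mem_univ _, hx⟩))).2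

open Classical in
/-- the least elements of the components -/
private noncomputable def mins {n : ℕ} (E : Finset (Finset (Fin n))) (S : Finset (Fin n)) :
    Finset (Fin n) := univ.filter (fun x => x ∉ S ∧ ∀ y, Reach E S x y → x ≤ y)

private theorem mem_mins {n : ℕ} {E : Finset (Finset (Fin n))} {S : Finset (Fin n)} {x : Fin n} :
    x ∈ mins E S ↔ x ∉ S ∧ ∀ y, Reach E S x y → x ≤ y := by
  classical
  simp [mins]

private theorem ncompB_eq {n : ℕ} {l : List (ℕ × ℕ)} (u v : Fin n) :
    ncompB n l u v = (mins (gr n l) {u, v}).card := by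
  classical
  unfold ncompB
  have hnd : ((vs n [(u : ℕ), (v : ℕ)]).filter (fun x =>
      (reachL (vs n [(u : ℕ), (v : ℕ)]) (adjB l) x).all (fun y => decide (x ≤ y)))).Nodup := by
    unfold vs
    exact (List.nodup_range.filter _).filter _
  rw [← List.toFinset_card_of_nodup hnd, ← card_map Fin.valEmbedding]
  congr 1
  ext x
  rw [List.mem_toFinset, List.mem_filter, mem_map]
  simp only [List.all_eq_true, decide_eq_true_eq]
  constructor
  · rintro ⟨h1, h2⟩
    obtain ⟨hx, hxS⟩ := mem_vs.1 h1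
    refine ⟨⟨x, hx⟩, mem_mins.2 ⟨?_, fun y hy => ?_⟩, rfl⟩
    · rw [← toF_pair, mem_toF]
      exact hxS
    · rw [← toF_pair] at hy
      exact h2 y ((reachL_iff (x := ⟨x, hx⟩) hxS).2 hy)
  · rintro ⟨x, hx, rfl⟩
    obtain ⟨h1, h2⟩ := mem_mins.1 hx
    rw [← toF_pair, mem_toF] at h1
    refine ⟨mem_vs.2 ⟨x.2, h1⟩, fun y hy => ?_⟩
    have hyn : y < n := by
      rcases Relation.ReflTransGen.cases_tail ((DPO.mem_reachL (mem_vs.2 ⟨x.2, h1⟩)).1 hy) with
        h3 | ⟨c, _, h3, _⟩
      · rw [h3]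
        exact x.2
      · exact (mem_vs.1 h3).1
    have h3 := (reachL_iff (y := ⟨y, hyn⟩) h1).1 hy
    rw [toF_pair] at h3
    exact h2 _ h3

theorem ncomp_spec {n : ℕ} {l : List (ℕ × ℕ)} {γ : ℕ} :
    CompB (gr n l) γ ↔ ∀ p ∈ pairsL n, ncompB n l p.1 p.2 ≤ γ + 1 := by
  classical
  constructor
  · intro h p hp
    obtain ⟨h1, h2⟩ := mem_pairsL.1 hp
    obtain ⟨u, hu⟩ : ∃ u : Fin n, (u : ℕ) = p.1 := ⟨⟨p.1, h1.trans h2⟩, rfl⟩
    obtain ⟨v, hv⟩ : ∃ v : Fin n, (v : ℕ) = p.2 := ⟨⟨p.2, h2⟩, rfl⟩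
    rw [← hu, ← hv, ncompB_eq]
    have huv : u ≠ v := by
      rintro rfl
      omega
    set E := gr n l with hE
    set S : Finset (Fin n) := {u, v} with hS
    have hcl : ∀ x ∉ S, Closed E S (univ.filter (fun y => Reach E S x y)) := by
      intro x hx
      refine ⟨?_, fun a ha b hb hab => ?_⟩
      · rw [disjoint_left]
        intro z hz
        exact not_mem_of_reach hx (mem_filter.1 hz).2
      · exact mem_filter.2 ⟨mem_univ _, (mem_filter.1 ha).2.trans (reach_edge hab hb)⟩
    have h3 := h u v huv ((mins E S).image (fun x => univ.filter (fun y => Reach E S x y))) ?_ ?_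
    · rw [card_image_of_injOn] at h3
      · exact h3
      · intro x hx y hy hxy
        have hx' := mem_mins.1 (mem_coe.1 hx)
        have hy' := mem_mins.1 (mem_coe.1 hy)
        have hxy' : univ.filter (fun z => Reach E S x z) = univ.filter (fun z => Reach E S y z) := hxy
        have h4 : y ∈ univ.filter (fun z => Reach E S x z) := by
          rw [hxy']
          exact mem_filter.2 ⟨mem_univ _, Reach.refl _ _ _⟩
        have h5 : x ∈ univ.filter (fun z => Reach E S y z) := by
          rw [← hxy']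
          exact mem_filter.2 ⟨mem_univ _, Reach.refl _ _ _⟩
        exact le_antisymm (hx'.2 y (mem_filter.1 h4).2) (hy'.2 x (mem_filter.1 h5).2)
    · intro A hA
      obtain ⟨x, hx, rfl⟩ := mem_image.1 hA
      exact ⟨⟨x, mem_filter.2 ⟨mem_univ _, Reach.refl _ _ _⟩⟩, hcl x (mem_mins.1 hx).1⟩
    · intro A hA B hB hAB
      obtain ⟨x, hx, rfl⟩ := mem_image.1 hA
      obtain ⟨y, hy, rfl⟩ := mem_image.1 hB
      rw [disjoint_left]
      intro z hz hz'
      apply hAB
      have h4 := (mem_filter.1 hz).2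
      have h5 := (mem_filter.1 hz').2
      have h6 : Reach E S x y := h4.trans (h5.symm (mem_mins.1 hy).1)
      have h7 : Reach E S y x := h6.symm (mem_mins.1 hx).1
      ext t
      simp only [mem_filter, mem_univ, true_and]
      exact ⟨fun h => h7.trans h, fun h => h6.trans h⟩
  · intro h u v huv P hP hPd
    have key : ∀ u v : Fin n, u < v → ∀ P : Finset (Finset (Fin n)),
        (∀ A ∈ P, A.Nonempty ∧ Closed (gr n l) {u, v} A) →
        (∀ A ∈ P, ∀ B ∈ P, A ≠ B → Disjoint A B) → P.card ≤ γ + 1 := by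
      intro u v huv P hP hPd
      have h1 := h ((u : ℕ), (v : ℕ)) (mem_pairsL.2 ⟨huv, v.2⟩)
      have h2 : ncompB n l u v = (mins (gr n l) {u, v}).card := ncompB_eq u v
      refine le_trans ?_ (h2 ▸ h1)
      refine card_le_card_of_injOn (fun A => if h : A.Nonempty then A.min' h else u) ?_ ?_
      · intro A hA
        have hA' := hP A (mem_coe.1 hA)
        simp only [dif_pos hA'.1]
        rw [mem_coe, mem_mins]
        have h3 := min'_mem A hA'.1
        exact ⟨disjoint_left.1 hA'.2.1 h3, fun y hy => min'_le _ _ (hy A hA'.2 h3)⟩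
      · intro A hA B hB hAB
        have hA' := hP A (mem_coe.1 hA)
        have hB' := hP B (mem_coe.1 hB)
        simp only [dif_pos hA'.1, dif_pos hB'.1] at hAB
        by_contra hne
        have h3 := min'_mem A hA'.1
        have h4 := min'_mem B hB'.1
        rw [← hAB] at h4
        exact disjoint_left.1 (hPd A (mem_coe.1 hA) B (mem_coe.1 hB) hne) h3 h4
    rcases lt_or_gt_of_ne huv with h1 | h1
    · exact key u v h1 P hP hPd
    · refine key v u h1 P (fun A hA => ?_) hPd
      rw [pair_comm]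
      exact hP A hA

end Pool.Agent.GRA
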