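import Mathlib

/-!
# MP_d7d610_lc: globally rigid augmentation, combinatorial definitions

All graphs on the finite vertex type `α` are families `E : Finset (Finset α)` of two-element sets.
-/

namespace Pool.Agent.GRA

open Finset

variable {α : Type*} [Fintype α] [DecidableEq α]

/-- The weight `2|X| - 3`. -/
def w (X : Finset α) : ℤ := 2 * (X.card : ℤ) - 3

/-- Total weight of the members of `H` contained in `T`. -/
def sIn (H : Finset (Finset α)) (T : Finset α) : ℤ := ∑ X ∈ H.filter (fun X => X ⊆ T), w X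

/-- Defect of `T`: `w T` minus the total weight of the members inside `T`. -/
def kk (H : Finset (Finset α)) (T : Finset α) : ℤ := w T - sIn H T

/-- Total weight of the members of `H` meeting `C`. -/
def sTo (H : Finset (Finset α)) (C : Finset α) : ℤ :=
  ∑ X ∈ H.filter (fun X => (X ∩ C).Nonempty), w X

/-- The demand of `C`. -/
def gg (H : Finset (Finset α)) (C : Finset α) : ℤ := 2 * (C.card : ℤ) + 1 - sTo H C

/-- Independent families. -/
structure Indep (H : Finset (Finset α)) : Prop where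
  two : ∀ X ∈ H, 2 ≤ X.card
  nonneg : ∀ X : Finset α, 2 ≤ X.card → 0 ≤ kk H X

/-- Degrees of freedom of the whole family. -/
def dof (H : Finset (Finset α)) : ℤ := kk H univ

/-- Rigid (tight) sets. -/
def Rig (H : Finset (Finset α)) (X : Finset α) : Prop := 2 ≤ X.card ∧ kk H X = 0

/-- The pair `x, y` lies in a rigid set. -/
def Span (H : Finset (Finset α)) (x y : α) : Prop := ∃ X, Rig H X ∧ x ∈ X ∧ y ∈ X

/-- Mass of a set. -/
def mass (m : α → ℕ) (C : Finset α) : ℕ := ∑ v ∈ C, m v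

/-- `m` satisfies all demands of sets whose complement has at least two elements. -/
def Feas (H : Finset (Finset α)) (m : α → ℕ) : Prop :=
  ∀ C : Finset α, C.Nonempty → 2 ≤ (univ \ C).card → gg H C ≤ (mass m C : ℤ)

/-- `m` satisfies all demands. -/
def FeasAll (H : Finset (Finset α)) (m : α → ℕ) : Prop :=
  ∀ C : Finset α, C.Nonempty → gg H C ≤ (mass m C : ℤ)

/-- The family `K` is M-connected on `univ`: every cover by proper subsets has weight at
least `2n - 2`. -/
def MC (K : Finset (Finset α)) : Prop :=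
  ∀ X : Finset (Finset α), (∀ A ∈ X, 2 ≤ A.card ∧ A ≠ univ) → (∀ B ∈ K, ∃ A ∈ X, B ⊆ A) →
    2 * (Fintype.card α : ℤ) - 2 ≤ ∑ A ∈ X, w A

/-- The family `K` is M-connected on the set `W`. -/
def MCon (K : Finset (Finset α)) (W : Finset α) : Prop :=
  ∀ X : Finset (Finset α), (∀ A ∈ X, 2 ≤ A.card ∧ A ⊆ W ∧ A ≠ W) →
    (∀ B ∈ K, B ⊆ W → ∃ A ∈ X, B ⊆ A) → 2 * (W.card : ℤ) - 2 ≤ ∑ A ∈ X, w A

/-- `C` is tight with demand at least two. -/
def Tight2 (H : Finset (Finset α)) (m : α → ℕ) (C : Finset α) : Prop :=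
  2 ≤ (univ \ C).card ∧ (mass m C : ℤ) = gg H C ∧ 2 ≤ gg H C

/-- A fat set `L` with boundary `u, v`. -/
def FatAt (H : Finset (Finset α)) (L : Finset α) (u v : α) : Prop :=
  u ≠ v ∧ u ∉ L ∧ v ∉ L ∧ 2 ≤ L.card ∧
  (∀ X ∈ H, (X ∩ L).Nonempty → X ⊆ insert u (insert v L) ∨ insert u (insert v L) ⊆ X) ∧
  (∀ C, C ⊆ L → C.Nonempty → gg H C ≤ 0)

/-- A fat set whose closure is not everything. -/
def Fat (H : Finset (Finset α)) (L : Finset α) : Prop :=
  ∃ u v, FatAt H L u v ∧ insert u (insert v L) ≠ univ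

end Pool.Agent.GRA
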