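import Pool.Agent.GRA.Defs

/-!
# MP_d7d610_lc: graphs, cuts, fragments, canonical families
-/

namespace Pool.Agent.GRA

open Finset

variable {α : Type*} [Fintype α] [DecidableEq α]

/-- A graph: a family of pairs. -/
def IsG (E : Finset (Finset α)) : Prop := ∀ e ∈ E, e.card = 2

/-- `K` is cover-rigid: every cover (the set `univ` is allowed) has weight at least `2n - 3`. -/
def CR (K : Finset (Finset α)) : Prop :=
  ∀ X : Finset (Finset α), (∀ A ∈ X, 2 ≤ A.card) → (∀ B ∈ K, ∃ A ∈ X, B ⊆ A) →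
    2 * (Fintype.card α : ℤ) - 3 ≤ ∑ A ∈ X, w A

/-- `L` avoids `S` and every neighbour of `L` outside `S` is in `L`. -/
def Closed (E : Finset (Finset α)) (S L : Finset α) : Prop :=
  Disjoint L S ∧ ∀ x ∈ L, ∀ y, y ∉ S → ({x, y} : Finset α) ∈ E → y ∈ L

/-- `y` can be reached from `x` in the graph minus `S`. -/
def Reach (E : Finset (Finset α)) (S : Finset α) (x y : α) : Prop :=
  ∀ L, Closed E S L → x ∈ L → y ∈ L

/-- The graph stays connected after the deletion of any `k` (or fewer) vertices. -/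
def Conn (E : Finset (Finset α)) (k : ℕ) : Prop :=
  ∀ S : Finset α, S.card ≤ k → ∀ x y, x ∉ S → y ∉ S → Reach E S x y

/-- Neighbours of the set `L` (outside `L`). -/
def nbr (E : Finset (Finset α)) (L : Finset α) : Finset α :=
  univ.filter (fun y => y ∉ L ∧ ∃ x ∈ L, ({x, y} : Finset α) ∈ E)

/-- Fragments: nonempty sets with at most two neighbours `u, v` and a vertex outside. -/
def Frag (E : Finset (Finset α)) (L : Finset α) : Prop :=
  L.Nonempty ∧ ∃ u v, u ≠ v ∧ Closed E {u, v} L ∧ insert u (insert v L) ≠ univ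

/-- Minimal fragments. -/
def MinFrag (E : Finset (Finset α)) (L : Finset α) : Prop :=
  Frag E L ∧ ∀ L', Frag E L' → L' ⊆ L → L' = L

/-- Some pair in `F` meets `L`. -/
def Touch (F : Finset (Finset α)) (L : Finset α) : Prop := ∃ f ∈ F, (f ∩ L).Nonempty

/-- `H` is a canonical family of the graph `E`. -/
structure Sys (E H : Finset (Finset α)) : Prop where
  indep : Indep H
  cov : ∀ e ∈ E, ∃ X ∈ H, e ⊆ X
  mc : ∀ X ∈ H, MCon E X

/-- `K`, `M` are the two sides of a 2-separation with separator `u, v`. -/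
structure Sep (E : Finset (Finset α)) (u v : α) (K M : Finset α) : Prop where
  ne : u ≠ v
  uK : u ∉ K
  vK : v ∉ K
  uM : u ∉ M
  vM : v ∉ M
  disj : Disjoint K M
  top : ∀ x, x ∈ K ∨ x ∈ M ∨ x = u ∨ x = v
  K0 : K.Nonempty
  M0 : M.Nonempty
  edge : ∀ e ∈ E, e ⊆ insert u (insert v K) ∨ e ⊆ insert u (insert v M)

/-- After the deletion of any two vertices the graph has at most `γ + 1` components. -/
def CompB (E : Finset (Finset α)) (γ : ℕ) : Prop :=
  ∀ u v, u ≠ v → ∀ P : Finset (Finset α), (∀ A ∈ P, A.Nonempty ∧ Closed E {u, v} A) →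
    (∀ A ∈ P, ∀ B ∈ P, A ≠ B → Disjoint A B) → P.card ≤ γ + 1

/-- A cover of `K` by proper subsets of weight at most `2n - 3`. -/
def Bad (K X : Finset (Finset α)) : Prop :=
  (∀ A ∈ X, 2 ≤ A.card ∧ A ≠ univ) ∧ (∀ B ∈ K, ∃ A ∈ X, B ⊆ A) ∧
    ∑ A ∈ X, w A ≤ 2 * (Fintype.card α : ℤ) - 3

/-- The number of triples `(S, x, y)` with `|S| ≤ 2` and `y` not reachable from `x`. -/
noncomputable def pot (E : Finset (Finset α)) : ℕ :=
  open Classical in
  (univ.filter (fun t : Finset α × α × α => t.1.card ≤ 2 ∧ ¬ Reach E t.1 t.2.1 t.2.2)).card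

end Pool.Agent.GRA
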