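import Pool.Agent.GRA.PA

/-!
# GRA/PB: polynomial time, part 2 (demand vectors, value, algorithm)

Size bounds: `setB n m v k` is a `map` over `List.range n`. `greedyB`: every intermediate list has at most `n`
members (or is the start list) and all members are `≤ 3` (values 0, 1, 2 or members of the previous list; start
3), use `PolyTime.foldl` with a bound `10 n + 10`-like on the size (`sz_le_of_forall`). The maximum in `valB`: fold
with a natural number accumulator bounded by `n`. `stepF`: both components grow by one member of `pairsL n` at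
each of the `n * n` steps: `iterate'`.
-/

namespace Pool.Agent.GRA

open Pool.Agent.PT

variable {α : Type*} [Enc α]

attribute [local fun_prop] adjB_pt pairsL_pt edgesL_pt erase_pt basis_pt goodB_pt ncompB_pt

theorem gadL_pt {n : α → ℕ} {l : α → List (ℕ × ℕ)} {m : α → List ℕ} (hn : PolyTime n)
    (hl : PolyTime l) (hm : PolyTime m) : PolyTime (fun x => gadL (n x) (l x) (m x)) := by
  unfold gadL
  have h1 : PolyTime (fun x => (List.range (n x)).flatMap (fun v =>
      (List.range ((m x).getD v 0)).map (fun i => (v, n x + 3 * v + i)))) := by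
    refine PolyTime.flatMap (l := fun x => List.range (n x)) (g := fun x v =>
      (List.range ((m x).getD v 0)).map (fun i => (v, n x + 3 * v + i))) (by fun_prop) ?_
    refine PolyTime.map (α := α × ℕ) (l := fun p => List.range ((m p.1).getD p.2 0))
      (g := fun p i => (p.2, n p.1 + 3 * p.2 + i)) (by fun_prop) (by fun_prop)
  have h2 : PolyTime (fun x => (pairsL (3 * n x + 4)).map (fun p => (n x + p.1, n x + p.2))) := by
    refine PolyTime.map (l := fun x => pairsL (3 * n x + 4))
      (g := fun x p => (n x + p.1, n x + p.2)) (by fun_prop) (by fun_prop)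
  fun_prop

attribute [local fun_prop] gadL_pt

theorem demB_pt {n : α → ℕ} {l : α → List (ℕ × ℕ)} {m : α → List ℕ} (hn : PolyTime n)
    (hl : PolyTime l) (hm : PolyTime m) : PolyTime (fun x => demB (n x) (l x) (m x)) := by
  unfold demB; fun_prop

theorem setB_pt {n v k : α → ℕ} {m : α → List ℕ} (hn : PolyTime n) (hm : PolyTime m)
    (hv : PolyTime v) (hk : PolyTime k) :
    PolyTime (fun x => setB (n x) (m x) (v x) (k x)) := by
  unfold setB
  refine PolyTime.map (l := fun x => List.range (n x))
    (g := fun x u => if u = v x then k x else (m x).getD u 0) (by fun_prop) ?_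
  exact PolyTime.ite (by fun_prop) (by fun_prop) (by fun_prop)

attribute [local fun_prop] demB_pt setB_pt

theorem lowerB_pt {n v : α → ℕ} {l : α → List (ℕ × ℕ)} {m : α → List ℕ} (hn : PolyTime n)
    (hl : PolyTime l) (hm : PolyTime m) (hv : PolyTime v) :
    PolyTime (fun x => lowerB (n x) (l x) (m x) (v x)) := by
  unfold lowerB
  refine PolyTime.ite (PolyTime.decide_eq_true (by fun_prop)) (by fun_prop) ?_
  refine PolyTime.ite (PolyTime.decide_eq_true (by fun_prop)) (by fun_prop) ?_
  exact PolyTime.ite (PolyTime.decide_eq_true (by fun_prop)) (by fun_prop) (by fun_prop)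

/-- Lists with at most `n` members, all at most `3`. -/
def Small (n : ℕ) (m : List ℕ) : Prop := m.length ≤ n ∧ ∀ k ∈ m, k ≤ 3

theorem small_setB {n v k : ℕ} {m : List ℕ} (hm : Small n m) (hk : k ≤ 3) :
    Small n (setB n m v k) := by
  unfold setB
  refine ⟨by simp, ?_⟩
  intro a ha
  rw [List.mem_map] at ha
  obtain ⟨u, _, rfl⟩ := ha
  split_ifs
  · exact hk
  · rw [List.getD_eq_getElem?_getD]
    cases h : m[u]? with
    | none => simp
    | some b =>
      simp only [Option.getD_some]
      exact hm.2 b (List.mem_of_getElem? h)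

theorem small_lowerB {n v : ℕ} {l : List (ℕ × ℕ)} {m : List ℕ} (hm : Small n m) :
    Small n (lowerB n l m v) := by
  unfold lowerB
  split_ifs
  · exact small_setB hm (by omega)
  · exact small_setB hm (by omega)
  · exact small_setB hm (by omega)
  · exact hm

theorem small_foldl {n : ℕ} {l : List (ℕ × ℕ)} : ∀ (r : List ℕ) (m : List ℕ), Small n m →
    Small n (r.foldl (lowerB n l) m) := by
  intro r
  induction r with
  | nil => intro m hm; exact hm
  | cons v r ih => intro m hm; exact ih _ (small_lowerB hm)

theorem sz_small {n : ℕ} {m : List ℕ} (hm : Small n m) : sz m ≤ 8 * n + 1 := by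
  have h1 : sz m ≤ m.length * (7 + 1) + 1 := sz_le_of_forall (fun k hk => by
    have := hm.2 k hk
    rw [sz_nat]
    omega)
  have h2 := hm.1
  omega

theorem greedyB_pt {n : α → ℕ} {l : α → List (ℕ × ℕ)} (hn : PolyTime n) (hl : PolyTime l) :
    PolyTime (fun x => greedyB (n x) (l x)) := by
  unfold greedyB
  have h1 := hn.pbdd
  refine PolyTime.foldl (γ := List ℕ) (l := fun x => List.range (n x))
    (g := fun x m v => lowerB (n x) (l x) m v) (y := fun x => List.replicate (n x) 3)
    (by fun_prop) ?_ (by fun_prop) (s := fun x => 8 * sz (n x) + 1) (by fun_prop) ?_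
  · exact lowerB_pt (by fun_prop) (by fun_prop) (by fun_prop) (by fun_prop)
  · intro x i
    have hs : Small (n x) (List.replicate (n x) 3) :=
      ⟨by simp, fun k hk => by rw [List.eq_of_mem_replicate hk]⟩
    have h2 := sz_small (small_foldl (n := n x) (l := l x) ((List.range (n x)).take i) _ hs)
    refine h2.trans ?_
    rw [sz_nat]
    omega

attribute [local fun_prop] greedyB_pt

theorem maxFold_le {n : ℕ} {l : List (ℕ × ℕ)} : ∀ (r : List (ℕ × ℕ)) (a : ℕ), a ≤ n →
    r.foldl (fun a p => max a (ncompB n l p.1 p.2 - 1)) a ≤ n := by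
  intro r
  induction r with
  | nil => intro a ha; exact ha
  | cons p r ih =>
    intro a ha
    rw [List.foldl_cons]
    apply ih
    have h1 : ncompB n l p.1 p.2 ≤ n := by
      unfold ncompB
      refine (List.length_filter_le _ _).trans ?_
      unfold vs
      refine (List.length_filter_le _ _).trans ?_
      simp
    omega

theorem maxC_pt {n : α → ℕ} {l : α → List (ℕ × ℕ)} (hn : PolyTime n) (hl : PolyTime l) :
    PolyTime (fun x =>
      (pairsL (n x)).foldl (fun a p => max a (ncompB (n x) (l x) p.1 p.2 - 1)) 0) := by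
  have h1 := hn.pbdd
  refine PolyTime.foldl (γ := ℕ) (l := fun x => pairsL (n x))
    (g := fun x a p => max a (ncompB (n x) (l x) p.1 p.2 - 1)) (y := fun _ => 0)
    (by fun_prop) ?_ (by fun_prop) (s := fun x => sz (n x)) (by fun_prop) ?_
  · fun_prop
  · intro x i
    have := maxFold_le (n := n x) (l := l x) ((pairsL (n x)).take i) 0 (Nat.zero_le _)
    rw [sz_nat, sz_nat]
    omega

attribute [local fun_prop] maxC_pt

theorem valB_pt {n : α → ℕ} {l : α → List (ℕ × ℕ)} (hn : PolyTime n) (hl : PolyTime l) :
    PolyTime (fun x => valB (n x) (l x)) := by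
  unfold valB; fun_prop

attribute [local fun_prop] valB_pt

theorem augB_pt {n : α → ℕ} {l : α → List (ℕ × ℕ)} (hn : PolyTime n) (hl : PolyTime l) :
    PolyTime (fun x => augB (n x) (l x)) := by
  unfold augB
  have h1 : PolyTime (fun x => (pairsL (n x)).any (fun p => goodB (n x) (p :: l x))) :=
    PolyTime.any (l := fun x => pairsL (n x)) (g := fun x p => goodB (n x) (p :: l x))
      (by fun_prop) (by fun_prop)
  have h2 : PolyTime (fun x => (pairsL (n x)).any (fun p => (pairsL (n x)).any (fun q =>
      goodB (n x) (p :: q :: l x)))) := by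
    refine PolyTime.any (l := fun x => pairsL (n x)) (g := fun x p => (pairsL (n x)).any
      (fun q => goodB (n x) (p :: q :: l x))) (by fun_prop) ?_
    exact PolyTime.any (α := α × (ℕ × ℕ)) (l := fun y => pairsL (n y.1))
      (g := fun y q => goodB (n y.1) (y.2 :: q :: l y.1)) (by fun_prop) (by fun_prop)
  have h3 : PolyTime (fun x => (pairsL (n x)).any (fun p => (pairsL (n x)).any (fun q =>
      (pairsL (n x)).any (fun r => goodB (n x) (p :: q :: r :: l x))))) := by
    refine PolyTime.any (l := fun x => pairsL (n x)) (g := fun x p => (pairsL (n x)).any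
      (fun q => (pairsL (n x)).any (fun r => goodB (n x) (p :: q :: r :: l x))))
      (by fun_prop) ?_
    refine PolyTime.any (α := α × (ℕ × ℕ)) (l := fun y => pairsL (n y.1))
      (g := fun y q => (pairsL (n y.1)).any (fun r => goodB (n y.1) (y.2 :: q :: r :: l y.1)))
      (by fun_prop) ?_
    exact PolyTime.any (α := (α × (ℕ × ℕ)) × (ℕ × ℕ)) (l := fun z => pairsL (n z.1.1))
      (g := fun z r => goodB (n z.1.1) (z.1.2 :: z.2 :: r :: l z.1.1)) (by fun_prop)
      (by fun_prop)
  refine PolyTime.ite (PolyTime.decide_eq_true (by fun_prop)) (by fun_prop) ?_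
  refine PolyTime.ite (PolyTime.decide_eq_true h1) (by fun_prop) ?_
  refine PolyTime.ite (PolyTime.decide_eq_true h2) (by fun_prop) ?_
  exact PolyTime.ite (PolyTime.decide_eq_true h3) (by fun_prop) (by fun_prop)

attribute [local fun_prop] augB_pt

theorem stepF_pt {n : α → ℕ} {s : α → List (ℕ × ℕ) × List (ℕ × ℕ)} (hn : PolyTime n)
    (hs : PolyTime s) : PolyTime (fun x => stepF (n x) (s x)) := by
  unfold stepF
  refine PolyTime.optionGetD ?_ hs
  refine PolyTime.optionMap (o := fun x => (pairsL (n x)).find? (fun p =>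
    decide (augB (n x) (p :: (s x).1) < augB (n x) (s x).1)))
    (g := fun x p => (p :: (s x).1, p :: (s x).2)) ?_ (by fun_prop)
  refine PolyTime.find? (l := fun x => pairsL (n x)) (g := fun x p =>
    decide (augB (n x) (p :: (s x).1) < augB (n x) (s x).1)) (by fun_prop) ?_
  fun_prop

theorem sz_stepF (n : ℕ) (s : List (ℕ × ℕ) × List (ℕ × ℕ)) :
    sz (stepF n s) ≤ sz s + 2 * sz (pairsL n) + 2 := by
  unfold stepF
  cases h : (pairsL n).find? (fun p => decide (augB n (p :: s.1) < augB n s.1)) with
  | none => simp only [Option.map_none, Option.getD_none]; omega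
  | some p =>
    have h1 := sz_le_of_mem (List.mem_of_find?_eq_some h)
    simp only [Option.map_some, Option.getD_some]
    rw [sz_prod s, sz_prod (p :: s.1, p :: s.2), sz_cons, sz_cons]
    omega

theorem sz_stepF_iterate (n i : ℕ) (s : List (ℕ × ℕ) × List (ℕ × ℕ)) :
    sz ((stepF n)^[i] s) ≤ sz s + i * (2 * sz (pairsL n) + 2) := by
  induction i with
  | zero => simp
  | succ i ih =>
    rw [Function.iterate_succ_apply']
    have := sz_stepF n ((stepF n)^[i] s)
    have e : (i + 1) * (2 * sz (pairsL n) + 2) =
      i * (2 * sz (pairsL n) + 2) + (2 * sz (pairsL n) + 2) := by ring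
    omega

theorem solve_pt {n : α → ℕ} {l : α → List (ℕ × ℕ)} (hn : PolyTime n) (hl : PolyTime l) :
    PolyTime (fun x => solve (n x) (l x)) := by
  unfold solve
  have h1 := hn.pbdd
  have h2 := hl.pbdd
  have hp : PolyTime (fun x => pairsL (n x)) := by fun_prop
  have h3 := hp.pbdd
  refine PolyTime.ite (by fun_prop) ?_ (PolyTime.snd ?_)
  · exact PolyTime.filter (l := fun x => pairsL (n x)) (g := fun x p => !(adjB (l x) p.1 p.2))
      (by fun_prop) (by fun_prop)
  · refine PolyTime.iterate' (f := fun x s => stepF (n x) s) (n := fun x => n x * n x)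
      (g := fun x => (l x, [])) ?_ (by fun_prop) (by fun_prop)
      (s := fun x => sz (l x) + 2 + sz (n x) * sz (n x) * (2 * sz (pairsL (n x)) + 2))
      (by fun_prop) ?_
    · exact stepF_pt (by fun_prop) (by fun_prop)
    · intro x i hi
      refine (sz_stepF_iterate (n x) i (l x, [])).trans ?_
      have h4 : i ≤ sz (n x) * sz (n x) := by
        refine hi.le.trans (Nat.mul_le_mul ?_ ?_) <;> rw [sz_nat] <;> omega
      have h5 := Nat.mul_le_mul_right (2 * sz (pairsL (n x)) + 2) h4
      rw [sz_prod]
      have h6 : sz ([] : List (ℕ × ℕ)) = 1 := rfl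
      simp only [h6]
      omega

end Pool.Agent.GRA
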