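import Pool.Agent.GRA.Stmt
import Pool.Agent.GRA.PB
import Pool.Agent.PT.Bridge

/-!
# GRA/EN: words

`decNats`: read a word as a list of numbers (state: current number, numbers read so far in reverse order).
`decNats_enc`: `decNats (encNats l) = l` (induction; reading `replicate a true ++ [false]` adds `a`).
`pairUp (flat l) = l`. Polynomial time: `foldl`/`foldl_add` (the accumulator grows by a constant amount per
letter), `flatMap`, `replicate`.
`wordAlg w`: decode, solve, encode.
-/

namespace Pool.Agent.GRA

open Pool.Agent.PT Stmt

/-- Read a word as a list of numbers. -/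
def decNats (w : List Bool) : List ℕ :=
  (w.foldl (fun (s : ℕ × List ℕ) b => if b then (s.1 + 1, s.2) else (0, s.1 :: s.2))
    (0, [])).2.reverse

/-- Group a list of numbers into pairs. -/
def pairUp (l : List ℕ) : List (ℕ × ℕ) :=
  (l.foldl (fun (s : Option ℕ × List (ℕ × ℕ)) a =>
    match s.1 with
    | none => (some a, s.2)
    | some b => (none, (b, a) :: s.2)) (none, [])).2.reverse

/-- The algorithm on words. -/
def wordAlg (w : List Bool) : List Bool :=
  encodeOut ((solve ((decNats w).headD 0) (pairUp (decNats w).tail)).length,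
    solve ((decNats w).headD 0) (pairUp (decNats w).tail))

private theorem foldl_replicate_true (a : ℕ) : ∀ (c : ℕ) (acc : List ℕ),
    (List.replicate a true).foldl (fun (s : ℕ × List ℕ) b =>
      if b then (s.1 + 1, s.2) else (0, s.1 :: s.2)) (c, acc) = (c + a, acc) := by
  induction a with
  | zero => intro c acc; rfl
  | succ a ih =>
    intro c acc
    rw [List.replicate_succ, List.foldl_cons, if_pos rfl, ih]
    simp only [Prod.mk.injEq, and_true]
    omega

private theorem foldl_encNats (l : List ℕ) : ∀ (acc : List ℕ),
    (encNats l).foldl (fun (s : ℕ × List ℕ) b =>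
      if b then (s.1 + 1, s.2) else (0, s.1 :: s.2)) (0, acc) = (0, l.reverse ++ acc) := by
  induction l with
  | nil => intro acc; rfl
  | cons a l ih =>
    intro acc
    have e : encNats (a :: l) = (List.replicate a true ++ [false]) ++ encNats l := by
      simp only [encNats, List.flatMap_cons]
    rw [e, List.foldl_append, List.foldl_append, foldl_replicate_true, List.foldl_cons,
      List.foldl_nil, if_neg (by simp), Nat.zero_add, ih, List.reverse_cons, List.append_assoc,
      List.singleton_append]

theorem decNats_enc (l : List ℕ) : decNats (encNats l) = l := by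
  unfold decNats
  rw [foldl_encNats, List.append_nil, List.reverse_reverse]

private theorem foldl_flat (l : List (ℕ × ℕ)) : ∀ (acc : List (ℕ × ℕ)),
    (flat l).foldl (fun (s : Option ℕ × List (ℕ × ℕ)) a =>
      match s.1 with
      | none => (some a, s.2)
      | some b => (none, (b, a) :: s.2)) (none, acc) = (none, l.reverse ++ acc) := by
  induction l with
  | nil => intro acc; rfl
  | cons p l ih =>
    intro acc
    have e : flat (p :: l) = p.1 :: p.2 :: flat l := by
      simp only [flat, List.flatMap_cons, List.cons_append, List.nil_append]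
    rw [e, List.foldl_cons, List.foldl_cons, List.reverse_cons, List.append_assoc,
      List.singleton_append]
    exact ih ((p.1, p.2) :: acc)

theorem pairUp_flat (l : List (ℕ × ℕ)) : pairUp (flat l) = l := by
  unfold pairUp
  rw [foldl_flat, List.append_nil, List.reverse_reverse]

theorem decNats_pt : PolyTime decNats := by
  have h := PolyTime.foldl_add (γ := ℕ × List ℕ) (l := fun w : List Bool => w) (by fun_prop)
    (g := fun _ s b => bif b then (s.1 + 1, s.2) else (0, s.1 :: s.2))
    (y := fun _ => ((0 : ℕ), ([] : List ℕ)))
    (PolyTime.cond (by fun_prop) (by fun_prop) (by fun_prop)) (by fun_prop)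
    (s := fun _ => 2) (by fun_prop)
    (fun x b _ c => by
      cases b
      · simp only [cond_false, sz_prod, sz_cons, sz_nat]; omega
      · simp only [cond_true, sz_prod, sz_nat]; omega)
  have h2 := (PolyTime.snd h).reverse
  refine h2.congr fun w => ?_
  unfold decNats
  have e : (fun (s : ℕ × List ℕ) (b : Bool) => if b then (s.1 + 1, s.2) else (0, s.1 :: s.2)) =
      fun (s : ℕ × List ℕ) (b : Bool) => bif b then (s.1 + 1, s.2) else (0, s.1 :: s.2) := by
    funext s b
    cases b <;> rfl
  rw [e]

theorem pairUp_pt : PolyTime pairUp := by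
  have h := PolyTime.foldl_add (γ := Option ℕ × List (ℕ × ℕ)) (l := fun w : List ℕ => w)
    (by fun_prop)
    (g := fun _ s a => Option.casesOn (motive := fun _ => Option ℕ × List (ℕ × ℕ)) s.1
      (some a, s.2) (fun b => (none, (b, a) :: s.2)))
    (y := fun _ => ((none : Option ℕ), ([] : List (ℕ × ℕ))))
    (PolyTime.optionCases (γ := Option ℕ × List (ℕ × ℕ))
      (o := fun p : List ℕ × ((Option ℕ × List (ℕ × ℕ)) × ℕ) => p.2.1.1)
      (f := fun p => (some p.2.2, p.2.1.2)) (g := fun p b => (none, (b, p.2.2) :: p.2.1.2))
      (by fun_prop) (by fun_prop) (by fun_prop)) (by fun_prop)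
    (s := fun w => sz w + 1) (by fun_prop)
    (fun x b hb c => by
      have h1 := sz_le_of_mem hb
      obtain ⟨c1, c2⟩ := c
      cases c1
      · simp only [sz_prod, sz_none, sz_some]; omega
      · simp only [sz_prod, sz_none, sz_some, sz_cons]; omega)
  have h2 := (PolyTime.snd h).reverse
  refine h2.congr fun w => ?_
  unfold pairUp
  congr 3
  funext s a
  obtain ⟨c1, c2⟩ := s
  cases c1 <;> rfl

theorem encNats_pt : PolyTime encNats := by
  have h := PolyTime.flatMap (l := fun w : List ℕ => w)
    (g := fun _ a => List.replicate a true ++ [false]) (by fun_prop) (by fun_prop)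
  exact h.congr fun _ => rfl

theorem flat_pt : PolyTime flat := by
  have h := PolyTime.flatMap (l := fun w : List (ℕ × ℕ) => w)
    (g := fun _ p => [p.1, p.2]) (by fun_prop) (by fun_prop)
  exact h.congr fun _ => rfl

theorem wordAlg_pt : PolyTime wordAlg := by
  have h1 : PolyTime (fun w => (decNats w).headD 0) := decNats_pt.headD (PolyTime.const 0)
  have h2 : PolyTime (fun w => pairUp (decNats w).tail) := pairUp_pt.comp decNats_pt.tail
  have h3 := solve_pt h1 h2
  have h4 := flat_pt.comp h3
  have h5 := encNats_pt.comp (h3.length.cons h4)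
  exact h5.congr fun _ => rfl

theorem wordAlg_encode (x : Inst) :
    wordAlg x.encode =
      encodeOut ((solve x.n (x.edges.map (fun p => ((p.1 : ℕ), (p.2 : ℕ))))).length,
        solve x.n (x.edges.map (fun p => ((p.1 : ℕ), (p.2 : ℕ))))) := by
  unfold wordAlg Inst.encode
  rw [decNats_enc, List.headD_cons, List.tail_cons, pairUp_flat]

theorem encode_injective : Function.Injective Inst.encode := by
  rintro ⟨n, l⟩ ⟨m, l'⟩ h
  have h1 := congrArg decNats h
  unfold Inst.encode at h1
  rw [decNats_enc, decNats_enc] at h1
  simp only [List.cons.injEq] at h1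
  obtain ⟨h2, h3⟩ := h1
  subst h2
  have h4 := congrArg pairUp h3
  rw [pairUp_flat, pairUp_flat] at h4
  have hinj : Function.Injective (fun p : Fin n × Fin n => ((p.1 : ℕ), (p.2 : ℕ))) := by
    rintro ⟨a, b⟩ ⟨c, d⟩ h5
    simp only [Prod.mk.injEq] at h5
    exact Prod.ext (Fin.ext h5.1) (Fin.ext h5.2)
  have h5 := (List.map_injective_iff.2 hinj) h4
  rw [h5]

end Pool.Agent.GRA
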