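import Pool.Agent.GRA.V2

/-!
# GRA/FN: the algorithm finds an optimal set

PROOF of `solve_spec`, `n ≥ 4`. Let `a = augB n l`. Claim: after `i` steps the state is `(F ++ l', F)`-like: `s.1` is a list
with `gr n s.1 = gr n l ∪ gr n s.2`, all members of `s.2` are in `pairsL n`, and
`augB n s.1 + s.2.length = a`, and `i ≤ s.2.length` or `augB n s.1 = 0`. Step: if `augB n s.1 = 0` no pair can lower it,
`find?` fails, the state stays. If `augB n s.1 = k + 1`: `Aug (gr n s.1) (k+1)` and not `Aug (gr n s.1) k` so by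
`aug_succ` some `p ∈ pairsL n` has `Aug (gr n (p :: s.1)) k`, so `augB n (p :: s.1) ≤ k`; so `find?` finds some `p` with
`augB n (p :: s.1) < k + 1`; and `augB n (p :: s.1) ≥ k`, otherwise `Aug (gr n (p :: s.1)) (k - 1)` would give `Aug (gr n s.1) k`.
Since `a ≤ n(n-1)/2 ≤ n * n` (the complete graph: `F` = all pairs works, because `Aug (gr n l) a` holds for some
`F` and then all pairs also work by `MC.mono`, `reach_edge`), after `n * n` steps `augB n s.1 = 0`, `s.2.length = a`,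
and `MC (gr n s.1)`, `Conn (gr n s.1) 2`.
Minimality: `IsLeast`.
-/

namespace Pool.Agent.GRA

open Finset

private theorem fn_aug_mono {n : ℕ} {E : Finset (Finset (Fin n))} {k k' : ℕ} (h : Aug E k)
    (hk : k ≤ k') : Aug E k' := by
  obtain ⟨F, h1, h2, h3, h4⟩ := h
  exact ⟨F, h1, h2.trans hk, h3, h4⟩

private theorem fn_le {n : ℕ} (hn : 4 ≤ n) {l : List (ℕ × ℕ)} {k : ℕ} :
    augB n l ≤ k ↔ Aug (gr n l) k :=
  ⟨fun h => fn_aug_mono (augB_isLeast hn l).1 h, fun h => (augB_isLeast hn l).2 h⟩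

private theorem fn_step_le {n : ℕ} (hn : 4 ≤ n) {l : List (ℕ × ℕ)} {p : ℕ × ℕ}
    (hp : p ∈ pairsL n) : augB n l ≤ augB n (p :: l) + 1 := by
  rw [fn_le hn, aug_succ]
  exact Or.inr ⟨p, hp, (fn_le hn).1 le_rfl⟩

private theorem fn_step_ex {n : ℕ} (hn : 4 ≤ n) {l : List (ℕ × ℕ)} (h : augB n l ≠ 0) :
    ∃ p ∈ pairsL n, augB n (p :: l) < augB n l := by
  obtain ⟨k, hk⟩ := Nat.exists_eq_succ_of_ne_zero h
  have h1 : Aug (gr n l) (k + 1) := (fn_le hn).1 hk.le
  have h2 : ¬ Aug (gr n l) k := fun h2 => by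
    have := (fn_le hn).2 h2
    omega
  rcases aug_succ.1 h1 with h3 | ⟨p, hp, h3⟩
  · exact absurd h3 h2
  · refine ⟨p, hp, ?_⟩
    have := (fn_le hn).2 h3
    omega

private theorem fn_bound {n : ℕ} (hn : 4 ≤ n) (l : List (ℕ × ℕ)) : augB n l ≤ n * n := by
  rw [fn_le hn]
  obtain ⟨F, h1, -, h3, h4⟩ := (augB_isLeast hn l).1
  have hsub : gr n l ∪ F ⊆ gr n l ∪ gr n (pairsL n) := by
    refine union_subset_union_right fun e he => ?_
    obtain ⟨p, hp, rfl⟩ := exists_pr (h1 e he)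
    rw [pr_mem_gr_EL (pairsL_EL n) hp]
    exact mem_pairsL.2 hp
  refine ⟨gr n (pairsL n), gr_isG n _, ?_, h3.mono hsub, ?_⟩
  · rw [gr_card (pairsL_EL n)]
    exact pairsL_length n
  · intro S hS x y hx hy
    exact (h4 S hS x y hx hy).mono hsub

/-- The invariant after `i` steps. -/
private def FnInv (n : ℕ) (l : List (ℕ × ℕ)) (i : ℕ) (s : List (ℕ × ℕ) × List (ℕ × ℕ)) : Prop :=
  (∀ p ∈ s.2, p.1 < p.2 ∧ p.2 < n) ∧ gr n s.1 = gr n l ∪ gr n s.2 ∧
    augB n s.1 + s.2.length = augB n l ∧ (i ≤ s.2.length ∨ augB n s.1 = 0)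

private theorem fn_inv_step {n : ℕ} (hn : 4 ≤ n) {l : List (ℕ × ℕ)} {i : ℕ}
    {s : List (ℕ × ℕ) × List (ℕ × ℕ)} (h : FnInv n l i s) : FnInv n l (i + 1) (stepF n s) := by
  obtain ⟨h1, h2, h3, h4⟩ := h
  unfold stepF
  cases hf : (pairsL n).find? (fun p => decide (augB n (p :: s.1) < augB n s.1)) with
  | none =>
    simp only [Option.map_none, Option.getD_none]
    have h5 : augB n s.1 = 0 := by
      by_contra h0
      obtain ⟨p, hp, hlt⟩ := fn_step_ex hn h0
      have := List.find?_eq_none.1 hf p hp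
      simp only [decide_eq_true_eq] at this
      exact this hlt
    exact ⟨h1, h2, h3, Or.inr h5⟩
  | some p =>
    simp only [Option.map_some, Option.getD_some]
    have hp : p ∈ pairsL n := List.mem_of_find?_eq_some hf
    have hlt : augB n (p :: s.1) < augB n s.1 := by
      have := List.find?_some hf
      simpa using this
    have hge := fn_step_le hn (l := s.1) hp
    have hpp := mem_pairsL.1 hp
    refine ⟨?_, ?_, ?_, ?_⟩
    · intro q hq
      rcases List.mem_cons.1 hq with rfl | hq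
      · exact hpp
      · exact h1 q hq
    · change gr n (p :: s.1) = gr n l ∪ gr n (p :: s.2)
      rw [gr_cons hpp, gr_cons hpp, h2, union_insert]
    · change augB n (p :: s.1) + (p :: s.2).length = augB n l
      rw [List.length_cons]
      omega
    · change i + 1 ≤ (p :: s.2).length ∨ augB n (p :: s.1) = 0
      rw [List.length_cons]
      rcases h4 with h4 | h4
      · left; omega
      · omega

private theorem fn_inv {n : ℕ} (hn : 4 ≤ n) (l : List (ℕ × ℕ)) (i : ℕ) :
    FnInv n l i ((stepF n)^[i] (l, [])) := by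
  induction i with
  | zero =>
    refine ⟨?_, ?_, ?_, Or.inl (Nat.zero_le _)⟩
    · intro p hp
      simp at hp
    · change gr n l = gr n l ∪ gr n []
      rw [gr_nil, union_empty]
    · rfl
  | succ i ih =>
    rw [Function.iterate_succ_apply']
    exact fn_inv_step hn ih

theorem solve_spec {n : ℕ} (hn : 4 ≤ n) (l : List (ℕ × ℕ)) :
    (∀ p ∈ solve n l, p.1 < p.2 ∧ p.2 < n) ∧
    MC (gr n l ∪ gr n (solve n l)) ∧ Conn (gr n l ∪ gr n (solve n l)) 2 ∧
    ∀ F : Finset (Finset (Fin n)), IsG F → MC (gr n l ∪ F) → Conn (gr n l ∪ F) 2 →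
      (solve n l).length ≤ F.card := by
  have hs : solve n l = ((stepF n)^[n * n] (l, [])).2 := by
    unfold solve
    rw [if_neg (by omega)]
  rw [hs]
  obtain ⟨h1, h2, h3, h4⟩ := fn_inv hn l (n * n)
  have hb := fn_bound hn l
  have h5 : augB n ((stepF n)^[n * n] (l, [])).1 = 0 := by
    rcases h4 with h4 | h4
    · omega
    · exact h4
  obtain ⟨F, -, hF2, hF3, hF4⟩ := (fn_le hn).1 h5.le
  rw [Nat.le_zero, card_eq_zero] at hF2
  subst hF2
  rw [union_empty, h2] at hF3 hF4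
  refine ⟨h1, hF3, hF4, fun F g1 g2 g3 => ?_⟩
  have h6 : augB n l ≤ F.card := (fn_le hn).2 ⟨F, g1, le_rfl, g2, g3⟩
  omega

end Pool.Agent.GRA
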