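import Pool.Agent.GRA.G1

/-!
# GRA/GK: cliques with at least four vertices are M-connected

PROOF of `clique_mcon`. Base `|S| = 4`: let `Y` be a cover of the six pairs of `S` by proper subsets with ≥ 2
elements, so of size 2 or 3; such a set `A` contains exactly `w A` pairs (1 resp. 3), so
`Σ_Y w ≥ 6 = 2·4 - 2`.
Step (`|T| ≥ 3`, `MCon K T`, `v ∉ T`, all pairs in `insert v T` in `K` ⇒ `MCon K (insert v T)`): by `MCon_of_MCon`
with `K' = insert T K` it is enough to show `MCon (insert T K) (insert v T)`. (All members of `K` may be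
assumed to be pairs: first replace `K` by the family `K₀` of the pairs inside `S`, `MCon.mono`; note that
`MCon_of_MCon` needs `2 ≤ B.card` for the members.) Let `Y` be a cover by proper subsets of `insert v T`.
Some `A₀ ∈ Y` contains `T`, so `A₀ = T`. For `t ∈ T` the pair `{v,t}` is inside some `B ∈ Y`, `v ∈ B`, `B ≠ T`. For each
`B ∈ Y` with `v ∈ B`: `w B = 2|B| - 3 ≥ |B| - 1 = |B ∩ T|`. So `Σ_{B ∋ v} w B ≥ |T| ≥ 3`, and
`Σ_Y w ≥ (2|T| - 3) + 3 = 2|insert v T| - 2`.
Induction on `|S|` from 4.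
-/

namespace Pool.Agent.GRA

open Finset

variable {α : Type*} [Fintype α] [DecidableEq α]

private theorem gk_sum_image {s : Finset (Finset α)} {f : Finset α → Finset α}
    {h : Finset α → ℤ} (h0 : ∀ A, 0 ≤ h A) : ∑ T ∈ s.image f, h T ≤ ∑ A ∈ s, h (f A) := by
  induction s using Finset.induction_on with
  | empty => simp
  | insert a s ha ih =>
    rw [image_insert, sum_insert ha]
    by_cases hm : f a ∈ s.image f
    · rw [insert_eq_of_mem hm]
      have := h0 (f a)
      linarith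
    · rw [sum_insert hm]
      linarith

private theorem gk_base {S : Finset α} (h4 : S.card = 4) {X : Finset (Finset α)}
    (hX : ∀ A ∈ X, 2 ≤ A.card ∧ A ⊆ S ∧ A ≠ S)
    (hc : ∀ s ∈ S, ∀ t ∈ S, s ≠ t → ∃ A ∈ X, s ∈ A ∧ t ∈ A) : 6 ≤ ∑ A ∈ X, w A := by
  have h1 : S.powersetCard 2 ⊆ X.biUnion (fun A => A.powersetCard 2) := by
    intro e he
    rw [mem_powersetCard] at he
    obtain ⟨s, t, hst, rfl⟩ := card_eq_two.1 he.2
    obtain ⟨hs, ht⟩ := pair_subset.1 he.1
    obtain ⟨A, hA, h⟩ := hc s hs t ht hst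
    rw [mem_biUnion]
    exact ⟨A, hA, mem_powersetCard.2 ⟨pair_subset.2 h, card_pair hst⟩⟩
  have h2 := (card_le_card h1).trans card_biUnion_le
  rw [card_powersetCard, h4] at h2
  have h3 : ∑ A ∈ X, ((A.powersetCard 2).card : ℤ) ≤ ∑ A ∈ X, w A := by
    apply sum_le_sum
    intro A hA
    obtain ⟨a1, a2, a3⟩ := hX A hA
    have a4 : A.card < 4 := by
      rw [← h4]
      exact card_lt_card (Finset.ssubset_iff_subset_ne.2 ⟨a2, a3⟩)
    rw [card_powersetCard]
    unfold w
    have a5 : A.card = 2 ∨ A.card = 3 := by omega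
    rcases a5 with a5 | a5 <;> rw [a5] <;> decide
  have h4' : (Nat.choose 4 2 : ℤ) ≤ ∑ A ∈ X, ((A.powersetCard 2).card : ℤ) := by exact_mod_cast h2
  have h5 : (Nat.choose 4 2 : ℤ) = 6 := by decide
  linarith

private theorem gk_step {S : Finset α} {v : α} (hv : v ∈ S) (h4 : 4 ≤ (S.erase v).card)
    (ih : ∀ X : Finset (Finset α), (∀ A ∈ X, 2 ≤ A.card ∧ A ⊆ S.erase v ∧ A ≠ S.erase v) →
      (∀ s ∈ S.erase v, ∀ t ∈ S.erase v, s ≠ t → ∃ A ∈ X, s ∈ A ∧ t ∈ A) →
      2 * ((S.erase v).card : ℤ) - 2 ≤ ∑ A ∈ X, w A) {X : Finset (Finset α)}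
    (hX : ∀ A ∈ X, 2 ≤ A.card ∧ A ⊆ S ∧ A ≠ S)
    (hc : ∀ s ∈ S, ∀ t ∈ S, s ≠ t → ∃ A ∈ X, s ∈ A ∧ t ∈ A) :
    2 * ((S.erase v).card : ℤ) ≤ ∑ A ∈ X, w A := by
  obtain ⟨T, hT⟩ : ∃ T, T = S.erase v := ⟨_, rfl⟩
  rw [← hT] at h4 ih ⊢
  have hTS : ∀ t ∈ T, t ∈ S ∧ t ≠ v := fun t ht => by
    rw [hT, mem_erase] at ht
    exact ⟨ht.2, ht.1⟩
  have hvT : v ∉ T := fun h => (hTS v h).2 rfl
  have hw1 : ∀ A ∈ X, 1 ≤ w A := fun A hA => w_pos (hX A hA).1
  by_cases hfull : ∃ A₀ ∈ X, T ⊆ A₀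
  · obtain ⟨A₀, hA₀, hTA⟩ := hfull
    have hvA : v ∉ A₀ := by
      intro h
      apply (hX A₀ hA₀).2.2
      apply subset_antisymm (hX A₀ hA₀).2.1
      intro t ht
      by_cases htv : t = v
      · rw [htv]; exact h
      · exact hTA (by rw [hT]; exact mem_erase.2 ⟨htv, ht⟩)
    have hcov : T ⊆ (X.filter (fun B => v ∈ B)).biUnion (fun B => B.erase v) := by
      intro t ht
      obtain ⟨B, hB, h1, h2⟩ := hc v hv t (hTS t ht).1 (hTS t ht).2.symm
      rw [mem_biUnion]
      exact ⟨B, mem_filter.2 ⟨hB, h1⟩, mem_erase.2 ⟨(hTS t ht).2, h2⟩⟩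
    have h1 := (card_le_card hcov).trans card_biUnion_le
    have h2 : ∑ B ∈ X.filter (fun B => v ∈ B), ((B.erase v).card : ℤ) ≤
        ∑ B ∈ X.filter (fun B => v ∈ B), w B := by
      apply sum_le_sum
      intro B hB
      obtain ⟨hB1, hB2⟩ := mem_filter.1 hB
      rw [card_erase_of_mem hB2]
      have := (hX B hB1).1
      unfold w
      push_cast [Nat.cast_sub (show 1 ≤ B.card by omega)]
      have h3 : (2 : ℤ) ≤ B.card := by exact_mod_cast this
      linarith
    have h3 : (T.card : ℤ) ≤ ∑ B ∈ X.filter (fun B => v ∈ B), ((B.erase v).card : ℤ) := by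
      exact_mod_cast h1
    have hnot : A₀ ∉ X.filter (fun B => v ∈ B) := fun h => hvA (mem_filter.1 h).2
    have h4' : ∑ B ∈ insert A₀ (X.filter (fun B => v ∈ B)), w B ≤ ∑ A ∈ X, w A := by
      apply sum_le_sum_of_subset_of_nonneg
      · intro B hB
        rcases mem_insert.1 hB with rfl | hB
        · exact hA₀
        · exact (mem_filter.1 hB).1
      · intro B hB _
        have := hw1 B hB
        linarith
    rw [sum_insert hnot] at h4'
    have h5 : w T ≤ w A₀ := w_mono hTA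
    have h6 : (4 : ℤ) ≤ T.card := by exact_mod_cast h4
    have h7 : w T = 2 * (T.card : ℤ) - 3 := rfl
    linarith
  · push Not at hfull
    have h1 := ih ((X.image (fun A => A ∩ T)).filter (fun B => 2 ≤ B.card)) (by
      intro B hB
      obtain ⟨hB1, hB2⟩ := mem_filter.1 hB
      obtain ⟨A, hA, rfl⟩ := mem_image.1 hB1
      refine ⟨hB2, inter_subset_right, fun h => hfull A hA ?_⟩
      exact inter_eq_right.1 h) (by
      intro s hs t ht hst
      obtain ⟨A, hA, h1, h2⟩ := hc s (hTS s hs).1 t (hTS t ht).1 hst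
      have h3 : s ∈ A ∩ T := mem_inter.2 ⟨h1, hs⟩
      have h4 : t ∈ A ∩ T := mem_inter.2 ⟨h2, ht⟩
      refine ⟨A ∩ T, mem_filter.2 ⟨mem_image_of_mem _ hA, ?_⟩, h3, h4⟩
      exact one_lt_card.2 ⟨s, h3, t, h4, hst⟩)
    rw [sum_filter] at h1
    have h2 := gk_sum_image (s := X) (f := fun A => A ∩ T)
      (h := fun B => if 2 ≤ B.card then w B else 0) (fun B => by
        by_cases hB : 2 ≤ B.card
        · have := w_pos hB
          simp only [hB, if_true]
          linarith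
        · simp [hB])
    have hcard : 2 ≤ (X.filter (fun B => v ∈ B)).card := by
      by_contra hlt
      push Not at hlt
      have hTne : T.Nonempty := card_pos.1 (by omega)
      obtain ⟨t0, ht0⟩ := hTne
      obtain ⟨B, hB, b1, b2⟩ := hc v hv t0 (hTS t0 ht0).1 (hTS t0 ht0).2.symm
      apply hfull B hB
      intro t ht
      obtain ⟨B', hB', b1', b2'⟩ := hc v hv t (hTS t ht).1 (hTS t ht).2.symm
      have h3 := card_le_one.1 (show (X.filter (fun B => v ∈ B)).card ≤ 1 by omega)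
        B (mem_filter.2 ⟨hB, b1⟩) B' (mem_filter.2 ⟨hB', b1'⟩)
      rw [h3]
      exact b2'
    have h3 : ∑ A ∈ X, (if 2 ≤ (A ∩ T).card then w (A ∩ T) else 0) +
        ∑ A ∈ X, (if v ∈ A then (1 : ℤ) else 0) ≤ ∑ A ∈ X, w A := by
      rw [← sum_add_distrib]
      apply sum_le_sum
      intro A hA
      have hA2 := (hX A hA).1
      by_cases hvA : v ∈ A
      · rw [if_pos hvA]
        have hlt : (A ∩ T).card < A.card := by
          apply card_lt_card
          rw [Finset.ssubset_iff_subset_ne]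
          refine ⟨inter_subset_left, fun h => hvT ?_⟩
          rw [← h] at hvA
          exact (mem_inter.1 hvA).2
        have hlt' : ((A ∩ T).card : ℤ) + 1 ≤ A.card := by exact_mod_cast hlt
        have hA2' : (2 : ℤ) ≤ A.card := by exact_mod_cast hA2
        split_ifs
        · unfold w
          linarith
        · unfold w
          linarith
      · rw [if_neg hvA]
        have := hw1 A hA
        split_ifs
        · have := w_mono (inter_subset_left : A ∩ T ⊆ A)
          linarith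
        · linarith
    have h6 : ∑ A ∈ X, (if v ∈ A then (1 : ℤ) else 0) = ((X.filter (fun B => v ∈ B)).card : ℤ) := by
      rw [← sum_filter, sum_const, nsmul_eq_mul, mul_one]
    rw [h6] at h3
    have h5 : (2 : ℤ) ≤ ((X.filter (fun B => v ∈ B)).card : ℤ) := by exact_mod_cast hcard
    linarith

private theorem gk_all (n : ℕ) : ∀ S : Finset α, S.card = n + 4 → ∀ X : Finset (Finset α),
    (∀ A ∈ X, 2 ≤ A.card ∧ A ⊆ S ∧ A ≠ S) →
    (∀ s ∈ S, ∀ t ∈ S, s ≠ t → ∃ A ∈ X, s ∈ A ∧ t ∈ A) →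
    2 * (S.card : ℤ) - 2 ≤ ∑ A ∈ X, w A := by
  induction n with
  | zero =>
    intro S hS X hX hc
    have := gk_base (by omega) hX hc
    rw [hS]
    norm_num
    exact this
  | succ n ih =>
    intro S hS X hX hc
    obtain ⟨v, hv⟩ : S.Nonempty := card_pos.1 (by omega)
    have hcard : (S.erase v).card = n + 4 := by
      rw [card_erase_of_mem hv]
      omega
    have h1 := gk_step hv (by omega) (fun X hX hc => ih (S.erase v) hcard X hX hc) hX hc
    rw [hcard] at h1
    rw [hS]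
    push_cast at h1 ⊢
    linarith

theorem clique_mcon {K : Finset (Finset α)} {S : Finset α} (h4 : 4 ≤ S.card)
    (hK : ∀ s ∈ S, ∀ t ∈ S, s ≠ t → ({s, t} : Finset α) ∈ K) : MCon K S := by
  intro X hX hc
  obtain ⟨n, hn⟩ : ∃ n, S.card = n + 4 := ⟨S.card - 4, by omega⟩
  refine gk_all n S hn X hX (fun s hs t ht hst => ?_)
  obtain ⟨A, hA, h⟩ := hc {s, t} (hK s hs t ht hst) (pair_subset.2 ⟨hs, ht⟩)
  exact ⟨A, hA, pair_subset.1 h⟩

end Pool.Agent.GRA
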