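import Pool.Agent.GRA.M1
import Pool.Agent.GRA.GK
import Pool.Agent.GRA.G2

/-!
# GRA/GM: testing the demands of a vector by a larger graph

`Gad E m ι E'`: the graph `E'` on `β` consists of a copy of `E` on the vertices `ι v`, of a clique on the set
`S` of the other vertices (`|S| ≥ 4`), and of `m v` pairs `{ι v, s}`, `s ∈ S`, for every `v`; every `s ∈ S` is
in at most one of the latter pairs.

PROOF of `gad_MC`: `MC E' ↔ FeasAll H m`. Let `Ĥ = {ι '' X : X ∈ H}`, `Bars` = the pairs `{ι v, s} ∈ E'`,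
`K' = Ĥ ∪ Bars ∪ {S}`.
(a) `Ĥ ∪ Bars` is `Indep` on `β`: for `T ⊆ β`, `T₀ = ι⁻¹ T`, `T₁ = T ∩ S`:
`kk T = kk H T₀ + 2|T₁| - #(bars inside T)` and `#(bars inside T) ≤ |T₁|`. `|T₀| ≥ 2`: ≥ 0. `|T₀| = 1`: `-1 + |T₁| ≥ 0`.
`T₀ = ∅`: `2|T₁| - 3 ≥ 1` (no bars inside).
(b) `MC K' → MC E'`: `MC_iff`, `MCon_of_MCon` with `K = E'`: bars are in `E'`; `ι '' X` with `MCon E X` satisfies
`MCon E' (ι '' X)` (pull a cover back along `ι`); `MCon E' S` by `clique_mcon`.
(b') `MC E' → MC K'`: clear, `K'` members cover `E'`: a cover of `K'` is a cover of `E'`.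
(c) `FeasAll H m → MC K'`: let `Y` be a cover of `K'` by proper subsets, `A₀ ∈ Y` with `S ⊆ A₀`, `C = {v : ι v ∉ A₀}`
nonempty. For the other `A ∈ Y`: `w A ≥ Σ_{B ∈ Ĥ ∪ Bars} wp (B ∩ A)` by (a) and `Indep.sum_wp_le`. Every
`B ∈ Ĥ ∪ Bars` meeting `ι '' C` is inside some `A ≠ A₀`. So `Σ_{A ≠ A₀} w A ≥ sTo H C + mass m C ≥ 2|C| + 1`
(`FeasAll`), and `w A₀ = 2(N - |C|) - 3` with `N = card β`: total `≥ 2N - 2`.
(d) `MC K' → FeasAll H m`: for nonempty `C` the cover `univ \ ι '' C`, all `ι '' X` with `X ∈ H` meeting `C`, all bars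
at `C`: proper subsets (`S ≠ ∅`, `|univ \ ι '' C| ≥ 4`), weight `2(N - |C|) - 3 + sTo H C + mass m C ≥ 2N - 2`.

PROOF of `gad_conn`. Assume `Dem E H m`. Let `|X| ≤ 2`, `x, y ∉ X`, `L` closed for `(E', X)`, `x ∈ L`, `y ∉ L`. All of
`S \ X` (nonempty) is in `L` or outside `L` (clique). If it is in `L`, replace `L` by `univ \ (X ∪ L) ∋ y`
(`Closed.compl`). So there is a nonempty closed `L` with `L ∩ S = ∅`, `L = ι '' Q`. All neighbours are in `X`: the
`ι '' (nbr E Q)` and the `mass m Q` different ends in `S` of the bars at `Q`: `|nbr E Q| + mass m Q ≤ 2`. `Dem`: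
`mass m Q ≥ 1`, so `|nbr E Q| ≤ 1`, so `mass m Q ≥ gg H Q ≥ 2` (`gg_of_nbr_one`), so `nbr E Q = ∅`, and then
`gg H Q ≥ 3` (`gg_of_nbr_zero`): contradiction.
Conversely `Conn E' 2` and `FeasAll` give `Dem`: if `Q ≠ ∅`, `|nbr E Q| ≤ 2`, `mass m Q = 0`, then `ι '' Q` is closed for
`(E', ι '' (nbr E Q))` and no vertex of `S` is in it: contradiction.
PROOF of `gg_of_nbr_zero`: if `C = univ`: `gg = dof + 4`. All members meeting `C` are inside `C` (as in
`gg_of_nbr_one`, with `u` any vertex outside `C`: they are inside `insert u C` for every `u ∉ C`, and if `univ \ C = {u}`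
use `mcon_deg` or: a member `X` meeting `C` and containing `u`: `mcon_sep` with `P = X ∩ C`, `Q = X \ C`). If
`|C| ≥ 2`: `sTo H C ≤ sIn H C ≤ w C = 2|C| - 3`. If `|C| = 1`: `sTo H C = 0`.
-/

namespace Pool.Agent.GRA

open Finset

variable {α : Type*} [Fintype α] [DecidableEq α] {β : Type*} [Fintype β] [DecidableEq β]

structure Gad (E : Finset (Finset α)) (m : α → ℕ) (ι : α → β) (E' : Finset (Finset β)) :
    Prop where
  inj : Function.Injective ι
  isG : IsG E'
  four : 4 ≤ (univ.filter (fun s : β => ∀ v, ι v ≠ s)).card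
  old : ∀ x y, ({ι x, ι y} : Finset β) ∈ E' ↔ ({x, y} : Finset α) ∈ E
  clique : ∀ s t : β, (∀ v, ι v ≠ s) → (∀ v, ι v ≠ t) → s ≠ t → ({s, t} : Finset β) ∈ E'
  bars : ∀ v, (univ.filter (fun s : β => (∀ x, ι x ≠ s) ∧ ({ι v, s} : Finset β) ∈ E')).card = m v
  priv : ∀ v v' (s : β), (∀ x, ι x ≠ s) → ({ι v, s} : Finset β) ∈ E' →
    ({ι v', s} : Finset β) ∈ E' → v = v'

theorem gg_of_nbr_zero {E H : Finset (Finset α)} (hE : IsG E) (hS : Sys E H)
    (hn : 2 ≤ Fintype.card α) {C : Finset α} (hC : C.Nonempty) (h : nbr E C = ∅) :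
    3 ≤ gg H C := by
  have hout : ∀ a ∈ C, ∀ b, ({a, b} : Finset α) ∈ E → b ∈ C := by
    intro a ha b hab
    by_contra hb
    have : b ∈ nbr E C := mem_filter.2 ⟨mem_univ b, hb, a, ha, hab⟩
    rw [h] at this
    exact notMem_empty _ this
  by_cases hu : C = univ
  · subst hu
    rw [gg_eq]
    have h1 : kk H (univ \ (univ : Finset α)) = -3 := by
      rw [sdiff_self]
      unfold kk
      rw [show (⊥ : Finset α) = ∅ from rfl, sIn_eq_zero hS.indep (by simp)]
      unfold w
      simp
    have h2 : 0 ≤ dof H := hS.indep.nonneg univ (by rw [card_univ]; exact hn)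
    rw [h1]
    linarith
  · have hin : ∀ X ∈ H, (X ∩ C).Nonempty → X ⊆ C := by
      intro X hX hXC
      by_contra hsub
      obtain ⟨x, hxX, hxC⟩ := Finset.not_subset.1 hsub
      obtain ⟨c, hc⟩ := hXC
      rw [mem_inter] at hc
      have hcx : c ≠ x := fun h => hxC (h ▸ hc.2)
      have h2 := hS.indep.two X hX
      have hmc := hS.mc X hX
      rcases Nat.eq_or_lt_of_le h2 with h3 | h3
      · have hXE := mcon_two hE hmc h3.symm
        have hXp : X = {c, x} := by
          refine (eq_of_subset_of_card_le (pair_subset.2 ⟨hc.1, hxX⟩) ?_).symm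
          rw [card_pair hcx]
          omega
        rw [hXp] at hXE
        exact hxC (hout c hc.2 x hXE)
      · have h4 := mcon_sep hmc h3 (P := X ∩ C) (Q := X \ C) (by
          ext z
          simp only [mem_union, mem_inter, mem_sdiff]
          tauto) (fun h => by
          have : x ∈ X ∩ C := by rw [h]; exact hxX
          exact hxC (mem_inter.1 this).2) (fun h => by
          have : c ∈ X \ C := by rw [h]; exact hc.1
          exact (mem_sdiff.1 this).2 hc.2) (by
          intro e he heX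
          obtain ⟨a, b, hab, rfl⟩ := card_eq_two.1 (hE e he)
          obtain ⟨haX, hbX⟩ := pair_subset.1 heX
          by_cases ha : a ∈ C
          · left
            exact pair_subset.2 ⟨mem_inter.2 ⟨haX, ha⟩, mem_inter.2 ⟨hbX, hout a ha b he⟩⟩
          · right
            refine pair_subset.2 ⟨mem_sdiff.2 ⟨haX, ha⟩, mem_sdiff.2 ⟨hbX, fun hb => ha ?_⟩⟩
            refine hout b hb a ?_
            rw [pair_comm]
            exact he)
        have h5 : X ∩ C ∩ (X \ C) = ∅ := by
          ext z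
          simp only [mem_inter, mem_sdiff, notMem_empty, iff_false]
          tauto
        rw [h5, card_empty] at h4
        omega
    have hle : sTo H C ≤ sIn H C := by
      unfold sTo sIn
      apply sum_le_sum_of_subset_of_nonneg
      · intro X hX
        rw [mem_filter] at hX ⊢
        exact ⟨hX.1, hin X hX.1 hX.2⟩
      · intro X hX _
        have := hS.indep.w_pos (mem_filter.1 hX).1
        linarith
    have hC1 := hC.card_pos
    unfold gg
    by_cases h2 : 2 ≤ C.card
    · have h3 := hS.indep.nonneg C h2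
      unfold kk w at h3
      linarith
    · have h3 : sIn H C = 0 := sIn_eq_zero hS.indep (by omega)
      have h4 : (C.card : ℤ) = 1 := by
        have : C.card = 1 := by omega
        rw [this]
        rfl
      rw [h4]
      linarith

/-! ### the gadget -/

private def oth (ι : α → β) : Finset β := univ.filter (fun s : β => ∀ v, ι v ≠ s)

private def bAt (ι : α → β) (E' : Finset (Finset β)) (v : α) : Finset β :=
  univ.filter (fun s : β => (∀ x, ι x ≠ s) ∧ ({ι v, s} : Finset β) ∈ E')

private def pre (ι : α → β) (T : Finset β) : Finset α := univ.filter (fun v => ι v ∈ T)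

private def brs (ι : α → β) (E' : Finset (Finset β)) (C : Finset α) : Finset (Finset β) :=
  (C.sigma (fun v => bAt ι E' v)).image (fun p => {ι p.1, p.2})

private def hh (ι : α → β) (H : Finset (Finset α)) : Finset (Finset β) :=
  H.image (fun X => X.image ι)

section gm

variable {E H : Finset (Finset α)} {m : α → ℕ} {ι : α → β} {E' : Finset (Finset β)}

private theorem mem_oth {s : β} : s ∈ oth ι ↔ ∀ v, ι v ≠ s := by
  unfold oth
  rw [mem_filter]
  exact ⟨fun h => h.2, fun h => ⟨mem_univ _, h⟩⟩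

private theorem mem_bAt {v : α} {s : β} :
    s ∈ bAt ι E' v ↔ (∀ x, ι x ≠ s) ∧ ({ι v, s} : Finset β) ∈ E' := by
  unfold bAt
  rw [mem_filter]
  exact ⟨fun h => h.2, fun h => ⟨mem_univ _, h⟩⟩

private theorem mem_pre {T : Finset β} {v : α} : v ∈ pre ι T ↔ ι v ∈ T := by
  unfold pre
  rw [mem_filter]
  exact ⟨fun h => h.2, fun h => ⟨mem_univ _, h⟩⟩

private theorem mem_brs {C : Finset α} {B : Finset β} :
    B ∈ brs ι E' C ↔ ∃ v ∈ C, ∃ s ∈ bAt ι E' v, B = {ι v, s} := by
  unfold brs
  rw [mem_image]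
  constructor
  · rintro ⟨⟨v, s⟩, hp, rfl⟩
    rw [mem_sigma] at hp
    exact ⟨v, hp.1, s, hp.2, rfl⟩
  · rintro ⟨v, hv, s, hs, rfl⟩
    exact ⟨⟨v, s⟩, mem_sigma.2 ⟨hv, hs⟩, rfl⟩

private theorem mem_hh {B : Finset β} : B ∈ hh ι H ↔ ∃ X ∈ H, B = X.image ι := by
  unfold hh
  rw [mem_image]
  exact ⟨fun ⟨X, h, e⟩ => ⟨X, h, e.symm⟩, fun ⟨X, h, e⟩ => ⟨X, h, e.symm⟩⟩

private theorem dich (s : β) : (∃ v, ι v = s) ∨ s ∈ oth ι := by
  by_cases h : ∃ v, ι v = s
  · exact Or.inl h
  · push Not at h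
    exact Or.inr (mem_oth.2 h)

private theorem card_split (hi : Function.Injective ι) (T : Finset β) :
    T.card = (pre ι T).card + (T ∩ oth ι).card := by
  have h1 : T = (pre ι T).image ι ∪ (T ∩ oth ι) := by
    ext s
    rw [mem_union, mem_image, mem_inter]
    constructor
    · intro hs
      rcases dich (ι := ι) s with ⟨v, rfl⟩ | h
      · exact Or.inl ⟨v, mem_pre.2 hs, rfl⟩
      · exact Or.inr ⟨hs, h⟩
    · rintro (⟨v, hv, rfl⟩ | h)
      · exact mem_pre.1 hv
      · exact h.1
  have h2 : Disjoint ((pre ι T).image ι) (T ∩ oth ι) := by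
    rw [disjoint_left]
    intro s hs hs'
    obtain ⟨v, -, rfl⟩ := mem_image.1 hs
    exact mem_oth.1 (mem_inter.1 hs').2 v rfl
  conv_lhs => rw [h1]
  rw [card_union_of_disjoint h2, card_image_of_injective _ hi]

private theorem image_sub_iff {X : Finset α} {T : Finset β} : X.image ι ⊆ T ↔ X ⊆ pre ι T := by
  constructor
  · intro h x hx
    exact mem_pre.2 (h (mem_image_of_mem _ hx))
  · intro h s hs
    obtain ⟨x, hx, rfl⟩ := mem_image.1 hs
    exact mem_pre.1 (h hx)

private theorem w_image (hi : Function.Injective ι) (X : Finset α) : w (X.image ι) = w X := by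
  unfold w
  rw [card_image_of_injective _ hi]

private theorem brs_ne {v : α} {s : β} (hs : s ∈ bAt ι E' v) : ι v ≠ s := (mem_bAt.1 hs).1 v

private theorem brs_card {C : Finset α} {B : Finset β} (hB : B ∈ brs ι E' C) : B.card = 2 := by
  obtain ⟨v, _, s, hs, rfl⟩ := mem_brs.1 hB
  exact card_pair (brs_ne hs)

private theorem brs_w {C : Finset α} {B : Finset β} (hB : B ∈ brs ι E' C) : w B = 1 := by
  unfold w
  rw [brs_card hB]
  norm_num

private theorem pair_inj {v v' : α} {s s' : β} (hs : ∀ x, ι x ≠ s) (hs' : ∀ x, ι x ≠ s')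
    (h : ({ι v, s} : Finset β) = {ι v', s'}) : ι v = ι v' ∧ s = s' := by
  have h1 : ι v ∈ ({ι v', s'} : Finset β) := by rw [← h]; simp
  have h2 : s ∈ ({ι v', s'} : Finset β) := by rw [← h]; simp
  rw [mem_insert, mem_singleton] at h1 h2
  refine ⟨?_, ?_⟩
  · rcases h1 with h1 | h1
    · exact h1
    · exact absurd h1 (hs' v)
  · rcases h2 with h2 | h2
    · exact absurd h2.symm (hs v')
    · exact h2

private theorem brs_total (hg : Gad E m ι E') (C : Finset α) :
    (brs ι E' C).card = mass m C := by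
  unfold brs
  rw [card_image_of_injOn, card_sigma]
  · unfold mass
    refine sum_congr rfl fun v _ => ?_
    exact hg.bars v
  · rintro ⟨v, s⟩ hp ⟨v', s'⟩ hp' h
    rw [mem_coe, mem_sigma] at hp hp'
    obtain ⟨h1, h2⟩ := pair_inj (mem_bAt.1 hp.2).1 (mem_bAt.1 hp'.2).1 h
    have h3 := hg.inj h1
    dsimp only at h2 h3
    rw [h2, h3]

private theorem brs_inside (hg : Gad E m ι E') (T : Finset β) :
    ((brs ι E' univ).filter (· ⊆ T)).card ≤ (T ∩ oth ι).card := by
  have h1 : (brs ι E' univ).filter (· ⊆ T) ⊆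
      (((univ : Finset α).sigma (fun v => bAt ι E' v)).filter (fun p => p.2 ∈ T)).image
        (fun p => {ι p.1, p.2}) := by
    intro B hB
    rw [mem_filter] at hB
    obtain ⟨v, hv, s, hs, rfl⟩ := mem_brs.1 hB.1
    rw [mem_image]
    exact ⟨⟨v, s⟩, mem_filter.2 ⟨mem_sigma.2 ⟨hv, hs⟩, hB.2 (by simp)⟩, rfl⟩
  refine (card_le_card h1).trans (card_image_le.trans ?_)
  refine card_le_card_of_injOn (fun p => p.2) ?_ ?_
  · rintro ⟨v, s⟩ hp
    rw [mem_coe, mem_filter, mem_sigma] at hp
    rw [mem_coe, mem_inter]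
    exact ⟨hp.2, mem_oth.2 (mem_bAt.1 hp.1.2).1⟩
  · rintro ⟨v, s⟩ hp ⟨v', s'⟩ hp' h
    rw [mem_coe, mem_filter, mem_sigma] at hp hp'
    dsimp only at h hp hp'
    subst h
    have h3 := hg.priv v v' s (mem_bAt.1 hp.1.2).1 (mem_bAt.1 hp.1.2).2 (mem_bAt.1 hp'.1.2).2
    rw [h3]

private theorem hh_disj (C : Finset α) : Disjoint (hh ι H) (brs ι E' C) := by
  rw [disjoint_left]
  intro B h1 h2
  obtain ⟨X, -, rfl⟩ := mem_hh.1 h1
  obtain ⟨v, -, s, hs, e⟩ := mem_brs.1 h2
  have : s ∈ X.image ι := by rw [e]; simp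
  obtain ⟨x, -, hx⟩ := mem_image.1 this
  exact (mem_bAt.1 hs).1 x hx

private theorem hh_sum (hi : Function.Injective ι) (q : Finset β → Prop) [DecidablePred q]
    (q' : Finset α → Prop) [DecidablePred q'] (h : ∀ X, q (X.image ι) ↔ q' X) :
    ∑ B ∈ (hh ι H).filter q, w B = ∑ X ∈ H.filter q', w X := by
  unfold hh
  rw [filter_image, sum_image (fun X _ Y _ h => Finset.image_injective hi h)]
  have e : H.filter (fun X => q (X.image ι)) = H.filter q' := filter_congr fun X _ => h X
  rw [e]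
  exact sum_congr rfl fun X _ => w_image hi X

private theorem gm_indep (hS : Sys E H) (hg : Gad E m ι E') :
    Indep (hh ι H ∪ brs ι E' univ) := by
  refine ⟨?_, ?_⟩
  · intro B hB
    rcases mem_union.1 hB with hB | hB
    · obtain ⟨X, hX, rfl⟩ := mem_hh.1 hB
      rw [card_image_of_injective _ hg.inj]
      exact hS.indep.two X hX
    · exact (brs_card hB).ge
  · intro T hT
    have h1 : sIn (hh ι H ∪ brs ι E' univ) T = sIn H (pre ι T) +
        (((brs ι E' univ).filter (· ⊆ T)).card : ℤ) := by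
      unfold sIn
      rw [filter_union, sum_union ((hh_disj univ).mono (filter_subset _ _) (filter_subset _ _)),
        hh_sum hg.inj (· ⊆ T) (· ⊆ pre ι T) (fun X => image_sub_iff)]
      congr 1
      rw [card_eq_sum_ones]
      push_cast
      exact sum_congr rfl fun B hB => brs_w (mem_filter.1 hB).1
    have h2 := brs_inside hg T
    have h3 := card_split hg.inj T
    have h3' : (T.card : ℤ) = (pre ι T).card + (T ∩ oth ι).card := by exact_mod_cast h3
    have h2' : (((brs ι E' univ).filter (· ⊆ T)).card : ℤ) ≤ (T ∩ oth ι).card := by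
      exact_mod_cast h2
    unfold kk
    rw [h1]
    unfold w
    by_cases c2 : 2 ≤ (pre ι T).card
    · have h4 := hS.indep.nonneg _ c2
      unfold kk w at h4
      linarith
    · have h4 : sIn H (pre ι T) = 0 := sIn_eq_zero hS.indep (by omega)
      rw [h4]
      by_cases c1 : (pre ι T).card = 1
      · omega
      · have c0 : (pre ι T).card = 0 := by omega
        have h5 : (brs ι E' univ).filter (· ⊆ T) = ∅ := by
          rw [filter_eq_empty_iff]
          intro B hB hBT
          obtain ⟨v, -, s, hs, rfl⟩ := mem_brs.1 hB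
          have : v ∈ pre ι T := mem_pre.2 (hBT (by simp))
          rw [card_eq_zero.1 c0] at this
          exact notMem_empty _ this
        rw [h5, card_empty]
        omega

private theorem edge_image (hE : IsG E) (hg : Gad E m ι E') {B : Finset α} (hB : B ∈ E) :
    B.image ι ∈ E' := by
  obtain ⟨x, y, -, rfl⟩ := card_eq_two.1 (hE B hB)
  rw [image_insert, image_singleton]
  exact (hg.old x y).2 hB

private theorem mcon_image (hE : IsG E) (hg : Gad E m ι E') {X : Finset α} (h : MCon E X) :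
    MCon E' (X.image ι) := by
  intro Y hY hc
  have hpre : ∀ A ∈ Y, (pre ι A).image ι = A := by
    intro A hA
    ext s
    rw [mem_image]
    constructor
    · rintro ⟨v, hv, rfl⟩
      exact mem_pre.1 hv
    · intro hs
      obtain ⟨v, -, rfl⟩ := mem_image.1 ((hY A hA).2.1 hs)
      exact ⟨v, mem_pre.2 hs, rfl⟩
  have hcard : ∀ A ∈ Y, (pre ι A).card = A.card := by
    intro A hA
    conv_rhs => rw [← hpre A hA]
    rw [card_image_of_injective _ hg.inj]
  have key := h (Y.image (pre ι)) (by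
    intro A' hA'
    obtain ⟨A, hA, rfl⟩ := mem_image.1 hA'
    obtain ⟨h1, h2, h3⟩ := hY A hA
    refine ⟨by rw [hcard A hA]; exact h1, ?_, ?_⟩
    · intro v hv
      obtain ⟨x, hx, e⟩ := mem_image.1 (h2 (mem_pre.1 hv))
      rw [← hg.inj e]
      exact hx
    · intro e
      apply h3
      rw [← hpre A hA, e]) (by
    intro B hB hBX
    obtain ⟨A, hA, hBA⟩ := hc (B.image ι) (edge_image hE hg hB) (image_subset_image hBX)
    exact ⟨pre ι A, mem_image_of_mem _ hA, image_sub_iff.1 hBA⟩)
  have hsum : ∑ A ∈ Y.image (pre ι), w A = ∑ A ∈ Y, w A := by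
    rw [sum_image]
    · refine sum_congr rfl fun A hA => ?_
      unfold w
      rw [hcard A hA]
    · intro A hA B hB e
      rw [← hpre A hA, ← hpre B hB, e]
  rw [hsum] at key
  rw [card_image_of_injective _ hg.inj]
  exact key

/-- the auxiliary family -/
private def aux (ι : α → β) (E' : Finset (Finset β)) (H : Finset (Finset α)) :
    Finset (Finset β) := insert (oth ι) (hh ι H ∪ brs ι E' univ)

private theorem oth_mcon (hg : Gad E m ι E') : MCon E' (oth ι) := by
  refine clique_mcon hg.four ?_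
  intro s hs t ht hst
  exact hg.clique s t (mem_oth.1 hs) (mem_oth.1 ht) hst

private theorem aux_MC (hE : IsG E) (hS : Sys E H) (hg : Gad E m ι E') :
    MC E' ↔ MC (aux ι E' H) := by
  constructor
  · intro h Y hY hc
    refine h Y hY ?_
    intro e he
    obtain ⟨a, b, hab, rfl⟩ := card_eq_two.1 (hg.isG e he)
    rcases dich (ι := ι) a with ⟨x, rfl⟩ | ha <;> rcases dich (ι := ι) b with ⟨y, rfl⟩ | hb
    · obtain ⟨X, hX, hxX⟩ := hS.cov _ ((hg.old x y).1 he)
      obtain ⟨A, hA, hXA⟩ := hc (X.image ι) (mem_insert_of_mem (mem_union_left _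
        (mem_hh.2 ⟨X, hX, rfl⟩)))
      obtain ⟨h1, h2⟩ := pair_subset.1 hxX
      exact ⟨A, hA, pair_subset.2 ⟨hXA (mem_image_of_mem _ h1), hXA (mem_image_of_mem _ h2)⟩⟩
    · exact hc _ (mem_insert_of_mem (mem_union_right _
        (mem_brs.2 ⟨x, mem_univ x, b, mem_bAt.2 ⟨mem_oth.1 hb, he⟩, rfl⟩)))
    · rw [pair_comm] at he ⊢
      exact hc _ (mem_insert_of_mem (mem_union_right _
        (mem_brs.2 ⟨y, mem_univ y, a, mem_bAt.2 ⟨mem_oth.1 ha, he⟩, rfl⟩)))
    · obtain ⟨A, hA, hSA⟩ := hc (oth ι) (mem_insert_self _ _)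
      exact ⟨A, hA, pair_subset.2 ⟨hSA ha, hSA hb⟩⟩
  · intro h
    rw [MC_iff] at h ⊢
    refine MCon_of_MCon (fun B hB => (hg.isG B hB).ge) ?_ h
    intro B hB _
    rcases mem_insert.1 hB with rfl | hB
    · right
      refine ⟨?_, oth_mcon hg⟩
      have := hg.four
      unfold oth
      omega
    · rcases mem_union.1 hB with hB | hB
      · right
        obtain ⟨X, hX, rfl⟩ := mem_hh.1 hB
        refine ⟨?_, mcon_image hE hg (hS.mc X hX)⟩
        rw [card_image_of_injective _ hg.inj]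
        exact hS.indep.two X hX
      · left
        obtain ⟨v, -, s, hs, rfl⟩ := mem_brs.1 hB
        exact (mem_bAt.1 hs).2

private theorem meet_iff (hi : Function.Injective ι) {X C : Finset α} :
    (X.image ι ∩ C.image ι).Nonempty ↔ (X ∩ C).Nonempty := by
  rw [← image_inter _ _ hi, image_nonempty]

private theorem brs_meet {C : Finset α} (hi : Function.Injective ι) :
    (brs ι E' univ).filter (fun B => (B ∩ C.image ι).Nonempty) = brs ι E' C := by
  ext B
  rw [mem_filter]
  constructor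
  · rintro ⟨hB, hm⟩
    obtain ⟨v, -, s, hs, rfl⟩ := mem_brs.1 hB
    obtain ⟨z, hz⟩ := hm
    rw [mem_inter, mem_insert, mem_singleton, mem_image] at hz
    obtain ⟨hz1, c, hc, hz2⟩ := hz
    refine mem_brs.2 ⟨v, ?_, s, hs, rfl⟩
    rcases hz1 with h | h
    · rw [h] at hz2
      rw [← hi hz2]
      exact hc
    · rw [h] at hz2
      exact absurd hz2 ((mem_bAt.1 hs).1 c)
  · intro hB
    obtain ⟨v, hv, s, hs, rfl⟩ := mem_brs.1 hB
    exact ⟨mem_brs.2 ⟨v, mem_univ v, s, hs, rfl⟩, ι v,
      mem_inter.2 ⟨by simp, mem_image_of_mem _ hv⟩⟩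

private theorem brs_sum (hg : Gad E m ι E') (C : Finset α) :
    ∑ B ∈ brs ι E' C, w B = (mass m C : ℤ) := by
  rw [← brs_total hg C, card_eq_sum_ones]
  push_cast
  exact sum_congr rfl fun B hB => brs_w hB

private theorem hh_meet_sum (hi : Function.Injective ι) (C : Finset α) :
    ∑ B ∈ (hh ι H).filter (fun B => (B ∩ C.image ι).Nonempty), w B = sTo H C :=
  hh_sum hi _ _ (fun _ => meet_iff hi)

private theorem feas_of (hS : Sys E H) (hg : Gad E m ι E') (h : MC (aux ι E' H)) :
    FeasAll H m := by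
  intro C hC
  have hi := hg.inj
  have hS4 : 4 ≤ (oth ι).card := hg.four
  have hSC : oth ι ⊆ univ \ C.image ι := by
    intro s hs
    rw [mem_sdiff]
    refine ⟨mem_univ s, fun h1 => ?_⟩
    obtain ⟨v, -, rfl⟩ := mem_image.1 h1
    exact mem_oth.1 hs v rfl
  have hSne : (oth ι).Nonempty := card_pos.1 (by omega)
  have hcardβ := card_split hi (univ : Finset β)
  have hUC : (univ \ C.image ι).card + C.card = Fintype.card β := by
    have h1 := card_sdiff_add_card_eq_card (subset_univ (C.image ι))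
    rw [card_image_of_injective _ hi, card_univ] at h1
    exact h1
  have key := h (insert (univ \ C.image ι)
    ((hh ι H).filter (fun B => (B ∩ C.image ι).Nonempty) ∪ brs ι E' C)) ?_ ?_
  · have h1 : ∑ A ∈ insert (univ \ C.image ι)
        ((hh ι H).filter (fun B => (B ∩ C.image ι).Nonempty) ∪ brs ι E' C), w A ≤
        w (univ \ C.image ι) + (sTo H C + (mass m C : ℤ)) := by
      have h2 : ∑ A ∈ (hh ι H).filter (fun B => (B ∩ C.image ι).Nonempty) ∪ brs ι E' C, w A =
          sTo H C + (mass m C : ℤ) := by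
        rw [sum_union ((hh_disj C).mono_left (filter_subset _ _)), hh_meet_sum hi, brs_sum hg]
      by_cases hmem : univ \ C.image ι ∈
          (hh ι H).filter (fun B => (B ∩ C.image ι).Nonempty) ∪ brs ι E' C
      · rw [insert_eq_of_mem hmem, h2]
        have := w_pos (A := univ \ C.image ι) (by
          have := card_le_card hSC
          omega)
        linarith
      · rw [sum_insert hmem, h2]
    have h3 := key.trans h1
    have h4 : ((univ \ C.image ι).card : ℤ) + C.card = Fintype.card β := by exact_mod_cast hUC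
    unfold gg
    have h5 : w (univ \ C.image ι) = 2 * ((univ \ C.image ι).card : ℤ) - 3 := rfl
    rw [h5] at h3
    linarith
  · intro A hA
    rcases mem_insert.1 hA with rfl | hA
    · refine ⟨?_, ?_⟩
      · have := card_le_card hSC
        omega
      · intro e
        obtain ⟨c, hc⟩ := hC
        have : ι c ∈ univ \ C.image ι := by rw [e]; exact mem_univ _
        exact (mem_sdiff.1 this).2 (mem_image_of_mem _ hc)
    · rcases mem_union.1 hA with hA | hA
      · obtain ⟨X, hX, rfl⟩ := mem_hh.1 (mem_filter.1 hA).1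
        refine ⟨?_, ?_⟩
        · rw [card_image_of_injective _ hi]
          exact hS.indep.two X hX
        · intro e
          obtain ⟨s, hs⟩ := hSne
          have : s ∈ X.image ι := by rw [e]; exact mem_univ _
          obtain ⟨v, -, rfl⟩ := mem_image.1 this
          exact mem_oth.1 hs v rfl
      · refine ⟨(brs_card hA).ge, ?_⟩
        intro e
        have h1 := brs_card hA
        rw [e, hcardβ, univ_inter] at h1
        omega
  · intro B hB
    by_cases hm : (B ∩ C.image ι).Nonempty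
    · rcases mem_insert.1 hB with rfl | hB
      · exact ⟨_, mem_insert_self _ _, hSC⟩
      · rcases mem_union.1 hB with hB | hB
        · exact ⟨B, mem_insert_of_mem (mem_union_left _ (mem_filter.2 ⟨hB, hm⟩)), Subset.refl _⟩
        · refine ⟨B, mem_insert_of_mem (mem_union_right _ ?_), Subset.refl _⟩
          rw [← brs_meet hi]
          exact mem_filter.2 ⟨hB, hm⟩
    · refine ⟨_, mem_insert_self _ _, ?_⟩
      intro z hz
      rw [mem_sdiff]
      exact ⟨mem_univ z, fun h => hm ⟨z, mem_inter.2 ⟨hz, h⟩⟩⟩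

private theorem MC_of_feas (hS : Sys E H) (hg : Gad E m ι E') (h : FeasAll H m) :
    MC (aux ι E' H) := by
  intro Y hY hc
  have hi := hg.inj
  have hind := gm_indep hS hg
  obtain ⟨A₀, hA₀, hSA⟩ := hc (oth ι) (mem_insert_self _ _)
  obtain ⟨C, hCdef⟩ : ∃ C : Finset α, C = univ.filter (fun v => ι v ∉ A₀) := ⟨_, rfl⟩
  have hCm : ∀ v, v ∈ C ↔ ι v ∉ A₀ := by
    intro v
    rw [hCdef, mem_filter]
    exact ⟨fun h => h.2, fun h => ⟨mem_univ _, h⟩⟩
  have hC : C.Nonempty := by
    by_contra hne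
    rw [not_nonempty_iff_eq_empty] at hne
    refine (hY A₀ hA₀).2 ?_
    rw [eq_univ_iff_forall]
    intro z
    rcases dich (ι := ι) z with ⟨v, rfl⟩ | hz
    · by_contra hz
      have : v ∈ C := (hCm v).2 hz
      rw [hne] at this
      exact notMem_empty _ this
    · exact hSA hz
  have hcA : A₀.card + C.card = Fintype.card β := by
    have h1 := card_split hi A₀
    have h2 := card_split hi (univ : Finset β)
    rw [univ_inter, card_univ] at h2
    rw [inter_eq_right.2 hSA] at h1
    have h3 : (pre ι A₀).card + C.card = Fintype.card α := by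
      have h4 : pre ι A₀ = univ \ C := by
        ext v
        rw [mem_pre, mem_sdiff, hCm]
        simp
      rw [h4]
      have h5 := card_sdiff_add_card_eq_card (subset_univ C)
      rw [card_univ] at h5
      exact h5
    have h6 : (pre ι (univ : Finset β)).card = Fintype.card α := by
      rw [← card_univ]
      congr 1
      rw [eq_univ_iff_forall]
      intro v
      exact mem_pre.2 (mem_univ _)
    omega
  -- the main inequality
  have h1 : ∑ B ∈ (hh ι H ∪ brs ι E' univ).filter (fun B => (B ∩ C.image ι).Nonempty), w B ≤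
      ∑ A ∈ Y.erase A₀, w A := by
    have h2 : ∑ B ∈ (hh ι H ∪ brs ι E' univ).filter (fun B => (B ∩ C.image ι).Nonempty), w B ≤
        ∑ B ∈ hh ι H ∪ brs ι E' univ, ∑ A ∈ Y.erase A₀, wp (B ∩ A) := by
      refine (sum_le_sum (g := fun B => ∑ A ∈ Y.erase A₀, wp (B ∩ A)) ?_).trans
        (sum_le_sum_of_subset_of_nonneg (filter_subset _ _)
          (fun B _ _ => sum_nonneg fun A _ => wp_nonneg _))
      intro B hB
      rw [mem_filter] at hB
      obtain ⟨A, hA, hBA⟩ := hc B (mem_insert_of_mem hB.1)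
      have hne : A ≠ A₀ := by
        rintro rfl
        obtain ⟨z, hz⟩ := hB.2
        rw [mem_inter] at hz
        obtain ⟨v, hv, rfl⟩ := mem_image.1 hz.2
        exact (hCm v).1 hv (hBA hz.1)
      have h3 : wp (B ∩ A) ≤ ∑ A ∈ Y.erase A₀, wp (B ∩ A) :=
        single_le_sum (f := fun A => wp (B ∩ A)) (fun A _ => wp_nonneg _)
          (mem_erase.2 ⟨hne, hA⟩)
      rw [inter_eq_left.2 hBA] at h3
      exact (le_wp B).trans h3
    refine h2.trans ?_
    rw [sum_comm]
    refine sum_le_sum fun A hA => ?_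
    exact hind.sum_wp_le A (hY A (mem_of_mem_erase hA)).1
  have h2 : ∑ B ∈ (hh ι H ∪ brs ι E' univ).filter (fun B => (B ∩ C.image ι).Nonempty), w B =
      sTo H C + (mass m C : ℤ) := by
    rw [filter_union, sum_union ((hh_disj univ).mono (filter_subset _ _) (filter_subset _ _)),
      hh_meet_sum hi, brs_meet hi, brs_sum hg]
  have h3 := h C hC
  have h4 := add_sum_erase Y w hA₀
  have h5 : (A₀.card : ℤ) + C.card = Fintype.card β := by exact_mod_cast hcA
  unfold gg at h3
  rw [h2] at h1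
  rw [← h4]
  unfold w at h1 ⊢
  linarith

end gm

theorem gad_MC {E H : Finset (Finset α)} (hE : IsG E) (hS : Sys E H)
    (hn : 2 ≤ Fintype.card α) {m : α → ℕ} {ι : α → β} {E' : Finset (Finset β)}
    (hg : Gad E m ι E') : MC E' ↔ FeasAll H m := by
  rw [aux_MC hE hS hg]
  exact ⟨feas_of hS hg, MC_of_feas hS hg⟩

private theorem no_small {E H : Finset (Finset α)} (hE : IsG E) (hS : Sys E H)
    (hn : 2 ≤ Fintype.card α) {m : α → ℕ} {ι : α → β} {E' : Finset (Finset β)}
    (hg : Gad E m ι E') (hD : Dem E H m) {X L : Finset β} (hX : X.card ≤ 2)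
    (hL : Closed E' X L) (hL0 : L.Nonempty) (hLS : ∀ s ∈ L, s ∉ oth ι) : False := by
  have hi := hg.inj
  have hQ0 : (pre ι L).Nonempty := by
    obtain ⟨z, hz⟩ := hL0
    rcases dich (ι := ι) z with ⟨v, rfl⟩ | h
    · exact ⟨v, mem_pre.2 hz⟩
    · exact absurd h (hLS z hz)
  have h1 : (nbr E (pre ι L)).image ι ⊆ X := by
    intro z hz
    obtain ⟨v, hv, rfl⟩ := mem_image.1 hz
    obtain ⟨-, hvQ, x, hx, he⟩ := mem_filter.1 hv
    by_contra hvX
    exact hvQ (mem_pre.2 (hL.2 (ι x) (mem_pre.1 hx) (ι v) hvX ((hg.old x v).2 he)))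
  have h2 : (pre ι L).biUnion (fun v => bAt ι E' v) ⊆ X := by
    intro s hs
    obtain ⟨v, hv, hs⟩ := mem_biUnion.1 hs
    obtain ⟨k1, k2⟩ := mem_bAt.1 hs
    by_contra hsX
    exact hLS s (hL.2 (ι v) (mem_pre.1 hv) s hsX k2) (mem_oth.2 k1)
  have h3 : ((pre ι L).biUnion (fun v => bAt ι E' v)).card = mass m (pre ι L) := by
    rw [card_biUnion]
    · unfold mass
      exact sum_congr rfl fun v _ => hg.bars v
    · intro v _ v' _ hne
      rw [Function.onFun, disjoint_left]
      intro s hs hs'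
      exact hne (hg.priv v v' s (mem_bAt.1 hs).1 (mem_bAt.1 hs).2 (mem_bAt.1 hs').2)
  have h4 : Disjoint ((nbr E (pre ι L)).image ι) ((pre ι L).biUnion (fun v => bAt ι E' v)) := by
    rw [disjoint_left]
    intro z hz hz'
    obtain ⟨v, -, rfl⟩ := mem_image.1 hz
    obtain ⟨v', -, hs⟩ := mem_biUnion.1 hz'
    exact (mem_bAt.1 hs).1 v rfl
  have h5 : (nbr E (pre ι L)).card + mass m (pre ι L) ≤ 2 := by
    rw [← h3, ← card_image_of_injective (nbr E (pre ι L)) hi, ← card_union_of_disjoint h4]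
    exact (card_le_card (union_subset h1 h2)).trans hX
  have h6 := hD.2 (pre ι L) hQ0 (by omega)
  obtain ⟨u, hu⟩ : ∃ u, nbr E (pre ι L) ⊆ {u} := by
    have : Nonempty α := ⟨hQ0.choose⟩
    exact card_le_one_iff_subset_singleton.1 (by omega)
  have h7 := gg_of_nbr_one hE hS hn hQ0 hu
  have h8 := hD.1 (pre ι L) hQ0
  have h9 : 2 ≤ mass m (pre ι L) := by
    have : (2 : ℤ) ≤ mass m (pre ι L) := h7.trans h8
    exact_mod_cast this
  have h10 : nbr E (pre ι L) = ∅ := by
    rw [← card_eq_zero]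
    omega
  have h11 := gg_of_nbr_zero hE hS hn hQ0 h10
  have h12 : 3 ≤ mass m (pre ι L) := by
    have : (3 : ℤ) ≤ mass m (pre ι L) := h11.trans h8
    exact_mod_cast this
  omega

theorem gad_iff {E H : Finset (Finset α)} (hE : IsG E) (hS : Sys E H)
    (hn : 2 ≤ Fintype.card α) {m : α → ℕ} {ι : α → β} {E' : Finset (Finset β)}
    (hg : Gad E m ι E') : (MC E' ∧ Conn E' 2) ↔ Dem E H m := by
  have hi := hg.inj
  have hS4 : 4 ≤ (oth ι).card := hg.four
  rw [gad_MC hE hS hn hg]
  constructor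
  · rintro ⟨hF, hC⟩
    refine ⟨hF, ?_⟩
    intro Q hQ hnb
    by_contra hlt
    have hm0 : mass m Q = 0 := by omega
    obtain ⟨q, hq⟩ := hQ
    obtain ⟨s, hs⟩ := card_pos.1 (show 0 < (oth ι).card by omega)
    have hclo : Closed E' ((nbr E Q).image ι) (Q.image ι) := by
      refine ⟨?_, ?_⟩
      · rw [disjoint_left]
        intro z hz hz'
        obtain ⟨v, hv, rfl⟩ := mem_image.1 hz
        obtain ⟨v', hv', e⟩ := mem_image.1 hz'
        rw [hi e] at hv'
        exact (mem_filter.1 hv').2.1 hv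
      · intro a ha y hy he
        obtain ⟨v, hv, rfl⟩ := mem_image.1 ha
        rcases dich (ι := ι) y with ⟨y, rfl⟩ | hyS
        · refine mem_image_of_mem _ ?_
          by_contra hyQ
          exact hy (mem_image_of_mem _ (mem_filter.2 ⟨mem_univ y, hyQ, v, hv,
            (hg.old v y).1 he⟩))
        · exfalso
          have h1 : y ∈ bAt ι E' v := mem_bAt.2 ⟨mem_oth.1 hyS, he⟩
          have h2 : (bAt ι E' v).card = m v := hg.bars v
          have h3 := le_mass m hv
          have h4 := card_pos.2 ⟨y, h1⟩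
          omega
    have hr := hC ((nbr E Q).image ι) (card_image_le.trans hnb) (ι q) s
      (fun h => by
        obtain ⟨v, hv, e⟩ := mem_image.1 h
        rw [hi e] at hv
        exact (mem_filter.1 hv).2.1 hq)
      (fun h => by
        obtain ⟨v, hv, rfl⟩ := mem_image.1 h
        exact mem_oth.1 hs v rfl)
    have h1 := hr _ hclo (mem_image_of_mem _ hq)
    obtain ⟨v, -, rfl⟩ := mem_image.1 h1
    exact mem_oth.1 hs v rfl
  · intro hD
    refine ⟨hD.1, ?_⟩
    intro X hX x y hxX hyX L hL hxL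
    by_contra hyL
    by_cases hLS : ∀ s ∈ L, s ∉ oth ι
    · exact no_small hE hS hn hg hD hX hL ⟨x, hxL⟩ hLS
    · push Not at hLS
      obtain ⟨s₀, hs₀L, hs₀⟩ := hLS
      refine no_small hE hS hn hg hD hX hL.compl ⟨y, ?_⟩ ?_
      · rw [mem_sdiff, mem_union, not_or]
        exact ⟨mem_univ _, hyX, hyL⟩
      · intro s hs hsS
        rw [mem_sdiff, mem_union, not_or] at hs
        have hne : s₀ ≠ s := fun h => hs.2.2 (h ▸ hs₀L)
        exact hs.2.2 (hL.2 s₀ hs₀L s hs.2.1
          (hg.clique s₀ s (mem_oth.1 hs₀) (mem_oth.1 hsS) hne))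

end Pool.Agent.GRA
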