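import Pool.Agent.GRA.GT
import Pool.Agent.GRA.GM

/-!
# GRA/GD: demand tests and the greedy demand vector

`mv n m v = m.getD v 0` for `v : Fin n`.
PROOF of `gad_gadL`. `N = 4n+4`, `ι = Fin.castLE`: `Fin n → Fin N`; the other vertices are the numbers
`n, …, 4n+3`, there are `3n + 4 ≥ 4`. The members of `gadL n l m`: `(j,i)` with `j < i < n` (edges of `gr n l`),
`(v, n + 3v + i)` with `v < n`, `i < m.getD v 0 ≤ 3` (so `n + 3v + i < 4n`), and `(n + a, n + b)`, `a < b < 3n + 4`. `old`: pairs
of old vertices only come from the first part. `clique`: third part. `bars`: the new vertices joined to `v` are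
`n + 3v + i`, `i < m.getD v 0`. `priv`: `n + 3v + i = n + 3v' + i'` with `i, i' < 3` gives `v = v'`.
PROOF of `demB_iff`: `goodB_iff` for `4n + 4 ≥ 4` vertices, `gad_iff`.
`Dem.mono`: `FeasAll` and the other condition are monotone in the vector.
`mv_setB`: the vector `mv n (setB n m v k)` is `Function.update (mv n m) v k`.
PROOF of `greedy_minDem`. The start vector (all 3) satisfies `Dem`: `gg H C ≤ 2|C| + 1 ≤ 3|C|` for nonempty `C`
(`sTo ≥ 0`), and `mass ≥ 3` for nonempty `Q`. Invariant of the fold after processing `0, …, v-1`: entries ≤ 3,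
`Dem`, and for every processed `u` with `mv u > 0`, `¬ Dem` for the vector lowered by one at `u`. Processing
`v`: `lowerB` takes the least `k ≤ 2` with `Dem` for `update v k` if there is one, otherwise it keeps the vector. If
the new value `k` at `v` is positive, `update v (k-1)` is not `Dem`: if `k ≤ 2` by the failed test; if the vector is
kept, its value at `v` is still 3 (it has not been processed) and `update v 2` failed. For earlier `u` the
new vector is `≤` the old one, so by `Dem.mono` lowering at `u` is still impossible.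
(`setB` also cuts the list to length `n`; `mv` only looks at the entries below `n`.)
`greedy_sum`: all lists in the fold have length `n`, `mass m univ = (greedyB n l).sum`.
-/

namespace Pool.Agent.GRA

open Finset

def mv (n : ℕ) (m : List ℕ) : Fin n → ℕ := fun v => m.getD v 0

private theorem mem_gadL {n : ℕ} {l : List (ℕ × ℕ)} {m : List ℕ} {p : ℕ × ℕ} :
    p ∈ gadL n l m ↔ p ∈ edgesL n l ∨
      (∃ v < n, ∃ i < m.getD v 0, p = (v, n + 3 * v + i)) ∨
      (∃ q : ℕ × ℕ, (q.1 < q.2 ∧ q.2 < 3 * n + 4) ∧ p = (n + q.1, n + q.2)) := by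
  unfold gadL
  simp only [List.mem_append, List.mem_flatMap, List.mem_range, List.mem_map]
  constructor
  · rintro (h | ⟨v, hv, i, hi, rfl⟩ | ⟨q, hq, rfl⟩)
    · exact Or.inl h
    · exact Or.inr (Or.inl ⟨v, hv, i, hi, rfl⟩)
    · exact Or.inr (Or.inr ⟨q, mem_pairsL.1 hq, rfl⟩)
  · rintro (h | ⟨v, hv, i, hi, rfl⟩ | ⟨q, hq, rfl⟩)
    · exact Or.inl h
    · exact Or.inr (Or.inl ⟨v, hv, i, hi, rfl⟩)
    · exact Or.inr (Or.inr ⟨q, mem_pairsL.2 hq, rfl⟩)

private theorem gd_old {n : ℕ} {l : List (ℕ × ℕ)} {m : List ℕ} {i j : ℕ} (hi : i < n)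
    (hj : j < n) : adjB (gadL n l m) i j = true ↔ i ≠ j ∧ adjB l i j = true := by
  have key : ∀ a b : ℕ, a < n → b < n → ((a, b) ∈ gadL n l m ↔ a < b ∧ adjB l a b = true) := by
    intro a b ha hb
    rw [mem_gadL]
    constructor
    · rintro (h | ⟨v, hv, i, hi, h⟩ | ⟨q, hq, h⟩)
      · rw [mem_edgesL] at h
        exact ⟨h.1.1, h.2⟩
      · rw [Prod.mk.injEq] at h
        omega
      · rw [Prod.mk.injEq] at h
        omega
    · rintro ⟨h1, h2⟩
      left
      rw [mem_edgesL]
      exact ⟨⟨h1, hb⟩, h2⟩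
  rw [adjB_iff, key i j hi hj, key j i hj hi, adjB_comm l j i]
  constructor
  · rintro (h | h)
    · exact ⟨h.1.ne, h.2⟩
    · exact ⟨h.1.ne', h.2⟩
  · rintro ⟨h1, h2⟩
    rcases lt_or_gt_of_ne h1 with h | h
    · exact Or.inl ⟨h, h2⟩
    · exact Or.inr ⟨h, h2⟩

private theorem gd_bar {n : ℕ} {l : List (ℕ × ℕ)} {m : List ℕ} {v s : ℕ} (hv : v < n)
    (hs : n ≤ s) : adjB (gadL n l m) v s = true ↔ ∃ i < m.getD v 0, s = n + 3 * v + i := by
  rw [adjB_iff, mem_gadL, mem_gadL]
  constructor
  · rintro ((h | ⟨v', hv', i, hi, h⟩ | ⟨q, hq, h⟩) | (h | ⟨v', hv', i, hi, h⟩ | ⟨q, hq, h⟩))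
    · rw [mem_edgesL] at h
      exact absurd h.1.2 (not_lt.2 hs)
    · rw [Prod.mk.injEq] at h
      obtain ⟨rfl, h2⟩ := h
      exact ⟨i, hi, h2⟩
    · rw [Prod.mk.injEq] at h
      omega
    · rw [mem_edgesL] at h
      have h1 : s < v := h.1.1
      omega
    · rw [Prod.mk.injEq] at h
      omega
    · rw [Prod.mk.injEq] at h
      omega
  · rintro ⟨i, hi, rfl⟩
    exact Or.inl (Or.inr (Or.inl ⟨v, hv, i, hi, rfl⟩))

private theorem gd_clq {n : ℕ} {l : List (ℕ × ℕ)} {m : List ℕ} {s t : ℕ} (hs : n ≤ s)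
    (ht : n ≤ t) (hs' : s < 4 * n + 4) (ht' : t < 4 * n + 4) (hne : s ≠ t) :
    adjB (gadL n l m) s t = true := by
  rw [adjB_iff, mem_gadL, mem_gadL]
  rcases lt_or_gt_of_ne hne with h | h
  · left
    right
    right
    refine ⟨(s - n, t - n), ⟨?_, ?_⟩, ?_⟩
    · show s - n < t - n
      omega
    · show t - n < 3 * n + 4
      omega
    · show (s, t) = (n + (s - n), n + (t - n))
      rw [Nat.add_sub_cancel' hs, Nat.add_sub_cancel' ht]
  · right
    right
    right
    refine ⟨(t - n, s - n), ⟨?_, ?_⟩, ?_⟩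
    · show t - n < s - n
      omega
    · show s - n < 3 * n + 4
      omega
    · show (t, s) = (n + (t - n), n + (s - n))
      rw [Nat.add_sub_cancel' hs, Nat.add_sub_cancel' ht]

private theorem gd_out {n N : ℕ} (hN : n ≤ N) {s : Fin N} :
    (∀ v : Fin n, Fin.castLE hN v ≠ s) ↔ n ≤ (s : ℕ) := by
  constructor
  · intro h
    by_contra hlt
    push Not at hlt
    exact h ⟨s, hlt⟩ (Fin.ext rfl)
  · intro h v e
    have h1 : (v : ℕ) = s := by rw [← e]; rfl
    have h2 := v.2
    omega

theorem gad_gadL {n : ℕ} (l : List (ℕ × ℕ)) {m : List ℕ} (hm : ∀ v : Fin n, mv n m v ≤ 3) :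
    Gad (gr n l) (mv n m) (Fin.castLE (by omega : n ≤ 4 * n + 4)) (gr (4 * n + 4) (gadL n l m)) := by
  have hN : n ≤ 4 * n + 4 := by omega
  refine ⟨Fin.castLE_injective hN, gr_isG _ _, ?_, ?_, ?_, ?_, ?_⟩
  · have h1 : (univ : Finset (Fin 4)).image (fun i : Fin 4 => (⟨n + (i : ℕ), by have := i.2; omega⟩ : Fin (4 * n + 4))) ⊆
        univ.filter (fun s : Fin (4 * n + 4) => ∀ v, Fin.castLE hN v ≠ s) := by
      intro s hs
      obtain ⟨i, -, rfl⟩ := mem_image.1 hs
      refine mem_filter.2 ⟨mem_univ _, (gd_out hN).2 ?_⟩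
      show n ≤ n + i
      omega
    have h2 := card_le_card h1
    rw [card_image_of_injective, card_univ, Fintype.card_fin] at h2
    · convert h2
    · intro i j hij
      have h3 : n + (i : ℕ) = n + j := congrArg Fin.val hij
      exact Fin.ext (by omega)
  · intro x y
    rw [mem_gr, mem_gr]
    show Fin.castLE hN x ≠ Fin.castLE hN y ∧ adjB (gadL n l m) (x : ℕ) (y : ℕ) = true ↔ _
    rw [gd_old x.2 y.2]
    constructor
    · rintro ⟨h1, h2, h3⟩
      exact ⟨fun e => h1 (by rw [e]), h3⟩
    · rintro ⟨h1, h2⟩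
      exact ⟨fun e => h1 (Fin.castLE_injective hN e), fun e => h1 (Fin.ext e), h2⟩
  · intro s t hs ht hst
    rw [mem_gr]
    exact ⟨hst, gd_clq ((gd_out hN).1 hs) ((gd_out hN).1 ht) s.2 t.2 (fun e => hst (Fin.ext e))⟩
  · intro v
    have hv3 := hm v
    have h1 : univ.filter (fun s : Fin (4 * n + 4) => (∀ x, Fin.castLE hN x ≠ s) ∧
        ({Fin.castLE hN v, s} : Finset (Fin (4 * n + 4))) ∈ gr (4 * n + 4) (gadL n l m)) =
        (univ : Finset (Fin (mv n m v))).image
          (fun i : Fin (mv n m v) =>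
            (⟨n + 3 * (v : ℕ) + (i : ℕ), by have := v.2; have := i.2; omega⟩ : Fin (4 * n + 4))) := by
      ext s
      rw [mem_filter, mem_image]
      constructor
      · rintro ⟨-, h1, h2⟩
        rw [gd_out hN] at h1
        rw [mem_gr] at h2
        obtain ⟨i, hi, hs⟩ := (gd_bar (v := (v : ℕ)) v.2 h1).1 h2.2
        exact ⟨⟨i, hi⟩, mem_univ _, Fin.ext hs.symm⟩
      · rintro ⟨i, -, rfl⟩
        have h1 : n ≤ n + 3 * (v : ℕ) + i := by omega
        refine ⟨mem_univ _, (gd_out hN).2 h1, ?_⟩
        rw [mem_gr]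
        refine ⟨?_, ?_⟩
        · intro e
          have h2 : (v : ℕ) = n + 3 * v + i := congrArg Fin.val e
          have h3 := v.2
          omega
        · exact (gd_bar (v := (v : ℕ)) v.2 h1).2 ⟨i, i.2, rfl⟩
    have h2 := congrArg card h1
    rw [card_image_of_injective _ (fun i j hij => by
      have h3 : n + 3 * (v : ℕ) + i = n + 3 * v + j := congrArg Fin.val hij
      exact Fin.ext (by omega)), card_univ, Fintype.card_fin] at h2
    convert h2
  · intro v v' s hs h1 h2
    rw [gd_out hN] at hs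
    rw [mem_gr] at h1 h2
    obtain ⟨i, hi, e1⟩ := (gd_bar (v := (v : ℕ)) v.2 hs).1 h1.2
    obtain ⟨j, hj, e2⟩ := (gd_bar (v := (v' : ℕ)) v'.2 hs).1 h2.2
    have h3 : m.getD (v : ℕ) 0 ≤ 3 := hm v
    have h4 : m.getD (v' : ℕ) 0 ≤ 3 := hm v'
    exact Fin.ext (by omega)

theorem demB_iff {n : ℕ} (hn : 2 ≤ n) {l : List (ℕ × ℕ)} {m : List ℕ}
    (hm : ∀ v : Fin n, mv n m v ≤ 3) {H : Finset (Finset (Fin n))} (hS : Sys (gr n l) H) :
    demB n l m = true ↔ Dem (gr n l) H (mv n m) := by
  unfold demB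
  rw [goodB_iff (by omega)]
  exact gad_iff (gr_isG n l) hS (by rw [Fintype.card_fin]; exact hn) (gad_gadL l hm)

theorem Dem.mono {α : Type*} [Fintype α] [DecidableEq α] {E H : Finset (Finset α)}
    {m m' : α → ℕ} (h : Dem E H m) (hm : ∀ v, m v ≤ m' v) : Dem E H m' := by
  have h1 : ∀ C : Finset α, mass m C ≤ mass m' C := fun C => sum_le_sum fun v _ => hm v
  refine ⟨fun C hC => (h.1 C hC).trans (by exact_mod_cast h1 C), fun Q hQ h2 => ?_⟩
  exact (h.2 Q hQ h2).trans (h1 Q)

theorem mv_setB {n : ℕ} (m : List ℕ) (v : Fin n) (k : ℕ) :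
    mv n (setB n m v k) = Function.update (mv n m) v k := by
  funext u
  have h1 : mv n (setB n m v k) u = if (u : ℕ) = v then k else m.getD u 0 := by
    unfold mv setB
    rw [List.getD_eq_getElem?_getD, List.getElem?_map, List.getElem?_range u.2]
    rfl
  rw [h1, Function.update_apply]
  by_cases h : u = v
  · subst h
    rw [if_pos rfl, if_pos rfl]
  · rw [if_neg h, if_neg (fun e => h (Fin.ext e))]
    rfl

private theorem gd_len {n : ℕ} (m : List ℕ) (v k : ℕ) : (setB n m v k).length = n := by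
  unfold setB
  rw [List.length_map, List.length_range]

private theorem gd_sum {n : ℕ} {M : List ℕ} (h : M.length = n) :
    mass (mv n M) univ = M.sum := by
  subst h
  unfold mass mv
  rw [← Fin.sum_univ_getElem M]
  refine sum_congr rfl fun v _ => ?_
  rw [List.getD_eq_getElem]

/-- the invariant of the fold -/
private structure GInv (n : ℕ) (l : List (ℕ × ℕ)) (H : Finset (Finset (Fin n))) (k : ℕ)
    (M : List ℕ) : Prop where
  len : M.length = n
  le : ∀ v : Fin n, mv n M v ≤ 3
  three : ∀ v : Fin n, k ≤ (v : ℕ) → mv n M v = 3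
  dem : Dem (gr n l) H (mv n M)
  low : ∀ u : Fin n, (u : ℕ) < k → 0 < mv n M u →
    ¬ Dem (gr n l) H (Function.update (mv n M) u (mv n M u - 1))

private theorem gd_upd_le {n : ℕ} {M : List ℕ} (h : ∀ v : Fin n, mv n M v ≤ 3) (v : Fin n)
    {k : ℕ} (hk : k ≤ 3) (u : Fin n) : mv n (setB n M v k) u ≤ 3 := by
  rw [mv_setB, Function.update_apply]
  split_ifs
  · exact hk
  · exact h u

private theorem gd_step {n : ℕ} (hn : 2 ≤ n) {l : List (ℕ × ℕ)} {H : Finset (Finset (Fin n))}
    (hS : Sys (gr n l) H) {k : ℕ} (hk : k < n) {M : List ℕ} (hM : GInv n l H k M) :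
    GInv n l H (k + 1) (lowerB n l M k) := by
  obtain ⟨v, hv⟩ : ∃ v : Fin n, (v : ℕ) = k := ⟨⟨k, hk⟩, rfl⟩
  have hd : ∀ j ≤ 3, (demB n l (setB n M k j) = true ↔
      Dem (gr n l) H (Function.update (mv n M) v j)) := by
    intro j hj
    subst hv
    rw [demB_iff hn (gd_upd_le hM.le v hj) hS, mv_setB]
  have hv3 : mv n M v = 3 := hM.three v hv.ge
  obtain ⟨j, hj, hlen, hmv, hDem, hmin⟩ : ∃ j ≤ 3, (lowerB n l M k).length = n ∧
      mv n (lowerB n l M k) = Function.update (mv n M) v j ∧
      Dem (gr n l) H (Function.update (mv n M) v j) ∧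
      (0 < j → ¬ Dem (gr n l) H (Function.update (mv n M) v (j - 1))) := by
    unfold lowerB
    by_cases h0 : demB n l (setB n M k 0) = true
    · rw [if_pos h0]
      refine ⟨0, by omega, gd_len _ _ _, ?_, (hd 0 (by omega)).1 h0, fun h => absurd h (by omega)⟩
      rw [← hv, mv_setB]
    · rw [if_neg h0]
      by_cases h1 : demB n l (setB n M k 1) = true
      · rw [if_pos h1]
        refine ⟨1, by omega, gd_len _ _ _, ?_, (hd 1 (by omega)).1 h1, fun _ h => ?_⟩
        · rw [← hv, mv_setB]
        · exact h0 ((hd 0 (by omega)).2 h)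
      · rw [if_neg h1]
        by_cases h2 : demB n l (setB n M k 2) = true
        · rw [if_pos h2]
          refine ⟨2, by omega, gd_len _ _ _, ?_, (hd 2 (by omega)).1 h2, fun _ h => ?_⟩
          · rw [← hv, mv_setB]
          · exact h1 ((hd 1 (by omega)).2 h)
        · rw [if_neg h2]
          have he : Function.update (mv n M) v 3 = mv n M := by
            rw [← hv3]
            exact Function.update_eq_self v (mv n M)
          refine ⟨3, le_rfl, hM.len, he.symm, ?_, fun _ h => ?_⟩
          · rw [he]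
            exact hM.dem
          · exact h2 ((hd 2 (by omega)).2 h)
  refine ⟨hlen, ?_, ?_, ?_, ?_⟩
  · intro u
    rw [hmv, Function.update_apply]
    split_ifs
    · exact hj
    · exact hM.le u
  · intro u hu
    have hne : u ≠ v := by
      rintro rfl
      omega
    rw [hmv, Function.update_of_ne hne]
    exact hM.three u (by omega)
  · rw [hmv]
    exact hDem
  · intro u hu h0
    rw [hmv] at h0 ⊢
    by_cases hne : u = v
    · subst hne
      rw [Function.update_self] at h0 ⊢
      rw [Function.update_idem]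
      exact hmin h0
    · rw [Function.update_of_ne hne] at h0 ⊢
      have huk : (u : ℕ) < k := by
        have h1 : (u : ℕ) ≠ v := fun e => hne (Fin.ext e)
        omega
      intro hD
      refine hM.low u huk h0 (hD.mono fun x => ?_)
      by_cases hx : x = u
      · subst hx
        rw [Function.update_self, Function.update_self]
      · rw [Function.update_of_ne hx, Function.update_of_ne hx]
        rw [Function.update_apply]
        split_ifs with h
        · subst h
          omega
        · exact le_rfl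

private theorem gd_start {n : ℕ} {l : List (ℕ × ℕ)} {H : Finset (Finset (Fin n))}
    (hS : Sys (gr n l) H) : GInv n l H 0 (List.replicate n 3) := by
  have h3 : ∀ v : Fin n, mv n (List.replicate n 3) v = 3 := by
    intro v
    unfold mv
    rw [List.getD_eq_getElem?_getD, List.getElem?_replicate, if_pos v.2]
    rfl
  have hmass : ∀ C : Finset (Fin n), mass (mv n (List.replicate n 3)) C = 3 * C.card := by
    intro C
    unfold mass
    rw [sum_congr rfl (fun v _ => h3 v), sum_const, smul_eq_mul, mul_comm]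
  refine ⟨List.length_replicate, fun v => (h3 v).le, fun v _ => h3 v, ⟨?_, ?_⟩,
    fun u hu => absurd hu (by omega)⟩
  · intro C hC
    rw [hmass]
    have h1 := sTo_nonneg hS.indep C
    have h2 : (1 : ℤ) ≤ C.card := by exact_mod_cast hC.card_pos
    unfold gg
    push_cast
    linarith
  · intro Q hQ _
    rw [hmass]
    have := hQ.card_pos
    omega

theorem greedy_minDem {n : ℕ} (hn : 2 ≤ n) {l : List (ℕ × ℕ)} {H : Finset (Finset (Fin n))}
    (hS : Sys (gr n l) H) :
    MinDem (gr n l) H (mv n (greedyB n l)) ∧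
      mass (mv n (greedyB n l)) univ = (greedyB n l).sum := by
  have key : ∀ k ≤ n, GInv n l H k ((List.range k).foldl (lowerB n l) (List.replicate n 3)) := by
    intro k
    induction k with
    | zero => exact fun _ => gd_start hS
    | succ k ih =>
      intro hk
      rw [List.range_succ, List.foldl_append]
      exact gd_step hn hS (by omega) (ih (by omega))
  have h := key n le_rfl
  unfold greedyB
  exact ⟨⟨h.dem, fun v hv => h.low v v.2 hv⟩, gd_sum h.len⟩

end Pool.Agent.GRA
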