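import Pool.Agent.GRA.Stmt

/-!
# GRA/GE1: generic realizations; graphs with at most three vertices

PROOF of `exists_generic`: the transcendence degree of `ℝ` over `ℚ` is infinite (uncountable): take a transcendence
basis `s` of `ℝ` over `ℚ` (`exists_isTranscendenceBasis'` or similar); if it were finite or countable, `ℝ` would be
algebraic over the countable field `ℚ(s)`, hence countable (see `Mathlib/FieldTheory/IsAlgClosed/Classification`,
`cardinalMk_le_max_transcendence_basis` or `Algebra.IsAlgebraic.cardinalMk_le_max`); contradiction to
`Cardinal.mk_real` / `Cardinal.not_countable_real`. So there is an injection `Fin n × Fin 2 → s`, and subfamilies of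
algebraically independent families are algebraically independent (`AlgebraicIndependent.comp`).

PROOF of `generic_ne`: the points of a generic realization are pairwise different (two equal coordinates would
contradict injectivity of an algebraically independent family, `AlgebraicIndependent.injective`).

PROOF of `small_iff` (`n ≤ 3`). `G = ⊤`: any generic `p` (`exists_generic`); equivalence for `⊤` is congruence
(`u = v` is trivial). Conversely let `G ≠ ⊤`, so there are `u ≠ v` not adjacent, and let `p` be generic. We need
`q` equivalent to `p` but not congruent. If the third vertex `w` exists (`n = 3`): put `q = p` on all vertices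
except `u`, and `q u` = a point at distance `dist (p u) (p w)` from `p w` with `dist (q u) (p v) ≠ dist (p u) (p v)`: for
example the point reflection `2 p w - p u`, or if this has the same distance to `p v`, the point
`p w + (rotation by 90 degrees of (p u - p w))`. (Among the three points `p w + z`, `p w - z`, `p w + J z`,
`z = p u - p w ≠ 0`, not all have the same distance to `p v`: `|p w + z - p v|² - |p w - z - p v|² = 4 ⟨z, p w - p v⟩`, so if
the first two agree then `z ⊥ p w - p v`, so `p w - p v = c J z` with `c ≠ 0`, and
`|p w + J z - p v|² - |p w + z - p v|² = 2⟨J z, p w - p v⟩ - 0 = 2 c |z|² ≠ 0`.) If `n = 2` (no third vertex): take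
`q u = p u + (p u - p v)`, distance doubled and not zero. (`n ≤ 1` has `G = ⊤`.) The edges of `G` are among `uw`, `vw`.
-/

namespace Pool.Agent.GRA

open Stmt

theorem exists_generic (n : ℕ) : ∃ p : Fin n → Plane, Generic p := by
  obtain ⟨s, hs⟩ := exists_isTranscendenceBasis ℚ ℝ
  have hinf : Infinite s := by
    rw [← not_finite_iff_infinite]
    intro hfin
    have h1 : Countable (MvPolynomial s ℚ) := by
      rw [← Cardinal.mk_le_aleph0_iff]
      refine MvPolynomial.cardinalMk_le_max_lift.trans ?_
      simp
    have h2 : Countable (Algebra.adjoin ℚ (Set.range ((↑) : s → ℝ))) :=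
      hs.1.aevalEquiv.symm.toEquiv.countable_iff.2 h1
    have h3 : Algebra.IsAlgebraic (Algebra.adjoin ℚ (Set.range ((↑) : s → ℝ))) ℝ := hs.isAlgebraic
    have h4 := Algebra.IsAlgebraic.cardinalMk_le_max
      (Algebra.adjoin ℚ (Set.range ((↑) : s → ℝ))) ℝ
    have h5 : Cardinal.mk ℝ ≤ Cardinal.aleph0 := by
      refine h4.trans (max_le ?_ le_rfl)
      rw [Cardinal.mk_le_aleph0_iff]
      exact h2
    rw [Cardinal.mk_real] at h5
    exact absurd h5 (not_le.2 Cardinal.aleph0_lt_continuum)
  obtain ⟨g, hg⟩ := Countable.exists_injective_nat (Fin n × Fin 2)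
  let e : Fin n × Fin 2 → s := fun x => Infinite.natEmbedding s (g x)
  have he : Function.Injective e := (Infinite.natEmbedding s).injective.comp hg
  refine ⟨fun v => WithLp.toLp 2 (fun i => ((e (v, i) : s) : ℝ)), ?_⟩
  exact hs.1.comp e he

theorem generic_ne {n : ℕ} {p : Fin n → Plane} (hp : Generic p) {u v : Fin n} (h : u ≠ v) :
    p u ≠ p v := by
  intro h1
  have h2 := hp.injective (a₁ := (u, 0)) (a₂ := (v, 0)) (by simp only [h1])
  exact h (congrArg Prod.fst h2)

private theorem dist_sq' (x y : Plane) :
    dist x y ^ 2 = (x 0 - y 0) ^ 2 + (x 1 - y 1) ^ 2 := by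
  rw [EuclideanSpace.dist_eq, Real.sq_sqrt (Finset.sum_nonneg fun i _ => sq_nonneg _),
    Fin.sum_univ_two, Real.dist_eq, Real.dist_eq, sq_abs, sq_abs]

theorem small_iff {n : ℕ} (hn : n ≤ 3) (G : SimpleGraph (Fin n)) :
    GloballyRigid G ↔ G = ⊤ := by
  constructor
  · rintro ⟨p, hp, h⟩
    by_contra hG
    obtain ⟨u, v, huv, hadj⟩ : ∃ u v, u ≠ v ∧ ¬ G.Adj u v := by
      by_contra hcon
      push Not at hcon
      apply hG
      ext a b
      rw [SimpleGraph.top_adj]
      exact ⟨fun h1 => h1.ne, fun h1 => hcon a b h1⟩
    by_cases hw : ∃ w, w ≠ u ∧ w ≠ v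
    · obtain ⟨w, hwu, hwv⟩ := hw
      have hall : ∀ x : Fin n, x = u ∨ x = v ∨ x = w := by
        intro x
        have h1 : (u : ℕ) ≠ v := fun h2 => huv (Fin.ext h2)
        have h2 : (w : ℕ) ≠ u := fun h3 => hwu (Fin.ext h3)
        have h3 : (w : ℕ) ≠ v := fun h4 => hwv (Fin.ext h4)
        have h4 := u.2
        have h5 := v.2
        have h6 := w.2
        have h7 := x.2
        have h8 : (x : ℕ) = u ∨ (x : ℕ) = v ∨ (x : ℕ) = w := by omega
        rcases h8 with h8 | h8 | h8
        · exact Or.inl (Fin.ext h8)
        · exact Or.inr (Or.inl (Fin.ext h8))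
        · exact Or.inr (Or.inr (Fin.ext h8))
      have key : ∀ z : Plane, dist z (p w) = dist (p u) (p w) →
          dist z (p v) = dist (p u) (p v) := by
        intro z hz
        have heq : Equivalent G p (Function.update p u z) := by
          intro a b hab
          have hne := hab.ne
          by_cases ha : a = u
          · subst ha
            rcases hall b with hb | hb | hb
            · exact absurd hb.symm hne
            · exact absurd (hb ▸ hab) hadj
            · subst hb
              rw [Function.update_self, Function.update_of_ne hwu]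
              exact hz.symm
          · by_cases hb : b = u
            · subst hb
              rcases hall a with ha' | ha' | ha'
              · exact absurd ha' ha
              · exact absurd (ha' ▸ hab.symm) hadj
              · subst ha'
                rw [Function.update_self, Function.update_of_ne hwu, dist_comm, dist_comm (p a)]
                exact hz.symm
            · rw [Function.update_of_ne ha, Function.update_of_ne hb]
        have h1 := h _ heq u v
        rw [Function.update_self, Function.update_of_ne huv.symm] at h1
        exact h1.symm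
      have hpw : p u ≠ p w := generic_ne hp hwu.symm
      have hpv : p w ≠ p v := generic_ne hp hwv
      have k1 := key (WithLp.toLp 2 ![2 * p w 0 - p u 0, 2 * p w 1 - p u 1]) (by
        rw [← sq_eq_sq₀ dist_nonneg dist_nonneg, dist_sq', dist_sq']
        simp
        ring)
      have k2 := key (WithLp.toLp 2 ![p w 0 - (p u 1 - p w 1), p w 1 + (p u 0 - p w 0)]) (by
        rw [← sq_eq_sq₀ dist_nonneg dist_nonneg, dist_sq', dist_sq']
        simp
        ring)
      rw [← sq_eq_sq₀ dist_nonneg dist_nonneg, dist_sq', dist_sq'] at k1 k2
      simp only [Matrix.cons_val_zero, Matrix.cons_val_one] at k1 k2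
      have e1 : (p u 0 - p w 0) * (p w 0 - p v 0) + (p u 1 - p w 1) * (p w 1 - p v 1) = 0 := by
        linarith
      have e2 : -(p u 1 - p w 1) * (p w 0 - p v 0) + (p u 0 - p w 0) * (p w 1 - p v 1) = 0 := by
        linarith
      have ha : 0 < (p u 0 - p w 0) ^ 2 + (p u 1 - p w 1) ^ 2 := by
        rw [← dist_sq']
        exact pow_pos (dist_pos.2 hpw) 2
      have f1 : ((p u 0 - p w 0) ^ 2 + (p u 1 - p w 1) ^ 2) * (p w 0 - p v 0) = 0 := by
        linear_combination (p u 0 - p w 0) * e1 - (p u 1 - p w 1) * e2
      have f2 : ((p u 0 - p w 0) ^ 2 + (p u 1 - p w 1) ^ 2) * (p w 1 - p v 1) = 0 := by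
        linear_combination (p u 1 - p w 1) * e1 + (p u 0 - p w 0) * e2
      have g1 := (mul_eq_zero.1 f1).resolve_left ha.ne'
      have g2 := (mul_eq_zero.1 f2).resolve_left ha.ne'
      have hd : dist (p w) (p v) ^ 2 = 0 := by
        rw [dist_sq', g1, g2]
        norm_num
      exact hpv (dist_eq_zero.1 (pow_eq_zero_iff two_ne_zero |>.1 hd))
    · push Not at hw
      have hall : ∀ x : Fin n, x = u ∨ x = v := by
        intro x
        by_cases hx : x = u
        · exact Or.inl hx
        · exact Or.inr (hw x hx)
      have heq : Equivalent G p (Function.update p u (p u + (p u - p v))) := by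
        intro a b hab
        exfalso
        rcases hall a with ha | ha <;> rcases hall b with hb | hb
        · exact hab.ne (ha.trans hb.symm)
        · rw [ha, hb] at hab
          exact hadj hab
        · rw [ha, hb] at hab
          exact hadj hab.symm
        · exact hab.ne (ha.trans hb.symm)
      have h1 := h _ heq u v
      rw [Function.update_self, Function.update_of_ne huv.symm, dist_eq_norm, dist_eq_norm] at h1
      have h2 : p u + (p u - p v) - p v = (2 : ℝ) • (p u - p v) := by
        rw [two_smul]
        abel
      rw [h2, norm_smul, Real.norm_of_nonneg (by norm_num : (0 : ℝ) ≤ 2)] at h1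
      have h3 : ‖p u - p v‖ = 0 := by linarith
      rw [norm_eq_zero, sub_eq_zero] at h3
      exact generic_ne hp huv h3
  · rintro rfl
    obtain ⟨p, hp⟩ := exists_generic n
    refine ⟨p, hp, fun q hq u v => ?_⟩
    by_cases huv : u = v
    · subst huv
      rw [dist_self, dist_self]
    · exact hq u v huv

end Pool.Agent.GRA
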