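import Pool.Agent.GRA.Stmt
import Pool.Agent.GRA.GE1

/-!
# GRA/GE2: the combinatorial description, given the theorems of Laman and of Jackson and Jordan

PROOF of `rigid_mono`: the same `p` and `ε`. `rigid_iff` (`2 ≤ n`): if `G` is rigid let `H ≤ G` be a rigid graph with
the smallest number of edges (finiteness); it is minimally rigid (`H.deleteEdges {e}` has fewer edges), so
`IsLaman H`. Conversely `IsLaman H` gives `MinimallyRigid H`, so `Rigid H`, `Rigid G`.
`geo_iff`: `n ≤ 3`: `small_iff` and `ThreeConnected` needs `4 ≤ n`. `n ≥ 4`: the theorem of Jackson and Jordan and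
`rigid_iff`.
-/

namespace Pool.Agent.GRA

open Stmt

theorem rigid_mono {n : ℕ} {G H : SimpleGraph (Fin n)} (h : H ≤ G) (hH : Rigid H) :
    Rigid G := by
  obtain ⟨p, hp, ε, hε, h1⟩ := hH
  exact ⟨p, hp, ε, hε, fun q hq hE => h1 q hq fun u v huv => hE u v (h huv)⟩

theorem rigid_iff (hL : LamanTheorem) {n : ℕ} (hn : 2 ≤ n) (G : SimpleGraph (Fin n)) :
    Rigid G ↔ LamanRigid G := by
  constructor
  · intro hG
    obtain ⟨H, ⟨hH1, hH2⟩, hmin⟩ := WellFounded.has_min
      (measure (fun H : SimpleGraph (Fin n) => H.edgeSet.ncard)).wf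
      {H | H ≤ G ∧ Rigid H} ⟨G, le_refl _, hG⟩
    refine ⟨H, hH1, (hL n H hn).1 ⟨hH2, fun e he hr => ?_⟩⟩
    refine hmin (H.deleteEdges {e}) ⟨(SimpleGraph.deleteEdges_le _).trans hH1, hr⟩ ?_
    show (H.deleteEdges {e}).edgeSet.ncard < H.edgeSet.ncard
    rw [SimpleGraph.edgeSet_deleteEdges]
    exact Set.ncard_sdiff_singleton_lt_of_mem he (Set.toFinite _)
  · rintro ⟨H, hH, hLam⟩
    exact rigid_mono hH ((hL n H hn).2 hLam).1

theorem geo_iff (hL : LamanTheorem) (hJ : JacksonJordanTheorem) {n : ℕ}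
    (G : SimpleGraph (Fin n)) : GloballyRigid G ↔ CombGloballyRigid G := by
  unfold CombGloballyRigid
  rcases le_or_gt n 3 with hn | hn
  · rw [small_iff hn]
    constructor
    · intro h
      exact Or.inl ⟨hn, h⟩
    · rintro (⟨-, h⟩ | ⟨⟨h, -⟩, -⟩)
      · exact h
      · omega
  · rw [hJ n G hn]
    constructor
    · rintro ⟨h1, h2⟩
      exact Or.inr ⟨h1, fun e he => (rigid_iff hL (by omega) _).1 (h2 e he)⟩
    · rintro (⟨h, -⟩ | ⟨h1, h2⟩)
      · omega
      · exact ⟨h1, fun e he => (rigid_iff hL (by omega) _).2 (h2 e he)⟩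

end Pool.Agent.GRA
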