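import Pool.Agent.GRA.L1

/-!
# GRA/L2: 3-connected and redundantly rigid = 3-connected and M-connected

PROOF of `MC.redund`: `MC.cr_erase`, `CR.lRigid`.

PROOF of `redund_MC`. `E` is nonempty (`Conn E 2`, `n ≥ 4`; e.g. a vertex `x` without neighbours would be
closed for `S = ∅`), so `CR E` (`LRigid.cr`, `CR.mono`), and `CR (E.erase e)` for all `e ∈ E`. Suppose `¬ MC E`;
`exists_bad` gives a cover `X` by proper subsets of weight `≤ 2n - 3` with pairwise intersections ≤ 1; by
`CR E` the weight is exactly `2n - 3`.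
(1) `|A| ≥ 3` for `A ∈ X`: if `|A| = 2`, then `X.erase A` covers `E.erase A` (`A` contains no other pair) with weight
`2n - 4`, contradicting `CR (E.erase A)` (if `A ∉ E` then `E.erase A = E`).
(2) For `A ∈ X` let `A' = {v ∈ A : v` is in another member of `X}`. `|A'| ≥ 3`: suppose `|A'| ≤ 2`. `A \ A'` is nonempty,
and closed for `(E, A')`: an edge `{a,b}` with `a ∈ A \ A'` is inside some `B ∈ X`, `a ∈ B` so `B = A`, `b ∈ A`. There is
`y ∉ A` (`A ≠ univ`). This contradicts `Conn E 2`.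
(3) `d v = |{A ∈ X : v ∈ A}| ≥ 1` for all `v` (`v` has an edge: otherwise `{v}` is closed for `∅`).
`Σ_v d v = Σ_A |A|` and `Σ_A (2|A| - 3) = 2n - 3` give `Σ_v (2 d v - 2) = 3t - 3`, `t = |X|`. On the other hand
`2 d v - 2 ≥ d v` if `d v ≥ 2` and `= 0` if `d v = 1`, so `Σ_v (2 d v - 2) ≥ Σ_{v : d v ≥ 2} d v = Σ_A |A'| ≥ 3t`.
Contradiction.
-/

namespace Pool.Agent.GRA

open Finset

variable {α : Type*} [Fintype α] [DecidableEq α]

/-- Every single edge can be removed without losing rigidity. -/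
def Redund (E : Finset (Finset α)) : Prop := ∀ e ∈ E, LRigid (E.erase e)

theorem MC.redund {E : Finset (Finset α)} (hE : IsG E) (hn : 3 ≤ Fintype.card α)
    (h : MC E) : Redund E := fun e he =>
  CR.lRigid (fun f hf => hE f (mem_of_mem_erase hf)) (by omega) (h.cr_erase hn (hE e he))

/-- the number of members of `X` containing `v` -/
private def l2d (X : Finset (Finset α)) (v : α) : ℕ := (X.filter (fun A => v ∈ A)).card

omit [Fintype α] in
private theorem l2_eq {X : Finset (Finset α)} {v : α} (h : ¬ 2 ≤ l2d X v) {A B : Finset α}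
    (hA : A ∈ X) (hB : B ∈ X) (hvA : v ∈ A) (hvB : v ∈ B) : B = A := by
  by_contra hne
  apply h
  exact one_lt_card.2 ⟨A, mem_filter.2 ⟨hA, hvA⟩, B, mem_filter.2 ⟨hB, hvB⟩, fun e => hne e.symm⟩

private theorem l2_sum (X : Finset (Finset α)) (P : α → Prop) [DecidablePred P] :
    ∑ A ∈ X, ((A.filter P).card : ℤ) = ∑ v : α, if P v then (l2d X v : ℤ) else 0 := by
  have h1 : ∀ A ∈ X, ((A.filter P).card : ℤ) = ∑ v : α, if v ∈ A ∧ P v then (1 : ℤ) else 0 := by
    intro A _
    rw [card_eq_sum_ones, Nat.cast_sum]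
    rw [← sum_filter]
    apply sum_congr
    · ext v
      simp
    · intro v _
      simp
  rw [sum_congr rfl h1, sum_comm]
  apply sum_congr rfl
  intro v _
  by_cases hv : P v
  · rw [if_pos hv]
    unfold l2d
    rw [card_eq_sum_ones, Nat.cast_sum, sum_filter]
    apply sum_congr rfl
    intro A _
    simp [hv]
  · rw [if_neg hv]
    apply sum_eq_zero
    intro A _
    simp [hv]

theorem redund_MC {E : Finset (Finset α)} (hE : IsG E) (hn : 4 ≤ Fintype.card α)
    (h3 : Conn E 2) (h : Redund E) : MC E := by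
  classical
  have hother : ∀ v : α, ∃ y, y ≠ v := by
    intro v
    have : 1 < Fintype.card α := by omega
    obtain ⟨y, hy⟩ := Fintype.exists_ne_of_one_lt_card this v
    exact ⟨y, hy⟩
  have hedge : ∀ v : α, ∃ y, ({v, y} : Finset α) ∈ E := by
    intro v
    by_contra hcon
    push Not at hcon
    obtain ⟨y, hy⟩ := hother v
    have hcl : Closed E ∅ {v} := by
      refine ⟨disjoint_empty_right _, ?_⟩
      intro x hx z _ hxz
      rw [mem_singleton.1 hx] at hxz
      exact absurd hxz (hcon z)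
    have := h3 ∅ (by simp) v y (by simp) (by simp) {v} hcl (mem_singleton_self v)
    exact hy (mem_singleton.1 this)
  have hEe : ∀ e, IsG (E.erase e) := fun e f hf => hE f (mem_of_mem_erase hf)
  have hcre : ∀ e ∈ E, CR (E.erase e) := fun e he => LRigid.cr (hEe e) (h e he)
  have hcr : CR E := by
    have : Nonempty α := Fintype.card_pos_iff.1 (by omega)
    obtain ⟨v⟩ := this
    obtain ⟨y, hy⟩ := hedge v
    exact (hcre _ hy).mono (erase_subset _ _)
  by_contra hMC
  obtain ⟨X, ⟨hX, hcov, hbad⟩, -, -⟩ := exists_bad hMC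
  have hge := hcr X (fun A hA => (hX A hA).1) hcov
  have hw : ∑ A ∈ X, w A = 2 * (Fintype.card α : ℤ) - 3 := le_antisymm hbad hge
  -- (1)
  have hthree : ∀ A ∈ X, 3 ≤ A.card := by
    intro A hA
    by_contra hlt
    have hA2 : A.card = 2 := by
      have := (hX A hA).1
      omega
    have hcrA : CR (E.erase A) := by
      by_cases hAE : A ∈ E
      · exact hcre A hAE
      · rw [erase_eq_of_notMem hAE]
        exact hcr
    have h1 := hcrA (X.erase A) (fun B hB => (hX B (mem_of_mem_erase hB)).1) (by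
      intro B hB
      obtain ⟨hBA, hBE⟩ := mem_erase.1 hB
      obtain ⟨C, hC, hBC⟩ := hcov B hBE
      refine ⟨C, mem_erase.2 ⟨?_, hC⟩, hBC⟩
      intro hCA
      rw [hCA] at hBC
      exact hBA (eq_of_subset_of_card_le hBC (by rw [hA2, hE B hBE])))
    have h2 : w A + ∑ B ∈ X.erase A, w B = ∑ B ∈ X, w B := add_sum_erase _ _ hA
    have h4 := w_pos (hX A hA).1
    linarith
  -- (2)
  have hthree' : ∀ A ∈ X, 3 ≤ (A.filter (fun v => 2 ≤ l2d X v)).card := by
    intro A hA
    by_contra hlt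
    set A' := A.filter (fun v => 2 ≤ l2d X v) with hA'
    have hsub : A' ⊆ A := filter_subset _ _
    have hcl : Closed E A' (A \ A') := by
      refine ⟨sdiff_disjoint, ?_⟩
      intro x hx y hy hxy
      obtain ⟨hxA, hxA'⟩ := mem_sdiff.1 hx
      have hdx : ¬ 2 ≤ l2d X x := fun h => hxA' (mem_filter.2 ⟨hxA, h⟩)
      obtain ⟨B, hB, hBs⟩ := hcov _ hxy
      have hxB : x ∈ B := hBs (mem_insert_self _ _)
      have hyB : y ∈ B := hBs (mem_insert_of_mem (mem_singleton_self _))
      have hBA : B = A := l2_eq hdx hA hB hxA hxB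
      rw [hBA] at hyB
      exact mem_sdiff.2 ⟨hyB, hy⟩
    obtain ⟨x, hx⟩ : (A \ A').Nonempty := by
      rw [← card_pos, card_sdiff_of_subset hsub]
      have := hthree A hA
      omega
    obtain ⟨y, hy⟩ : ∃ y, y ∉ A := by
      by_contra hcon
      push Not at hcon
      exact (hX A hA).2 (eq_univ_iff_forall.2 hcon)
    have := h3 A' (by omega) x y (mem_sdiff.1 hx).2 (fun h => hy (hsub h)) _ hcl hx
    exact hy (mem_sdiff.1 this).1
  -- (3)
  have hd : ∀ v : α, 1 ≤ l2d X v := by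
    intro v
    obtain ⟨y, hy⟩ := hedge v
    obtain ⟨B, hB, hBs⟩ := hcov _ hy
    exact card_pos.2 ⟨B, mem_filter.2 ⟨hB, hBs (mem_insert_self _ _)⟩⟩
  have hs1 : ∑ A ∈ X, (A.card : ℤ) = ∑ v : α, (l2d X v : ℤ) := by
    have h1 := l2_sum X (fun _ => True)
    simpa using h1
  have hs2 := l2_sum X (fun v => 2 ≤ l2d X v)
  have hs3 : (3 : ℤ) * X.card ≤ ∑ A ∈ X, ((A.filter (fun v => 2 ≤ l2d X v)).card : ℤ) := by
    have h1 : ∑ A ∈ X, (3 : ℤ) ≤ ∑ A ∈ X, ((A.filter (fun v => 2 ≤ l2d X v)).card : ℤ) :=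
      sum_le_sum fun A hA => by exact_mod_cast hthree' A hA
    rw [sum_const, nsmul_eq_mul] at h1
    linarith
  have hs4 : ∑ A ∈ X, w A = 2 * ∑ A ∈ X, (A.card : ℤ) - 3 * X.card := by
    unfold w
    rw [sum_sub_distrib, ← mul_sum, sum_const, nsmul_eq_mul]
    ring
  have hs5 : ∑ v : α, (if 2 ≤ l2d X v then (l2d X v : ℤ) else 0) ≤
      ∑ v : α, (2 * (l2d X v : ℤ) - 2) := by
    apply sum_le_sum
    intro v _
    have := hd v
    split_ifs with hv
    · have : (2 : ℤ) ≤ l2d X v := by exact_mod_cast hv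
      linarith
    · have : (1 : ℤ) ≤ l2d X v := by exact_mod_cast this
      linarith
  have hs6 : ∑ v : α, (2 * (l2d X v : ℤ) - 2) =
      2 * ∑ v : α, (l2d X v : ℤ) - 2 * (Fintype.card α : ℤ) := by
    rw [sum_sub_distrib, ← mul_sum, sum_const, nsmul_eq_mul, card_univ]
    ring
  linarith

end Pool.Agent.GRA
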