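import Pool.Agent.GRA.RK
import Pool.Agent.GRA.CN
import Pool.Agent.GRA.L2

/-!
# GRA/GT: the test for 3-connected and redundantly rigid graphs is correct

PROOF of `goodB_iff`. `conn3B_iff`, `gr_edgesL`: the first part is `Conn (gr n l) 2`. The second part: for all
`e ∈ edgesL n l`, `CR (gr n ((edgesL n l).erase e))` (`rigidB_iff`; `(edgesL n l).erase e` is `EL n`), and
`gr n ((edgesL n l).erase e) = (gr n l).erase (pr n e)` (`gr_erase`, `gr_edgesL`). Every `e' ∈ gr n l` is
`pr n e` for some `e ∈ edgesL n l` (`exists_pr`, `pr_mem_gr`, `mem_edgesL`). So the second part is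
`∀ e' ∈ gr n l, CR ((gr n l).erase e')`, which is equivalent to `Redund (gr n l)` (`LRigid.cr`, `CR.lRigid`).
`redund_MC`, `MC.redund`.
-/

namespace Pool.Agent.GRA

open Finset

theorem goodB_iff {n : ℕ} {l : List (ℕ × ℕ)} (hn : 4 ≤ n) :
    goodB n l = true ↔ MC (gr n l) ∧ Conn (gr n l) 2 := by
  have hcard : Fintype.card (Fin n) = n := Fintype.card_fin n
  have hG : IsG (gr n l) := gr_isG n l
  have hEr : ∀ e : Finset (Fin n), IsG ((gr n l).erase e) :=
    fun e f hf => hG f (mem_of_mem_erase hf)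
  unfold goodB
  rw [Bool.and_eq_true, conn3B_iff, gr_edgesL, List.all_eq_true]
  have key : (∀ e ∈ edgesL n l, rigidB n ((edgesL n l).erase e) = true) ↔
      Redund (gr n l) := by
    constructor
    · intro h e he
      obtain ⟨p, hp, rfl⟩ := exists_pr (hG e he)
      have hpe : p ∈ edgesL n l := mem_edgesL.2 ⟨hp, (pr_mem_gr hp).1 he⟩
      have h1 := h p hpe
      rw [rigidB_iff (by omega) ⟨(edgesL_EL n l).1.erase p,
        fun q hq => (edgesL_EL n l).2 q (List.mem_of_mem_erase hq)⟩,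
        gr_erase (edgesL_EL n l) hpe, gr_edgesL] at h1
      exact h1.lRigid (hEr _) (by rw [hcard]; omega)
    · intro h p hpe
      have hp := (mem_edgesL.1 hpe).1
      rw [rigidB_iff (by omega) ⟨(edgesL_EL n l).1.erase p,
        fun q hq => (edgesL_EL n l).2 q (List.mem_of_mem_erase hq)⟩,
        gr_erase (edgesL_EL n l) hpe, gr_edgesL]
      exact (h _ ((pr_mem_gr hp).2 (mem_edgesL.1 hpe).2)).cr (hEr _)
  rw [key]
  constructor
  · rintro ⟨h1, h2⟩
    exact ⟨redund_MC hG (by rw [hcard]; exact hn) h1 h2, h1⟩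
  · rintro ⟨h1, h2⟩
    exact ⟨h2, h1.redund hG (by rw [hcard]; omega)⟩

end Pool.Agent.GRA
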