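import Pool.Agent.GRA.S2

/-!
# GRA/L1: Laman sparse sets; cover-rigid = contains a Laman basis

PROOF of `sparse_indep`: `kk I X = w X - |{e ∈ I : e ⊆ X}|` for a family of pairs (`w e = 1`), and
`Sparse` says this is ≥ 0 for `|X| ≥ 2`.

PROOF of `maxSparse_cover`. `I ⊆ E` maximal sparse. Let `M` be the family of the maximal rigid sets of `I`
(`Rig I A`, maximal under inclusion, `exists_max_rig`). Two different members share at most one vertex
(`Rig.union`). Every `e = {x,y} ∈ E` is inside a rigid set: if `e ∈ I`, `e` is rigid (`Indep.rig`);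
otherwise `insert e I` is not sparse: some `X` with `|X| ≥ 2` has
`|{f ∈ insert e I : f ⊆ X}| + 3 > 2|X|`, so `e ⊆ X` and `|{f ∈ I : f ⊆ X}| + 1 + 3 > 2|X|`, i.e.
`kk I X ≤ 0`, so `X` is rigid. So `M` covers `E`. `Σ_{A ∈ M} w A = Σ_{A ∈ M} |{e ∈ I : e ⊆ A}| = |I|` since every
`e ∈ I` is inside exactly one `A ∈ M` (`|e| = 2`).

PROOF of `LRigid.cr`: let `X` be a cover of `E` by sets with ≥ 2 elements. Every `e ∈ I` is inside some
`A ∈ X` and `|{e ∈ I : e ⊆ A}| ≤ w A`; so `2n - 3 = |I| ≤ Σ w`.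
PROOF of `CR.lRigid`: choose a maximal sparse `I ⊆ E` (`∅` is sparse). `maxSparse_cover` and `CR E` give
`2n - 3 ≤ |I|`; `Sparse I` with `X = univ` gives `|I| + 3 ≤ 2n`.

PROOF of `rank_eq`: `I ⊆ E` maximal sparse, `Sys E H`. `Σ_{X ∈ H} w X = w univ - dof H`.
(≥) each `e ∈ I` is inside some `X ∈ H` (`cov`) and `|{e ∈ I : e ⊆ X}| ≤ w X`: `|I| ≤ Σ_H w`.
(≤) `M` from `maxSparse_cover`. For `X ∈ H`: `Σ_{A ∈ M} wp (X ∩ A) ≥ w X`: if some `A ⊇ X` clear; otherwise the
traces `A ∩ X` with ≥ 2 elements are proper subsets of `X` covering the edges of `E` inside `X`, and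
`MCon E X` gives `≥ 2|X| - 2`. For `A ∈ M`: `Σ_{X ∈ H} wp (X ∩ A) ≤ w A` (`Indep.sum_wp_le`, `|A| ≥ 2`). So
`Σ_H w ≤ Σ_M w = |I|`.
-/

namespace Pool.Agent.GRA

open Finset

variable {α : Type*} [Fintype α] [DecidableEq α]

/-- Laman sparse sets of pairs. -/
def Sparse (I : Finset (Finset α)) : Prop :=
  ∀ X : Finset α, 2 ≤ X.card → (I.filter (fun e => e ⊆ X)).card + 3 ≤ 2 * X.card

/-- The graph contains a Laman graph on the whole vertex set. -/
def LRigid (E : Finset (Finset α)) : Prop :=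
  ∃ I ⊆ E, Sparse I ∧ I.card + 3 = 2 * Fintype.card α

/-- Maximal sparse subsets. -/
def MaxSparse (E I : Finset (Finset α)) : Prop :=
  I ⊆ E ∧ Sparse I ∧ ∀ e ∈ E, e ∉ I → ¬ Sparse (insert e I)

private theorem l1_sum_image {s : Finset (Finset α)} {f : Finset α → Finset α}
    (h : ∀ A ∈ s, 0 ≤ w (f A)) : ∑ T ∈ s.image f, w T ≤ ∑ A ∈ s, w (f A) := by
  classical
  induction s using Finset.induction_on with
  | empty => simp
  | insert a s ha ih =>
    have ih' := ih (fun A hA => h A (mem_insert_of_mem hA))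
    have h0 := h a (mem_insert_self _ _)
    rw [image_insert, sum_insert ha]
    by_cases hm : f a ∈ s.image f
    · rw [insert_eq_of_mem hm]
      linarith
    · rw [sum_insert hm]
      linarith

private theorem w_two {e : Finset α} (h : e.card = 2) : w e = 1 := by
  unfold w
  rw [h]
  norm_num

private theorem sIn_card {I : Finset (Finset α)} (hI : IsG I) (X : Finset α) :
    sIn I X = ((I.filter (fun e => e ⊆ X)).card : ℤ) := by
  unfold sIn
  rw [sum_congr rfl (fun e he => w_two (hI e (mem_filter.1 he).1))]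
  simp

theorem sparse_indep {I : Finset (Finset α)} (hI : IsG I) (h : Sparse I) : Indep I := by
  refine ⟨fun X hX => (hI X hX).ge, fun X hX => ?_⟩
  have h1 := h X hX
  unfold kk
  rw [sIn_card hI]
  unfold w
  have h2 : ((I.filter (fun e => e ⊆ X)).card : ℤ) + 3 ≤ 2 * (X.card : ℤ) := by exact_mod_cast h1
  linarith

private theorem isG_mono {I E : Finset (Finset α)} (hE : IsG E) (h : I ⊆ E) : IsG I :=
  fun e he => hE e (h he)

/-- A sparse set is at most as large as any cover. -/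
private theorem card_le_cover {I X : Finset (Finset α)} (h : Sparse I)
    (hX : ∀ A ∈ X, 2 ≤ A.card) (hc : ∀ e ∈ I, ∃ A ∈ X, e ⊆ A) : (I.card : ℤ) ≤ ∑ A ∈ X, w A := by
  classical
  have h1 : I ⊆ X.biUnion (fun A => I.filter (fun e => e ⊆ A)) := by
    intro e he
    obtain ⟨A, hA, heA⟩ := hc e he
    exact mem_biUnion.2 ⟨A, hA, mem_filter.2 ⟨he, heA⟩⟩
  have h2 := (card_le_card h1).trans card_biUnion_le
  have h3 : (I.card : ℤ) ≤ ∑ A ∈ X, ((I.filter (fun e => e ⊆ A)).card : ℤ) := by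
    exact_mod_cast h2
  refine h3.trans (sum_le_sum fun A hA => ?_)
  have h4 := h A (hX A hA)
  have h5 : ((I.filter (fun e => e ⊆ A)).card : ℤ) + 3 ≤ 2 * (A.card : ℤ) := by exact_mod_cast h4
  unfold w
  linarith

theorem exists_maxSparse (E : Finset (Finset α)) : ∃ I, MaxSparse E I := by
  classical
  let S : Finset (Finset (Finset α)) := E.powerset.filter (fun I => Sparse I)
  have hS : S.Nonempty := by
    refine ⟨∅, mem_filter.2 ⟨mem_powerset.2 (empty_subset _), ?_⟩⟩
    intro X hX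
    rw [filter_empty, card_empty]
    omega
  obtain ⟨I, hI, hmax⟩ := exists_max_image S card hS
  obtain ⟨hI1, hI2⟩ := mem_filter.1 hI
  refine ⟨I, mem_powerset.1 hI1, hI2, ?_⟩
  intro e he heI hsp
  have h1 := hmax (insert e I) (mem_filter.2 ⟨mem_powerset.2 (insert_subset he (mem_powerset.1 hI1)), hsp⟩)
  rw [card_insert_of_notMem heI] at h1
  omega

theorem maxSparse_cover {E I : Finset (Finset α)} (hE : IsG E) (h : MaxSparse E I) :
    ∃ M : Finset (Finset α), (∀ A ∈ M, 2 ≤ A.card) ∧ (∀ e ∈ E, ∃ A ∈ M, e ⊆ A) ∧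
      ∑ A ∈ M, w A = (I.card : ℤ) := by
  classical
  obtain ⟨hIE, hsp, hmax⟩ := h
  have hI : IsG I := isG_mono hE hIE
  have hInd := sparse_indep hI hsp
  refine ⟨univ.filter (fun A => Rig I A ∧ ∀ Z, Rig I Z → A ⊆ Z → Z = A), ?_, ?_, ?_⟩
  · intro A hA
    exact (mem_filter.1 hA).2.1.1
  · intro e he
    obtain ⟨X, hX, heX⟩ : ∃ X, Rig I X ∧ e ⊆ X := by
      by_cases heI : e ∈ I
      · exact ⟨e, hInd.rig heI, subset_rfl⟩
      · have h1 := hmax e he heI
        unfold Sparse at h1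
        push Not at h1
        obtain ⟨X, hX2, hX3⟩ := h1
        have h2 := hsp X hX2
        rw [filter_insert] at hX3
        split_ifs at hX3 with h3
        · rw [card_insert_of_notMem (fun hm => heI (mem_filter.1 hm).1)] at hX3
          refine ⟨X, ⟨hX2, ?_⟩, h3⟩
          unfold kk
          rw [sIn_card hI]
          unfold w
          have h4 : (I.filter (fun e => e ⊆ X)).card + 3 = 2 * X.card := by omega
          have h5 : ((I.filter (fun e => e ⊆ X)).card : ℤ) + 3 = 2 * (X.card : ℤ) := by exact_mod_cast h4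
          linarith
        · omega
    obtain ⟨Y, hY, hXY, hYm⟩ := exists_max_rig hX
    exact ⟨Y, mem_filter.2 ⟨mem_univ _, hY, hYm⟩, heX.trans hXY⟩
  · set M := univ.filter (fun A => Rig I A ∧ ∀ Z, Rig I Z → A ⊆ Z → Z = A) with hM
    have h1 : ∑ A ∈ M, w A = ∑ A ∈ M, ∑ e ∈ I, if e ⊆ A then (1 : ℤ) else 0 := by
      refine sum_congr rfl fun A hA => ?_
      have h2 := (mem_filter.1 hA).2.1.2
      unfold kk at h2
      rw [sIn_card hI] at h2
      rw [sum_boole]
      linarith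
    rw [h1, sum_comm]
    have h2 : ∀ e ∈ I, ∑ A ∈ M, (if e ⊆ A then (1 : ℤ) else 0) = 1 := by
      intro e he
      obtain ⟨Y, hY, hXY, hYm⟩ := exists_max_rig (hInd.rig he)
      have hYM : Y ∈ M := mem_filter.2 ⟨mem_univ _, hY, hYm⟩
      rw [sum_eq_single_of_mem Y hYM]
      · rw [if_pos hXY]
      · intro B hB hBY
        rw [if_neg]
        intro heB
        obtain ⟨_, hBr, hBm⟩ := mem_filter.1 hB
        have h3 : 2 ≤ (B ∩ Y).card := by
          rw [← hI e he]
          exact card_le_card (subset_inter heB hXY)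
        have h4 := hBr.union hInd hY h3
        have h5 := hBm _ h4 subset_union_left
        have h6 := hYm _ h4 subset_union_right
        exact hBY (h5.symm.trans h6)
    rw [sum_congr rfl h2]
    simp

theorem LRigid.cr {E : Finset (Finset α)} (hE : IsG E) (h : LRigid E) : CR E := by
  obtain ⟨I, hIE, hsp, hcard⟩ := h
  intro X hX hc
  have h1 := card_le_cover hsp hX (fun e he => hc e (hIE he))
  have h2 : (I.card : ℤ) + 3 = 2 * (Fintype.card α : ℤ) := by exact_mod_cast hcard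
  linarith

theorem CR.lRigid {E : Finset (Finset α)} (hE : IsG E) (hn : 2 ≤ Fintype.card α)
    (h : CR E) : LRigid E := by
  obtain ⟨I, hI⟩ := exists_maxSparse E
  obtain ⟨M, hM2, hMc, hMw⟩ := maxSparse_cover hE hI
  have h1 := h M hM2 hMc
  rw [hMw] at h1
  have h2 := hI.2.1 univ (by rw [card_univ]; exact hn)
  rw [filter_true_of_mem (fun e _ => subset_univ e), card_univ] at h2
  refine ⟨I, hI.1, hI.2.1, ?_⟩
  have h3 : (2 * Fintype.card α : ℕ) ≤ I.card + 3 := by
    have : (2 * (Fintype.card α : ℤ)) ≤ (I.card : ℤ) + 3 := by linarith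
    exact_mod_cast this
  omega

theorem rank_eq {E H I : Finset (Finset α)} (hE : IsG E) (hS : Sys E H)
    (h : MaxSparse E I) : dof H = 2 * (Fintype.card α : ℤ) - 3 - I.card := by
  classical
  have h0 : dof H = 2 * (Fintype.card α : ℤ) - 3 - ∑ X ∈ H, w X := by
    unfold dof kk
    rw [sIn_univ]
    unfold w
    rw [card_univ]
  have hge : (I.card : ℤ) ≤ ∑ X ∈ H, w X :=
    card_le_cover h.2.1 hS.indep.two (fun e he => hS.cov e (h.1 he))
  obtain ⟨M, hM2, hMc, hMw⟩ := maxSparse_cover hE h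
  have h1 : ∀ X ∈ H, w X ≤ ∑ A ∈ M, wp (X ∩ A) := by
    intro X hX
    by_cases hA : ∃ A ∈ M, X ⊆ A
    · obtain ⟨A, hAM, hXA⟩ := hA
      have h2 : wp (X ∩ A) = w X := by
        rw [inter_eq_left.2 hXA, wp_of_two (hS.indep.two X hX)]
      rw [← h2]
      exact single_le_sum (f := fun A => wp (X ∩ A)) (fun A _ => wp_nonneg _) hAM
    · have h2 := hS.mc X hX ((M.filter (fun A => 2 ≤ (X ∩ A).card)).image (fun A => X ∩ A)) ?_ ?_
      · have h3 : ∑ T ∈ (M.filter (fun A => 2 ≤ (X ∩ A).card)).image (fun A => X ∩ A), w T ≤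
            ∑ A ∈ M.filter (fun A => 2 ≤ (X ∩ A).card), w (X ∩ A) := by
          refine l1_sum_image (f := fun A => X ∩ A) fun A hA => ?_
          have := w_pos (mem_filter.1 hA).2
          linarith
        have h4 : ∑ A ∈ M.filter (fun A => 2 ≤ (X ∩ A).card), w (X ∩ A) ≤ ∑ A ∈ M, wp (X ∩ A) := by
          refine (sum_le_sum fun A _ => le_wp (X ∩ A)).trans ?_
          exact sum_le_sum_of_subset_of_nonneg (filter_subset _ _) (fun A _ _ => wp_nonneg _)
        have h5 : w X = 2 * (X.card : ℤ) - 3 := rfl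
        linarith
      · intro T hT
        obtain ⟨A, hA', rfl⟩ := mem_image.1 hT
        obtain ⟨hAM, hA2⟩ := mem_filter.1 hA'
        refine ⟨hA2, inter_subset_left, fun he => hA ⟨A, hAM, ?_⟩⟩
        exact inter_eq_left.1 he
      · intro B hB hBX
        obtain ⟨A, hAM, hBA⟩ := hMc B hB
        have hsub : B ⊆ X ∩ A := subset_inter hBX hBA
        have h2 : 2 ≤ (X ∩ A).card := by
          rw [← hE B hB]
          exact card_le_card hsub
        exact ⟨X ∩ A, mem_image.2 ⟨A, mem_filter.2 ⟨hAM, h2⟩, rfl⟩, hsub⟩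
  have h2 : ∑ X ∈ H, w X ≤ I.card := by
    calc ∑ X ∈ H, w X ≤ ∑ X ∈ H, ∑ A ∈ M, wp (X ∩ A) := sum_le_sum h1
      _ = ∑ A ∈ M, ∑ X ∈ H, wp (X ∩ A) := sum_comm
      _ ≤ ∑ A ∈ M, w A := sum_le_sum fun A hA => hS.indep.sum_wp_le A (hM2 A hA)
      _ = I.card := hMw
  rw [h0]
  linarith

end Pool.Agent.GRA
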