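import Pool.Agent.GRA.Alg
import Pool.Agent.GRA.Defs2

/-!
# GRA/LS: dictionary between lists of pairs and families of two-element sets

`gr n l` is the graph on `Fin n` described by the list `l`; `pr n p` the two-element set of the pair `p`;
`EL n l`: the list has no repetitions and consists of pairs `(j, i)` with `j < i < n`.
All proofs are routine. `adjB l i j = true ↔ (i,j) ∈ l ∨ (j,i) ∈ l`.
`inside_gr`: for `EL n l` the map `pr n` is injective on `l`, its image is `gr n l`, and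
`pr n p ⊆ X ↔ p.1 ∈ X' ∧ p.2 ∈ X'` where `X' = X.map Fin.valEmbedding`.
-/

namespace Pool.Agent.GRA

open Finset

/-- The graph on `Fin n` described by a list of pairs. -/
def gr (n : ℕ) (l : List (ℕ × ℕ)) : Finset (Finset (Fin n)) :=
  univ.filter (fun e => ∃ i j : Fin n, i ≠ j ∧ e = {i, j} ∧ adjB l i j = true)

/-- The two-element set of a pair. -/
def pr (n : ℕ) (p : ℕ × ℕ) : Finset (Fin n) :=
  univ.filter (fun i => (i : ℕ) = p.1 ∨ (i : ℕ) = p.2)

def EL (n : ℕ) (l : List (ℕ × ℕ)) : Prop := l.Nodup ∧ ∀ p ∈ l, p.1 < p.2 ∧ p.2 < n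

/-- The number of members of the list with both entries in `X`. -/
def insideL (l : List (ℕ × ℕ)) (X : Finset ℕ) : ℕ :=
  l.countP (fun p => decide (p.1 ∈ X ∧ p.2 ∈ X))

theorem adjB_iff {l : List (ℕ × ℕ)} {i j : ℕ} : adjB l i j = true ↔ (i, j) ∈ l ∨ (j, i) ∈ l := by
  unfold adjB
  rw [List.any_eq_true]
  constructor
  · rintro ⟨p, hp, h⟩
    rcases Bool.or_eq_true _ _ |>.mp h with h | h
    · left; rw [← of_decide_eq_true h]; exact hp
    · right; rw [← of_decide_eq_true h]; exact hp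
  · rintro (h | h)
    · exact ⟨_, h, by simp⟩
    · exact ⟨_, h, by simp⟩

theorem adjB_comm (l : List (ℕ × ℕ)) (i j : ℕ) : adjB l i j = adjB l j i := by
  rw [Bool.eq_iff_iff, adjB_iff, adjB_iff, or_comm]

theorem gr_isG (n : ℕ) (l : List (ℕ × ℕ)) : IsG (gr n l) := by
  intro e he
  obtain ⟨i, j, hij, rfl, -⟩ := (mem_filter.mp he).2
  exact card_pair hij

theorem mem_gr {n : ℕ} {l : List (ℕ × ℕ)} {i j : Fin n} :
    ({i, j} : Finset (Fin n)) ∈ gr n l ↔ i ≠ j ∧ adjB l i j = true := by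
  unfold gr
  rw [mem_filter]
  constructor
  · rintro ⟨-, a, b, hab, he, hadj⟩
    have h1 : i = a ∨ i = b := by
      have : i ∈ ({a, b} : Finset (Fin n)) := by rw [← he]; simp
      simpa using this
    have h2 : j = a ∨ j = b := by
      have : j ∈ ({a, b} : Finset (Fin n)) := by rw [← he]; simp
      simpa using this
    have h3 : i ≠ j := by
      rintro rfl
      have h4 : ({i, i} : Finset (Fin n)).card = 2 := by rw [he]; exact card_pair hab
      simp at h4
    refine ⟨h3, ?_⟩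
    rcases h1 with rfl | rfl <;> rcases h2 with rfl | rfl
    · exact absurd rfl h3
    · exact hadj
    · rw [adjB_comm]; exact hadj
    · exact absurd rfl h3
  · rintro ⟨h, hadj⟩
    exact ⟨mem_univ _, i, j, h, rfl, hadj⟩

theorem mem_pairsL {n : ℕ} {p : ℕ × ℕ} : p ∈ pairsL n ↔ p.1 < p.2 ∧ p.2 < n := by
  unfold pairsL
  simp only [List.mem_flatMap, List.mem_range, List.mem_map]
  constructor
  · rintro ⟨i, hi, j, hj, rfl⟩
    exact ⟨hj, hi⟩
  · rintro ⟨h1, h2⟩
    exact ⟨p.2, h2, p.1, h1, rfl⟩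

theorem pairsL_EL (n : ℕ) : EL n (pairsL n) := by
  refine ⟨?_, fun p hp => mem_pairsL.mp hp⟩
  unfold pairsL
  rw [List.nodup_flatMap]
  refine ⟨fun i _ => ?_, ?_⟩
  · refine List.Nodup.map ?_ List.nodup_range
    intro a b hab
    exact (Prod.mk.inj hab).1
  · refine List.Pairwise.imp_of_mem ?_ (List.nodup_range (n := n))
    intro a b _ _ hab
    rw [Function.onFun, List.disjoint_left]
    intro x hx hy
    obtain ⟨c, _, rfl⟩ := List.mem_map.mp hx
    obtain ⟨d, _, hd⟩ := List.mem_map.mp hy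
    exact hab (Prod.mk.inj hd).2.symm

theorem pairsL_length (n : ℕ) : (pairsL n).length ≤ n * n := by
  have h := (pairsL_EL n).1
  have h2 : (pairsL n).toFinset ⊆ Finset.range n ×ˢ Finset.range n := by
    intro p hp
    rw [List.mem_toFinset] at hp
    have h3 := mem_pairsL.mp hp
    simp only [mem_product, mem_range]
    omega
  have h3 := card_le_card h2
  rw [List.toFinset_card_of_nodup h, card_product, card_range] at h3
  exact h3

theorem mem_edgesL {n : ℕ} {l : List (ℕ × ℕ)} {p : ℕ × ℕ} :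
    p ∈ edgesL n l ↔ (p.1 < p.2 ∧ p.2 < n) ∧ adjB l p.1 p.2 = true := by
  unfold edgesL
  rw [List.mem_filter, mem_pairsL]

theorem edgesL_EL (n : ℕ) (l : List (ℕ × ℕ)) : EL n (edgesL n l) := by
  refine ⟨(pairsL_EL n).1.filter _, fun p hp => (mem_edgesL.mp hp).1⟩

theorem gr_edgesL (n : ℕ) (l : List (ℕ × ℕ)) : gr n (edgesL n l) = gr n l := by
  have key : ∀ i j : Fin n, i ≠ j → (adjB (edgesL n l) i j = true ↔ adjB l i j = true) := by
    intro i j hij
    have hne : (i : ℕ) ≠ (j : ℕ) := fun h => hij (Fin.ext h)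
    rw [adjB_iff (l := edgesL n l), mem_edgesL, mem_edgesL]
    constructor
    · rintro (h | h)
      · exact h.2
      · have := h.2
        rw [adjB_comm] at this
        exact this
    · intro h
      rcases lt_or_gt_of_ne hne with h1 | h1
      · left; exact ⟨⟨h1, j.2⟩, h⟩
      · right; refine ⟨⟨h1, i.2⟩, ?_⟩
        rw [adjB_comm]; exact h
  ext e
  unfold gr
  simp only [mem_filter, mem_univ, true_and]
  constructor
  · rintro ⟨i, j, hij, he, h⟩
    exact ⟨i, j, hij, he, (key i j hij).mp h⟩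
  · rintro ⟨i, j, hij, he, h⟩
    exact ⟨i, j, hij, he, (key i j hij).mpr h⟩

private theorem pr_eq {n : ℕ} {p : ℕ × ℕ} (hp : p.1 < p.2 ∧ p.2 < n) :
    pr n p = {⟨p.1, by omega⟩, ⟨p.2, by omega⟩} := by
  ext i
  unfold pr
  rw [mem_filter]
  simp only [mem_univ, true_and, mem_insert, mem_singleton, Fin.ext_iff]

theorem pr_card {n : ℕ} {p : ℕ × ℕ} (hp : p.1 < p.2 ∧ p.2 < n) : (pr n p).card = 2 := by
  rw [pr_eq hp]
  exact card_pair (by intro h; have := congrArg Fin.val h; simp at this; omega)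

theorem pr_inj {n : ℕ} {p q : ℕ × ℕ} (hp : p.1 < p.2 ∧ p.2 < n) (hq : q.1 < q.2 ∧ q.2 < n)
    (h : pr n p = pr n q) : p = q := by
  rw [pr_eq hp, pr_eq hq] at h
  have h1 : (⟨p.1, by omega⟩ : Fin n) ∈ ({⟨q.1, by omega⟩, ⟨q.2, by omega⟩} : Finset (Fin n)) := by
    rw [← h]; simp
  have h2 : (⟨p.2, by omega⟩ : Fin n) ∈ ({⟨q.1, by omega⟩, ⟨q.2, by omega⟩} : Finset (Fin n)) := by
    rw [← h]; simp
  simp only [mem_insert, mem_singleton, Fin.mk.injEq] at h1 h2
  refine Prod.ext ?_ ?_ <;> omega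

/-- Every pair of vertices is `pr n p` for some `p` in `pairsL n`. -/
theorem exists_pr {n : ℕ} {e : Finset (Fin n)} (he : e.card = 2) :
    ∃ p, (p.1 < p.2 ∧ p.2 < n) ∧ e = pr n p := by
  obtain ⟨a, b, hab, rfl⟩ := card_eq_two.mp he
  have hne : (a : ℕ) ≠ (b : ℕ) := fun h => hab (Fin.ext h)
  rcases lt_or_gt_of_ne hne with h1 | h1
  · refine ⟨((a : ℕ), (b : ℕ)), ⟨h1, b.2⟩, ?_⟩
    rw [pr_eq (p := ((a : ℕ), (b : ℕ))) ⟨h1, b.2⟩]
  · refine ⟨((b : ℕ), (a : ℕ)), ⟨h1, a.2⟩, ?_⟩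
    rw [pr_eq (p := ((b : ℕ), (a : ℕ))) ⟨h1, a.2⟩]
    exact pair_comm a b

theorem pr_mem_gr {n : ℕ} {l : List (ℕ × ℕ)} {p : ℕ × ℕ} (hp : p.1 < p.2 ∧ p.2 < n) :
    pr n p ∈ gr n l ↔ adjB l p.1 p.2 = true := by
  rw [pr_eq hp, mem_gr]
  constructor
  · exact fun h => h.2
  · intro h
    refine ⟨?_, h⟩
    intro h2
    have := congrArg Fin.val h2
    simp at this
    omega

theorem pr_mem_gr_EL {n : ℕ} {l : List (ℕ × ℕ)} (hl : EL n l) {p : ℕ × ℕ}
    (hp : p.1 < p.2 ∧ p.2 < n) : pr n p ∈ gr n l ↔ p ∈ l := by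
  rw [pr_mem_gr hp, adjB_iff]
  constructor
  · rintro (h | h)
    · exact h
    · have := (hl.2 _ h).1
      simp at this
      omega
  · exact fun h => Or.inl h

theorem gr_nil (n : ℕ) : gr n [] = ∅ := by
  ext e
  simp only [gr, mem_filter, mem_univ, true_and, notMem_empty, iff_false]
  rintro ⟨i, j, _, _, h⟩
  rw [adjB_iff] at h
  simp at h

theorem gr_cons {n : ℕ} {l : List (ℕ × ℕ)} {p : ℕ × ℕ} (hp : p.1 < p.2 ∧ p.2 < n) :
    gr n (p :: l) = insert (pr n p) (gr n l) := by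
  ext e
  rw [mem_insert]
  constructor
  · intro he
    obtain ⟨i, j, hij, rfl, h⟩ := (mem_filter.mp he).2
    rw [adjB_iff, List.mem_cons, List.mem_cons] at h
    rcases h with (h | h) | (h | h)
    · left
      subst h
      exact (pr_eq hp).symm
    · right
      exact mem_gr.mpr ⟨hij, adjB_iff.mpr (Or.inl h)⟩
    · left
      subst h
      exact (pair_comm _ _).trans (pr_eq hp).symm
    · right
      exact mem_gr.mpr ⟨hij, adjB_iff.mpr (Or.inr h)⟩
  · rintro (rfl | he)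
    · rw [pr_mem_gr hp, adjB_iff]
      left
      exact List.mem_cons_self
    · obtain ⟨i, j, hij, rfl, h⟩ := (mem_filter.mp he).2
      rw [adjB_iff] at h
      refine mem_gr.mpr ⟨hij, adjB_iff.mpr ?_⟩
      rcases h with h | h
      · exact Or.inl (List.mem_cons_of_mem _ h)
      · exact Or.inr (List.mem_cons_of_mem _ h)

theorem gr_append (n : ℕ) (l m : List (ℕ × ℕ)) : gr n (l ++ m) = gr n l ∪ gr n m := by
  ext e
  rw [mem_union]
  constructor
  · intro he
    obtain ⟨i, j, hij, rfl, h⟩ := (mem_filter.mp he).2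
    rw [adjB_iff, List.mem_append, List.mem_append] at h
    rcases h with (h | h) | (h | h)
    · left; exact mem_gr.mpr ⟨hij, adjB_iff.mpr (Or.inl h)⟩
    · right; exact mem_gr.mpr ⟨hij, adjB_iff.mpr (Or.inl h)⟩
    · left; exact mem_gr.mpr ⟨hij, adjB_iff.mpr (Or.inr h)⟩
    · right; exact mem_gr.mpr ⟨hij, adjB_iff.mpr (Or.inr h)⟩
  · rintro (he | he)
    · obtain ⟨i, j, hij, rfl, h⟩ := (mem_filter.mp he).2
      rw [adjB_iff] at h
      refine mem_gr.mpr ⟨hij, adjB_iff.mpr ?_⟩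
      rcases h with h | h
      · exact Or.inl (List.mem_append_left _ h)
      · exact Or.inr (List.mem_append_left _ h)
    · obtain ⟨i, j, hij, rfl, h⟩ := (mem_filter.mp he).2
      rw [adjB_iff] at h
      refine mem_gr.mpr ⟨hij, adjB_iff.mpr ?_⟩
      rcases h with h | h
      · exact Or.inl (List.mem_append_right _ h)
      · exact Or.inr (List.mem_append_right _ h)

theorem gr_erase {n : ℕ} {l : List (ℕ × ℕ)} (hl : EL n l) {p : ℕ × ℕ} (hp : p ∈ l) :
    gr n (l.erase p) = (gr n l).erase (pr n p) := by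
  have hpp := hl.2 p hp
  have hle : EL n (l.erase p) := ⟨hl.1.erase p, fun q hq => hl.2 q (List.mem_of_mem_erase hq)⟩
  ext e
  rw [mem_erase]
  constructor
  · intro he
    have hc := gr_isG n _ e he
    obtain ⟨q, hq, rfl⟩ := exists_pr hc
    rw [pr_mem_gr_EL hle hq, hl.1.mem_erase_iff] at he
    refine ⟨fun h => he.1 (pr_inj hq hpp h), ?_⟩
    rw [pr_mem_gr_EL hl hq]
    exact he.2
  · rintro ⟨h1, he⟩
    have hc := gr_isG n _ e he
    obtain ⟨q, hq, rfl⟩ := exists_pr hc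
    rw [pr_mem_gr_EL hl hq] at he
    rw [pr_mem_gr_EL hle hq, hl.1.mem_erase_iff]
    exact ⟨fun h => h1 (by rw [h]), he⟩

private theorem gr_eq_image {n : ℕ} {l : List (ℕ × ℕ)} (hl : EL n l) :
    gr n l = l.toFinset.image (pr n) := by
  ext e
  rw [mem_image]
  constructor
  · intro he
    obtain ⟨q, hq, rfl⟩ := exists_pr (gr_isG n _ e he)
    exact ⟨q, by rw [List.mem_toFinset]; exact (pr_mem_gr_EL hl hq).mp he, rfl⟩
  · rintro ⟨q, hq, rfl⟩
    rw [List.mem_toFinset] at hq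
    exact (pr_mem_gr_EL hl (hl.2 q hq)).mpr hq

private theorem pr_subset {n : ℕ} {p : ℕ × ℕ} (hp : p.1 < p.2 ∧ p.2 < n) {X : Finset (Fin n)} :
    pr n p ⊆ X ↔ p.1 ∈ X.map Fin.valEmbedding ∧ p.2 ∈ X.map Fin.valEmbedding := by
  rw [pr_eq hp, insert_subset_iff, singleton_subset_iff]
  simp only [mem_map, Fin.valEmbedding_apply]
  constructor
  · rintro ⟨h1, h2⟩
    exact ⟨⟨_, h1, rfl⟩, ⟨_, h2, rfl⟩⟩
  · rintro ⟨⟨a, ha, ha2⟩, ⟨b, hb, hb2⟩⟩
    have e1 : a = ⟨p.1, by omega⟩ := Fin.ext ha2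
    have e2 : b = ⟨p.2, by omega⟩ := Fin.ext hb2
    rw [← e1, ← e2]
    exact ⟨ha, hb⟩

theorem gr_card {n : ℕ} {l : List (ℕ × ℕ)} (hl : EL n l) : (gr n l).card = l.length := by
  rw [gr_eq_image hl, card_image_of_injOn, List.toFinset_card_of_nodup hl.1]
  intro p hp q hq h
  exact pr_inj (hl.2 p (by simpa using hp)) (hl.2 q (by simpa using hq)) h

theorem inside_gr {n : ℕ} {l : List (ℕ × ℕ)} (hl : EL n l) (X : Finset (Fin n)) :
    ((gr n l).filter (fun e => e ⊆ X)).card = insideL l (X.map Fin.valEmbedding) := by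
  rw [gr_eq_image hl, filter_image, card_image_of_injOn]
  · unfold insideL
    rw [List.countP_eq_length_filter]
    have h1 : l.toFinset.filter (fun a => pr n a ⊆ X) =
        (l.filter (fun p => decide (p.1 ∈ X.map Fin.valEmbedding ∧
          p.2 ∈ X.map Fin.valEmbedding))).toFinset := by
      ext p
      rw [mem_filter, List.mem_toFinset, List.mem_toFinset, List.mem_filter, decide_eq_true_iff]
      constructor
      · rintro ⟨h, h2⟩
        exact ⟨h, (pr_subset (hl.2 p h)).mp h2⟩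
      · rintro ⟨h, h2⟩
        exact ⟨h, (pr_subset (hl.2 p h)).mpr h2⟩
    rw [h1, List.toFinset_card_of_nodup (hl.1.filter _)]
  · intro p hp q hq h
    have hp' : p ∈ l := by
      have := (mem_filter.mp (mem_coe.mp hp)).1
      simpa using this
    have hq' : q ∈ l := by
      have := (mem_filter.mp (mem_coe.mp hq)).1
      simpa using this
    exact pr_inj (hl.2 p hp') (hl.2 q hq') h

end Pool.Agent.GRA
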