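import Pool.Agent.GRA.S2
import Pool.Agent.GRA.FR2

/-!
# GRA/M1: minimal demand vectors, tight sets, free vertices

`Tight A`: `gg H A = mass m A`. `Free x`: support vertex in no tight set.

PROOF of `tight_or`. `m' = Function.update m v (m v - 1)` violates `Dem`. Either some nonempty `C` has
`gg H C > mass m' C`; then `v ∈ C` (otherwise `mass m' C = mass m C`), `mass m' C = mass m C - 1`, so
`gg H C ≥ mass m C`, with `FeasAll` equality. Or some nonempty `Q` with at most 2 neighbours has `mass m' Q = 0`: then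
`v ∈ Q` and `mass m Q = 1 = m v`.
PROOF of `dem_union`: `mass A + mass B = gg A + gg B ≤ gg (A ∪ B) + gg (A ∩ B) ≤ mass (A ∪ B) + mass (A ∩ B)`
(`gg_super`, `FeasAll` for the two nonempty sets, `mass_union_inter`).
PROOF of `free_zero`: `C ⊆ Q` nonempty. If `x ∈ C`: `mass C = 1`, `gg H C ≤ 1` and `≠` (free), so `≤ 0`. If `x ∉ C`:
`mass C = 0` (`mass Q = 1 ≤ m x`), `gg H C ≤ 0`.
PROOF of `free_nbr`: if `|nbr E Q| ≤ 1`, `gg_of_nbr_one` gives `gg H Q ≥ 2`, contradicting `free_zero`. So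
`nbr E Q = {u,v}`, `Closed E {u,v} Q` (`closed_iff`), `fatAt_of_nbr`.
PROOF of `free_disjoint`: `x ∉ Q'` (otherwise `mass Q' ≥ m x + m y ≥ 2`), `y ∉ Q`. Suppose `Q ∩ Q' ≠ ∅`. Its mass is
0 (`mass Q = 1 ≤ m x`), so by `Dem` it has at least 3 neighbours; by `nbr_submod`, `|nbr (Q ∪ Q')| ≤ 1`, so
`gg H (Q ∪ Q') ≥ 2`; `mass (Q ∪ Q') = 2`. With `FeasAll` `Q ∪ Q'` is tight and contains `x`: contradiction.
-/

namespace Pool.Agent.GRA

open Finset

variable {α : Type*} [Fintype α] [DecidableEq α]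

/-- All demands. -/
def Dem (E H : Finset (Finset α)) (m : α → ℕ) : Prop :=
  FeasAll H m ∧ ∀ Q : Finset α, Q.Nonempty → (nbr E Q).card ≤ 2 → 1 ≤ mass m Q

/-- No coordinate can be lowered. -/
def MinDem (E H : Finset (Finset α)) (m : α → ℕ) : Prop :=
  Dem E H m ∧ ∀ v, 0 < m v → ¬ Dem E H (Function.update m v (m v - 1))

def Tight (H : Finset (Finset α)) (m : α → ℕ) (A : Finset α) : Prop :=
  gg H A = (mass m A : ℤ)

/-- `x` is a support vertex in no tight set; `Q` is a set with at most two neighbours whose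
only mass is one unit at `x`. -/
def FreeAt (E H : Finset (Finset α)) (m : α → ℕ) (x : α) (Q : Finset α) : Prop :=
  m x = 1 ∧ (∀ A, x ∈ A → ¬ Tight H m A) ∧ x ∈ Q ∧ (nbr E Q).card ≤ 2 ∧ mass m Q = 1

private theorem mass_update {m : α → ℕ} {v : α} (hv : 0 < m v) (C : Finset α) :
    mass (Function.update m v (m v - 1)) C + (if v ∈ C then 1 else 0) = mass m C := by
  split_ifs with h
  · have h1 : C = insert v (C.erase v) := (insert_erase h).symm
    rw [h1, mass_insert _ (notMem_erase v C), mass_insert _ (notMem_erase v C)]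
    rw [Function.update_self]
    have h2 : mass (Function.update m v (m v - 1)) (C.erase v) = mass m (C.erase v) :=
      sum_congr rfl fun y hy => Function.update_of_ne (mem_erase.1 hy).1 _ _
    rw [h2]
    omega
  · rw [add_zero]
    refine sum_congr rfl fun y hy => Function.update_of_ne ?_ _ _
    rintro rfl
    exact h hy

theorem tight_or {E H : Finset (Finset α)} {m : α → ℕ} (hm : MinDem E H m) {v : α}
    (hv : 0 < m v) : (∃ C, v ∈ C ∧ Tight H m C) ∨ ∃ Q, FreeAt E H m v Q := by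
  by_cases hT : ∃ C, v ∈ C ∧ Tight H m C
  · exact Or.inl hT
  right
  push Not at hT
  obtain ⟨⟨hF, hQ⟩, hmin⟩ := hm
  have h1 := hmin v hv
  unfold Dem at h1
  rw [not_and_or] at h1
  rcases h1 with h1 | h1
  · exfalso
    unfold FeasAll at h1
    push Not at h1
    obtain ⟨C, hC, h2⟩ := h1
    have h3 := hF C hC
    have h4 := mass_update hv C
    have h4' : (mass (Function.update m v (m v - 1)) C : ℤ) + (if v ∈ C then 1 else 0) =
        (mass m C : ℤ) := by
      rw [← h4]
      push_cast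
      split_ifs <;> rfl
    split_ifs at h4' with h5
    · refine hT C h5 ?_
      unfold Tight
      omega
    · omega
  · push Not at h1
    obtain ⟨Q, hQ0, hQ2, h2⟩ := h1
    have h3 := hQ Q hQ0 hQ2
    have h4 := mass_update hv Q
    split_ifs at h4 with h5
    · have h6 := le_mass m h5
      exact ⟨Q, by omega, hT, h5, hQ2, by omega⟩
    · omega

theorem dem_union {E H : Finset (Finset α)} (hH : Indep H) {m : α → ℕ}
    (hm : Dem E H m) {A B : Finset α} (hA : Tight H m A) (hB : Tight H m B)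
    (hAB : (A ∩ B).Nonempty) : Tight H m (A ∪ B) ∧ Tight H m (A ∩ B) := by
  unfold Tight at *
  have h1 := gg_super hH A B
  have h2 := hm.1 (A ∩ B) hAB
  have h3 := hm.1 (A ∪ B) (hAB.mono (inter_subset_left.trans subset_union_left))
  have h4 := mass_union_inter m A B
  have h4' : (mass m (A ∪ B) : ℤ) + mass m (A ∩ B) = mass m A + mass m B := by exact_mod_cast h4
  constructor <;> linarith

theorem free_zero {E H : Finset (Finset α)} {m : α → ℕ} (hm : Dem E H m) {x : α}
    {Q : Finset α} (hx : FreeAt E H m x Q) {C : Finset α} (hC : C ⊆ Q) (h0 : C.Nonempty) :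
    gg H C ≤ 0 := by
  obtain ⟨h1, h2, h3, h4, h5⟩ := hx
  have h6 := hm.1 C h0
  by_cases hxC : x ∈ C
  · have h7 := h2 C hxC
    unfold Tight at h7
    have h8 := mass_mono m hC
    rw [h5] at h8
    have h9 : (mass m C : ℤ) ≤ 1 := by exact_mod_cast h8
    omega
  · have h7 : mass m (insert x C) ≤ mass m Q := mass_mono m (insert_subset h3 hC)
    rw [mass_insert m hxC] at h7
    have h8 : mass m C = 0 := by omega
    rw [h8] at h6
    exact_mod_cast h6

theorem free_nbr {E H : Finset (Finset α)} (hE : IsG E) (hS : Sys E H)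
    (hn : 4 ≤ Fintype.card α) {m : α → ℕ} (hm : Dem E H m) {x : α} {Q : Finset α}
    (hx : FreeAt E H m x Q) :
    ∃ u v, nbr E Q = {u, v} ∧ Closed E {u, v} Q ∧ FatAt H Q u v := by
  have hQ : Q.Nonempty := ⟨x, hx.2.2.1⟩
  have hz := free_zero hm hx subset_rfl hQ
  have h2 : 2 ≤ (nbr E Q).card := by
    by_contra hlt
    have h1 : (nbr E Q).card ≤ 1 := by omega
    obtain ⟨u, hu⟩ : ∃ u, nbr E Q ⊆ {u} := by
      have : Nonempty α := ⟨x⟩
      exact card_le_one_iff_subset_singleton.1 h1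
    have h3 := gg_of_nbr_one hE hS (by omega) hQ hu
    linarith
  obtain ⟨u, v, huv, hN⟩ := card_eq_two.1 (le_antisymm hx.2.2.2.1 h2)
  have hc : Closed E {u, v} Q := by
    rw [closed_iff, ← hN]
    refine ⟨?_, subset_rfl⟩
    rw [disjoint_left]
    intro y hy hy'
    exact (mem_filter.1 hy').2.1 hy
  exact ⟨u, v, hN, hc, fatAt_of_nbr hE hS hQ huv hc fun C hC h0 => free_zero hm hx hC h0⟩

theorem free_disjoint {E H : Finset (Finset α)} (hE : IsG E) (hS : Sys E H)
    (hn : 4 ≤ Fintype.card α) {m : α → ℕ} (hm : Dem E H m) {x y : α} (hxy : x ≠ y)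
    {Q Q' : Finset α} (hx : FreeAt E H m x Q) (hy : FreeAt E H m y Q') : Disjoint Q Q' := by
  obtain ⟨h1, h2, h3, h4, h5⟩ := hx
  obtain ⟨k1, k2, k3, k4, k5⟩ := hy
  by_contra hdis
  rw [disjoint_iff_inter_eq_empty, ← Ne, ← nonempty_iff_ne_empty] at hdis
  have hU : m x + m y ≤ mass m (Q ∪ Q') :=
    mass_pair_le m hxy (mem_union_left _ h3) (mem_union_right _ k3)
  have hI := mass_union_inter m Q Q'
  have hI0 : mass m (Q ∩ Q') = 0 := by omega
  have hU2 : mass m (Q ∪ Q') = 2 := by omega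
  have h6 : 3 ≤ (nbr E (Q ∩ Q')).card := by
    by_contra hlt
    have := hm.2 (Q ∩ Q') hdis (by omega)
    omega
  have h7 := nbr_submod E Q Q'
  have h8 : (nbr E (Q ∪ Q')).card ≤ 1 := by omega
  obtain ⟨u, hu⟩ : ∃ u, nbr E (Q ∪ Q') ⊆ {u} := by
    have : Nonempty α := ⟨x⟩
    exact card_le_one_iff_subset_singleton.1 h8
  have h9 : (Q ∪ Q').Nonempty := ⟨x, mem_union_left _ h3⟩
  have h10 := gg_of_nbr_one hE hS (by omega) h9 hu
  have h11 := hm.1 _ h9
  refine h2 (Q ∪ Q') (mem_union_left _ h3) ?_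
  unfold Tight
  rw [hU2] at h11 ⊢
  push_cast at h11 ⊢
  omega

end Pool.Agent.GRA
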