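import Pool.Agent.GRA.M1

/-!
# GRA/M2: minimal tight sets are disjoint from the sets of free vertices

PROOF of `tightMin_disjoint`. `A` tight, `mass A ≥ 1`, minimal among the tight subsets of `A` of the same mass.
`x ∉ A` (free). `free_nbr`: `nbr E Q = {u,v}`, `FatAt H Q u v`; `D = insert u (insert v Q)`. Suppose `C = A ∩ Q ≠ ∅`;
`mass C = 0` (the mass of `Q` is 1 and sits at `x ∉ A`).
Case 1: some `X ∈ H` contains `D`. Every `Y ∈ H` meeting `Q` is `X`: `FatAt`: `Y ⊆ D ⊆ X` or `D ⊆ Y`; in both cases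
`|X ∩ Y| ≥ 2`, `Indep.thin`. `X` meets `A` (in `C`). So `sTo H (A ∪ Q) = sTo H A` and
`gg H (A ∪ Q) = gg H A + 2|Q \ A| ≥ gg H A + 2` (`x ∈ Q \ A`), while `mass (A ∪ Q) = mass A + 1`: contradicts
`FeasAll`.
Case 2: no member contains `D`. Then `Rig H D` (`rig_or`) and all members meeting `Q` are inside `D`.
`B = univ \ A ∋ x`, `gg H A = dof + 1 - kk H B`. `kk_sub`: `kk (B ∪ D) + kk (B ∩ D) ≤ kk B`.
2a: `|B ∩ D| ≥ 2`: `kk (B ∩ D) ≥ 0`, `univ \ (B ∪ D) = A \ D`.
 - If `A \ D ≠ ∅`: `gg (A \ D) = dof + 1 - kk (B ∪ D) ≥ gg A + kk (B ∩ D) ≥ gg A = mass A ≥ mass (A \ D) ≥ gg (A \ D)`: all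
   equal, `A \ D` is tight with the mass of `A`; by minimality `A \ D = A`, contradicting `C ≠ ∅`, `C ⊆ D`.
 - If `A ⊆ D`: `B ∪ D = univ`, `dof + kk (B ∩ D) ≤ kk B = dof + 1 - gg A`, `gg A = mass A ≥ 1`, so `gg A = 1` and
   `kk (B ∩ D) = 0`, i.e. `D \ A = B ∩ D` is rigid. `mass A = 1 = mass (A ∩ {u,v})` (`mass C = 0`), so `A ∩ {u,v} ≠ ∅`.
   Members inside `D` meeting `A` have total weight `sIn H D - sIn H (D \ A) = w D - w (D \ A) = 2|A|`, and
   `sTo H A = 2|A| + 1 - gg A = 2|A|`, so (weights ≥ 1) every member meeting `A` is inside `D`. So every member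
   meeting `Q' = Q ∪ A` is inside `D`, hence (`Sys.cov`) every edge of `E` meeting `Q'` is inside `D`, so
   `nbr E Q' ⊆ D \ Q' = {u,v} \ A`, at most one vertex. `gg_of_nbr_one`: `gg H Q' ≥ 2`.
   `mass Q' = mass Q + mass A - mass C = 2`. So `Q'` is tight and contains `x`: contradiction.
2b: `|B ∩ D| ≤ 1`: `B ∩ D = {x}`, `D \ {x} ⊆ A`. Members containing `x` are inside `D` (`x ∈ Q`) and have another
element, so they meet `A`: `sTo H (insert x A) = sTo H A`, `gg H (insert x A) = gg H A + 2`,
`mass (insert x A) = mass A + 1`: contradicts `FeasAll`.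

PROOF of `exists_tightMin`: finiteness (minimal cardinality).
-/

namespace Pool.Agent.GRA

open Finset

variable {α : Type*} [Fintype α] [DecidableEq α]

def TightMin (H : Finset (Finset α)) (m : α → ℕ) (A : Finset α) : Prop :=
  Tight H m A ∧ 1 ≤ mass m A ∧
    ∀ A', A' ⊆ A → Tight H m A' → mass m A' = mass m A → A' = A

theorem exists_tightMin {H : Finset (Finset α)} {m : α → ℕ} {M : Finset α}
    (hM : Tight H m M) (h1 : 1 ≤ mass m M) :
    ∃ A, A ⊆ M ∧ TightMin H m A ∧ mass m A = mass m M := by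
  classical
  let S : Finset (Finset α) := univ.filter (fun A => A ⊆ M ∧ Tight H m A ∧ mass m A = mass m M)
  have hS : S.Nonempty := ⟨M, mem_filter.2 ⟨mem_univ _, subset_rfl, hM, rfl⟩⟩
  obtain ⟨A, hAS, hmin⟩ := exists_min_image S card hS
  obtain ⟨_, hAM, hA, hmA⟩ := mem_filter.1 hAS
  refine ⟨A, hAM, ⟨hA, by omega, fun A' hA' hT' hm' => ?_⟩, hmA⟩
  refine eq_of_subset_of_card_le hA' (hmin A' ?_)
  exact mem_filter.2 ⟨mem_univ _, hA'.trans hAM, hT', by omega⟩

private theorem m2_sTo {H : Finset (Finset α)} {A A' : Finset α} (hA : A ⊆ A')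
    (h : ∀ X ∈ H, (X ∩ A').Nonempty → (X ∩ A).Nonempty) : sTo H A' = sTo H A := by
  unfold sTo
  apply sum_congr _ fun _ _ => rfl
  ext X
  simp only [mem_filter, and_congr_right_iff]
  intro hX
  exact ⟨h X hX, fun h' => h'.mono (inter_subset_inter_left hA)⟩

private theorem m2_big {H : Finset (Finset α)} {m : α → ℕ} (hF : FeasAll H m) {A A' : Finset α}
    (hA : Tight H m A) (hs : A ⊆ A') (hne : A ≠ A') (hm : mass m A' ≤ mass m A + 1)
    (h : ∀ X ∈ H, (X ∩ A').Nonempty → (X ∩ A).Nonempty) : False := by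
  have h1 := m2_sTo hs h
  have h2 : A.card < A'.card := card_lt_card (ssubset_of_subset_of_ne hs hne)
  have h3 := hF A' (card_pos.1 (by omega))
  unfold Tight at hA
  unfold gg at h3 hA
  rw [h1] at h3
  have h4 : (mass m A' : ℤ) ≤ mass m A + 1 := by exact_mod_cast hm
  omega

private theorem m2_rest {E H : Finset (Finset α)} (hE : IsG E) (hS : Sys E H)
    (hn : 4 ≤ Fintype.card α) {m : α → ℕ} (hm : Dem E H m) {A Q : Finset α} {x u v : α}
    (hx : FreeAt E H m x Q) (hfat : FatAt H Q u v)
    (hno : ∀ X ∈ H, ¬ insert u (insert v Q) ⊆ X) (hC0 : mass m (A ∩ Q) = 0)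
    (hAD : A ⊆ insert u (insert v Q)) (hD : Rig H (insert u (insert v Q)))
    (hg : gg H A = 1) (hmA : mass m A = 1) (hk : kk H (insert u (insert v Q) \ A) = 0) : False := by
  obtain ⟨D, hDdef⟩ : ∃ D, D = insert u (insert v Q) := ⟨_, rfl⟩
  rw [← hDdef] at hno hAD hD hk
  have hH := hS.indep
  have hQD : Q ⊆ D := by
    rw [hDdef]
    exact (subset_insert _ _).trans (subset_insert _ _)
  -- the members meeting `A` are inside `D`
  have hin : ∀ X ∈ H, (X ∩ A).Nonempty → X ⊆ D := by
    have e1 : sIn H D = ∑ X ∈ H.filter (fun X => X ⊆ D ∧ (X ∩ A).Nonempty), w X + sIn H (D \ A) := by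
      unfold sIn
      rw [← sum_filter_add_sum_filter_not (H.filter (fun X => X ⊆ D)) (fun X => (X ∩ A).Nonempty) w]
      rw [filter_filter, filter_filter]
      congr 1
      apply sum_congr _ fun _ _ => rfl
      ext X
      simp only [mem_filter, and_congr_right_iff]
      intro _
      rw [not_nonempty_iff_eq_empty, ← disjoint_iff_inter_eq_empty]
      constructor
      · rintro ⟨h1, h2⟩
        exact subset_sdiff.2 ⟨h1, h2⟩
      · intro h1
        exact ⟨h1.trans sdiff_subset, (subset_sdiff.1 h1).2⟩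
    have e2 : sIn H D = w D := by
      have := hD.2
      unfold kk at this
      linarith
    have e3 : sIn H (D \ A) = w (D \ A) := by
      unfold kk at hk
      linarith
    have e4 : w D = w (D \ A) + 2 * A.card := by
      unfold w
      have h1 := card_sdiff_add_card_eq_card hAD
      have h2 : ((D \ A).card : ℤ) + A.card = D.card := by exact_mod_cast h1
      linarith
    have e5 : sTo H A = 2 * A.card := by
      unfold gg at hg
      linarith
    have e6 : ∑ X ∈ H.filter (fun X => X ⊆ D ∧ (X ∩ A).Nonempty), w X =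
        ∑ X ∈ H.filter (fun X => (X ∩ A).Nonempty), w X := by
      have : sTo H A = ∑ X ∈ H.filter (fun X => (X ∩ A).Nonempty), w X := rfl
      rw [← this]
      linarith
    have hsub : H.filter (fun X => X ⊆ D ∧ (X ∩ A).Nonempty) ⊆ H.filter (fun X => (X ∩ A).Nonempty) := by
      intro X hX
      obtain ⟨h1, h2, h3⟩ := mem_filter.1 hX
      exact mem_filter.2 ⟨h1, h3⟩
    intro X hX hXA
    by_contra hXD
    have h1 := sum_sdiff (f := w) hsub
    have h2 : X ∈ H.filter (fun X => (X ∩ A).Nonempty) \ H.filter (fun X => X ⊆ D ∧ (X ∩ A).Nonempty) := by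
      rw [mem_sdiff, mem_filter, mem_filter]
      exact ⟨⟨hX, hXA⟩, fun h => hXD h.2.1⟩
    have h3 : w X ≤ ∑ Y ∈ H.filter (fun X => (X ∩ A).Nonempty) \
        H.filter (fun X => X ⊆ D ∧ (X ∩ A).Nonempty), w Y := by
      refine single_le_sum (f := w) (fun Y hY => ?_) h2
      have := hH.w_pos (mem_filter.1 (mem_sdiff.1 hY).1).1
      linarith
    have h4 := hH.w_pos hX
    linarith
  have hin2 : ∀ X ∈ H, (X ∩ (Q ∪ A)).Nonempty → X ⊆ D := by
    intro X hX hXQ
    rw [inter_union_distrib_left, union_nonempty] at hXQ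
    rcases hXQ with h | h
    · rcases hfat.2.2.2.2.1 X hX h with h1 | h1
      · rw [hDdef]; exact h1
      · exact absurd (by rw [hDdef]; exact h1) (hno X hX)
    · exact hin X hX h
  have hnb : nbr E (Q ∪ A) ⊆ D \ (Q ∪ A) := by
    intro y hy
    obtain ⟨-, hy1, z, hz, hzy⟩ := mem_filter.1 hy
    obtain ⟨X, hX, hXe⟩ := hS.cov _ hzy
    have h1 : X ⊆ D := hin2 X hX ⟨z, mem_inter.2 ⟨hXe (mem_insert_self _ _), hz⟩⟩
    exact mem_sdiff.2 ⟨h1 (hXe (mem_insert_of_mem (mem_singleton_self _))), hy1⟩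
  obtain ⟨y, hyA, hy0⟩ := exists_pos_of_mass_pos (by omega : 0 < mass m A)
  have hyQ : y ∉ Q := by
    intro hyQ
    have := le_mass m (mem_inter.2 ⟨hyA, hyQ⟩)
    omega
  have hone : ∃ z, nbr E (Q ∪ A) ⊆ {z} := by
    have hyD := hAD hyA
    rw [hDdef, mem_insert, mem_insert] at hyD
    rcases hyD with rfl | rfl | h
    · refine ⟨v, fun z hz => ?_⟩
      have h1 := mem_sdiff.1 (hnb hz)
      rw [hDdef, mem_insert, mem_insert, mem_union] at h1
      rcases h1 with ⟨rfl | rfl | h1, h2⟩
      · exact absurd (Or.inr hyA) h2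
      · exact mem_singleton_self _
      · exact absurd (Or.inl h1) h2
    · refine ⟨u, fun z hz => ?_⟩
      have h1 := mem_sdiff.1 (hnb hz)
      rw [hDdef, mem_insert, mem_insert, mem_union] at h1
      rcases h1 with ⟨rfl | rfl | h1, h2⟩
      · exact mem_singleton_self _
      · exact absurd (Or.inr hyA) h2
      · exact absurd (Or.inl h1) h2
    · exact absurd h hyQ
  obtain ⟨z, hz⟩ := hone
  have hne : (Q ∪ A).Nonempty := ⟨x, mem_union_left _ hx.2.2.1⟩
  have h1 := gg_of_nbr_one hE hS (by omega) hne hz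
  have h2 := hm.1 _ hne
  have h3 := mass_union_inter m Q A
  rw [inter_comm Q A, hC0, hx.2.2.2.2, hmA] at h3
  refine hx.2.1 (Q ∪ A) (mem_union_left _ hx.2.2.1) ?_
  unfold Tight
  have h4 : (mass m (Q ∪ A) : ℤ) = 2 := by
    have : mass m (Q ∪ A) = 2 := by omega
    exact_mod_cast this
  rw [h4] at h2 ⊢
  omega

theorem tightMin_disjoint {E H : Finset (Finset α)} (hE : IsG E) (hS : Sys E H)
    (hn : 4 ≤ Fintype.card α) {m : α → ℕ} (hm : Dem E H m) {A Q : Finset α} {x : α}
    (hA : TightMin H m A) (hx : FreeAt E H m x Q) : Disjoint A Q := by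
  by_contra hdis
  rw [disjoint_iff_inter_eq_empty, ← Ne, ← nonempty_iff_ne_empty] at hdis
  have hH := hS.indep
  obtain ⟨u, v, hN, hc, hfat⟩ := free_nbr hE hS hn hm hx
  have hxA : x ∉ A := fun h => hx.2.1 A h hA.1
  have hC0 : mass m (A ∩ Q) = 0 := by
    have h1 : x ∉ A ∩ Q := fun h => hxA (mem_inter.1 h).1
    have h2 : mass m (insert x (A ∩ Q)) ≤ mass m Q :=
      mass_mono m (insert_subset hx.2.2.1 inter_subset_right)
    rw [mass_insert m h1, hx.1, hx.2.2.2.2] at h2
    omega
  have hQD : Q ⊆ insert u (insert v Q) := (subset_insert _ _).trans (subset_insert _ _)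
  by_cases hX : ∃ X ∈ H, insert u (insert v Q) ⊆ X
  · -- case 1
    obtain ⟨X, hX, hDX⟩ := hX
    have hX1 : ∀ Y ∈ H, (Y ∩ Q).Nonempty → Y = X := by
      intro Y hY hYQ
      by_contra hne
      have h1 := hH.thin hY hX hne
      rcases hfat.2.2.2.2.1 Y hY hYQ with h2 | h2
      · rw [inter_eq_left.2 (h2.trans hDX)] at h1
        have := hH.two Y hY
        omega
      · have h3 : Q ⊆ Y ∩ X := subset_inter (hQD.trans h2) (hQD.trans hDX)
        have h4 := card_le_card h3
        have h5 := hfat.2.2.2.1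
        omega
    refine m2_big hm.1 hA.1 (subset_union_left : A ⊆ A ∪ Q) ?_ ?_ ?_
    · intro h
      exact hxA (h ▸ mem_union_right _ hx.2.2.1)
    · have h3 := mass_union_inter m A Q
      rw [hC0, hx.2.2.2.2] at h3
      omega
    · intro Y hY hYQ
      rw [inter_union_distrib_left, union_nonempty] at hYQ
      rcases hYQ with h | h
      · exact h
      · rw [hX1 Y hY h]
        obtain ⟨c, hc⟩ := hdis
        exact ⟨c, mem_inter.2 ⟨hDX (hQD (mem_inter.1 hc).2), (mem_inter.1 hc).1⟩⟩
  · push Not at hX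
    have hD : Rig H (insert u (insert v Q)) := by
      rcases hfat.rig_or hH with h | ⟨X, h1, h2⟩
      · exact h
      · exact absurd h2 (hX X h1)
    have h1 := kk_sub hH (univ \ A) (insert u (insert v Q))
    rw [hD.2, add_zero] at h1
    have h2 := gg_eq H A
    have hAt := hA.1
    unfold Tight at hAt
    have e2 : (univ \ A) ∩ insert u (insert v Q) = insert u (insert v Q) \ A := by
      ext z
      simp only [mem_inter, mem_sdiff, mem_univ, true_and]
      exact and_comm
    rw [e2] at h1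
    by_cases hB : 2 ≤ (insert u (insert v Q) \ A).card
    · have h3 := hH.nonneg _ hB
      by_cases hAD : A ⊆ insert u (insert v Q)
      · have e1 : (univ \ A) ∪ insert u (insert v Q) = univ := by
          ext z
          simp only [mem_union, mem_sdiff, mem_univ, true_and, iff_true]
          by_cases hz : z ∈ A
          · exact Or.inr (hAD hz)
          · exact Or.inl hz
        rw [e1] at h1
        have h4 : dof H = kk H univ := rfl
        have h5 : (1 : ℤ) ≤ mass m A := by exact_mod_cast hA.2.1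
        have h6 : (mass m A : ℤ) = 1 := by linarith
        refine m2_rest hE hS hn hm hx hfat hX hC0 hAD hD (by linarith) (by exact_mod_cast h6) ?_
        linarith
      · have hne : (A \ insert u (insert v Q)).Nonempty := by
          rw [sdiff_nonempty]
          exact hAD
        have e1 : univ \ (A \ insert u (insert v Q)) = (univ \ A) ∪ insert u (insert v Q) := by
          ext z
          simp only [mem_union, mem_sdiff, mem_univ, true_and]
          tauto
        have h4 := gg_eq H (A \ insert u (insert v Q))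
        rw [e1] at h4
        have h5 := hm.1 _ hne
        have h6 := mass_mono m (sdiff_subset : A \ insert u (insert v Q) ⊆ A)
        have h6' : (mass m (A \ insert u (insert v Q)) : ℤ) ≤ mass m A := by exact_mod_cast h6
        have h7 : (mass m (A \ insert u (insert v Q)) : ℤ) = mass m A := by linarith
        have h8 : Tight H m (A \ insert u (insert v Q)) := by
          unfold Tight
          linarith
        have h9 := hA.2.2 _ sdiff_subset h8 (by exact_mod_cast h7)
        obtain ⟨c, hc⟩ := hdis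
        have h10 : c ∈ A \ insert u (insert v Q) := by
          rw [h9]
          exact (mem_inter.1 hc).1
        exact (mem_sdiff.1 h10).2 (hQD (mem_inter.1 hc).2)
    · -- case 2b
      have hxB : x ∈ insert u (insert v Q) \ A := mem_sdiff.2 ⟨hQD hx.2.2.1, hxA⟩
      have hsing : ∀ z ∈ insert u (insert v Q), z ≠ x → z ∈ A := by
        intro z hz hzx
        by_contra hzA
        exact hB (one_lt_card.2 ⟨z, mem_sdiff.2 ⟨hz, hzA⟩, x, hxB, hzx⟩)
      refine m2_big hm.1 hA.1 (subset_insert x A) ?_ ?_ ?_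
      · intro h
        exact hxA (h ▸ mem_insert_self _ _)
      · rw [mass_insert m hxA, hx.1]
        omega
      · intro Y hY hYx
        by_cases hxY : x ∈ Y
        · have h3 : Y ⊆ insert u (insert v Q) := by
            rcases hfat.2.2.2.2.1 Y hY ⟨x, mem_inter.2 ⟨hxY, hx.2.2.1⟩⟩ with h3 | h3
            · exact h3
            · exact absurd h3 (hX Y hY)
          obtain ⟨z, hz, hzx⟩ : ∃ z ∈ Y, z ≠ x := by
            obtain ⟨a, ha, b, hb, hab⟩ := one_lt_card.1 (by
              have := hH.two Y hY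
              omega : 1 < Y.card)
            by_cases hax : a = x
            · exact ⟨b, hb, fun h => hab (hax.trans h.symm)⟩
            · exact ⟨a, ha, hax⟩
          exact ⟨z, mem_inter.2 ⟨hz, hsing z (h3 hz) hzx⟩⟩
        · obtain ⟨z, hz⟩ := hYx
          rw [mem_inter, mem_insert] at hz
          rcases hz with ⟨hz1, rfl | hz2⟩
          · exact absurd hz1 hxY
          · exact ⟨z, mem_inter.2 ⟨hz1, hz2⟩⟩

end Pool.Agent.GRA
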