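import Pool.Agent.GRA.M2

/-!
# GRA/M3: the lower bound

PROOF of `sum_touch`: double counting: `Σ_{A ∈ P} |{f ∈ F : f ∩ A ≠ ∅}| ≤ Σ_f |f| = 2|F|` because the sets in `P` are
pairwise disjoint and each `f` has two elements.

PROOF of `minmax`. `MC (H ∪ F)` (`MC_sys'`), `dof H + 1 ≤ |F|` (`dof_lt`), `d = dof H ≥ 0`. `kk H ∅ = -3`,
`kk H {y} = -1`, so `gg H univ = d + 4`, `gg H (univ \ {y}) = d + 2`.
Case I: some tight `C` with `mass C ≥ 1` has `|univ \ C| ≤ 1`. Claim `mass m univ ≤ d + 5 ≤ |F| + 4 ≤ 2|F|`. If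
`C = univ`: `mass = d + 4`. If `C = univ \ {y}`: `mass m univ = d + 2 + m y`. If `m y = 0` fine. Otherwise `tight_or`:
`m y = 1` (fine) or `y ∈ C'` tight; if `C ∩ C' ≠ ∅`, `C ∪ C' = univ` is tight (`dem_union`): `mass = d + 4`; otherwise
`C' = {y}`, `m y = gg H {y} = 3 - sTo H {y} ≤ 3`.
Case II: all tight `C` with `mass ≥ 1` have `|univ \ C| ≥ 2`, so `gg H C ≤ d + 1`.
 IIa: some `FreeAt x Q` with `insert u (insert v Q) = univ` (`u, v` from `free_nbr`): `univ \ Q = {u,v}`,
 `0 ≥ gg H Q = d + 1 - kk H {u,v} ≥ d` (`kk_pair_le`), so `d = 0`. `mass m univ = 1 + m u + m v`, and `m u ≤ 1`, `m v ≤ 1`: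
 by `tight_or`, `m u = 1` or `m u ≤ mass C = gg H C ≤ d + 1 = 1`. So `mass m univ ≤ 3 ≤ 2|F|`.
 IIb: otherwise. Let `𝓜` be the family of the maximal tight sets of mass ≥ 1: pairwise disjoint by `dem_union`.
 For `M ∈ 𝓜` let `A_M ⊆ M` be `TightMin` with `mass A_M = mass M`. Let `T` be the set of support vertices in no tight
 set; for `x ∈ T`, `tight_or` gives `Q_x` with `FreeAt x Q_x`. Every support vertex is in a member of `𝓜` or in `T`
 (and then `m x = 1`): `mass m univ = Σ_𝓜 mass M + |T|`. The sets `A_M` (`M ∈ 𝓜`) and `Q_x` (`x ∈ T`) are pairwise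
 disjoint (`free_disjoint`, `tightMin_disjoint`) and nonempty. `mass A_M = gg H A_M ≤ #{f ∈ F : f meets A_M}`
 (`gg_le_touch`). `1 ≤ #{f ∈ F : f meets Q_x}`: otherwise `Q_x` is closed for `(E ∪ F, {u,v})`, and with
 `z ∉ insert u (insert v Q_x)` this contradicts `Conn (E ∪ F) 2`. `sum_touch` gives `mass m univ ≤ 2|F|`.
-/

namespace Pool.Agent.GRA

open Finset

variable {α : Type*} [Fintype α] [DecidableEq α]

private theorem sum_touch_ix {ι : Type*} [DecidableEq ι] {F : Finset (Finset α)} (hF : IsG F)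
    (I : Finset ι) (S : ι → Finset α)
    (hS : ∀ i ∈ I, ∀ j ∈ I, i ≠ j → Disjoint (S i) (S j)) :
    ∑ i ∈ I, (F.filter (fun f => (f ∩ S i).Nonempty)).card ≤ 2 * F.card := by
  classical
  have h1 : ∑ i ∈ I, (F.filter (fun f => (f ∩ S i).Nonempty)).card =
      ∑ f ∈ F, (I.filter (fun i => (f ∩ S i).Nonempty)).card := by
    simp only [card_filter]
    exact sum_comm
  rw [h1]
  have h2 : ∀ f ∈ F, (I.filter (fun i => (f ∩ S i).Nonempty)).card ≤ 2 := by
    intro f hf
    rw [← hF f hf]
    have h3 : ∀ i, ∃ a, i ∈ I.filter (fun i => (f ∩ S i).Nonempty) → a ∈ f ∩ S i := by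
      intro i
      by_cases hi : (f ∩ S i).Nonempty
      · exact ⟨hi.choose, fun _ => hi.choose_spec⟩
      · by_cases hf0 : f.Nonempty
        · exact ⟨hf0.choose, fun h => absurd (mem_filter.1 h).2 hi⟩
        · have := hF f hf
          rw [not_nonempty_iff_eq_empty.1 hf0] at this
          simp at this
    choose g hg using h3
    refine card_le_card_of_injOn g (fun i hi => (mem_inter.1 (hg i hi)).1) ?_
    intro i hi j hj hij
    by_contra hne
    have hi' := mem_coe.1 hi
    have hj' := mem_coe.1 hj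
    have h4 := hS i (mem_filter.1 hi').1 j (mem_filter.1 hj').1 hne
    have h5 := (mem_inter.1 (hg i hi')).2
    have h6 := (mem_inter.1 (hg j hj')).2
    rw [← hij] at h6
    exact disjoint_left.1 h4 h5 h6
  calc ∑ f ∈ F, (I.filter (fun i => (f ∩ S i).Nonempty)).card ≤ ∑ f ∈ F, 2 := sum_le_sum h2
    _ = 2 * F.card := by rw [sum_const, smul_eq_mul, mul_comm]

theorem sum_touch {F P : Finset (Finset α)} (hF : IsG F)
    (hP : ∀ A ∈ P, ∀ B ∈ P, A ≠ B → Disjoint A B) :
    ∑ A ∈ P, (F.filter (fun f => (f ∩ A).Nonempty)).card ≤ 2 * F.card :=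
  sum_touch_ix hF P id hP

private theorem m3_gg_univ {H : Finset (Finset α)} (hH : Indep H) : gg H univ = dof H + 4 := by
  rw [gg_eq, sdiff_self]
  unfold kk w
  rw [sIn_eq_zero hH (by simp)]
  simp
  ring

private theorem m3_gg_compl {H : Finset (Finset α)} (hH : Indep H) (y : α) :
    gg H (univ \ {y}) = dof H + 2 := by
  rw [gg_compl]
  unfold kk w
  rw [sIn_eq_zero hH (by simp)]
  simp
  ring

private theorem m3_caseI {E H : Finset (Finset α)} (hS : Sys E H) {m : α → ℕ}
    (hm : MinDem E H m) {F : Finset (Finset α)} (h4 : 4 ≤ F.card)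
    (hd : dof H + 1 ≤ (F.card : ℤ)) {C : Finset α} (hC : Tight H m C)
    (hc1 : (univ \ C).card ≤ 1) : mass m univ ≤ 2 * F.card := by
  have hH := hS.indep
  have hgu := m3_gg_univ (α := α) hH
  have h4' : (4 : ℤ) ≤ F.card := by exact_mod_cast h4
  suffices h : (mass m univ : ℤ) ≤ 2 * F.card by exact_mod_cast h
  rcases Nat.le_one_iff_eq_zero_or_eq_one.1 hc1 with h0 | h1
  · have h2 : C = univ := by
      have := card_eq_zero.1 h0
      rw [sdiff_eq_empty_iff_subset] at this
      exact subset_antisymm (subset_univ C) this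
    unfold Tight at hC
    rw [h2, hgu] at hC
    linarith
  · obtain ⟨y, hy⟩ := card_eq_one.1 h1
    have h2 : C = univ \ {y} := by
      rw [← hy, Finset.sdiff_sdiff_eq_self (subset_univ C)]
    have h3 := m3_gg_compl hH y
    have h5 : mass m univ = m y + mass m C := by
      have := mass_compl m {y}
      rw [← h2] at this
      rw [← this]
      have h6 : mass m {y} = m y := sum_singleton _ _
      omega
    have h5' : (mass m univ : ℤ) = m y + mass m C := by exact_mod_cast h5
    unfold Tight at hC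
    rw [h2] at hC
    rw [← h2] at hC
    have hC' : gg H C = (mass m C : ℤ) := hC
    have h3' : gg H C = dof H + 2 := by rw [h2]; exact h3
    by_cases hy0 : m y = 0
    · rw [hy0] at h5'
      push_cast at h5'
      linarith
    · rcases tight_or hm (Nat.pos_of_ne_zero hy0) with ⟨C', hyC', hC'2⟩ | ⟨Q, hQ⟩
      · by_cases hi : (C ∩ C').Nonempty
        · have h7 := (dem_union hH hm.1 (by exact hC') hC'2 hi).1
          have h8 : C ∪ C' = univ := by
            apply subset_antisymm (subset_univ _)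
            intro z _
            by_cases hz : z = y
            · exact mem_union_right _ (hz ▸ hyC')
            · refine mem_union_left _ ?_
              rw [h2]
              exact mem_sdiff.2 ⟨mem_univ _, fun h => hz (mem_singleton.1 h)⟩
          rw [h8] at h7
          unfold Tight at h7
          rw [hgu] at h7
          linarith
        · have h7 : C' = {y} := by
            apply subset_antisymm
            · intro z hz
              rw [mem_singleton]
              by_contra hzy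
              refine hi ⟨z, mem_inter.2 ⟨?_, hz⟩⟩
              rw [h2]
              exact mem_sdiff.2 ⟨mem_univ _, fun h => hzy (mem_singleton.1 h)⟩
            · intro z hz
              rw [mem_singleton] at hz
              rw [hz]
              exact hyC'
          unfold Tight at hC'2
          rw [h7] at hC'2
          have h8 : mass m {y} = m y := sum_singleton _ _
          rw [h8] at hC'2
          unfold gg at hC'2
          have h9 := sTo_nonneg hH {y}
          rw [card_singleton] at hC'2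
          push_cast at hC'2
          linarith
      · rw [hQ.1] at h5'
        push_cast at h5'
        linarith

private theorem m3_caseIIa {E H : Finset (Finset α)} (hS : Sys E H) {m : α → ℕ}
    (hm : MinDem E H m) {F : Finset (Finset α)} (h4 : 4 ≤ F.card)
    (hII : ∀ C, Tight H m C → 1 ≤ mass m C → 2 ≤ (univ \ C).card) {x u v : α} {Q : Finset α}
    (hx : FreeAt E H m x Q) (hfat : FatAt H Q u v) (hun : insert u (insert v Q) = univ) :
    mass m univ ≤ 2 * F.card := by
  have hH := hS.indep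
  have hQ : Q.Nonempty := ⟨x, hx.2.2.1⟩
  have h1 := free_zero hm.1 hx subset_rfl hQ
  have h2 : univ \ Q = {u, v} := by
    rw [← hun]
    ext z
    simp only [mem_sdiff, mem_insert, mem_singleton]
    constructor
    · rintro ⟨h | h | h, h'⟩
      · exact Or.inl h
      · exact Or.inr h
      · exact absurd h h'
    · rintro (rfl | rfl)
      · exact ⟨Or.inl rfl, hfat.2.1⟩
      · exact ⟨Or.inr (Or.inl rfl), hfat.2.2.1⟩
  have h3 := gg_eq H Q
  rw [h2] at h3
  have h5 := kk_pair_le hH hfat.1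
  have hle : ∀ w, m w ≤ 1 := by
    intro w
    by_cases hw : m w = 0
    · omega
    · rcases tight_or hm (Nat.pos_of_ne_zero hw) with ⟨C, hwC, hC⟩ | ⟨Q', hQ'⟩
      · have h6 := le_mass m hwC
        have h7 := hII C hC (by omega)
        have h8 := gg_le hH h7
        unfold Tight at hC
        have h9 : (m w : ℤ) ≤ mass m C := by exact_mod_cast h6
        have h10 : (m w : ℤ) ≤ 1 := by linarith
        exact_mod_cast h10
      · exact hQ'.1.le
  have hu : u ∉ insert v Q := by
    rw [mem_insert]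
    rintro (h | h)
    · exact hfat.1 h
    · exact hfat.2.1 h
  rw [← hun, mass_insert m hu, mass_insert m hfat.2.2.1, hx.2.2.2.2]
  have := hle u
  have := hle v
  omega

theorem minmax {E H : Finset (Finset α)} (hE : IsG E) (hS : Sys E H)
    (hn : 4 ≤ Fintype.card α) {m : α → ℕ} (hm : MinDem E H m) {F : Finset (Finset α)}
    (hF : IsG F) (hMC : MC (E ∪ F)) (h3 : Conn (E ∪ F) 2) (h4 : 4 ≤ F.card) :
    mass m univ ≤ 2 * F.card := by
  classical
  have hH := hS.indep
  have hMC' := MC_sys' hS hMC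
  have hd := dof_lt (by omega) hH hF hMC' (card_pos.1 (by omega))
  by_cases hI : ∃ C, Tight H m C ∧ 1 ≤ mass m C ∧ (univ \ C).card ≤ 1
  · obtain ⟨C, hC, -, hc⟩ := hI
    exact m3_caseI hS hm h4 hd hC hc
  have hII : ∀ C, Tight H m C → 1 ≤ mass m C → 2 ≤ (univ \ C).card := by
    intro C hC h1
    by_contra hlt
    exact hI ⟨C, hC, h1, by omega⟩
  by_cases hIIa : ∃ x Q u v, FreeAt E H m x Q ∧ FatAt H Q u v ∧ insert u (insert v Q) = univ
  · obtain ⟨x, Q, u, v, hx, hfat, hun⟩ := hIIa
    exact m3_caseIIa hS hm h4 hII hx hfat hun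
  push Not at hIIa
  -- maximal tight sets
  obtain ⟨𝓜, h𝓜⟩ : ∃ 𝓜 : Finset (Finset α), 𝓜 = univ.filter (fun M => Tight H m M ∧ 1 ≤ mass m M ∧
      ∀ C, Tight H m C → 1 ≤ mass m C → M ⊆ C → C = M) := ⟨_, rfl⟩
  obtain ⟨T, hT⟩ : ∃ T : Finset α, T = univ.filter (fun x => 0 < m x ∧ ∀ C, Tight H m C → x ∉ C) :=
    ⟨_, rfl⟩
  have hmem𝓜 : ∀ M, M ∈ 𝓜 ↔ (Tight H m M ∧ 1 ≤ mass m M ∧
      ∀ C, Tight H m C → 1 ≤ mass m C → M ⊆ C → C = M) := by
    intro M
    rw [h𝓜, mem_filter]
    simp
  have hmemT : ∀ x, x ∈ T ↔ (0 < m x ∧ ∀ C, Tight H m C → x ∉ C) := by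
    intro x
    rw [hT, mem_filter]
    simp
  have hfree : ∀ x ∈ T, ∃ Q, FreeAt E H m x Q := by
    intro x hx
    obtain ⟨h1, h2⟩ := (hmemT x).1 hx
    rcases tight_or hm h1 with ⟨C, hxC, hC⟩ | h
    · exact absurd hxC (h2 C hC)
    · exact h
  have hmax : ∀ C, Tight H m C → 1 ≤ mass m C → ∃ M ∈ 𝓜, C ⊆ M := by
    intro C hC h1
    let S : Finset (Finset α) := univ.filter (fun M => Tight H m M ∧ 1 ≤ mass m M ∧ C ⊆ M)
    have hS' : S.Nonempty := ⟨C, mem_filter.2 ⟨mem_univ _, hC, h1, subset_rfl⟩⟩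
    obtain ⟨M, hMS, hmx⟩ := exists_max_image S card hS'
    obtain ⟨_, hM, hM1, hCM⟩ := mem_filter.1 hMS
    refine ⟨M, (hmem𝓜 M).2 ⟨hM, hM1, fun C' hC' h1' hMC' => ?_⟩, hCM⟩
    exact (eq_of_subset_of_card_le hMC' (hmx C' (mem_filter.2 ⟨mem_univ _, hC', h1',
      hCM.trans hMC'⟩))).symm
  have hmind : ∀ M ∈ 𝓜, ∃ A, A ⊆ M ∧ TightMin H m A ∧ mass m A = mass m M := by
    intro M hM
    obtain ⟨h1, h2, -⟩ := (hmem𝓜 M).1 hM
    exact exists_tightMin h1 h2
  have ha : ∀ M, ∃ A, M ∈ 𝓜 → A ⊆ M ∧ TightMin H m A ∧ mass m A = mass m M := by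
    intro M
    by_cases hM : M ∈ 𝓜
    · obtain ⟨A, hA⟩ := hmind M hM
      exact ⟨A, fun _ => hA⟩
    · exact ⟨∅, fun h => absurd h hM⟩
  choose a ha using ha
  have hq : ∀ x, ∃ Q, x ∈ T → FreeAt E H m x Q := by
    intro x
    by_cases hx : x ∈ T
    · obtain ⟨Q, hQ⟩ := hfree x hx
      exact ⟨Q, fun _ => hQ⟩
    · exact ⟨∅, fun h => absurd h hx⟩
  choose q hq using hq
  -- the bound for the mass
  have hmass : mass m univ ≤ ∑ M ∈ 𝓜, mass m M + T.card := by
    have e1 : ∑ M ∈ 𝓜, mass m M = ∑ v, ∑ M ∈ 𝓜, (if v ∈ M then m v else 0) := by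
      rw [sum_comm]
      refine sum_congr rfl fun M _ => ?_
      unfold mass
      rw [← sum_filter]
      congr 1
      ext z
      simp
    have e2 : T.card = ∑ v, (if v ∈ T then 1 else 0) := by
      rw [sum_boole]
      simp
    rw [e1, e2, ← sum_add_distrib]
    refine sum_le_sum fun v _ => ?_
    by_cases hv : m v = 0
    · omega
    · rcases tight_or hm (Nat.pos_of_ne_zero hv) with ⟨C, hvC, hC⟩ | ⟨Q, hQ⟩
      · obtain ⟨M, hM, hCM⟩ := hmax C hC (by have := le_mass m hvC; omega)
        have h1 : m v ≤ ∑ M ∈ 𝓜, (if v ∈ M then m v else 0) := by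
          have h2 : (if v ∈ M then m v else 0) ≤ ∑ M ∈ 𝓜, (if v ∈ M then m v else 0) :=
            single_le_sum (f := fun M => if v ∈ M then m v else 0) (fun _ _ => Nat.zero_le _) hM
          rw [if_pos (hCM hvC)] at h2
          exact h2
        omega
      · by_cases hvT : v ∈ T
        · rw [if_pos hvT, hQ.1]
          omega
        · exfalso
          apply hvT
          rw [hmemT]
          exact ⟨Nat.pos_of_ne_zero hv, fun C hC hvC => hQ.2.1 C hvC hC⟩
  -- the touching bounds
  have ht1 : ∀ M ∈ 𝓜, mass m M ≤ (F.filter (fun f => (f ∩ a M).Nonempty)).card := by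
    intro M hM
    obtain ⟨h1, h2, h5⟩ := ha M hM
    have h6 := hII _ h2.1 h2.2.1
    have hne : (a M).Nonempty := by
      obtain ⟨z, hz, -⟩ := exists_pos_of_mass_pos (by have := h2.2.1; omega : 0 < mass m (a M))
      exact ⟨z, hz⟩
    have h7 := gg_le_touch (by omega) hH hF hMC' hne h6
    have h8 := h2.1
    unfold Tight at h8
    rw [h8, h5] at h7
    exact_mod_cast h7
  have ht2 : ∀ x ∈ T, 1 ≤ (F.filter (fun f => (f ∩ q x).Nonempty)).card := by
    intro x hx
    have hfx := hq x hx
    by_contra hlt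
    have h0 : (F.filter (fun f => (f ∩ q x).Nonempty)) = ∅ := card_eq_zero.1 (by omega)
    obtain ⟨u, v, hN, hc, hfat⟩ := free_nbr hE hS hn hm.1 hfx
    have hne := hIIa x (q x) u v hfx hfat
    obtain ⟨z, hz⟩ : ∃ z, z ∉ insert u (insert v (q x)) := by
      by_contra hall
      push Not at hall
      exact hne (subset_antisymm (subset_univ _) fun z _ => hall z)
    have hc' : Closed (E ∪ F) {u, v} (q x) := by
      refine ⟨hc.1, fun s hs t ht hst => ?_⟩
      rcases mem_union.1 hst with h | h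
      · exact hc.2 s hs t ht h
      · exfalso
        have h5 : ({s, t} : Finset α) ∈ F.filter (fun f => (f ∩ q x).Nonempty) :=
          mem_filter.2 ⟨h, s, mem_inter.2 ⟨mem_insert_self _ _, hs⟩⟩
        rw [h0] at h5
        exact absurd h5 (notMem_empty _)
    have hxuv : x ∉ ({u, v} : Finset α) := fun h => disjoint_left.1 hc.1 hfx.2.2.1 h
    have hzuv : z ∉ ({u, v} : Finset α) := by
      intro h
      rw [mem_insert, mem_singleton] at h
      rcases h with rfl | rfl
      · exact hz (mem_insert_self _ _)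
      · exact hz (mem_insert_of_mem (mem_insert_self _ _))
    have h6 := h3 {u, v} (card_le_two) x z hxuv hzuv (q x) hc' hfx.2.2.1
    exact hz (mem_insert_of_mem (mem_insert_of_mem h6))
  have hfin := sum_touch_ix hF (𝓜.disjSum T) (Sum.elim a q) (by
    rintro (M | x) hi (M' | y) hj hne
    · rw [inl_mem_disjSum] at hi hj
      have hMM : M ≠ M' := fun h => hne (by rw [h])
      simp only [Sum.elim_inl]
      refine Disjoint.mono (ha M hi).1 (ha M' hj).1 ?_
      by_contra hdis
      rw [disjoint_iff_inter_eq_empty, ← Ne, ← nonempty_iff_ne_empty] at hdis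
      obtain ⟨h1, h2, h5⟩ := (hmem𝓜 M).1 hi
      obtain ⟨k1, k2, k5⟩ := (hmem𝓜 M').1 hj
      have h6 := (dem_union hH hm.1 h1 k1 hdis).1
      have h7 : 1 ≤ mass m (M ∪ M') := h2.trans (mass_mono m subset_union_left)
      have h8 := h5 _ h6 h7 subset_union_left
      have h9 := k5 _ h6 h7 subset_union_right
      exact hMM (h8.symm.trans h9)
    · rw [inl_mem_disjSum] at hi
      rw [inr_mem_disjSum] at hj
      simp only [Sum.elim_inl, Sum.elim_inr]
      exact tightMin_disjoint hE hS hn hm.1 (ha M hi).2.1 (hq y hj)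
    · rw [inl_mem_disjSum] at hj
      rw [inr_mem_disjSum] at hi
      simp only [Sum.elim_inl, Sum.elim_inr]
      exact (tightMin_disjoint hE hS hn hm.1 (ha M' hj).2.1 (hq x hi)).symm
    · rw [inr_mem_disjSum] at hi hj
      have hxy : x ≠ y := fun h => hne (by rw [h])
      simp only [Sum.elim_inr]
      exact free_disjoint hE hS hn hm.1 hxy (hq x hi) (hq y hj))
  rw [sum_disjSum] at hfin
  simp only [Sum.elim_inl, Sum.elim_inr] at hfin
  have h5 := sum_le_sum ht1
  have h6 := sum_le_sum ht2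
  rw [sum_const, smul_eq_mul, mul_one] at h6
  omega

end Pool.Agent.GRA
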