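import Pool.Agent.GRA.SG2
import Pool.Agent.GRA.EN
import Pool.Agent.GRA.GE2

/-!
# MP_d7d610_lc: assembly
-/

namespace Pool.Agent.GRA

open Pool.Agent.PT Stmt

theorem main : ∃ f : Inst → ℕ × List (ℕ × ℕ),
    Nonempty (Turing.TM2ComputableInPolyTime Inst.encode encodeOut f) ∧
    (∀ x, Solves (fun {n} G => CombGloballyRigid (n := n) G) x (f x)) ∧
    (LamanTheorem → JacksonJordanTheorem →
      ∀ x, Solves (fun {n} G => GloballyRigid (n := n) G) x (f x)) := by
  refine ⟨fun x => answer x.n (x.edges.map (fun p => ((p.1 : ℕ), (p.2 : ℕ)))), ?_, ?_, ?_⟩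
  · exact wordAlg_pt.tm2_string _ _ _ fun x => wordAlg_encode x
  · exact comb_solves
  · intro hL hJ x
    have h := comb_solves x
    exact ⟨h.verts, h.len, (geo_iff hL hJ _).2 h.good,
      fun F hF => h.least F ((geo_iff hL hJ _).1 hF)⟩

end Pool.Agent.GRA
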