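import Pool.Agent.GRA.LS

/-!
# GRA/OR1: moving a free place to a given vertex in an orientation

PROOFS. `OK n A`: arcs between different numbers `< n`. Reversing an arc `p ∈ A` keeps `insideL _ X` for
every `X` and the length (`A` is a permutation of `p :: A.erase p`), lowers `outdeg` at `p.1` by one and
raises it at `p.2` by one.
`stepA_spec`: if `outdeg A x ≥ 2` and a free arc `p` is found, `outdeg A p.2 ≤ 1`, so all out-degrees stay
`≤ 2`. Otherwise `A` is unchanged.
`iterA_spec`. Say that level `i` is free for `A` if there is `p ∈ A` with `p.1 ∈ layer n A x i`, `outdeg A p.2 < 2`.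
The layers increase with `i` (as `x < n` and entries are `< n`; see `mem_reachStep`). CLAIM: for all `k` and all
`A` with the invariants: if `outdeg A x < 2` or some level `i < k`, `i < n` is free, then
`outdeg ((stepA n x)^[k] A) x < 2`. Induction on `k`. If `outdeg A x < 2`, all steps do nothing. Otherwise let
`i` be the least free level, `p = (a,b)` the arc found by `stepA` (`filterMap … head?` finds the least level),
`A' = flip1 A p`, `outdeg A' a = outdeg A a - 1 ≤ 1`. If `i = 0`: `a = x`, `outdeg A' x < 2`. If `i ≥ 1`: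
`a ∉ layer n A x (i-1)` by minimality, so some arc `(c,a) ∈ A` has `c ∈ layer n A x (i-1)`, `c ≠ a`, so
`(c,a) ∈ A'`. All arcs used to build the layers up to `i-1` have their tail in `layer n A x (i-2) ∌ a`, so
they are in `A'` and `layer n A x j ⊆ layer n A' x j` for `j ≤ i-1`. So level `i-1` is free for `A'` and the
induction hypothesis for `k-1` applies.
With `k = n`: if some level `i < n` is free we get `outdeg B x < 2`. If not (and `outdeg A x ≥ 2`) then
`stepA n x A = A`, `B = A`; `R` = the set of all vertices of `layer n A x n` (= all vertices reachable from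
`x`, see `reachL`, `mem_reachL` with `V = List.range n`, `V.length = n`): closed under arcs (reachability);
`v ∈ R`, `v ≠ x`: `v` is the head of an arc with tail in `layer n A x i`, `i < n`, so `outdeg A v ≥ 2` since
level `i` is not free.
-/

namespace Pool.Agent.GRA

open Finset

def OK (n : ℕ) (A : List (ℕ × ℕ)) : Prop := ∀ p ∈ A, p.1 < n ∧ p.2 < n ∧ p.1 ≠ p.2

/-- The same multigraph (up to orientation). -/
def Same (A B : List (ℕ × ℕ)) : Prop :=
  (∀ X : Finset ℕ, insideL A X = insideL B X) ∧ A.length = B.length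

private theorem insideL_perm {A B : List (ℕ × ℕ)} (h : A.Perm B) (X : Finset ℕ) :
    insideL A X = insideL B X := h.countP_eq _

private theorem insideL_flip {A : List (ℕ × ℕ)} {p : ℕ × ℕ} (hp : p ∈ A) (X : Finset ℕ) :
    insideL (flip1 A p) X = insideL A X := by
  rw [insideL_perm (List.perm_cons_erase hp) X]
  unfold insideL flip1
  rw [List.countP_cons, List.countP_cons]
  have : decide (p.2 ∈ X ∧ p.1 ∈ X) = decide (p.1 ∈ X ∧ p.2 ∈ X) := by
    rw [Bool.eq_iff_iff, decide_eq_true_iff, decide_eq_true_iff, and_comm]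
  rw [this]

private theorem length_flip {A : List (ℕ × ℕ)} {p : ℕ × ℕ} (hp : p ∈ A) :
    (flip1 A p).length = A.length := by
  unfold flip1
  rw [List.length_cons, List.length_erase_of_mem hp]
  have := List.length_pos_of_mem hp
  omega

private theorem outdeg_flip {A : List (ℕ × ℕ)} {p : ℕ × ℕ} (hp : p ∈ A) (v : ℕ) :
    outdeg (flip1 A p) v + (if p.1 = v then 1 else 0) = outdeg A v + (if p.2 = v then 1 else 0) := by
  have h1 : outdeg A v = outdeg (p :: A.erase p) v := (List.perm_cons_erase hp).countP_eq _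
  rw [h1]
  unfold outdeg flip1
  rw [List.countP_cons, List.countP_cons]
  simp only [decide_eq_true_iff]
  omega

private theorem OK_flip {n : ℕ} {A : List (ℕ × ℕ)} {p : ℕ × ℕ} (hA : OK n A) (hp : p ∈ A) :
    OK n (flip1 A p) := by
  intro q hq
  unfold flip1 at hq
  rcases List.mem_cons.1 hq with rfl | hq
  · obtain ⟨h1, h2, h3⟩ := hA p hp
    exact ⟨h2, h1, h3.symm⟩
  · exact hA q (List.mem_of_mem_erase hq)

private theorem Same.refl (A : List (ℕ × ℕ)) : Same A A := ⟨fun _ => rfl, rfl⟩

private theorem Same.trans {A B C : List (ℕ × ℕ)} (h : Same A B) (h' : Same B C) : Same A C :=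
  ⟨fun X => (h.1 X).trans (h'.1 X), h.2.trans h'.2⟩

private theorem head_none {β : Type*} {f : ℕ → Option β} {n : ℕ}
    (h : ((List.range n).filterMap f).head? = none) : ∀ i < n, f i = none := by
  intro i hi
  rw [List.head?_eq_none_iff, List.filterMap_eq_nil_iff] at h
  exact h i (List.mem_range.2 hi)

private theorem head_some {β : Type*} {f : ℕ → Option β} {n : ℕ} {b : β}
    (h : ((List.range n).filterMap f).head? = some b) :
    ∃ i < n, f i = some b ∧ ∀ j < i, f j = none := by
  induction n with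
  | zero => simp at h
  | succ n ih =>
    rw [List.range_succ, List.filterMap_append, List.head?_append] at h
    cases hc : ((List.range n).filterMap f).head? with
    | some c =>
      rw [hc, Option.some_or] at h
      obtain ⟨i, hi, h1, h2⟩ := ih (by rw [hc, h])
      exact ⟨i, by omega, h1, h2⟩
    | none =>
      rw [hc, Option.none_or] at h
      refine ⟨n, by omega, ?_, fun j hj => head_none hc j hj⟩
      cases hf : f n with
      | none => simp [hf] at h
      | some c => simpa [hf] using h

private theorem free_some {n x i : ℕ} {A : List (ℕ × ℕ)} {p : ℕ × ℕ}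
    (h : freeArc n A x i = some p) : p ∈ A ∧ p.1 ∈ layer n A x i ∧ outdeg A p.2 < 2 := by
  unfold freeArc at h
  have h1 := List.find?_some h
  rw [Bool.and_eq_true, decide_eq_true_iff, decide_eq_true_iff] at h1
  exact ⟨List.mem_of_find?_eq_some h, h1.1, h1.2⟩

private theorem free_none {n x i : ℕ} {A : List (ℕ × ℕ)}
    (h : freeArc n A x i = none) : ∀ p ∈ A, p.1 ∈ layer n A x i → ¬ outdeg A p.2 < 2 := by
  intro p hp h1 h2
  unfold freeArc at h
  have := List.find?_eq_none.1 h p hp
  rw [Bool.and_eq_true, decide_eq_true_iff, decide_eq_true_iff] at this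
  exact this ⟨h1, h2⟩

private theorem stepA_cases (n x : ℕ) (A : List (ℕ × ℕ)) :
    (outdeg A x < 2 ∧ stepA n x A = A) ∨
    (¬ outdeg A x < 2 ∧ stepA n x A = A ∧ ∀ i < n, freeArc n A x i = none) ∨
    (¬ outdeg A x < 2 ∧ ∃ i < n, ∃ p, freeArc n A x i = some p ∧
      (∀ j < i, freeArc n A x j = none) ∧ stepA n x A = flip1 A p) := by
  by_cases h : outdeg A x < 2
  · left
    exact ⟨h, by unfold stepA; rw [if_pos h]⟩
  · right
    cases hc : ((List.range n).filterMap (freeArc n A x)).head? with
    | none =>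
      left
      refine ⟨h, ?_, head_none hc⟩
      unfold stepA
      rw [if_neg h, hc]
      rfl
    | some p =>
      right
      obtain ⟨i, hi, h1, h2⟩ := head_some hc
      refine ⟨h, i, hi, p, h1, h2, ?_⟩
      unfold stepA
      rw [if_neg h, hc]
      rfl

theorem stepA_spec {n x : ℕ} {A : List (ℕ × ℕ)} (hA : OK n A) (h2 : ∀ v, outdeg A v ≤ 2) :
    OK n (stepA n x A) ∧ Same (stepA n x A) A ∧ ∀ v, outdeg (stepA n x A) v ≤ 2 := by
  rcases stepA_cases n x A with ⟨-, h⟩ | ⟨-, h, -⟩ | ⟨-, i, -, p, hp, -, h⟩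
  · rw [h]
    exact ⟨hA, Same.refl A, h2⟩
  · rw [h]
    exact ⟨hA, Same.refl A, h2⟩
  · rw [h]
    obtain ⟨hpA, -, hp2⟩ := free_some hp
    refine ⟨OK_flip hA hpA, ⟨fun X => insideL_flip hpA X, length_flip hpA⟩, fun v => ?_⟩
    have h3 := outdeg_flip hpA v
    have h4 := h2 v
    by_cases h5 : p.2 = v
    · rw [if_pos h5] at h3
      rw [h5] at hp2
      omega
    · rw [if_neg h5] at h3
      omega

private theorem iter_inv {n x : ℕ} (k : ℕ) : ∀ {A : List (ℕ × ℕ)}, OK n A →
    (∀ v, outdeg A v ≤ 2) → OK n ((stepA n x)^[k] A) ∧ Same ((stepA n x)^[k] A) A ∧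
      ∀ v, outdeg ((stepA n x)^[k] A) v ≤ 2 := by
  induction k with
  | zero => exact fun hA h2 => ⟨hA, Same.refl _, h2⟩
  | succ k ih =>
    intro A hA h2
    rw [Function.iterate_succ_apply]
    obtain ⟨h3, h4, h5⟩ := stepA_spec (x := x) hA h2
    obtain ⟨h6, h7, h8⟩ := ih h3 h5
    exact ⟨h6, h7.trans h4, h8⟩

private theorem layer_succ {n x i v : ℕ} {A : List (ℕ × ℕ)} :
    v ∈ layer n A x (i + 1) ↔ v < n ∧ ∃ u ∈ layer n A x i, u = v ∨ (u, v) ∈ A := by
  unfold layer
  rw [Function.iterate_succ_apply', DPO.mem_reachStep, List.mem_range]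
  simp only [decide_eq_true_iff]

private theorem layer_zero {n x v : ℕ} {A : List (ℕ × ℕ)} : v ∈ layer n A x 0 ↔ v = x := by
  unfold layer
  simp

private theorem layer_lt {n x : ℕ} (hx : x < n) {A : List (ℕ × ℕ)} {i v : ℕ}
    (hv : v ∈ layer n A x i) : v < n := by
  cases i with
  | zero => rw [layer_zero] at hv; omega
  | succ i => exact (layer_succ.1 hv).1

private theorem layer_mono1 {n x : ℕ} (hx : x < n) {A : List (ℕ × ℕ)} {i v : ℕ}
    (hv : v ∈ layer n A x i) : v ∈ layer n A x (i + 1) :=
  layer_succ.2 ⟨layer_lt hx hv, v, hv, Or.inl rfl⟩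

private theorem layer_mono {n x : ℕ} (hx : x < n) {A : List (ℕ × ℕ)} {i j v : ℕ} (hij : i ≤ j)
    (hv : v ∈ layer n A x i) : v ∈ layer n A x j := by
  induction hij with
  | refl => exact hv
  | step _ ih => exact layer_mono1 hx ih

private theorem layer_back {n x : ℕ} {A : List (ℕ × ℕ)} (m : ℕ) : ∀ {v : ℕ},
    v ∈ layer n A x m → v = x ∨ ∃ i < m, ∃ u ∈ layer n A x i, (u, v) ∈ A := by
  induction m with
  | zero => intro v hv; left; rwa [layer_zero] at hv
  | succ m ih =>
    intro v hv
    obtain ⟨-, u, hu, h⟩ := layer_succ.1 hv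
    rcases h with rfl | h
    · rcases ih hu with h | ⟨i, hi, w, hw, h⟩
      · exact Or.inl h
      · exact Or.inr ⟨i, by omega, w, hw, h⟩
    · exact Or.inr ⟨m, by omega, u, hu, h⟩

private theorem layer_flip {n x : ℕ} (hx : x < n) {A : List (ℕ × ℕ)} {p : ℕ × ℕ} {j : ℕ}
    (hp : p.1 ∉ layer n A x j) (m : ℕ) : m ≤ j → ∀ {v : ℕ}, v ∈ layer n A x m →
      v ∈ layer n (flip1 A p) x m := by
  induction m with
  | zero => intro _ v hv; rw [layer_zero] at hv ⊢; exact hv
  | succ m ih =>
    intro hm v hv
    obtain ⟨h1, u, hu, h⟩ := layer_succ.1 hv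
    refine layer_succ.2 ⟨h1, u, ih (by omega) hu, ?_⟩
    rcases h with h | h
    · exact Or.inl h
    · right
      unfold flip1
      refine List.mem_cons_of_mem _ ((List.mem_erase_of_ne ?_).2 h)
      intro he
      apply hp
      rw [← he]
      exact layer_mono hx (by omega) hu

private theorem claim {n x : ℕ} (hx : x < n) (k : ℕ) : ∀ {A : List (ℕ × ℕ)}, OK n A →
    (∀ v, outdeg A v ≤ 2) →
    (outdeg A x < 2 ∨ ∃ i < k, i < n ∧ ∃ p ∈ A, p.1 ∈ layer n A x i ∧ outdeg A p.2 < 2) →
    outdeg ((stepA n x)^[k] A) x < 2 := by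
  induction k with
  | zero =>
    intro A _ _ h
    rcases h with h | ⟨i, hi, -⟩
    · exact h
    · exact absurd hi (Nat.not_lt_zero i)
  | succ k ih =>
    intro A hA h2 h
    rw [Function.iterate_succ_apply]
    obtain ⟨hA', -, h2'⟩ := stepA_spec (x := x) hA h2
    refine ih hA' h2' ?_
    rcases stepA_cases n x A with ⟨h3, h4⟩ | ⟨h3, h4, h5⟩ | ⟨h3, i, hi, p, hp, hmin, h4⟩
    · left; rw [h4]; exact h3
    · exfalso
      rcases h with h | ⟨i, -, hi, p, hp, h6, h7⟩
      · exact h3 h
      · exact free_none (h5 i hi) p hp h6 h7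
    · rw [h4]
      obtain ⟨hpA, hp1, hp2⟩ := free_some hp
      obtain ⟨-, -, hpne⟩ := hA p hpA
      have hik : i ≤ k := by
        rcases h with h | ⟨i', hi', hi'n, q, hq, h6, h7⟩
        · exact absurd h h3
        · by_contra hcon
          exact free_none (hmin i' (by omega)) q hq h6 h7
      have hd := outdeg_flip hpA p.1
      rw [if_pos rfl, if_neg (fun h => hpne h.symm)] at hd
      have hd2 := h2 p.1
      cases i with
      | zero =>
        left
        rw [layer_zero] at hp1
        rw [← hp1]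
        omega
      | succ j =>
        right
        have hnj : p.1 ∉ layer n A x j := fun h6 =>
          free_none (hmin j (by omega)) p hpA h6 hp2
        obtain ⟨-, u, hu, h7⟩ := layer_succ.1 hp1
        have hup : u ≠ p.1 := by
          rintro rfl
          exact hnj hu
        have h8 : (u, p.1) ∈ A := by
          rcases h7 with h7 | h7
          · exact absurd h7 hup
          · exact h7
        refine ⟨j, by omega, by omega, (u, p.1), ?_, layer_flip hx hnj j le_rfl hu, ?_⟩
        · unfold flip1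
          refine List.mem_cons_of_mem _ ((List.mem_erase_of_ne ?_).2 h8)
          intro he
          exact hup (congrArg Prod.fst he)
        · show outdeg (flip1 A p) p.1 < 2
          omega

theorem iterA_spec {n x : ℕ} {A : List (ℕ × ℕ)} (hx : x < n) (hA : OK n A)
    (h2 : ∀ v, outdeg A v ≤ 2) :
    OK n ((stepA n x)^[n] A) ∧ Same ((stepA n x)^[n] A) A ∧
      (∀ v, outdeg ((stepA n x)^[n] A) v ≤ 2) ∧
      (outdeg ((stepA n x)^[n] A) x < 2 ∨ ∃ R : Finset ℕ, R ⊆ range n ∧ x ∈ R ∧
        (∀ p ∈ A, p.1 ∈ R → p.2 ∈ R) ∧ ∀ v ∈ R, 2 ≤ outdeg A v) := by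
  obtain ⟨h3, h4, h5⟩ := iter_inv (x := x) n hA h2
  refine ⟨h3, h4, h5, ?_⟩
  by_cases h : outdeg A x < 2 ∨ ∃ i < n, i < n ∧ ∃ p ∈ A, p.1 ∈ layer n A x i ∧
      outdeg A p.2 < 2
  · left
    exact claim hx n hA h2 h
  · right
    rw [not_or] at h
    obtain ⟨h6, h7⟩ := h
    have hreach : ∀ t, t ∈ layer n A x n ↔
        Relation.ReflTransGen (fun u v => v ∈ List.range n ∧ decide ((u, v) ∈ A) = true) x t := by
      intro t
      rw [← DPO.mem_reachL (List.mem_range.2 hx)]
      unfold layer DPO.reachL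
      rw [List.length_range]
    refine ⟨(layer n A x n).toFinset, ?_, ?_, ?_, ?_⟩
    · intro v hv
      rw [List.mem_toFinset] at hv
      exact Finset.mem_range.2 (layer_lt hx hv)
    · rw [List.mem_toFinset, hreach]
    · intro p hp h8
      rw [List.mem_toFinset, hreach] at h8 ⊢
      exact h8.tail ⟨List.mem_range.2 (hA p hp).2.1, by simpa using hp⟩
    · intro v hv
      rw [List.mem_toFinset] at hv
      by_contra hcon
      rcases layer_back n hv with h8 | ⟨i, hi, u, hu, h8⟩
      · apply h6
        rw [← h8]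
        omega
      · exact h7 ⟨i, hi, hi, (u, v), h8, hu, by
          show outdeg A v < 2
          omega⟩

end Pool.Agent.GRA
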