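import Pool.Agent.GRA.OR1

/-!
# GRA/OR2: existence of orientations with out-degree at most two

PROOF of `orient_isSome`. Invariant of the fold: after processing the prefix `l'`, the state is `some A` with
`OK n A`, `Same A l'`, `outdeg A v ≤ 2` for all `v`.
(→) If the final state is `some A`: for `X ⊆ range n`, `insideL l X = insideL A X ≤ Σ_{v ∈ X} outdeg A v ≤ 2|X|`
(an arc inside `X` has its tail in `X`).
(←) Suppose the state is `some A` after `l'` and `insA n A e = none`, `l' ++ [e]` a prefix of `l`. By `iterA_spec`
for `e.1` and `e.2` there are `R₁ ∋ e.1`, `R₂ ∋ e.2` closed under the arcs of `A`, with all out-degrees `≥ 2`. `R = R₁ ∪ R₂`: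
every arc with tail in `R` is inside `R`, so `insideL A R ≥ Σ_{v ∈ R} outdeg A v ≥ 2|R|` and
`insideL l R ≥ insideL l' R + 1 = insideL A R + 1 > 2|R|`. Contradiction.
-/

namespace Pool.Agent.GRA

open Finset

private theorem or2_outdeg_cons (p : ℕ × ℕ) (A : List (ℕ × ℕ)) (v : ℕ) :
    outdeg (p :: A) v = outdeg A v + if p.1 = v then 1 else 0 := by
  unfold outdeg
  rw [List.countP_cons]
  simp only [decide_eq_true_eq]

private theorem or2_insideL_cons (p : ℕ × ℕ) (A : List (ℕ × ℕ)) (X : Finset ℕ) :
    insideL (p :: A) X = insideL A X + if p.1 ∈ X ∧ p.2 ∈ X then 1 else 0 := by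
  unfold insideL
  rw [List.countP_cons]
  simp only [decide_eq_true_eq]

private theorem or2_sum_outdeg_cons (p : ℕ × ℕ) (A : List (ℕ × ℕ)) (X : Finset ℕ) :
    ∑ v ∈ X, outdeg (p :: A) v = ∑ v ∈ X, outdeg A v + if p.1 ∈ X then 1 else 0 := by
  simp only [or2_outdeg_cons, sum_add_distrib, sum_ite_eq]

private theorem or2_inside_le (A : List (ℕ × ℕ)) (X : Finset ℕ) :
    insideL A X ≤ ∑ v ∈ X, outdeg A v := by
  induction A with
  | nil => simp [insideL]
  | cons p A ih =>
    rw [or2_insideL_cons, or2_sum_outdeg_cons]
    refine add_le_add ih ?_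
    by_cases h1 : p.1 ∈ X
    · rw [if_pos h1]
      split_ifs <;> omega
    · rw [if_neg h1, if_neg (fun h => h1 h.1)]

private theorem or2_inside_eq (A : List (ℕ × ℕ)) (X : Finset ℕ)
    (h : ∀ p ∈ A, p.1 ∈ X → p.2 ∈ X) : insideL A X = ∑ v ∈ X, outdeg A v := by
  induction A with
  | nil => simp [insideL, outdeg]
  | cons p A ih =>
    rw [or2_insideL_cons, or2_sum_outdeg_cons, ih (fun q hq => h q (List.mem_cons_of_mem _ hq))]
    congr 1
    by_cases h1 : p.1 ∈ X
    · rw [if_pos h1, if_pos ⟨h1, h p List.mem_cons_self h1⟩]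
    · rw [if_neg h1, if_neg (fun h => h1 h.1)]

private theorem or2_fold_none (n : ℕ) (l : List (ℕ × ℕ)) :
    l.foldl (fun o e => o.bind (fun A => insA n A e)) none = none := by
  induction l with
  | nil => rfl
  | cons e l ih =>
    rw [List.foldl_cons, Option.bind_none, ih]

private theorem or2_fold (n : ℕ) (l : List (ℕ × ℕ)) : ∀ A : List (ℕ × ℕ), OK n l → OK n A →
    (∀ v, outdeg A v ≤ 2) →
    ((l.foldl (fun o e => o.bind (fun A => insA n A e)) (some A)).isSome = true ↔
      ∀ X : Finset ℕ, X ⊆ range n → insideL A X + insideL l X ≤ 2 * X.card) := by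
  induction l with
  | nil =>
    intro A _ _ h2
    refine ⟨fun _ X _ => ?_, fun _ => rfl⟩
    have h3 : insideL [] X = 0 := rfl
    rw [h3, add_zero]
    refine (or2_inside_le A X).trans ?_
    calc ∑ v ∈ X, outdeg A v ≤ ∑ _v ∈ X, 2 := sum_le_sum fun v _ => h2 v
      _ = 2 * X.card := by rw [sum_const, smul_eq_mul, mul_comm]
  | cons e l ih =>
    intro A hl hA h2
    have he := hl e List.mem_cons_self
    have hl' : OK n l := fun p hp => hl p (List.mem_cons_of_mem _ hp)
    rw [List.foldl_cons, Option.bind_some]
    obtain ⟨a1, a2, a3, a4⟩ := iterA_spec he.1 hA h2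
    obtain ⟨b1, b2, b3, b4⟩ := iterA_spec he.2.1 hA h2
    have hins : insA n A e =
        if outdeg ((stepA n e.1)^[n] A) e.1 < 2 then some (e :: (stepA n e.1)^[n] A) else
          if outdeg ((stepA n e.2)^[n] A) e.2 < 2 then
            some ((e.2, e.1) :: (stepA n e.2)^[n] A) else none := rfl
    rw [hins]
    by_cases c1 : outdeg ((stepA n e.1)^[n] A) e.1 < 2
    · rw [if_pos c1]
      rw [ih (e :: (stepA n e.1)^[n] A) hl' ?_ ?_]
      · refine forall_congr' fun X => imp_congr_right fun _ => ?_
        rw [or2_insideL_cons e, or2_insideL_cons e, a2.1 X]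
        have : insideL A X + (if e.1 ∈ X ∧ e.2 ∈ X then 1 else 0) + insideL l X =
            insideL A X + (insideL l X + if e.1 ∈ X ∧ e.2 ∈ X then 1 else 0) := by omega
        rw [this]
      · intro p hp
        rcases List.mem_cons.1 hp with rfl | hp
        · exact he
        · exact a1 p hp
      · intro v
        rw [or2_outdeg_cons]
        split_ifs with hv
        · subst hv
          omega
        · exact a3 v
    · rw [if_neg c1]
      by_cases c2 : outdeg ((stepA n e.2)^[n] A) e.2 < 2
      · rw [if_pos c2]
        rw [ih ((e.2, e.1) :: (stepA n e.2)^[n] A) hl' ?_ ?_]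
        · refine forall_congr' fun X => imp_congr_right fun _ => ?_
          rw [or2_insideL_cons (e.2, e.1), or2_insideL_cons e, b2.1 X]
          have h4 : (if (e.2, e.1).1 ∈ X ∧ (e.2, e.1).2 ∈ X then 1 else 0 : ℕ) =
              if e.1 ∈ X ∧ e.2 ∈ X then 1 else 0 := by
            simp only [and_comm]
          rw [h4]
          have : insideL A X + (if e.1 ∈ X ∧ e.2 ∈ X then 1 else 0) + insideL l X =
              insideL A X + (insideL l X + if e.1 ∈ X ∧ e.2 ∈ X then 1 else 0) := by omega
          rw [this]
        · intro p hp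
          rcases List.mem_cons.1 hp with rfl | hp
          · exact ⟨he.2.1, he.1, fun h => he.2.2 h.symm⟩
          · exact b1 p hp
        · intro v
          rw [or2_outdeg_cons]
          split_ifs with hv
          · have hv' : e.2 = v := hv
            subst hv'
            omega
          · exact b3 v
      · rw [if_neg c2, or2_fold_none]
        constructor
        · intro h
          exact absurd h (by simp)
        · intro h
          exfalso
          obtain ⟨R1, r1, r2, r3, r4⟩ := a4.resolve_left c1
          obtain ⟨R2, q1, q2, q3, q4⟩ := b4.resolve_left c2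
          have h5 := h (R1 ∪ R2) (union_subset r1 q1)
          have h6 : insideL A (R1 ∪ R2) = ∑ v ∈ R1 ∪ R2, outdeg A v := by
            apply or2_inside_eq
            intro p hp hpR
            rcases mem_union.1 hpR with h | h
            · exact mem_union_left _ (r3 p hp h)
            · exact mem_union_right _ (q3 p hp h)
          have h7 : 2 * (R1 ∪ R2).card ≤ ∑ v ∈ R1 ∪ R2, outdeg A v := by
            calc 2 * (R1 ∪ R2).card = ∑ _v ∈ R1 ∪ R2, 2 := by
                  rw [sum_const, smul_eq_mul, mul_comm]
              _ ≤ _ := by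
                apply sum_le_sum
                intro v hv
                rcases mem_union.1 hv with h | h
                · exact r4 v h
                · exact q4 v h
          rw [or2_insideL_cons e, if_pos ⟨mem_union_left _ r2, mem_union_right _ q2⟩, h6] at h5
          omega

theorem orient_isSome {n : ℕ} {l : List (ℕ × ℕ)} (hl : OK n l) :
    (orient n l).isSome = true ↔ ∀ X : Finset ℕ, X ⊆ range n → insideL l X ≤ 2 * X.card := by
  have h := or2_fold n l [] hl (fun p hp => absurd hp List.not_mem_nil)
    (fun v => by simp [outdeg])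
  have h0 : ∀ X : Finset ℕ, insideL [] X = 0 := fun _ => rfl
  simp only [h0, zero_add] at h
  exact h

end Pool.Agent.GRA
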