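import Pool.Agent.GRA.LS

/-!
# GRA/PA: polynomial time, part 1 (orientation, rank, connectivity, test)

Use the library `Pool/Agent/PT` (`fun_prop`, `PolyTime.any`, `all`, `filter`, `map`, `flatMap`, `find?`, `countP`,
`iterate'`, `foldl_add`, `foldl`, `filterMap`, `head?`, `optionMap`, `optionGetD`, `optionBind`, `isSome`, `decide_mem`,
`decide_eq`, `decide_lt`, `range`, `length`) and `DPO/Reach` (`reachStep_polyTime`, `reachL_polyTime`). See
`Pool/Agent/DPO/AlgPT.lean` for how such proofs look.
Size bounds: a pair `(a,b)` and `(b,a)` have the same size; `A.erase p` and `flip1 A p` (for `p ∈ A`) do not increase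
the size: `sz (flip1 A p) = sz A` if `p ∈ A`; so `sz ((stepA n x)^[i] A) ≤ sz A` (`stepA` only flips arcs found by
`find?`, which are in `A`), `insA` adds at most `sz e`. `layer`: like `reachL` (all iterates are sublists of
`List.range n`, or `[x]`). `basis`: the accumulator is built from members of `l`, use `foldl_add`.
-/

namespace Pool.Agent.GRA

open Pool.Agent.PT
open Pool.Agent.DPO (reachStep reachL reachStep_polyTime reachL_polyTime reachStep_sublist)

variable {α : Type*} [Enc α]

theorem adjB_pt {l : α → List (ℕ × ℕ)} {i j : α → ℕ} (hl : PolyTime l) (hi : PolyTime i)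
    (hj : PolyTime j) : PolyTime (fun x => adjB (l x) (i x) (j x)) := by
  unfold adjB
  refine PolyTime.any (l := l) (g := fun x p => decide (p = (i x, j x)) || decide (p = (j x, i x)))
    hl ?_
  fun_prop

theorem pairsL_pt {n : α → ℕ} (hn : PolyTime n) : PolyTime (fun x => pairsL (n x)) := by
  unfold pairsL
  refine PolyTime.flatMap (l := fun x => List.range (n x))
    (g := fun _ i => (List.range i).map (fun j => (j, i))) (by fun_prop) ?_
  exact PolyTime.map (l := fun p : α × ℕ => List.range p.2) (g := fun p j => (j, p.2))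
    (by fun_prop) (by fun_prop)

attribute [local fun_prop] adjB_pt pairsL_pt

theorem edgesL_pt {n : α → ℕ} {l : α → List (ℕ × ℕ)} (hn : PolyTime n) (hl : PolyTime l) :
    PolyTime (fun x => edgesL (n x) (l x)) := by
  unfold edgesL
  refine PolyTime.filter (l := fun x => pairsL (n x)) (g := fun x p => adjB (l x) p.1 p.2)
    (by fun_prop) ?_
  fun_prop

/-- One step of the removal of the first occurrence. -/
def erStep (p : ℕ × ℕ) (s : Bool × List (ℕ × ℕ)) (b : ℕ × ℕ) : Bool × List (ℕ × ℕ) :=
  if !s.1 && decide (b = p) then (true, s.2) else (s.1, b :: s.2)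

theorem erStep_true (p : ℕ × ℕ) : ∀ (l acc : List (ℕ × ℕ)),
    l.foldl (erStep p) (true, acc) = (true, l.reverse ++ acc) := by
  intro l
  induction l with
  | nil => intro acc; rfl
  | cons b l ih =>
    intro acc
    rw [List.foldl_cons]
    have : erStep p (true, acc) b = (true, b :: acc) := by simp [erStep]
    rw [this, ih]
    simp

theorem erStep_false (p : ℕ × ℕ) : ∀ (l acc : List (ℕ × ℕ)),
    (l.foldl (erStep p) (false, acc)).2 = (l.erase p).reverse ++ acc := by
  intro l
  induction l with
  | nil => intro acc; rfl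
  | cons b l ih =>
    intro acc
    rw [List.foldl_cons]
    by_cases h : b = p
    · have h1 : erStep p (false, acc) b = (true, acc) := by simp [erStep, h]
      rw [h1, erStep_true, h, List.erase_cons_head]
    · have h1 : erStep p (false, acc) b = (false, b :: acc) := by simp [erStep, h]
      rw [h1, ih, List.erase_cons_tail (by simpa using h)]
      simp

theorem erase_pt {l : α → List (ℕ × ℕ)} {p : α → ℕ × ℕ} (hl : PolyTime l) (hp : PolyTime p) :
    PolyTime (fun x => (l x).erase (p x)) := by
  have h2 := hl.pbdd
  have h := PolyTime.foldl_add (γ := Bool × List (ℕ × ℕ)) hl (g := fun x c b => erStep (p x) c b)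
    (y := fun _ => (false, [])) (by
      unfold erStep
      exact PolyTime.ite (PolyTime.decide_eq_true (by fun_prop)) (by fun_prop) (by fun_prop))
    (by fun_prop) (s := fun x => sz (l x) + 4) (by fun_prop)
    (fun x b hb c => by
      have h3 := sz_le_of_mem hb
      have h4 := sz_pos c.1
      have h5 := sz_bool true
      unfold erStep
      split_ifs
      · simp only [sz_prod]; omega
      · simp only [sz_prod, sz_cons]
        simp only [sz_prod] at h3
        omega)
  refine (PolyTime.reverse (PolyTime.snd h)).congr fun x => ?_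
  rw [show (fun c b => erStep (p x) c b) = erStep (p x) from rfl, erStep_false]
  simp

attribute [local fun_prop] edgesL_pt erase_pt

theorem outdeg_pt {A : α → List (ℕ × ℕ)} {v : α → ℕ} (hA : PolyTime A) (hv : PolyTime v) :
    PolyTime (fun x => outdeg (A x) (v x)) := by
  unfold outdeg
  exact PolyTime.countP (l := A) (g := fun x p => decide (p.1 = v x)) hA (by fun_prop)

theorem layer_pt {n v i : α → ℕ} {A : α → List (ℕ × ℕ)} (hn : PolyTime n) (hA : PolyTime A)
    (hv : PolyTime v) (hi : PolyTime i) :
    PolyTime (fun x => layer (n x) (A x) (v x) (i x)) := by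
  unfold layer
  have hr : PolyTime (fun x => List.range (n x)) := by fun_prop
  have h1 := hr.pbdd
  have h2 := hv.pbdd
  refine PolyTime.iterate' (f := fun x R => reachStep (List.range (n x))
    (fun a b => decide ((a, b) ∈ A x)) R) (n := i) (g := fun x => [v x])
    (s := fun x => sz (List.range (n x)) + sz (v x) + 2) ?_ hi (by fun_prop) (by fun_prop) ?_
  · refine reachStep_polyTime (V := fun p : α × List ℕ => List.range (n p.1))
      (E := fun p a b => decide ((a, b) ∈ A p.1)) (R := fun p => p.2) (by fun_prop) ?_
      (by fun_prop)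
    refine (PolyTime.decide_mem (α := (α × List ℕ) × (ℕ × ℕ)) (f := fun p => (p.2.1, p.2.2))
      (l := fun p => A p.1.1) (by fun_prop)
      (hA.comp (f := fun p : (α × List ℕ) × (ℕ × ℕ) => p.1.1) (by fun_prop))).congr
      fun p => ?_
    exact decide_eq_decide.2 Iff.rfl
  · intro x i _
    cases i with
    | zero => simp
    | succ i =>
      rw [Function.iterate_succ_apply']
      refine (sz_le_of_sublist (reachStep_sublist (List.range (n x)) _ _)).trans ?_
      omega

attribute [local fun_prop] outdeg_pt layer_pt

theorem freeArc_pt {n v i : α → ℕ} {A : α → List (ℕ × ℕ)} (hn : PolyTime n) (hA : PolyTime A)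
    (hv : PolyTime v) (hi : PolyTime i) :
    PolyTime (fun x => freeArc (n x) (A x) (v x) (i x)) := by
  unfold freeArc
  refine PolyTime.find? (l := A) (g := fun x p => decide (p.1 ∈ layer (n x) (A x) (v x) (i x)) &&
    decide (outdeg (A x) p.2 < 2)) hA ?_
  fun_prop

theorem flip1_pt {A : α → List (ℕ × ℕ)} {p : α → ℕ × ℕ} (hA : PolyTime A) (hp : PolyTime p) :
    PolyTime (fun x => flip1 (A x) (p x)) := by
  unfold flip1; fun_prop

attribute [local fun_prop] freeArc_pt flip1_pt

theorem stepA_pt {n v : α → ℕ} {A : α → List (ℕ × ℕ)} (hn : PolyTime n) (hv : PolyTime v)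
    (hA : PolyTime A) : PolyTime (fun x => stepA (n x) (v x) (A x)) := by
  unfold stepA
  refine PolyTime.ite (by fun_prop) hA ?_
  have h1 : PolyTime (fun x => (List.range (n x)).filterMap (freeArc (n x) (A x) (v x))) := by
    refine PolyTime.filterMap (l := fun x => List.range (n x))
      (g := fun x i => freeArc (n x) (A x) (v x) i) (by fun_prop) (by fun_prop)
  have h2 : PolyTime (fun x =>
      ((List.range (n x)).filterMap (freeArc (n x) (A x) (v x))).head?.map (flip1 (A x))) := by
    refine PolyTime.optionMap (o := fun x =>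
      ((List.range (n x)).filterMap (freeArc (n x) (A x) (v x))).head?)
      (g := fun x p => flip1 (A x) p) h1.head? (by fun_prop)
  fun_prop

theorem sz_erase {p : ℕ × ℕ} : ∀ {A : List (ℕ × ℕ)}, p ∈ A → sz (A.erase p) + sz p + 1 = sz A := by
  intro A
  induction A with
  | nil => intro h; simp at h
  | cons b A ih =>
    intro h
    by_cases hb : b = p
    · rw [hb, List.erase_cons_head, sz_cons]
      omega
    · rw [List.erase_cons_tail (by simpa using hb), sz_cons, sz_cons]
      have := ih (by
        rcases List.mem_cons.1 h with h | h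
        · exact absurd h.symm hb
        · exact h)
      omega

theorem sz_flip1 {p : ℕ × ℕ} {A : List (ℕ × ℕ)} (h : p ∈ A) : sz (flip1 A p) ≤ sz A := by
  have h1 := sz_erase h
  unfold flip1
  rw [sz_cons]
  simp only [sz_prod] at h1 ⊢
  omega

theorem sz_stepA (n x : ℕ) (A : List (ℕ × ℕ)) : sz (stepA n x A) ≤ sz A := by
  unfold stepA
  split_ifs
  · exact le_rfl
  · cases h : ((List.range n).filterMap (freeArc n A x)).head? with
    | none => simp
    | some p =>
      simp only [Option.map_some, Option.getD_some]
      apply sz_flip1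
      have h1 := List.mem_of_head? h
      rw [List.mem_filterMap] at h1
      obtain ⟨i, _, hi⟩ := h1
      exact List.mem_of_find?_eq_some hi

theorem sz_stepA_iterate (n x i : ℕ) (A : List (ℕ × ℕ)) : sz ((stepA n x)^[i] A) ≤ sz A := by
  induction i with
  | zero => simp
  | succ i ih =>
    rw [Function.iterate_succ_apply']
    exact (sz_stepA n x _).trans ih

theorem iterA_pt {n v : α → ℕ} {A : α → List (ℕ × ℕ)} (hn : PolyTime n) (hv : PolyTime v)
    (hA : PolyTime A) : PolyTime (fun x => (stepA (n x) (v x))^[n x] (A x)) := by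
  refine PolyTime.iterate' (f := fun x B => stepA (n x) (v x) B) (n := n) (g := A)
    (s := fun x => sz (A x)) ?_ hn hA hA.pbdd ?_
  · exact stepA_pt (by fun_prop) (by fun_prop) (by fun_prop)
  · intro x i _
    exact sz_stepA_iterate (n x) (v x) i (A x)

attribute [local fun_prop] stepA_pt iterA_pt

theorem insA_pt {n : α → ℕ} {A : α → List (ℕ × ℕ)} {e : α → ℕ × ℕ} (hn : PolyTime n)
    (hA : PolyTime A) (he : PolyTime e) : PolyTime (fun x => insA (n x) (A x) (e x)) := by
  unfold insA
  have h1 : PolyTime (fun x => (stepA (n x) (e x).1)^[n x] (A x)) := iterA_pt hn (by fun_prop) hA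
  have h2 : PolyTime (fun x => (stepA (n x) (e x).2)^[n x] (A x)) := iterA_pt hn (by fun_prop) hA
  refine PolyTime.ite (by fun_prop) (by fun_prop) ?_
  exact PolyTime.ite (by fun_prop) (by fun_prop) (by fun_prop)

theorem sz_insA (n : ℕ) (A : List (ℕ × ℕ)) (e : ℕ × ℕ) :
    sz (insA n A e) ≤ sz (some A) + sz e + 1 := by
  have h1 := sz_stepA_iterate n e.1 n A
  have h2 := sz_stepA_iterate n e.2 n A
  unfold insA
  split_ifs
  · simp only [sz_some, sz_cons]; omega
  · simp only [sz_some, sz_cons, sz_prod]; omega
  · simp only [sz_some, sz_none]; omega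

attribute [local fun_prop] insA_pt

theorem orient_pt {n : α → ℕ} {l : α → List (ℕ × ℕ)} (hn : PolyTime n) (hl : PolyTime l) :
    PolyTime (fun x => orient (n x) (l x)) := by
  unfold orient
  have h2 := hl.pbdd
  refine PolyTime.foldl_add (γ := Option (List (ℕ × ℕ))) hl
    (g := fun x o e => o.bind (fun A => insA (n x) A e)) (y := fun _ => some [])
    ?_ (by fun_prop) (s := fun x => sz (l x) + 1) (by fun_prop) ?_
  · refine PolyTime.optionBind (o := fun p : α × (Option (List (ℕ × ℕ)) × (ℕ × ℕ)) => p.2.1)
      (g := fun p A => insA (n p.1) A p.2.2) (by fun_prop) (by fun_prop)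
  · intro x e he o
    have h3 := sz_le_of_mem he
    cases o with
    | none => simp only [Option.bind_none]; omega
    | some A =>
      simp only [Option.bind_some]
      have := sz_insA (n x) A e
      omega

attribute [local fun_prop] orient_pt

theorem okAdd_pt {n : α → ℕ} {I : α → List (ℕ × ℕ)} {e : α → ℕ × ℕ} (hn : PolyTime n)
    (hI : PolyTime I) (he : PolyTime e) : PolyTime (fun x => okAdd (n x) (I x) (e x)) := by
  unfold okAdd; fun_prop

attribute [local fun_prop] okAdd_pt

theorem basis_pt {n : α → ℕ} {l : α → List (ℕ × ℕ)} (hn : PolyTime n) (hl : PolyTime l) :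
    PolyTime (fun x => basis (n x) (l x)) := by
  unfold basis
  have h2 := hl.pbdd
  refine PolyTime.foldl_add (γ := List (ℕ × ℕ)) hl
    (g := fun x I e => if okAdd (n x) I e then e :: I else I) (y := fun _ => [])
    ?_ (by fun_prop) (s := fun x => sz (l x) + 1) (by fun_prop) ?_
  · refine PolyTime.ite (PolyTime.decide_eq_true ?_) (by fun_prop) (by fun_prop)
    fun_prop
  · intro x e he I
    have h3 := sz_le_of_mem he
    split_ifs
    · rw [sz_cons]; omega
    · omega

attribute [local fun_prop] basis_pt

theorem rigidB_pt {n : α → ℕ} {l : α → List (ℕ × ℕ)} (hn : PolyTime n) (hl : PolyTime l) :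
    PolyTime (fun x => rigidB (n x) (l x)) := by
  unfold rigidB; fun_prop

theorem vs_pt {n : α → ℕ} {S : α → List ℕ} (hn : PolyTime n) (hS : PolyTime S) :
    PolyTime (fun x => vs (n x) (S x)) := by
  unfold vs
  exact PolyTime.filter (l := fun x => List.range (n x)) (g := fun x v => !(decide (v ∈ S x)))
    (by fun_prop) (by fun_prop)

attribute [local fun_prop] rigidB_pt vs_pt

theorem reachVs_pt {n v : α → ℕ} {l : α → List (ℕ × ℕ)} {S : α → List ℕ} (hn : PolyTime n)
    (hl : PolyTime l) (hS : PolyTime S) (hv : PolyTime v) :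
    PolyTime (fun x => reachL (vs (n x) (S x)) (adjB (l x)) (v x)) := by
  refine reachL_polyTime (V := fun x => vs (n x) (S x)) (E := fun x => adjB (l x))
    (by fun_prop) ?_ hv
  fun_prop

attribute [local fun_prop] reachVs_pt

theorem connB_pt {n : α → ℕ} {l : α → List (ℕ × ℕ)} {S : α → List ℕ} (hn : PolyTime n)
    (hl : PolyTime l) (hS : PolyTime S) : PolyTime (fun x => connB (n x) (l x) (S x)) := by
  unfold connB
  refine PolyTime.all (l := fun x => vs (n x) (S x)) (g := fun x v =>
    (vs (n x) (S x)).all (fun y => decide (y ∈ reachL (vs (n x) (S x)) (adjB (l x)) v)))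
    (by fun_prop) ?_
  refine PolyTime.all (α := α × ℕ) (l := fun p => vs (n p.1) (S p.1)) (g := fun p y =>
    decide (y ∈ reachL (vs (n p.1) (S p.1)) (adjB (l p.1)) p.2)) (by fun_prop) ?_
  refine PolyTime.decide_mem (by fun_prop) ?_
  exact reachVs_pt (by fun_prop) (by fun_prop) (by fun_prop) (by fun_prop)

attribute [local fun_prop] connB_pt

theorem conn3B_pt {n : α → ℕ} {l : α → List (ℕ × ℕ)} (hn : PolyTime n) (hl : PolyTime l) :
    PolyTime (fun x => conn3B (n x) (l x)) := by
  unfold conn3B
  refine PolyTime.and (by fun_prop) ?_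
  refine PolyTime.all (l := fun x => List.range (n x)) (g := fun x s =>
    (List.range (n x)).all (fun t => connB (n x) (l x) [s, t])) (by fun_prop) ?_
  refine PolyTime.all (α := α × ℕ) (l := fun p => List.range (n p.1)) (g := fun p t =>
    connB (n p.1) (l p.1) [p.2, t]) (by fun_prop) ?_
  fun_prop

attribute [local fun_prop] conn3B_pt

theorem goodB_pt {n : α → ℕ} {l : α → List (ℕ × ℕ)} (hn : PolyTime n) (hl : PolyTime l) :
    PolyTime (fun x => goodB (n x) (l x)) := by
  unfold goodB
  refine PolyTime.and (by fun_prop) ?_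
  refine PolyTime.all (l := fun x => edgesL (n x) (l x)) (g := fun x e =>
    rigidB (n x) ((edgesL (n x) (l x)).erase e)) (by fun_prop) ?_
  fun_prop

theorem ncompB_pt {n u v : α → ℕ} {l : α → List (ℕ × ℕ)} (hn : PolyTime n)
    (hl : PolyTime l) (hu : PolyTime u) (hv : PolyTime v) :
    PolyTime (fun x => ncompB (n x) (l x) (u x) (v x)) := by
  unfold ncompB
  refine PolyTime.length ?_
  refine PolyTime.filter (l := fun x => vs (n x) [u x, v x]) (g := fun x w =>
    (reachL (vs (n x) [u x, v x]) (adjB (l x)) w).all (fun y => decide (w ≤ y)))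
    (by fun_prop) ?_
  refine PolyTime.all (α := α × ℕ) (l := fun p =>
    reachL (vs (n p.1) [u p.1, v p.1]) (adjB (l p.1)) p.2) (g := fun p y => decide (p.2 ≤ y))
    ?_ (by fun_prop)
  exact reachVs_pt (S := fun p : α × ℕ => [u p.1, v p.1]) (by fun_prop) (by fun_prop)
    (by fun_prop) (by fun_prop)

end Pool.Agent.GRA
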