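import Pool.Agent.GRA.Basic2

/-!
# GRA/R0: co-tight sets of a rigid family

Context (modules GRA/R*): `H` independent with `dof H = 0` (rigid), `n ≥ 4` vertices. `Cot H C`:
`C` nonempty with rigid complement. By `gg_eq`, `gg H C = 1 - kk H (univ \ C)`.

PROOFS. `exists_minCot`: finiteness (a `Cot` subset of `C` of minimal cardinality).
`cot_gg`: `gg_eq`, `kk = 0`; `sTo H C = 2|C| + 1 - gg = 2|C|`.
`cot_of_gg`: `gg_eq` gives `kk H (univ \ C) = 0`.
`MinCot.alt`: let `S = univ \ C`; `T ∩ S = T \ C` has two elements, so `S ∪ T` is rigid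
(`Rig.union`), its complement is `C \ T`. If `C \ T` is empty, `C ⊆ T`. Otherwise `C \ T` is `Cot`, so
`C \ T = C` by minimality and `C, T` are disjoint.
`MinCot.alt2`: apply `alt` with `T = univ \ D` (`T \ C = univ \ (C ∪ D)`): `C ⊆ univ \ D` (disjoint from
`D`) or `C` disjoint from `univ \ D`, i.e. `C ⊆ D`, so `C = D` by minimality of `D`.
`exists_min_rig`: `univ` is rigid (`dof H = 0`, `n ≥ 2`), rigid sets containing `x ≠ y` are closed under
intersection (`Rig.inter`); take one of minimal cardinality.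
`merge_*` (`merge H X` : the members inside the rigid set `X` are replaced by `X`). Let `H' = merge H X`.
If `X ⊆ T`: `sIn H' T = sIn H T - sIn H X + w X = sIn H T`. If not `X ⊆ T`: the members of `H'` inside `T`
are the members of `H` inside `T` not inside `X`, `sIn H' T = sIn H T - sIn H (X ∩ T)`. So
`kk H' T = kk H T` or `kk H' T = kk H T + sIn H (X ∩ T)`, both ≥ 0; `dof` unchanged (`T = univ`).
`Rig H' T` iff `kk H T = 0` and (`X ⊆ T` or `sIn H (X ∩ T) = 0`); for `kk H T = 0`, `¬ X ⊆ T`: if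
`|X ∩ T| ≤ 1` then `sIn H (X ∩ T) = 0` (`sIn_eq_zero`); if `|X ∩ T| ≥ 2` then `X ∩ T` is rigid, so
`sIn H (X ∩ T) = w (X ∩ T) > 0`.
-/

namespace Pool.Agent.GRA

open Finset

variable {α : Type*} [Fintype α] [DecidableEq α]

/-- Co-tight sets. -/
def Cot (H : Finset (Finset α)) (C : Finset α) : Prop := C.Nonempty ∧ Rig H (univ \ C)

/-- Minimal co-tight sets. -/
def MinCot (H : Finset (Finset α)) (C : Finset α) : Prop :=
  Cot H C ∧ ∀ D, Cot H D → D ⊆ C → D = C

/-- Every family of pairwise disjoint co-tight sets has at most `N` members. -/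
def Pack (H : Finset (Finset α)) (N : ℕ) : Prop :=
  ∀ P : Finset (Finset α), (∀ C ∈ P, Cot H C) → (∀ A ∈ P, ∀ B ∈ P, A ≠ B → Disjoint A B) →
    P.card ≤ N

/-- Replace the members inside `X` by `X`. -/
def merge (H : Finset (Finset α)) (X : Finset α) : Finset (Finset α) :=
  insert X (H.filter (fun A => ¬ A ⊆ X))

theorem exists_minCot {H : Finset (Finset α)} {C : Finset α} (hC : Cot H C) :
    ∃ D, MinCot H D ∧ D ⊆ C := by
  classical
  obtain ⟨D, hD, hmin⟩ := exists_min_image (C.powerset.filter (fun D => Cot H D)) card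
    ⟨C, mem_filter.2 ⟨mem_powerset.2 subset_rfl, hC⟩⟩
  obtain ⟨hDC, hDc⟩ := mem_filter.1 hD
  refine ⟨D, ⟨hDc, fun D' hD' hsub => ?_⟩, mem_powerset.1 hDC⟩
  exact eq_of_subset_of_card_le hsub
    (hmin D' (mem_filter.2 ⟨mem_powerset.2 (hsub.trans (mem_powerset.1 hDC)), hD'⟩))

theorem cot_gg {H : Finset (Finset α)} (h0 : dof H = 0) {C : Finset α} (hC : Cot H C) :
    gg H C = 1 ∧ sTo H C = 2 * C.card := by
  have h1 : gg H C = 1 := by
    rw [gg_eq, h0, hC.2.2]; norm_num
  refine ⟨h1, ?_⟩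
  unfold gg at h1
  linarith

theorem cot_of_gg {H : Finset (Finset α)} (h0 : dof H = 0) {C : Finset α} (hC : C.Nonempty)
    (h2 : 2 ≤ (univ \ C).card) (h : gg H C = 1) : Cot H C := by
  refine ⟨hC, h2, ?_⟩
  rw [gg_eq, h0] at h
  linarith

theorem MinCot.alt {H : Finset (Finset α)} (hH : Indep H) {C T : Finset α} (hC : MinCot H C)
    (hT : Rig H T) (h2 : 2 ≤ (T \ C).card) : C ⊆ T ∨ Disjoint C T := by
  have h3 : 2 ≤ ((univ \ C) ∩ T).card := by
    have : (univ \ C) ∩ T = T \ C := by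
      ext t; simp only [mem_inter, mem_sdiff, mem_univ, true_and]; tauto
    rw [this]; exact h2
  have h4 := hC.1.2.union hH hT h3
  have h5 : (univ \ C) ∪ T = univ \ (C \ T) := by
    ext t; simp only [mem_union, mem_sdiff, mem_univ, true_and]; tauto
  rw [h5] at h4
  rcases (C \ T).eq_empty_or_nonempty with h | h
  · exact Or.inl (sdiff_eq_empty_iff_subset.1 h)
  · right
    have h6 := hC.2 (C \ T) ⟨h, h4⟩ sdiff_subset
    exact sdiff_eq_self_iff_disjoint.1 h6

theorem MinCot.alt2 {H : Finset (Finset α)} (hH : Indep H) {C D : Finset α} (hC : MinCot H C)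
    (hD : MinCot H D) (h2 : 2 ≤ (univ \ (C ∪ D)).card) : C = D ∨ Disjoint C D := by
  have h3 : (univ \ D) \ C = univ \ (C ∪ D) := by
    ext t; simp only [mem_union, mem_sdiff, mem_univ, true_and]; tauto
  rcases hC.alt hH hD.1.2 (by rw [h3]; exact h2) with h | h
  · right
    rw [disjoint_left]
    intro t ht ht'
    exact (mem_sdiff.1 (h ht)).2 ht'
  · left
    apply hD.2 C hC.1
    intro t ht
    by_contra hc
    exact disjoint_left.1 h ht (mem_sdiff.2 ⟨mem_univ _, hc⟩)

theorem exists_min_rig {H : Finset (Finset α)} (hH : Indep H) (h0 : dof H = 0) {x y : α}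
    (hxy : x ≠ y) :
    ∃ X, Rig H X ∧ x ∈ X ∧ y ∈ X ∧ ∀ Y, Rig H Y → x ∈ Y → y ∈ Y → X ⊆ Y := by
  classical
  have htwo : ∀ Z : Finset α, x ∈ Z → y ∈ Z → 2 ≤ Z.card := by
    intro Z hx hy
    rw [← card_pair hxy]
    exact card_le_card (pair_subset.2 ⟨hx, hy⟩)
  obtain ⟨X, hX, hmin⟩ := exists_min_image
    (univ.filter (fun X : Finset α => Rig H X ∧ x ∈ X ∧ y ∈ X)) card
    ⟨univ, mem_filter.2 ⟨mem_univ _, ⟨htwo _ (mem_univ _) (mem_univ _), h0⟩, mem_univ _, mem_univ _⟩⟩
  obtain ⟨_, hXr, hxX, hyX⟩ := mem_filter.1 hX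
  refine ⟨X, hXr, hxX, hyX, fun Y hY hxY hyY => ?_⟩
  have h1 : x ∈ X ∩ Y := mem_inter.2 ⟨hxX, hxY⟩
  have h2 : y ∈ X ∩ Y := mem_inter.2 ⟨hyX, hyY⟩
  have h3 := hXr.inter hH hY (htwo _ h1 h2)
  have h4 := hmin (X ∩ Y) (mem_filter.2 ⟨mem_univ _, h3, h1, h2⟩)
  have h5 := eq_of_subset_of_card_le (inter_subset_left : X ∩ Y ⊆ X) h4
  exact inter_eq_left.1 h5

theorem sIn_split (H : Finset (Finset α)) (X T : Finset α) :
    sIn H T = sIn H (X ∩ T) + ∑ A ∈ (H.filter (fun A => ¬ A ⊆ X)).filter (fun A => A ⊆ T), w A := by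
  unfold sIn
  rw [← sum_filter_add_sum_filter_not (H.filter (fun A => A ⊆ T)) (fun A => A ⊆ X) w]
  congr 1
  · apply sum_congr _ fun _ _ => rfl
    ext A
    simp only [mem_filter, subset_inter_iff]
    tauto
  · apply sum_congr _ fun _ _ => rfl
    ext A
    simp only [mem_filter]
    tauto

theorem sIn_merge_of_subset {H : Finset (Finset α)} {X T : Finset α} (hX : Rig H X) (hT : X ⊆ T) :
    sIn (merge H X) T = sIn H T := by
  have h1 := sIn_split H X T
  rw [inter_eq_left.2 hT] at h1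
  have h2 : w X = sIn H X := by
    have := hX.2
    unfold kk at this
    linarith
  have h3 : sIn (merge H X) T =
      w X + ∑ A ∈ (H.filter (fun A => ¬ A ⊆ X)).filter (fun A => A ⊆ T), w A := by
    unfold sIn merge
    rw [filter_insert, if_pos hT, sum_insert]
    intro h
    exact (mem_filter.1 (mem_filter.1 h).1).2 subset_rfl
  rw [h3, h1, h2]

theorem sIn_merge_of_not {H : Finset (Finset α)} {X T : Finset α} (hT : ¬ X ⊆ T) :
    sIn (merge H X) T = sIn H T - sIn H (X ∩ T) := by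
  have h1 := sIn_split H X T
  have h3 : sIn (merge H X) T =
      ∑ A ∈ (H.filter (fun A => ¬ A ⊆ X)).filter (fun A => A ⊆ T), w A := by
    unfold sIn merge
    rw [filter_insert, if_neg hT]
  rw [h3]
  linarith

theorem merge_indep {H : Finset (Finset α)} (hH : Indep H) {X : Finset α} (hX : Rig H X) :
    Indep (merge H X) := by
  refine ⟨fun A hA => ?_, fun T hT => ?_⟩
  · unfold merge at hA
    rcases mem_insert.1 hA with rfl | hA
    · exact hX.1
    · exact hH.two A (mem_filter.1 hA).1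
  · have h1 := hH.nonneg T hT
    by_cases h : X ⊆ T
    · unfold kk at h1 ⊢
      rw [sIn_merge_of_subset hX h]
      exact h1
    · have h2 := sIn_nonneg hH (X ∩ T)
      unfold kk at h1 ⊢
      rw [sIn_merge_of_not h]
      linarith

theorem merge_dof {H : Finset (Finset α)} (hH : Indep H) {X : Finset α} (hX : Rig H X) :
    dof (merge H X) = dof H := by
  unfold dof kk
  rw [sIn_merge_of_subset hX (subset_univ X)]

theorem merge_rig {H : Finset (Finset α)} (hH : Indep H) {X : Finset α} (hX : Rig H X)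
    (T : Finset α) : Rig (merge H X) T ↔ Rig H T ∧ (X ⊆ T ∨ (X ∩ T).card ≤ 1) := by
  by_cases h : X ⊆ T
  · unfold Rig kk
    rw [sIn_merge_of_subset hX h]
    simp [h]
  · constructor
    · rintro ⟨h2, h3⟩
      have h4 := hH.nonneg T h2
      have h5 := sIn_nonneg hH (X ∩ T)
      have h6 : kk H T + sIn H (X ∩ T) = 0 := by
        unfold kk at h3 ⊢
        rw [sIn_merge_of_not h] at h3
        linarith
      have h7 : Rig H T := ⟨h2, by linarith⟩
      refine ⟨h7, Or.inr ?_⟩
      by_contra hc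
      have h8 := hX.inter hH h7 (by omega)
      have h9 := h8.2
      have h10 := w_pos h8.1
      unfold kk at h9
      linarith
    · rintro ⟨h1, h2 | h2⟩
      · exact absurd h2 h
      · refine ⟨h1.1, ?_⟩
        have h3 := sIn_eq_zero hH h2
        have h4 := h1.2
        unfold kk at h4 ⊢
        rw [sIn_merge_of_not h, h3]
        linarith

end Pool.Agent.GRA
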