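import Pool.Agent.GRA.R0

/-!
# GRA/R1: three disjoint minimal co-tight sets

PROOF of `three_two`. Suppose `univ \ (C1 ∪ C2)` has at most one element. It contains the nonempty
`C3`, so `C3 = {z} = univ \ (C1 ∪ C2)`. `T1 = univ \ C1 = C2 ∪ {z}`, `T2 = univ \ C2 = C1 ∪ {z}` are
rigid, `T1 ∩ T2 = {z}`. `sTo H {z} = 2` (`cot_gg`), i.e. the members containing `z` have total weight 2
(`sTo_singleton`). If `|T1| ≥ 3`: the members containing `z` inside `T1` have weight ≥ 2
(`Rig.two_le_weight`), and a member containing `z` inside `T2` exists (`Rig.exists_mem`), it is not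
inside `T1` (`T1 ∩ T2 = {z}`, members have two elements): total ≥ 3. Same if `|T2| ≥ 3`. So
`|T1| = |T2| = 2` and `n = |T1 ∪ T2| = 3`, contradicting `n ≥ 4`.

PROOF of `minCot_disjoint`. `C1, C2, C3` pairwise disjoint `MinCot`.
CLAIM. If `D` is `MinCot` and `D ≠ C1, C2, C3` then `D` is disjoint from all three. Let
`T = univ \ D`, so `T \ C = univ \ (C ∪ D)`, `|T| ≥ 2`. By `alt2` it suffices that `|T \ Ci| ≥ 2` for
`i = 1,2,3`. Suppose `|T \ C1| ≤ 1` (the other cases are the same by symmetry; prove the claim for one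
index with the roles of the other two arbitrary). Every vertex of `T` lies in at least two of the
sets `T \ Ci`, so `Σ |T \ Ci| ≥ 2|T| ≥ 4`, so some `j ∈ {2,3}` has `|T \ Cj| ≥ 2`; by `alt2` (`D ≠ Cj`)
`Cj ⊆ T`; `Cj` is disjoint from `C1`, so `Cj ⊆ T \ C1` is a single vertex `t` and `T \ C1 = {t}`. Let `k`
be the third index: `Ck ∩ T ⊆ T \ C1 = {t} ⊆ Cj`, so `Ck ∩ T = ∅` and `|T \ Ck| = |T| ≥ 2`; `alt2` gives
`Ck ⊆ T` (as `D ≠ Ck`), contradicting `Ck` nonempty. End of the claim.
For `D ≠ D'`: if one of them is some `Ci`, use the claim for the other (or the disjointness of the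
`Ci`). Otherwise both are disjoint from `C1, C2, C3`, so `univ \ (D ∪ D')` has at least 3 elements and
`alt2` applies.

PROOF of `no_bridge`. Suppose `A ∈ H` meets `C1` and `C2`. `univ \ (C1 ∪ C2)` has ≥ 2 elements
(`three_two`), so `gg H (C1 ∪ C2) ≤ dof + 1 = 1` (`gg_le`). The members meeting `C1 ∪ C2` are those
meeting `C1` together with those meeting `C2`, and `A` is in both classes:
`sTo (C1 ∪ C2) ≤ sTo C1 + sTo C2 - w A`, so
`gg (C1 ∪ C2) ≥ gg C1 + gg C2 - 1 + w A ≥ 1 + 1 - 1 + 1 = 2`. Contradiction.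

PROOF of `rig_contains`. First `|T \ C1| ≥ 2`: otherwise `T \ C1 = {x2}`, a member `A ∋ x2` inside `T`
(`Rig.exists_mem`) has another element, which is in `C1`: `A` meets `C1` and `C2`, contradicting
`no_bridge`. So `alt` gives `C1 ⊆ T` (`x1` is in both). `T \ C1 = T ∩ (univ \ C1)` is rigid. The members
inside `T` meeting `C1` have total weight `sIn T - sIn (T \ C1) = w T - w (T \ C1) = 2|C1| = sTo C1`
(`cot_gg`); all members meeting `C1` have total `sTo C1`, weights are ≥ 1, so every member meeting `C1`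
is inside `T`.
-/

namespace Pool.Agent.GRA

open Finset

variable {α : Type*} [Fintype α] [DecidableEq α]

private theorem weightR1 {H : Finset (Finset α)} (hH : Indep H) {T1 T2 : Finset α} {z : α}
    (hT1 : Rig H T1) (hT2 : Rig H T2) (hint : T1 ∩ T2 = {z}) (h3 : 3 ≤ T1.card) :
    3 ≤ sTo H {z} := by
  have hz : z ∈ T1 ∩ T2 := by rw [hint]; exact mem_singleton_self z
  have hz' := mem_inter.1 hz
  have h1 := hT1.two_le_weight hH h3 hz'.1
  obtain ⟨B, hB, hzB, hBT⟩ := hT2.exists_mem hH hz'.2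
  have hnot : ¬ B ⊆ T1 := by
    intro h
    have h2 := card_le_card (subset_inter h hBT)
    rw [hint, card_singleton] at h2
    have h4 := hH.two B hB
    omega
  rw [sTo_singleton]
  have h5 : B ∉ H.filter (fun A => z ∈ A ∧ A ⊆ T1) := fun h => hnot (mem_filter.1 h).2.2
  have h6 : ∑ A ∈ insert B (H.filter (fun A => z ∈ A ∧ A ⊆ T1)), w A ≤
      ∑ A ∈ H.filter (fun A => z ∈ A), w A := by
    apply sum_le_sum_of_subset_of_nonneg
    · intro A hA
      rcases mem_insert.1 hA with rfl | hA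
      · exact mem_filter.2 ⟨hB, hzB⟩
      · exact mem_filter.2 ⟨(mem_filter.1 hA).1, (mem_filter.1 hA).2.1⟩
    · intro A hA _
      have := hH.w_pos (mem_filter.1 hA).1
      linarith
  rw [sum_insert h5] at h6
  have h7 := hH.w_pos hB
  linarith

private theorem coreR1 {H : Finset (Finset α)} (hH : Indep H) {C1 Cj Ck D : Finset α}
    (hj : MinCot H Cj) (hk : MinCot H Ck) (hD : MinCot H D) (h1j : Disjoint C1 Cj)
    (h1k : Disjoint C1 Ck) (hjk : Disjoint Cj Ck) (hDj : D ≠ Cj) (hDk : D ≠ Ck)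
    (hc1 : (univ \ (C1 ∪ D)).card ≤ 1) (hcj : 2 ≤ (univ \ (Cj ∪ D)).card) : False := by
  have hd : Disjoint Cj D := by
    rcases hj.alt2 hH hD hcj with h | h
    · exact absurd h.symm hDj
    · exact h
  obtain ⟨t, ht⟩ := hj.1.1
  have htm : t ∈ univ \ (C1 ∪ D) := by
    rw [mem_sdiff, mem_union]
    refine ⟨mem_univ _, ?_⟩
    rintro (h | h)
    · exact disjoint_left.1 h1j h ht
    · exact disjoint_left.1 hd ht h
  have hsub : Ck ⊆ D := by
    intro x hx
    by_contra hxD
    have hxm : x ∈ univ \ (C1 ∪ D) := by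
      rw [mem_sdiff, mem_union]
      refine ⟨mem_univ _, ?_⟩
      rintro (h | h)
      · exact disjoint_left.1 h1k h hx
      · exact hxD h
    have hxt : x = t := card_le_one.1 hc1 x hxm t htm
    rw [hxt] at hx
    exact disjoint_left.1 hjk ht hx
  have hck : 2 ≤ (univ \ (Ck ∪ D)).card := by
    rw [union_eq_right.2 hsub]
    exact hD.1.2.1
  rcases hk.alt2 hH hD hck with h | h
  · exact hDk h.symm
  · obtain ⟨x, hx⟩ := hk.1.1
    exact disjoint_left.1 h hx (hsub hx)

private theorem claimR1 {H : Finset (Finset α)} (hH : Indep H) {C1 C2 C3 D : Finset α}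
    (h1 : MinCot H C1) (h2 : MinCot H C2) (h3 : MinCot H C3) (h12 : Disjoint C1 C2)
    (h13 : Disjoint C1 C3) (h23 : Disjoint C2 C3) (hD : MinCot H D) (n1 : D ≠ C1)
    (n2 : D ≠ C2) (n3 : D ≠ C3) : Disjoint C1 D := by
  by_cases hc : 2 ≤ (univ \ (C1 ∪ D)).card
  · rcases h1.alt2 hH hD hc with h | h
    · exact absurd h.symm n1
    · exact h
  exfalso
  by_cases hc2 : 2 ≤ (univ \ (C2 ∪ D)).card
  · exact coreR1 hH h2 h3 hD h12 h13 h23 n2 n3 (by omega) hc2
  by_cases hc3 : 2 ≤ (univ \ (C3 ∪ D)).card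
  · exact coreR1 hH h3 h2 hD h13 h12 h23.symm n3 n2 (by omega) hc3
  -- all three are small
  have hT : 2 ≤ (univ \ D).card := hD.1.2.1
  have e1 : (univ \ (C2 ∪ D)) ∪ (univ \ (C3 ∪ D)) = univ \ D := by
    ext x
    simp only [mem_union, mem_sdiff, mem_univ, true_and]
    constructor
    · rintro (h | h) hx
      · exact h (Or.inr hx)
      · exact h (Or.inr hx)
    · intro hx
      by_cases hx2 : x ∈ C2
      · right
        rintro (h | h)
        · exact disjoint_left.1 h23 hx2 h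
        · exact hx h
      · left
        rintro (h | h)
        · exact hx2 h
        · exact hx h
  have e2 := card_union_add_card_inter (univ \ (C2 ∪ D)) (univ \ (C3 ∪ D))
  rw [e1] at e2
  have e3 : ((univ \ (C2 ∪ D)) ∩ (univ \ (C3 ∪ D))).card = 0 := by omega
  rw [card_eq_zero] at e3
  have e4 : univ \ D ⊆ univ \ (C1 ∪ D) := by
    intro x hx
    rw [mem_sdiff] at hx
    rw [mem_sdiff, mem_union]
    refine ⟨mem_univ _, ?_⟩
    rintro (h | h)
    · have : x ∈ (univ \ (C2 ∪ D)) ∩ (univ \ (C3 ∪ D)) := by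
        rw [mem_inter, mem_sdiff, mem_sdiff, mem_union, mem_union]
        refine ⟨⟨mem_univ _, ?_⟩, ⟨mem_univ _, ?_⟩⟩
        · rintro (h' | h')
          · exact disjoint_left.1 h12 h h'
          · exact hx.2 h'
        · rintro (h' | h')
          · exact disjoint_left.1 h13 h h'
          · exact hx.2 h'
      rw [e3] at this
      exact absurd this (notMem_empty x)
    · exact hx.2 h
  have e5 := card_le_card e4
  omega

theorem three_two {H : Finset (Finset α)} (hH : Indep H) (h0 : dof H = 0)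
    (hn : 4 ≤ Fintype.card α) {C1 C2 C3 : Finset α} (h1 : MinCot H C1) (h2 : MinCot H C2)
    (h3 : MinCot H C3) (h12 : Disjoint C1 C2) (h13 : Disjoint C1 C3) (h23 : Disjoint C2 C3) :
    2 ≤ (univ \ (C1 ∪ C2)).card := by
  by_contra hcon
  obtain ⟨z, hz⟩ := h3.1.1
  have hsub : C3 ⊆ univ \ (C1 ∪ C2) := by
    intro x hx
    rw [mem_sdiff, mem_union]
    refine ⟨mem_univ _, ?_⟩
    rintro (h | h)
    · exact disjoint_left.1 h13 h hx
    · exact disjoint_left.1 h23 h hx
  have hone : univ \ (C1 ∪ C2) = {z} := by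
    apply eq_singleton_iff_unique_mem.2
    refine ⟨hsub hz, fun x hx => ?_⟩
    exact card_le_one.1 (by omega) x hx z (hsub hz)
  have hC3 : C3 = {z} := by
    apply subset_antisymm
    · rw [← hone]; exact hsub
    · exact singleton_subset_iff.2 hz
  have hsum := (cot_gg h0 h3.1).2
  rw [hC3, card_singleton] at hsum
  have hint : (univ \ C1) ∩ (univ \ C2) = {z} := by
    rw [← hone]
    ext x
    simp only [mem_inter, mem_sdiff, mem_univ, true_and, mem_union]
    tauto
  have hun : (univ \ C1) ∪ (univ \ C2) = univ := by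
    ext x
    simp only [mem_union, mem_sdiff, mem_univ, true_and, iff_true]
    by_cases hx : x ∈ C1
    · right
      exact fun h => disjoint_left.1 h12 hx h
    · left
      exact hx
  by_cases hc1 : 3 ≤ (univ \ C1).card
  · have := weightR1 hH h1.1.2 h2.1.2 hint hc1
    rw [hsum] at this
    norm_num at this
  by_cases hc2 : 3 ≤ (univ \ C2).card
  · have := weightR1 hH h2.1.2 h1.1.2 (by rw [inter_comm]; exact hint) hc2
    rw [hsum] at this
    norm_num at this
  have h5 := card_union_add_card_inter (univ \ C1) (univ \ C2)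
  rw [hun, hint, card_singleton, card_univ] at h5
  omega

theorem minCot_disjoint {H : Finset (Finset α)} (hH : Indep H) (h0 : dof H = 0)
    (hn : 4 ≤ Fintype.card α) {C1 C2 C3 : Finset α} (h1 : MinCot H C1) (h2 : MinCot H C2)
    (h3 : MinCot H C3) (h12 : Disjoint C1 C2) (h13 : Disjoint C1 C3) (h23 : Disjoint C2 C3)
    {D D' : Finset α} (hD : MinCot H D) (hD' : MinCot H D') (hne : D ≠ D') : Disjoint D D' := by
  have key : ∀ D, MinCot H D → D ≠ C1 → D ≠ C2 → D ≠ C3 →
      Disjoint C1 D ∧ Disjoint C2 D ∧ Disjoint C3 D := by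
    intro D hD n1 n2 n3
    exact ⟨claimR1 hH h1 h2 h3 h12 h13 h23 hD n1 n2 n3,
      claimR1 hH h2 h1 h3 h12.symm h23 h13 hD n2 n1 n3,
      claimR1 hH h3 h1 h2 h13.symm h23.symm h12 hD n3 n1 n2⟩
  by_cases a1 : D = C1
  · subst a1
    by_cases b2 : D' = C2
    · rw [b2]; exact h12
    by_cases b3 : D' = C3
    · rw [b3]; exact h13
    exact (key D' hD' (Ne.symm hne) b2 b3).1
  by_cases a2 : D = C2
  · subst a2
    by_cases b1 : D' = C1
    · rw [b1]; exact h12.symm
    by_cases b3 : D' = C3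
    · rw [b3]; exact h23
    exact (key D' hD' b1 (Ne.symm hne) b3).2.1
  by_cases a3 : D = C3
  · subst a3
    by_cases b1 : D' = C1
    · rw [b1]; exact h13.symm
    by_cases b2 : D' = C2
    · rw [b2]; exact h23.symm
    exact (key D' hD' b1 b2 (Ne.symm hne)).2.2
  have k1 := key D hD a1 a2 a3
  by_cases b1 : D' = C1
  · rw [b1]; exact k1.1.symm
  by_cases b2 : D' = C2
  · rw [b2]; exact k1.2.1.symm
  by_cases b3 : D' = C3
  · rw [b3]; exact k1.2.2.symm
  have k2 := key D' hD' b1 b2 b3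
  obtain ⟨x1, hx1⟩ := h1.1.1
  obtain ⟨x2, hx2⟩ := h2.1.1
  have hx12 : x1 ≠ x2 := fun h => disjoint_left.1 h12 hx1 (h ▸ hx2)
  have hc : 2 ≤ (univ \ (D ∪ D')).card := by
    rw [← card_pair hx12]
    apply card_le_card
    rw [pair_subset]
    constructor
    · rw [mem_sdiff, mem_union]
      refine ⟨mem_univ _, ?_⟩
      rintro (h | h)
      · exact disjoint_left.1 k1.1 hx1 h
      · exact disjoint_left.1 k2.1 hx1 h
    · rw [mem_sdiff, mem_union]
      refine ⟨mem_univ _, ?_⟩
      rintro (h | h)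
      · exact disjoint_left.1 k1.2.1 hx2 h
      · exact disjoint_left.1 k2.2.1 hx2 h
  rcases hD.alt2 hH hD' hc with h | h
  · exact absurd h hne
  · exact h

theorem no_bridge {H : Finset (Finset α)} (hH : Indep H) (h0 : dof H = 0)
    (hn : 4 ≤ Fintype.card α) {C1 C2 C3 : Finset α} (h1 : MinCot H C1) (h2 : MinCot H C2)
    (h3 : MinCot H C3) (h12 : Disjoint C1 C2) (h13 : Disjoint C1 C3) (h23 : Disjoint C2 C3)
    {A : Finset α} (hA : A ∈ H) (hA1 : (A ∩ C1).Nonempty) (hA2 : (A ∩ C2).Nonempty) : False := by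
  have hc := three_two hH h0 hn h1 h2 h3 h12 h13 h23
  have hle := gg_le hH hc
  have g1 := (cot_gg h0 h1.1).1
  have g2 := (cot_gg h0 h2.1).1
  have hw := hH.w_pos hA
  have e1 : H.filter (fun X => (X ∩ (C1 ∪ C2)).Nonempty) =
      H.filter (fun X => (X ∩ C1).Nonempty) ∪ H.filter (fun X => (X ∩ C2).Nonempty) := by
    ext X
    rw [mem_union, mem_filter, mem_filter, mem_filter, inter_union_distrib_left,
      union_nonempty]
    tauto
  have e2 : sTo H (C1 ∪ C2) + ∑ X ∈ H.filter (fun X => (X ∩ C1).Nonempty) ∩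
      H.filter (fun X => (X ∩ C2).Nonempty), w X = sTo H C1 + sTo H C2 := by
    unfold sTo
    rw [e1]
    exact sum_union_inter
  have e3 : w A ≤ ∑ X ∈ H.filter (fun X => (X ∩ C1).Nonempty) ∩
      H.filter (fun X => (X ∩ C2).Nonempty), w X := by
    refine single_le_sum (f := w) (fun X hX => ?_) ?_
    · have := hH.w_pos (mem_filter.1 (mem_inter.1 hX).1).1
      linarith
    · exact mem_inter.2 ⟨mem_filter.2 ⟨hA, hA1⟩, mem_filter.2 ⟨hA, hA2⟩⟩
  have e4 : (C1 ∪ C2).card = C1.card + C2.card := card_union_of_disjoint h12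
  unfold gg at hle g1 g2
  rw [e4, h0] at hle
  push_cast at hle
  linarith

theorem rig_contains {H : Finset (Finset α)} (hH : Indep H) (h0 : dof H = 0)
    (hn : 4 ≤ Fintype.card α) {C1 C2 C3 : Finset α} (h1 : MinCot H C1) (h2 : MinCot H C2)
    (h3 : MinCot H C3) (h12 : Disjoint C1 C2) (h13 : Disjoint C1 C3) (h23 : Disjoint C2 C3)
    {T : Finset α} (hT : Rig H T) {x1 x2 : α} (hx1 : x1 ∈ C1) (hx1T : x1 ∈ T) (hx2 : x2 ∈ C2)
    (hx2T : x2 ∈ T) : C1 ⊆ T ∧ ∀ A ∈ H, (A ∩ C1).Nonempty → A ⊆ T := by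
  have hx21 : x2 ∉ C1 := fun h => disjoint_left.1 h12 h hx2
  have hx2m : x2 ∈ T \ C1 := mem_sdiff.2 ⟨hx2T, hx21⟩
  have h2c : 2 ≤ (T \ C1).card := by
    by_contra hcon
    obtain ⟨A, hA, hx2A, hAT⟩ := hT.exists_mem hH hx2T
    obtain ⟨y, hy, hne⟩ := exists_mem_ne (by have := hH.two A hA; omega : 1 < A.card) x2
    have hyC : y ∈ C1 := by
      by_contra hyC
      have hym : y ∈ T \ C1 := mem_sdiff.2 ⟨hAT hy, hyC⟩
      exact hne (card_le_one.1 (by omega) y hym x2 hx2m)
    exact no_bridge hH h0 hn h1 h2 h3 h12 h13 h23 hA ⟨y, mem_inter.2 ⟨hy, hyC⟩⟩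
      ⟨x2, mem_inter.2 ⟨hx2A, hx2⟩⟩
  have hCT : C1 ⊆ T := by
    rcases h1.alt hH hT h2c with h | h
    · exact h
    · exact absurd hx1T (disjoint_left.1 h hx1)
  refine ⟨hCT, fun B hB hBC => ?_⟩
  by_contra hBT
  have e0 : T ∩ (univ \ C1) = T \ C1 := by
    ext x
    simp only [mem_inter, mem_sdiff, mem_univ, true_and]
  have hR : Rig H (T \ C1) := by
    rw [← e0]
    exact hT.inter hH h1.1.2 (by rw [e0]; exact h2c)
  have hsto := (cot_gg h0 h1.1).2
  have e1 : sIn H T = sIn H (T \ C1) +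
      ∑ A ∈ H.filter (fun A => A ⊆ T ∧ (A ∩ C1).Nonempty), w A := by
    unfold sIn
    rw [← sum_filter_add_sum_filter_not (H.filter (fun A => A ⊆ T))
      (fun A => (A ∩ C1).Nonempty) w, add_comm]
    congr 1
    · apply sum_congr _ fun _ _ => rfl
      ext A
      simp only [mem_filter, and_assoc, and_congr_right_iff]
      intro _
      rw [not_nonempty_iff_eq_empty, ← disjoint_iff_inter_eq_empty]
      constructor
      · rintro ⟨h, h'⟩ x hx
        exact mem_sdiff.2 ⟨h hx, fun hxC => disjoint_left.1 h' hx hxC⟩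
      · intro h
        refine ⟨h.trans sdiff_subset, disjoint_left.2 fun x hx hxC => ?_⟩
        exact (mem_sdiff.1 (h hx)).2 hxC
    · apply sum_congr _ fun _ _ => rfl
      ext A
      simp only [mem_filter, and_assoc]
  have e2 : ∑ A ∈ insert B (H.filter (fun A => A ⊆ T ∧ (A ∩ C1).Nonempty)), w A ≤
      sTo H C1 := by
    unfold sTo
    apply sum_le_sum_of_subset_of_nonneg
    · intro A hA
      rcases mem_insert.1 hA with rfl | hA
      · exact mem_filter.2 ⟨hB, hBC⟩
      · exact mem_filter.2 ⟨(mem_filter.1 hA).1, (mem_filter.1 hA).2.2⟩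
    · intro A hA _
      have := hH.w_pos (mem_filter.1 hA).1
      linarith
  rw [sum_insert (fun h => hBT (mem_filter.1 h).2.1)] at e2
  have hwB := hH.w_pos hB
  have k1 := hT.2
  have k2 := hR.2
  have hcard := card_sdiff_add_card_eq_card hCT
  unfold kk w at k1 k2
  have hcard' : ((T \ C1).card : ℤ) + C1.card = T.card := by exact_mod_cast hcard
  rw [hsto] at e2
  linarith

end Pool.Agent.GRA
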