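import Pool.Agent.GRA.R0

/-!
# GRA/R2: if there are no three disjoint co-tight sets, one pair suffices

PROOF of `pair_of_pack_two`. Suppose the contrary: every pair `x ≠ y` lies in a rigid set `X ≠ univ`.
Then `univ \ X` is `Cot` and contains a `MinCot` set `D` (`exists_minCot`), so:
(0) for all `x ≠ y` there is a `MinCot` set `D` with `x, y ∉ D`.

CASE (a): there are two disjoint `MinCot` sets `C1, C2` (in particular `C1 ≠ C2`).
(1) For all `x ∈ C1`, `y ∈ C2`: `{x, y} ∈ H`. Proof: let `D` be as in (0), `T = univ \ D ∋ x, y` rigid;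
`D ≠ C1, C2`. If `|T \ C1| ≥ 2` and `|T \ C2| ≥ 2`, `alt2` (`T \ C = univ \ (C ∪ D)`) makes `D` disjoint
from `C1` and `C2`, and `{C1, C2, D}` contradicts `Pack H 2`. Say `|T \ C1| ≤ 1` (the other case is
symmetric): `T \ C1 = {y}`. If `|T| ≥ 3`: `T ∩ C2 ⊆ T \ C1 = {y}`, so `|T \ C2| ≥ 2`, `alt2` gives `C2`
disjoint from `D`, i.e. `C2 ⊆ T`, `C2 ⊆ T \ C1 = {y}`, `C2 = {y}`. Then `sTo H {y} = 2` (`cot_gg`); the
members containing `y` inside `T` have weight ≥ 2 (`Rig.two_le_weight`), and there is a member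
containing `y` inside the rigid set `univ \ C1` (`Rig.exists_mem`), which is not inside `T` as
`T ∩ (univ \ C1) = {y}`: total ≥ 3, contradiction. So `|T| = 2`, `T = {x,y}`, and a rigid pair is a
member (`Rig.exists_mem`).
(2) `sTo H C1 = 2|C1|`, and the `|C1||C2|` members `{x,y}` meet `C1`: `|C2| ≤ 2`; symmetrically `|C1| ≤ 2`.
If `|C2| = 2`: the members `{x,y}`, `x ∈ C1`, `y ∈ C2` have total weight `2|C1| = sTo H C1`, so they are
all the members meeting `C1`. Take `x ∈ C1`: the members containing `x` are `{x,y}, {x,y'}`, so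
`gg H {x} = 1`, `{x}` is `Cot` (`cot_of_gg`, `n ≥ 3`), `C1 = {x}`. But `univ \ C2` is rigid and contains
`x`; a member containing `x` inside it exists, but all members containing `x` meet `C2`: contradiction.
Symmetrically `|C1| = 2` is impossible. If `C1 = {x}`, `C2 = {y}`: `{x,y} ∈ H`, and `univ \ {x}` is rigid
with `n - 1 ≥ 3` elements, so the members containing `y` inside it have weight ≥ 2; together with
`{x,y}` this contradicts `sTo H {y} = 2`.

CASE (b): any two `MinCot` sets meet. Then for distinct `MinCot` sets `D, D'`: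
`|univ \ (D ∪ D')| ≤ 1` (`alt2`). Let `𝒯` be the (finite) family of the complements of `MinCot` sets: rigid
sets, `≠ univ`, pairwise sharing at most one vertex, and every pair `x ≠ y` is in one of them (0).
Let `T ∈ 𝒯` have maximal size `s`, `v ∉ T`. For `y ∈ T` let `L_y ∈ 𝒯` contain `v, y`. Then `L_y ≠ T`,
`L_y ∩ T = {y}`, and for `y ≠ y'`, `L_y ≠ L_y'` (else it shares `y, y'` with `T`), `L_y ∩ L_y' = {v}`. Let
`U = T ∪ ⋃ L_y`. `|U| = s + Σ (|L_y| - 2) + 1`. Since these sets pairwise share at most one vertex, the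
members of `H` inside the different sets are different: `sIn U ≥ w T + Σ w L_y`. From `kk H U ≥ 0`:
`2s + 2Σ(|L_y| - 2) + 2 - 3 ≥ (2s - 3) + Σ (2|L_y| - 3)`, i.e. `-2s - 1 ≥ -s - 3` (there are `s` sets), so
`s ≤ 2`. So all sets in `𝒯` are pairs, and by (0) all pairs are rigid, hence members of `H`
(`Rig.exists_mem`). Then `Σ_{X ∈ H} w X ≥ n(n-1)/2` and `Σ = 2n - 3 - dof = 2n - 3`, so
`(n-2)(n-3) ≤ 0`, contradicting `n ≥ 4`.
(If there is no `MinCot` set at all, (0) is already contradictory; `MinCot` sets exist by (0).)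
-/

namespace Pool.Agent.GRA

open Finset

variable {α : Type*} [Fintype α] [DecidableEq α]

/-- a rigid pair is a member -/
private theorem r2_pair_mem {H : Finset (Finset α)} (hH : Indep H) {x y : α} (hxy : x ≠ y)
    {T : Finset α} (hT : Rig H T) (hx : x ∈ T) (hy : y ∈ T) (hc : T.card ≤ 2) :
    ({x, y} : Finset α) ∈ H := by
  have hsub : ({x, y} : Finset α) ⊆ T := pair_subset.2 ⟨hx, hy⟩
  have hTe : ({x, y} : Finset α) = T :=
    eq_of_subset_of_card_le hsub (by rw [card_pair hxy]; exact hc)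
  obtain ⟨A, hA, -, hAT⟩ := hT.exists_mem hH hx
  have hAe : A = T := eq_of_subset_of_card_le hAT (hc.trans (hH.two A hA))
  rw [hTe, ← hAe]
  exact hA

/-- total weight of the members through `y` is at least three in two situations -/
private theorem r2_three {H : Finset (Finset α)} (hH : Indep H) {y : α} {T A : Finset α}
    (hT : Rig H T) (h3 : 3 ≤ T.card) (hy : y ∈ T) (hA : A ∈ H) (hyA : y ∈ A) (hAT : ¬ A ⊆ T) :
    3 ≤ sTo H {y} := by
  rw [sTo_singleton]
  have h1 := hT.two_le_weight hH h3 hy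
  have h2 := hH.w_pos hA
  have hnot : A ∉ H.filter (fun B => y ∈ B ∧ B ⊆ T) := fun h => hAT (mem_filter.1 h).2.2
  have h4 : ∑ B ∈ insert A (H.filter (fun B => y ∈ B ∧ B ⊆ T)), w B
      ≤ ∑ B ∈ H.filter (fun B => y ∈ B), w B := by
    apply sum_le_sum_of_subset_of_nonneg
    · intro B hB
      rcases mem_insert.1 hB with rfl | hB
      · exact mem_filter.2 ⟨hA, hyA⟩
      · exact mem_filter.2 ⟨(mem_filter.1 hB).1, (mem_filter.1 hB).2.1⟩
    · intro B hB _
      have := hH.w_pos (mem_filter.1 hB).1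
      linarith
  rw [sum_insert hnot] at h4
  linarith

private theorem r2_sdiff (C D : Finset α) : univ \ (C ∪ D) = (univ \ D) \ C := by
  ext x
  simp only [mem_sdiff, mem_union, mem_univ, true_and]
  tauto

private theorem r2_mem_aux {H : Finset (Finset α)} (hH : Indep H) (h0 : dof H = 0)
    {C1 C2 D : Finset α} (h1 : MinCot H C1) (h2 : MinCot H C2) (hD : MinCot H D)
    (hdis : Disjoint C1 C2) {x y : α} (hx : x ∈ C1) (hy : y ∈ C2) (hxD : x ∉ D) (hyD : y ∉ D)
    (hle : ((univ \ D) \ C1).card ≤ 1) : ({x, y} : Finset α) ∈ H := by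
  have hxy : x ≠ y := by
    rintro rfl
    exact disjoint_left.1 hdis hx hy
  have hT : Rig H (univ \ D) := hD.1.2
  have hxT : x ∈ univ \ D := mem_sdiff.2 ⟨mem_univ _, hxD⟩
  have hyT : y ∈ univ \ D := mem_sdiff.2 ⟨mem_univ _, hyD⟩
  have hy1 : y ∉ C1 := fun h => disjoint_left.1 hdis h hy
  have hone : ∀ z ∈ (univ \ D) \ C1, z = y := by
    intro z hz
    exact card_le_one.1 hle z hz y (mem_sdiff.2 ⟨hyT, hy1⟩)
  by_cases h3 : 3 ≤ (univ \ D).card
  · exfalso
    have hsub : (univ \ D) ∩ C2 ⊆ {y} := by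
      intro z hz
      rw [mem_inter] at hz
      rw [mem_singleton]
      exact hone z (mem_sdiff.2 ⟨hz.1, fun h => disjoint_left.1 hdis h hz.2⟩)
    have hc2 : 2 ≤ ((univ \ D) \ C2).card := by
      have e1 := card_sdiff_add_card_inter (univ \ D) C2
      have e2 := card_le_card hsub
      rw [card_singleton] at e2
      omega
    have hdis2 : Disjoint C2 D := by
      rcases h2.alt2 hH hD (by rw [r2_sdiff]; exact hc2) with h | h
      · exact absurd (h ▸ hy) hyD
      · exact h
    have hC2 : C2 = {y} := by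
      apply subset_antisymm
      · intro z hz
        exact hsub (mem_inter.2 ⟨mem_sdiff.2 ⟨mem_univ _, disjoint_left.1 hdis2 hz⟩, hz⟩)
      · exact singleton_subset_iff.2 hy
    have hs := (cot_gg h0 h2.1).2
    rw [hC2, card_singleton] at hs
    obtain ⟨A, hA, hyA, hA1⟩ := h1.1.2.exists_mem hH
      (mem_sdiff.2 ⟨mem_univ _, hy1⟩ : y ∈ univ \ C1)
    have hAT : ¬ A ⊆ univ \ D := by
      intro h
      have h4 : A ⊆ {y} := by
        intro z hz
        rw [mem_singleton]
        exact hone z (mem_sdiff.2 ⟨h hz, (mem_sdiff.1 (hA1 hz)).2⟩)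
      have h5 := card_le_card h4
      rw [card_singleton] at h5
      have h6 := hH.two A hA
      omega
    have h7 := r2_three hH hT h3 hyT hA hyA hAT
    rw [hs] at h7
    norm_num at h7
  · exact r2_pair_mem hH hxy hT hxT hyT (by omega)

private theorem r2_card {H : Finset (Finset α)} (hH : Indep H) (h0 : dof H = 0)
    {C1 C2 : Finset α} (h1 : MinCot H C1) (h2 : MinCot H C2)
    (hdis : Disjoint C1 C2) (hm : ∀ x ∈ C1, ∀ y ∈ C2, ({x, y} : Finset α) ∈ H) :
    C2.card ≤ 1 := by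
  classical
  obtain ⟨x, hx⟩ := h1.1.1
  have hx2 : x ∉ C2 := disjoint_left.1 hdis hx
  obtain ⟨A, hA, hxA, hA2⟩ := h2.1.2.exists_mem hH
    (mem_sdiff.2 ⟨mem_univ _, hx2⟩ : x ∈ univ \ C2)
  have hs := (cot_gg h0 h1.1).2
  obtain ⟨Q, hQ⟩ : ∃ Q : Finset (Finset α),
      Q = (C1 ×ˢ C2).image (fun p => ({p.1, p.2} : Finset α)) := ⟨_, rfl⟩
  have hinj : Set.InjOn (fun p : α × α => ({p.1, p.2} : Finset α)) (C1 ×ˢ C2 : Finset (α × α)) := by
    rintro ⟨a, b⟩ hab ⟨c, d⟩ hcd he
    rw [mem_coe, mem_product] at hab hcd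
    dsimp only at hab hcd he
    have h3 : a ∈ ({c, d} : Finset α) := by rw [← he]; simp
    have h4 : b ∈ ({c, d} : Finset α) := by rw [← he]; simp
    rw [mem_insert, mem_singleton] at h3 h4
    have h5 : a = c := by
      rcases h3 with h | h
      · exact h
      · exact absurd (h ▸ hcd.2) (disjoint_left.1 hdis hab.1)
    have h6 : b = d := by
      rcases h4 with h | h
      · exact absurd hab.2 (h ▸ disjoint_left.1 hdis hcd.1)
      · exact h
    rw [h5, h6]
  have hQc : Q.card = C1.card * C2.card := by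
    rw [hQ, card_image_of_injOn hinj, card_product]
  have hQw : ∀ B ∈ Q, w B = 1 := by
    intro B hB
    rw [hQ, mem_image] at hB
    obtain ⟨⟨a, b⟩, hab, rfl⟩ := hB
    rw [mem_product] at hab
    apply w_pair
    rintro h
    dsimp only at h hab
    exact disjoint_left.1 hdis hab.1 (h ▸ hab.2)
  have hAQ : A ∉ Q := by
    intro hAQ
    rw [hQ, mem_image] at hAQ
    obtain ⟨⟨a, b⟩, hab, hAe⟩ := hAQ
    rw [mem_product] at hab
    have h3 : b ∈ A := by rw [← hAe]; simp
    exact (mem_sdiff.1 (hA2 h3)).2 hab.2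
  have h3 : ∑ B ∈ insert A Q, w B ≤ sTo H C1 := by
    unfold sTo
    apply sum_le_sum_of_subset_of_nonneg
    · intro B hB
      rcases mem_insert.1 hB with rfl | hB
      · exact mem_filter.2 ⟨hA, x, mem_inter.2 ⟨hxA, hx⟩⟩
      · rw [hQ, mem_image] at hB
        obtain ⟨⟨a, b⟩, hab, rfl⟩ := hB
        rw [mem_product] at hab
        exact mem_filter.2 ⟨hm a hab.1 b hab.2, a, mem_inter.2 ⟨by simp, hab.1⟩⟩
    · intro B hB _
      have := hH.w_pos (mem_filter.1 hB).1
      linarith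
  rw [sum_insert hAQ, sum_congr rfl hQw, sum_const, nsmul_eq_mul, mul_one, hQc, hs] at h3
  have h4 := hH.w_pos hA
  have h5 : ((C1.card * C2.card + 1 : ℕ) : ℤ) ≤ ((2 * C1.card : ℕ) : ℤ) := by
    push_cast at h3 ⊢
    linarith
  have h6 : C1.card * C2.card + 1 ≤ 2 * C1.card := by exact_mod_cast h5
  by_contra h7
  have h8 : C1.card * 2 ≤ C1.card * C2.card := Nat.mul_le_mul_left _ (by omega)
  omega

private theorem r2_caseA {H : Finset (Finset α)} (hH : Indep H) (h0 : dof H = 0)
    (hn : 4 ≤ Fintype.card α) (hP : Pack H 2)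
    (hall : ∀ x y : α, x ≠ y → ∃ D, MinCot H D ∧ x ∉ D ∧ y ∉ D)
    {C1 C2 : Finset α} (h1 : MinCot H C1) (h2 : MinCot H C2) (hdis : Disjoint C1 C2) : False := by
  classical
  have hm : ∀ x ∈ C1, ∀ y ∈ C2, ({x, y} : Finset α) ∈ H := by
    intro x hx y hy
    have hxy : x ≠ y := by
      rintro rfl
      exact disjoint_left.1 hdis hx hy
    obtain ⟨D, hD, hxD, hyD⟩ := hall x y hxy
    by_cases hc1 : ((univ \ D) \ C1).card ≤ 1
    · exact r2_mem_aux hH h0 h1 h2 hD hdis hx hy hxD hyD hc1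
    by_cases hc2 : ((univ \ D) \ C2).card ≤ 1
    · rw [pair_comm]
      exact r2_mem_aux hH h0 h2 h1 hD hdis.symm hy hx hyD hxD hc2
    exfalso
    have d1 : Disjoint C1 D := by
      rcases h1.alt2 hH hD (by rw [r2_sdiff]; omega) with h | h
      · exact absurd (h ▸ hx) hxD
      · exact h
    have d2 : Disjoint C2 D := by
      rcases h2.alt2 hH hD (by rw [r2_sdiff]; omega) with h | h
      · exact absurd (h ▸ hy) hyD
      · exact h
    have n12 : C1 ≠ C2 := by
      rintro rfl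
      exact disjoint_left.1 hdis hx hx
    have n1 : C1 ≠ D := fun h => hxD (h ▸ hx)
    have n2 : C2 ≠ D := fun h => hyD (h ▸ hy)
    have h3 := hP {C1, C2, D} (by
      intro C hC
      simp only [mem_insert, mem_singleton] at hC
      rcases hC with rfl | rfl | rfl
      · exact h1.1
      · exact h2.1
      · exact hD.1) (by
      intro A hA B hB hAB
      simp only [mem_insert, mem_singleton] at hA hB
      rcases hA with rfl | rfl | rfl <;> rcases hB with rfl | rfl | rfl
      · exact absurd rfl hAB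
      · exact hdis
      · exact d1
      · exact hdis.symm
      · exact absurd rfl hAB
      · exact d2
      · exact d1.symm
      · exact d2.symm
      · exact absurd rfl hAB)
    rw [card_insert_of_notMem (by simp [n12, n1]), card_pair n2] at h3
    omega
  have c2 := r2_card hH h0 h1 h2 hdis hm
  have c1 := r2_card hH h0 h2 h1 hdis.symm (fun y hy x hx => by rw [pair_comm]; exact hm x hx y hy)
  obtain ⟨x, hx⟩ := h1.1.1
  obtain ⟨y, hy⟩ := h2.1.1
  have e1 : C1 = {x} := by
    symm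
    exact eq_of_subset_of_card_le (singleton_subset_iff.2 hx) (by rw [card_singleton]; exact c1)
  have e2 : C2 = {y} := by
    symm
    exact eq_of_subset_of_card_le (singleton_subset_iff.2 hy) (by rw [card_singleton]; exact c2)
  have hs := (cot_gg h0 h2.1).2
  rw [e2, card_singleton] at hs
  have hT : Rig H (univ \ C1) := h1.1.2
  have hcT : 3 ≤ (univ \ C1).card := by
    have h3 := card_sdiff_add_card_eq_card (subset_univ C1)
    rw [e1, card_singleton, card_univ] at h3
    rw [e1]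
    omega
  have hyT : y ∈ univ \ C1 := mem_sdiff.2 ⟨mem_univ _, fun h => disjoint_left.1 hdis h hy⟩
  have h3 := r2_three hH hT hcT hyT (hm x hx y hy) (by simp) (fun h =>
    (mem_sdiff.1 (h (by simp : x ∈ ({x, y} : Finset α)))).2 hx)
  rw [hs] at h3
  norm_num at h3

private theorem r2_caseB {H : Finset (Finset α)} (hH : Indep H) (h0 : dof H = 0)
    (hn : 4 ≤ Fintype.card α)
    (hall : ∀ x y : α, x ≠ y → ∃ D, MinCot H D ∧ x ∉ D ∧ y ∉ D)
    (hdis : ∀ C1 C2, MinCot H C1 → MinCot H C2 → ¬ Disjoint C1 C2) : False := by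
  classical
  obtain ⟨𝒯, h𝒯⟩ : ∃ 𝒯 : Finset (Finset α), 𝒯 = univ.filter (fun T => MinCot H (univ \ T)) :=
    ⟨_, rfl⟩
  have mem𝒯 : ∀ T, T ∈ 𝒯 ↔ MinCot H (univ \ T) := by
    intro T
    rw [h𝒯, mem_filter]
    simp
  have hrig : ∀ T ∈ 𝒯, Rig H T := by
    intro T hT
    have := ((mem𝒯 T).1 hT).1.2
    rwa [Finset.sdiff_sdiff_eq_self (subset_univ T)] at this
  have hcov : ∀ x y : α, x ≠ y → ∃ T ∈ 𝒯, x ∈ T ∧ y ∈ T := by
    intro x y hxy
    obtain ⟨D, hD, hx, hy⟩ := hall x y hxy
    refine ⟨univ \ D, (mem𝒯 _).2 ?_, mem_sdiff.2 ⟨mem_univ _, hx⟩, mem_sdiff.2 ⟨mem_univ _, hy⟩⟩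
    rw [Finset.sdiff_sdiff_eq_self (subset_univ D)]
    exact hD
  have hthin : ∀ T ∈ 𝒯, ∀ T' ∈ 𝒯, T ≠ T' → (T ∩ T').card ≤ 1 := by
    intro T hT T' hT' hne
    by_contra hc
    have h1 := (mem𝒯 T).1 hT
    have h2 := (mem𝒯 T').1 hT'
    have h3 : univ \ ((univ \ T) ∪ (univ \ T')) = T ∩ T' := by
      ext x
      simp only [mem_sdiff, mem_union, mem_univ, true_and, mem_inter]
      tauto
    rcases h1.alt2 hH h2 (by rw [h3]; omega) with h | h
    · apply hne
      have h4 : univ \ (univ \ T) = univ \ (univ \ T') := by rw [h]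
      rwa [Finset.sdiff_sdiff_eq_self (subset_univ T),
        Finset.sdiff_sdiff_eq_self (subset_univ T')] at h4
    · exact hdis _ _ h1 h2 h
  obtain ⟨a, b, hab⟩ := Fintype.exists_pair_of_one_lt_card (by omega : 1 < Fintype.card α)
  obtain ⟨T₀, hT₀, -, -⟩ := hcov a b hab
  obtain ⟨T, hT, hmax⟩ := exists_max_image 𝒯 card ⟨T₀, hT₀⟩
  obtain ⟨v, hv⟩ := ((mem𝒯 T).1 hT).1.1
  have hvT : v ∉ T := (mem_sdiff.1 hv).2
  have hL : ∀ y : α, ∃ L : Finset α, y ∈ T → L ∈ 𝒯 ∧ v ∈ L ∧ y ∈ L := by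
    intro y
    by_cases hy : y ∈ T
    · obtain ⟨L, hL, h1, h2⟩ := hcov v y (fun h => hvT (h ▸ hy))
      exact ⟨L, fun _ => ⟨hL, h1, h2⟩⟩
    · exact ⟨∅, fun h => absurd h hy⟩
  choose L hL using hL
  have hLT : ∀ y ∈ T, L y ≠ T := fun y hy h => hvT (h ▸ (hL y hy).2.1)
  have hLL : ∀ y ∈ T, ∀ z ∈ T, y ≠ z → L y ≠ L z := by
    intro y hy z hz hyz h
    have h1 := hthin (L y) (hL y hy).1 T hT (hLT y hy)
    have h2 : ({y, z} : Finset α) ⊆ L y ∩ T := by
      rw [pair_subset, mem_inter, mem_inter]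
      exact ⟨⟨(hL y hy).2.2, hy⟩, ⟨h ▸ (hL z hz).2.2, hz⟩⟩
    have h3 := card_le_card h2
    rw [card_pair hyz] at h3
    omega
  obtain ⟨U, hU⟩ : ∃ U, U = T ∪ T.biUnion L := ⟨_, rfl⟩
  -- upper bound for the cardinality
  have hUc : U.card ≤ T.card + 1 + ∑ y ∈ T, ((L y).card - 2) := by
    have hsub : U ⊆ insert v T ∪ T.biUnion (fun y => (L y).erase v |>.erase y) := by
      intro z hz
      rw [hU, mem_union, mem_biUnion] at hz
      rw [mem_union, mem_insert, mem_biUnion]
      rcases hz with hz | ⟨y, hy, hz⟩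
      · exact Or.inl (Or.inr hz)
      · by_cases h1 : z = v
        · exact Or.inl (Or.inl h1)
        by_cases h2 : z = y
        · exact Or.inl (Or.inr (h2 ▸ hy))
        · exact Or.inr ⟨y, hy, mem_erase.2 ⟨h2, mem_erase.2 ⟨h1, hz⟩⟩⟩
    refine (card_le_card hsub).trans ((card_union_le _ _).trans ?_)
    rw [card_insert_of_notMem hvT]
    refine Nat.add_le_add_left (card_biUnion_le.trans (sum_le_sum fun y hy => ?_)) _
    rw [card_erase_of_mem (mem_erase.2 ⟨fun h : y = v => hvT (h ▸ hy), (hL y hy).2.2⟩),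
      card_erase_of_mem (hL y hy).2.1]
    omega
  -- lower bound for the weight
  have hsum : w T + ∑ y ∈ T, w (L y) ≤ sIn H U := by
    have hd1 : ∀ A ∈ 𝒯, ∀ B ∈ 𝒯, A ≠ B →
        Disjoint (H.filter (fun X => X ⊆ A)) (H.filter (fun X => X ⊆ B)) := by
      intro A hA B hB hAB
      rw [disjoint_left]
      intro X hX hX'
      have h1 := hthin A hA B hB hAB
      have h2 := card_le_card (subset_inter (mem_filter.1 hX).2 (mem_filter.1 hX').2)
      have h3 := hH.two X (mem_filter.1 hX).1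
      omega
    have hw : ∀ A ∈ 𝒯, w A = ∑ X ∈ H.filter (fun X => X ⊆ A), w X := by
      intro A hA
      have := (hrig A hA).2
      unfold kk sIn at this
      linarith
    rw [hw T hT, sum_congr rfl fun y hy => hw (L y) (hL y hy).1,
      ← sum_biUnion (fun y hy z hz hyz => hd1 _ (hL y hy).1 _ (hL z hz).1 (hLL y hy z hz hyz)),
      ← sum_union]
    · unfold sIn
      apply sum_le_sum_of_subset_of_nonneg
      · intro X hX
        rw [mem_union, mem_filter, mem_biUnion] at hX
        rw [mem_filter, hU]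
        rcases hX with hX | ⟨y, hy, hX⟩
        · exact ⟨hX.1, hX.2.trans subset_union_left⟩
        · rw [mem_filter] at hX
          exact ⟨hX.1, hX.2.trans ((subset_biUnion_of_mem L hy).trans subset_union_right)⟩
      · intro X hX _
        have := hH.w_pos (mem_filter.1 hX).1
        linarith
    · rw [disjoint_biUnion_right]
      intro y hy
      exact hd1 _ hT _ (hL y hy).1 (hLT y hy).symm
  have hU2 : 2 ≤ U.card := (hrig T hT).1.trans (card_le_card (by rw [hU]; exact subset_union_left))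
  have hkU := hH.nonneg U hU2
  have hs2 : T.card ≤ 2 := by
    have h1 : ∀ y ∈ T, w (L y) = 2 * (((L y).card - 2 : ℕ) : ℤ) + 1 := by
      intro y hy
      have h2 := (hrig _ (hL y hy).1).1
      unfold w
      rw [Nat.cast_sub h2]
      push_cast
      ring
    rw [sum_congr rfl h1, sum_add_distrib, ← mul_sum, sum_const, nsmul_eq_mul, mul_one] at hsum
    unfold kk w at hkU
    unfold w at hsum
    have h2 : (U.card : ℤ) ≤ T.card + 1 + ∑ y ∈ T, (((L y).card - 2 : ℕ) : ℤ) := by
      exact_mod_cast hUc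
    have h3 : (T.card : ℤ) ≤ 2 := by linarith
    exact_mod_cast h3
  have hpairs : ∀ x y : α, x ≠ y → ({x, y} : Finset α) ∈ H := by
    intro x y hxy
    obtain ⟨T', hT', hx, hy⟩ := hcov x y hxy
    exact r2_pair_mem hH hxy (hrig T' hT') hx hy ((hmax T' hT').trans hs2)
  have hsub : powersetCard 2 (univ : Finset α) ⊆ H := by
    intro A hA
    rw [mem_powersetCard] at hA
    obtain ⟨x, y, hxy, rfl⟩ := card_eq_two.1 hA.2
    exact hpairs x y hxy
  have h1 : ∑ A ∈ powersetCard 2 (univ : Finset α), w A ≤ ∑ A ∈ H, w A :=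
    sum_le_sum_of_subset_of_nonneg hsub (fun A hA _ => by
      have := hH.w_pos hA
      linarith)
  have h2 : ∑ A ∈ powersetCard 2 (univ : Finset α), w A = ((Fintype.card α).choose 2 : ℕ) := by
    rw [sum_congr rfl (g := fun _ => (1 : ℤ))]
    · rw [sum_const, card_powersetCard, card_univ, nsmul_eq_mul, mul_one]
    · intro A hA
      rw [mem_powersetCard] at hA
      unfold w
      rw [hA.2]
      norm_num
  have h3 : ∑ A ∈ H, w A = 2 * (Fintype.card α : ℤ) - 3 := by
    rw [← sIn_univ]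
    unfold dof kk w at h0
    rw [card_univ] at h0
    linarith
  rw [h2, h3] at h1
  have h4 : ((Fintype.card α).choose 2 : ℤ) + 3 ≤ 2 * (Fintype.card α : ℤ) := by linarith
  have h5 : (Fintype.card α).choose 2 + 3 ≤ 2 * Fintype.card α := by exact_mod_cast h4
  have h6 : (Fintype.card α).choose 2 * 2 = Fintype.card α * (Fintype.card α - 1) := by
    rw [Nat.choose_two_right]
    exact Nat.div_mul_cancel (Nat.even_mul_pred_self _).two_dvd
  obtain ⟨m, hm⟩ : ∃ m, Fintype.card α = m + 4 := ⟨Fintype.card α - 4, by omega⟩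
  rw [hm] at h5 h6
  have h7 : m + 4 - 1 = m + 3 := rfl
  rw [h7] at h6
  nlinarith

theorem pair_of_pack_two {H : Finset (Finset α)} (hH : Indep H) (h0 : dof H = 0)
    (hn : 4 ≤ Fintype.card α) (hP : Pack H 2) :
    ∃ x y, x ≠ y ∧ ∀ X, Rig H X → x ∈ X → y ∈ X → X = univ := by
  by_contra hcon
  push Not at hcon
  have hall : ∀ x y : α, x ≠ y → ∃ D, MinCot H D ∧ x ∉ D ∧ y ∉ D := by
    intro x y hxy
    obtain ⟨X, hX, hx, hy, hne⟩ := hcon x y hxy
    have hC : Cot H (univ \ X) := by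
      refine ⟨?_, ?_⟩
      · rw [nonempty_iff_ne_empty]
        intro he
        exact hne (subset_antisymm (subset_univ _) (sdiff_eq_empty_iff_subset.1 he))
      · rw [Finset.sdiff_sdiff_eq_self (subset_univ X)]
        exact hX
    obtain ⟨D, hD, hDC⟩ := exists_minCot hC
    exact ⟨D, hD, fun h => (mem_sdiff.1 (hDC h)).2 hx, fun h => (mem_sdiff.1 (hDC h)).2 hy⟩
  by_cases hc : ∃ C1 C2, MinCot H C1 ∧ MinCot H C2 ∧ Disjoint C1 C2
  · obtain ⟨C1, C2, h1, h2, h3⟩ := hc
    exact r2_caseA hH h0 hn hP hall h1 h2 h3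
  · push Not at hc
    exact r2_caseB hH h0 hn hall hc

end Pool.Agent.GRA
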