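import Pool.Agent.GRA.R1

/-!
# GRA/R3: the quartet lemma

PROOF of `quartet`. By `rig_contains` (with suitable permutations of the `Ci`) every member meeting
`C1` is inside `A` and inside `P`; meeting `C2`: inside `A`, `Q`; meeting `C3`: inside `B`, `P`; meeting
`C4`: inside `B`, `Q`. Such members exist (`Rig.exists_mem` at `x_i`). So `A ∩ P`, `A ∩ Q`, `B ∩ P`, `B ∩ Q`
have at least two elements and are rigid (`Rig.inter`).
FACT (*). If `X, Y` are rigid with `|X ∩ Y| ≥ 2` then every member inside `X ∪ Y` is inside `X` or inside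
`Y`: `sIn (X ∪ Y) = w (X ∪ Y) = w X + w Y - w (X ∩ Y) = sIn X + sIn Y - sIn (X ∩ Y)` which is the total
weight of the members inside `X` or inside `Y`; all weights are ≥ 1.
(a) `P ∩ Q ⊆ A`: let `p ∈ P ∩ Q`, `p ∉ A`. `A ∪ P` is rigid, `(A ∪ P) ∩ Q` contains `A ∩ Q`, so it is rigid;
it contains `p`; a member `M ∋ p` inside it: by (*) `M ⊆ A` (impossible) or `M ⊆ P`, so `M ⊆ P ∩ Q`,
contradicting `|P ∩ Q| ≤ 1`. In the same way (with `B` instead of `A`) `P ∩ Q ⊆ B`, and symmetrically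
`A ∩ B ⊆ P`, `A ∩ B ⊆ Q`.
(b) `A ∪ P` and `A ∪ P ∪ Q` are rigid (the latter since `(A ∪ P) ∩ Q ⊇ A ∩ Q`), and by (*) twice every
member inside `A ∪ P ∪ Q` is inside `A`, `P` or `Q`. `W := (A ∪ P ∪ Q) ∩ B ⊇ P ∩ B` is rigid, and by (a)
`W = (P ∩ B) ∪ (Q ∩ B)`. A member inside `W` is inside `B` and inside `A`, `P` or `Q`; not inside `A ∩ B`
(`|A ∩ B| ≤ 1`), so inside `P ∩ B` or `Q ∩ B`. Hence
`sIn W ≤ sIn (P ∩ B) + sIn (Q ∩ B) = w (P ∩ B) + w (Q ∩ B)`, while
`w W = w (P ∩ B) + w (Q ∩ B) - w (P ∩ Q ∩ B)` and `w (P ∩ Q ∩ B) = 2c - 3 ≤ -1` as `c ≤ 1`. So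
`sIn W < w W`, contradicting that `W` is rigid.
-/

namespace Pool.Agent.GRA

open Finset

variable {α : Type*} [Fintype α] [DecidableEq α]

private theorem starR3 {H : Finset (Finset α)} (hH : Indep H) {X Y M : Finset α}
    (hX : Rig H X) (hY : Rig H Y) (h : 2 ≤ (X ∩ Y).card) (hM : M ∈ H) (hMU : M ⊆ X ∪ Y) :
    M ⊆ X ∨ M ⊆ Y := by
  by_contra hc
  push Not at hc
  have h1 : H.filter (fun A => A ⊆ X) ∩ H.filter (fun A => A ⊆ Y) =
      H.filter (fun A => A ⊆ X ∩ Y) := by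
    ext A
    simp only [mem_inter, mem_filter, subset_inter_iff]
    tauto
  have h2 := sum_union_inter (s₁ := H.filter (fun A => A ⊆ X)) (s₂ := H.filter (fun A => A ⊆ Y))
    (f := w)
  rw [h1] at h2
  have h3 : ∑ A ∈ insert M (H.filter (fun A => A ⊆ X) ∪ H.filter (fun A => A ⊆ Y)), w A ≤
      ∑ A ∈ H.filter (fun A => A ⊆ X ∪ Y), w A := by
    apply sum_le_sum_of_subset_of_nonneg
    · intro A hA
      rcases mem_insert.1 hA with rfl | hA
      · exact mem_filter.2 ⟨hM, hMU⟩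
      · rcases mem_union.1 hA with hA | hA
        · exact mem_filter.2 ⟨(mem_filter.1 hA).1, (mem_filter.1 hA).2.trans subset_union_left⟩
        · exact mem_filter.2 ⟨(mem_filter.1 hA).1, (mem_filter.1 hA).2.trans subset_union_right⟩
    · intro A hA _
      have := hH.w_pos (mem_filter.1 hA).1
      linarith
  rw [sum_insert] at h3
  · have hwM := hH.w_pos hM
    have k1 := hX.2
    have k2 := hY.2
    have k3 := (hX.union hH hY h).2
    have k4 := (hX.inter hH hY h).2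
    have k5 := w_union_inter X Y
    unfold kk sIn at k1 k2 k3 k4
    linarith
  · intro hm
    rcases mem_union.1 hm with hm | hm
    · exact hc.1 (mem_filter.1 hm).2
    · exact hc.2 (mem_filter.1 hm).2

private theorem insR3 {H : Finset (Finset α)} (hH : Indep H) {A P Q : Finset α}
    (hA : Rig H A) (hP : Rig H P) (hQ : Rig H Q) (hAP : 2 ≤ (A ∩ P).card)
    (hAQ : 2 ≤ (A ∩ Q).card) (hPQ : (P ∩ Q).card ≤ 1) : P ∩ Q ⊆ A := by
  intro p hp
  by_contra hpA
  have hp' := mem_inter.1 hp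
  have hR : Rig H ((A ∪ P) ∩ Q) := (hA.union hH hP hAP).inter hH hQ
    (hAQ.trans (card_le_card (inter_subset_inter_right subset_union_left)))
  obtain ⟨M, hM, hpM, hMs⟩ := hR.exists_mem hH
    (mem_inter.2 ⟨mem_union.2 (Or.inr hp'.1), hp'.2⟩)
  rcases starR3 hH hA hP hAP hM (hMs.trans inter_subset_left) with h | h
  · exact hpA (h hpM)
  · have h1 := card_le_card (subset_inter h (hMs.trans inter_subset_right))
    have h2 := hH.two M hM
    omega

theorem quartet {H : Finset (Finset α)} (hH : Indep H) (h0 : dof H = 0)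
    (hn : 4 ≤ Fintype.card α) {C1 C2 C3 C4 : Finset α} (h1 : MinCot H C1) (h2 : MinCot H C2)
    (h3 : MinCot H C3) (h4 : MinCot H C4) (h12 : C1 ≠ C2) (h13 : C1 ≠ C3) (h14 : C1 ≠ C4)
    (h23 : C2 ≠ C3) (h24 : C2 ≠ C4) (h34 : C3 ≠ C4)
    (hdis : ∀ D D', MinCot H D → MinCot H D' → D ≠ D' → Disjoint D D')
    {x1 x2 x3 x4 : α} (hx1 : x1 ∈ C1) (hx2 : x2 ∈ C2) (hx3 : x3 ∈ C3) (hx4 : x4 ∈ C4)
    {A B P Q : Finset α} (hA : Rig H A) (hB : Rig H B) (hP : Rig H P) (hQ : Rig H Q)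
    (hA1 : x1 ∈ A) (hA2 : x2 ∈ A) (hB3 : x3 ∈ B) (hB4 : x4 ∈ B) (hP1 : x1 ∈ P) (hP3 : x3 ∈ P)
    (hQ2 : x2 ∈ Q) (hQ4 : x4 ∈ Q) (hAB : (A ∩ B).card ≤ 1) (hPQ : (P ∩ Q).card ≤ 1) : False := by
  have d12 := hdis _ _ h1 h2 h12
  have d13 := hdis _ _ h1 h3 h13
  have d14 := hdis _ _ h1 h4 h14
  have d23 := hdis _ _ h2 h3 h23
  have d24 := hdis _ _ h2 h4 h24
  have d34 := hdis _ _ h3 h4 h34
  -- the four intersections are large
  have hAP : 2 ≤ (A ∩ P).card := by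
    obtain ⟨M, hM, hxM, hMA⟩ := hA.exists_mem hH hA1
    have hMP := (rig_contains hH h0 hn h1 h3 h2 d13 d12 d23.symm hP hx1 hP1 hx3 hP3).2 M hM
      ⟨x1, mem_inter.2 ⟨hxM, hx1⟩⟩
    exact (hH.two M hM).trans (card_le_card (subset_inter hMA hMP))
  have hAQ : 2 ≤ (A ∩ Q).card := by
    obtain ⟨M, hM, hxM, hMA⟩ := hA.exists_mem hH hA2
    have hMP := (rig_contains hH h0 hn h2 h4 h1 d24 d12.symm d14.symm hQ hx2 hQ2 hx4 hQ4).2 M hM
      ⟨x2, mem_inter.2 ⟨hxM, hx2⟩⟩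
    exact (hH.two M hM).trans (card_le_card (subset_inter hMA hMP))
  have hBP : 2 ≤ (B ∩ P).card := by
    obtain ⟨M, hM, hxM, hMA⟩ := hB.exists_mem hH hB3
    have hMP := (rig_contains hH h0 hn h3 h1 h2 d13.symm d23.symm d12 hP hx3 hP3 hx1 hP1).2 M hM
      ⟨x3, mem_inter.2 ⟨hxM, hx3⟩⟩
    exact (hH.two M hM).trans (card_le_card (subset_inter hMA hMP))
  have hBQ : 2 ≤ (B ∩ Q).card := by
    obtain ⟨M, hM, hxM, hMA⟩ := hB.exists_mem hH hB4
    have hMP := (rig_contains hH h0 hn h4 h2 h1 d24.symm d14.symm d12.symm hQ hx4 hQ4 hx2 hQ2).2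
      M hM ⟨x4, mem_inter.2 ⟨hxM, hx4⟩⟩
    exact (hH.two M hM).trans (card_le_card (subset_inter hMA hMP))
  have hPA : 2 ≤ (P ∩ A).card := by rw [inter_comm]; exact hAP
  have hQA : 2 ≤ (Q ∩ A).card := by rw [inter_comm]; exact hAQ
  have hPB : 2 ≤ (P ∩ B).card := by rw [inter_comm]; exact hBP
  have hQB : 2 ≤ (Q ∩ B).card := by rw [inter_comm]; exact hBQ
  have s3 : A ∩ B ⊆ P := insR3 hH hP hA hB hPA hPB hAB
  -- the union of three
  have hU1 := hA.union hH hP hAP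
  have hUc : 2 ≤ ((A ∪ P) ∩ Q).card :=
    hAQ.trans (card_le_card (inter_subset_inter_right subset_union_left))
  have hU := hU1.union hH hQ hUc
  have hW : Rig H ((A ∪ P ∪ Q) ∩ B) := hU.inter hH hB (hPB.trans (card_le_card
    (inter_subset_inter_right (subset_union_right.trans subset_union_left))))
  have eW : (A ∪ P ∪ Q) ∩ B = (P ∩ B) ∪ (Q ∩ B) := by
    ext x
    simp only [mem_inter, mem_union]
    constructor
    · rintro ⟨(h | h) | h, hb⟩
      · exact Or.inl ⟨s3 (mem_inter.2 ⟨h, hb⟩), hb⟩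
      · exact Or.inl ⟨h, hb⟩
      · exact Or.inr ⟨h, hb⟩
    · rintro (⟨h, hb⟩ | ⟨h, hb⟩)
      · exact ⟨Or.inl (Or.inr h), hb⟩
      · exact ⟨Or.inr h, hb⟩
  have hle : sIn H ((A ∪ P ∪ Q) ∩ B) ≤ sIn H (P ∩ B) + sIn H (Q ∩ B) := by
    unfold sIn
    have k1 : H.filter (fun M => M ⊆ (A ∪ P ∪ Q) ∩ B) ⊆
        H.filter (fun M => M ⊆ P ∩ B) ∪ H.filter (fun M => M ⊆ Q ∩ B) := by
      intro M hM
      obtain ⟨hM, hMs⟩ := mem_filter.1 hM
      have hMB : M ⊆ B := hMs.trans inter_subset_right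
      rcases starR3 hH hU1 hQ hUc hM (hMs.trans inter_subset_left) with h | h
      · rcases starR3 hH hA hP hAP hM h with h | h
        · exfalso
          have h5 := card_le_card (subset_inter h hMB)
          have h6 := hH.two M hM
          omega
        · exact mem_union_left _ (mem_filter.2 ⟨hM, subset_inter h hMB⟩)
      · exact mem_union_right _ (mem_filter.2 ⟨hM, subset_inter h hMB⟩)
    have k2 := sum_union_inter (s₁ := H.filter (fun M => M ⊆ P ∩ B))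
      (s₂ := H.filter (fun M => M ⊆ Q ∩ B)) (f := w)
    have k3 : 0 ≤ ∑ M ∈ H.filter (fun M => M ⊆ P ∩ B) ∩ H.filter (fun M => M ⊆ Q ∩ B), w M :=
      sum_nonneg fun M hM => by
        have := hH.w_pos (mem_filter.1 (mem_inter.1 hM).1).1
        linarith
    have k4 := sum_le_sum_of_subset_of_nonneg (f := w) k1 (fun M hM _ => by
      have : M ∈ H := by
        rcases mem_union.1 hM with h | h
        · exact (mem_filter.1 h).1
        · exact (mem_filter.1 h).1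
      have := hH.w_pos this
      linarith)
    linarith
  have k1 := hW.2
  have k2 := (hP.inter hH hB hPB).2
  have k3 := (hQ.inter hH hB hQB).2
  have k4 := w_union_inter (P ∩ B) (Q ∩ B)
  have k5 : w ((P ∩ B) ∩ (Q ∩ B)) ≤ -1 := by
    have : ((P ∩ B) ∩ (Q ∩ B)).card ≤ 1 := (card_le_card (inter_subset_inter inter_subset_left
      inter_subset_left)).trans hPQ
    unfold w
    have h' : ((((P ∩ B) ∩ (Q ∩ B)).card : ℕ) : ℤ) ≤ 1 := by exact_mod_cast this
    linarith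
  have k6 : w ((A ∪ P ∪ Q) ∩ B) = w ((P ∩ B) ∪ (Q ∩ B)) := by rw [eW]
  unfold kk at k1 k2 k3
  linarith

end Pool.Agent.GRA
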