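import Pool.Agent.GRA.R3

/-!
# GRA/R4: one merging step in a rigid family with at least three ends

PROOF of `pack_merge`. Setting: all distinct `MinCot H` sets are disjoint (`hdis`), `C1, C2, C3` are three
distinct ones, `x1 ∈ C1`, `x2 ∈ C2`, `X` the least rigid set containing `x1, x2`, `H' = merge H X`, `P` a
family of pairwise disjoint `MinCot H'` sets, `|P| ≥ 3`. `𝒞` = the finite set of all `MinCot H` sets.
Let `D ∈ P`, `T = univ \ D`. By `merge_rig`: `Rig H T` and (`X ⊆ T` or `|X ∩ T| ≤ 1`).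
Type 1 (`X ⊆ T`): `D` is `Cot H` and contains a `MinCot H` set `C`; `x1, x2 ∉ C`, so `C ≠ C1, C2`; `C` is
`Cot H'` by `merge_rig` (`univ \ C` is rigid and contains `x1, x2`, so contains `X`), so `C = D` by
minimality of `D`: `D ∈ 𝒞 \ {C1, C2}`.
Type 2 (`|X ∩ T| ≤ 1`): at most one `D ∈ P` is of type 2: if `D ≠ D'` are, they are disjoint, so the
complements cover `univ`, `|X| ≤ 2`, `X = {x1,x2}` is rigid hence a member (`Rig.exists_mem`) meeting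
`C1` and `C2`, contradicting `no_bridge`.
So `|P| ≤ (|𝒞| - 2) + 1`. If `|P| = |𝒞| - 1` then there is exactly one type 2 set `D`, all of
`𝒞 \ {C1, C2}` is in `P`, and each `C ∈ 𝒞 \ {C1,C2}` is `≠ D` (for `D = C` both types would hold and
`|X| ≤ 1`), hence disjoint from `D`: `C ⊆ univ \ D =: T`.

PROOF of `rigid_step`. There are three pairwise disjoint `Cot` sets (`¬ Pack H 2`), hence three pairwise
disjoint `MinCot` sets inside them; by `minCot_disjoint` all distinct `MinCot` sets are disjoint. `𝒞`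
as above, `q = |𝒞| ≥ 3`, and `q ≤ 2 (N + 1)` by `hP` (members of `𝒞` are `Cot`).
A family of pairwise disjoint `Cot H'` sets yields a family of pairwise disjoint `MinCot H'` sets of
the same size (choose a `MinCot` subset in each; `H'` is independent; disjoint nonempty sets are
distinct).
`q = 3`: take `C1, C2`, `x1 ∈ C1`, `x2 ∈ C2`, `X` (`exists_min_rig`). `Pack (merge H X) 2`: otherwise a
`MinCot` family `P` with `|P| ≥ 3` and `pack_merge` gives `|P| ≤ 2`. And `2 ≤ 2N` since `N ≥ 1`.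
`q ≥ 4`: take `C1, …, C4` distinct, `x_i ∈ C_i`, `X12`, `X13` least rigid sets. If
`Pack (merge H X12) (2N)` or `Pack (merge H X13) (2N)` we are done. Otherwise there is a `MinCot` family
`P` for `merge H X12` with `|P| ≥ 2N + 1 ≥ 3`, and `|P| ≤ q - 1 ≤ 2N + 1`, so `|P| = q - 1` and `pack_merge`
gives rigid `T12` with `|X12 ∩ T12| ≤ 1` containing `C3, C4`; similarly rigid `T13` with
`|X13 ∩ T13| ≤ 1` containing `C2, C4`. `quartet` with `A = X12`, `B = T12`, `P = X13`, `Q = T13` is a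
contradiction.
-/

namespace Pool.Agent.GRA

open Finset

variable {α : Type*} [Fintype α] [DecidableEq α]

theorem r4_ne {H : Finset (Finset α)} {C1 C2 : Finset α} {x1 x2 : α} (h : Disjoint C1 C2)
    (hx1 : x1 ∈ C1) (hx2 : x2 ∈ C2) : x1 ≠ x2 := by
  rintro rfl
  exact Finset.disjoint_left.1 h hx1 hx2

/-- The type 1 sets. -/
theorem r4_type1 {H : Finset (Finset α)} (hH : Indep H) {C1 C2 : Finset α} {x1 x2 : α}
    (hx1 : x1 ∈ C1) (hx2 : x2 ∈ C2) {X : Finset α} (hX : Rig H X) (hX1 : x1 ∈ X) (hX2 : x2 ∈ X)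
    {D : Finset α} (hD : MinCot (merge H X) D) (hXD : X ⊆ univ \ D) :
    MinCot H D ∧ D ≠ C1 ∧ D ≠ C2 := by
  obtain ⟨⟨hDne, hDr⟩, hDm⟩ := hD
  have h1 := (merge_rig hH hX _).1 hDr
  obtain ⟨C, hC, hCD⟩ := exists_minCot (H := H) ⟨hDne, h1.1⟩
  have h2 : Cot (merge H X) C := ⟨hC.1.1, (merge_rig hH hX _).2 ⟨hC.1.2, Or.inl
    (hXD.trans (sdiff_subset_sdiff subset_rfl hCD))⟩⟩
  have h3 := hDm C h2 hCD
  rw [h3] at hC
  refine ⟨hC, ?_, ?_⟩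
  · rintro rfl
    exact (mem_sdiff.1 (hXD hX1)).2 hx1
  · rintro rfl
    exact (mem_sdiff.1 (hXD hX2)).2 hx2

/-- Two type 2 sets coincide. -/
theorem r4_type2 {H : Finset (Finset α)} (hH : Indep H) (h0 : dof H = 0)
    (hn : 4 ≤ Fintype.card α)
    (hdis : ∀ D D', MinCot H D → MinCot H D' → D ≠ D' → Disjoint D D')
    {C1 C2 C3 : Finset α} (h1 : MinCot H C1) (h2 : MinCot H C2) (h3 : MinCot H C3)
    (h12 : C1 ≠ C2) (h13 : C1 ≠ C3) (h23 : C2 ≠ C3) {x1 x2 : α} (hx1 : x1 ∈ C1) (hx2 : x2 ∈ C2)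
    {X : Finset α} (hX : Rig H X) (hX1 : x1 ∈ X) (hX2 : x2 ∈ X) {D D' : Finset α}
    (hd : Disjoint D D') (hD : (X ∩ (univ \ D)).card ≤ 1) (hD' : (X ∩ (univ \ D')).card ≤ 1) :
    False := by
  have hne : x1 ≠ x2 := r4_ne (H := H) (hdis _ _ h1 h2 h12) hx1 hx2
  have hsub : X ⊆ X ∩ (univ \ D) ∪ X ∩ (univ \ D') := by
    intro t ht
    rw [mem_union, mem_inter, mem_inter, mem_sdiff, mem_sdiff]
    by_cases htD : t ∈ D
    · exact Or.inr ⟨ht, mem_univ _, Finset.disjoint_left.1 hd htD⟩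
    · exact Or.inl ⟨ht, mem_univ _, htD⟩
  have hc := card_le_card hsub
  have hc2 := card_union_le (X ∩ (univ \ D)) (X ∩ (univ \ D'))
  obtain ⟨A, hA, h1A, hAX⟩ := hX.exists_mem hH hX1
  have hAc := hH.two A hA
  have hAe : A = X := eq_of_subset_of_card_le hAX (by omega)
  subst hAe
  exact no_bridge hH h0 hn h1 h2 h3 (hdis _ _ h1 h2 h12) (hdis _ _ h1 h3 h13)
    (hdis _ _ h2 h3 h23) hA ⟨x1, mem_inter.2 ⟨hX1, hx1⟩⟩ ⟨x2, mem_inter.2 ⟨hX2, hx2⟩⟩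

theorem r4_fam {H : Finset (Finset α)} {M : ℕ} (h : ¬ Pack H M) :
    ∃ P : Finset (Finset α), (∀ D ∈ P, MinCot H D) ∧
      (∀ A ∈ P, ∀ B ∈ P, A ≠ B → Disjoint A B) ∧ M + 1 ≤ P.card := by
  classical
  unfold Pack at h
  push Not at h
  obtain ⟨P, hP1, hP2, hP3⟩ := h
  have h1 : ∀ C : Finset α, ∃ D : Finset α, Cot H C → MinCot H D ∧ D ⊆ C := by
    intro C
    by_cases hC : Cot H C
    · obtain ⟨D, hD⟩ := exists_minCot hC
      exact ⟨D, fun _ => hD⟩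
    · exact ⟨∅, fun h2 => absurd h2 hC⟩
  choose f hf using h1
  have hinj : Set.InjOn f (P : Set (Finset α)) := by
    intro A hA B hB hAB
    by_contra hne
    have h2 := hP2 A hA B hB hne
    obtain ⟨t, ht⟩ := (hf A (hP1 A hA)).1.1.1
    have h3 := (hf A (hP1 A hA)).2 ht
    rw [hAB] at ht
    exact Finset.disjoint_left.1 h2 h3 ((hf B (hP1 B hB)).2 ht)
  refine ⟨P.image f, ?_, ?_, ?_⟩
  · intro D hD
    obtain ⟨C, hC, rfl⟩ := mem_image.1 hD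
    exact (hf C (hP1 C hC)).1
  · intro A hA B hB hne
    obtain ⟨A', hA', rfl⟩ := mem_image.1 hA
    obtain ⟨B', hB', rfl⟩ := mem_image.1 hB
    have h2 : A' ≠ B' := by
      rintro rfl
      exact hne rfl
    exact (hP2 A' hA' B' hB' h2).mono (hf A' (hP1 A' hA')).2 (hf B' (hP1 B' hB')).2
  · rw [card_image_of_injOn hinj]
    omega

theorem pack_merge {H : Finset (Finset α)} (hH : Indep H) (h0 : dof H = 0)
    (hn : 4 ≤ Fintype.card α)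
    (hdis : ∀ D D', MinCot H D → MinCot H D' → D ≠ D' → Disjoint D D')
    {C1 C2 C3 : Finset α} (h1 : MinCot H C1) (h2 : MinCot H C2) (h3 : MinCot H C3)
    (h12 : C1 ≠ C2) (h13 : C1 ≠ C3) (h23 : C2 ≠ C3) {x1 x2 : α} (hx1 : x1 ∈ C1) (hx2 : x2 ∈ C2)
    {X : Finset α} (hX : Rig H X) (hX1 : x1 ∈ X) (hX2 : x2 ∈ X)
    (hmin : ∀ Y, Rig H Y → x1 ∈ Y → x2 ∈ Y → X ⊆ Y)
    (𝒞 : Finset (Finset α)) (h𝒞 : ∀ C, C ∈ 𝒞 ↔ MinCot H C)
    (P : Finset (Finset α)) (hP : ∀ D ∈ P, MinCot (merge H X) D)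
    (hPd : ∀ A ∈ P, ∀ B ∈ P, A ≠ B → Disjoint A B) :
    P.card + 1 ≤ 𝒞.card ∧ (P.card + 1 = 𝒞.card →
      ∃ T, Rig H T ∧ (X ∩ T).card ≤ 1 ∧ ∀ C ∈ 𝒞, C ≠ C1 → C ≠ C2 → C ⊆ T) := by
  classical
  have hX' : ∀ D ∈ P, Rig H (univ \ D) ∧ (X ⊆ univ \ D ∨ (X ∩ (univ \ D)).card ≤ 1) :=
    fun D hD => (merge_rig hH hX _).1 (hP D hD).1.2
  have hP1 : P.filter (fun D => X ⊆ univ \ D) ⊆ (𝒞.erase C1).erase C2 := by
    intro D hD
    rw [mem_filter] at hD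
    obtain ⟨h4, h5, h6⟩ := r4_type1 hH hx1 hx2 hX hX1 hX2 (hP D hD.1) hD.2
    exact mem_erase.2 ⟨h6, mem_erase.2 ⟨h5, (h𝒞 D).2 h4⟩⟩
  have hcE : ((𝒞.erase C1).erase C2).card + 2 = 𝒞.card := by
    have h4 : C1 ∈ 𝒞 := (h𝒞 _).2 h1
    have h5 : C2 ∈ 𝒞.erase C1 := mem_erase.2 ⟨h12.symm, (h𝒞 _).2 h2⟩
    have h6 := card_erase_add_one h4
    have h7 := card_erase_add_one h5
    omega
  have hP2 : (P.filter (fun D => ¬ X ⊆ univ \ D)).card ≤ 1 := by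
    rw [card_le_one]
    intro D hD D' hD'
    rw [mem_filter] at hD hD'
    by_contra hne
    have h4 := (hX' D hD.1).2.resolve_left hD.2
    have h5 := (hX' D' hD'.1).2.resolve_left hD'.2
    exact r4_type2 hH h0 hn hdis h1 h2 h3 h12 h13 h23 hx1 hx2 hX hX1 hX2
      (hPd D hD.1 D' hD'.1 hne) h4 h5
  have hsum := card_filter_add_card_filter_not (s := P) (fun D => X ⊆ univ \ D)
  have hle := card_le_card hP1
  refine ⟨by omega, fun heq => ?_⟩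
  have hE : P.filter (fun D => X ⊆ univ \ D) = (𝒞.erase C1).erase C2 :=
    eq_of_subset_of_card_le hP1 (by omega)
  have hc2 : 0 < (P.filter (fun D => ¬ X ⊆ univ \ D)).card := by omega
  obtain ⟨D, hD⟩ := card_pos.1 hc2
  rw [mem_filter] at hD
  refine ⟨univ \ D, (hX' D hD.1).1, (hX' D hD.1).2.resolve_left hD.2, fun C hC hC1 hC2 => ?_⟩
  have hCm : C ∈ P.filter (fun D => X ⊆ univ \ D) := by
    rw [hE]
    exact mem_erase.2 ⟨hC2, mem_erase.2 ⟨hC1, hC⟩⟩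
  rw [mem_filter] at hCm
  have hne : C ≠ D := by
    rintro rfl
    exact hD.2 hCm.2
  intro t ht
  exact mem_sdiff.2 ⟨mem_univ _, Finset.disjoint_left.1 (hPd C hCm.1 D hD.1 hne) ht⟩

theorem rigid_step {H : Finset (Finset α)} (hH : Indep H) (h0 : dof H = 0)
    (hn : 4 ≤ Fintype.card α) {N : ℕ} (hN : 1 ≤ N) (hP : Pack H (2 * (N + 1)))
    (h3 : ¬ Pack H 2) :
    ∃ x y X, x ≠ y ∧ Rig H X ∧ x ∈ X ∧ y ∈ X ∧ (∀ Y, Rig H Y → x ∈ Y → y ∈ Y → X ⊆ Y) ∧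
      Pack (merge H X) (2 * N) := by
  classical
  obtain ⟨P0, hP0, hP0d, hP0c⟩ := r4_fam h3
  obtain ⟨A1, A2, A3, hA1, hA2, hA3, hA12, hA13, hA23⟩ := two_lt_card_iff.1
    (by omega : 2 < P0.card)
  have hdis : ∀ D D', MinCot H D → MinCot H D' → D ≠ D' → Disjoint D D' :=
    fun D D' hD hD' hne => minCot_disjoint hH h0 hn (hP0 _ hA1) (hP0 _ hA2) (hP0 _ hA3)
      (hP0d _ hA1 _ hA2 hA12) (hP0d _ hA1 _ hA3 hA13) (hP0d _ hA2 _ hA3 hA23) hD hD' hne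
  obtain ⟨𝒞, h𝒞⟩ : ∃ 𝒞 : Finset (Finset α), ∀ C, C ∈ 𝒞 ↔ MinCot H C :=
    ⟨univ.filter (fun C => MinCot H C), fun C => by simp⟩
  have hq : 𝒞.card ≤ 2 * (N + 1) := hP 𝒞 (fun C hC => ((h𝒞 C).1 hC).1)
    (fun A hA B hB hne => hdis A B ((h𝒞 A).1 hA) ((h𝒞 B).1 hB) hne)
  have hm1 := hP0 _ hA1
  have hm2 := hP0 _ hA2
  have hm3 := hP0 _ hA3
  obtain ⟨x1, hx1⟩ := hm1.1.1
  obtain ⟨x2, hx2⟩ := hm2.1.1
  obtain ⟨x3, hx3⟩ := hm3.1.1
  have hx12 : x1 ≠ x2 := r4_ne (H := H) (hdis _ _ hm1 hm2 hA12) hx1 hx2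
  have hx13 : x1 ≠ x3 := r4_ne (H := H) (hdis _ _ hm1 hm3 hA13) hx1 hx3
  obtain ⟨X, hX, hX1, hX2, hXm⟩ := exists_min_rig hH h0 hx12
  by_cases hp : Pack (merge H X) (2 * N)
  · exact ⟨x1, x2, X, hx12, hX, hX1, hX2, hXm, hp⟩
  obtain ⟨P, hP1, hP2, hP3⟩ := r4_fam hp
  obtain ⟨h4, h5⟩ := pack_merge hH h0 hn hdis hm1 hm2 hm3 hA12 hA13 hA23 hx1 hx2 hX hX1 hX2 hXm
    𝒞 h𝒞 P hP1 hP2
  have h6 : 0 < (((𝒞.erase A1).erase A2).erase A3).card := by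
    have e1 : A1 ∈ 𝒞 := (h𝒞 _).2 hm1
    have e2 : A2 ∈ 𝒞.erase A1 := mem_erase.2 ⟨hA12.symm, (h𝒞 _).2 hm2⟩
    have e3 : A3 ∈ (𝒞.erase A1).erase A2 := mem_erase.2 ⟨hA23.symm, mem_erase.2
      ⟨hA13.symm, (h𝒞 _).2 hm3⟩⟩
    have e4 := card_erase_add_one e1
    have e5 := card_erase_add_one e2
    have e6 := card_erase_add_one e3
    omega
  obtain ⟨A4, hA4⟩ := card_pos.1 h6
  rw [mem_erase, mem_erase, mem_erase] at hA4
  obtain ⟨h43, h42, h41, hA4⟩ := hA4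
  have hm4 := (h𝒞 _).1 hA4
  obtain ⟨x4, hx4⟩ := hm4.1.1
  obtain ⟨T, hT, hTc, hTs⟩ := h5 (by omega)
  obtain ⟨Y, hY, hY1, hY3, hYm⟩ := exists_min_rig hH h0 hx13
  by_cases hp' : Pack (merge H Y) (2 * N)
  · exact ⟨x1, x3, Y, hx13, hY, hY1, hY3, hYm, hp'⟩
  obtain ⟨P', hP1', hP2', hP3'⟩ := r4_fam hp'
  obtain ⟨h4', h5'⟩ := pack_merge hH h0 hn hdis hm1 hm3 hm2 hA13 hA12 hA23.symm hx1 hx3 hY hY1
    hY3 hYm 𝒞 h𝒞 P' hP1' hP2'
  obtain ⟨T', hT', hTc', hTs'⟩ := h5' (by omega)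
  exfalso
  exact quartet hH h0 hn hm1 hm2 hm3 hm4 hA12 hA13 h41.symm hA23 h42.symm h43.symm hdis hx1 hx2
    hx3 hx4 hX hT hY hT' hX1 hX2 (hTs A3 ((h𝒞 _).2 hm3) hA13.symm hA23.symm hx3)
    (hTs A4 hA4 h41 h42 hx4) hY1 hY3 (hTs' A2 ((h𝒞 _).2 hm2) hA12.symm hA23 hx2)
    (hTs' A4 hA4 h41 h43 hx4) hTc hTc'

end Pool.Agent.GRA
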