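import Pool.Agent.GRA.R2
import Pool.Agent.GRA.R4
import Pool.Agent.GRA.G1

/-!
# GRA/R5: the rigid phase

PROOF of `rigid_phase` (induction on `N`).
(A) If `Pack H 2`: `pair_of_pack_two` gives `x ≠ y` such that `univ` is the least rigid set containing
them; `mcon_of_min` with `X = univ` (rigid: `dof H = 0`) gives `MCon (insert {x,y} H) univ`, i.e.
`MC (H ∪ {{x,y}})`. `F = {{x,y}}`.
(B) `N = 0`: `Pack H 2`, use (A). `N + 1`: if `Pack H 2` use (A) (`F.card = 1`). Otherwise `rigid_step`
(with `N + 1 ≥ 1`) gives `x, y, X`; `H' = merge H X` is independent, `dof H' = 0` and `Pack H' (2(N+1))`.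
Induction hypothesis: `F'` with `|F'| ≤ N + 1`, `MC (H' ∪ F')`. Let `F = insert {x,y} F'`. `MC (H ∪ F)`: by
`MC_iff` and `MCon_of_MCon` with `K = H ∪ F`, `K' = H' ∪ F'`: a member of `H' ∪ F'` is `X` (for which
`MCon (insert {x,y} H) X` by `mcon_of_min`, hence `MCon K X` by `MCon.mono`) or in `H` or in `F'`.
-/

namespace Pool.Agent.GRA

open Finset

variable {α : Type*} [Fintype α] [DecidableEq α]

theorem rigid_phase_two (hn : 4 ≤ Fintype.card α) {H : Finset (Finset α)} (hH : Indep H)
    (h0 : dof H = 0) (hP : Pack H 2) :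
    ∃ F : Finset (Finset α), (∀ f ∈ F, f.card = 2) ∧ F.card ≤ 1 ∧ MC (H ∪ F) := by
  obtain ⟨x, y, hxy, hX⟩ := pair_of_pack_two hH h0 hn hP
  have hU : Rig H univ := by
    refine ⟨?_, h0⟩
    rw [card_univ]
    omega
  have h := mcon_of_min hH hU hxy (mem_univ x) (mem_univ y)
    (fun Y hY hx hy => (hX Y hY hx hy).ge)
  refine ⟨{{x, y}}, ?_, ?_, ?_⟩
  · intro f hf
    rw [mem_singleton.1 hf]
    exact card_pair hxy
  · rw [card_singleton]
  · have e : H ∪ {{x, y}} = insert {x, y} H := by
      ext A
      simp only [mem_union, mem_singleton, mem_insert]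
      tauto
    rw [e]
    exact MC_iff.2 h

theorem rigid_phase (hn : 4 ≤ Fintype.card α) (N : ℕ) : ∀ H : Finset (Finset α), Indep H →
    dof H = 0 → Pack H (2 * (N + 1)) →
    ∃ F : Finset (Finset α), (∀ f ∈ F, f.card = 2) ∧ F.card ≤ N + 1 ∧ MC (H ∪ F) := by
  induction N with
  | zero =>
    intro H hH h0 hP
    obtain ⟨F, hF, hc, hM⟩ := rigid_phase_two hn hH h0 hP
    exact ⟨F, hF, by omega, hM⟩
  | succ N ih =>
    intro H hH h0 hP
    by_cases h2 : Pack H 2
    · obtain ⟨F, hF, hc, hM⟩ := rigid_phase_two hn hH h0 h2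
      exact ⟨F, hF, by omega, hM⟩
    · obtain ⟨x, y, X, hxy, hX, hx, hy, hmin, hP'⟩ :=
        rigid_step hH h0 hn (N := N + 1) (by omega) hP h2
      obtain ⟨F', hF', hc', hM'⟩ := ih (merge H X) (merge_indep hH hX)
        (by rw [merge_dof hH hX, h0]) hP'
      have hF : ∀ f ∈ insert {x, y} F', f.card = 2 := by
        intro f hf
        rcases mem_insert.1 hf with rfl | hf
        · exact card_pair hxy
        · exact hF' f hf
      refine ⟨insert {x, y} F', hF, ?_, ?_⟩
      · have := card_insert_le ({x, y} : Finset α) F'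
        omega
      · rw [MC_iff]
        refine MCon_of_MCon (K' := merge H X ∪ F') ?_ ?_ (MC_iff.1 hM')
        · intro B hB
          rcases mem_union.1 hB with hB | hB
          · exact hH.two B hB
          · exact (hF B hB).ge
        · intro B hB _
          rcases mem_union.1 hB with hB | hB
          · rcases mem_insert.1 hB with rfl | hB
            · right
              refine ⟨hX.1, (mcon_of_min hH hX hxy hx hy hmin).mono ?_⟩
              intro A hA
              rcases mem_insert.1 hA with rfl | hA
              · exact mem_union_right _ (mem_insert_self _ _)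
              · exact mem_union_left _ hA
            · left
              exact mem_union_left _ (mem_filter.1 hB).1
          · left
            exact mem_union_right _ (mem_insert_of_mem hB)

end Pool.Agent.GRA
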