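import Pool.Agent.GRA.R5
import Pool.Agent.GRA.F1

/-!
# GRA/RF1: the auxiliary family

`Ext 𝓛 = α ⊕ 𝓛`; for `L ∈ 𝓛` a new element `inr L` joined by the pairs `{inr L, inl (a L)}`, `{inr L, inl (b L)}`.

PROOF of `ext_kk`. For `T ⊆ Ext 𝓛` let `T₀ = tr T`, `Λ = {L | inr L ∈ T}`. The members of `ext 𝓛 H a b` inside `T`
are the `up 𝓛 X` with `X ∈ H`, `X ⊆ T₀` (`w (up X) = w X`) and, for `L ∈ Λ`, the pairs `{inr L, inl (a L)}` if
`a L ∈ T₀` and `{inr L, inl (b L)}` if `b L ∈ T₀`; these are all different (`a L ≠ b L`; `inr L` is in no `up X`).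
`w T = w T₀ + 2 |Λ|`.
PROOF of `ext_indep`. Members have ≥ 2 elements. `|T| ≥ 2`: by `ext_kk`, if `|T₀| ≥ 2` then `kk H T₀ ≥ 0` and all the
terms are ≥ 0. If `|T₀| = 1`: `kk H T₀ = w T₀ = -1` and `|Λ| ≥ 1`, each term is ≥ 1 (not both `a L, b L` are the
element of `T₀`). If `T₀ = ∅`: `kk H ∅ = -3`, `|Λ| ≥ 2`, each term is 2.
`ext_dof`: `T = univ`, all terms are 0, `kk H univ`.
`ext_rig`: `kk = 0`, `|T| ≥ 3`. If `T₀ = ∅`: `2|Λ| - 3 ≠ 0`. If `|T₀| = 1`: `|Λ| ≥ 2`, so the sum is ≥ 2 and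
`kk ≥ 1`. So `|T₀| ≥ 2`, and `kk H T₀ ≥ 0` and all terms ≥ 0 must vanish.
`ext_rig_two`: `|T| = 2`, `inr L ∈ T`. If `T₀ = ∅`: `kk = 1`. So `T₀ = {t}`, `Λ = {L}`, `-1 + 2 - [a L = t] - [b L = t] = 0`,
so `t = a L` or `t = b L`.
`ext_rig_none`: `Λ = ∅`, `T = up T₀`, `|T₀| = |T| ≥ 2`, `kk H T₀ = 0`.
-/

namespace Pool.Agent.GRA

open Finset

variable {α : Type*} [Fintype α] [DecidableEq α]

abbrev Ext (𝓛 : Finset (Finset α)) : Type _ := α ⊕ {L // L ∈ 𝓛}

def up (𝓛 : Finset (Finset α)) (A : Finset α) : Finset (Ext 𝓛) := A.image Sum.inl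

def tr {𝓛 : Finset (Finset α)} (T : Finset (Ext 𝓛)) : Finset α :=
  univ.filter (fun x => (Sum.inl x : Ext 𝓛) ∈ T)

def ext (𝓛 : Finset (Finset α)) (H : Finset (Finset α)) (a b : {L // L ∈ 𝓛} → α) :
    Finset (Finset (Ext 𝓛)) :=
  H.image (up 𝓛) ∪ (univ.image (fun L => ({Sum.inr L, Sum.inl (a L)} : Finset (Ext 𝓛))) ∪
    univ.image (fun L => ({Sum.inr L, Sum.inl (b L)} : Finset (Ext 𝓛))))

theorem card_ext (𝓛 : Finset (Finset α)) :
    Fintype.card (Ext 𝓛) = Fintype.card α + 𝓛.card := by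
  rw [Fintype.card_sum, Fintype.card_coe]

private theorem rf1_mem_tr {𝓛 : Finset (Finset α)} {T : Finset (Ext 𝓛)} {x : α} :
    x ∈ tr T ↔ (Sum.inl x : Ext 𝓛) ∈ T := by
  unfold tr
  simp

private theorem rf1_card {𝓛 : Finset (Finset α)} (T : Finset (Ext 𝓛)) :
    T.card = (tr T).card + (univ.filter (fun L => (Sum.inr L : Ext 𝓛) ∈ T)).card := by
  have h1 : tr T = T.toLeft := by
    ext x
    rw [rf1_mem_tr, mem_toLeft]
  have h2 : univ.filter (fun L => (Sum.inr L : Ext 𝓛) ∈ T) = T.toRight := by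
    ext x
    rw [mem_filter, mem_toRight]
    simp
  rw [h1, h2, card_toLeft_add_card_toRight]

private theorem rf1_up_inj (𝓛 : Finset (Finset α)) : Function.Injective (up 𝓛) :=
  image_injective Sum.inl_injective

private theorem rf1_w_up (𝓛 : Finset (Finset α)) (X : Finset α) : w (up 𝓛 X) = w X := by
  unfold w up
  rw [card_image_of_injective _ Sum.inl_injective]

private theorem rf1_up_sub {𝓛 : Finset (Finset α)} {T : Finset (Ext 𝓛)} {X : Finset α} :
    up 𝓛 X ⊆ T ↔ X ⊆ tr T := by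
  unfold up
  rw [image_subset_iff]
  constructor
  · intro h x hx
    exact rf1_mem_tr.2 (h x hx)
  · intro h x hx
    exact rf1_mem_tr.1 (h hx)

private theorem rf1_pair (𝓛 : Finset (Finset α)) (a : {L // L ∈ 𝓛} → α) (T : Finset (Ext 𝓛)) :
    ∑ X ∈ (univ.image (fun L => ({Sum.inr L, Sum.inl (a L)} : Finset (Ext 𝓛)))).filter
      (fun X => X ⊆ T), w X =
    ∑ L ∈ univ.filter (fun L => (Sum.inr L : Ext 𝓛) ∈ T), (if a L ∈ tr T then 1 else 0 : ℤ) := by
  rw [filter_image, sum_image]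
  · rw [← sum_filter, filter_filter]
    apply sum_congr
    · ext L
      simp only [mem_filter, mem_univ, true_and]
      rw [insert_subset_iff, singleton_subset_iff, rf1_mem_tr]
    · intro L _
      exact w_pair (by simp)
  · intro L _ L' _ h
    simp only at h
    have h1 : (Sum.inr L : Ext 𝓛) ∈ ({Sum.inr L', Sum.inl (a L')} : Finset (Ext 𝓛)) := by
      rw [← h]
      simp
    simpa using h1

theorem ext_kk (𝓛 H : Finset (Finset α)) {a b : {L // L ∈ 𝓛} → α} (hab : ∀ L, a L ≠ b L)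
    (T : Finset (Ext 𝓛)) :
    kk (ext 𝓛 H a b) T = kk H (tr T) +
      ∑ L ∈ univ.filter (fun L => (Sum.inr L : Ext 𝓛) ∈ T),
        (2 - (if a L ∈ tr T then 1 else 0) - (if b L ∈ tr T then 1 else 0) : ℤ) := by
  have h1 : w T = w (tr T) +
      2 * ((univ.filter (fun L => (Sum.inr L : Ext 𝓛) ∈ T)).card : ℤ) := by
    unfold w
    rw [rf1_card T]
    push_cast
    ring
  have hd1 : Disjoint (univ.image (fun L => ({Sum.inr L, Sum.inl (a L)} : Finset (Ext 𝓛))))
      (univ.image (fun L => ({Sum.inr L, Sum.inl (b L)} : Finset (Ext 𝓛)))) := by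
    rw [disjoint_left]
    intro X hX hX'
    obtain ⟨L, _, rfl⟩ := mem_image.1 hX
    obtain ⟨L', _, h⟩ := mem_image.1 hX'
    have h2 : (Sum.inr L' : Ext 𝓛) ∈ ({Sum.inr L, Sum.inl (a L)} : Finset (Ext 𝓛)) := by
      rw [← h]
      simp
    have h3 : L' = L := by simpa using h2
    subst h3
    have h4 : (Sum.inl (a L') : Ext 𝓛) ∈ ({Sum.inr L', Sum.inl (b L')} : Finset (Ext 𝓛)) := by
      rw [h]
      simp
    exact hab L' (by simpa using h4)
  have hd2 : Disjoint (H.image (up 𝓛))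
      (univ.image (fun L => ({Sum.inr L, Sum.inl (a L)} : Finset (Ext 𝓛))) ∪
        univ.image (fun L => ({Sum.inr L, Sum.inl (b L)} : Finset (Ext 𝓛)))) := by
    rw [disjoint_left]
    intro X hX hX'
    obtain ⟨Y, _, rfl⟩ := mem_image.1 hX
    have h2 : ∃ L, (Sum.inr L : Ext 𝓛) ∈ up 𝓛 Y := by
      rcases mem_union.1 hX' with h | h
      · obtain ⟨L, _, h⟩ := mem_image.1 h
        exact ⟨L, by rw [← h]; simp⟩
      · obtain ⟨L, _, h⟩ := mem_image.1 h
        exact ⟨L, by rw [← h]; simp⟩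
    obtain ⟨L, hL⟩ := h2
    unfold up at hL
    simp at hL
  have h2 : sIn (ext 𝓛 H a b) T = sIn H (tr T) +
      (∑ L ∈ univ.filter (fun L => (Sum.inr L : Ext 𝓛) ∈ T), (if a L ∈ tr T then 1 else 0 : ℤ) +
      ∑ L ∈ univ.filter (fun L => (Sum.inr L : Ext 𝓛) ∈ T),
        (if b L ∈ tr T then 1 else 0 : ℤ)) := by
    unfold sIn ext
    rw [filter_union, sum_union (disjoint_filter_filter hd2), filter_union,
      sum_union (disjoint_filter_filter hd1), rf1_pair, rf1_pair]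
    congr 1
    rw [filter_image, sum_image (fun x _ y _ h => rf1_up_inj 𝓛 h)]
    apply sum_congr
    · ext X
      rw [mem_filter, mem_filter, rf1_up_sub]
    · intro X _
      exact rf1_w_up 𝓛 X
  unfold kk
  rw [h1, h2, sum_sub_distrib, sum_sub_distrib, sum_const, nsmul_eq_mul]
  ring

private theorem rf1_term {𝓛 : Finset (Finset α)} {a b : {L // L ∈ 𝓛} → α}
    (t : Finset α) (L : {L // L ∈ 𝓛}) :
    (0 : ℤ) ≤ 2 - (if a L ∈ t then 1 else 0) - (if b L ∈ t then 1 else 0) := by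
  split_ifs <;> norm_num

private theorem rf1_term_one {𝓛 : Finset (Finset α)} {a b : {L // L ∈ 𝓛} → α}
    (hab : ∀ L, a L ≠ b L) {t : Finset α} (ht : t.card ≤ 1) (L : {L // L ∈ 𝓛}) :
    (1 : ℤ) ≤ 2 - (if a L ∈ t then 1 else 0) - (if b L ∈ t then 1 else 0) := by
  split_ifs with h1 h2
  · exact absurd (card_le_one.1 ht _ h1 _ h2) (hab L)
  all_goals norm_num

private theorem rf1_sum_one {𝓛 : Finset (Finset α)} {a b : {L // L ∈ 𝓛} → α}
    (hab : ∀ L, a L ≠ b L) {t : Finset α} (ht : t.card ≤ 1) (Λ : Finset {L // L ∈ 𝓛}) :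
    (Λ.card : ℤ) ≤
      ∑ L ∈ Λ, (2 - (if a L ∈ t then 1 else 0) - (if b L ∈ t then 1 else 0) : ℤ) := by
  have h := card_nsmul_le_sum Λ
    (fun L => (2 - (if a L ∈ t then 1 else 0) - (if b L ∈ t then 1 else 0) : ℤ)) 1
    (fun L _ => rf1_term_one hab ht L)
  simpa using h

private theorem rf1_sum_empty {𝓛 : Finset (Finset α)} {a b : {L // L ∈ 𝓛} → α}
    {t : Finset α} (ht : t = ∅) (Λ : Finset {L // L ∈ 𝓛}) :
    ∑ L ∈ Λ, (2 - (if a L ∈ t then 1 else 0) - (if b L ∈ t then 1 else 0) : ℤ) =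
      2 * Λ.card := by
  subst ht
  simp [mul_comm]

private theorem rf1_kk_small {H : Finset (Finset α)} (hH : Indep H) {t : Finset α}
    (ht : t.card ≤ 1) : kk H t = 2 * (t.card : ℤ) - 3 := by
  unfold kk
  rw [sIn_eq_zero hH ht]
  unfold w
  ring

theorem ext_indep {𝓛 H : Finset (Finset α)} (hH : Indep H) {a b : {L // L ∈ 𝓛} → α}
    (hab : ∀ L, a L ≠ b L) : Indep (ext 𝓛 H a b) := by
  constructor
  · intro X hX
    unfold ext at hX
    rcases mem_union.1 hX with h | h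
    · obtain ⟨Y, hY, rfl⟩ := mem_image.1 h
      unfold up
      rw [card_image_of_injective _ Sum.inl_injective]
      exact hH.two Y hY
    · rcases mem_union.1 h with h | h
      · obtain ⟨L, _, rfl⟩ := mem_image.1 h
        rw [card_pair (by simp)]
      · obtain ⟨L, _, rfl⟩ := mem_image.1 h
        rw [card_pair (by simp)]
  · intro T hT
    rw [ext_kk 𝓛 H hab T]
    rw [rf1_card T] at hT
    set Λ := univ.filter (fun L => (Sum.inr L : Ext 𝓛) ∈ T) with hΛ
    have h0 : (0 : ℤ) ≤ ∑ L ∈ Λ,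
        (2 - (if a L ∈ tr T then 1 else 0) - (if b L ∈ tr T then 1 else 0) : ℤ) :=
      sum_nonneg fun L _ => rf1_term _ L
    by_cases h2 : 2 ≤ (tr T).card
    · have := hH.nonneg _ h2
      linarith
    · have h1 : (tr T).card ≤ 1 := by omega
      rw [rf1_kk_small hH h1]
      rcases Nat.eq_zero_or_pos (tr T).card with h3 | h3
      · rw [rf1_sum_empty (card_eq_zero.1 h3), h3]
        have h4 : (2 : ℤ) ≤ Λ.card := by exact_mod_cast (by omega : 2 ≤ Λ.card)
        push_cast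
        linarith
      · have h5 : (tr T).card = 1 := by omega
        have h6 := rf1_sum_one hab h1 Λ
        have h4 : (1 : ℤ) ≤ Λ.card := by exact_mod_cast (by omega : 1 ≤ Λ.card)
        rw [h5]
        push_cast
        linarith

theorem ext_dof {𝓛 H : Finset (Finset α)} {a b : {L // L ∈ 𝓛} → α}
    (hab : ∀ L, a L ≠ b L) : dof (ext 𝓛 H a b) = dof H := by
  unfold dof
  rw [ext_kk 𝓛 H hab]
  have h1 : tr (univ : Finset (Ext 𝓛)) = univ := by
    ext x
    rw [rf1_mem_tr]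
    simp
  rw [h1]
  simp

theorem ext_rig {𝓛 H : Finset (Finset α)} (hH : Indep H) {a b : {L // L ∈ 𝓛} → α}
    (hab : ∀ L, a L ≠ b L) {T : Finset (Ext 𝓛)} (hT : Rig (ext 𝓛 H a b) T)
    (h3 : 3 ≤ T.card) : Rig H (tr T) ∧
      ∀ L, (Sum.inr L : Ext 𝓛) ∈ T → a L ∈ tr T ∧ b L ∈ tr T := by
  have hk := hT.2
  rw [ext_kk 𝓛 H hab T] at hk
  rw [rf1_card T] at h3
  set Λ := univ.filter (fun L => (Sum.inr L : Ext 𝓛) ∈ T) with hΛ
  have h0 : (0 : ℤ) ≤ ∑ L ∈ Λ,
      (2 - (if a L ∈ tr T then 1 else 0) - (if b L ∈ tr T then 1 else 0) : ℤ) :=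
    sum_nonneg fun L _ => rf1_term _ L
  by_cases h2 : 2 ≤ (tr T).card
  · have h4 := hH.nonneg _ h2
    have h5 : kk H (tr T) = 0 := by linarith
    refine ⟨⟨h2, h5⟩, fun L hL => ?_⟩
    have h6 : ∑ L ∈ Λ,
      (2 - (if a L ∈ tr T then 1 else 0) - (if b L ∈ tr T then 1 else 0) : ℤ) = 0 := by linarith
    rw [sum_eq_zero_iff_of_nonneg (fun L _ => rf1_term _ L)] at h6
    have h7 := h6 L (mem_filter.2 ⟨mem_univ _, hL⟩)
    by_contra hc
    rw [not_and_or] at hc
    rcases hc with hc | hc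
    · rw [if_neg hc] at h7
      split_ifs at h7
      all_goals norm_num at h7
    · rw [if_neg hc] at h7
      split_ifs at h7
      all_goals norm_num at h7
  · exfalso
    have h1 : (tr T).card ≤ 1 := by omega
    rw [rf1_kk_small hH h1] at hk
    rcases Nat.eq_zero_or_pos (tr T).card with h4 | h4
    · rw [rf1_sum_empty (card_eq_zero.1 h4), h4] at hk
      have h5 : (3 : ℤ) ≤ Λ.card := by exact_mod_cast (by omega : 3 ≤ Λ.card)
      push_cast at hk
      linarith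
    · have h5 : (tr T).card = 1 := by omega
      have h6 := rf1_sum_one hab h1 Λ
      have h7 : (2 : ℤ) ≤ Λ.card := by exact_mod_cast (by omega : 2 ≤ Λ.card)
      rw [h5] at hk
      push_cast at hk
      linarith

theorem ext_rig_two {𝓛 H : Finset (Finset α)} (hH : Indep H) {a b : {L // L ∈ 𝓛} → α}
    (hab : ∀ L, a L ≠ b L) {T : Finset (Ext 𝓛)} (hT : Rig (ext 𝓛 H a b) T)
    (h2 : T.card = 2) {L : {L // L ∈ 𝓛}} (hL : (Sum.inr L : Ext 𝓛) ∈ T) :
    T = {Sum.inr L, Sum.inl (a L)} ∨ T = {Sum.inr L, Sum.inl (b L)} := by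
  have hk := hT.2
  rw [ext_kk 𝓛 H hab T] at hk
  have hc := rf1_card T
  set Λ := univ.filter (fun L => (Sum.inr L : Ext 𝓛) ∈ T) with hΛ
  have hLΛ : L ∈ Λ := mem_filter.2 ⟨mem_univ _, hL⟩
  have h3 : 1 ≤ Λ.card := card_pos.2 ⟨L, hLΛ⟩
  have h1 : (tr T).card ≤ 1 := by omega
  rw [rf1_kk_small hH h1] at hk
  rcases Nat.eq_zero_or_pos (tr T).card with h4 | h4
  · exfalso
    rw [rf1_sum_empty (card_eq_zero.1 h4), h4] at hk
    have h5 : (Λ.card : ℤ) = 2 := by exact_mod_cast (by omega : Λ.card = 2)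
    rw [h5] at hk
    norm_num at hk
  · have h5 : (tr T).card = 1 := by omega
    have h6 : Λ.card = 1 := by omega
    obtain ⟨L', hL'⟩ := card_eq_one.1 h6
    have h7 : L' = L := by
      rw [hL', mem_singleton] at hLΛ
      exact hLΛ.symm
    subst h7
    obtain ⟨x, hx⟩ := card_eq_one.1 h5
    have hxT : (Sum.inl x : Ext 𝓛) ∈ T := rf1_mem_tr.1 (by rw [hx]; exact mem_singleton_self x)
    have hTe : T = {Sum.inr L', Sum.inl x} := by
      symm
      apply eq_of_subset_of_card_le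
      · rw [insert_subset_iff, singleton_subset_iff]
        exact ⟨hL, hxT⟩
      · rw [h2, card_pair (by simp)]
    rw [hL', sum_singleton, h5, hx] at hk
    simp only [mem_singleton] at hk
    by_cases ha : a L' = x
    · left
      rw [ha]
      exact hTe
    · by_cases hb : b L' = x
      · right
        rw [hb]
        exact hTe
      · rw [if_neg ha, if_neg hb] at hk
        norm_num at hk

theorem ext_rig_none {𝓛 H : Finset (Finset α)} {a b : {L // L ∈ 𝓛} → α}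
    (hab : ∀ L, a L ≠ b L) {T : Finset (Ext 𝓛)} (hT : Rig (ext 𝓛 H a b) T)
    (hL : ∀ L, (Sum.inr L : Ext 𝓛) ∉ T) : Rig H (tr T) := by
  have hk := hT.2
  have h2 := hT.1
  rw [ext_kk 𝓛 H hab T] at hk
  rw [rf1_card T] at h2
  have h3 : univ.filter (fun L => (Sum.inr L : Ext 𝓛) ∈ T) = ∅ :=
    filter_false_of_mem fun L _ => hL L
  rw [h3] at hk h2
  rw [sum_empty, add_zero] at hk
  rw [card_empty, add_zero] at h2
  exact ⟨h2, hk⟩

end Pool.Agent.GRA
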