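import Pool.Agent.GRA.RF1

/-!
# GRA/RF2: packing bound for the auxiliary family

PROOF of `ext_pack`. Let `P` be a family of pairwise disjoint `Cot` sets of `ext 𝓛 H a b` and suppose
`|P| ≥ 2γ + 1 ≥ 3`. For `L ∈ 𝓛` choose `x_L ∈ L` with `m x_L ≥ 1` (`exists_pos_of_mass_pos`); the `x_L` are different.
Put `m⁺ (inr L) = 1`, `m⁺ (inl x) = m x - 1` if `x` is some `x_L`, `= m x` otherwise. Total of `m⁺` = `mass m univ ≤ 2γ`.
CLAIM: every `C ∈ P` has `m⁺`-mass ≥ 1. Then `|P| ≤ 2γ` by disjointness, a contradiction.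
Proof of the claim. `T = univ \ C` is rigid. If some `inr L ∈ C` done. So all `inr L` are in `T`; `C₀ = tr C` is
nonempty, `tr T = univ \ C₀ =: T₀`.
 * `𝓛 = ∅`: `ext_rig_none`: `Rig H T₀`; `Feas` and `gg_eq` (`dof = 0`, `kk = 0`): `mass m C₀ ≥ 1`, and `m⁺ = m` there.
 * `𝓛 ≠ ∅`, `|T| ≥ 3`: `ext_rig`: `Rig H T₀`, `a L, b L ∈ T₀` for all `L`. `mass m C₀ ≥ gg H C₀ = 1`. If no `x_L` is in
   `C₀` done. Let `x_L ∈ C₀`; `FatAt H L u v`, `D = insert u (insert v L) ≠ univ`. `T₀` meets `L` (in `a L`), and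
   `x_L ∉ T₀`, so `D ⊆ T₀` fails and `FatAt.alt` gives `T₀ ⊆ D`; `FatAt.closed` shows that not both `u, v ∈ T₀`. If
   there were `L' ≠ L` in `𝓛`: `a L', b L' ∈ T₀ ⊆ D` are not in `L` (disjoint from `L'`), different, so they are `u, v`:
   contradiction. So `𝓛 = {L}`, `m⁺`-mass of `C` is `mass m C₀ - 1`, and we need `mass m C₀ ≥ 2`. `C₀ ⊇ (univ \ D) ∪ {x_L}`.
   `FatAt.rig_or`: if `Rig H D` then `mass m (univ \ D) ≥ gg H (univ \ D) = 1`, and `x_L ∈ D` adds one more. If
   `D ⊆ X ∈ H`: `|X ∩ T₀| ≥ 2` (`a L, b L`), so `X ⊆ T₀` (`Rig.subset_of_mem`), so `D ⊆ T₀`, contradiction.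
 * `𝓛 ≠ ∅`, `|T| ≤ 2` (so `|T| = 2`): `P` has two more members `C', C''`, nonempty, disjoint, inside `T`, so they are
   the two singletons of `T`. Take `L ∈ 𝓛`; `inr L ∈ T`; `ext_rig_two`: `T = {inr L, inl a'}`, `a' = a L` or `b L`. So
   `{inl a'} ∈ P`, its complement `T'` is rigid, `|T'| ≥ 3` (`n ≥ 4`), `inr L ∈ T'`, so `a L, b L ∈ tr T'` by `ext_rig`:
   contradiction.
-/

namespace Pool.Agent.GRA

open Finset

variable {α : Type*} [Fintype α] [DecidableEq α]

private theorem mem_tr' {𝓛 : Finset (Finset α)} {T : Finset (Ext 𝓛)} {x : α} :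
    x ∈ tr T ↔ (Sum.inl x : Ext 𝓛) ∈ T := by
  unfold tr
  rw [mem_filter]
  exact ⟨fun h => h.2, fun h => ⟨mem_univ _, h⟩⟩

/-- the sum over a set without new elements -/
private theorem sum_no_inr {𝓛 : Finset (Finset α)} {C : Finset (Ext 𝓛)}
    (hC : ∀ L, (Sum.inr L : Ext 𝓛) ∉ C) (f : Ext 𝓛 → ℕ) :
    ∑ z ∈ C, f z = ∑ y ∈ tr C, f (Sum.inl y) := by
  have h1 : C = (tr C).image Sum.inl := by
    ext z
    rw [mem_image]
    constructor
    · intro hz
      rcases z with y | L
      · exact ⟨y, mem_tr'.2 hz, rfl⟩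
      · exact absurd hz (hC L)
    · rintro ⟨y, hy, rfl⟩
      exact mem_tr'.1 hy
  conv_lhs => rw [h1]
  rw [sum_image (fun y _ y' _ h => Sum.inl_injective h)]

theorem ext_pack {𝓛 H : Finset (Finset α)} (hH : Indep H) (h0 : dof H = 0)
    (hn : 4 ≤ Fintype.card α) {m : α → ℕ} (hm : Feas H m) {γ : ℕ} (hγ : 1 ≤ γ)
    (htot : mass m univ ≤ 2 * γ) (hfat : ∀ L ∈ 𝓛, Fat H L ∧ 1 ≤ mass m L)
    (hdis : ∀ L ∈ 𝓛, ∀ L' ∈ 𝓛, L ≠ L' → Disjoint L L') {a b : {L // L ∈ 𝓛} → α}
    (ha : ∀ L, a L ∈ L.1) (hb : ∀ L, b L ∈ L.1) (hab : ∀ L, a L ≠ b L) :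
    Pack (ext 𝓛 H a b) (2 * γ) := by
  classical
  intro P hP hdisP
  by_contra hcon
  push Not at hcon
  have hx : ∀ L : {L // L ∈ 𝓛}, ∃ x ∈ L.1, 0 < m x := fun L =>
    exists_pos_of_mass_pos (hfat L.1 L.2).2
  choose x hxL hxm using hx
  have hxinj : Function.Injective x := by
    intro L L' h
    by_contra hne
    have hne' : L.1 ≠ L'.1 := fun h => hne (Subtype.ext h)
    exact disjoint_left.1 (hdis L.1 L.2 L'.1 L'.2 hne') (hxL L) (h ▸ hxL L')
  obtain ⟨X, hX⟩ : ∃ X : Finset α, X = univ.image x := ⟨_, rfl⟩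
  have hXm : ∀ y, y ∈ X → 1 ≤ m y := by
    intro y hy
    rw [hX, mem_image] at hy
    obtain ⟨L, -, rfl⟩ := hy
    exact hxm L
  obtain ⟨mp, hmp⟩ : ∃ mp : Ext 𝓛 → ℕ,
      mp = Sum.elim (fun y => m y - if y ∈ X then 1 else 0) (fun _ => 1) := ⟨_, rfl⟩
  have hmpl : ∀ y, mp (Sum.inl y) + (if y ∈ X then 1 else 0) = m y := by
    intro y
    rw [hmp]
    simp only [Sum.elim_inl]
    split_ifs with h
    · have := hXm y h
      omega
    · omega
  have hmpr : ∀ L, mp (Sum.inr L) = 1 := by
    intro L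
    rw [hmp]
    simp
  have hmass : ∀ S : Finset α, ∑ y ∈ S, mp (Sum.inl y) + (S ∩ X).card = mass m S := by
    intro S
    unfold mass
    rw [← filter_mem_eq_inter, card_filter, ← sum_add_distrib]
    exact sum_congr rfl fun y _ => hmpl y
  have htotp : ∑ z, mp z = mass m univ := by
    rw [Fintype.sum_sum_type, ← hmass univ, univ_inter]
    congr 1
    rw [sum_congr rfl (fun L _ => hmpr L), hX, card_image_of_injective _ hxinj]
    simp
  -- the claim
  have hclaim : ∀ C ∈ P, 1 ≤ ∑ z ∈ C, mp z := by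
    intro C hC
    obtain ⟨hCne, hCr⟩ := hP C hC
    by_cases hinr : ∃ L, (Sum.inr L : Ext 𝓛) ∈ C
    · obtain ⟨L, hL⟩ := hinr
      have h1 := single_le_sum (f := mp) (fun z _ => Nat.zero_le (mp z)) hL
      rw [hmpr L] at h1
      exact h1
    push Not at hinr
    have hsum := sum_no_inr hinr mp
    have hmC := hmass (tr C)
    rw [← hsum] at hmC
    have hT0 : tr (univ \ C) = univ \ tr C := by
      ext y
      rw [mem_tr', mem_sdiff, mem_sdiff, mem_tr']
      simp
    have hC0ne : (tr C).Nonempty := by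
      obtain ⟨z, hz⟩ := hCne
      rcases z with y | L
      · exact ⟨y, mem_tr'.2 hz⟩
      · exact absurd hz (hinr L)
    have hge : Rig H (univ \ tr C) → 1 ≤ mass m (tr C) := by
      intro hr
      have h1 := hm (tr C) hC0ne hr.1
      rw [gg_eq, h0, hr.2] at h1
      have : (1 : ℤ) ≤ (mass m (tr C) : ℤ) := by linarith
      exact_mod_cast this
    have hinT : ∀ L, (Sum.inr L : Ext 𝓛) ∈ univ \ C := fun L =>
      mem_sdiff.2 ⟨mem_univ _, hinr L⟩
    by_cases h𝓛 : 𝓛 = ∅
    · have hno : ∀ L : {L // L ∈ 𝓛}, False := by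
        intro L
        exact eq_empty_iff_forall_notMem.1 h𝓛 L.1 L.2
      have hr := ext_rig_none hab hCr (fun L => (hno L).elim)
      rw [hT0] at hr
      have hXe : X = ∅ := by
        rw [hX, image_eq_empty]
        exact univ_eq_empty_iff.2 ⟨fun L => hno L⟩
      have h2 := hge hr
      rw [hXe, inter_empty, card_empty] at hmC
      omega
    obtain ⟨L1, hL1⟩ := nonempty_iff_ne_empty.2 h𝓛
    by_cases h3 : 3 ≤ (univ \ C).card
    · obtain ⟨hr, habT⟩ := ext_rig hH hab hCr h3
      rw [hT0] at hr habT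
      have h2 := hge hr
      by_cases hno : (tr C ∩ X) = ∅
      · rw [hno, card_empty] at hmC
        omega
      obtain ⟨y, hy⟩ := nonempty_iff_ne_empty.2 hno
      rw [mem_inter] at hy
      obtain ⟨hyC, hyX⟩ := hy
      rw [hX, mem_image] at hyX
      obtain ⟨L, -, rfl⟩ := hyX
      obtain ⟨⟨u, v, hF, hDne⟩, -⟩ := hfat L.1 L.2
      have hLD : L.1 ⊆ insert u (insert v L.1) := fun z hz =>
        mem_insert_of_mem (mem_insert_of_mem hz)
      have haT := (habT L (hinT L)).1
      have hbT := (habT L (hinT L)).2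
      have hmeet : ((univ \ tr C) ∩ L.1).Nonempty := ⟨a L, mem_inter.2 ⟨haT, ha L⟩⟩
      have hnD : ¬ insert u (insert v L.1) ⊆ univ \ tr C := fun h =>
        (mem_sdiff.1 (h (hLD (hxL L)))).2 hyC
      have hTD : univ \ tr C ⊆ insert u (insert v L.1) := by
        by_contra h4
        exact hnD (hF.alt hH hr hmeet h4)
      have hnuv : ¬ (u ∈ univ \ tr C ∧ v ∈ univ \ tr C) := fun h =>
        hnD (hF.closed hH hr h.1 h.2 hmeet)
      have honly : ∀ L' : {L // L ∈ 𝓛}, L' = L := by
        intro L'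
        by_contra hne
        have hne' : L'.1 ≠ L.1 := fun h => hne (Subtype.ext h)
        have hd := hdis L'.1 L'.2 L.1 L.2 hne'
        obtain ⟨ha', hb'⟩ := habT L' (hinT L')
        have ha2 := hTD ha'
        have hb2 := hTD hb'
        have ha3 : a L' ∉ L.1 := disjoint_left.1 hd (ha L')
        have hb3 : b L' ∉ L.1 := disjoint_left.1 hd (hb L')
        have ha4 : a L' = u ∨ a L' = v := by
          rcases mem_insert.1 ha2 with h | h
          · exact Or.inl h
          · rcases mem_insert.1 h with h | h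
            · exact Or.inr h
            · exact absurd h ha3
        have hb4 : b L' = u ∨ b L' = v := by
          rcases mem_insert.1 hb2 with h | h
          · exact Or.inl h
          · rcases mem_insert.1 h with h | h
            · exact Or.inr h
            · exact absurd h hb3
        rcases ha4 with h | h <;> rcases hb4 with h' | h'
        · exact hab L' (h.trans h'.symm)
        · exact hnuv ⟨h ▸ ha', h' ▸ hb'⟩
        · exact hnuv ⟨h' ▸ hb', h ▸ ha'⟩
        · exact hab L' (h.trans h'.symm)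
      have hXc : (tr C ∩ X).card ≤ 1 := by
        rw [card_le_one]
        intro z hz z' hz'
        rw [mem_inter, hX, mem_image] at hz hz'
        obtain ⟨-, L2, -, rfl⟩ := hz
        obtain ⟨-, L3, -, rfl⟩ := hz'
        rw [honly L2, honly L3]
      have hm2 : 2 ≤ mass m (tr C) := by
        rcases hF.rig_or hH with hD | ⟨Y, hY, hDY⟩
        · have h5 : (univ \ insert u (insert v L.1)).Nonempty := by
            rw [sdiff_nonempty]
            intro h
            exact hDne (univ_subset_iff.1 h)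
          have h6 : univ \ (univ \ insert u (insert v L.1)) = insert u (insert v L.1) := by
            exact Finset.sdiff_sdiff_eq_self (subset_univ _)
          have h7 := hm (univ \ insert u (insert v L.1)) h5 (by rw [h6]; exact hD.1)
          rw [gg_eq, h0, h6, hD.2] at h7
          have h8 : 1 ≤ mass m (univ \ insert u (insert v L.1)) := by
            have : (1 : ℤ) ≤ (mass m (univ \ insert u (insert v L.1)) : ℤ) := by linarith
            exact_mod_cast this
          have h9 : x L ∉ univ \ insert u (insert v L.1) := fun h =>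
            (mem_sdiff.1 h).2 (hLD (hxL L))
          have h10 : insert (x L) (univ \ insert u (insert v L.1)) ⊆ tr C := by
            intro z hz
            rcases mem_insert.1 hz with rfl | hz
            · exact hyC
            · by_contra hzC
              exact (mem_sdiff.1 hz).2 (hTD (mem_sdiff.2 ⟨mem_univ _, hzC⟩))
          have h11 := mass_mono m h10
          rw [mass_insert m h9] at h11
          have := hxm L
          omega
        · exfalso
          have h5 : 2 ≤ (Y ∩ (univ \ tr C)).card := by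
            have h6 : ({a L, b L} : Finset α) ⊆ Y ∩ (univ \ tr C) := by
              rw [pair_subset]
              exact ⟨mem_inter.2 ⟨hDY (hLD (ha L)), haT⟩, mem_inter.2 ⟨hDY (hLD (hb L)), hbT⟩⟩
            have h7 := card_le_card h6
            rwa [card_pair (hab L)] at h7
          exact hnD (hDY.trans (hr.subset_of_mem hH hY h5))
      omega
    · exfalso
      have hT2 : (univ \ C).card = 2 := by
        have := hCr.1
        omega
      have hL := hinT ⟨L1, hL1⟩
      -- two more members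
      have hPc : 2 ≤ (P.erase C).card := by
        rw [card_erase_of_mem hC]
        omega
      obtain ⟨C', hC', C'', hC'', hne⟩ := one_lt_card.1 (by omega : 1 < (P.erase C).card)
      rw [mem_erase] at hC' hC''
      have hd1 := hdisP C hC C' hC'.2 (Ne.symm hC'.1)
      have hd2 := hdisP C hC C'' hC''.2 (Ne.symm hC''.1)
      have hd3 := hdisP C' hC'.2 C'' hC''.2 hne
      have hs1 : C' ⊆ univ \ C := fun z hz =>
        mem_sdiff.2 ⟨mem_univ _, fun h => disjoint_left.1 hd1 h hz⟩
      have hs2 : C'' ⊆ univ \ C := fun z hz =>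
        mem_sdiff.2 ⟨mem_univ _, fun h => disjoint_left.1 hd2 h hz⟩
      obtain ⟨a', ha', hTa⟩ : ∃ a', (a' = a ⟨L1, hL1⟩ ∨ a' = b ⟨L1, hL1⟩) ∧
          (univ \ C : Finset (Ext 𝓛)) = {Sum.inr ⟨L1, hL1⟩, Sum.inl a'} := by
        rcases ext_rig_two hH hab hCr hT2 hL with h | h
        · exact ⟨_, Or.inl rfl, h⟩
        · exact ⟨_, Or.inr rfl, h⟩
      have key : ∀ A B : Finset (Ext 𝓛), A ⊆ univ \ C → B ⊆ univ \ C → Disjoint A B →
          Cot (ext 𝓛 H a b) A → (Sum.inl a' : Ext 𝓛) ∈ A → (Sum.inr ⟨L1, hL1⟩ : Ext 𝓛) ∈ B →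
          False := by
        intro A B hA hB hAB hcA haA hB2
        have hAe : A = {Sum.inl a'} := by
          apply Subset.antisymm
          · intro z hz
            have h5 := hA hz
            rw [hTa, mem_insert, mem_singleton] at h5
            rcases h5 with rfl | rfl
            · exact absurd hB2 (disjoint_left.1 hAB hz)
            · exact mem_singleton_self _
          · intro z hz
            rw [mem_singleton.1 hz]
            exact haA
        have hc3 : 3 ≤ (univ \ A).card := by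
          rw [card_sdiff_of_subset (subset_univ _), card_univ, card_ext, hAe, card_singleton]
          omega
        obtain ⟨-, h6⟩ := ext_rig hH hab hcA.2 hc3
        have h7 := h6 ⟨L1, hL1⟩ (mem_sdiff.2 ⟨mem_univ _, by rw [hAe]; simp⟩)
        rw [mem_tr', mem_tr', mem_sdiff, mem_sdiff, hAe] at h7
        rcases ha' with rfl | rfl
        · exact h7.1.2 (mem_singleton_self _)
        · exact h7.2.2 (mem_singleton_self _)
      obtain ⟨z', hz'⟩ := (hP C' hC'.2).1
      obtain ⟨z'', hz''⟩ := (hP C'' hC''.2).1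
      have hzne : z' ≠ z'' := fun h => disjoint_left.1 hd3 hz' (h ▸ hz'')
      have e1 := hs1 hz'
      have e2 := hs2 hz''
      rw [hTa, mem_insert, mem_singleton] at e1 e2
      rcases e1 with rfl | rfl <;> rcases e2 with rfl | rfl
      · exact hzne rfl
      · exact key C'' C' hs2 hs1 hd3.symm (hP C'' hC''.2) hz'' hz'
      · exact key C' C'' hs1 hs2 hd3 (hP C' hC'.2) hz' hz''
      · exact hzne rfl
  -- the end
  have h1 : P.card ≤ ∑ C ∈ P, ∑ z ∈ C, mp z := by
    have := card_nsmul_le_sum P (fun C => ∑ z ∈ C, mp z) 1 hclaim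
    simpa using this
  have h2 : ∑ C ∈ P, ∑ z ∈ C, mp z = ∑ z ∈ P.biUnion id, mp z := by
    rw [sum_biUnion]
    · rfl
    · intro A hA B hB hAB
      exact hdisP A hA B hB hAB
  have h3 : ∑ z ∈ P.biUnion id, mp z ≤ ∑ z, mp z := sum_le_sum_of_subset (subset_univ _)
  rw [htotp] at h3
  omega

end Pool.Agent.GRA
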