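import Pool.Agent.GRA.RF1
import Pool.Agent.GRA.G2

/-!
# GRA/RF3: pulling back a solution for the auxiliary family

PROOF of `ext_touch`. Suppose every `f ∈ F` containing `inr L` is `{inr L, inl (a L)}` or `{inr L, inl (b L)}`. The
sets `univ.erase (inr L)` and these two pairs cover `ext 𝓛 H a b ∪ F`, they are proper subsets, of total weight
`2(N - 1) - 3 + 2 = 2N - 3` where `N = card (Ext 𝓛)`: contradiction to `MC`.

PROOF of `down_touch`. Let `f` be as in `ext_touch`: `f = {inr L, t}`. If `t = inl x` with `x ≠ a L`: the image under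
`pi a` is `{a L, x}`. If `t = inr L'`, `L' ≠ L`: `{a L, a L'}`, two elements since `L, L'` are disjoint. The image has
two elements and contains `a L ∈ L`.

PROOF of `ext_pull`. Suppose `H ∪ down a F` is not `MC`; `exists_bad` gives `X`: a cover by proper subsets, weight
`≤ 2n - 3`, with the minimal number of sets, pairwise intersections ≤ 1.
(1) Every `A ∈ X` is rigid: `2n - 3 = Σ_{B ∈ H} w B` (`dof H = 0`). Each `B ∈ H` is inside some `A_B ∈ X`; for
`A ≠ A_B`, `|B ∩ A| ≤ 1`. `Indep.sum_wp_le`: `w A ≥ Σ_{B ∈ H} wp (B ∩ A) ≥ Σ_{B ⊆ A} w B = sIn H A` (`w A = wp A`). So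
`2n - 3 ≥ Σ_A w A ≥ Σ_A sIn H A ≥ Σ_B w B = 2n - 3`: equality for every `A`.
(2) Let `L ∈ 𝓛`, `FatAt H L u v`, `D = insert u (insert v L) ≠ univ`. Some `A ∈ X` contains `D`. Suppose not. By
`FatAt.alt` every `A ∈ X` meeting `L` is inside `D`. By `rig_or`, `Rig H D` (if `D ⊆ B ∈ H` then `D ⊆ A_B`).
`X_L = {A ∈ X | A ⊆ D}`. Every `B ∈ H` inside `D` is inside some `A ∈ X_L`: `B` meets `L` (otherwise `B = {u,v}`,
contradicting `FatAt.not_mem`), so `A_B` meets `L`, so `A_B ⊆ D`. So `w D = sIn H D ≤ Σ_{A ∈ X_L} sIn H A =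
Σ_{A ∈ X_L} w A`. So `X' = (X \ X_L) ∪ {D}` is `Bad`, and `D ∉ X`; minimality of `|X|` gives `|X_L| ≤ 1`; `X_L` is not
empty since `w D > 0`; `X_L = {A}`, `w D ≤ w A`, `A ⊆ D`, so `A = D`: contradiction.
(3) By thinness there is exactly one `A_L ∈ X` containing `D_L` (`|D_L| ≥ 4`). For `A ∈ X` let
`A⁺ = up A ∪ {inr L | D_L ⊆ A}`. `Σ w A⁺ = Σ w A + 2|𝓛| ≤ 2(n + |𝓛|) - 3`. The sets `A⁺` are proper (`tr A⁺ = A`), have
≥ 2 elements, and `A ↦ A⁺` is injective. They cover `ext 𝓛 H a b ∪ F`: `up B ⊆ (A_B)⁺`; the pairs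
`{inr L, inl (a L)}`, `{inr L, inl (b L)}` are in `(A_L)⁺`. `f ∈ F`: if `f = {inl x, inl y}` its image `{x,y}` is in
`down a F`, inside some `A`. If `f = {inr L, inl x}`: `x = a L`: clear (`A_L`). Otherwise `{a L, x} ⊆ A ∈ X`. `A` meets
`L` in `a L`, so `D_L ⊆ A` (then `A = A_L`), or `A ⊆ D_L ⊆ A_L`, `|A ∩ A_L| ≥ 2`, `A = A_L`. So `f ⊆ (A_L)⁺`. If
`f = {inr L, inr L'}`: `{a L, a L'} ⊆ A`, in the same way `A = A_L = A_{L'}`. Contradiction to `MC (ext 𝓛 H a b ∪ F)`.
-/

namespace Pool.Agent.GRA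

open Finset

variable {α : Type*} [Fintype α] [DecidableEq α]

def pi {𝓛 : Finset (Finset α)} (a : {L // L ∈ 𝓛} → α) : Ext 𝓛 → α
  | Sum.inl x => x
  | Sum.inr L => a L

def down {𝓛 : Finset (Finset α)} (a : {L // L ∈ 𝓛} → α) (F : Finset (Finset (Ext 𝓛))) :
    Finset (Finset α) :=
  (F.image (fun f => f.image (pi a))).filter (fun f => f.card = 2)

theorem down_card {𝓛 : Finset (Finset α)} (a : {L // L ∈ 𝓛} → α)
    (F : Finset (Finset (Ext 𝓛))) : (down a F).card ≤ F.card ∧ ∀ f ∈ down a F, f.card = 2 := by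
  refine ⟨(card_filter_le _ _).trans card_image_le, ?_⟩
  intro f hf
  unfold down at hf
  exact (mem_filter.1 hf).2

private theorem rf3_sum_insert {β : Type*} [DecidableEq β] {X : Finset (Finset β)} {A : Finset β}
    (hA : 0 ≤ w A) :
    ∑ B ∈ insert A X, w B ≤ w A + ∑ B ∈ X, w B := by
  by_cases h : A ∈ X
  · rw [insert_eq_of_mem h]
    linarith
  · rw [sum_insert h]

private theorem rf3_mem_ext {𝓛 H : Finset (Finset α)} {a b : {L // L ∈ 𝓛} → α}
    {B : Finset (Ext 𝓛)} (h : B ∈ ext 𝓛 H a b) :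
    (∃ B0 ∈ H, B = up 𝓛 B0) ∨ (∃ L, B = {Sum.inr L, Sum.inl (a L)}) ∨
      ∃ L, B = {Sum.inr L, Sum.inl (b L)} := by
  unfold ext at h
  rw [mem_union, mem_union, mem_image, mem_image, mem_image] at h
  rcases h with ⟨B0, h1, h2⟩ | ⟨L, -, h2⟩ | ⟨L, -, h2⟩
  · exact Or.inl ⟨B0, h1, h2.symm⟩
  · exact Or.inr (Or.inl ⟨L, h2.symm⟩)
  · exact Or.inr (Or.inr ⟨L, h2.symm⟩)

theorem ext_touch {𝓛 H : Finset (Finset α)} (hn : 4 ≤ Fintype.card α)
    {a b : {L // L ∈ 𝓛} → α} {F : Finset (Finset (Ext 𝓛))} (hF : ∀ f ∈ F, f.card = 2)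
    (hMC : MC (ext 𝓛 H a b ∪ F)) (L : {L // L ∈ 𝓛}) :
    ∃ f ∈ F, Sum.inr L ∈ f ∧ f ≠ {Sum.inr L, Sum.inl (a L)} ∧
      f ≠ {Sum.inr L, Sum.inl (b L)} := by
  by_contra hcon
  push Not at hcon
  have hN := card_ext 𝓛
  have hpa : ∀ c : α, (({Sum.inr L, Sum.inl c} : Finset (Ext 𝓛))).card = 2 := fun c =>
    card_pair (by simp)
  have hpw : ∀ c : α, w ({Sum.inr L, Sum.inl c} : Finset (Ext 𝓛)) = 1 := fun c =>
    w_pair (by simp)
  have hpu : ∀ c : α, ({Sum.inr L, Sum.inl c} : Finset (Ext 𝓛)) ≠ univ := by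
    intro c h
    have := hpa c
    rw [h, card_univ] at this
    omega
  have hec : (univ.erase (Sum.inr L) : Finset (Ext 𝓛)).card = Fintype.card (Ext 𝓛) - 1 := by
    rw [card_erase_of_mem (mem_univ _), card_univ]
  have hew : w (univ.erase (Sum.inr L) : Finset (Ext 𝓛)) = 2 * (Fintype.card (Ext 𝓛) : ℤ) - 5 := by
    unfold w
    rw [hec, Nat.cast_sub (by omega)]
    push_cast
    ring
  have h1 := hMC (insert (univ.erase (Sum.inr L)) (insert {Sum.inr L, Sum.inl (a L)}
    {{Sum.inr L, Sum.inl (b L)}})) (by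
      intro A hA
      rw [mem_insert, mem_insert, mem_singleton] at hA
      rcases hA with rfl | rfl | rfl
      · refine ⟨by rw [hec]; omega, ?_⟩
        intro h
        have := mem_univ (Sum.inr L : Ext 𝓛)
        rw [← h] at this
        exact (mem_erase.1 this).1 rfl
      · exact ⟨(hpa _).ge, hpu _⟩
      · exact ⟨(hpa _).ge, hpu _⟩) (by
      intro B hB
      by_cases hLB : (Sum.inr L : Ext 𝓛) ∈ B
      · rcases mem_union.1 hB with hB | hB
        · rcases rf3_mem_ext hB with ⟨B0, -, rfl⟩ | ⟨L', rfl⟩ | ⟨L', rfl⟩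
          · unfold up at hLB
            rw [mem_image] at hLB
            obtain ⟨y, -, hy⟩ := hLB
            exact absurd hy (by simp)
          · have h2 : L = L' := by
              rw [mem_insert, mem_singleton] at hLB
              rcases hLB with h | h
              · exact Sum.inr_injective h
              · exact absurd h (by simp)
            rw [h2]
            exact ⟨_, mem_insert_of_mem (mem_insert_self _ _), subset_rfl⟩
          · have h2 : L = L' := by
              rw [mem_insert, mem_singleton] at hLB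
              rcases hLB with h | h
              · exact Sum.inr_injective h
              · exact absurd h (by simp)
            rw [h2]
            exact ⟨_, mem_insert_of_mem (mem_insert_of_mem (mem_singleton_self _)), subset_rfl⟩
        · by_cases h3 : B = {Sum.inr L, Sum.inl (a L)}
          · rw [h3]
            exact ⟨_, mem_insert_of_mem (mem_insert_self _ _), subset_rfl⟩
          · rw [hcon B hB hLB h3]
            exact ⟨_, mem_insert_of_mem (mem_insert_of_mem (mem_singleton_self _)), subset_rfl⟩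
      · exact ⟨_, mem_insert_self _ _, fun z hz => mem_erase.2
          ⟨fun h => hLB (h ▸ hz), mem_univ _⟩⟩)
  have h2 : ∑ A ∈ insert (univ.erase (Sum.inr L) : Finset (Ext 𝓛))
      (insert ({Sum.inr L, Sum.inl (a L)} : Finset (Ext 𝓛))
      {({Sum.inr L, Sum.inl (b L)} : Finset (Ext 𝓛))}), w A ≤ 2 * (Fintype.card (Ext 𝓛) : ℤ) - 5 + (1 + 1) := by
    have e1 := rf3_sum_insert (X := {({Sum.inr L, Sum.inl (b L)} : Finset (Ext 𝓛))})
      (A := {Sum.inr L, Sum.inl (a L)}) (by rw [hpw]; norm_num)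
    rw [sum_singleton, hpw, hpw] at e1
    have e2 := rf3_sum_insert (X := insert ({Sum.inr L, Sum.inl (a L)} : Finset (Ext 𝓛))
      {({Sum.inr L, Sum.inl (b L)} : Finset (Ext 𝓛))}) (A := univ.erase (Sum.inr L))
      (by
        rw [hew]
        have h3 : 4 ≤ Fintype.card (Ext 𝓛) := by omega
        have : (4 : ℤ) ≤ Fintype.card (Ext 𝓛) := by exact_mod_cast h3
        linarith)
    rw [hew] at e2
    linarith
  linarith

theorem down_touch {𝓛 H : Finset (Finset α)} (hn : 4 ≤ Fintype.card α)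
    (hdis : ∀ L ∈ 𝓛, ∀ L' ∈ 𝓛, L ≠ L' → Disjoint L L')
    {a b : {L // L ∈ 𝓛} → α} (ha : ∀ L, a L ∈ L.1) {F : Finset (Finset (Ext 𝓛))}
    (hF : ∀ f ∈ F, f.card = 2) (hMC : MC (ext 𝓛 H a b ∪ F)) :
    ∀ L ∈ 𝓛, ∃ f ∈ down a F, (f ∩ L).Nonempty := by
  intro L hL
  obtain ⟨f, hf, hLf, hfa, -⟩ := ext_touch hn hF hMC ⟨L, hL⟩
  obtain ⟨z1, z2, hz, rfl⟩ := card_eq_two.1 (hF f hf)
  have key : ∀ t : Ext 𝓛, t ≠ Sum.inr ⟨L, hL⟩ →
      ({z1, z2} : Finset (Ext 𝓛)) = {Sum.inr ⟨L, hL⟩, t} →
      ∃ f ∈ down a F, (f ∩ L).Nonempty := by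
    intro t ht hft
    have hne : a ⟨L, hL⟩ ≠ pi a t := by
      rcases t with x | L'
      · intro h
        apply hfa
        rw [hft]
        change a ⟨L, hL⟩ = x at h
        rw [h]
      · intro h
        change a ⟨L, hL⟩ = a L' at h
        have hne : L ≠ L'.1 := by
          rintro rfl
          exact ht rfl
        exact disjoint_left.1 (hdis L hL L'.1 L'.2 hne) (ha ⟨L, hL⟩) (h ▸ ha L')
    have him : ({z1, z2} : Finset (Ext 𝓛)).image (pi a) = {a ⟨L, hL⟩, pi a t} := by
      rw [hft, image_insert, image_singleton]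
      rfl
    refine ⟨{a ⟨L, hL⟩, pi a t}, ?_, ⟨a ⟨L, hL⟩, ?_⟩⟩
    · unfold down
      rw [mem_filter, mem_image]
      exact ⟨⟨_, hf, him⟩, card_pair hne⟩
    · exact mem_inter.2 ⟨mem_insert_self _ _, ha ⟨L, hL⟩⟩
  rw [mem_insert, mem_singleton] at hLf
  rcases hLf with h | h
  · exact key z2 (by rw [h]; exact hz.symm) (by rw [h])
  · exact key z1 (by rw [h]; exact hz) (by rw [h, pair_comm])

theorem ext_pull {𝓛 H : Finset (Finset α)} (hH : Indep H) (h0 : dof H = 0)
    (hn : 4 ≤ Fintype.card α) (hfat : ∀ L ∈ 𝓛, Fat H L)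
    (hdis : ∀ L ∈ 𝓛, ∀ L' ∈ 𝓛, L ≠ L' → Disjoint L L') {a b : {L // L ∈ 𝓛} → α}
    (ha : ∀ L, a L ∈ L.1) (hb : ∀ L, b L ∈ L.1) (hab : ∀ L, a L ≠ b L)
    {F : Finset (Finset (Ext 𝓛))} (hF : ∀ f ∈ F, f.card = 2)
    (hMC : MC (ext 𝓛 H a b ∪ F)) : MC (H ∪ down a F) := by
  classical
  by_contra hnot
  obtain ⟨X, ⟨hX1, hX2, hX3⟩, hXmin, hXthin⟩ := exists_bad hnot
  have hwX : ∀ A ∈ X, 1 ≤ w A := fun A hA => w_pos (hX1 A hA).1
  have hHw : ∑ B ∈ H, w B = 2 * (Fintype.card α : ℤ) - 3 := by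
    have h1 : kk H univ = 0 := h0
    unfold kk at h1
    rw [sIn_univ] at h1
    unfold w at h1 ⊢
    rw [card_univ] at h1
    linarith
  -- counting
  have hcount : ∀ (S : Finset (Finset α)) (Y : Finset (Finset α)), S ⊆ H →
      (∀ B ∈ S, ∃ A ∈ Y, B ⊆ A) → ∑ B ∈ S, w B ≤ ∑ A ∈ Y, sIn H A := by
    intro S Y hS hcov
    have h1 : ∑ A ∈ Y, sIn H A = ∑ B ∈ H, ∑ A ∈ Y, (if B ⊆ A then w B else 0) := by
      unfold sIn
      rw [sum_comm]
      exact sum_congr rfl fun A _ => by rw [sum_filter]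
    rw [h1]
    refine le_trans ?_ (sum_le_sum_of_subset_of_nonneg hS (fun B hB _ => sum_nonneg fun A _ => ?_))
    · apply sum_le_sum
      intro B hB
      obtain ⟨A, hA, hBA⟩ := hcov B hB
      have h2 := single_le_sum (f := fun A => if B ⊆ A then w B else 0) (fun A _ => by
        have := hH.w_pos (hS hB)
        split_ifs <;> linarith) hA
      simpa [hBA] using h2
    · have := hH.w_pos hB
      split_ifs <;> linarith
  -- (1)
  have hrig : ∀ A ∈ X, Rig H A := by
    have h1 : 2 * (Fintype.card α : ℤ) - 3 ≤ ∑ A ∈ X, sIn H A := by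
      rw [← hHw]
      exact hcount H X subset_rfl fun B hB => hX2 B (mem_union_left _ hB)
    have h2 : ∀ A ∈ X, 0 ≤ w A - sIn H A := fun A hA => hH.nonneg A (hX1 A hA).1
    have h3 : ∑ A ∈ X, (w A - sIn H A) = 0 := by
      apply le_antisymm
      · rw [sum_sub_distrib]
        linarith
      · exact sum_nonneg h2
    have h4 := (sum_eq_zero_iff_of_nonneg h2).1 h3
    exact fun A hA => ⟨(hX1 A hA).1, h4 A hA⟩
  -- (2)
  have hbig : ∀ L ∈ 𝓛, ∀ u v, FatAt H L u v → insert u (insert v L) ≠ univ →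
      ∃ A ∈ X, insert u (insert v L) ⊆ A := by
    intro L _ u v hF hDne
    by_contra hno
    push Not at hno
    obtain ⟨D, hD⟩ : ∃ D, D = insert u (insert v L) := ⟨_, rfl⟩
    rw [← hD] at hDne
    rw [← hD] at hno
    have hsub : ∀ A ∈ X, (A ∩ L).Nonempty → A ⊆ D := by
      intro A hA hAL
      by_contra h
      rw [hD] at h
      exact hno A hA (hD ▸ hF.alt hH (hrig A hA) hAL h)
    have hDr : Rig H D := by
      rcases hF.rig_or hH with h | ⟨B, hB, hDB⟩
      · rw [hD]; exact h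
      · obtain ⟨A, hA, hBA⟩ := hX2 B (mem_union_left _ hB)
        exact absurd (hD ▸ hDB.trans hBA) (hno A hA)
    have hin : ∀ B ∈ H.filter (fun B => B ⊆ D), ∃ A ∈ X.filter (fun A => A ⊆ D), B ⊆ A := by
      intro B hB
      obtain ⟨hBH, hBD⟩ := mem_filter.1 hB
      have hmeet : (B ∩ L).Nonempty := by
        by_contra h
        rw [not_nonempty_iff_eq_empty] at h
        have h1 : B ⊆ {u, v} := by
          intro z hz
          have h2 := hBD hz
          rw [hD, mem_insert, mem_insert] at h2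
          rw [mem_insert, mem_singleton]
          rcases h2 with h2 | h2 | h2
          · exact Or.inl h2
          · exact Or.inr h2
          · exact absurd (mem_inter.2 ⟨hz, h2⟩) (by rw [h]; exact notMem_empty _)
        have h2 : B = {u, v} :=
          eq_of_subset_of_card_le h1 ((card_le_two).trans (hH.two B hBH))
        exact hF.not_mem hH (h2 ▸ hBH)
      obtain ⟨A, hA, hBA⟩ := hX2 B (mem_union_left _ hBH)
      obtain ⟨z, hz⟩ := hmeet
      have hAL : (A ∩ L).Nonempty := ⟨z, mem_inter.2 ⟨hBA (mem_inter.1 hz).1, (mem_inter.1 hz).2⟩⟩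
      exact ⟨A, mem_filter.2 ⟨hA, hsub A hA hAL⟩, hBA⟩
    have hwD : w D ≤ ∑ A ∈ X.filter (fun A => A ⊆ D), w A := by
      have h1 : w D = ∑ B ∈ H.filter (fun B => B ⊆ D), w B := by
        have := hDr.2
        unfold kk sIn at this
        linarith
      rw [h1]
      refine (hcount _ _ (filter_subset _ _) hin).trans (le_of_eq ?_)
      apply sum_congr rfl
      intro A hA
      have := (hrig A (mem_filter.1 hA).1).2
      unfold kk at this
      linarith
    have hDX : D ∉ X := fun h => hno D h subset_rfl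
    have hsplit := sum_filter_add_sum_filter_not X (fun A => A ⊆ D) w
    have hDX2 : D ∉ X.filter (fun A => ¬ A ⊆ D) := fun h => hDX (mem_filter.1 h).1
    have hbad : Bad (H ∪ down a F) (insert D (X.filter (fun A => ¬ A ⊆ D))) := by
      refine ⟨?_, ?_, ?_⟩
      · intro A hA
        rcases mem_insert.1 hA with rfl | hA
        · exact ⟨hDr.1, hDne⟩
        · exact hX1 A (mem_filter.1 hA).1
      · intro B hB
        obtain ⟨A, hA, hBA⟩ := hX2 B hB
        by_cases h : A ⊆ D
        · exact ⟨D, mem_insert_self _ _, hBA.trans h⟩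
        · exact ⟨A, mem_insert_of_mem (mem_filter.2 ⟨hA, h⟩), hBA⟩
      · rw [sum_insert hDX2]
        linarith
    have hc := hXmin _ hbad
    rw [card_insert_of_notMem hDX2] at hc
    have hc2 : (X.filter (fun A => A ⊆ D)).card + (X.filter (fun A => ¬ A ⊆ D)).card = X.card :=
      card_filter_add_card_filter_not _
    have hc3 : (X.filter (fun A => A ⊆ D)).card ≤ 1 := by omega
    have hDpos := w_pos hDr.1
    have hne : (X.filter (fun A => A ⊆ D)).Nonempty := by
      rw [nonempty_iff_ne_empty]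
      intro h
      rw [h, sum_empty] at hwD
      linarith
    obtain ⟨A, hA⟩ := hne
    have hXA : X.filter (fun A => A ⊆ D) = {A} := by
      apply Subset.antisymm
      · intro A' hA'
        rw [mem_singleton]
        exact card_le_one.1 hc3 A' hA' A hA
      · exact singleton_subset_iff.2 hA
    rw [hXA, sum_singleton] at hwD
    obtain ⟨hAX, hAD⟩ := mem_filter.1 hA
    have hcard : D.card ≤ A.card := by
      unfold w at hwD
      have : (D.card : ℤ) ≤ A.card := by linarith
      exact_mod_cast this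
    have : A = D := eq_of_subset_of_card_le hAD hcard
    exact hDX (this ▸ hAX)
  -- (3)
  have hch : ∀ L : {L // L ∈ 𝓛}, ∃ D A : Finset α, A ∈ X ∧ D ⊆ A ∧ L.1 ⊆ D ∧ 2 ≤ D.card ∧
      (∀ T, Rig H T → (T ∩ L.1).Nonempty → T ⊆ D ∨ D ⊆ T) := by
    intro L
    obtain ⟨u, v, hF, hDne⟩ := hfat L.1 L.2
    obtain ⟨A, hA, hDA⟩ := hbig L.1 L.2 u v hF hDne
    refine ⟨insert u (insert v L.1), A, hA, hDA,
      fun z hz => mem_insert_of_mem (mem_insert_of_mem hz), ?_, ?_⟩
    · rw [f1_card hF]; omega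
    · intro T hT hTL
      by_cases h : T ⊆ insert u (insert v L.1)
      · exact Or.inl h
      · exact Or.inr (hF.alt hH hT hTL h)
  choose D AL hALX hDAL hLD hD2 hDalt using hch
  have huniq : ∀ L, ∀ A ∈ X, D L ⊆ A → A = AL L := by
    intro L A hA hDA
    by_contra hne
    have h1 := hXthin A hA (AL L) (hALX L) hne
    have h2 := card_le_card (subset_inter hDA (hDAL L))
    have := hD2 L
    omega
  have hmeetD : ∀ L, ∀ A ∈ X, a L ∈ A → D L ⊆ A := by
    intro L A hA haA
    rcases hDalt L A (hrig A hA) ⟨a L, mem_inter.2 ⟨haA, ha L⟩⟩ with h | h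
    · by_cases hne : A = AL L
      · rw [hne]; exact hDAL L
      · exfalso
        have h1 := hXthin A hA (AL L) (hALX L) hne
        have h2 : A ⊆ A ∩ AL L := subset_inter subset_rfl (h.trans (hDAL L))
        have h3 := card_le_card h2
        have := (hX1 A hA).1
        omega
    · exact h
  obtain ⟨plus, hplus⟩ : ∃ plus : Finset α → Finset (Ext 𝓛), ∀ A z, z ∈ plus A ↔
      Sum.elim (fun y => y ∈ A) (fun L => D L ⊆ A) z :=
    ⟨fun A => univ.filter (fun z => Sum.elim (fun y => y ∈ A) (fun L => D L ⊆ A) z), fun A z => by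
      rw [mem_filter]
      exact ⟨fun h => h.2, fun h => ⟨mem_univ _, h⟩⟩⟩
  have hpl : ∀ A y, (Sum.inl y : Ext 𝓛) ∈ plus A ↔ y ∈ A := fun A y => by
    rw [hplus]; rfl
  have hpr : ∀ A L, (Sum.inr L : Ext 𝓛) ∈ plus A ↔ D L ⊆ A := fun A L => by
    rw [hplus]; rfl
  have hpc : ∀ A, (plus A).card = A.card + (univ.filter (fun L => D L ⊆ A)).card := by
    intro A
    have h1 : plus A = A.image Sum.inl ∪ (univ.filter (fun L => D L ⊆ A)).image Sum.inr := by
      ext z
      rcases z with y | L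
      · rw [hpl, mem_union, mem_image, mem_image]
        constructor
        · intro h
          exact Or.inl ⟨y, h, rfl⟩
        · rintro (⟨y', h1, h2⟩ | ⟨L, -, h2⟩)
          · rw [← Sum.inl_injective h2]; exact h1
          · exact absurd h2 (by simp)
      · rw [hpr, mem_union, mem_image, mem_image]
        constructor
        · intro h
          exact Or.inr ⟨L, mem_filter.2 ⟨mem_univ _, h⟩, rfl⟩
        · rintro (⟨y', -, h2⟩ | ⟨L', h1, h2⟩)
          · exact absurd h2 (by simp)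
          · rw [← Sum.inr_injective h2]; exact (mem_filter.1 h1).2
    rw [h1, card_union_of_disjoint, card_image_of_injective _ Sum.inl_injective,
      card_image_of_injective _ Sum.inr_injective]
    rw [disjoint_left]
    intro z hz hz'
    rw [mem_image] at hz hz'
    obtain ⟨y, -, rfl⟩ := hz
    obtain ⟨L, -, h⟩ := hz'
    exact absurd h (by simp)
  have hpinj : ∀ A B, plus A = plus B → A = B := by
    intro A B h
    ext y
    rw [← hpl, ← hpl, h]
  have hcov := hMC (X.image plus) (by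
    intro T hT
    obtain ⟨A, hA, rfl⟩ := mem_image.1 hT
    refine ⟨?_, ?_⟩
    · rw [hpc]
      have := (hX1 A hA).1
      omega
    · intro h
      apply (hX1 A hA).2
      rw [eq_univ_iff_forall]
      intro y
      rw [← hpl, h]
      exact mem_univ _) (by
    intro B hB
    rcases mem_union.1 hB with hB | hB
    · rcases rf3_mem_ext hB with ⟨B0, hB0, rfl⟩ | ⟨L, rfl⟩ | ⟨L, rfl⟩
      · obtain ⟨A, hA, hBA⟩ := hX2 B0 (mem_union_left _ hB0)
        refine ⟨plus A, mem_image_of_mem _ hA, ?_⟩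
        intro z hz
        unfold up at hz
        rw [mem_image] at hz
        obtain ⟨y, hy, rfl⟩ := hz
        exact (hpl A y).2 (hBA hy)
      · refine ⟨plus (AL L), mem_image_of_mem _ (hALX L), ?_⟩
        rw [pair_subset]
        exact ⟨(hpr _ _).2 (hDAL L), (hpl _ _).2 (hDAL L (hLD L (ha L)))⟩
      · refine ⟨plus (AL L), mem_image_of_mem _ (hALX L), ?_⟩
        rw [pair_subset]
        exact ⟨(hpr _ _).2 (hDAL L), (hpl _ _).2 (hDAL L (hLD L (hb L)))⟩
    · by_cases hc : (B.image (pi a)).card = 2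
      · have h1 : B.image (pi a) ∈ down a F := by
          unfold down
          exact mem_filter.2 ⟨mem_image_of_mem _ hB, hc⟩
        obtain ⟨A, hA, hBA⟩ := hX2 _ (mem_union_right _ h1)
        refine ⟨plus A, mem_image_of_mem _ hA, ?_⟩
        intro z hz
        have h2 := hBA (mem_image_of_mem (pi a) hz)
        rcases z with y | L
        · exact (hpl _ _).2 h2
        · exact (hpr _ _).2 (hmeetD L A hA h2)
      · obtain ⟨z1, z2, hz, rfl⟩ := card_eq_two.1 (hF B hB)
        have h1 : pi a z1 = pi a z2 := by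
          by_contra h
          apply hc
          rw [image_insert, image_singleton, card_pair h]
        rcases z1 with y1 | L1 <;> rcases z2 with y2 | L2
        · change y1 = y2 at h1
          exact absurd (by rw [h1]) hz
        · change y1 = a L2 at h1
          refine ⟨plus (AL L2), mem_image_of_mem _ (hALX L2), ?_⟩
          rw [pair_subset, h1]
          exact ⟨(hpl _ _).2 (hDAL L2 (hLD L2 (ha L2))), (hpr _ _).2 (hDAL L2)⟩
        · change a L1 = y2 at h1
          refine ⟨plus (AL L1), mem_image_of_mem _ (hALX L1), ?_⟩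
          rw [pair_subset, ← h1]
          exact ⟨(hpr _ _).2 (hDAL L1), (hpl _ _).2 (hDAL L1 (hLD L1 (ha L1)))⟩
        · change a L1 = a L2 at h1
          have hne : L1.1 ≠ L2.1 := by
            intro h
            exact hz (by rw [Subtype.ext h])
          exact absurd (h1 ▸ ha L2) (disjoint_left.1 (hdis L1.1 L1.2 L2.1 L2.2 hne) (ha L1)))
  rw [sum_image (fun A _ B _ h => hpinj A B h), card_ext] at hcov
  have h5 : ∑ A ∈ X, w (plus A) = ∑ A ∈ X, w A +
      2 * ∑ A ∈ X, ((univ.filter (fun L => D L ⊆ A)).card : ℤ) := by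
    rw [mul_sum, ← sum_add_distrib]
    apply sum_congr rfl
    intro A _
    unfold w
    rw [hpc]
    push_cast
    ring
  have h6 : ∑ A ∈ X, (univ.filter (fun L => D L ⊆ A)).card ≤ 𝓛.card := by
    have e1 : ∑ A ∈ X, (univ.filter (fun L => D L ⊆ A)).card =
        ∑ L : {L // L ∈ 𝓛}, (X.filter (fun A => D L ⊆ A)).card := by
      simp only [card_filter]
      rw [sum_comm]
    rw [e1]
    calc ∑ L : {L // L ∈ 𝓛}, (X.filter (fun A => D L ⊆ A)).card
        ≤ ∑ L : {L // L ∈ 𝓛}, 1 := by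
          apply sum_le_sum
          intro L _
          rw [card_le_one]
          intro A hA B hB
          rw [mem_filter] at hA hB
          rw [huniq L A hA.1 hA.2, huniq L B hB.1 hB.2]
      _ = 𝓛.card := by simp
  have h7 : (∑ A ∈ X, ((univ.filter (fun L => D L ⊆ A)).card : ℤ)) ≤ (𝓛.card : ℤ) := by
    exact_mod_cast h6
  rw [h5] at hcov
  push_cast at hcov
  linarith

end Pool.Agent.GRA
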