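import Pool.Agent.GRA.RF2
import Pool.Agent.GRA.RF3

/-!
# GRA/RF4: rigid phase touching prescribed fat sets

PROOF of `rigid_fat`. Every `L ∈ 𝓛` has at least two elements (`Fat`), choose `a L ≠ b L` in `L`. `ext_indep`,
`ext_dof`, `ext_pack`; `γ = N + 1`; `card (Ext 𝓛) ≥ 4`. `rigid_phase` for `ext 𝓛 H a b` gives `F⁺`, `|F⁺| ≤ γ`,
`MC (ext 𝓛 H a b ∪ F⁺)`. `F = down a F⁺`: `down_card`, `ext_pull`, `down_touch`.
-/

namespace Pool.Agent.GRA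

open Finset

variable {α : Type*} [Fintype α] [DecidableEq α]

theorem rigid_fat {𝓛 H : Finset (Finset α)} (hH : Indep H) (h0 : dof H = 0)
    (hn : 4 ≤ Fintype.card α) {m : α → ℕ} (hm : Feas H m) {γ : ℕ} (hγ : 1 ≤ γ)
    (htot : mass m univ ≤ 2 * γ) (hfat : ∀ L ∈ 𝓛, Fat H L ∧ 1 ≤ mass m L)
    (hdis : ∀ L ∈ 𝓛, ∀ L' ∈ 𝓛, L ≠ L' → Disjoint L L') :
    ∃ F : Finset (Finset α), (∀ f ∈ F, f.card = 2) ∧ F.card ≤ γ ∧ MC (H ∪ F) ∧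
      ∀ L ∈ 𝓛, ∃ f ∈ F, (f ∩ L).Nonempty := by
  have h2 : ∀ L : {L // L ∈ 𝓛}, ∃ x y, x ∈ L.1 ∧ y ∈ L.1 ∧ x ≠ y := by
    intro L
    obtain ⟨⟨u, v, hF, -⟩, -⟩ := hfat L.1 L.2
    have h3 : 2 ≤ L.1.card := hF.2.2.2.1
    obtain ⟨x, hx, y, hy, hxy⟩ := one_lt_card.1 (show 1 < L.1.card by omega)
    exact ⟨x, y, hx, hy, hxy⟩
  choose a b ha hb hab using h2
  have hn' : 4 ≤ Fintype.card (Ext 𝓛) := by
    rw [card_ext]
    omega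
  obtain ⟨N, rfl⟩ : ∃ N, γ = N + 1 := ⟨γ - 1, by omega⟩
  obtain ⟨F, hF, hc, hM⟩ := rigid_phase hn' N (ext 𝓛 H a b) (ext_indep hH hab)
    (by rw [ext_dof hab, h0]) (ext_pack hH h0 hn hm hγ htot hfat hdis ha hb hab)
  exact ⟨down a F, (down_card a F).2, (down_card a F).1.trans hc,
    ext_pull hH h0 hn (fun L hL => (hfat L hL).1) hdis ha hb hab hF hM,
    down_touch hn hdis ha hF hM⟩

end Pool.Agent.GRA
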