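import Pool.Agent.GRA.OR2
import Pool.Agent.GRA.L1

/-!
# GRA/RK: the rank algorithm is correct

PROOF of `okAdd_iff`. `Sparse (insert (pr n e) (gr n I))` says: for all `X` with `|X| ≥ 2`:
`|{f ∈ gr n I : f ⊆ X}| + [pr n e ⊆ X] + 3 ≤ 2|X|`. For `X` not containing `pr n e` this is `Sparse (gr n I)`. By
`orient_isSome`, `okAdd n I e` says `insideL I Y + 4 [e inside Y] ≤ 2|Y|` for all `Y ⊆ range n`. For `Y` not containing
both ends of `e` it follows from `Sparse (gr n I)` (`inside_gr`; for `|Y| ≤ 1` nothing is inside). Finite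
subsets of `range n` correspond to subsets of `Fin n` (`Finset.map Fin.valEmbedding`).

PROOF of `basis_spec`. Invariant of the fold over the prefix `l'` of `l`: `I` is `EL n`, members of `I` are in `l'`,
`Sparse (gr n I)`, and every `e ∈ l'`, `e ∉ I` has `¬ Sparse (insert (pr n e) (gr n I))` (monotone: a subset of a
sparse set is sparse, so this remains true when `I` grows). When the next `e` is processed, `e ∉ I` since `l`
has no repetitions.

PROOF of `rigidB_iff`: `(basis n l).length = (gr n (basis n l)).card` (`gr_card`). If it is `2n - 3` then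
`LRigid (gr n l)`, so `CR` (`LRigid.cr`). Conversely `CR (gr n l)` and `maxSparse_cover` give
`2n - 3 ≤ |basis|`, and `Sparse` with `X = univ` gives `≤`.
`basis_rank`: from `rank_eq`.
-/

namespace Pool.Agent.GRA

open Finset


private theorem rk_insideL_cons (p : ℕ × ℕ) (l : List (ℕ × ℕ)) (X : Finset ℕ) :
    insideL (p :: l) X = insideL l X + if p.1 ∈ X ∧ p.2 ∈ X then 1 else 0 := by
  unfold insideL
  rw [List.countP_cons]
  congr 1
  by_cases h : p.1 ∈ X ∧ p.2 ∈ X
  · simp [h]
  · rw [if_neg h, if_neg (by simpa using h)]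

private theorem rk_pr_sub {n : ℕ} {e : ℕ × ℕ} (he : e.1 < e.2 ∧ e.2 < n) (X : Finset (Fin n)) :
    pr n e ⊆ X ↔ e.1 ∈ X.map Fin.valEmbedding ∧ e.2 ∈ X.map Fin.valEmbedding := by
  simp only [mem_map, Fin.valEmbedding_apply]
  constructor
  · intro h
    refine ⟨⟨⟨e.1, he.1.trans he.2⟩, h ?_, rfl⟩, ⟨⟨e.2, he.2⟩, h ?_, rfl⟩⟩
    · exact mem_filter.2 ⟨mem_univ _, Or.inl rfl⟩
    · exact mem_filter.2 ⟨mem_univ _, Or.inr rfl⟩
  · rintro ⟨⟨i, hi, hi'⟩, ⟨j, hj, hj'⟩⟩ t ht
    rcases (mem_filter.1 ht).2 with h | h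
    · have : t = i := Fin.ext (h.trans hi'.symm)
      rw [this]; exact hi
    · have : t = j := Fin.ext (h.trans hj'.symm)
      rw [this]; exact hj

private theorem rk_map_filter {n : ℕ} {Y : Finset ℕ} (hY : Y ⊆ range n) :
    (univ.filter (fun i : Fin n => (i : ℕ) ∈ Y)).map Fin.valEmbedding = Y := by
  ext t
  simp only [mem_map, mem_filter, mem_univ, true_and, Fin.valEmbedding_apply]
  constructor
  · rintro ⟨i, hi, rfl⟩
    exact hi
  · intro ht
    exact ⟨⟨t, mem_range.1 (hY ht)⟩, ht, rfl⟩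

private theorem rk_map_sub {n : ℕ} (X : Finset (Fin n)) : X.map Fin.valEmbedding ⊆ range n := by
  intro t ht
  obtain ⟨i, _, rfl⟩ := mem_map.1 ht
  exact mem_range.2 i.2

private theorem rk_sparse_mono {α : Type*} [Fintype α] [DecidableEq α] {I J : Finset (Finset α)}
    (h : I ⊆ J) (hJ : Sparse J) : Sparse I := by
  intro X hX
  have h1 := hJ X hX
  have h2 : (I.filter (fun e => e ⊆ X)).card ≤ (J.filter (fun e => e ⊆ X)).card :=
    card_le_card (filter_subset_filter _ h)
  omega

private theorem rk_inside_small {n : ℕ} {I : List (ℕ × ℕ)} (hI : EL n I) {Y : Finset ℕ}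
    (hY : Y.card ≤ 1) : insideL I Y = 0 := by
  unfold insideL
  rw [List.countP_eq_zero]
  intro p hp h
  simp only [decide_eq_true_eq] at h
  have h1 : p.1 ≠ p.2 := (hI.2 p hp).1.ne
  have h2 : 2 ≤ Y.card := one_lt_card.2 ⟨p.1, h.1, p.2, h.2, h1⟩
  omega

theorem okAdd_iff {n : ℕ} {I : List (ℕ × ℕ)} (hI : EL n I) (hs : Sparse (gr n I)) {e : ℕ × ℕ}
    (he : e.1 < e.2 ∧ e.2 < n) (heI : e ∉ I) :
    okAdd n I e = true ↔ Sparse (insert (pr n e) (gr n I)) := by
  have hOK : OK n (e :: e :: e :: e :: I) := by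
    intro p hp
    have hp' : p = e ∨ p ∈ I := by
      simp only [List.mem_cons] at hp
      tauto
    rcases hp' with rfl | hp'
    · exact ⟨he.1.trans he.2, he.2, he.1.ne⟩
    · have := hI.2 p hp'
      exact ⟨this.1.trans this.2, this.2, this.1.ne⟩
  have hins : ∀ Y : Finset ℕ, insideL (e :: e :: e :: e :: I) Y =
      insideL I Y + if e.1 ∈ Y ∧ e.2 ∈ Y then 4 else 0 := by
    intro Y
    rw [rk_insideL_cons, rk_insideL_cons, rk_insideL_cons, rk_insideL_cons]
    split_ifs <;> omega
  have hnot : pr n e ∉ gr n I := fun h => heI ((pr_mem_gr_EL hI he).1 h)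
  have hcard : ∀ X : Finset (Fin n), ((insert (pr n e) (gr n I)).filter (fun f => f ⊆ X)).card =
      insideL I (X.map Fin.valEmbedding) +
        if e.1 ∈ X.map Fin.valEmbedding ∧ e.2 ∈ X.map Fin.valEmbedding then 1 else 0 := by
    intro X
    rw [filter_insert]
    by_cases h : pr n e ⊆ X
    · rw [if_pos h, if_pos ((rk_pr_sub he X).1 h), card_insert_of_notMem
        (fun hm => hnot (mem_filter.1 hm).1), inside_gr hI]
    · rw [if_neg h, if_neg (fun h' => h ((rk_pr_sub he X).2 h')), inside_gr hI, add_zero]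
  unfold okAdd
  rw [orient_isSome hOK]
  constructor
  · intro h X hX
    rw [hcard]
    have h1 := h (X.map Fin.valEmbedding) (rk_map_sub X)
    rw [hins, card_map] at h1
    have h2 := hs X hX
    rw [inside_gr hI] at h2
    split_ifs at h1 ⊢ <;> omega
  · intro h Y hY
    rw [hins]
    obtain ⟨X, hXd⟩ : ∃ X : Finset (Fin n), X = univ.filter (fun i : Fin n => (i : ℕ) ∈ Y) := ⟨_, rfl⟩
    have hXY : X.map Fin.valEmbedding = Y := by rw [hXd]; exact rk_map_filter hY
    have hXc : X.card = Y.card := by rw [← hXY, card_map]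
    by_cases h2 : 2 ≤ Y.card
    · have h3 := h X (by rw [hXc]; exact h2)
      rw [hcard, hXY, hXc] at h3
      split_ifs at h3 ⊢ <;> omega
    · rw [rk_inside_small hI (by omega)]
      rw [if_neg]
      · omega
      · rintro ⟨h3, h4⟩
        exact h2 (one_lt_card.2 ⟨e.1, h3, e.2, h4, he.1.ne⟩)

private def RkInv (n : ℕ) (l I : List (ℕ × ℕ)) : Prop :=
  EL n I ∧ (∀ p ∈ I, p ∈ l) ∧ Sparse (gr n I) ∧
    ∀ e ∈ l, e ∉ I → ¬ Sparse (insert (pr n e) (gr n I))

private theorem rk_fold {n : ℕ} (l' : List (ℕ × ℕ)) : ∀ (l I : List (ℕ × ℕ)), EL n (l ++ l') →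
    RkInv n l I → RkInv n (l ++ l') (l'.foldl (fun I e => if okAdd n I e then e :: I else I) I) := by
  induction l' with
  | nil =>
    intro l I _ h
    simpa using h
  | cons e l' ih =>
    intro l I hEL hinv
    obtain ⟨h1, h2, h3, h4⟩ := hinv
    have he : e.1 < e.2 ∧ e.2 < n := hEL.2 e (by simp)
    have hel : e ∉ l := by
      intro h
      have hnd := hEL.1
      rw [List.nodup_append] at hnd
      exact hnd.2.2 e h e (by simp) rfl
    have heI : e ∉ I := fun h => hel (h2 e h)
    rw [List.foldl_cons, show l ++ e :: l' = (l ++ [e]) ++ l' by simp]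
    refine ih (l ++ [e]) _ (by simpa using hEL) ?_
    by_cases hok : okAdd n I e = true
    · rw [if_pos hok]
      have hsp := (okAdd_iff h1 h3 he heI).1 hok
      refine ⟨⟨List.nodup_cons.2 ⟨heI, h1.1⟩, ?_⟩, ?_, ?_, ?_⟩
      · intro p hp
        rcases List.mem_cons.1 hp with rfl | hp
        · exact he
        · exact h1.2 p hp
      · intro p hp
        rcases List.mem_cons.1 hp with rfl | hp
        · simp
        · exact List.mem_append_left _ (h2 p hp)
      · rw [gr_cons he]
        exact hsp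
      · intro f hf hfI
        rw [List.mem_cons, not_or] at hfI
        have hfl : f ∈ l := by
          rcases List.mem_append.1 hf with h | h
          · exact h
          · exact absurd (List.mem_singleton.1 h) hfI.1
        intro hsp'
        refine h4 f hfl hfI.2 (rk_sparse_mono ?_ hsp')
        rw [gr_cons he]
        exact insert_subset_insert _ (subset_insert _ _)
    · rw [if_neg hok]
      refine ⟨h1, fun p hp => List.mem_append_left _ (h2 p hp), h3, ?_⟩
      intro f hf hfI
      rcases List.mem_append.1 hf with h | h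
      · exact h4 f h hfI
      · rw [List.mem_singleton.1 h]
        exact fun hsp => hok ((okAdd_iff h1 h3 he heI).2 hsp)

theorem basis_spec {n : ℕ} {l : List (ℕ × ℕ)} (hl : EL n l) :
    EL n (basis n l) ∧ MaxSparse (gr n l) (gr n (basis n l)) := by
  have h0 : RkInv n [] [] := by
    refine ⟨⟨List.nodup_nil, by simp⟩, by simp, ?_, by simp⟩
    rw [gr_nil]
    intro X hX
    rw [filter_empty, card_empty]
    omega
  have h := rk_fold l [] [] (by simpa using hl) h0
  rw [List.nil_append] at h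
  obtain ⟨h1, h2, h3, h4⟩ := h
  change EL n (basis n l) at h1
  change ∀ p ∈ basis n l, p ∈ l at h2
  change Sparse (gr n (basis n l)) at h3
  change ∀ e ∈ l, e ∉ basis n l → ¬ Sparse (insert (pr n e) (gr n (basis n l))) at h4
  refine ⟨h1, ?_, h3, ?_⟩
  · intro e he
    obtain ⟨p, hp, rfl⟩ := exists_pr (gr_isG _ _ e he)
    exact (pr_mem_gr_EL hl hp).2 (h2 p ((pr_mem_gr_EL h1 hp).1 he))
  · intro e he heI
    obtain ⟨p, hp, rfl⟩ := exists_pr (gr_isG _ _ e he)
    exact h4 p ((pr_mem_gr_EL hl hp).1 he) (fun h => heI ((pr_mem_gr_EL h1 hp).2 h))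

theorem rigidB_iff {n : ℕ} {l : List (ℕ × ℕ)} (hn : 2 ≤ n) (hl : EL n l) :
    rigidB n l = true ↔ CR (gr n l) := by
  obtain ⟨h1, h2⟩ := basis_spec hl
  unfold rigidB
  rw [decide_eq_true_eq]
  constructor
  · intro h
    refine LRigid.cr (gr_isG n l) ⟨gr n (basis n l), h2.1, h2.2.1, ?_⟩
    rw [gr_card h1, Fintype.card_fin]
    exact h
  · intro h
    obtain ⟨M, hM2, hMc, hMw⟩ := maxSparse_cover (gr_isG n l) h2
    have h3 := h M hM2 hMc
    rw [hMw, gr_card h1, Fintype.card_fin] at h3
    have h4 := h2.2.1 univ (by rw [card_univ, Fintype.card_fin]; exact hn)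
    rw [filter_true_of_mem (fun e _ => subset_univ e), card_univ, Fintype.card_fin, gr_card h1] at h4
    have h5 : (2 * (n : ℤ)) ≤ ((basis n l).length : ℤ) + 3 := by linarith
    have h6 : 2 * n ≤ (basis n l).length + 3 := by exact_mod_cast h5
    omega

theorem basis_rank {n : ℕ} {l : List (ℕ × ℕ)} (hl : EL n l) {H : Finset (Finset (Fin n))}
    (hS : Sys (gr n l) H) : dof H = 2 * (n : ℤ) - 3 - (basis n l).length := by
  obtain ⟨h1, h2⟩ := basis_spec hl
  have h3 := rank_eq (gr_isG n l) hS h2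
  rw [gr_card h1, Fintype.card_fin] at h3
  exact h3

end Pool.Agent.GRA
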