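import Pool.Agent.GRA.S1
import Pool.Agent.GRA.G2

/-!
# GRA/S2: rigidity transfer and lower bounds

PROOF of `CR_sys`. Let `X` cover `E ∪ F`, all sets with ≥ 2 elements. For each `B ∈ H ∪ F`:
`Σ_{A ∈ X} wp (A ∩ B) ≥ w B`: if `B ⊆ A` for some `A ∈ X` clear. Otherwise (then `B ∉ F`, so `B ∈ H` and
`MCon E B`) the traces `A ∩ B` with ≥ 2 elements are proper subsets of `B` covering the edges inside `B`
(a set of traces; its total weight is at most `Σ_A wp (A ∩ B)`), so the sum is `≥ 2|B| - 2 > w B`.
By `Indep.sum_wp_le`, `w A ≥ wp A ≥ Σ_{B ∈ H ∪ F} wp (B ∩ A)` for all `A` (`|A| ≥ 2`, so `w A = wp A`). Sum over `A`: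
`Σ w A ≥ Σ_{B ∈ H ∪ F} w B = sIn (H ∪ F) univ = w univ - dof = 2n - 3`.

PROOF of `gg_le_touch`. Let `c` be the number of `f ∈ F` meeting `C`. If `univ ∈ H`: `sTo H C ≥ w univ`
(`C` nonempty, weights ≥ 1), `gg H C ≤ 2|C| + 1 - (2n - 3) ≤ 0` since `|C| ≤ n - 2`. Otherwise the cover
of `H ∪ F` by `univ \ C` and all members of `H ∪ F` meeting `C` consists of proper subsets
(`C` nonempty; `f ∈ F` has two elements, `n ≥ 3`) with ≥ 2 elements, its weight is at most
`(2(n - |C|) - 3) + sTo H C + c`, and ≥ `2n - 2` by `MC`. So `c ≥ 2|C| + 1 - sTo H C`.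

PROOF of `dof_lt`: if `univ ∈ H` then `H = {univ}` by `Indep.thin` (members have ≥ 2 elements), `dof = 0`
and `F` is nonempty. Otherwise the cover `H ∪ F` itself: `2n - 2 ≤ Σ_H w + |F| = 2n - 3 - dof + |F|`.

PROOF of `gg_of_nbr_one` (`nbr E C ⊆ {u}`, `C` nonempty ⇒ `2 ≤ gg H C`). WLOG `u ∉ C`: if `u ∈ C` then, as
`nbr E C` is disjoint from `C`, `nbr E C = ∅`; if moreover `C = univ`, `gg H univ = dof + 1 - kk H ∅ =
dof + 4`; otherwise replace `u` by any vertex outside `C`. So let `u ∉ C`. Every `X ∈ H` meeting `C` is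
inside `insert u C`: if `|X| = 2` then `X ∈ E` (`mcon_two`) and clear. If `|X| ≥ 3` and `X` is not inside
`insert u C`, use `mcon_sep` with `P = X ∩ insert u C`, `Q = X \ C`: `P ∩ Q = X ∩ {u}` has at most one
element, every edge inside `X` is inside `P` or `Q`, `P ≠ X`, `Q ≠ X` (`X` meets `C`): contradiction.
So `sTo H C ≤ sIn H (insert u C) ≤ w (insert u C) = 2(|C|+1) - 3` and `gg H C ≥ 2`.
-/

namespace Pool.Agent.GRA

open Finset

variable {α : Type*} [Fintype α] [DecidableEq α]

private theorem s2_sum_image {s : Finset (Finset α)} {f : Finset α → Finset α}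
    (h : ∀ A ∈ s, 0 ≤ w (f A)) : ∑ T ∈ s.image f, w T ≤ ∑ A ∈ s, w (f A) := by
  classical
  induction s using Finset.induction_on with
  | empty => simp
  | insert a s ha ih =>
    have ih' := ih (fun A hA => h A (mem_insert_of_mem hA))
    have h0 := h a (mem_insert_self _ _)
    rw [image_insert, sum_insert ha]
    by_cases hm : f a ∈ s.image f
    · rw [insert_eq_of_mem hm]
      linarith
    · rw [sum_insert hm]
      linarith

private theorem s2_sum_union {S T : Finset (Finset α)} (h : ∀ A ∈ S ∩ T, 0 ≤ w A) :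
    ∑ A ∈ S ∪ T, w A ≤ ∑ A ∈ S, w A + ∑ A ∈ T, w A := by
  have h1 := sum_union_inter (s₁ := S) (s₂ := T) (f := w)
  have h2 := sum_nonneg h
  linarith

private theorem s2_sum_pairs {F : Finset (Finset α)} (hF : ∀ f ∈ F, f.card = 2) :
    ∑ A ∈ F, w A = (F.card : ℤ) := by
  have h : ∀ A ∈ F, w A = 1 := by
    intro A hA
    unfold w
    rw [hF A hA]
    norm_num
  rw [sum_congr rfl h]
  simp

theorem CR_sys {E H F : Finset (Finset α)} (hE : IsG E) (hF : IsG F) (hS : Sys E H)
    (hI : Indep (H ∪ F)) (h0 : dof (H ∪ F) = 0) : CR (E ∪ F) := by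
  classical
  intro X hX2 hc
  have key : ∀ B ∈ H ∪ F, w B ≤ ∑ A ∈ X, wp (B ∩ A) := by
    intro B hB
    by_cases hex : ∃ A ∈ X, B ⊆ A
    · obtain ⟨A, hA, hBA⟩ := hex
      have h1 := single_le_sum (f := fun A => wp (B ∩ A)) (fun A _ => wp_nonneg (B ∩ A)) hA
      simp only [inter_eq_left.2 hBA, wp_of_two (hI.two B hB)] at h1
      exact h1
    · push Not at hex
      have hBH : B ∈ H := by
        rcases mem_union.1 hB with h | h
        · exact h
        · obtain ⟨A, hA, hBA⟩ := hc B (mem_union_right _ h)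
          exact absurd hBA (hex A hA)
      have hT := hS.mc B hBH ((X.filter (fun A => 2 ≤ (B ∩ A).card)).image (fun A => B ∩ A)) (by
        intro T hT
        obtain ⟨A, hA, rfl⟩ := mem_image.1 hT
        obtain ⟨hAX, hA2⟩ := mem_filter.1 hA
        exact ⟨hA2, inter_subset_left, fun h => hex A hAX (inter_eq_left.1 h)⟩) (by
        intro e he heB
        obtain ⟨A, hA, heA⟩ := hc e (mem_union_left _ he)
        have h3 : e ⊆ B ∩ A := subset_inter heB heA
        exact ⟨B ∩ A, mem_image.2 ⟨A, mem_filter.2 ⟨hA, (hE e he).symm.le.trans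
          (card_le_card h3)⟩, rfl⟩, h3⟩)
      have hT2 := s2_sum_image (s := X.filter (fun A => 2 ≤ (B ∩ A).card)) (f := fun A => B ∩ A)
        (fun A hA => by
          have := w_pos (mem_filter.1 hA).2
          linarith)
      have hT3 : ∑ A ∈ X.filter (fun A => 2 ≤ (B ∩ A).card), w (B ∩ A) =
          ∑ A ∈ X.filter (fun A => 2 ≤ (B ∩ A).card), wp (B ∩ A) :=
        sum_congr rfl fun A hA => (wp_of_two (mem_filter.1 hA).2).symm
      have hT4 : ∑ A ∈ X.filter (fun A => 2 ≤ (B ∩ A).card), wp (B ∩ A) ≤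
          ∑ A ∈ X, wp (B ∩ A) :=
        sum_le_sum_of_subset_of_nonneg (filter_subset _ _) (fun A _ _ => wp_nonneg _)
      have hwB : w B = 2 * (B.card : ℤ) - 3 := rfl
      linarith
  have h1 : ∑ B ∈ H ∪ F, w B ≤ ∑ B ∈ H ∪ F, ∑ A ∈ X, wp (B ∩ A) := sum_le_sum key
  rw [sum_comm] at h1
  have h2 : ∑ A ∈ X, ∑ B ∈ H ∪ F, wp (B ∩ A) ≤ ∑ A ∈ X, w A :=
    sum_le_sum fun A hA => hI.sum_wp_le A (hX2 A hA)
  have h3 : ∑ B ∈ H ∪ F, w B = 2 * (Fintype.card α : ℤ) - 3 := by
    unfold dof kk at h0
    rw [sIn_univ] at h0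
    unfold w at h0 ⊢
    rw [card_univ] at h0
    linarith
  linarith

private theorem s2_card_sdiff (C : Finset α) :
    ((univ \ C).card : ℤ) = Fintype.card α - C.card := by
  have h := card_sdiff_add_card_eq_card (subset_univ C)
  rw [card_univ] at h
  have h' : ((univ \ C).card : ℤ) + C.card = Fintype.card α := by exact_mod_cast h
  linarith

theorem gg_le_touch {H F : Finset (Finset α)} (hn : 3 ≤ Fintype.card α) (hH : Indep H)
    (hF : IsG F) (hMC : MC (H ∪ F)) {C : Finset α} (hC : C.Nonempty)
    (h2 : 2 ≤ (univ \ C).card) :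
    gg H C ≤ ((F.filter (fun f => (f ∩ C).Nonempty)).card : ℤ) := by
  classical
  have hcard := s2_card_sdiff C
  have h2' : (2 : ℤ) ≤ (univ \ C).card := by exact_mod_cast h2
  have hpos : ∀ A ∈ H ∪ F, 1 ≤ w A := by
    intro A hA
    rcases mem_union.1 hA with h | h
    · exact hH.w_pos h
    · exact w_pos (hF A h).symm.le
  by_cases hu : (univ : Finset α) ∈ H
  · have h3 : w (univ : Finset α) ≤ sTo H C := by
      unfold sTo
      apply single_le_sum (f := fun A => w A)
      · intro A hA
        have := hH.w_pos (mem_filter.1 hA).1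
        linarith
      · refine mem_filter.2 ⟨hu, ?_⟩
        rw [univ_inter]
        exact hC
    have h4 : w (univ : Finset α) = 2 * (Fintype.card α : ℤ) - 3 := by
      unfold w
      rw [card_univ]
    have h5 : gg H C ≤ 0 := by
      unfold gg
      linarith
    exact h5.trans (by positivity)
  · have h3 := hMC (insert (univ \ C) ((H ∪ F).filter (fun B => (B ∩ C).Nonempty))) (by
      intro A hA
      rcases mem_insert.1 hA with rfl | hA
      · refine ⟨h2, fun h => ?_⟩
        obtain ⟨x, hx⟩ := hC
        have : x ∈ univ \ C := by rw [h]; exact mem_univ x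
        exact (mem_sdiff.1 this).2 hx
      · rcases mem_union.1 (mem_filter.1 hA).1 with h | h
        · exact ⟨hH.two A h, fun h' => hu (h' ▸ h)⟩
        · refine ⟨(hF A h).symm.le, fun h' => ?_⟩
          have := hF A h
          rw [h', card_univ] at this
          omega) (by
      intro B hB
      by_cases hBC : (B ∩ C).Nonempty
      · exact ⟨B, mem_insert_of_mem (mem_filter.2 ⟨hB, hBC⟩), subset_rfl⟩
      · refine ⟨univ \ C, mem_insert_self _ _, ?_⟩
        intro x hx
        refine mem_sdiff.2 ⟨mem_univ x, fun hxC => hBC ⟨x, mem_inter.2 ⟨hx, hxC⟩⟩⟩)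
    have hnm : (univ \ C) ∉ (H ∪ F).filter (fun B => (B ∩ C).Nonempty) := by
      intro h
      obtain ⟨x, hx⟩ := (mem_filter.1 h).2
      have := mem_inter.1 hx
      exact (mem_sdiff.1 this.1).2 this.2
    rw [sum_insert hnm, filter_union] at h3
    have h4 := s2_sum_union (S := H.filter (fun B => (B ∩ C).Nonempty))
      (T := F.filter (fun B => (B ∩ C).Nonempty)) (by
        intro A hA
        have := hpos A (mem_union_left _ (mem_filter.1 (mem_inter.1 hA).1).1)
        linarith)
    have h5 := s2_sum_pairs (F := F.filter (fun B => (B ∩ C).Nonempty))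
      (fun f hf => hF f (mem_filter.1 hf).1)
    have h6 : w (univ \ C) = 2 * ((univ \ C).card : ℤ) - 3 := rfl
    unfold gg sTo
    linarith

theorem dof_lt {H F : Finset (Finset α)} (hn : 3 ≤ Fintype.card α) (hH : Indep H)
    (hF : IsG F) (hMC : MC (H ∪ F)) (hF0 : F.Nonempty) : dof H + 1 ≤ (F.card : ℤ) := by
  classical
  by_cases hu : (univ : Finset α) ∈ H
  · have h1 : dof H = 0 := (hH.rig hu).2
    have h2 : (1 : ℤ) ≤ F.card := by exact_mod_cast card_pos.2 hF0
    linarith
  · have h3 := hMC (H ∪ F) (by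
      intro A hA
      rcases mem_union.1 hA with h | h
      · exact ⟨hH.two A h, fun h' => hu (h' ▸ h)⟩
      · refine ⟨(hF A h).symm.le, fun h' => ?_⟩
        have := hF A h
        rw [h', card_univ] at this
        omega) (fun B hB => ⟨B, hB, subset_rfl⟩)
    have h4 := s2_sum_union (S := H) (T := F) (by
        intro A hA
        have := hH.w_pos (mem_inter.1 hA).1
        linarith)
    have h5 := s2_sum_pairs hF
    unfold dof kk
    rw [sIn_univ]
    have h6 : w (univ : Finset α) = 2 * (Fintype.card α : ℤ) - 3 := by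
      unfold w
      rw [card_univ]
    linarith

private theorem s2_main {E H : Finset (Finset α)} (hE : IsG E) (hS : Sys E H)
    {C : Finset α} (hC : C.Nonempty) {u : α} (hu : u ∉ C)
    (h : nbr E C ⊆ {u}) : 2 ≤ gg H C := by
  classical
  have hnb : ∀ a b, a ∈ C → ({a, b} : Finset α) ∈ E → b ∈ insert u C := by
    intro a b ha hab
    by_cases hb : b ∈ C
    · exact mem_insert_of_mem hb
    · have : b ∈ nbr E C := mem_filter.2 ⟨mem_univ _, hb, a, ha, hab⟩
      have := mem_singleton.1 (h this)
      rw [this]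
      exact mem_insert_self _ _
  have hedge : ∀ e ∈ E, e ⊆ insert u C ∨ Disjoint e C := by
    intro e he
    obtain ⟨a, b, hab, rfl⟩ := card_eq_two.1 (hE e he)
    by_cases ha : a ∈ C
    · left
      exact pair_subset.2 ⟨mem_insert_of_mem ha, hnb a b ha he⟩
    · by_cases hb : b ∈ C
      · left
        refine pair_subset.2 ⟨hnb b a hb ?_, mem_insert_of_mem hb⟩
        rw [pair_comm]
        exact he
      · right
        rw [disjoint_left]
        intro x hx
        simp only [mem_insert, mem_singleton] at hx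
        rcases hx with rfl | rfl
        · exact ha
        · exact hb
  have hsub : ∀ X ∈ H, (X ∩ C).Nonempty → X ⊆ insert u C := by
    intro X hX hXC
    obtain ⟨z, hz⟩ := hXC
    obtain ⟨hzX, hzC⟩ := mem_inter.1 hz
    have hX2 := hS.indep.two X hX
    rcases Nat.lt_or_ge X.card 3 with h3 | h3
    · have hXE := mcon_two hE (hS.mc X hX) (by omega)
      rcases hedge X hXE with h4 | h4
      · exact h4
      · exact absurd hzC (disjoint_left.1 h4 hzX)
    · by_contra hcon
      have h4 := mcon_sep (hS.mc X hX) h3 (P := X ∩ insert u C) (Q := X \ C)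
        (by
          ext x
          simp only [mem_union, mem_inter, mem_sdiff, mem_insert]
          tauto)
        (fun h5 => hcon (inter_eq_left.1 h5))
        (fun h5 => by
          have : z ∈ X \ C := by rw [h5]; exact hzX
          exact (mem_sdiff.1 this).2 hzC)
        (by
          intro e he heX
          rcases hedge e he with h5 | h5
          · left
            exact subset_inter heX h5
          · right
            intro x hx
            exact mem_sdiff.2 ⟨heX hx, disjoint_left.1 h5 hx⟩)
      have h5 : X ∩ insert u C ∩ (X \ C) ⊆ {u} := by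
        intro x hx
        simp only [mem_inter, mem_insert, mem_sdiff, mem_singleton] at hx ⊢
        tauto
      have h6 := card_le_card h5
      rw [card_singleton] at h6
      omega
  have h1 : sTo H C ≤ sIn H (insert u C) := by
    unfold sTo sIn
    apply sum_le_sum_of_subset_of_nonneg
    · intro X hX
      exact mem_filter.2 ⟨(mem_filter.1 hX).1, hsub X (mem_filter.1 hX).1 (mem_filter.1 hX).2⟩
    · intro X hX _
      have := hS.indep.w_pos (mem_filter.1 hX).1
      linarith
  have h2 := hS.indep.nonneg (insert u C) (by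
    rw [card_insert_of_notMem hu]
    have := card_pos.2 hC
    omega)
  unfold kk at h2
  rw [w_insert hu] at h2
  have h3 : w C = 2 * (C.card : ℤ) - 3 := rfl
  unfold gg
  linarith

theorem gg_of_nbr_one {E H : Finset (Finset α)} (hE : IsG E) (hS : Sys E H)
    (hn : 2 ≤ Fintype.card α) {C : Finset α} (hC : C.Nonempty) {u : α}
    (h : nbr E C ⊆ {u}) : 2 ≤ gg H C := by
  classical
  by_cases hu : u ∈ C
  · have hempty : nbr E C = ∅ := by
      rw [eq_empty_iff_forall_notMem]
      intro x hx
      have h1 := mem_singleton.1 (h hx)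
      have h2 := (mem_filter.1 hx).2.1
      exact h2 (h1 ▸ hu)
    by_cases hCu : C = univ
    · subst hCu
      have h1 := hS.indep.nonneg univ (by rw [card_univ]; exact hn)
      unfold kk at h1
      have h2 : sTo H univ ≤ sIn H univ := by
        unfold sTo sIn
        apply sum_le_sum_of_subset_of_nonneg
        · intro X hX
          exact mem_filter.2 ⟨(mem_filter.1 hX).1, subset_univ X⟩
        · intro X hX _
          have := hS.indep.w_pos (mem_filter.1 hX).1
          linarith
      have h3 : w (univ : Finset α) = 2 * ((univ : Finset α).card : ℤ) - 3 := rfl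
      unfold gg
      linarith
    · obtain ⟨v, hv⟩ : ∃ v, v ∉ C := by
        by_contra hcon
        push Not at hcon
        exact hCu (eq_univ_iff_forall.2 hcon)
      exact s2_main hE hS hC hv (by rw [hempty]; exact empty_subset _)
  · exact s2_main hE hS hC hu h

end Pool.Agent.GRA
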