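import Pool.Agent.GRA.Stmt
import Pool.Agent.GRA.FN

/-!
# GRA/SG1: simple graphs on `Fin n` and families of pairs

`fam G` = the family of the two-element sets `{i,j}`, `i, j` adjacent in `G`.
PROOF of `conn_fam`. `(G.induce {v | v ∉ S}).Connected` for all `|S| ≤ 2` iff `Conn (fam G) 2` (`4 ≤ n`, so the induced
graphs are nonempty). (→) For `x, y ∉ S` there is a walk outside `S`; a closed set containing `x` contains all
vertices of the walk. (←) The set of the vertices reachable from `x` in the induced graph is closed for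
`(fam G, S)`.
PROOF of `lRigid_fam`. `LamanRigid G ↔ LRigid (fam G)`. The map `s(i,j) ↦ {i,j}` is a bijection between the edges of `H`
and `fam H` (`Sym2.toFinset`-like); `H ≤ G ↔ fam H ⊆ fam G`; every family `I ⊆ fam G` is `fam H` for some `H ≤ G`;
`{e ∈ H.edgeSet | ∀ v ∈ e, v ∈ X}.ncard = ((fam H).filter (· ⊆ X)).card`; `H.edgeSet.ncard = (fam H).card`.
`fam_delete`: `fam (G.deleteEdges {s(i,j)}) = (fam G).erase {i,j}`.
PROOF of `comb_iff` (`4 ≤ n`): `conn_fam`, `lRigid_fam`, `fam_delete`, `redund_MC`, `MC.redund`.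
-/

namespace Pool.Agent.GRA

open Finset Stmt

variable {n : ℕ}

/-- The family of the edges of a graph. -/
noncomputable def fam (G : SimpleGraph (Fin n)) : Finset (Finset (Fin n)) :=
  open Classical in univ.filter (fun e => ∃ i j, G.Adj i j ∧ e = {i, j})

private theorem tf_inj : Function.Injective (Sym2.toFinset : Sym2 (Fin n) → Finset (Fin n)) := by
  intro z z' h
  refine Sym2.ext fun a => ?_
  rw [← Sym2.mem_toFinset, ← Sym2.mem_toFinset, h]

private theorem pair_eq {i j a b : Fin n} :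
    ({i, j} : Finset (Fin n)) = {a, b} ↔ s(i, j) = s(a, b) := by
  rw [← Sym2.toFinset_mk_eq, ← Sym2.toFinset_mk_eq]
  exact tf_inj.eq_iff

private theorem mem_fam' {G : SimpleGraph (Fin n)} {e : Finset (Fin n)} :
    e ∈ fam G ↔ ∃ i j, G.Adj i j ∧ e = {i, j} := by
  classical
  unfold fam
  rw [mem_filter]
  simp

private theorem mem_fam_iff {G : SimpleGraph (Fin n)} {e : Finset (Fin n)} :
    e ∈ fam G ↔ ∃ z ∈ G.edgeSet, z.toFinset = e := by
  rw [mem_fam']
  constructor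
  · rintro ⟨i, j, h, rfl⟩
    exact ⟨s(i, j), G.mem_edgeSet.2 h, Sym2.toFinset_mk_eq⟩
  · rintro ⟨z, hz, rfl⟩
    induction z with
    | _ i j => exact ⟨i, j, G.mem_edgeSet.1 hz, Sym2.toFinset_mk_eq⟩

theorem fam_isG (G : SimpleGraph (Fin n)) : IsG (fam G) := by
  intro e he
  obtain ⟨i, j, h, rfl⟩ := mem_fam'.1 he
  exact card_pair h.ne

theorem mem_fam {G : SimpleGraph (Fin n)} {i j : Fin n} :
    ({i, j} : Finset (Fin n)) ∈ fam G ↔ G.Adj i j := by
  rw [mem_fam']
  constructor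
  · rintro ⟨a, b, h, he⟩
    rw [pair_eq] at he
    rw [← G.mem_edgeSet, he]
    exact h
  · intro h
    exact ⟨i, j, h, rfl⟩

theorem fam_sup (G H : SimpleGraph (Fin n)) : fam (G ⊔ H) = fam G ∪ fam H := by
  ext e
  rw [mem_union, mem_fam', mem_fam', mem_fam']
  constructor
  · rintro ⟨i, j, h | h, rfl⟩
    · exact Or.inl ⟨i, j, h, rfl⟩
    · exact Or.inr ⟨i, j, h, rfl⟩
  · rintro (⟨i, j, h, rfl⟩ | ⟨i, j, h, rfl⟩)
    · exact ⟨i, j, Or.inl h, rfl⟩
    · exact ⟨i, j, Or.inr h, rfl⟩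

theorem fam_fromEdgeSet_card (F : Finset (Sym2 (Fin n))) :
    (fam (SimpleGraph.fromEdgeSet (F : Set (Sym2 (Fin n))))).card ≤ F.card := by
  refine (card_le_card ?_).trans (card_image_le (s := F) (f := Sym2.toFinset))
  intro e he
  obtain ⟨i, j, h, rfl⟩ := mem_fam'.1 he
  rw [SimpleGraph.fromEdgeSet_adj] at h
  exact mem_image.2 ⟨s(i, j), h.1, Sym2.toFinset_mk_eq⟩

/-- Every family of pairs comes from a set of unordered pairs of the same size. -/
theorem fam_of_isG {F : Finset (Finset (Fin n))} (hF : IsG F) :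
    ∃ F' : Finset (Sym2 (Fin n)), F'.card = F.card ∧
      fam (SimpleGraph.fromEdgeSet (F' : Set (Sym2 (Fin n)))) = F := by
  let F' : Finset (Sym2 (Fin n)) := univ.filter (fun z => z.toFinset ∈ F)
  have hm : ∀ z : Sym2 (Fin n), z ∈ F' ↔ z.toFinset ∈ F := fun z => by
    simp [F']
  refine ⟨F', ?_, ?_⟩
  · rw [← card_image_of_injective F' tf_inj]
    congr 1
    ext e
    rw [mem_image]
    constructor
    · rintro ⟨z, hz, rfl⟩
      exact (hm z).1 hz
    · intro he
      obtain ⟨a, b, hab, rfl⟩ := card_eq_two.1 (hF e he)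
      refine ⟨s(a, b), ?_, Sym2.toFinset_mk_eq⟩
      rw [hm, Sym2.toFinset_mk_eq]
      exact he
  · ext e
    rw [mem_fam']
    constructor
    · rintro ⟨i, j, h, rfl⟩
      rw [SimpleGraph.fromEdgeSet_adj] at h
      have := (hm _).1 (mem_coe.1 h.1)
      rwa [Sym2.toFinset_mk_eq] at this
    · intro he
      obtain ⟨a, b, hab, rfl⟩ := card_eq_two.1 (hF e he)
      refine ⟨a, b, ?_, rfl⟩
      rw [SimpleGraph.fromEdgeSet_adj]
      refine ⟨mem_coe.2 ((hm _).2 ?_), hab⟩
      rw [Sym2.toFinset_mk_eq]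
      exact he

private theorem mem_gr' {l : List (ℕ × ℕ)} {e : Finset (Fin n)} :
    e ∈ gr n l ↔ ∃ i j : Fin n, i ≠ j ∧ e = {i, j} ∧ adjB l i j = true := by
  unfold gr
  rw [mem_filter]
  simp

theorem fam_newEdges (L : List (ℕ × ℕ)) : fam (newEdges n L) = gr n L := by
  ext e
  rw [mem_fam', mem_gr']
  unfold newEdges
  constructor
  · rintro ⟨i, j, h, rfl⟩
    rw [SimpleGraph.fromRel_adj] at h
    exact ⟨i, j, h.1, rfl, adjB_iff.2 h.2⟩
  · rintro ⟨i, j, h1, rfl, h2⟩
    refine ⟨i, j, ?_, rfl⟩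
    rw [SimpleGraph.fromRel_adj]
    exact ⟨h1, adjB_iff.1 h2⟩

theorem fam_graph (x : Inst) :
    fam x.graph = gr x.n (x.edges.map (fun p => ((p.1 : ℕ), (p.2 : ℕ)))) := by
  have hm : ∀ i j : Fin x.n, ((i : ℕ), (j : ℕ)) ∈ x.edges.map (fun p => ((p.1 : ℕ), (p.2 : ℕ))) ↔
      (i, j) ∈ x.edges := by
    intro i j
    rw [List.mem_map]
    constructor
    · rintro ⟨⟨a, b⟩, hab, he⟩
      have h1 : (a : ℕ) = i := congrArg Prod.fst he
      have h2 : (b : ℕ) = j := congrArg Prod.snd he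
      rw [Fin.ext h1, Fin.ext h2] at hab
      exact hab
    · intro h
      exact ⟨(i, j), h, rfl⟩
  ext e
  rw [mem_fam', mem_gr']
  unfold Inst.graph
  constructor
  · rintro ⟨i, j, h, rfl⟩
    rw [SimpleGraph.fromRel_adj] at h
    refine ⟨i, j, h.1, rfl, adjB_iff.2 ?_⟩
    rw [hm, hm]
    exact h.2
  · rintro ⟨i, j, h1, rfl, h2⟩
    refine ⟨i, j, ?_, rfl⟩
    rw [SimpleGraph.fromRel_adj]
    have h3 := adjB_iff.1 h2
    rw [hm, hm] at h3
    exact ⟨h1, h3⟩

theorem conn_fam {G : SimpleGraph (Fin n)} (hn : 4 ≤ n) :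
    ThreeConnected G ↔ Conn (fam G) 2 := by
  constructor
  · rintro ⟨-, h⟩ S hS x y hx hy L hL hxL
    have hc := (h S hS).preconnected ⟨x, hx⟩ ⟨y, hy⟩
    obtain ⟨p⟩ := hc
    have key : ∀ (a b : {v : Fin n | v ∉ S}), (G.induce {v | v ∉ S}).Walk a b →
        (a : Fin n) ∈ L → (b : Fin n) ∈ L := by
      intro a b q
      induction q with
      | nil => exact id
      | @cons u v w hadj q ih =>
        intro ha
        exact ih (hL.2 _ ha _ v.2 (mem_fam.2 hadj))
    exact key _ _ p hxL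
  · intro h
    refine ⟨hn, fun S hS => ?_⟩
    have hne : ∃ v : Fin n, v ∉ S := by
      by_contra hcon
      push Not at hcon
      have h1 : (univ : Finset (Fin n)) ⊆ S := fun v _ => hcon v
      have h2 := card_le_card h1
      rw [card_univ, Fintype.card_fin] at h2
      omega
    obtain ⟨v, hv⟩ := hne
    have : Nonempty {v : Fin n | v ∉ S} := ⟨⟨v, hv⟩⟩
    refine SimpleGraph.Connected.mk fun x y => ?_
    classical
    let L : Finset (Fin n) := univ.filter
      (fun a => ∃ ha : a ∉ S, (G.induce {v | v ∉ S}).Reachable x ⟨a, ha⟩)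
    have hmL : ∀ a, a ∈ L ↔ ∃ ha : a ∉ S, (G.induce {v | v ∉ S}).Reachable x ⟨a, ha⟩ := by
      intro a
      simp only [L, mem_filter, mem_univ, true_and]
    have hcl : Closed (fam G) S L := by
      refine ⟨?_, ?_⟩
      · rw [Finset.disjoint_left]
        intro a ha
        exact ((hmL a).1 ha).1
      · intro a ha b hb hab
        obtain ⟨ha1, ha2⟩ := (hmL a).1 ha
        refine (hmL b).2 ⟨hb, ha2.trans ?_⟩
        refine SimpleGraph.Adj.reachable ?_
        exact mem_fam.1 hab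
    have := h S hS x y x.2 y.2 L hcl ((hmL _).2 ⟨x.2, SimpleGraph.Reachable.refl _⟩)
    obtain ⟨hy1, hy2⟩ := (hmL _).1 this
    exact hy2

private theorem fam_coe (G : SimpleGraph (Fin n)) :
    (fam G : Set (Finset (Fin n))) = Sym2.toFinset '' G.edgeSet := by
  ext e
  rw [mem_coe, mem_fam_iff, Set.mem_image]

private theorem fam_card (G : SimpleGraph (Fin n)) : (fam G).card = G.edgeSet.ncard := by
  rw [← Set.ncard_coe_finset, fam_coe, Set.ncard_image_of_injective _ tf_inj]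

private theorem fam_card_in (G : SimpleGraph (Fin n)) (X : Finset (Fin n)) :
    ((fam G).filter (fun e => e ⊆ X)).card = {e ∈ G.edgeSet | ∀ v ∈ e, v ∈ X}.ncard := by
  rw [← Set.ncard_coe_finset, ← Set.ncard_image_of_injective _ tf_inj]
  congr 1
  ext e
  rw [mem_coe, mem_filter, mem_fam_iff, Set.mem_image]
  constructor
  · rintro ⟨⟨z, hz, rfl⟩, he⟩
    exact ⟨z, ⟨hz, fun v hv => he (Sym2.mem_toFinset.2 hv)⟩, rfl⟩
  · rintro ⟨z, ⟨hz, hz2⟩, rfl⟩
    exact ⟨⟨z, hz, rfl⟩, fun v hv => hz2 v (Sym2.mem_toFinset.1 hv)⟩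

private theorem fam_le {G H : SimpleGraph (Fin n)} : fam H ⊆ fam G ↔ H ≤ G := by
  constructor
  · intro h i j hij
    exact mem_fam.1 (h (mem_fam.2 hij))
  · intro h e he
    obtain ⟨i, j, hij, rfl⟩ := mem_fam'.1 he
    exact mem_fam.2 (h hij)

theorem lRigid_fam {G : SimpleGraph (Fin n)} : LamanRigid G ↔ LRigid (fam G) := by
  constructor
  · rintro ⟨H, hH, h1, h2⟩
    refine ⟨fam H, fam_le.2 hH, fun X hX => ?_, ?_⟩
    · rw [fam_card_in]
      exact h2 X hX
    · rw [fam_card, Fintype.card_fin]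
      exact h1
  · rintro ⟨I, hI, h1, h2⟩
    obtain ⟨F', -, hF'⟩ := fam_of_isG (F := I) (fun e he => fam_isG G e (hI he))
    refine ⟨SimpleGraph.fromEdgeSet (F' : Set (Sym2 (Fin n))), fam_le.1 (by rw [hF']; exact hI),
      ?_, fun X hX => ?_⟩
    · rw [← fam_card, hF', h2, Fintype.card_fin]
    · rw [← fam_card_in, hF']
      exact h1 X hX

theorem fam_delete {G : SimpleGraph (Fin n)} (i j : Fin n) (h : G.Adj i j) :
    fam (G.deleteEdges {s(i, j)}) = (fam G).erase {i, j} := by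
  ext e
  rw [mem_erase, mem_fam', mem_fam']
  constructor
  · rintro ⟨a, b, hab, rfl⟩
    rw [SimpleGraph.deleteEdges_adj] at hab
    exact ⟨fun hc => hab.2 (pair_eq.1 hc), a, b, hab.1, rfl⟩
  · rintro ⟨h1, a, b, hab, rfl⟩
    refine ⟨a, b, ?_, rfl⟩
    rw [SimpleGraph.deleteEdges_adj]
    exact ⟨hab, fun hc => h1 (pair_eq.2 hc)⟩

theorem comb_iff {G : SimpleGraph (Fin n)} (hn : 4 ≤ n) :
    CombGloballyRigid G ↔ MC (fam G) ∧ Conn (fam G) 2 := by
  have hr : (∀ e ∈ G.edgeSet, LamanRigid (G.deleteEdges {e})) ↔ Redund (fam G) := by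
    constructor
    · intro h e he
      obtain ⟨i, j, hij, rfl⟩ := mem_fam'.1 he
      rw [← fam_delete i j hij]
      exact lRigid_fam.1 (h _ (G.mem_edgeSet.2 hij))
    · intro h z hz
      induction z with
      | _ i j =>
        have hij := G.mem_edgeSet.1 hz
        rw [lRigid_fam, fam_delete i j hij]
        exact h _ (mem_fam.2 hij)
  unfold CombGloballyRigid
  rw [hr, conn_fam hn]
  constructor
  · rintro (⟨h, -⟩ | ⟨h1, h2⟩)
    · omega
    · exact ⟨redund_MC (fam_isG G) (by rw [Fintype.card_fin]; exact hn) h1 h2, h1⟩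
  · rintro ⟨h1, h2⟩
    exact Or.inr ⟨h2, MC.redund (fam_isG G) (by rw [Fintype.card_fin]; omega) h1⟩

end Pool.Agent.GRA
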