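import Pool.Agent.GRA.SG1

/-!
# GRA/SG2: the algorithm solves the combinatorial problem

PROOF of `comb_solves`. `l = x.edges.map …`, `L = solve x.n l`, `y = (L.length, L)`.
`n ≥ 4`: `solve_spec`, `comb_iff`, `fam_sup`, `fam_graph`, `fam_newEdges`; minimality: for `F` with the property,
`fam (fromEdgeSet F)` is a family of pairs with at most `|F|` members.
`n ≤ 3`: `CombGloballyRigid G ↔ G = ⊤` (`ThreeConnected` needs `4 ≤ n`). `solve` returns the list of the pairs `(j,i)`,
`j < i < n`, which are not adjacent: adding them gives the complete graph. If `G ⊔ fromEdgeSet F = ⊤` then `F`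
contains `s(j,i)` for every pair of the list; the list has no repetitions, so its length is `≤ |F|`.
-/

namespace Pool.Agent.GRA

open Finset Stmt

/-- The output of the algorithm. -/
def answer (n : ℕ) (l : List (ℕ × ℕ)) : ℕ × List (ℕ × ℕ) := ((solve n l).length, solve n l)

theorem comb_small {n : ℕ} (hn : n ≤ 3) (G : SimpleGraph (Fin n)) :
    CombGloballyRigid G ↔ G = ⊤ := by
  constructor
  · rintro (⟨-, h⟩ | ⟨⟨h, -⟩, -⟩)
    · exact h
    · omega
  · intro h
    exact Or.inl ⟨hn, h⟩

private theorem solves_big (x : Inst) (hn : 4 ≤ x.n) :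
    Solves (fun {n} G => CombGloballyRigid (n := n) G) x
      (answer x.n (x.edges.map (fun p => ((p.1 : ℕ), (p.2 : ℕ))))) := by
  obtain ⟨h1, h2, h3, h4⟩ := solve_spec hn (x.edges.map (fun p => ((p.1 : ℕ), (p.2 : ℕ))))
  refine ⟨?_, rfl, ?_, ?_⟩
  · intro p hp
    have := h1 p hp
    exact ⟨this.1.trans this.2, this.2, this.1.ne⟩
  · show CombGloballyRigid _
    rw [comb_iff hn, fam_sup, fam_graph]
    have e : fam (newEdges x.n
        (answer x.n (x.edges.map (fun p => ((p.1 : ℕ), (p.2 : ℕ))))).2) =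
        gr x.n (solve x.n (x.edges.map (fun p => ((p.1 : ℕ), (p.2 : ℕ))))) := fam_newEdges _
    rw [e]
    exact ⟨h2, h3⟩
  · intro F hF
    have hF' : CombGloballyRigid
        (x.graph ⊔ SimpleGraph.fromEdgeSet (F : Set (Sym2 (Fin x.n)))) := hF
    rw [comb_iff hn, fam_sup, fam_graph] at hF'
    exact (h4 _ (fam_isG _) hF'.1 hF'.2).trans (fam_fromEdgeSet_card F)

private theorem solves_small (x : Inst) (hn : x.n ≤ 3) :
    Solves (fun {n} G => CombGloballyRigid (n := n) G) x
      (answer x.n (x.edges.map (fun p => ((p.1 : ℕ), (p.2 : ℕ))))) := by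
  generalize hl : x.edges.map (fun p => ((p.1 : ℕ), (p.2 : ℕ))) = l
  have hfam : fam x.graph = gr x.n l := by rw [fam_graph, hl]
  have hs : solve x.n l = (pairsL x.n).filter (fun p => !(adjB l p.1 p.2)) := by
    unfold solve
    rw [if_pos hn]
  have hm : ∀ p, p ∈ solve x.n l ↔ (p.1 < p.2 ∧ p.2 < x.n) ∧ ¬ adjB l p.1 p.2 = true := by
    intro p
    rw [hs, List.mem_filter, mem_pairsL]
    simp
  refine ⟨?_, rfl, ?_, ?_⟩
  · intro p hp
    have := ((hm p).1 hp).1
    exact ⟨this.1.trans this.2, this.2, this.1.ne⟩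
  · show CombGloballyRigid _
    rw [comb_small hn]
    have key : ∀ i j : Fin x.n, i < j →
        (x.graph ⊔ newEdges x.n (answer x.n l).2).Adj i j := by
      intro i j hij
      rw [← mem_fam, fam_sup, hfam, mem_union]
      have e : fam (newEdges x.n (answer x.n l).2) = gr x.n (solve x.n l) := fam_newEdges _
      rw [e, mem_gr, mem_gr]
      by_cases h : adjB l i j = true
      · exact Or.inl ⟨hij.ne, h⟩
      · exact Or.inr ⟨hij.ne, adjB_iff.2 (Or.inl ((hm (i, j)).2 ⟨⟨hij, j.2⟩, h⟩))⟩
    ext i j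
    rw [SimpleGraph.top_adj]
    constructor
    · intro h
      exact h.ne
    · intro h
      rcases lt_or_gt_of_ne h with h' | h'
      · exact key i j h'
      · exact (key j i h').symm
  · intro F hF
    have hF' : CombGloballyRigid
        (x.graph ⊔ SimpleGraph.fromEdgeSet (F : Set (Sym2 (Fin x.n)))) := hF
    rw [comb_small hn] at hF'
    have hnd : (solve x.n l).Nodup := by
      rw [hs]
      exact (pairsL_EL x.n).1.filter _
    have h1 : (solve x.n l).toFinset.image (pr x.n) ⊆
        fam (SimpleGraph.fromEdgeSet (F : Set (Sym2 (Fin x.n)))) := by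
      intro e he
      obtain ⟨p, hp, rfl⟩ := mem_image.1 he
      obtain ⟨hp1, hp2⟩ := (hm p).1 (List.mem_toFinset.1 hp)
      have h2 : pr x.n p ∈ fam (x.graph ⊔ SimpleGraph.fromEdgeSet (F : Set (Sym2 (Fin x.n)))) := by
        obtain ⟨i, j, hij, he'⟩ := card_eq_two.1 (pr_card hp1)
        rw [he', hF', mem_fam, SimpleGraph.top_adj]
        exact hij
      rw [fam_sup, hfam, mem_union] at h2
      rcases h2 with h2 | h2
      · exact absurd ((pr_mem_gr hp1).1 h2) hp2
      · exact h2
    have h3 := card_le_card h1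
    rw [card_image_of_injOn, List.toFinset_card_of_nodup hnd] at h3
    · exact h3.trans (fam_fromEdgeSet_card F)
    · intro p hp q hq hpq
      have hp' := ((hm p).1 (List.mem_toFinset.1 (mem_coe.1 hp))).1
      have hq' := ((hm q).1 (List.mem_toFinset.1 (mem_coe.1 hq))).1
      exact pr_inj hp' hq' hpq

theorem comb_solves (x : Inst) :
    Solves (fun {n} G => CombGloballyRigid (n := n) G) x
      (answer x.n (x.edges.map (fun p => ((p.1 : ℕ), (p.2 : ℕ))))) := by
  rcases le_or_gt x.n 3 with h | h
  · exact solves_small x h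
  · exact solves_big x h

end Pool.Agent.GRA
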