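import Mathlib

/-!
# MP_d7d610_lc: definitions used in the final statement

Graphs are simple graphs on `Fin n`. Frameworks, generic realizations, rigidity and global rigidity in the
plane; Laman graphs, 3-connected graphs; inputs and outputs of the algorithm as bit strings.
-/

namespace Pool.Agent.GRA.Stmt

/-! ## Geometry -/

/-- The plane. -/
abbrev Plane : Type := EuclideanSpace ℝ (Fin 2)

variable {n : ℕ}

/-- `(G, p)` and `(G, q)` are equivalent frameworks: all edges of `G` keep their lengths. -/
def Equivalent (G : SimpleGraph (Fin n)) (p q : Fin n → Plane) : Prop :=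
  ∀ u v, G.Adj u v → dist (p u) (p v) = dist (q u) (q v)

/-- All pairs keep their distances. -/
def Congruent (p q : Fin n → Plane) : Prop :=
  ∀ u v, dist (p u) (p v) = dist (q u) (q v)

/-- The `2n` coordinates are algebraically independent over `ℚ`. -/
def Generic (p : Fin n → Plane) : Prop :=
  AlgebraicIndependent ℚ (fun x : Fin n × Fin 2 => p x.1 x.2)

/-- `G` is globally rigid in the plane: in some generic realization every equivalent framework is
congruent. -/
def GloballyRigid (G : SimpleGraph (Fin n)) : Prop :=
  ∃ p : Fin n → Plane, Generic p ∧ ∀ q, Equivalent G p q → Congruent p q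

/-- `G` is rigid in the plane: in some generic realization every sufficiently near equivalent
framework is congruent. -/
def Rigid (G : SimpleGraph (Fin n)) : Prop :=
  ∃ p : Fin n → Plane, Generic p ∧ ∃ ε > 0, ∀ q, (∀ v, dist (p v) (q v) < ε) →
    Equivalent G p q → Congruent p q

/-- `G` is minimally rigid. -/
def MinimallyRigid (G : SimpleGraph (Fin n)) : Prop :=
  Rigid G ∧ ∀ e ∈ G.edgeSet, ¬ Rigid (G.deleteEdges {e})

/-- `G - e` is rigid for every edge `e`. -/
def RedundantlyRigid (G : SimpleGraph (Fin n)) : Prop :=
  ∀ e ∈ G.edgeSet, Rigid (G.deleteEdges {e})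

/-! ## Combinatorics -/

/-- More than three vertices, and connected after the deletion of any at most two vertices. -/
def ThreeConnected (G : SimpleGraph (Fin n)) : Prop :=
  4 ≤ n ∧ ∀ S : Finset (Fin n), S.card ≤ 2 → (G.induce {v | v ∉ S}).Connected

/-- Laman graphs: `2n - 3` edges, and every set `X` of at least two vertices spans at most
`2|X| - 3` edges. -/
def IsLaman (G : SimpleGraph (Fin n)) : Prop :=
  G.edgeSet.ncard + 3 = 2 * n ∧
    ∀ X : Finset (Fin n), 2 ≤ X.card → {e ∈ G.edgeSet | ∀ v ∈ e, v ∈ X}.ncard + 3 ≤ 2 * X.card

/-- `G` contains a Laman graph on the whole vertex set. -/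
def LamanRigid (G : SimpleGraph (Fin n)) : Prop := ∃ H ≤ G, IsLaman H

/-- The combinatorial description of globally rigid graphs (Jackson and Jordan, Laman): complete with
at most three vertices, or 3-connected and `G - e` contains a Laman graph for every edge `e`. -/
def CombGloballyRigid (G : SimpleGraph (Fin n)) : Prop :=
  (n ≤ 3 ∧ G = ⊤) ∨
    (ThreeConnected G ∧ ∀ e ∈ G.edgeSet, LamanRigid (G.deleteEdges {e}))

/-- Statement of the theorem of Pollaczek-Geiringer and Laman. -/
def LamanTheorem : Prop :=
  ∀ (n : ℕ) (G : SimpleGraph (Fin n)), 2 ≤ n → (MinimallyRigid G ↔ IsLaman G)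

/-- Statement of the theorem of Jackson and Jordan. -/
def JacksonJordanTheorem : Prop :=
  ∀ (n : ℕ) (G : SimpleGraph (Fin n)), 4 ≤ n →
    (GloballyRigid G ↔ ThreeConnected G ∧ RedundantlyRigid G)

/-! ## Inputs and outputs -/

/-- Inputs: the number of vertices and a list of edges. -/
structure Inst where
  n : ℕ
  edges : List (Fin n × Fin n)

/-- The graph of an input. -/
def Inst.graph (x : Inst) : SimpleGraph (Fin x.n) :=
  SimpleGraph.fromRel (fun i j => (i, j) ∈ x.edges)

/-- A list of numbers as a word: each number in unary, followed by a zero. -/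
def encNats (l : List ℕ) : List Bool := l.flatMap (fun a => List.replicate a true ++ [false])

/-- A list of pairs as a list of numbers. -/
def flat (l : List (ℕ × ℕ)) : List ℕ := l.flatMap (fun p => [p.1, p.2])

/-- The input word: the number of vertices, then the two ends of every edge. -/
def Inst.encode (x : Inst) : List Bool :=
  encNats (x.n :: flat (x.edges.map (fun p => ((p.1 : ℕ), (p.2 : ℕ)))))

/-- The output word: a number, then the two ends of every new edge. -/
def encodeOut (y : ℕ × List (ℕ × ℕ)) : List Bool := encNats (y.1 :: flat y.2)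

/-- The graph whose edges are the pairs of a list. -/
def newEdges (n : ℕ) (L : List (ℕ × ℕ)) : SimpleGraph (Fin n) :=
  SimpleGraph.fromRel (fun i j => ((i : ℕ), (j : ℕ)) ∈ L)

/-- `y = (k, L)` solves the augmentation problem for `x` and the graph property `P`: `L` is a list of
`k` pairs of different vertices, adding them gives a graph with property `P`, and every set `F`
of pairs of vertices whose addition gives property `P` has at least `k` elements. -/
structure Solves (P : ∀ {n : ℕ}, SimpleGraph (Fin n) → Prop) (x : Inst)
    (y : ℕ × List (ℕ × ℕ)) : Prop where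
  verts : ∀ p ∈ y.2, p.1 < x.n ∧ p.2 < x.n ∧ p.1 ≠ p.2
  len : y.2.length = y.1
  good : P (x.graph ⊔ newEdges x.n y.2)
  least : ∀ F : Finset (Sym2 (Fin x.n)),
    P (x.graph ⊔ SimpleGraph.fromEdgeSet (F : Set (Sym2 (Fin x.n)))) → y.1 ≤ F.card

end Pool.Agent.GRA.Stmt
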