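import Pool.Agent.GRA.RF4
import Pool.Agent.GRA.A8
import Pool.Agent.GRA.B7

/-!
# GRA/U1: the augmentation theorem

PROOF of `augment`. `d = dof H ≥ 0` (`Indep`, `n ≥ 2`), `d + 1 ≤ γ`. Let `𝓛` be the (finite) family of all
minimal fragments `L` of `E` such that `gg H C ≤ 0` for all nonempty `C ⊆ L`. For such `L`, `fatAt_of_nbr` gives
`FatAt H L u v` with `insert u (insert v L) ≠ univ`, i.e. `Fat H L`; and `mass m L ≥ 1`. `phaseA` (with `n = d`) gives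
`F₁`, `|F₁| = d`, `Indep (H ∪ F₁)`, `dof (H ∪ F₁) = 0`, `m'` with `Feas (H ∪ F₁) m'`, `mass m' univ ≤ 2(γ - d)`. Let `𝓛'` be
the members of `𝓛` not touched by `F₁`: `Fat (H ∪ F₁) L`, `mass m' L ≥ 1`. They are minimal fragments of `E ∪ F₁`
(`minFrag_union`), and `CR (E ∪ F₁)` by `CR_sys`, so `Conn (E ∪ F₁) 1`, so they are pairwise disjoint
(`minFrag_disjoint`). `rigid_fat` for `H ∪ F₁`, `m'`, `γ - d ≥ 1`, `𝓛'` gives `F₂`, `|F₂| ≤ γ - d`,
`MC (H ∪ F₁ ∪ F₂)`, touching all of `𝓛'`. `F₀ = F₁ ∪ F₂`, `|F₀| ≤ γ`, `MC (E ∪ F₀)` by `MC_sys`.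
`F₀` touches every minimal fragment `L` of `E`: if `L ∈ 𝓛` by construction. Otherwise some nonempty `C ⊆ L` has
`gg H C ≥ 1`; `|univ \ C| ≥ |univ \ L| ≥ 3`; `gg_le_touch` gives `f ∈ F₀` meeting `C`.
PADDING. Let `P` be the set of all pairs. If `γ ≥ |P|` take `F = P`: `MC` by `MC.mono`, `Conn` by `reach_edge`.
Otherwise there is `F₀ ⊆ F ⊆ P` with `|F| = γ`; `MC (E ∪ F)`, still all minimal fragments of `E` are touched; apply
`phaseB`.
-/

namespace Pool.Agent.GRA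

open Finset

variable {α : Type*} [Fintype α] [DecidableEq α]

theorem augment {E H : Finset (Finset α)} (hE : IsG E) (hS : Sys E H)
    (hn : 4 ≤ Fintype.card α) {γ : ℕ} (hγ : dof H + 1 ≤ γ) (hc : CompB E γ) {m : α → ℕ}
    (hm : Feas H m) (hL : ∀ L, MinFrag E L → 1 ≤ mass m L) (htot : mass m univ ≤ 2 * γ) :
    ∃ F : Finset (Finset α), IsG F ∧ F.card ≤ γ ∧ MC (E ∪ F) ∧ Conn (E ∪ F) 2 := by
  classical
  have hH := hS.indep
  have hd0 : 0 ≤ dof H := hH.nonneg univ (by rw [card_univ]; omega)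
  obtain ⟨d, hd⟩ : ∃ d : ℕ, dof H = d := ⟨(dof H).toNat, (Int.toNat_of_nonneg hd0).symm⟩
  rw [hd] at hγ
  have hγ' : d + 1 ≤ γ := by exact_mod_cast hγ
  -- the minimal fragments without demand
  obtain ⟨𝓛, h𝓛⟩ : ∃ 𝓛 : Finset (Finset α), 𝓛 = univ.filter (fun L => MinFrag E L ∧
    ∀ C, C ⊆ L → C.Nonempty → gg H C ≤ 0) := ⟨_, rfl⟩
  have hmem𝓛 : ∀ L, L ∈ 𝓛 ↔ MinFrag E L ∧ ∀ C, C ⊆ L → C.Nonempty → gg H C ≤ 0 := by
    intro L
    rw [h𝓛, mem_filter]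
    exact ⟨fun h => h.2, fun h => ⟨mem_univ _, h⟩⟩
  have hfat : ∀ L ∈ 𝓛, Fat H L ∧ 1 ≤ mass m L := by
    intro L hL'
    obtain ⟨h1, h2⟩ := (hmem𝓛 L).1 hL'
    obtain ⟨hne, u, v, huv, hc', hou⟩ := h1.1
    exact ⟨⟨u, v, fatAt_of_nbr hE hS hne huv hc' h2, hou⟩, hL L h1⟩
  obtain ⟨F₁, hF₁, hF₁c, -, hI, hdof, m', hm', hmass, hLF⟩ :=
    phaseA hn d H hH hd m γ hγ' hm htot 𝓛 hfat
  have hG1 : IsG (E ∪ F₁) := fun e he => (mem_union.1 he).elim (hE e) (hF₁ e)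
  have hconn : Conn (E ∪ F₁) 1 := (CR_sys hE hF₁ hS hI hdof).conn1 hG1 (by omega)
  obtain ⟨F₂, hF₂, hF₂c, hMC, hF₂t⟩ := rigid_fat (𝓛 := 𝓛.filter (fun L => ¬ Touch F₁ L)) hI hdof
    hn hm' (γ := γ - d) (by omega) (by omega) (by
      intro L hL'
      obtain ⟨h1, h2⟩ := mem_filter.1 hL'
      rcases hLF L h1 with h3 | h3
      · exact absurd h3 h2
      · exact h3) (by
      intro L hL1 L' hL1' hne
      obtain ⟨h1, h2⟩ := mem_filter.1 hL1
      obtain ⟨h3, h4⟩ := mem_filter.1 hL1'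
      exact minFrag_disjoint hG1 hconn (minFrag_union ((hmem𝓛 L).1 h1).1 h2)
        (minFrag_union ((hmem𝓛 L').1 h3).1 h4) hne)
  obtain ⟨F₀, hF₀⟩ : ∃ F₀, F₀ = F₁ ∪ F₂ := ⟨_, rfl⟩
  have hIG0 : IsG F₀ := by
    intro e he
    rw [hF₀] at he
    exact (mem_union.1 he).elim (hF₁ e) (hF₂ e)
  have hMCH : MC (H ∪ F₀) := by
    rw [hF₀, ← union_assoc]
    exact hMC
  have hMCE : MC (E ∪ F₀) := MC_sys hE hIG0 hS hMCH
  have hcard0 : F₀.card ≤ γ := by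
    rw [hF₀]
    have := card_union_le F₁ F₂
    omega
  have hsub1 : F₁ ⊆ F₀ := by rw [hF₀]; exact subset_union_left
  have hsub2 : F₂ ⊆ F₀ := by rw [hF₀]; exact subset_union_right
  have htouch : ∀ L, MinFrag E L → Touch F₀ L := by
    intro L hLm
    by_cases hC : ∀ C, C ⊆ L → C.Nonempty → gg H C ≤ 0
    · by_cases h1 : Touch F₁ L
      · obtain ⟨f, hf, hfL⟩ := h1
        exact ⟨f, hsub1 hf, hfL⟩
      · obtain ⟨f, hf, hfL⟩ := hF₂t L (mem_filter.2 ⟨(hmem𝓛 L).2 ⟨hLm, hC⟩, h1⟩)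
        exact ⟨f, hsub2 hf, hfL⟩
    · push Not at hC
      obtain ⟨C, hCL, hCne, hgg⟩ := hC
      obtain ⟨_, u, v, huv, hc', _⟩ := hLm.1
      have hdis := disjoint_left.1 hc'.1
      have h2 : 2 ≤ (univ \ C).card := by
        refine one_lt_card.2 ⟨u, ?_, v, ?_, huv⟩
        · exact mem_sdiff.2 ⟨mem_univ _, fun h => hdis (hCL h) (by simp)⟩
        · exact mem_sdiff.2 ⟨mem_univ _, fun h => hdis (hCL h) (by simp)⟩
      have h3 := gg_le_touch (by omega) hH hIG0 hMCH hCne h2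
      have h4 : 0 < (F₀.filter (fun f => (f ∩ C).Nonempty)).card := by
        have : (0 : ℤ) < ((F₀.filter (fun f => (f ∩ C).Nonempty)).card : ℤ) := by linarith
        exact_mod_cast this
      obtain ⟨f, hf⟩ := card_pos.1 h4
      obtain ⟨hf1, t, ht⟩ := mem_filter.1 hf
      exact ⟨f, hf1, t, mem_inter.2 ⟨(mem_inter.1 ht).1, hCL (mem_inter.1 ht).2⟩⟩
  -- padding
  have hPsub : ∀ F : Finset (Finset α), IsG F → F ⊆ powersetCard 2 univ := by
    intro F hF e he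
    exact mem_powersetCard.2 ⟨subset_univ _, hF e he⟩
  have hPG : IsG (powersetCard 2 (univ : Finset α)) := fun e he => (mem_powersetCard.1 he).2
  by_cases hγP : (powersetCard 2 (univ : Finset α)).card ≤ γ
  · refine ⟨powersetCard 2 univ, hPG, hγP, hMCE.mono (union_subset_union subset_rfl
      (hPsub F₀ hIG0)), ?_⟩
    intro S _ x y _ hy
    by_cases hxy : x = y
    · rw [hxy]
      exact Reach.refl _ _ _
    · exact reach_edge (mem_union_right _ (mem_powersetCard.2 ⟨subset_univ _, card_pair hxy⟩)) hy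
  · obtain ⟨F, hF0, hFP, hFc⟩ := exists_subsuperset_card_eq (hPsub F₀ hIG0) hcard0
      (not_le.1 hγP).le
    have hFG : IsG F := fun e he => hPG e (hFP he)
    obtain ⟨F', g1, g2, g3, g4⟩ := phaseB hE hn hc hFG hFc
      (hMCE.mono (union_subset_union subset_rfl hF0)) (by
        intro L hLm
        obtain ⟨f, hf, hfL⟩ := htouch L hLm
        exact ⟨f, hF0 hf, hfL⟩)
    exact ⟨F', g1, g2.le, g3, g4⟩

end Pool.Agent.GRA
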