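import Pool.Agent.GRA.U1
import Pool.Agent.GRA.M3

/-!
# GRA/V1: the value of the augmentation number

PROOF of `compB_of_conn`. Let `u ≠ v` and let `P` be a family of pairwise disjoint nonempty sets closed for
`(E, {u,v})`. Claim: for every `G ⊆ F` there is a family `P'` of pairwise disjoint nonempty sets closed for
`(E ∪ G, {u,v})` with `|P| ≤ |P'| + |G|`. Induction: add `f = {x,y}`. If `x` or `y` is in `{u,v}`, or no member contains
exactly one of `x, y`, the members stay closed. If `x ∈ A`, `y ∈ B`, `A ≠ B` in `P'`: replace them by `A ∪ B`. If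
`x ∈ A` and `y` is in no member (or conversely): remove `A`. For `G = F`: `|P'| ≤ 1`: if `A ≠ B` in `P'`, `x ∈ A`,
`y ∈ B`, `Conn (E ∪ F) 2` gives `y ∈ A`, contradiction. So `|P| ≤ 1 + |F|`.

PROOF of `value_isLeast`. `Aug E k`. Membership: `augment` with `γ`: `Feas` is part of `FeasAll`; a minimal fragment
`L` is nonempty with `|nbr E L| ≤ 2` (`closed_iff`), so `mass m L ≥ 1` by `Dem`. Lower bound: let `F` be good with
`|F| ≤ k`. Then `|F| ≥ 4` (otherwise `Aug E 3`). `MC (H ∪ F)` (`MC_sys'`), `dof H + 1 ≤ |F|` (`dof_lt`),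
`mass m univ ≤ 2|F|` (`minmax`), `CompB E |F|` (`compB_of_conn`). The hypothesis `hγ` (minimality of `γ`) applied to
`|F|` gives `γ ≤ |F| ≤ k`.
-/

namespace Pool.Agent.GRA

open Finset

variable {α : Type*} [Fintype α] [DecidableEq α]

/-- `k` new pairs suffice. -/
def Aug (E : Finset (Finset α)) (k : ℕ) : Prop :=
  ∃ F : Finset (Finset α), IsG F ∧ F.card ≤ k ∧ MC (E ∪ F) ∧ Conn (E ∪ F) 2

private theorem v1_pair {a b x y : α} (h : ({a, b} : Finset α) = {x, y}) :
    (a = x ∧ b = y) ∨ (a = y ∧ b = x) := by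
  have h1 : a ∈ ({x, y} : Finset α) := by rw [← h]; simp
  have h2 : b ∈ ({x, y} : Finset α) := by rw [← h]; simp
  have h3 : x ∈ ({a, b} : Finset α) := by rw [h]; simp
  have h4 : y ∈ ({a, b} : Finset α) := by rw [h]; simp
  rw [mem_insert, mem_singleton] at h1 h2 h3 h4
  rcases h1 with rfl | rfl
  · rcases h4 with rfl | rfl
    · rcases h2 with rfl | rfl
      · exact Or.inl ⟨rfl, rfl⟩
      · exact Or.inl ⟨rfl, rfl⟩
    · exact Or.inl ⟨rfl, rfl⟩
  · rcases h3 with rfl | rfl
    · rcases h2 with rfl | rfl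
      · exact Or.inl ⟨rfl, rfl⟩
      · exact Or.inl ⟨rfl, rfl⟩
    · exact Or.inr ⟨rfl, rfl⟩

/-- one new pair, some member contains exactly one of its elements -/
private theorem v1_stepA {E P : Finset (Finset α)} {S : Finset α} {x y : α}
    (hP : ∀ A ∈ P, A.Nonempty ∧ Closed E S A)
    (hd : ∀ A ∈ P, ∀ B ∈ P, A ≠ B → Disjoint A B) {A : Finset α} (hA : A ∈ P) (hx : x ∈ A)
    (hy : y ∉ A) :
    ∃ P' : Finset (Finset α), (∀ A ∈ P', A.Nonempty ∧ Closed (insert {x, y} E) S A) ∧
      (∀ A ∈ P', ∀ B ∈ P', A ≠ B → Disjoint A B) ∧ P.card ≤ P'.card + 1 := by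
  obtain ⟨g, hg⟩ : ∃ g : Finset α → Finset α, ∀ B, g B = if y ∈ B then B ∪ A else B :=
    ⟨fun B => if y ∈ B then B ∪ A else B, fun _ => rfl⟩
  have hsub : ∀ B, B ⊆ g B := by
    intro B
    rw [hg]
    split_ifs
    · exact subset_union_left
    · exact subset_rfl
  have hsub' : ∀ B, g B ⊆ B ∪ A := by
    intro B
    rw [hg]
    split_ifs
    · exact subset_rfl
    · exact subset_union_left
  have hyB : ∀ B z, z ∈ g B → z ∉ B → y ∈ B := by
    intro B z hz hzB
    rw [hg] at hz
    split_ifs at hz with h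
    · exact h
    · exact absurd hz hzB
  have hdis : ∀ B ∈ P.erase A, ∀ B' ∈ P.erase A, B ≠ B' → Disjoint (g B) (g B') := by
    intro B hB B' hB' hne
    have hB1 := (mem_erase.1 hB)
    have hB2 := (mem_erase.1 hB')
    have d1 := disjoint_left.1 (hd B hB1.2 B' hB2.2 hne)
    have d2 := disjoint_left.1 (hd B hB1.2 A hA hB1.1)
    have d3 := disjoint_left.1 (hd B' hB2.2 A hA hB2.1)
    rw [disjoint_left]
    intro z hz hz'
    by_cases h1 : z ∈ B
    · by_cases h2 : z ∈ B'
      · exact d1 h1 h2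
      · rcases mem_union.1 (hsub' B' hz') with h3 | h3
        · exact h2 h3
        · exact d2 h1 h3
    · rcases mem_union.1 (hsub' B hz) with h3 | h3
      · exact h1 h3
      · by_cases h2 : z ∈ B'
        · exact d3 h2 h3
        · exact d1 (hyB B z hz h1) (hyB B' z hz' h2)
  have hinj : Set.InjOn g (P.erase A : Finset (Finset α)) := by
    intro B hB B' hB' h
    by_contra hne
    have hB1 := mem_coe.1 hB
    have hB2 := mem_coe.1 hB'
    obtain ⟨b, hb⟩ := (hP B (mem_erase.1 hB1).2).1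
    have h1 := hdis B hB1 B' hB2 hne
    rw [← h] at h1
    exact disjoint_left.1 h1 (hsub B hb) (hsub B hb)
  refine ⟨(P.erase A).image g, ?_, ?_, ?_⟩
  · intro C hC
    obtain ⟨B, hB, rfl⟩ := mem_image.1 hC
    have hB1 := mem_erase.1 hB
    obtain ⟨hne, hcl⟩ := hP B hB1.2
    have hclA := (hP A hA).2
    have d2 := disjoint_left.1 (hd B hB1.2 A hA hB1.1)
    refine ⟨hne.mono (hsub B), ?_, ?_⟩
    · rw [disjoint_left]
      intro z hz
      rcases mem_union.1 (hsub' B hz) with h | h
      · exact disjoint_left.1 hcl.1 h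
      · exact disjoint_left.1 hclA.1 h
    · intro a ha b hb hab
      rcases mem_insert.1 hab with h | h
      · rcases v1_pair h with ⟨rfl, rfl⟩ | ⟨rfl, rfl⟩
        · have h1 : a ∉ B := fun h => d2 h hx
          exact hsub B (hyB B a ha h1)
        · have h1 : a ∈ B := by
            rcases mem_union.1 (hsub' B ha) with h | h
            · exact h
            · exact absurd h hy
          rw [hg, if_pos h1]
          exact mem_union_right _ hx
      · by_cases h1 : a ∈ B
        · exact hsub B (hcl.2 a h1 b hb h)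
        · have h2 := hyB B a ha h1
          rw [hg, if_pos h2]
          refine mem_union_right _ (hclA.2 a ?_ b hb h)
          rcases mem_union.1 (hsub' B ha) with h | h
          · exact absurd h h1
          · exact h
  · intro C hC C' hC' hne
    obtain ⟨B, hB, rfl⟩ := mem_image.1 hC
    obtain ⟨B', hB', rfl⟩ := mem_image.1 hC'
    exact hdis B hB B' hB' fun h => hne (by rw [h])
  · rw [card_image_of_injOn hinj, card_erase_of_mem hA]
    omega

/-- one new pair -/
private theorem v1_step {E P : Finset (Finset α)} {S : Finset α} (x y : α)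
    (hP : ∀ A ∈ P, A.Nonempty ∧ Closed E S A)
    (hd : ∀ A ∈ P, ∀ B ∈ P, A ≠ B → Disjoint A B) :
    ∃ P' : Finset (Finset α), (∀ A ∈ P', A.Nonempty ∧ Closed (insert {x, y} E) S A) ∧
      (∀ A ∈ P', ∀ B ∈ P', A ≠ B → Disjoint A B) ∧ P.card ≤ P'.card + 1 := by
  by_cases h1 : ∃ A ∈ P, x ∈ A ∧ y ∉ A
  · obtain ⟨A, hA, hx, hy⟩ := h1
    exact v1_stepA hP hd hA hx hy
  · by_cases h2 : ∃ A ∈ P, y ∈ A ∧ x ∉ A
    · obtain ⟨A, hA, hy, hx⟩ := h2
      rw [pair_comm]
      exact v1_stepA hP hd hA hy hx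
    · push Not at h1 h2
      refine ⟨P, fun A hA => ⟨(hP A hA).1, (hP A hA).2.1, ?_⟩, hd, by omega⟩
      intro a ha b hb hab
      rcases mem_insert.1 hab with h | h
      · rcases v1_pair h with ⟨rfl, rfl⟩ | ⟨rfl, rfl⟩
        · exact h1 A hA ha
        · exact h2 A hA ha
      · exact (hP A hA).2.2 a ha b hb h

private theorem v1_all {S : Finset α} (hS : S.card ≤ 2) (F : Finset (Finset α)) (hF : IsG F) :
    ∀ E P : Finset (Finset α), (∀ A ∈ P, A.Nonempty ∧ Closed E S A) →
      (∀ A ∈ P, ∀ B ∈ P, A ≠ B → Disjoint A B) → Conn (E ∪ F) 2 → P.card ≤ F.card + 1 := by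
  classical
  induction F using Finset.induction_on with
  | empty =>
    intro E P hP hd hc
    rw [union_empty] at hc
    rw [card_empty, zero_add, card_le_one]
    intro A hA B hB
    by_contra hne
    obtain ⟨a, ha⟩ := (hP A hA).1
    obtain ⟨b, hb⟩ := (hP B hB).1
    have h1 := hc S hS a b (disjoint_left.1 (hP A hA).2.1 ha)
      (disjoint_left.1 (hP B hB).2.1 hb) A (hP A hA).2 ha
    exact disjoint_left.1 (hd A hA B hB hne) h1 hb
  | insert f F hf ih =>
    intro E P hP hd hc
    obtain ⟨x, y, -, rfl⟩ := card_eq_two.1 (hF f (mem_insert_self _ _))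
    obtain ⟨P', h1, h2, h3⟩ := v1_step x y hP hd
    have h4 := ih (fun e he => hF e (mem_insert_of_mem he)) (insert {x, y} E) P' h1 h2 (by
      rw [insert_union, ← union_insert]
      exact hc)
    rw [card_insert_of_notMem hf]
    omega

theorem compB_of_conn {E F : Finset (Finset α)} (hF : IsG F) (h : Conn (E ∪ F) 2) :
    CompB E F.card := by
  intro u v _ P hP hd
  exact v1_all card_le_two F hF E P hP hd h

theorem value_isLeast {E H : Finset (Finset α)} (hE : IsG E) (hS : Sys E H)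
    (hn : 4 ≤ Fintype.card α) {m : α → ℕ} (hm : MinDem E H m) (h3 : ¬ Aug E 3) {γ : ℕ}
    (h1 : dof H + 1 ≤ γ) (h2 : mass m univ ≤ 2 * γ) (hc : CompB E γ)
    (hγ : ∀ k : ℕ, dof H + 1 ≤ k → mass m univ ≤ 2 * k → CompB E k → γ ≤ k) :
    IsLeast {k | Aug E k} γ := by
  constructor
  · refine augment hE hS hn h1 hc (fun C hC _ => hm.1.1 C hC) (fun L hL => ?_) h2
    obtain ⟨hne, u, v, -, hcl, -⟩ := hL.1
    exact hm.1.2 L hne ((card_le_card (closed_iff.1 hcl).2).trans card_le_two)
  · rintro k ⟨F, hF, hFk, hMC, hconn⟩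
    have h4 : 4 ≤ F.card := by
      by_contra hlt
      exact h3 ⟨F, hF, by omega, hMC, hconn⟩
    have h5 := dof_lt (by omega) hS.indep hF (MC_sys' hS hMC) (card_pos.1 (by omega))
    have h6 := minmax hE hS hn hm hF hMC hconn h4
    exact (hγ F.card h5 h6 (compB_of_conn hF hconn)).trans hFk

end Pool.Agent.GRA
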