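import Pool.Agent.GRA.GD
import Pool.Agent.GRA.V1

/-!
# GRA/V2: the computed value is the augmentation number

PROOF of `valB_isLeast`. `exists_sys` gives `H`; `dof H = 2n - 3 - |basis|` (`basis_rank` for the `EL` list
`edgesL n l`, `gr_edgesL`), `|basis| ≤ 2n - 3` since `dof H ≥ 0`; so `2n - 3 - |basis| + 1` (natural subtraction)
is `dof H + 1`. `greedy_minDem`: `m`, `mass m univ = (greedyB n l).sum`. `ncomp_spec`: `CompB (gr n l) γ` iff
`ncompB - 1 ≤ γ` for all pairs, iff the fold maximum is `≤ γ`. `valB` is the maximum of the three numbers, so the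
hypotheses of `value_isLeast` hold for `γ = valB n l`.

PROOF of `good_any`. `Aug (gr n l) k` iff there is a family of at most `k` pairs; `∃ F` with `|F| ≤ k`: for
`k = 0`: `goodB n l`; for a pair `p ∈ pairsL n`, `gr n (p :: l) = insert (pr n p) (gr n l)`.
`aug_succ`: `Aug (gr n l) (k+1) ↔ Aug (gr n l) k ∨ ∃ p ∈ pairsL n, Aug (gr n (p :: l)) k`. (→) `F` with `|F| ≤ k + 1`; if
`|F| ≤ k` left; otherwise pick `f ∈ F`, `f = pr n p` (`exists_pr`), `F.erase f` works for `p :: l`. (←) `insert (pr n p) F`.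
`aug_zero`: `Aug (gr n l) 0 ↔ goodB n l = true` (`n ≥ 4`).
PROOF of `augB_isLeast`: case distinction: `augB n l = k` for `k ≤ 3` iff `Aug k` and not `Aug (k-1)`, by unfolding
`aug_succ`, `aug_zero`; for the second test `(∃ p, goodB (p :: l))` etc. Otherwise `¬ Aug (gr n l) 3`,
`valB_isLeast`.
-/

namespace Pool.Agent.GRA

open Finset

private theorem v2_fold {n : ℕ} {l : List (ℕ × ℕ)} (L : List (ℕ × ℕ)) : ∀ a k : ℕ,
    L.foldl (fun a p => max a (ncompB n l p.1 p.2 - 1)) a ≤ k ↔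
      a ≤ k ∧ ∀ p ∈ L, ncompB n l p.1 p.2 ≤ k + 1 := by
  induction L with
  | nil => intro a k; simp
  | cons q L ih =>
    intro a k
    rw [List.foldl_cons, ih, List.forall_mem_cons]
    constructor
    · rintro ⟨h1, h2⟩
      have h4 := le_trans (le_max_left _ _) h1
      have h5 := le_trans (le_max_right _ _) h1
      exact ⟨h4, by omega, h2⟩
    · rintro ⟨h1, h2, h4⟩
      exact ⟨max_le h1 (by omega), h4⟩

theorem valB_isLeast {n : ℕ} (hn : 4 ≤ n) {l : List (ℕ × ℕ)} (h3 : ¬ Aug (gr n l) 3) :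
    IsLeast {k | Aug (gr n l) k} (valB n l) := by
  obtain ⟨H, hS⟩ := exists_sys (gr n l) (gr_isG n l)
  obtain ⟨hm, hs⟩ := greedy_minDem (by omega) hS
  have hr : dof H = 2 * (n : ℤ) - 3 - ((basis n (edgesL n l)).length : ℤ) := by
    apply basis_rank (edgesL_EL n l)
    rw [gr_edgesL]
    exact hS
  have h0 : 0 ≤ dof H :=
    hS.indep.nonneg univ (by rw [card_univ, Fintype.card_fin]; omega)
  have hd : ((2 * n - 3 - (basis n (edgesL n l)).length + 1 : ℕ) : ℤ) = dof H + 1 := by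
    omega
  have hfold := v2_fold (n := n) (l := l) (pairsL n) 0
  refine value_isLeast (gr_isG n l) hS (by rw [Fintype.card_fin]; exact hn) hm h3 ?_ ?_ ?_ ?_
  · rw [← hd]
    exact_mod_cast le_trans (le_max_left _ _) (le_max_left _ _)
  · rw [hs]
    have h1 : ((greedyB n l).sum + 1) / 2 ≤ valB n l :=
      le_trans (le_max_right _ _) (le_max_left _ _)
    omega
  · rw [ncomp_spec]
    exact ((hfold (valB n l)).1 (le_max_right _ _)).2
  · intro k h1 h2 h4
    rw [ncomp_spec] at h4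
    rw [hs] at h2
    refine max_le (max_le ?_ ?_) ((hfold k).2 ⟨Nat.zero_le _, h4⟩)
    · rw [← hd] at h1
      exact_mod_cast h1
    · omega

theorem aug_zero {n : ℕ} (hn : 4 ≤ n) {l : List (ℕ × ℕ)} :
    Aug (gr n l) 0 ↔ goodB n l = true := by
  rw [goodB_iff hn]
  constructor
  · rintro ⟨F, -, hc, h1, h2⟩
    have h4 : F = ∅ := card_eq_zero.1 (Nat.le_zero.1 hc)
    subst h4
    rw [union_empty] at h1 h2
    exact ⟨h1, h2⟩
  · rintro ⟨h1, h2⟩
    refine ⟨∅, fun e he => absurd he (notMem_empty e), by simp, ?_, ?_⟩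
    · rw [union_empty]
      exact h1
    · rw [union_empty]
      exact h2

theorem aug_succ {n : ℕ} {l : List (ℕ × ℕ)} {k : ℕ} :
    Aug (gr n l) (k + 1) ↔ Aug (gr n l) k ∨ ∃ p ∈ pairsL n, Aug (gr n (p :: l)) k := by
  constructor
  · rintro ⟨F, hF, hc, h1, h2⟩
    by_cases hk : F.card ≤ k
    · exact Or.inl ⟨F, hF, hk, h1, h2⟩
    · right
      obtain ⟨f, hf⟩ := card_pos.1 (show 0 < F.card by omega)
      obtain ⟨p, hp, rfl⟩ := exists_pr (hF f hf)
      have h4 : gr n (p :: l) ∪ F.erase (pr n p) = gr n l ∪ F := by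
        rw [gr_cons hp, insert_union, ← union_insert, insert_erase hf]
      refine ⟨p, mem_pairsL.2 hp, F.erase (pr n p), fun e he => hF e (mem_of_mem_erase he), ?_,
        ?_, ?_⟩
      · rw [card_erase_of_mem hf]
        omega
      · rw [h4]
        exact h1
      · rw [h4]
        exact h2
  · rintro (⟨F, hF, hc, h1, h2⟩ | ⟨p, hp, F, hF, hc, h1, h2⟩)
    · exact ⟨F, hF, by omega, h1, h2⟩
    · have hp' := mem_pairsL.1 hp
      have h4 : gr n l ∪ insert (pr n p) F = gr n (p :: l) ∪ F := by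
        rw [gr_cons hp', insert_union, ← union_insert]
      refine ⟨insert (pr n p) F, fun e he => ?_, ?_, ?_, ?_⟩
      · rcases mem_insert.1 he with rfl | h
        · exact pr_card hp'
        · exact hF e h
      · exact (card_insert_le _ _).trans (by omega)
      · rw [h4]
        exact h1
      · rw [h4]
        exact h2

private theorem aug_mono {n : ℕ} {l : List (ℕ × ℕ)} {k k' : ℕ} (hk : k ≤ k')
    (h : Aug (gr n l) k) : Aug (gr n l) k' := by
  obtain ⟨F, hF, hc, h1⟩ := h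
  exact ⟨F, hF, hc.trans hk, h1⟩

private theorem isLeast_of {n : ℕ} {l : List (ℕ × ℕ)} {k : ℕ} (h : Aug (gr n l) (k + 1))
    (h' : ¬ Aug (gr n l) k) : IsLeast {k | Aug (gr n l) k} (k + 1) := by
  refine ⟨h, fun j hj => ?_⟩
  by_contra hlt
  exact h' (aug_mono (by omega) hj)

private theorem aug_one {n : ℕ} (hn : 4 ≤ n) {l : List (ℕ × ℕ)} :
    Aug (gr n l) 1 ↔ goodB n l = true ∨ ∃ p ∈ pairsL n, goodB n (p :: l) = true := by
  rw [aug_succ, aug_zero hn]
  simp only [aug_zero hn]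

private theorem aug_two {n : ℕ} (hn : 4 ≤ n) {l : List (ℕ × ℕ)} :
    Aug (gr n l) 2 ↔ Aug (gr n l) 1 ∨
      ∃ p ∈ pairsL n, ∃ q ∈ pairsL n, goodB n (q :: p :: l) = true := by
  rw [aug_succ]
  constructor
  · rintro (h | ⟨p, hp, h⟩)
    · exact Or.inl h
    · rcases (aug_one hn).1 h with h | h
      · exact Or.inl ((aug_one hn).2 (Or.inr ⟨p, hp, h⟩))
      · exact Or.inr ⟨p, hp, h⟩
  · rintro (h | ⟨p, hp, h⟩)
    · exact Or.inl h
    · exact Or.inr ⟨p, hp, (aug_one hn).2 (Or.inr h)⟩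

private theorem aug_three {n : ℕ} (hn : 4 ≤ n) {l : List (ℕ × ℕ)} :
    Aug (gr n l) 3 ↔ Aug (gr n l) 2 ∨
      ∃ p ∈ pairsL n, ∃ q ∈ pairsL n, ∃ r ∈ pairsL n, goodB n (r :: q :: p :: l) = true := by
  rw [aug_succ]
  constructor
  · rintro (h | ⟨p, hp, h⟩)
    · exact Or.inl h
    · rcases (aug_two hn).1 h with h | h
      · exact Or.inl (aug_succ.2 (Or.inr ⟨p, hp, h⟩))
      · exact Or.inr ⟨p, hp, h⟩
  · rintro (h | ⟨p, hp, h⟩)
    · exact Or.inl h
    · exact Or.inr ⟨p, hp, (aug_two hn).2 (Or.inr h)⟩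

theorem augB_isLeast {n : ℕ} (hn : 4 ≤ n) (l : List (ℕ × ℕ)) :
    IsLeast {k | Aug (gr n l) k} (augB n l) := by
  rw [augB]
  by_cases h0 : goodB n l = true
  · rw [if_pos h0]
    exact ⟨(aug_zero hn).2 h0, fun k _ => Nat.zero_le k⟩
  rw [if_neg h0]
  have g0 : ¬ Aug (gr n l) 0 := fun h => h0 ((aug_zero hn).1 h)
  by_cases h1 : (pairsL n).any (fun p => goodB n (p :: l)) = true
  · rw [if_pos h1]
    rw [List.any_eq_true] at h1
    exact isLeast_of ((aug_one hn).2 (Or.inr h1)) g0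
  rw [if_neg h1]
  have g1 : ¬ Aug (gr n l) 1 := by
    intro h
    rcases (aug_one hn).1 h with h | h
    · exact h0 h
    · exact h1 (List.any_eq_true.2 h)
  by_cases h2 : (pairsL n).any (fun p => (pairsL n).any (fun q => goodB n (p :: q :: l))) = true
  · rw [if_pos h2]
    obtain ⟨p, hp, h2⟩ := List.any_eq_true.1 h2
    obtain ⟨q, hq, h2⟩ := List.any_eq_true.1 h2
    exact isLeast_of ((aug_two hn).2 (Or.inr ⟨q, hq, p, hp, h2⟩)) g1
  rw [if_neg h2]
  have g2 : ¬ Aug (gr n l) 2 := by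
    intro h
    rcases (aug_two hn).1 h with h | ⟨p, hp, q, hq, h⟩
    · exact g1 h
    · exact h2 (List.any_eq_true.2 ⟨q, hq, List.any_eq_true.2 ⟨p, hp, h⟩⟩)
  by_cases h3 : (pairsL n).any (fun p => (pairsL n).any (fun q => (pairsL n).any (fun r =>
    goodB n (p :: q :: r :: l)))) = true
  · rw [if_pos h3]
    obtain ⟨p, hp, h3⟩ := List.any_eq_true.1 h3
    obtain ⟨q, hq, h3⟩ := List.any_eq_true.1 h3
    obtain ⟨r, hr, h3⟩ := List.any_eq_true.1 h3
    exact isLeast_of ((aug_three hn).2 (Or.inr ⟨r, hr, q, hq, p, hp, h3⟩)) g2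
  rw [if_neg h3]
  refine valB_isLeast hn fun h => ?_
  rcases (aug_three hn).1 h with h | ⟨p, hp, q, hq, r, hr, h⟩
  · exact g2 h
  · exact h3 (List.any_eq_true.2 ⟨r, hr, List.any_eq_true.2 ⟨q, hq, List.any_eq_true.2 ⟨p, hp, h⟩⟩⟩)

end Pool.Agent.GRA
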